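import Pool.Agent.R970.WM.Stm

/-!
# WM-AE: almost every parameter is good for all pairs of sets (project WM, MP_8d8e6a_an)
-/

open MeasureTheory Set Filter Topology
open scoped symmDiff

namespace R970.WM.AEaux

variable {X : Type} [MeasurableSpace X] {μ : Measure X} {T : X → X} {n r : ℕ} {ix : X → Fin n}

lemma mF_norm (m : Fin r → ℤ) (x : UnitAddTorus (Fin r)) :
    ‖UnitAddTorus.mFourier m x‖ ≤ 1 := by
  have h := (UnitAddTorus.mFourier m).norm_coe_le_norm x
  rwa [UnitAddTorus.mFourier_norm] at h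

lemma chi_norm (A : Set X) (x : X) : ‖chi A x‖ ≤ 1 := by
  unfold chi
  by_cases h : x ∈ A
  · rw [indicator_of_mem h, norm_one]
  · rw [indicator_of_notMem h, norm_zero]
    exact zero_le_one

lemma chi_meas {A : Set X} (hA : MeasurableSet A) : Measurable (chi A) :=
  measurable_const.indicator hA

lemma coc_meas (hT : Measurable T) (hix : Measurable ix) (g : Fin n → UnitAddTorus (Fin r))
    (k : ℕ) : Measurable (fun x => coc T ix g k x) := by
  unfold coc
  refine Finset.measurable_fun_sum _ fun j _ => ?_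
  exact (measurable_of_finite g).comp (hix.comp (hT.iterate j))

/-- the integrand -/
noncomputable def fi (T : X → X) (ix : X → Fin n) (g : Fin n → UnitAddTorus (Fin r))
    (m : Fin r → ℤ) (u v : X → ℂ) (k : ℕ) (x : X) : ℂ :=
  UnitAddTorus.mFourier m (coc T ix g k x) * u (T^[k] x) * v x

lemma fi_norm {u v : X → ℂ} (hu : ∀ x, ‖u x‖ ≤ 1) (hv : ∀ x, ‖v x‖ ≤ 1)
    (g : Fin n → UnitAddTorus (Fin r)) (m : Fin r → ℤ) (k : ℕ) (x : X) :
    ‖fi T ix g m u v k x‖ ≤ 1 := by
  unfold fi
  rw [norm_mul, norm_mul]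
  exact mul_le_one₀ (mul_le_one₀ (mF_norm m _) (norm_nonneg _) (hu _)) (norm_nonneg _) (hv _)

lemma fi_meas (hT : Measurable T) (hix : Measurable ix) {u v : X → ℂ} (hu : Measurable u)
    (hv : Measurable v) (g : Fin n → UnitAddTorus (Fin r)) (m : Fin r → ℤ) (k : ℕ) :
    Measurable (fi T ix g m u v k) := by
  unfold fi
  exact (((UnitAddTorus.mFourier m).continuous.measurable.comp (coc_meas hT hix g k)).mul
    (hu.comp (hT.iterate k))).mul hv

lemma corr_cont [IsProbabilityMeasure μ] (hT : Measurable T) (hix : Measurable ix) {u v : X → ℂ}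
    (hu : Measurable u) (hv : Measurable v) (hu1 : ∀ x, ‖u x‖ ≤ 1) (hv1 : ∀ x, ‖v x‖ ≤ 1)
    (m : Fin r → ℤ) (k : ℕ) :
    Continuous (fun g : Fin n → UnitAddTorus (Fin r) => corr μ T ix g m u v k) := by
  unfold corr
  refine continuous_of_dominated (bound := fun _ => 1)
    (fun g => (fi_meas hT hix hu hv g m k).aestronglyMeasurable)
    (fun g => Eventually.of_forall fun x => fi_norm hu1 hv1 g m k x)
    (integrable_const 1) (Eventually.of_forall fun x => ?_)
  refine Continuous.mul (Continuous.mul ((UnitAddTorus.mFourier m).continuous.comp ?_)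
    continuous_const) continuous_const
  unfold coc
  exact continuous_finsetSum _ fun j _ => continuous_apply _

lemma corr_norm [IsProbabilityMeasure μ] {u v : X → ℂ} (hu1 : ∀ x, ‖u x‖ ≤ 1)
    (hv1 : ∀ x, ‖v x‖ ≤ 1) (g : Fin n → UnitAddTorus (Fin r)) (m : Fin r → ℤ) (k : ℕ) :
    ‖corr μ T ix g m u v k‖ ≤ 1 := by
  have h := norm_integral_le_of_norm_le_const (μ := μ) (C := 1)
    (Eventually.of_forall fun x => fi_norm (T := T) (ix := ix) hu1 hv1 g m k x)
  rw [probReal_univ, mul_one] at h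
  exact h

lemma corr_int [IsProbabilityMeasure μ] (hT : Measurable T) (hix : Measurable ix) {u v : X → ℂ}
    (hu : Measurable u) (hv : Measurable v) (hu1 : ∀ x, ‖u x‖ ≤ 1) (hv1 : ∀ x, ‖v x‖ ≤ 1)
    (m : Fin r → ℤ) (k : ℕ) :
    Integrable (fun g : Fin n → UnitAddTorus (Fin r) => ‖corr μ T ix g m u v k‖ ^ 2) := by
  refine Integrable.of_bound
    ((corr_cont hT hix hu hv hu1 hv1 m k).norm.pow 2).aestronglyMeasurable 1
    (Eventually.of_forall fun g => ?_)
  rw [Real.norm_of_nonneg (by positivity)]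
  exact pow_le_one₀ (norm_nonneg _) (corr_norm hu1 hv1 g m k)

/-- one pair of sets -/
lemma one (ha : Stm.avg) (hm : Stm.mean) [IsProbabilityMeasure μ] (hT : MeasurePreserving T μ μ)
    (hE : Ergodic (Prod.map T T) (μ.prod μ)) (hix : Measurable ix) (k0 : Fin n)
    (h0 : 0 < μ (ix ⁻¹' {k0})) (h1 : μ (ix ⁻¹' {k0}) < 1) (m : Fin r → ℤ) (hm0 : m ≠ 0)
    {A B : Set X} (hA : MeasurableSet A) (hB : MeasurableSet B) :
    ∀ᵐ g : Fin n → UnitAddTorus (Fin r), ∀ ε : ℝ, 0 < ε → ∃ᶠ N : ℕ in atTop,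
      (∑ k ∈ Finset.range N, ‖corr μ T ix g m (chi A) (chi B) k‖ ^ 2) / (N:ℝ) < ε := by
  have hAm := chi_meas hA
  have hBm := chi_meas hB
  have hp := ha X μ T hT hE (ix ⁻¹' {k0}) (hix (measurableSet_singleton k0)) h0 h1
  have hci : ∀ k, Integrable (fun g : Fin n → UnitAddTorus (Fin r) =>
      ‖corr μ T ix g m (chi A) (chi B) k‖ ^ 2) := fun k =>
    corr_int hT.measurable hix hAm hBm (chi_norm A) (chi_norm B) m k
  set a : ℕ → (Fin n → UnitAddTorus (Fin r)) → ℝ := fun N g =>
    (∑ k ∈ Finset.range N, ‖corr μ T ix g m (chi A) (chi B) k‖ ^ 2) / (N:ℝ) with hadef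
  have hai : ∀ N, Integrable (a N) := fun N =>
    (integrable_finsetSum _ fun k _ => hci k).div_const _
  have ha0 : ∀ N g, 0 ≤ a N g := fun N g =>
    div_nonneg (Finset.sum_nonneg fun k _ => by positivity) (Nat.cast_nonneg N)
  have hint : ∀ N, ∫ g, a N g ≤ (∑ k ∈ Finset.range N,
      ((μ.prod μ).real {p : X × X | vis T (ix ⁻¹' {k0}) k p.1 = vis T (ix ⁻¹' {k0}) k p.2})) /
      (N:ℝ) := by
    intro N
    rw [hadef]
    simp only
    rw [integral_div, integral_finsetSum _ fun k _ => hci k]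
    apply div_le_div_of_nonneg_right _ (Nat.cast_nonneg N)
    exact Finset.sum_le_sum fun k _ => hm X μ T hT n r ix hix k0 m hm0 (chi A) (chi B) hAm hBm
      (chi_norm A) (chi_norm B) k
  have key : ∀ (j : ℕ) (M : ℕ), ∀ᵐ g : Fin n → UnitAddTorus (Fin r),
      ¬ ∀ N, M ≤ N → 1 / ((j:ℝ) + 1) ≤ a N g := by
    intro j M
    set ε : ℝ := 1 / ((j:ℝ) + 1) with hε
    have hε0 : 0 < ε := by positivity
    rw [ae_iff]
    simp only [not_not]
    set S := {g : Fin n → UnitAddTorus (Fin r) | ∀ N, M ≤ N → ε ≤ a N g} with hS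
    have hle : ∀ N, M ≤ N → ε * (volume : Measure (Fin n → UnitAddTorus (Fin r))).real S ≤
        (∑ k ∈ Finset.range N,
      ((μ.prod μ).real {p : X × X | vis T (ix ⁻¹' {k0}) k p.1 = vis T (ix ⁻¹' {k0}) k p.2})) /
      (N:ℝ) := by
      intro N hN
      have h2 := mul_meas_ge_le_integral_of_nonneg (Eventually.of_forall (ha0 N)) (hai N) ε
      refine le_trans ?_ (h2.trans (hint N))
      apply mul_le_mul_of_nonneg_left _ hε0.le
      exact measureReal_mono (fun g hg => hg N hN)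
    have hlim : ε * (volume : Measure (Fin n → UnitAddTorus (Fin r))).real S ≤ 0 :=
      ge_of_tendsto hp (eventually_atTop.2 ⟨M, fun N hN => hle N hN⟩)
    have h3 : (volume : Measure (Fin n → UnitAddTorus (Fin r))).real S = 0 := by
      have h4 : 0 ≤ (volume : Measure (Fin n → UnitAddTorus (Fin r))).real S := measureReal_nonneg
      nlinarith
    exact (measureReal_eq_zero_iff).1 h3
  have key2 := ae_all_iff.2 fun j => ae_all_iff.2 (key j)
  filter_upwards [key2] with g hg ε hε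
  obtain ⟨j, hj⟩ := exists_nat_one_div_lt hε
  rw [frequently_atTop]
  intro M
  have h5 := hg j M
  simp only [not_forall, not_le] at h5
  obtain ⟨N, hN, hlt⟩ := h5
  exact ⟨N, hN, hlt.trans hj⟩

lemma chi_sub (A A' : Set X) (x : X) : ‖chi A x - chi A' x‖ = (A ∆ A').indicator (fun _ => (1:ℝ)) x := by
  unfold chi
  by_cases h : x ∈ A <;> by_cases h' : x ∈ A'
  · rw [indicator_of_mem h, indicator_of_mem h', sub_self, norm_zero, indicator_of_notMem]
    rw [mem_symmDiff]
    tauto
  · rw [indicator_of_mem h, indicator_of_notMem h', sub_zero, norm_one, indicator_of_mem]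
    rw [mem_symmDiff]
    tauto
  · rw [indicator_of_notMem h, indicator_of_mem h', zero_sub, norm_neg, norm_one, indicator_of_mem]
    rw [mem_symmDiff]
    tauto
  · rw [indicator_of_notMem h, indicator_of_notMem h', sub_self, norm_zero, indicator_of_notMem]
    rw [mem_symmDiff]
    tauto

/-- change of the sets -/
lemma corr_sub [IsProbabilityMeasure μ] (hT : MeasurePreserving T μ μ) (hix : Measurable ix)
    {A A' B B' : Set X} (hA : MeasurableSet A) (hA' : MeasurableSet A') (hB : MeasurableSet B)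
    (hB' : MeasurableSet B') (g : Fin n → UnitAddTorus (Fin r)) (m : Fin r → ℤ) (k : ℕ) :
    ‖corr μ T ix g m (chi A) (chi B) k - corr μ T ix g m (chi A') (chi B') k‖ ≤
      μ.real (A ∆ A') + μ.real (B ∆ B') := by
  have hint : ∀ {C D : Set X}, MeasurableSet C → MeasurableSet D →
      Integrable (fi T ix g m (chi C) (chi D) k) μ := fun hC hD =>
    Integrable.of_bound (fi_meas hT.measurable hix (chi_meas hC) (chi_meas hD) g m k).aestronglyMeasurable
      1 (Eventually.of_forall fun x => fi_norm (chi_norm _) (chi_norm _) g m k x)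
  have e1 : corr μ T ix g m (chi A) (chi B) k - corr μ T ix g m (chi A') (chi B') k =
      ∫ x, (fi T ix g m (chi A) (chi B) k x - fi T ix g m (chi A') (chi B') k x) ∂μ :=
    (integral_sub (hint hA hB) (hint hA' hB')).symm
  rw [e1]
  have hS : MeasurableSet (A ∆ A') := hA.symmDiff hA'
  have hS' : MeasurableSet (B ∆ B') := hB.symmDiff hB'
  have i1 : Integrable ((A ∆ A').indicator (fun _ => (1:ℝ))) μ :=
    (integrable_const 1).indicator hS
  have i2 : Integrable ((B ∆ B').indicator (fun _ => (1:ℝ))) μ :=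
    (integrable_const 1).indicator hS'
  have hTk := hT.iterate k
  have i1' : Integrable (fun x => (A ∆ A').indicator (fun _ => (1:ℝ)) (T^[k] x)) μ :=
    hTk.integrable_comp_of_integrable i1
  refine (norm_integral_le_integral_norm _).trans ?_
  have e2 : ∫ x, (A ∆ A').indicator (fun _ => (1:ℝ)) (T^[k] x) ∂μ = μ.real (A ∆ A') := by
    have h := integral_map (μ := μ) (φ := T^[k]) hTk.measurable.aemeasurable
      (f := (A ∆ A').indicator (fun _ => (1:ℝ))) (by
        exact (measurable_const.indicator hS).aestronglyMeasurable)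
    rw [hTk.map_eq] at h
    rw [← h, integral_indicator_const _ hS, smul_eq_mul, mul_one]
  have e3 : ∫ x, (B ∆ B').indicator (fun _ => (1:ℝ)) x ∂μ = μ.real (B ∆ B') := by
    rw [integral_indicator_const _ hS', smul_eq_mul, mul_one]
  rw [← e2, ← e3, ← integral_add i1' i2]
  refine integral_mono_of_nonneg (Eventually.of_forall fun x => norm_nonneg _) (i1'.add i2)
    (Eventually.of_forall fun x => ?_)
  show ‖fi T ix g m (chi A) (chi B) k x - fi T ix g m (chi A') (chi B') k x‖ ≤
    (A ∆ A').indicator (fun _ => (1:ℝ)) (T^[k] x) + (B ∆ B').indicator (fun _ => (1:ℝ)) x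
  rw [← chi_sub, ← chi_sub]
  unfold fi
  have e4 : UnitAddTorus.mFourier m (coc T ix g k x) * chi A (T^[k] x) * chi B x -
      UnitAddTorus.mFourier m (coc T ix g k x) * chi A' (T^[k] x) * chi B' x =
      UnitAddTorus.mFourier m (coc T ix g k x) * ((chi A (T^[k] x) - chi A' (T^[k] x)) * chi B x +
        chi A' (T^[k] x) * (chi B x - chi B' x)) := by ring
  rw [e4, norm_mul]
  have h1 := mF_norm m (coc T ix g k x)
  have h2 : ‖(chi A (T^[k] x) - chi A' (T^[k] x)) * chi B x +
        chi A' (T^[k] x) * (chi B x - chi B' x)‖ ≤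
      ‖chi A (T^[k] x) - chi A' (T^[k] x)‖ + ‖chi B x - chi B' x‖ := by
    refine (norm_add_le _ _).trans (add_le_add ?_ ?_)
    · rw [norm_mul]
      exact mul_le_of_le_one_right (norm_nonneg _) (chi_norm B x)
    · rw [norm_mul]
      exact mul_le_of_le_one_left (norm_nonneg _) (chi_norm A' _)
  calc ‖UnitAddTorus.mFourier m (coc T ix g k x)‖ *
      ‖(chi A (T^[k] x) - chi A' (T^[k] x)) * chi B x + chi A' (T^[k] x) * (chi B x - chi B' x)‖
      ≤ 1 * (‖chi A (T^[k] x) - chi A' (T^[k] x)‖ + ‖chi B x - chi B' x‖) :=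
        mul_le_mul h1 h2 (norm_nonneg _) zero_le_one
    _ = _ := one_mul _

end R970.WM.AEaux

namespace R970.WM

open AEaux in
theorem aeGood (ha : Stm.avg) (hm : Stm.mean) : Stm.aeGood := by
  intro X _ _ μ _ T hT hE n r ix hix k0 h0 h1
  haveI : IsSeparable μ := isSeparable_of_sigmaFinite μ
  obtain ⟨F, hFc, hF⟩ := exists_countable_measureDense μ
  have key : ∀ᵐ g : Fin n → UnitAddTorus (Fin r), ∀ m : Fin r → ℤ, ∀ A ∈ F, ∀ B ∈ F,
      m ≠ 0 → ∀ ε : ℝ, 0 < ε → ∃ᶠ N : ℕ in atTop,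
      (∑ k ∈ Finset.range N, ‖corr μ T ix g m (chi A) (chi B) k‖ ^ 2) / (N:ℝ) < ε := by
    rw [ae_all_iff]
    intro m
    rw [ae_ball_iff hFc]
    intro A hA
    rw [ae_ball_iff hFc]
    intro B hB
    by_cases hm0 : m = 0
    · exact Eventually.of_forall fun g h => absurd hm0 h
    · filter_upwards [one ha hm hT hE hix k0 h0 h1 m hm0 (hF.measurable A hA)
        (hF.measurable B hB)] with g hg _
      exact hg
  filter_upwards [key] with g hg m hm0 A B hA hB ε hε
  obtain ⟨δ, hδ, hδε⟩ : ∃ δ : ℝ, 0 < δ ∧ 8 * δ ^ 2 < ε / 2 := by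
    refine ⟨min 1 (ε / 32), lt_min one_pos (by positivity), ?_⟩
    have h2 : min 1 (ε / 32) ≤ ε / 32 := min_le_right _ _
    have h3 : min 1 (ε / 32) ≤ 1 := min_le_left _ _
    have h4 : 0 < min 1 (ε / 32) := lt_min one_pos (by positivity)
    nlinarith
  obtain ⟨A', hA', hAd⟩ := hF.approx A hA (measure_ne_top μ A) δ hδ
  obtain ⟨B', hB', hBd⟩ := hF.approx B hB (measure_ne_top μ B) δ hδ
  have hAr : μ.real (A ∆ A') ≤ δ := by
    rw [measureReal_def]
    exact ENNReal.toReal_le_of_le_ofReal hδ.le hAd.le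
  have hBr : μ.real (B ∆ B') ≤ δ := by
    rw [measureReal_def]
    exact ENNReal.toReal_le_of_le_ofReal hδ.le hBd.le
  have hf := hg m A' hA' B' hB' hm0 (ε / 4) (by positivity)
  have hf2 := hf.and_eventually (eventually_gt_atTop 0)
  refine hf2.mono ?_
  rintro N ⟨hN, hN0⟩
  have hN' : (0 : ℝ) < N := by exact_mod_cast hN0
  have hterm : ∀ k, ‖corr μ T ix g m (chi A) (chi B) k‖ ^ 2 ≤
      2 * ‖corr μ T ix g m (chi A') (chi B') k‖ ^ 2 + 8 * δ ^ 2 := by
    intro k
    have h2 := corr_sub hT hix hA (hF.measurable A' hA') hB (hF.measurable B' hB') g m k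
    have h3 := norm_le_norm_add_norm_sub' (corr μ T ix g m (chi A) (chi B) k)
      (corr μ T ix g m (chi A') (chi B') k)
    have h4 : ‖corr μ T ix g m (chi A) (chi B) k‖ ≤
        ‖corr μ T ix g m (chi A') (chi B') k‖ + 2 * δ := by linarith
    have h5 : 0 ≤ ‖corr μ T ix g m (chi A) (chi B) k‖ := norm_nonneg _
    have h6 : 0 ≤ ‖corr μ T ix g m (chi A') (chi B') k‖ := norm_nonneg _
    have h7 := pow_le_pow_left₀ h5 h4 2
    nlinarith [sq_nonneg (‖corr μ T ix g m (chi A') (chi B') k‖ - 2 * δ)]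
  have hsum : ∑ k ∈ Finset.range N, ‖corr μ T ix g m (chi A) (chi B) k‖ ^ 2 ≤
      2 * ∑ k ∈ Finset.range N, ‖corr μ T ix g m (chi A') (chi B') k‖ ^ 2 + N * (8 * δ ^ 2) := by
    refine (Finset.sum_le_sum fun k _ => hterm k).trans (le_of_eq ?_)
    rw [Finset.sum_add_distrib, Finset.sum_const, Finset.card_range, nsmul_eq_mul, Finset.mul_sum]
  rw [div_lt_iff₀ hN'] at hN ⊢
  nlinarith

end R970.WM
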