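import Pool.Agent.R970.WM.Stm

open MeasureTheory Set Filter Topology

namespace R970.WM

namespace AE265

variable {X : Type} [MeasurableSpace X]

lemma meas_coc {n r : ℕ} (T : X → X) (hT : Measurable T)
    (ix : X → Fin n) (hix : Measurable ix) (k : ℕ) :
    Measurable fun p : (Fin n → UnitAddTorus (Fin r)) × X => coc T ix p.1 k p.2 := by
  unfold coc
  apply Finset.measurable_fun_sum
  intro j _
  have h1 : Measurable fun q : (Fin n → UnitAddTorus (Fin r)) × Fin n => q.1 q.2 :=
    measurable_from_prod_countable_left (fun i => measurable_pi_apply i)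
  exact h1.comp (measurable_fst.prodMk (hix.comp ((hT.iterate j).comp measurable_snd)))

lemma norm_four {r : ℕ} (m : Fin r → ℤ) (y : UnitAddTorus (Fin r)) :
    ‖UnitAddTorus.mFourier m y‖ ≤ 1 := by
  calc ‖UnitAddTorus.mFourier m y‖ ≤ ‖UnitAddTorus.mFourier m‖ :=
        ContinuousMap.norm_coe_le_norm _ _
    _ = 1 := UnitAddTorus.mFourier_norm

lemma chi_norm (A : Set X) (x : X) : ‖chi A x‖ ≤ 1 := by
  unfold chi
  by_cases h : x ∈ A <;> simp [h]

lemma chi_meas (A : Set X) (hA : MeasurableSet A) : Measurable (chi A) :=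
  measurable_const.indicator hA

lemma meas_fun {n r : ℕ} (T : X → X) (hT : Measurable T)
    (ix : X → Fin n) (hix : Measurable ix) (m : Fin r → ℤ) (A B : Set X) (hA : MeasurableSet A)
    (hB : MeasurableSet B) (k : ℕ) :
    Measurable fun p : (Fin n → UnitAddTorus (Fin r)) × X =>
      UnitAddTorus.mFourier m (coc T ix p.1 k p.2) * chi A (T^[k] p.2) * chi B p.2 := by
  have h1 : Measurable (UnitAddTorus.mFourier m : UnitAddTorus (Fin r) → ℂ) :=
    (ContinuousMap.continuous _).measurable
  exact ((h1.comp (meas_coc T hT ix hix k)).mul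
    ((chi_meas A hA).comp ((hT.iterate k).comp measurable_snd))).mul
    ((chi_meas B hB).comp measurable_snd)

lemma meas_corr (μ : Measure X) [IsProbabilityMeasure μ] {n r : ℕ} (T : X → X)
    (hT : Measurable T)
    (ix : X → Fin n) (hix : Measurable ix) (m : Fin r → ℤ) (A B : Set X) (hA : MeasurableSet A)
    (hB : MeasurableSet B) (k : ℕ) :
    Measurable fun g : Fin n → UnitAddTorus (Fin r) => corr μ T ix g m (chi A) (chi B) k := by
  have h := (meas_fun (r := r) T hT ix hix m A B hA hB k).stronglyMeasurable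
  exact h.integral_prod_right'.measurable

lemma integ (μ : Measure X) [IsProbabilityMeasure μ] {n r : ℕ} (T : X → X)
    (hT : Measurable T)
    (ix : X → Fin n) (hix : Measurable ix) (m : Fin r → ℤ) (A B : Set X) (hA : MeasurableSet A)
    (hB : MeasurableSet B) (k : ℕ) (g : Fin n → UnitAddTorus (Fin r)) :
    Integrable (fun x => UnitAddTorus.mFourier m (coc T ix g k x) * chi A (T^[k] x) * chi B x)
      μ := by
  have h := (meas_fun (r := r) T hT ix hix m A B hA hB k).comp
    (measurable_const.prodMk measurable_id : Measurable fun x : X => (g, x))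
  have h' : AEStronglyMeasurable (fun x => UnitAddTorus.mFourier m (coc T ix g k x) *
      chi A (T^[k] x) * chi B x) μ := h.aestronglyMeasurable
  apply Integrable.of_bound (C := 1) h'
  filter_upwards with x
  rw [norm_mul, norm_mul]
  have h1 := norm_four m (coc T ix g k x)
  have h2 := chi_norm A (T^[k] x)
  have h3 := chi_norm B x
  calc _ ≤ (1:ℝ) * 1 * 1 := by gcongr
    _ = 1 := by norm_num

lemma corr_norm (μ : Measure X) [IsProbabilityMeasure μ] {n r : ℕ} (T : X → X)
    (ix : X → Fin n) (m : Fin r → ℤ) (A B : Set X) (k : ℕ) (g : Fin n → UnitAddTorus (Fin r)) :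
    ‖corr μ T ix g m (chi A) (chi B) k‖ ≤ 1 := by
  unfold corr
  have h := norm_integral_le_of_norm_le_const (μ := μ) (C := 1)
    (f := fun x => UnitAddTorus.mFourier m (coc T ix g k x) * chi A (T^[k] x) * chi B x)
    (by
      filter_upwards with x
      rw [norm_mul, norm_mul]
      have h1 := norm_four m (coc T ix g k x)
      have h2 := chi_norm A (T^[k] x)
      have h3 := chi_norm B x
      calc _ ≤ (1:ℝ) * 1 * 1 := by gcongr
        _ = 1 := by norm_num)
  simpa using h

/-- for a fixed character and a fixed pair of sets almost every parameter is good -/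
lemma step1 (μ : Measure X) [IsProbabilityMeasure μ]
    (T : X → X) (hT : MeasurePreserving T μ μ)
    (n r : ℕ) (ix : X → Fin n) (hix : Measurable ix) (k0 : Fin n)
    (hav : Tendsto (fun N : ℕ => (∑ k ∈ Finset.range N,
      ((μ.prod μ).real {p : X × X | vis T (ix ⁻¹' {k0}) k p.1 = vis T (ix ⁻¹' {k0}) k p.2})) /
        (N:ℝ)) atTop (𝓝 0))
    (m : Fin r → ℤ) (A B : Set X) (hA : MeasurableSet A) (hB : MeasurableSet B)
    (hm : ∀ k : ℕ, ∫ g : Fin n → UnitAddTorus (Fin r),
      ‖corr μ T ix g m (chi A) (chi B) k‖ ^ 2 ≤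
      (μ.prod μ).real {p : X × X | vis T (ix ⁻¹' {k0}) k p.1 = vis T (ix ⁻¹' {k0}) k p.2}) :
    ∀ᵐ g : Fin n → UnitAddTorus (Fin r), ∀ ε : ℝ, 0 < ε → ∃ᶠ N : ℕ in atTop,
      (∑ k ∈ Finset.range N, ‖corr μ T ix g m (chi A) (chi B) k‖ ^ 2) / (N:ℝ) < ε := by
  set F : ℕ → (Fin n → UnitAddTorus (Fin r)) → ℝ := fun N g =>
    (∑ k ∈ Finset.range N, ‖corr μ T ix g m (chi A) (chi B) k‖ ^ 2) / (N:ℝ) with hF
  have hFk : ∀ k, Integrable (fun g : Fin n → UnitAddTorus (Fin r) =>
      ‖corr μ T ix g m (chi A) (chi B) k‖ ^ 2) := by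
    intro k
    apply Integrable.of_bound (C := 1)
    · exact ((meas_corr μ T hT.measurable ix hix m A B hA hB k).norm.pow_const 2).aestronglyMeasurable
    · filter_upwards with g
      rw [Real.norm_of_nonneg (by positivity)]
      exact pow_le_one₀ (norm_nonneg _) (corr_norm μ T ix m A B k g)
  have hFi : ∀ N, Integrable (F N) := fun N =>
    (integrable_finsetSum _ fun k _ => hFk k).div_const _
  have hF0 : ∀ N g, 0 ≤ F N g := fun N g => by simp only [hF]; positivity
  have hFint : ∀ N, ∫ g, F N g ≤ (∑ k ∈ Finset.range N,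
      ((μ.prod μ).real {p : X × X | vis T (ix ⁻¹' {k0}) k p.1 = vis T (ix ⁻¹' {k0}) k p.2})) /
        (N:ℝ) := by
    intro N
    simp only [hF]
    rw [integral_div, integral_finsetSum _ fun k _ => hFk k]
    gcongr
    exact hm _
  have key : ∀ ε : ℝ, 0 < ε → ∀ᵐ g : Fin n → UnitAddTorus (Fin r), ∃ᶠ N : ℕ in atTop,
      F N g < ε := by
    intro ε hε
    have hM : ∀ M : ℕ, volume.real {g : Fin n → UnitAddTorus (Fin r) | ∀ N, M ≤ N → ε ≤ F N g} = 0 := by
      intro M
      apply le_antisymm _ measureReal_nonneg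
      have hb : ∀ N, M ≤ N → ε * volume.real {g : Fin n → UnitAddTorus (Fin r) | ∀ N, M ≤ N → ε ≤ F N g} ≤
          (∑ k ∈ Finset.range N, ((μ.prod μ).real {p : X × X |
            vis T (ix ⁻¹' {k0}) k p.1 = vis T (ix ⁻¹' {k0}) k p.2})) / (N:ℝ) := by
        intro N hN
        refine le_trans ?_ ((mul_meas_ge_le_integral_of_nonneg
          (Eventually.of_forall (hF0 N)) (hFi N) ε).trans (hFint N))
        apply mul_le_mul_of_nonneg_left _ hε.le
        exact measureReal_mono (fun g hg => hg N hN)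
      have hlim := ge_of_tendsto hav (eventually_atTop.2 ⟨M, hb⟩)
      have := (mul_nonpos_iff_pos_imp_nonpos.1 hlim)
      by_contra hcon
      rw [not_le] at hcon
      have := mul_pos hε hcon
      linarith
    have hM2 : ∀ M : ℕ, ∀ᵐ g : Fin n → UnitAddTorus (Fin r), ¬ (∀ N, M ≤ N → ε ≤ F N g) := by
      intro M
      rw [ae_iff]
      simp only [not_not]
      have := hM M
      rwa [measureReal_eq_zero_iff] at this
    filter_upwards [ae_all_iff.2 hM2] with g hg
    rw [frequently_atTop]
    intro M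
    have := hg M
    push Not at this
    exact this
  have key2 : ∀ j : ℕ, ∀ᵐ g : Fin n → UnitAddTorus (Fin r), ∃ᶠ N : ℕ in atTop,
      F N g < 1 / ((j:ℝ) + 1) := fun j => key _ (by positivity)
  filter_upwards [ae_all_iff.2 key2] with g hg ε hε
  obtain ⟨j, hj⟩ := exists_nat_one_div_lt hε
  exact (hg j).mono fun N hN => hN.trans hj

lemma corr_diff (μ : Measure X) [IsProbabilityMeasure μ]
    (T : X → X) (hT : MeasurePreserving T μ μ)
    {n r : ℕ} (ix : X → Fin n) (hix : Measurable ix) (m : Fin r → ℤ) (A B A' B' : Set X)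
    (hA : MeasurableSet A) (hB : MeasurableSet B) (hA' : MeasurableSet A')
    (hB' : MeasurableSet B') (k : ℕ) (g : Fin n → UnitAddTorus (Fin r)) :
    ‖corr μ T ix g m (chi A) (chi B) k‖ ≤ ‖corr μ T ix g m (chi A') (chi B') k‖ +
      (μ.real (symmDiff A A') + μ.real (symmDiff B B')) := by
  have h1 : ‖corr μ T ix g m (chi A) (chi B) k - corr μ T ix g m (chi A') (chi B') k‖ ≤
      μ.real (symmDiff A A') + μ.real (symmDiff B B') := by
    unfold corr
    rw [← integral_sub (integ μ T hT.measurable ix hix m A B hA hB k g)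
      (integ μ T hT.measurable ix hix m A' B' hA' hB' k g)]
    have hTk : MeasurePreserving (T^[k]) μ μ := hT.iterate k
    have e1 : ∫ x, (symmDiff A A').indicator (fun _ => (1:ℝ)) (T^[k] x) ∂μ =
        μ.real (symmDiff A A') := by
      have : (fun x => (symmDiff A A').indicator (fun _ => (1:ℝ)) (T^[k] x)) =
          ((T^[k]) ⁻¹' (symmDiff A A')).indicator (fun _ => (1:ℝ)) := by
        ext x; rfl
      rw [this, integral_indicator_const _ (hTk.measurable (hA.symmDiff hA'))]
      rw [measureReal_def, hTk.measure_preimage (hA.symmDiff hA').nullMeasurableSet]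
      simp [measureReal_def]
    have e2 : ∫ x, (symmDiff B B').indicator (fun _ => (1:ℝ)) x ∂μ =
        μ.real (symmDiff B B') := by
      rw [integral_indicator_const _ (hB.symmDiff hB')]
      simp
    have i1 : Integrable (fun x => (symmDiff A A').indicator (fun _ => (1:ℝ)) (T^[k] x)) μ := by
      apply Integrable.of_bound (C := 1)
      · exact ((measurable_const.indicator (hA.symmDiff hA')).comp
          hTk.measurable).aestronglyMeasurable
      · filter_upwards with x
        simp only [indicator]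
        split_ifs <;> simp
    have i2 : Integrable (fun x => (symmDiff B B').indicator (fun _ => (1:ℝ)) x) μ := by
      apply Integrable.of_bound (C := 1)
      · exact (measurable_const.indicator (hB.symmDiff hB')).aestronglyMeasurable
      · filter_upwards with x
        simp only [indicator]
        split_ifs <;> simp
    rw [← e1, ← e2, ← integral_add i1 i2]
    apply norm_integral_le_of_norm_le (i1.add i2)
    filter_upwards with x
    have h2 := norm_four m (coc T ix g k x)
    rw [mul_assoc, mul_assoc, ← mul_sub, norm_mul]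
    refine (mul_le_mul_of_nonneg_right h2 (norm_nonneg _)).trans ?_
    rw [one_mul]
    have ind1 : ∀ (C D : Set X) (y : X), (symmDiff C D).indicator (fun _ => (1:ℝ)) y =
        ‖chi C y - chi D y‖ := by
      intro C D y
      by_cases c1 : y ∈ C <;> by_cases c2 : y ∈ D
      · rw [indicator_of_notMem (by rw [Set.mem_symmDiff]; tauto)]
        simp [chi, c1, c2]
      · rw [indicator_of_mem (by rw [Set.mem_symmDiff]; tauto)]
        simp [chi, c1, c2]
      · rw [indicator_of_mem (by rw [Set.mem_symmDiff]; tauto)]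
        simp [chi, c1, c2]
      · rw [indicator_of_notMem (by rw [Set.mem_symmDiff]; tauto)]
        simp [chi, c1, c2]
    simp only [Pi.add_apply, ind1]
    by_cases a1 : T^[k] x ∈ A <;> by_cases a2 : T^[k] x ∈ A' <;> by_cases a3 : x ∈ B <;>
      by_cases a4 : x ∈ B' <;> simp [chi, a1, a2, a3, a4]
  have h3 := norm_sub_norm_le (corr μ T ix g m (chi A) (chi B) k)
    (corr μ T ix g m (chi A') (chi B') k)
  linarith

end AE265

open AE265 in
theorem aeGood (ha : Stm.avg) (hm : Stm.mean) : Stm.aeGood := by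
  intro X _ _ μ _ T hT herg n r ix hix k0 hk0 hk1
  have hav := ha X μ T hT herg (ix ⁻¹' {k0}) (hix (measurableSet_singleton _)) hk0 hk1
  haveI := isSeparable_of_sigmaFinite μ
  obtain ⟨𝒜, hc, hd⟩ := exists_countable_measureDense μ
  have h1 : ∀ᵐ g : Fin n → UnitAddTorus (Fin r), ∀ m : {m : Fin r → ℤ // m ≠ 0},
      ∀ A ∈ 𝒜, ∀ B ∈ 𝒜, ∀ ε : ℝ, 0 < ε → ∃ᶠ N : ℕ in atTop,
      (∑ k ∈ Finset.range N, ‖corr μ T ix g m.1 (chi A) (chi B) k‖ ^ 2) / (N:ℝ) < ε := by
    rw [ae_all_iff]
    intro m
    rw [ae_ball_iff hc]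
    intro A hA
    rw [ae_ball_iff hc]
    intro B hB
    exact step1 μ T hT n r ix hix k0 hav m.1 A B (hd.measurable A hA) (hd.measurable B hB)
      (fun k => hm X μ T hT n r ix hix k0 m.1 m.2 (chi A) (chi B)
        (chi_meas A (hd.measurable A hA)) (chi_meas B (hd.measurable B hB))
        (chi_norm A) (chi_norm B) k)
  filter_upwards [h1] with g hg m hm0 A B hA hB ε hε
  set δ : ℝ := min 1 (ε / 32) with hδ
  have hδ0 : 0 < δ := lt_min one_pos (by positivity)
  have hδ1 : δ ≤ 1 := min_le_left _ _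
  have hδ2 : δ ≤ ε / 32 := min_le_right _ _
  obtain ⟨A', hA', hAA⟩ := hd.approx A hA (measure_ne_top _ _) δ hδ0
  obtain ⟨B', hB', hBB⟩ := hd.approx B hB (measure_ne_top _ _) δ hδ0
  have hAr : μ.real (symmDiff A A') ≤ δ := by
    rw [measureReal_def]
    exact ENNReal.toReal_le_of_le_ofReal hδ0.le hAA.le
  have hBr : μ.real (symmDiff B B') ≤ δ := by
    rw [measureReal_def]
    exact ENNReal.toReal_le_of_le_ofReal hδ0.le hBB.le
  refine (hg ⟨m, hm0⟩ A' hA' B' hB' (ε / 4) (by positivity)).mono fun N hN => ?_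
  have hb : ∀ k, ‖corr μ T ix g m (chi A) (chi B) k‖ ^ 2 ≤
      2 * ‖corr μ T ix g m (chi A') (chi B') k‖ ^ 2 + 8 * δ ^ 2 := by
    intro k
    have h := corr_diff μ T hT ix hix m A B A' B' hA hB (hd.measurable _ hA')
      (hd.measurable _ hB') k g
    have h0 := norm_nonneg (corr μ T ix g m (chi A) (chi B) k)
    have h0' := norm_nonneg (corr μ T ix g m (chi A') (chi B') k)
    have h2 : ‖corr μ T ix g m (chi A) (chi B) k‖ ≤
      ‖corr μ T ix g m (chi A') (chi B') k‖ + 2 * δ := by linarith
    nlinarith [sq_nonneg (‖corr μ T ix g m (chi A') (chi B') k‖ - 2 * δ)]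
  have hs : (∑ k ∈ Finset.range N, ‖corr μ T ix g m (chi A) (chi B) k‖ ^ 2) / (N:ℝ) ≤
      2 * ((∑ k ∈ Finset.range N, ‖corr μ T ix g m (chi A') (chi B') k‖ ^ 2) / (N:ℝ)) +
        8 * δ ^ 2 := by
    rcases Nat.eq_zero_or_pos N with h | h
    · subst h; simp; positivity
    · have hN0 : (0:ℝ) < N := by exact_mod_cast h
      rw [div_le_iff₀ hN0]
      calc (∑ k ∈ Finset.range N, ‖corr μ T ix g m (chi A) (chi B) k‖ ^ 2) ≤
          ∑ k ∈ Finset.range N, (2 * ‖corr μ T ix g m (chi A') (chi B') k‖ ^ 2 + 8 * δ ^ 2) :=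
            Finset.sum_le_sum fun k _ => hb k
        _ = _ := by
            rw [Finset.sum_add_distrib, ← Finset.mul_sum]
            simp
            field_simp
  have h8 : 8 * δ ^ 2 ≤ ε / 4 := by nlinarith
  linarith

end R970.WM
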