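import Pool.Agent.R970.WM.Stm2

/-!
# Piece AP: aperiodicity
-/

set_option autoImplicit false

open MeasureTheory Set Filter Topology

namespace R970.WM

namespace AP

theorem U_sub {J : Set ℝ} (hJ : MeasurableSet J) (h : J ⊆ Ico (0 : ℝ) 1) : U J = volume J := by
  unfold U
  rw [Measure.restrict_apply hJ, inter_eq_left.2 h]

theorem U_univ : U univ = 1 := by
  unfold U
  simp

instance : IsProbabilityMeasure U := ⟨U_univ⟩

theorem noPeriod {T : ℝ → ℝ} (hT : Ergodic T U) {t l : ℝ} (hl : 0 < l) (h0 : 0 ≤ t)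
    (h1 : t + l ≤ 1) {h : ℕ} (hh : 0 < h) (hper : ∀ x ∈ Ico t (t + l), T^[h] x = x) : False := by
  have hTm : Measurable T := hT.measurable
  set ε : ℝ := min l (1 / (2 * h)) with hε
  have hhR : (0 : ℝ) < h := by exact_mod_cast hh
  have hε0 : 0 < ε := lt_min hl (by positivity)
  have hεl : ε ≤ l := min_le_left _ _
  have hεh : ε ≤ 1 / (2 * h) := min_le_right _ _
  set J : Set ℝ := Ico t (t + ε) with hJ
  have hJm : MeasurableSet J := measurableSet_Ico
  have hJ1 : J ⊆ Ico (0 : ℝ) 1 := fun x hx => ⟨h0.trans hx.1, by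
    have := hx.2
    linarith⟩
  have hUJ : U J = ENNReal.ofReal ε := by
    rw [U_sub hJm hJ1, hJ, Real.volume_Ico]
    congr 1
    ring
  set E : Set ℝ := ⋃ k ∈ Finset.range h, (T^[k]) ⁻¹' J with hE
  have hEm : MeasurableSet E :=
    Finset.measurableSet_biUnion _ fun k _ => (hTm.iterate k) hJm
  have hsub : E ⊆ T ⁻¹' E := by
    intro x hx
    simp only [hE, mem_iUnion, Finset.mem_range, mem_preimage, exists_prop] at hx ⊢
    obtain ⟨k, hk, hxk⟩ := hx
    rcases Nat.eq_zero_or_pos k with rfl | hk0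
    · refine ⟨h - 1, by omega, ?_⟩
      rw [← Function.iterate_succ_apply, Nat.succ_eq_add_one, Nat.sub_add_cancel hh]
      have hx1 : x ∈ J := by simpa using hxk
      rw [hper x ⟨hx1.1, by have := hx1.2; linarith⟩]
      exact hx1
    · refine ⟨k - 1, by omega, ?_⟩
      rw [← Function.iterate_succ_apply, Nat.succ_eq_add_one, Nat.sub_add_cancel hk0]
      exact hxk
  have hfin : U E ≠ ⊤ := measure_ne_top _ _
  have hJE : J ⊆ E := by
    intro x hx
    simp only [hE, mem_iUnion, Finset.mem_range, mem_preimage, exists_prop]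
    exact ⟨0, hh, by simpa using hx⟩
  have hpos : 0 < U E := by
    refine lt_of_lt_of_le ?_ (measure_mono hJE)
    rw [hUJ]
    exact ENNReal.ofReal_pos.2 hε0
  have hle : U E ≤ ENNReal.ofReal (1 / 2) := by
    calc U E ≤ ∑ k ∈ Finset.range h, U ((T^[k]) ⁻¹' J) := measure_biUnion_finset_le _ _
      _ = ∑ k ∈ Finset.range h, ENNReal.ofReal ε := by
          refine Finset.sum_congr rfl fun k _ => ?_
          rw [(hT.toMeasurePreserving.iterate k).measure_preimage hJm.nullMeasurableSet, hUJ]
      _ = ENNReal.ofReal (h * ε) := by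
          rw [Finset.sum_const, Finset.card_range, nsmul_eq_mul,
            ENNReal.ofReal_mul hhR.le, ENNReal.ofReal_natCast]
      _ ≤ ENNReal.ofReal (1 / 2) := by
          apply ENNReal.ofReal_le_ofReal
          have : (h : ℝ) * ε ≤ h * (1 / (2 * h)) := mul_le_mul_of_nonneg_left hεh hhR.le
          have h2 : (h : ℝ) * (1 / (2 * h)) = 1 / 2 := by field_simp
          linarith
  rcases hT.ae_empty_or_univ_of_ae_le_preimage' hEm.nullMeasurableSet
    (LE.le.eventuallyLE hsub) hfin with h2 | h2
  · have := measure_congr h2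
    rw [measure_empty] at this
    exact hpos.ne' this
  · have := measure_congr h2
    rw [U_univ] at this
    rw [this] at hle
    have h3 : ENNReal.ofReal (1 / 2) < 1 := by
      rw [← ENNReal.ofReal_one]
      exact (ENNReal.ofReal_lt_ofReal_iff one_pos).2 (by norm_num)
    exact absurd (lt_of_le_of_lt hle h3) (lt_irrefl _)

end AP

open AP in
/-- AP -/
theorem aper : Stm.aper := by
  intro n T ix s hT hG
  have hd : ∀ i ∈ s.S, s.d i ≠ 0 := by
    intro i hi h0
    have hw := hG.wne i hi
    have hsub := hG.tile.sub i hi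
    refine noPeriod hT (hG.tile.pos i hi) (hG.ha.trans hsub.1) (hsub.2.trans hG.hb)
      (List.length_pos_iff.2 hw) fun x hx => ?_
    rw [(hG.dyn i hi x hx).1, h0, add_zero]
  refine ⟨hd, ?_⟩
  have htot := hG.tile.tot
  have hlt := hG.tile.lt
  by_contra hcard
  have hc : s.S.card = 0 ∨ s.S.card = 1 := by omega
  rcases hc with h0 | h1
  · rw [Finset.card_eq_zero] at h0
    rw [h0, Finset.sum_empty] at htot
    linarith
  · obtain ⟨i, hi⟩ := Finset.card_eq_one.1 h1
    have him : i ∈ s.S := by rw [hi]; exact Finset.mem_singleton_self i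
    rw [hi, Finset.sum_singleton] at htot
    have h2 := hG.tile.sub i him
    have h3 := hG.tile.subIm i him
    exact hd i him (by linarith [h2.1, h2.2, h3.1, h3.2])

end R970.WM
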