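import Pool.Agent.R970.WM.Stm

open MeasureTheory Set Filter Topology

namespace R970.WM

theorem avg (ht : Stm.transfer) (hs : Stm.split) (hn : Stm.noCob) : Stm.avg := by
  intro X _ μ _ T hT h2 A hA h0 h1
  by_contra hc
  obtain ⟨r, hr, b, hb, hbe⟩ := ht X μ T hT h2 A hA hc
  obtain ⟨p, l, hp, hpl⟩ := hs X μ T hT h2 A hA r hr b hb hbe
  exact hn X μ T hT h2 A hA h0 h1 r hr p l hp hpl

/-- the marginal of a weakly mixing map is measure preserving -/
theorem mp_of_square {X : Type} [MeasurableSpace X] (μ : Measure X) [IsProbabilityMeasure μ]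
    (T : X → X) (h : Ergodic (Prod.map T T) (μ.prod μ)) : MeasurePreserving T μ μ := by
  have hm : Measurable (Prod.map T T) := h.measurable
  have hTm : Measurable T := by
    have : T = fun x => (Prod.map T T (x, x)).1 := by ext x; rfl
    rw [this]
    exact measurable_fst.comp (hm.comp (measurable_id.prodMk measurable_id))
  refine ⟨hTm, ?_⟩
  ext s hs
  rw [Measure.map_apply hTm hs]
  have h1 := h.toMeasurePreserving.measure_preimage (s := s ×ˢ (univ : Set X))
    (hs.prod MeasurableSet.univ).nullMeasurableSet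
  have h2 : Prod.map T T ⁻¹' (s ×ˢ (univ : Set X)) = (T ⁻¹' s) ×ˢ univ := by
    ext ⟨x, y⟩; simp
  rw [h2, Measure.prod_prod, Measure.prod_prod] at h1
  simpa using h1

theorem main (ha : Stm.aeGood) (hg : Stm.good) : Stm.main := by
  intro X _ _ μ _ T hT n r ix hix k0 h0 h1
  have hmp := mp_of_square μ T hT
  filter_upwards [ha X μ T hmp hT n r ix hix k0 h0 h1] with g hgood
  exact hg X μ T hmp hT n r ix hix g hgood

end R970.WM
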