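import Pool.Agent.R970.WM.Stm2

open MeasureTheory Set Filter Topology

namespace R970.WM

namespace AW

lemma sum_le {n : ℕ} (A : Finset (Fin n)) (t l : Fin n → ℝ) (c b : ℝ)
    (hl : ∀ i ∈ A, 0 < l i) (hA : A.Nonempty) (hsub : ∀ i ∈ A, c ≤ t i ∧ t i + l i ≤ b)
    (hsep : ∀ i ∈ A, ∀ j ∈ A, i ≠ j → t i + l i ≤ t j ∨ t j + l j ≤ t i) :
    ∑ i ∈ A, l i ≤ b - c := by
  have hcb : c ≤ b := by
    obtain ⟨i, hi⟩ := hA
    have h1 := hsub i hi
    have h2 := hl i hi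
    linarith [h1.1, h1.2]
  have hdisj : Set.PairwiseDisjoint (↑A : Set (Fin n)) (fun i => Ico (t i) (t i + l i)) := by
    intro i hi j hj hij
    rw [Function.onFun, Set.disjoint_left]
    rintro x ⟨hx1, hx2⟩ ⟨hx3, hx4⟩
    rcases hsep i hi j hj hij with h | h <;> linarith
  have hvol : volume (⋃ i ∈ A, Ico (t i) (t i + l i)) = ∑ i ∈ A, volume (Ico (t i) (t i + l i)) :=
    measure_biUnion_finset hdisj (fun i _ => measurableSet_Ico)
  have hle : volume (⋃ i ∈ A, Ico (t i) (t i + l i)) ≤ volume (Ico c b) := by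
    apply measure_mono
    intro x hx
    simp only [Set.mem_iUnion] at hx
    obtain ⟨i, hi, hx1, hx2⟩ := hx
    have h1 := hsub i hi
    exact ⟨h1.1.trans hx1, lt_of_lt_of_le hx2 h1.2⟩
  rw [hvol] at hle
  have e : ∑ i ∈ A, volume (Ico (t i) (t i + l i)) = ENNReal.ofReal (∑ i ∈ A, l i) := by
    rw [ENNReal.ofReal_sum_of_nonneg (fun i hi => (hl i hi).le)]
    refine Finset.sum_congr rfl fun i _ => ?_
    rw [Real.volume_Ico]
    congr 1
    ring
  rw [e, Real.volume_Ico] at hle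
  exact (ENNReal.ofReal_le_ofReal_iff (by linarith)).1 hle

lemma S_succ {n : ℕ} {s : ℕ → St n} {α β : ℕ → Fin n} {x0 : ℝ} (h : RSeq s α β x0) (j : ℕ) :
    (s (j+1)).S = (s j).S := by
  rw [h.step j]
  have hn := h.nt j
  unfold cutR
  split_ifs with h1 h2
  · rfl
  · rfl
  · exact absurd (le_antisymm (not_lt.1 h1) (not_lt.1 h2)) hn

lemma S_const {n : ℕ} {s : ℕ → St n} {α β : ℕ → Fin n} {x0 : ℝ} (h : RSeq s α β x0) (j : ℕ) :
    (s j).S = (s 0).S := by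
  induction j with
  | zero => rfl
  | succ j ih => rw [S_succ h j, ih]

/-- one row -/
lemma row {n : ℕ} (S A : Finset (Fin n)) (t l : Fin n → ℝ) (a b : ℝ) (hAS : A ⊆ S) (hne : A.Nonempty)
    (hne2 : (S \ A).Nonempty)
    (pos : ∀ i ∈ S, 0 < l i) (sub : ∀ i ∈ S, a ≤ t i ∧ t i + l i ≤ b)
    (sep : ∀ i ∈ S, ∀ j ∈ S, i ≠ j → t i + l i ≤ t j ∨ t j + l j ≤ t i)
    (tot : ∑ i ∈ S, l i = b - a)
    (hlt : ∀ p ∈ S \ A, ∀ q ∈ A, t p < t q) :
    (∀ i ∈ A, b - ∑ i ∈ A, l i ≤ t i) ∧ (∀ i ∈ S \ A, t i + l i ≤ b - ∑ i ∈ A, l i) := by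
  obtain ⟨q, hq, hmin⟩ := A.exists_min_image t hne
  have h1 : ∀ p ∈ S \ A, t p + l p ≤ t q := by
    intro p hp
    have hpS := (Finset.mem_sdiff.1 hp).1
    have hpA := (Finset.mem_sdiff.1 hp).2
    have hpq : p ≠ q := fun e => hpA (e ▸ hq)
    rcases sep p hpS q (hAS hq) hpq with h | h
    · exact h
    · have := hlt p hp q hq
      have := pos q (hAS hq)
      linarith
  have h2 : ∑ i ∈ A, l i ≤ b - t q :=
    sum_le A t l (t q) b (fun i hi => pos i (hAS hi)) hne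
      (fun i hi => ⟨hmin i hi, (sub i (hAS hi)).2⟩)
      (fun i hi j hj hij => sep i (hAS hi) j (hAS hj) hij)
  have h3 : ∑ i ∈ S \ A, l i ≤ t q - a :=
    sum_le (S \ A) t l a (t q) (fun i hi => pos i (Finset.mem_sdiff.1 hi).1) hne2
      (fun i hi => ⟨(sub i (Finset.mem_sdiff.1 hi).1).1, h1 i hi⟩)
      (fun i hi j hj hij => sep i (Finset.mem_sdiff.1 hi).1 j (Finset.mem_sdiff.1 hj).1 hij)
  have h4 : ∑ i ∈ S \ A, l i + ∑ i ∈ A, l i = ∑ i ∈ S, l i := Finset.sum_sdiff hAS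
  have h5 : b - ∑ i ∈ A, l i = t q := by linarith
  rw [h5]
  exact ⟨hmin, h1⟩

end AW

theorem allWin (h1 : Stm.infWin) (h2 : Stm.order) : Stm.allWin := by
  classical
  intro n s α β x0 hs
  by_contra hcon
  push Not at hcon
  obtain ⟨i0, hi0, hi0w⟩ := hcon
  set A : Finset (Fin n) := (s 0).S.filter (fun i => WinsIO s α β i) with hA
  have hAS : A ⊆ (s 0).S := Finset.filter_subset _ _
  -- winners are letters
  have hwinS : ∀ j, win (s j) (α j) (β j) ∈ (s 0).S := by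
    intro j
    rw [← AW.S_const hs j]
    unfold win
    split_ifs
    · exact (hs.top j).1
    · exact (hs.bot j).1
  have hmemA : ∀ i, WinsIO s α β i → i ∈ A := by
    intro i hi
    rw [hA, Finset.mem_filter]
    refine ⟨?_, hi⟩
    obtain ⟨k, _, hk⟩ := hi 0
    rw [← hk]
    exact hwinS k
  have hAne : A.Nonempty := by
    obtain ⟨j0, hj0⟩ := h1 n s α β x0 hs
    exact ⟨_, hmemA _ (hj0 j0 le_rfl).1⟩
  have hi0A : i0 ∈ (s 0).S \ A := by
    rw [Finset.mem_sdiff]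
    refine ⟨hi0, fun h => hi0w ?_⟩
    rw [hA, Finset.mem_filter] at h
    exact h.2
  -- a common time
  have hord : ∀ p : Fin n, ∃ j0 : ℕ, p ∈ (s 0).S \ A → ∀ j, j0 ≤ j → ∀ q, WinsIO s α β q →
      (s j).t p < (s j).t q ∧ (s j).t p + (s j).d p < (s j).t q + (s j).d q := by
    intro p
    by_cases hp : p ∈ (s 0).S \ A
    · have hpS := (Finset.mem_sdiff.1 hp).1
      have hpA := (Finset.mem_sdiff.1 hp).2
      obtain ⟨j0, hj0⟩ := h2 n s α β x0 hs p hpS (fun h => hpA (hmemA p h))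
      exact ⟨j0, fun _ => hj0⟩
    · exact ⟨0, fun h => absurd h hp⟩
  choose J hJ using hord
  set j : ℕ := Finset.univ.sup J with hj
  have hjJ : ∀ p, J p ≤ j := fun p => Finset.le_sup (f := J) (Finset.mem_univ p)
  have hlt : ∀ p ∈ (s 0).S \ A, ∀ q ∈ A,
      (s j).t p < (s j).t q ∧ (s j).t p + (s j).d p < (s j).t q + (s j).d q := by
    intro p hp q hq
    exact hJ p hp j (hjJ p) q (by rw [hA, Finset.mem_filter] at hq; exact hq.2)
  have hT := hs.tile j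
  have hSj := AW.S_const hs j
  have hr1 := AW.row (s 0).S A (s j).t (s j).l (s j).a (s j).b hAS hAne ⟨i0, hi0A⟩
    (by rw [← hSj]; exact hT.pos) (by rw [← hSj]; exact hT.sub) (by rw [← hSj]; exact hT.sep)
    (by rw [← hSj]; exact hT.tot) (fun p hp q hq => (hlt p hp q hq).1)
  have hr2 := AW.row (s 0).S A (fun i => (s j).t i + (s j).d i) (s j).l (s j).a (s j).b hAS hAne
    ⟨i0, hi0A⟩
    (by rw [← hSj]; exact hT.pos) (by rw [← hSj]; exact hT.subIm) (by rw [← hSj]; exact hT.sepIm)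
    (by rw [← hSj]; exact hT.tot) (fun p hp q hq => (hlt p hp q hq).2)
  refine hs.irr j A (by rw [hSj]; exact hAS) hAne ?_
    ⟨(s j).b - ∑ i ∈ A, (s j).l i, fun i hi => ⟨hr1.1 i hi, hr2.1 i hi⟩, ?_⟩
  · rw [hSj]
    intro e
    rw [e] at hi0A
    simp at hi0A
  · rw [hSj]
    exact fun i hi => ⟨hr1.2 i hi, hr2.2 i hi⟩

end R970.WM
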