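import Pool.Agent.R970.WM.Stm

open MeasureTheory Set Filter Topology

namespace R970.WM

namespace ERx

open ComplexConjugate

theorem dens {Z : Type} [MeasurableSpace Z] (ν : Measure Z) [IsProbabilityMeasure ν] {r : ℕ}
    (π : Z → UnitAddTorus (Fin r)) (hπ : MeasurePreserving π ν volume) (Ψ : Z → ℂ)
    (hΨ : Measurable Ψ) (hb : ∀ z, ‖Ψ z‖ ≤ 1)
    (h : ∀ l : Fin r → ℤ, ∫ z, Ψ z * UnitAddTorus.mFourier l (π z) ∂ν = 0)
    (C : Set (UnitAddTorus (Fin r))) (hC : MeasurableSet C) :
    ∫ z, Ψ z * chi C (π z) ∂ν = 0 := by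
  have hint : ∀ φ : C(UnitAddTorus (Fin r), ℂ), Integrable (fun z => Ψ z * φ (π z)) ν := by
    intro φ
    refine Integrable.of_bound
      (hΨ.mul (φ.continuous.measurable.comp hπ.measurable)).aestronglyMeasurable ‖φ‖
      (Eventually.of_forall (fun z => ?_))
    rw [norm_mul]
    calc ‖Ψ z‖ * ‖φ (π z)‖ ≤ 1 * ‖φ‖ :=
          mul_le_mul (hb z) (φ.norm_coe_le_norm _) (norm_nonneg _) zero_le_one
      _ = ‖φ‖ := one_mul _
  have hspan : ∀ φ ∈ Submodule.span ℂ (Set.range (UnitAddTorus.mFourier (d := Fin r))),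
      ∫ z, Ψ z * φ (π z) ∂ν = 0 := by
    intro φ hφ
    induction hφ using Submodule.span_induction with
    | mem x hx => obtain ⟨l, rfl⟩ := hx; exact h l
    | zero => simp
    | add x y _ _ hx hy =>
      simp only [ContinuousMap.add_apply, mul_add]
      rw [integral_add (hint x) (hint y), hx, hy, add_zero]
    | smul c x _ hx =>
      simp only [ContinuousMap.smul_apply, smul_eq_mul]
      have : ∀ z, Ψ z * (c * x (π z)) = c * (Ψ z * x (π z)) := by intro z; ring
      simp only [this]
      rw [integral_const_mul, hx, mul_zero]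
  have hcont : ∀ φ : C(UnitAddTorus (Fin r), ℂ), ∫ z, Ψ z * φ (π z) ∂ν = 0 := by
    intro φ
    have hφ : φ ∈ (Submodule.span ℂ
        (Set.range (UnitAddTorus.mFourier (d := Fin r)))).topologicalClosure := by
      rw [UnitAddTorus.span_mFourier_closure_eq_top]
      trivial
    rw [← SetLike.mem_coe, Submodule.topologicalClosure_coe, Metric.mem_closure_iff] at hφ
    rw [← norm_le_zero_iff]
    refine le_of_forall_pos_le_add (fun ε hε => ?_)
    obtain ⟨p, hp, hpd⟩ := hφ ε hε
    have e1 : ∫ z, Ψ z * φ (π z) ∂ν = ∫ z, Ψ z * (φ - p) (π z) ∂ν := by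
      simp only [ContinuousMap.sub_apply, mul_sub]
      rw [integral_sub (hint φ) (hint p), hspan p hp, sub_zero]
    rw [e1, zero_add]
    have e2 : ‖∫ z, Ψ z * (φ - p) (π z) ∂ν‖ ≤ ‖φ - p‖ * ν.real univ := by
      refine norm_integral_le_of_norm_le_const (Eventually.of_forall (fun z => ?_))
      rw [norm_mul]
      calc ‖Ψ z‖ * ‖(φ - p) (π z)‖ ≤ 1 * ‖φ - p‖ :=
            mul_le_mul (hb z) ((φ - p).norm_coe_le_norm _) (norm_nonneg _) zero_le_one
        _ = ‖φ - p‖ := one_mul _
    rw [probReal_univ, mul_one, ← dist_eq_norm] at e2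
    exact e2.trans hpd.le
  rw [← norm_le_zero_iff]
  refine le_of_forall_pos_le_add (fun ε hε => ?_)
  have hCi : Integrable (chi C) (volume : Measure (UnitAddTorus (Fin r))) :=
    (integrable_const (1 : ℂ)).indicator hC
  obtain ⟨g, -, hg1, hg2, hg3⟩ := hCi.exists_hasCompactSupport_integral_sub_le hε
  have h1 : ∫ z, Ψ z * g (π z) ∂ν = 0 := hcont ⟨g, hg2⟩
  have i1 : Integrable (fun z => Ψ z * g (π z)) ν := hint ⟨g, hg2⟩
  have hchi : Measurable (chi C) := measurable_const.indicator hC
  have i2 : Integrable (fun z => Ψ z * chi C (π z)) ν := by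
    refine Integrable.of_bound
      (hΨ.mul (hchi.comp hπ.measurable)).aestronglyMeasurable 1
      (Eventually.of_forall (fun z => ?_))
    rw [norm_mul]
    have : ‖chi C (π z)‖ ≤ 1 := by
      unfold chi
      by_cases hz : π z ∈ C
      · rw [indicator_of_mem hz]; simp
      · rw [indicator_of_notMem hz]; simp
    exact mul_le_one₀ (hb z) (norm_nonneg _) this
  have e1 : ∫ z, Ψ z * chi C (π z) ∂ν = ∫ z, Ψ z * (chi C (π z) - g (π z)) ∂ν := by
    simp only [mul_sub]
    rw [integral_sub i2 i1, h1, sub_zero]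
  rw [e1, zero_add]
  have i3 : Integrable (fun y => ‖chi C y - g y‖) (volume : Measure (UnitAddTorus (Fin r))) :=
    (hCi.sub hg3).norm
  have i4 : Integrable (fun z => ‖chi C (π z) - g (π z)‖) ν :=
    hπ.integrable_comp_of_integrable i3
  calc ‖∫ z, Ψ z * (chi C (π z) - g (π z)) ∂ν‖
      ≤ ∫ z, ‖chi C (π z) - g (π z)‖ ∂ν := by
        refine norm_integral_le_of_norm_le i4 (Eventually.of_forall (fun z => ?_))
        rw [norm_mul]
        exact mul_le_of_le_one_left (norm_nonneg _) (hb z)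
    _ = ∫ y, ‖chi C y - g y‖ := by
        rw [← hπ.map_eq, integral_map hπ.aemeasurable]
        rw [hπ.map_eq]
        exact i3.aestronglyMeasurable
    _ ≤ ε := hg1

theorem double_sum (b : ℕ → ℝ) (hb : ∀ i, 0 ≤ b i) (N : ℕ) :
    ∑ j ∈ Finset.range N, ∑ k ∈ Finset.range N, (if k ≤ j then b (j - k) else b (k - j)) ≤
      2 * N * ∑ i ∈ Finset.range N, b i := by
  have h1 : ∀ j ∈ Finset.range N,
      ∑ k ∈ Finset.range N, (if k ≤ j then b (j - k) else b (k - j)) ≤
        2 * ∑ i ∈ Finset.range N, b i := by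
    intro j hj
    rw [Finset.mem_range] at hj
    have hj' : j + 1 ≤ N := hj
    rw [← Finset.sum_range_add_sum_Ico _ hj']
    have e1 : ∑ k ∈ Finset.range (j + 1), (if k ≤ j then b (j - k) else b (k - j)) =
        ∑ i ∈ Finset.range (j + 1), b i := by
      rw [← Finset.sum_range_reflect b (j + 1)]
      refine Finset.sum_congr rfl (fun k hk => ?_)
      rw [Finset.mem_range] at hk
      rw [if_pos (by omega)]
      rfl
    have e2 : ∑ k ∈ Finset.Ico (j + 1) N, (if k ≤ j then b (j - k) else b (k - j)) =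
        ∑ i ∈ Finset.range (N - (j + 1)), b (i + 1) := by
      rw [Finset.sum_Ico_eq_sum_range]
      refine Finset.sum_congr rfl (fun k hk => ?_)
      rw [if_neg (by omega)]
      congr 1
      omega
    have e3 : ∑ i ∈ Finset.range (j + 1), b i ≤ ∑ i ∈ Finset.range N, b i :=
      Finset.sum_le_sum_of_subset_of_nonneg (Finset.range_mono hj') (fun i _ _ => hb i)
    have e4 : ∑ i ∈ Finset.range (N - (j + 1)), b (i + 1) ≤ ∑ i ∈ Finset.range N, b i := by
      have e5 : ∑ i ∈ Finset.range (N - (j + 1) + 1), b i ≤ ∑ i ∈ Finset.range N, b i :=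
        Finset.sum_le_sum_of_subset_of_nonneg (Finset.range_mono (by omega)) (fun i _ _ => hb i)
      rw [Finset.sum_range_succ'] at e5
      have := hb 0
      linarith
    rw [e1, e2]
    linarith
  calc _ ≤ ∑ j ∈ Finset.range N, 2 * ∑ i ∈ Finset.range N, b i := Finset.sum_le_sum h1
    _ = 2 * N * ∑ i ∈ Finset.range N, b i := by
      rw [Finset.sum_const, Finset.card_range, nsmul_eq_mul]
      ring

theorem int_comp {Z : Type} [MeasurableSpace Z] {ν : Measure Z} {R : Z → Z}
    (hR : MeasurePreserving R ν ν) {f : Z → ℂ} (hf : Measurable f) :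
    ∫ z, f (R z) ∂ν = ∫ z, f z ∂ν := by
  conv_rhs => rw [← hR.map_eq]
  rw [integral_map hR.aemeasurable hf.aestronglyMeasurable]

theorem hilb {Z : Type} [MeasurableSpace Z] (ν : Measure Z) [IsProbabilityMeasure ν] (R : Z → Z)
    (hR : MeasurePreserving R ν ν) (h : Z → ℂ) (hm : Measurable h) (hb : ∀ z, ‖h z‖ ≤ 1)
    (E : Set Z) (hE : MeasurableSet E) (hinv : R ⁻¹' E = E) (N : ℕ) (hN : 0 < N) :
    ‖∫ z in E, h z ∂ν‖ ^ 2 ≤
      2 * ((∑ k ∈ Finset.range N, ‖∫ z, h (R^[k] z) * conj (h z) ∂ν‖) / N) := by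
  have hRk : ∀ k, MeasurePreserving R^[k] ν ν := fun k => hR.iterate k
  have hRm : ∀ k, Measurable (R^[k]) := fun k => (hRk k).measurable
  have hEk : ∀ k, R^[k] ⁻¹' E = E := by
    intro k
    induction k with
    | zero => simp
    | succ k ih => rw [Function.iterate_succ, preimage_comp, ih, hinv]
  have hbi : ∀ f : Z → ℂ, Measurable f → ∀ C : ℝ, (∀ z, ‖f z‖ ≤ C) → Integrable f ν :=
    fun f hf C hC => Integrable.of_bound hf.aestronglyMeasurable C (Eventually.of_forall hC)
  have h1 : ∀ k, ∫ z in E, h (R^[k] z) ∂ν = ∫ z in E, h z ∂ν := by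
    intro k
    rw [← integral_indicator hE, ← integral_indicator hE, ← int_comp (hRk k) (hm.indicator hE)]
    refine integral_congr_ae (Eventually.of_forall (fun z => ?_))
    have hiff : R^[k] z ∈ E ↔ z ∈ E := by
      rw [← mem_preimage, hEk k]
    show E.indicator (fun z => h (R^[k] z)) z = E.indicator h (R^[k] z)
    by_cases hz : z ∈ E
    · rw [indicator_of_mem hz, indicator_of_mem (hiff.2 hz)]
    · rw [indicator_of_notMem hz, indicator_of_notMem (fun hc => hz (hiff.1 hc))]
  obtain ⟨G, hG⟩ : ∃ G : Z → ℂ, ∀ z, G z = ∑ k ∈ Finset.range N, h (R^[k] z) := ⟨_, fun z => rfl⟩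
  have hGm : Measurable G := by
    have : G = fun z => ∑ k ∈ Finset.range N, h (R^[k] z) := funext hG
    rw [this]
    exact Finset.measurable_sum _ (fun k _ => hm.comp (hRm k))
  have hGb : ∀ z, ‖G z‖ ≤ N := by
    intro z
    rw [hG]
    refine (norm_sum_le _ _).trans ?_
    calc ∑ k ∈ Finset.range N, ‖h (R^[k] z)‖ ≤ ∑ k ∈ Finset.range N, (1 : ℝ) :=
          Finset.sum_le_sum (fun k _ => hb _)
      _ = N := by simp
  have h2 : (N : ℂ) * ∫ z in E, h z ∂ν = ∫ z in E, G z ∂ν := by
    simp only [hG]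
    have hi : ∀ k, Integrable (fun z => h (R^[k] z)) ν := fun k =>
      hbi _ (hm.comp (hRm k)) 1 (fun z => hb _)
    rw [integral_finsetSum _ (fun k _ => (hi k).integrableOn)]
    simp only [h1]
    rw [Finset.sum_const, Finset.card_range, nsmul_eq_mul]
  have hGi : Integrable G ν := hbi G hGm N hGb
  have hGi2 : Integrable (fun z => ‖G z‖ ^ 2) ν := by
    refine Integrable.of_bound ((hGm.norm).pow_const 2).aestronglyMeasurable ((N : ℝ) ^ 2)
      (Eventually.of_forall (fun z => ?_))
    rw [Real.norm_of_nonneg (by positivity)]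
    exact pow_le_pow_left₀ (norm_nonneg _) (hGb z) 2
  have h3 : ‖∫ z in E, G z ∂ν‖ ≤ ∫ z, ‖G z‖ ∂ν :=
    (norm_integral_le_integral_norm _).trans
      (setIntegral_le_integral hGi.norm (Eventually.of_forall (fun z => norm_nonneg _)))
  have h4 : (∫ z, ‖G z‖ ∂ν) ^ 2 ≤ ∫ z, ‖G z‖ ^ 2 ∂ν := by
    obtain ⟨a, ha⟩ : ∃ a, a = ∫ z, ‖G z‖ ∂ν := ⟨_, rfl⟩
    have h5 : 0 ≤ ∫ z, (‖G z‖ - a) ^ 2 ∂ν := integral_nonneg (fun z => sq_nonneg _)
    have h6 : ∫ z, (‖G z‖ - a) ^ 2 ∂ν = ∫ z, ‖G z‖ ^ 2 ∂ν - a ^ 2 := by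
      have : ∀ z, (‖G z‖ - a) ^ 2 = ‖G z‖ ^ 2 - (2 * a * ‖G z‖ - a ^ 2) := by intro z; ring
      simp only [this]
      have j1 : Integrable (fun z => 2 * a * ‖G z‖) ν := hGi.norm.const_mul _
      have j2 : Integrable (fun z => 2 * a * ‖G z‖ - a ^ 2) ν := j1.sub (integrable_const _)
      rw [integral_sub hGi2 j2, integral_sub j1 (integrable_const _),
        integral_const_mul, ← ha, integral_const, probReal_univ]
      simp only [smul_eq_mul]
      ring
    rw [← ha]
    linarith
  obtain ⟨b, hbd⟩ : ∃ b : ℕ → ℝ, ∀ k, b k = ‖∫ z, h (R^[k] z) * conj (h z) ∂ν‖ :=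
    ⟨_, fun k => rfl⟩
  have hconj : Measurable (fun z => conj (h z)) := Complex.continuous_conj.measurable.comp hm
  have h7 : ∫ z, ‖G z‖ ^ 2 ∂ν ≤
      ∑ j ∈ Finset.range N, ∑ k ∈ Finset.range N, (if k ≤ j then b (j - k) else b (k - j)) := by
    have e1 : ((∫ z, ‖G z‖ ^ 2 ∂ν : ℝ) : ℂ) = ∑ j ∈ Finset.range N, ∑ k ∈ Finset.range N,
        ∫ z, h (R^[j] z) * conj (h (R^[k] z)) ∂ν := by
      have hi : ∀ j k, Integrable (fun z => h (R^[j] z) * conj (h (R^[k] z))) ν := by
        intro j k
        refine hbi _ ((hm.comp (hRm j)).mul (hconj.comp (hRm k))) 1 (fun z => ?_)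
        rw [norm_mul, RCLike.norm_conj]
        exact mul_le_one₀ (hb _) (norm_nonneg _) (hb _)
      rw [← integral_complex_ofReal]
      have e2 : ∀ z, ((‖G z‖ ^ 2 : ℝ) : ℂ) = ∑ j ∈ Finset.range N, ∑ k ∈ Finset.range N,
          h (R^[j] z) * conj (h (R^[k] z)) := by
        intro z
        rw [← Finset.sum_mul_sum, ← map_sum, ← hG, Complex.mul_conj, Complex.normSq_eq_norm_sq]
      simp only [e2]
      rw [integral_finsetSum _ (fun j _ => integrable_finsetSum _ (fun k _ => hi j k))]
      refine Finset.sum_congr rfl (fun j _ => ?_)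
      rw [integral_finsetSum _ (fun k _ => hi j k)]
    have e3 : ∫ z, ‖G z‖ ^ 2 ∂ν = ‖((∫ z, ‖G z‖ ^ 2 ∂ν : ℝ) : ℂ)‖ := by
      rw [Complex.norm_real, Real.norm_of_nonneg (integral_nonneg (fun z => by positivity))]
    rw [e3, e1]
    refine (norm_sum_le _ _).trans (Finset.sum_le_sum (fun j _ => ?_))
    refine (norm_sum_le _ _).trans (Finset.sum_le_sum (fun k _ => ?_))
    split_ifs with hkj
    · rw [hbd, ← int_comp (hRk k) (f := fun z => h (R^[j - k] z) * conj (h z))
        ((hm.comp (hRm _)).mul hconj)]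
      apply le_of_eq
      congr 2
      ext z
      rw [← Function.iterate_add_apply, Nat.sub_add_cancel hkj]
    · push Not at hkj
      rw [hbd, ← RCLike.norm_conj, ← integral_conj,
        ← int_comp (hRk j) (f := fun z => h (R^[k - j] z) * conj (h z))
        ((hm.comp (hRm _)).mul hconj)]
      apply le_of_eq
      congr 2
      ext z
      rw [← Function.iterate_add_apply, Nat.sub_add_cancel hkj.le, map_mul, Complex.conj_conj,
        mul_comm]
  have h8 := double_sum b (fun i => by rw [hbd]; exact norm_nonneg _) N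
  have hNR : (0 : ℝ) < N := by exact_mod_cast hN
  have h9 : (N : ℝ) ^ 2 * ‖∫ z in E, h z ∂ν‖ ^ 2 ≤ 2 * N * ∑ i ∈ Finset.range N, b i := by
    have e1 : (N : ℝ) * ‖∫ z in E, h z ∂ν‖ = ‖∫ z in E, G z ∂ν‖ := by
      rw [← h2, norm_mul, Complex.norm_natCast]
    rw [← mul_pow, e1]
    calc ‖∫ z in E, G z ∂ν‖ ^ 2 ≤ (∫ z, ‖G z‖ ∂ν) ^ 2 := pow_le_pow_left₀ (norm_nonneg _) h3 2
      _ ≤ _ := h4.trans (h7.trans h8)
  simp only [← hbd]
  rw [mul_div_assoc', le_div_iff₀ hNR]
  have : (N : ℝ) * (‖∫ z in E, h z ∂ν‖ ^ 2 * N) ≤ N * (2 * ∑ i ∈ Finset.range N, b i) := by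
    linarith
  exact le_of_mul_le_mul_left this hNR

theorem probC : IsProbabilityMeasure (volume : Measure UnitAddCircle) :=
  ⟨by rw [AddCircle.measure_univ]; simp⟩

theorem probG (r : ℕ) : IsProbabilityMeasure (volume : Measure (UnitAddTorus (Fin r))) := by
  have := probC
  exact inferInstanceAs (IsProbabilityMeasure (Measure.pi (fun _ : Fin r =>
    (volume : Measure UnitAddCircle))))

theorem mF_apply {r : ℕ} (l : Fin r → ℤ) (a : UnitAddTorus (Fin r)) :
    UnitAddTorus.mFourier l a = ∏ i, fourier (l i) (a i) := rfl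

theorem mF_add {r : ℕ} (l : Fin r → ℤ) (a b : UnitAddTorus (Fin r)) :
    UnitAddTorus.mFourier l (a + b) = UnitAddTorus.mFourier l a * UnitAddTorus.mFourier l b := by
  rw [mF_apply, mF_apply, mF_apply, ← Finset.prod_mul_distrib]
  refine Finset.prod_congr rfl (fun i _ => ?_)
  rw [fourier_apply, fourier_apply, fourier_apply, Pi.add_apply, smul_add,
    AddCircle.toCircle_add, Circle.coe_mul]

theorem mF_norm {r : ℕ} (l : Fin r → ℤ) (a : UnitAddTorus (Fin r)) :
    ‖UnitAddTorus.mFourier l a‖ = 1 := by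
  rw [mF_apply, norm_prod]
  refine Finset.prod_eq_one (fun i _ => ?_)
  rw [fourier_apply, Circle.norm_coe]

theorem mF_meas {r : ℕ} (l : Fin r → ℤ) :
    Measurable (fun a : UnitAddTorus (Fin r) => UnitAddTorus.mFourier l a) :=
  (UnitAddTorus.mFourier l).continuous.measurable

theorem mF_zero {r : ℕ} (a : UnitAddTorus (Fin r)) :
    UnitAddTorus.mFourier (0 : Fin r → ℤ) a = 1 := by
  rw [UnitAddTorus.mFourier_zero]
  rfl

theorem chi_norm {X : Type} (B : Set X) (x : X) : ‖chi B x‖ ≤ 1 := by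
  unfold chi
  by_cases hz : x ∈ B
  · rw [indicator_of_mem hz]; simp
  · rw [indicator_of_notMem hz]; simp

theorem chi_conj {X : Type} (B : Set X) (x : X) : conj (chi B x) = chi B x := by
  unfold chi
  by_cases hz : x ∈ B
  · rw [indicator_of_mem hz]; simp
  · rw [indicator_of_notMem hz]; simp

theorem chi_meas {X : Type} [MeasurableSpace X] {B : Set X} (hB : MeasurableSet B) :
    Measurable (chi B) := measurable_const.indicator hB

theorem skew_iter {X : Type} {n r : ℕ} (T : X → X) (ix : X → Fin n)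
    (g : Fin n → UnitAddTorus (Fin r)) (k : ℕ) (x : X) (y : UnitAddTorus (Fin r)) :
    (skew T ix g)^[k] (x, y) = (T^[k] x, coc T ix g k x + y) := by
  induction k with
  | zero => simp [coc]
  | succ k ih =>
    rw [Function.iterate_succ_apply', ih, Function.iterate_succ_apply']
    unfold skew coc
    rw [Finset.sum_range_succ]
    simp only
    congr 1
    abel

section
variable {X : Type} [MeasurableSpace X] {μ : Measure X} [IsProbabilityMeasure μ]
  {T : X → X} {n r : ℕ} {ix : X → Fin n}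

theorem g_meas (hix : Measurable ix) (g : Fin n → UnitAddTorus (Fin r)) :
    Measurable (fun x => g (ix x)) := (measurable_of_finite g).comp hix

theorem coc_meas (hT : Measurable T) (hix : Measurable ix) (g : Fin n → UnitAddTorus (Fin r))
    (k : ℕ) : Measurable (coc T ix g k) := by
  unfold coc
  exact Finset.measurable_sum _ (fun j _ => (g_meas hix g).comp (hT.iterate j))

theorem skew_mp (hT : MeasurePreserving T μ μ) (hix : Measurable ix)
    (g : Fin n → UnitAddTorus (Fin r)) :
    MeasurePreserving (skew T ix g) (μ.prod (volume : Measure (UnitAddTorus (Fin r))))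
      (μ.prod (volume : Measure (UnitAddTorus (Fin r)))) := by
  have := MeasurePreserving.skew_product (μa := μ) (μb := μ)
    (μc := (volume : Measure (UnitAddTorus (Fin r))))
    (μd := (volume : Measure (UnitAddTorus (Fin r)))) hT
    (g := fun x y => g (ix x) + y)
    (((g_meas hix g).comp measurable_fst).add measurable_snd)
    (Eventually.of_forall (fun a => map_add_left_eq_self _ _))
  exact this

theorem corr_le (g : Fin n → UnitAddTorus (Fin r))
    (l : Fin r → ℤ) (B : Set X) (k : ℕ) :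
    ‖corr μ T ix g l (chi B) (chi B) k‖ ≤ 1 := by
  unfold corr
  have := norm_integral_le_of_norm_le_const (μ := μ) (C := 1)
    (f := fun x => UnitAddTorus.mFourier l (coc T ix g k x) * chi B (T^[k] x) * chi B x)
    (Eventually.of_forall (fun x => by
      rw [norm_mul, norm_mul, mF_norm, one_mul]
      exact mul_le_one₀ (chi_norm _ _) (norm_nonneg _) (chi_norm _ _)))
  rwa [probReal_univ, mul_one] at this

theorem one_factor (hT : MeasurePreserving T μ μ) (hix : Measurable ix)
    (g : Fin n → UnitAddTorus (Fin r)) (l : Fin r → ℤ) {B : Set X} (hB : MeasurableSet B) (k : ℕ) :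
    ∫ p, (chi B ((skew T ix g)^[k] p).1 * UnitAddTorus.mFourier l ((skew T ix g)^[k] p).2) *
      conj (chi B p.1 * UnitAddTorus.mFourier l p.2)
      ∂(μ.prod (volume : Measure (UnitAddTorus (Fin r)))) =
    corr μ T ix g l (chi B) (chi B) k := by
  have e1 : ∀ p : X × UnitAddTorus (Fin r),
      (chi B ((skew T ix g)^[k] p).1 * UnitAddTorus.mFourier l ((skew T ix g)^[k] p).2) *
      conj (chi B p.1 * UnitAddTorus.mFourier l p.2) =
      UnitAddTorus.mFourier l (coc T ix g k p.1) * chi B (T^[k] p.1) * chi B p.1 := by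
    rintro ⟨x, y⟩
    rw [skew_iter, map_mul, chi_conj, mF_add]
    have h1 : UnitAddTorus.mFourier l y * conj (UnitAddTorus.mFourier l y) = 1 := by
      rw [Complex.mul_conj, Complex.normSq_eq_norm_sq, mF_norm]
      norm_num
    simp only
    linear_combination (UnitAddTorus.mFourier l (coc T ix g k x) * chi B (T^[k] x) * chi B x) * h1
  simp only [e1]
  have hFm : Measurable (fun x => UnitAddTorus.mFourier l (coc T ix g k x) * chi B (T^[k] x) *
      chi B x) :=
    (((mF_meas l).comp (coc_meas hT.measurable hix g k)).mul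
      ((chi_meas hB).comp (hT.iterate k).measurable)).mul (chi_meas hB)
  have := probG r
  have hfst : MeasurePreserving (Prod.fst : X × UnitAddTorus (Fin r) → X)
    (μ.prod (volume : Measure (UnitAddTorus (Fin r)))) μ := measurePreserving_fst
  unfold corr
  rw [← hfst.map_eq, integral_map hfst.aemeasurable]
  · rw [hfst.map_eq]
  · rw [hfst.map_eq]
    exact hFm.aestronglyMeasurable

end

/-- extension from products of four sets -/
theorem ext4 {X G : Type} [MeasurableSpace X] [MeasurableSpace G]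
    (ρ1 ρ2 : Measure ((X × G) × (X × G))) [IsFiniteMeasure ρ1] [IsFiniteMeasure ρ2]
    (h : ∀ (B : Set X) (C : Set G) (B' : Set X) (C' : Set G), MeasurableSet B → MeasurableSet C →
      MeasurableSet B' → MeasurableSet C' →
      ρ1 ((B ×ˢ C) ×ˢ (B' ×ˢ C')) = ρ2 ((B ×ˢ C) ×ˢ (B' ×ˢ C'))) : ρ1 = ρ2 := by
  have ha : ∀ (B' : Set X) (C' : Set G) (A : Set (X × G)), MeasurableSet B' → MeasurableSet C' →
      MeasurableSet A → ρ1 (A ×ˢ (B' ×ˢ C')) = ρ2 (A ×ˢ (B' ×ˢ C')) := by
    intro B' C' A hB' hC' hA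
    have hm : MeasurableSet ((univ : Set (X × G)) ×ˢ (B' ×ˢ C')) :=
      MeasurableSet.univ.prod (hB'.prod hC')
    have e : (ρ1.restrict (univ ×ˢ (B' ×ˢ C'))).map Prod.fst =
        (ρ2.restrict (univ ×ˢ (B' ×ˢ C'))).map Prod.fst := by
      apply Measure.ext_prod
      intro s t hs ht
      rw [Measure.map_apply measurable_fst (hs.prod ht), Measure.map_apply measurable_fst
        (hs.prod ht), Measure.restrict_apply (measurable_fst (hs.prod ht)),
        Measure.restrict_apply (measurable_fst (hs.prod ht))]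
      have : Prod.fst ⁻¹' (s ×ˢ t) ∩ (univ : Set (X × G)) ×ˢ (B' ×ˢ C') =
          (s ×ˢ t) ×ˢ (B' ×ˢ C') := by
        ext z
        simp [and_assoc]
      rw [this]
      exact h s t B' C' hs ht hB' hC'
    have e2 := congrArg (fun m : Measure (X × G) => m A) e
    rw [Measure.map_apply measurable_fst hA, Measure.map_apply measurable_fst hA,
      Measure.restrict_apply (measurable_fst hA), Measure.restrict_apply (measurable_fst hA)] at e2
    have : Prod.fst ⁻¹' A ∩ (univ : Set (X × G)) ×ˢ (B' ×ˢ C') = A ×ˢ (B' ×ˢ C') := by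
      ext z
      simp
    rwa [this] at e2
  apply Measure.ext_prod
  intro A A' hA hA'
  have hm : MeasurableSet (A ×ˢ (univ : Set (X × G))) := hA.prod MeasurableSet.univ
  have e : (ρ1.restrict (A ×ˢ univ)).map Prod.snd = (ρ2.restrict (A ×ˢ univ)).map Prod.snd := by
    apply Measure.ext_prod
    intro s t hs ht
    rw [Measure.map_apply measurable_snd (hs.prod ht), Measure.map_apply measurable_snd
      (hs.prod ht), Measure.restrict_apply (measurable_snd (hs.prod ht)),
      Measure.restrict_apply (measurable_snd (hs.prod ht))]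
    have : Prod.snd ⁻¹' (s ×ˢ t) ∩ A ×ˢ (univ : Set (X × G)) = A ×ˢ (s ×ˢ t) := by
      ext z
      simp [and_comm]
    rw [this]
    exact ha s t A hs ht hA
  have e2 := congrArg (fun m : Measure (X × G) => m A') e
  rw [Measure.map_apply measurable_snd hA', Measure.map_apply measurable_snd hA',
    Measure.restrict_apply (measurable_snd hA'), Measure.restrict_apply (measurable_snd hA')] at e2
  have : Prod.snd ⁻¹' A' ∩ A ×ˢ (univ : Set (X × G)) = A ×ˢ A' := by
    ext z
    simp [and_comm]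
  rwa [this] at e2

/-- a nonnegative sequence of averages of squares which is frequently small -/
theorem small (I : ℝ) (hI : 0 ≤ I) (c t : ℕ → ℝ) (ht : ∀ k, 0 ≤ t k) (hc : ∀ k, c k ≤ t k)
    (h1 : ∀ N : ℕ, 0 < N → I ^ 2 ≤ 2 * ((∑ k ∈ Finset.range N, c k) / N))
    (h2 : ∀ ε : ℝ, 0 < ε → ∃ᶠ N : ℕ in atTop, (∑ k ∈ Finset.range N, t k ^ 2) / (N : ℝ) < ε) :
    I = 0 := by
  have h3 : I ^ 4 ≤ 0 := by
    refine le_of_forall_pos_le_add (fun ε hε => ?_)
    obtain ⟨N, hN1, hN2⟩ := ((h2 (ε / 4) (by positivity)).and_eventually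
      (eventually_gt_atTop 0)).exists
    have hNR : (0 : ℝ) < N := by exact_mod_cast hN2
    have h4 := h1 N hN2
    have h5 : (∑ k ∈ Finset.range N, c k) / N ≤ (∑ k ∈ Finset.range N, t k) / N := by
      gcongr with k hk
      exact hc k
    have h6 : (∑ k ∈ Finset.range N, t k) ^ 2 ≤ N * ∑ k ∈ Finset.range N, t k ^ 2 := by
      have := sq_sum_le_card_mul_sum_sq (s := Finset.range N) (f := t)
      rwa [Finset.card_range] at this
    have h7 : ((∑ k ∈ Finset.range N, t k) / N) ^ 2 ≤ (∑ k ∈ Finset.range N, t k ^ 2) / N := by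
      rw [div_pow, div_le_div_iff₀ (by positivity) hNR]
      calc (∑ k ∈ Finset.range N, t k) ^ 2 * N ≤ (N * ∑ k ∈ Finset.range N, t k ^ 2) * N :=
            mul_le_mul_of_nonneg_right h6 hNR.le
        _ = (∑ k ∈ Finset.range N, t k ^ 2) * (N : ℝ) ^ 2 := by ring
    have h8 : I ^ 2 ≤ 2 * ((∑ k ∈ Finset.range N, t k) / N) := by linarith
    have h9 : (I ^ 2) ^ 2 ≤ (2 * ((∑ k ∈ Finset.range N, t k) / N)) ^ 2 :=
      pow_le_pow_left₀ (sq_nonneg _) h8 2
    calc I ^ 4 = (I ^ 2) ^ 2 := by ring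
      _ ≤ (2 * ((∑ k ∈ Finset.range N, t k) / N)) ^ 2 := h9
      _ = 4 * ((∑ k ∈ Finset.range N, t k) / N) ^ 2 := by ring
      _ ≤ 0 + ε := by linarith
  have h10 : I ^ 4 = 0 := le_antisymm h3 (by positivity)
  exact pow_eq_zero_iff (by norm_num) |>.1 h10

section
variable {X : Type} [MeasurableSpace X] {μ : Measure X} [IsProbabilityMeasure μ]
  {T : X → X} {n r : ℕ} {ix : X → Fin n}

/-- the product functions -/
noncomputable def hh {X : Type} {r : ℕ} (B B' : Set X) (l l' : Fin r → ℤ)
    (z : (X × UnitAddTorus (Fin r)) × (X × UnitAddTorus (Fin r))) : ℂ :=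
  (chi B z.1.1 * UnitAddTorus.mFourier l z.1.2) * (chi B' z.2.1 * UnitAddTorus.mFourier l' z.2.2)

theorem hh_meas {B B' : Set X} (hB : MeasurableSet B) (hB' : MeasurableSet B')
    (l l' : Fin r → ℤ) : Measurable (hh B B' l l') := by
  unfold hh
  exact (((chi_meas hB).comp (measurable_fst.comp measurable_fst)).mul
    ((mF_meas l).comp (measurable_snd.comp measurable_fst))).mul
    (((chi_meas hB').comp (measurable_fst.comp measurable_snd)).mul
    ((mF_meas l').comp (measurable_snd.comp measurable_snd)))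

theorem hh_norm (B B' : Set X) (l l' : Fin r → ℤ)
    (z : (X × UnitAddTorus (Fin r)) × (X × UnitAddTorus (Fin r))) : ‖hh B B' l l' z‖ ≤ 1 := by
  unfold hh
  rw [norm_mul, norm_mul, norm_mul, mF_norm, mF_norm, mul_one, mul_one]
  exact mul_le_one₀ (chi_norm _ _) (norm_nonneg _) (chi_norm _ _)

theorem zero_of_ne (hT : MeasurePreserving T μ μ) (hix : Measurable ix)
    (g : Fin n → UnitAddTorus (Fin r))
    (hg : ∀ m : Fin r → ℤ, m ≠ 0 →
      ∀ A B : Set X, MeasurableSet A → MeasurableSet B → ∀ ε : ℝ, 0 < ε → ∃ᶠ N : ℕ in atTop,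
        (∑ k ∈ Finset.range N, ‖corr μ T ix g m (chi A) (chi B) k‖ ^ 2) / (N:ℝ) < ε)
    {B B' : Set X} (hB : MeasurableSet B) (hB' : MeasurableSet B') {l l' : Fin r → ℤ}
    (hl : l ≠ 0 ∨ l' ≠ 0) (E : Set ((X × UnitAddTorus (Fin r)) × (X × UnitAddTorus (Fin r))))
    (hE : MeasurableSet E) (hinv : (Prod.map (skew T ix g) (skew T ix g)) ⁻¹' E = E) :
    ∫ z in E, hh B B' l l' z ∂((μ.prod (volume : Measure (UnitAddTorus (Fin r)))).prod
      (μ.prod (volume : Measure (UnitAddTorus (Fin r))))) = 0 := by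
  have := probG r
  have hS := skew_mp (r := r) hT hix g
  have hR := hS.prod hS
  have hc : ∀ k, ‖∫ z, hh B B' l l' ((Prod.map (skew T ix g) (skew T ix g))^[k] z) *
      conj (hh B B' l l' z) ∂((μ.prod (volume : Measure (UnitAddTorus (Fin r)))).prod
      (μ.prod (volume : Measure (UnitAddTorus (Fin r)))))‖ =
      ‖corr μ T ix g l (chi B) (chi B) k‖ * ‖corr μ T ix g l' (chi B') (chi B') k‖ := by
    intro k
    rw [← one_factor hT hix g l hB k, ← one_factor hT hix g l' hB' k, ← norm_mul,
      ← integral_prod_mul]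
    congr 1
    refine integral_congr_ae (Eventually.of_forall (fun z => ?_))
    simp only [hh, Prod.map_iterate, Prod.map_fst, Prod.map_snd, map_mul]
    ring
  rw [← norm_eq_zero]
  rcases hl with hl | hl
  · refine small _ (norm_nonneg _) (fun k => ‖corr μ T ix g l (chi B) (chi B) k‖ *
      ‖corr μ T ix g l' (chi B') (chi B') k‖) (fun k => ‖corr μ T ix g l (chi B) (chi B) k‖)
      (fun k => norm_nonneg _) (fun k => mul_le_of_le_one_right (norm_nonneg _) (corr_le g l' B' k))
      (fun N hN => ?_) (hg l hl B B hB hB)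
    have := hilb _ _ hR (hh B B' l l') (hh_meas hB hB' l l') (hh_norm B B' l l') E hE hinv N hN
    simpa only [hc] using this
  · refine small _ (norm_nonneg _) (fun k => ‖corr μ T ix g l (chi B) (chi B) k‖ *
      ‖corr μ T ix g l' (chi B') (chi B') k‖) (fun k => ‖corr μ T ix g l' (chi B') (chi B') k‖)
      (fun k => norm_nonneg _) (fun k => mul_le_of_le_one_left (norm_nonneg _) (corr_le g l B k))
      (fun N hN => ?_) (hg l' hl B' B' hB' hB')
    have := hilb _ _ hR (hh B B' l l') (hh_meas hB hB' l l') (hh_norm B B' l l') E hE hinv N hN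
    simpa only [hc] using this

theorem zero_mode (hT : MeasurePreserving T μ μ) (hTT : Ergodic (Prod.map T T) (μ.prod μ))
    (hix : Measurable ix) (g : Fin n → UnitAddTorus (Fin r))
    (E : Set ((X × UnitAddTorus (Fin r)) × (X × UnitAddTorus (Fin r))))
    (hE : MeasurableSet E) (hinv : (Prod.map (skew T ix g) (skew T ix g)) ⁻¹' E = E)
    (D : Set (X × X)) (hD : MeasurableSet D) :
    ((μ.prod (volume : Measure (UnitAddTorus (Fin r)))).prod
      (μ.prod (volume : Measure (UnitAddTorus (Fin r)))))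
        (Prod.map Prod.fst Prod.fst ⁻¹' D ∩ E) =
    ((μ.prod (volume : Measure (UnitAddTorus (Fin r)))).prod
      (μ.prod (volume : Measure (UnitAddTorus (Fin r))))) E * (μ.prod μ) D := by
  have := probG r
  have hS := skew_mp (r := r) hT hix g
  have hR := hS.prod hS
  obtain ⟨ν, hν⟩ : ∃ ν, ν = ((μ.prod (volume : Measure (UnitAddTorus (Fin r)))).prod
      (μ.prod (volume : Measure (UnitAddTorus (Fin r))))) := ⟨_, rfl⟩
  have hfst : MeasurePreserving (Prod.fst : X × UnitAddTorus (Fin r) → X)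
    (μ.prod (volume : Measure (UnitAddTorus (Fin r)))) μ := measurePreserving_fst
  have hπ := hfst.prod hfst
  have hνp : IsProbabilityMeasure ν := by rw [hν]; infer_instance
  rw [← hν] at hR hπ ⊢
  have hπm := hπ.measurable
  obtain ⟨ρ, hρ⟩ : ∃ ρ : Measure (X × X), ρ = (ν.restrict E).map (Prod.map Prod.fst Prod.fst) :=
    ⟨_, rfl⟩
  have hρa : ∀ D : Set (X × X), MeasurableSet D → ρ D = ν (Prod.map Prod.fst Prod.fst ⁻¹' D ∩ E) := by
    intro D hD
    rw [hρ, Measure.map_apply hπm hD, Measure.restrict_apply (hπm hD)]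
  have hρf : IsFiniteMeasure ρ := by rw [hρ]; infer_instance
  have hρT : MeasurePreserving (Prod.map T T) ρ ρ := by
    refine ⟨hTT.measurable, ?_⟩
    ext D hD
    rw [Measure.map_apply hTT.measurable hD, hρa _ (hTT.measurable hD), hρa _ hD]
    have e : Prod.map Prod.fst Prod.fst ⁻¹' (Prod.map T T ⁻¹' D) ∩ E =
        (Prod.map (skew T ix g) (skew T ix g)) ⁻¹' (Prod.map Prod.fst Prod.fst ⁻¹' D ∩ E) := by
      rw [preimage_inter, hinv]
      rfl
    rw [e, hR.measure_preimage ((hπm hD).inter hE).nullMeasurableSet]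
  have hac : ρ ≪ μ.prod μ := by
    refine Measure.AbsolutelyContinuous.mk (fun D hD h0 => ?_)
    rw [hρa D hD]
    refine measure_mono_null inter_subset_left ?_
    rw [hπ.measure_preimage hD.nullMeasurableSet]
    exact h0
  obtain ⟨c, hc⟩ := hTT.eq_smul_of_absolutelyContinuous hρT hac
  have hcE : c = ν E := by
    have h1 := hρa univ MeasurableSet.univ
    rw [hc, Measure.smul_apply, measure_univ, smul_eq_mul, mul_one, preimage_univ,
      univ_inter] at h1
    exact h1
  rw [← hρa D hD, hc, hcE, Measure.smul_apply, smul_eq_mul]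

end

end ERx

open ERx in
theorem good : Stm.good := by
  intro X _ μ _ T hT hTT n r ix hix g hg
  have := probG r
  have hS := skew_mp (r := r) hT hix g
  have hR := hS.prod hS
  refine ⟨hR, ⟨fun E hE hinv => ?_⟩⟩
  have hbasic : ∀ (B B' : Set X), MeasurableSet B → MeasurableSet B' → ∀ l l' : Fin r → ℤ,
      ∫ z, (chi E z - ((((μ.prod (volume : Measure (UnitAddTorus (Fin r)))).prod
      (μ.prod (volume : Measure (UnitAddTorus (Fin r))))).real E : ℝ) : ℂ)) * hh B B' l l' z
      ∂((μ.prod (volume : Measure (UnitAddTorus (Fin r)))).prod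
      (μ.prod (volume : Measure (UnitAddTorus (Fin r))))) = 0 := by
    intro B B' hB hB' l l'
    obtain ⟨ν, hν⟩ : ∃ ν, ν = ((μ.prod (volume : Measure (UnitAddTorus (Fin r)))).prod
      (μ.prod (volume : Measure (UnitAddTorus (Fin r))))) := ⟨_, rfl⟩
    have hνp : IsProbabilityMeasure ν := by rw [hν]; infer_instance
    have hi : Integrable (hh B B' l l') ν :=
      Integrable.of_bound (hh_meas hB hB' l l').aestronglyMeasurable 1
        (Eventually.of_forall (hh_norm B B' l l'))
    have e1 : ∫ z, (chi E z - ((ν.real E : ℝ) : ℂ)) * hh B B' l l' z ∂ν =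
        ∫ z in E, hh B B' l l' z ∂ν - ((ν.real E : ℝ) : ℂ) * ∫ z in univ, hh B B' l l' z ∂ν := by
      rw [← integral_indicator hE, Measure.restrict_univ, ← integral_const_mul,
        ← integral_sub (hi.indicator hE) (hi.const_mul _)]
      refine integral_congr_ae (Eventually.of_forall (fun z => ?_))
      simp only [chi]
      by_cases hz : z ∈ E
      · rw [indicator_of_mem hz, indicator_of_mem hz]; ring
      · rw [indicator_of_notMem hz, indicator_of_notMem hz]; ring
    rw [← hν, e1]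
    by_cases hl : l ≠ 0 ∨ l' ≠ 0
    · have z1 := zero_of_ne hT hix g hg hB hB' hl E hE hinv
      have z2 := zero_of_ne hT hix g hg hB hB' hl univ MeasurableSet.univ preimage_univ
      rw [← hν] at z1 z2
      rw [z1, z2, mul_zero, sub_zero]
    · push Not at hl
      obtain ⟨rfl, rfl⟩ := hl
      have hP : MeasurableSet (Prod.map Prod.fst Prod.fst ⁻¹' (B ×ˢ B') :
          Set ((X × UnitAddTorus (Fin r)) × (X × UnitAddTorus (Fin r)))) :=
        ((measurable_fst.comp measurable_fst).prodMk (measurable_fst.comp measurable_snd))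
          (hB.prod hB')
      have e2 : hh B B' (0 : Fin r → ℤ) 0 =
          (Prod.map Prod.fst Prod.fst ⁻¹' (B ×ˢ B') :
          Set ((X × UnitAddTorus (Fin r)) × (X × UnitAddTorus (Fin r)))).indicator
            (fun _ => (1 : ℂ)) := by
        ext z
        unfold hh
        rw [mF_zero, mF_zero, mul_one, mul_one]
        simp only [chi, indicator, mem_preimage, mem_prod, Prod.map_fst, Prod.map_snd]
        by_cases h1 : z.1.1 ∈ B <;> by_cases h2 : z.2.1 ∈ B' <;> simp [h1, h2]
      have z1 := zero_mode hT hTT hix g E hE hinv (B ×ˢ B') (hB.prod hB')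
      have z2 := zero_mode hT hTT hix g univ MeasurableSet.univ preimage_univ (B ×ˢ B')
        (hB.prod hB')
      rw [← hν] at z1 z2
      rw [measure_univ, one_mul, inter_univ] at z2
      rw [e2, integral_indicator hP, integral_indicator hP, Measure.restrict_univ,
        Measure.restrict_restrict hP, setIntegral_const, setIntegral_const, measureReal_def,
        measureReal_def, measureReal_def, z1, z2, ENNReal.toReal_mul]
      simp
  obtain ⟨ν, hν⟩ : ∃ ν, ν = ((μ.prod (volume : Measure (UnitAddTorus (Fin r)))).prod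
      (μ.prod (volume : Measure (UnitAddTorus (Fin r))))) := ⟨_, rfl⟩
  have hνp : IsProbabilityMeasure ν := by rw [hν]; infer_instance
  have hsnd : MeasurePreserving (Prod.snd : X × UnitAddTorus (Fin r) → UnitAddTorus (Fin r))
    (μ.prod (volume : Measure (UnitAddTorus (Fin r)))) volume := measurePreserving_snd
  have hp1 : MeasurePreserving (fun z : (X × UnitAddTorus (Fin r)) × (X × UnitAddTorus (Fin r)) =>
      z.1.2) ν volume := by
    rw [hν]
    exact hsnd.comp measurePreserving_fst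
  have hp2 : MeasurePreserving (fun z : (X × UnitAddTorus (Fin r)) × (X × UnitAddTorus (Fin r)) =>
      z.2.2) ν volume := by
    rw [hν]
    exact hsnd.comp measurePreserving_snd
  rw [← hν] at hbasic ⊢
  obtain ⟨Φ, hΦ⟩ : ∃ Φ : (X × UnitAddTorus (Fin r)) × (X × UnitAddTorus (Fin r)) → ℂ,
    ∀ z, Φ z = chi E z - ((ν.real E : ℝ) : ℂ) := ⟨_, fun z => rfl⟩
  have hΦm : Measurable Φ := by
    have : Φ = fun z => chi E z - ((ν.real E : ℝ) : ℂ) := funext hΦ
    rw [this]
    exact (chi_meas hE).sub measurable_const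
  have hc0 : 0 ≤ ν.real E := measureReal_nonneg
  have hc1 : ν.real E ≤ 1 := measureReal_le_one
  have hΦb : ∀ z, ‖Φ z‖ ≤ 1 := by
    intro z
    rw [hΦ]
    unfold chi
    by_cases hz : z ∈ E
    · rw [indicator_of_mem hz, show (1 : ℂ) - ((ν.real E : ℝ) : ℂ) = ((1 - ν.real E : ℝ) : ℂ) by
        push_cast; ring, Complex.norm_real, Real.norm_of_nonneg (by linarith)]
      linarith
    · rw [indicator_of_notMem hz, zero_sub, norm_neg, Complex.norm_real,
        Real.norm_of_nonneg hc0]
      exact hc1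
  simp only [← hΦ] at hbasic
  have m11 : Measurable (fun z : (X × UnitAddTorus (Fin r)) × (X × UnitAddTorus (Fin r)) =>
    z.1.1) := measurable_fst.comp measurable_fst
  have m21 : Measurable (fun z : (X × UnitAddTorus (Fin r)) × (X × UnitAddTorus (Fin r)) =>
    z.2.1) := measurable_fst.comp measurable_snd
  have hkey : ∀ (B : Set X) (C : Set (UnitAddTorus (Fin r))) (B' : Set X)
      (C' : Set (UnitAddTorus (Fin r))), MeasurableSet B → MeasurableSet C →
      MeasurableSet B' → MeasurableSet C' →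
      ∫ z, Φ z * chi B z.1.1 * chi C z.1.2 * chi B' z.2.1 * chi C' z.2.2 ∂ν = 0 := by
    intro B C B' C' hB hC hB' hC'
    refine dens ν (fun z => z.2.2) hp2 (fun z => Φ z * chi B z.1.1 * chi C z.1.2 * chi B' z.2.1)
      (((hΦm.mul ((chi_meas hB).comp m11)).mul ((chi_meas hC).comp hp1.measurable)).mul
        ((chi_meas hB').comp m21)) (fun z => ?_) (fun l' => ?_) C' hC'
    · rw [norm_mul, norm_mul, norm_mul]
      exact mul_le_one₀ (mul_le_one₀ (mul_le_one₀ (hΦb z) (norm_nonneg _) (chi_norm _ _))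
        (norm_nonneg _) (chi_norm _ _)) (norm_nonneg _) (chi_norm _ _)
    · have h1 := dens ν (fun z => z.1.2) hp1
        (fun z => Φ z * chi B z.1.1 * (chi B' z.2.1 * UnitAddTorus.mFourier l' z.2.2))
        ((hΦm.mul ((chi_meas hB).comp m11)).mul (((chi_meas hB').comp m21).mul
          ((mF_meas l').comp hp2.measurable))) (fun z => by
          rw [norm_mul, norm_mul, norm_mul, mF_norm, mul_one]
          exact mul_le_one₀ (mul_le_one₀ (hΦb z) (norm_nonneg _) (chi_norm _ _))
            (norm_nonneg _) (chi_norm _ _)) (fun l => by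
          rw [← hbasic B B' hB hB' l l']
          refine integral_congr_ae (Eventually.of_forall (fun z => ?_))
          simp only [hh]
          ring) C hC
      rw [← h1]
      refine integral_congr_ae (Eventually.of_forall (fun z => ?_))
      simp only
      ring
  have hmeas : ν.restrict E = (ν E) • ν := by
    have hf2 : IsFiniteMeasure ((ν E) • ν) := ⟨by
      rw [Measure.smul_apply, measure_univ, smul_eq_mul, mul_one]
      exact measure_lt_top _ _⟩
    refine ext4 _ _ (fun B C B' C' hB hC hB' hC' => ?_)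
    have hD : MeasurableSet ((B ×ˢ C) ×ˢ (B' ×ˢ C')) := (hB.prod hC).prod (hB'.prod hC')
    have h1 := hkey B C B' C' hB hC hB' hC'
    have hi : Integrable (((B ×ˢ C) ×ˢ (B' ×ˢ C')).indicator (fun _ => (1 : ℂ))) ν :=
      (integrable_const _).indicator hD
    have e1 : ∫ z, Φ z * chi B z.1.1 * chi C z.1.2 * chi B' z.2.1 * chi C' z.2.2 ∂ν =
        ∫ z in E, ((B ×ˢ C) ×ˢ (B' ×ˢ C')).indicator (fun _ => (1 : ℂ)) z ∂ν -
        ((ν.real E : ℝ) : ℂ) *
          ∫ z, ((B ×ˢ C) ×ˢ (B' ×ˢ C')).indicator (fun _ => (1 : ℂ)) z ∂ν := by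
      rw [← integral_indicator hE, ← integral_const_mul,
        ← integral_sub (hi.indicator hE) (hi.const_mul _)]
      refine integral_congr_ae (Eventually.of_forall (fun z => ?_))
      simp only [hΦ, chi, indicator, mem_prod]
      by_cases hz : z ∈ E <;> by_cases q1 : z.1.1 ∈ B <;> by_cases q2 : z.1.2 ∈ C <;>
        by_cases q3 : z.2.1 ∈ B' <;> by_cases q4 : z.2.2 ∈ C' <;> simp [hz, q1, q2, q3, q4]
    rw [e1, integral_indicator hD, integral_indicator hD, Measure.restrict_restrict hD,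
      setIntegral_const, setIntegral_const] at h1
    have h2 : ν.real (((B ×ˢ C) ×ˢ (B' ×ˢ C')) ∩ E) =
        ν.real E * ν.real ((B ×ˢ C) ×ˢ (B' ×ˢ C')) := by
      have h3 := sub_eq_zero.1 h1
      simp only [Complex.real_smul, mul_one] at h3
      exact_mod_cast h3
    rw [Measure.restrict_apply hD, Measure.smul_apply, smul_eq_mul]
    rw [measureReal_def, measureReal_def, measureReal_def, ← ENNReal.toReal_mul] at h2
    exact (ENNReal.toReal_eq_toReal_iff' (measure_ne_top _ _)
      (ENNReal.mul_ne_top (measure_ne_top _ _) (measure_ne_top _ _))).1 h2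
  have hfin := congrArg (fun m : Measure _ => m Eᶜ) hmeas
  rw [Measure.restrict_apply hE.compl, compl_inter_self, measure_empty, Measure.smul_apply,
    smul_eq_mul] at hfin
  rw [eventuallyConst_set']
  rcases mul_eq_zero.1 hfin.symm with h | h
  · left
    exact ae_eq_empty.2 h
  · right
    exact ae_eq_univ.2 h

end R970.WM
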