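import Pool.Agent.R970.WM.Stm2
import Pool.Agent.R970.WM.AV

open MeasureTheory Set Filter Topology

namespace R970.WM

instance instProbU : IsProbabilityMeasure U := by
  constructor
  simp [U]

theorem mp_skewG {G : Type} [Group G] [TopologicalSpace G] [IsTopologicalGroup G] [CompactSpace G]
    [T2Space G] [SecondCountableTopology G] [MeasurableSpace G] [BorelSpace G] (ν : Measure G)
    [IsProbabilityMeasure ν] [ν.IsHaarMeasure] {n : ℕ} (T : ℝ → ℝ) (hT : MeasurePreserving T U U)
    (ix : ℝ → Fin n) (hix : Measurable ix) (g : Fin n → G) :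
    MeasurePreserving (skewG T ix g) (U.prod ν) (U.prod ν) := by
  have h := MeasurePreserving.skew_product (f := T) (μa := U) (μb := U) (μc := ν) (μd := ν) hT
    (g := fun x y => g (ix x) * y) ?_ ?_
  · exact h
  · have hg : Measurable (fun x : ℝ => g (ix x)) := (measurable_of_finite g).comp hix
    exact (hg.comp measurable_fst).mul measurable_snd
  · filter_upwards with x
    exact map_mul_left_eq_self ν (g (ix x))

theorem final_of (h : Stm.noEig) (hgt : Stm.gt) (hig : Stm.initGood) (hie : Stm.ietFacts) :
    Stm.final := by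
  intro G _ _ _ _ _ _ _ _ _ ν _ _ W0 _ _ _ ρ hρ hinj n _ hn π lam hpos hsum hwm
  have hix := (hie n hn lam hpos hsum).1
  have hg0 := (hie n hn lam hpos hsum).2
  have hG := hig n π lam hpos hsum
  have h1 := h G ν W0 ρ hρ hinj n (iet π lam) (idx lam) hwm hix ⟨0, hg0 0⟩ (init π lam) hG rfl rfl rfl
  have hmp : MeasurePreserving (iet π lam) U U := mp_of_square U (iet π lam) hwm
  filter_upwards [h1] with g hg
  exact hgt (ℝ × G) (U.prod ν) (skewG (iet π lam) (idx lam) g)
    (mp_skewG ν (iet π lam) hmp (idx lam) hix g) hg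

end R970.WM
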