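import Pool.Agent.R970.WM.Stm

open MeasureTheory Set Filter Topology

namespace R970.WM

namespace IEAux

lemma lft_nonneg {n : ℕ} {lam : Fin n → ℝ} (hl : ∀ k, 0 < lam k) (k : Fin n) : 0 ≤ lft lam k :=
  Finset.sum_nonneg fun i _ => (hl i).le

lemma lft_add_le {n : ℕ} {lam : Fin n → ℝ} (hl : ∀ k, 0 < lam k) {j k : Fin n} (h : j < k) :
    lft lam j + lam j ≤ lft lam k := by
  classical
  have hnot : j ∉ Finset.univ.filter (fun i : Fin n => i < j) := by simp
  have : lft lam j + lam j = ∑ i ∈ insert j (Finset.univ.filter (fun i : Fin n => i < j)), lam i := by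
    rw [Finset.sum_insert hnot, lft, add_comm]
  rw [this, lft]
  refine Finset.sum_le_sum_of_subset_of_nonneg ?_ fun i _ _ => (hl i).le
  intro i hi
  rcases Finset.mem_insert.1 hi with h' | h'
  · subst h'; simpa using h
  · have h2 : i < j := by simpa using h'
    simpa using h2.trans h

lemma lft_add_le_one {n : ℕ} {lam : Fin n → ℝ} (hl : ∀ k, 0 < lam k) (hs : ∑ k, lam k = 1)
    (k : Fin n) : lft lam k + lam k ≤ 1 := by
  classical
  have hnot : k ∉ Finset.univ.filter (fun i : Fin n => i < k) := by simp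
  have : lft lam k + lam k = ∑ i ∈ insert k (Finset.univ.filter (fun i : Fin n => i < k)), lam i := by
    rw [Finset.sum_insert hnot, lft, add_comm]
  rw [this, ← hs]
  exact Finset.sum_le_sum_of_subset_of_nonneg (Finset.subset_univ _) fun i _ _ => (hl i).le

lemma uniq {n : ℕ} {lam : Fin n → ℝ} (hl : ∀ k, 0 < lam k) {j k : Fin n} {x : ℝ}
    (hj : x ∈ Ico (lft lam j) (lft lam j + lam j))
    (hk : x ∈ Ico (lft lam k) (lft lam k + lam k)) : j = k := by
  rcases lt_trichotomy j k with h | h | h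
  · have := lft_add_le hl h
    have h1 := hj.2
    have h2 := hk.1
    linarith
  · exact h
  · have := lft_add_le hl h
    have h1 := hk.2
    have h2 := hj.1
    linarith

lemma idx_eq {n : ℕ} [NeZero n] {lam : Fin n → ℝ} (hl : ∀ k, 0 < lam k) {k : Fin n} {x : ℝ}
    (hk : x ∈ Ico (lft lam k) (lft lam k + lam k)) : idx lam x = k := by
  have h : ∃ k, x ∈ Ico (lft lam k) (lft lam k + lam k) := ⟨k, hk⟩
  rw [idx, dif_pos h]
  exact uniq hl h.choose_spec hk

lemma idx_zero {n : ℕ} [NeZero n] {lam : Fin n → ℝ} {x : ℝ}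
    (h : ¬ ∃ k, x ∈ Ico (lft lam k) (lft lam k + lam k)) : idx lam x = 0 := by
  rw [idx, dif_neg h]

lemma preimage_eq {n : ℕ} [NeZero n] {lam : Fin n → ℝ} (hl : ∀ k, 0 < lam k) (k : Fin n) :
    idx lam ⁻¹' {k} = Ico (lft lam k) (lft lam k + lam k) ∪
      ((⋃ j, Ico (lft lam j) (lft lam j + lam j))ᶜ ∩ {_x | k = 0}) := by
  ext x
  simp only [mem_preimage, mem_singleton_iff, mem_union, mem_inter_iff, mem_compl_iff, mem_iUnion,
    mem_ofPred_eq]
  constructor
  · intro h
    by_cases hx : ∃ j, x ∈ Ico (lft lam j) (lft lam j + lam j)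
    · obtain ⟨j, hj⟩ := hx
      left
      rw [idx_eq hl hj] at h
      exact h ▸ hj
    · right
      rw [idx_zero hx] at h
      exact ⟨hx, h.symm⟩
  · rintro (h | ⟨h1, h2⟩)
    · exact idx_eq hl h
    · rw [idx_zero h1, h2]

lemma idx_measurable {n : ℕ} [NeZero n] {lam : Fin n → ℝ} (hl : ∀ k, 0 < lam k) :
    Measurable (idx lam) := by
  refine measurable_to_countable' fun k => ?_
  rw [preimage_eq hl k]
  refine measurableSet_Ico.union ((MeasurableSet.iUnion fun j => measurableSet_Ico).compl.inter ?_)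
  exact MeasurableSet.const _

end IEAux

open IEAux in
theorem ietFacts : Stm.ietFacts := by
  intro n _ hn lam hl hs
  have hm := idx_measurable hl
  refine ⟨hm, fun k => ⟨?_, ?_⟩⟩
  · have hsub : Ico (lft lam k) (lft lam k + lam k) ⊆ (idx lam ⁻¹' {k}) ∩ Ico (0:ℝ) 1 := by
      intro x hx
      exact ⟨idx_eq hl hx, (lft_nonneg hl k).trans hx.1, hx.2.trans_le (lft_add_le_one hl hs k)⟩
    rw [U, Measure.restrict_apply (hm (measurableSet_singleton k))]
    refine lt_of_lt_of_le ?_ (measure_mono hsub)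
    rw [Real.volume_Ico]
    simpa using hl k
  · obtain ⟨j, hj⟩ : ∃ j : Fin n, j ≠ k := by
      have : Nontrivial (Fin n) := Fin.nontrivial_iff_two_le.2 hn
      exact exists_ne k
    have hsub : (idx lam ⁻¹' {k}) ∩ Ico (0:ℝ) 1 ⊆
        Ico (0:ℝ) 1 \ Ico (lft lam j) (lft lam j + lam j) := by
      rintro x ⟨h1, h2⟩
      refine ⟨h2, fun h3 => hj ?_⟩
      rw [← idx_eq hl h3]
      exact h1
    rw [U, Measure.restrict_apply (hm (measurableSet_singleton k))]
    refine lt_of_le_of_lt (measure_mono hsub) ?_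
    have hsub' : Ico (lft lam j) (lft lam j + lam j) ⊆ Ico (0:ℝ) 1 := fun x hx =>
      ⟨(lft_nonneg hl j).trans hx.1, hx.2.trans_le (lft_add_le_one hl hs j)⟩
    rw [measure_sdiff hsub' measurableSet_Ico.nullMeasurableSet (by rw [Real.volume_Ico]; simp),
      Real.volume_Ico, Real.volume_Ico]
    have e1 : ENNReal.ofReal (1 - 0) = 1 := by simp
    have e2 : ENNReal.ofReal (lft lam j + lam j - lft lam j) = ENNReal.ofReal (lam j) := by
      congr 1; ring
    rw [e1, e2]
    exact ENNReal.sub_lt_self ENNReal.one_ne_top one_ne_zero (by simpa using hl j)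

end R970.WM
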