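import Pool.Agent.R970.WM.Defs

open MeasureTheory Set Filter Topology

namespace R970.WM.Stm

/-- E3: weak mixing implies the ergodicity of the threefold product -/
def ergodic3 : Prop := ∀ (X : Type) [MeasurableSpace X] (μ : Measure X) [IsProbabilityMeasure μ]
  (T : X → X), MeasurePreserving T μ μ → Ergodic (Prod.map T T) (μ.prod μ) →
  Ergodic (Prod.map T (Prod.map T T)) (μ.prod (μ.prod μ))

/-- TR: mean ergodic theorem on `X × X × ℤ` -/
def transfer : Prop := ∀ (X : Type) [MeasurableSpace X] (μ : Measure X) [IsProbabilityMeasure μ]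
  (T : X → X), MeasurePreserving T μ μ → Ergodic (Prod.map T T) (μ.prod μ) →
  ∀ A : Set X, MeasurableSet A →
  ¬ Tendsto (fun N : ℕ => (∑ k ∈ Finset.range N,
      ((μ.prod μ).real {p : X × X | vis T A k p.1 = vis T A k p.2})) / (N:ℝ)) atTop (𝓝 0) →
  ∃ r : ℕ, 0 < r ∧ ∃ b : X × X → ℤ, Measurable b ∧ ∀ᵐ p ∂(μ.prod μ),
    b (T p.1, T p.2) = b p + r * (A.indicator (fun _ => (1:ℤ)) p.1 - A.indicator (fun _ => (1:ℤ)) p.2)

/-- SP: splitting of the transfer function (uses `ergodic3`) -/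
def split : Prop := ∀ (X : Type) [MeasurableSpace X] (μ : Measure X) [IsProbabilityMeasure μ]
  (T : X → X), MeasurePreserving T μ μ → Ergodic (Prod.map T T) (μ.prod μ) →
  ∀ A : Set X, MeasurableSet A → ∀ r : ℕ, 0 < r → ∀ b : X × X → ℤ, Measurable b →
  (∀ᵐ p ∂(μ.prod μ),
    b (T p.1, T p.2) = b p + r * (A.indicator (fun _ => (1:ℤ)) p.1 - A.indicator (fun _ => (1:ℤ)) p.2)) →
  ∃ (p : X → ℤ) (l : ℤ), Measurable p ∧
    ∀ᵐ x ∂μ, r * A.indicator (fun _ => (1:ℤ)) x = p (T x) - p x + l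

/-- NC: no such splitting when `0 < μ A < 1` -/
def noCob : Prop := ∀ (X : Type) [MeasurableSpace X] (μ : Measure X) [IsProbabilityMeasure μ]
  (T : X → X), MeasurePreserving T μ μ → Ergodic (Prod.map T T) (μ.prod μ) →
  ∀ A : Set X, MeasurableSet A → 0 < μ A → μ A < 1 → ∀ r : ℕ, 0 < r → ∀ (p : X → ℤ) (l : ℤ),
  Measurable p → (∀ᵐ x ∂μ, r * A.indicator (fun _ => (1:ℤ)) x = p (T x) - p x + l) → False

/-- AV: the averages tend to zero (from `transfer`, `split`, `noCob`) -/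
def avg : Prop := ∀ (X : Type) [MeasurableSpace X] (μ : Measure X) [IsProbabilityMeasure μ]
  (T : X → X), MeasurePreserving T μ μ → Ergodic (Prod.map T T) (μ.prod μ) →
  ∀ A : Set X, MeasurableSet A → 0 < μ A → μ A < 1 →
  Tendsto (fun N : ℕ => (∑ k ∈ Finset.range N,
      ((μ.prod μ).real {p : X × X | vis T A k p.1 = vis T A k p.2})) / (N:ℝ)) atTop (𝓝 0)

/-- ME: mean value over the parameters -/
def mean : Prop := ∀ (X : Type) [MeasurableSpace X] (μ : Measure X) [IsProbabilityMeasure μ]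
  (T : X → X), MeasurePreserving T μ μ → ∀ (n r : ℕ) (ix : X → Fin n), Measurable ix →
  ∀ (k0 : Fin n) (m : Fin r → ℤ), m ≠ 0 → ∀ u v : X → ℂ, Measurable u → Measurable v →
  (∀ x, ‖u x‖ ≤ 1) → (∀ x, ‖v x‖ ≤ 1) → ∀ k : ℕ,
  ∫ g : Fin n → UnitAddTorus (Fin r), ‖corr μ T ix g m u v k‖ ^ 2 ≤
    (μ.prod μ).real {p : X × X | vis T (ix ⁻¹' {k0}) k p.1 = vis T (ix ⁻¹' {k0}) k p.2}

/-- AE: almost every parameter is good for all pairs of sets (from `avg`, `mean`) -/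
def aeGood : Prop := ∀ (X : Type) [MeasurableSpace X] [MeasurableSpace.CountablyGenerated X]
  (μ : Measure X) [IsProbabilityMeasure μ]
  (T : X → X), MeasurePreserving T μ μ → Ergodic (Prod.map T T) (μ.prod μ) →
  ∀ (n r : ℕ) (ix : X → Fin n), Measurable ix →
  ∀ (k0 : Fin n), 0 < μ (ix ⁻¹' {k0}) → μ (ix ⁻¹' {k0}) < 1 →
  ∀ᵐ g : Fin n → UnitAddTorus (Fin r), ∀ m : Fin r → ℤ, m ≠ 0 →
    ∀ A B : Set X, MeasurableSet A → MeasurableSet B → ∀ ε : ℝ, 0 < ε → ∃ᶠ N : ℕ in atTop,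
      (∑ k ∈ Finset.range N, ‖corr μ T ix g m (chi A) (chi B) k‖ ^ 2) / (N:ℝ) < ε

/-- ER: a good parameter gives a weakly mixing skew product -/
def good : Prop := ∀ (X : Type) [MeasurableSpace X]
  (μ : Measure X) [IsProbabilityMeasure μ]
  (T : X → X), MeasurePreserving T μ μ → Ergodic (Prod.map T T) (μ.prod μ) →
  ∀ (n r : ℕ) (ix : X → Fin n), Measurable ix → ∀ g : Fin n → UnitAddTorus (Fin r),
  (∀ m : Fin r → ℤ, m ≠ 0 →
    ∀ A B : Set X, MeasurableSet A → MeasurableSet B → ∀ ε : ℝ, 0 < ε → ∃ᶠ N : ℕ in atTop,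
      (∑ k ∈ Finset.range N, ‖corr μ T ix g m (chi A) (chi B) k‖ ^ 2) / (N:ℝ) < ε) →
  WeakMix (skew T ix g) (μ.prod (volume : Measure (UnitAddTorus (Fin r))))

/-- MAIN (general transformations) -/
def main : Prop := ∀ (X : Type) [MeasurableSpace X] [MeasurableSpace.CountablyGenerated X]
  (μ : Measure X) [IsProbabilityMeasure μ]
  (T : X → X), WeakMix T μ →
  ∀ (n r : ℕ) (ix : X → Fin n), Measurable ix →
  ∀ (k0 : Fin n), 0 < μ (ix ⁻¹' {k0}) → μ (ix ⁻¹' {k0}) < 1 →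
  ∀ᵐ g : Fin n → UnitAddTorus (Fin r),
    WeakMix (skew T ix g) (μ.prod (volume : Measure (UnitAddTorus (Fin r))))

/-- IE: facts about interval exchanges -/
def ietFacts : Prop := ∀ (n : ℕ) [NeZero n], 2 ≤ n → ∀ lam : Fin n → ℝ, (∀ k, 0 < lam k) →
  ∑ k, lam k = 1 → Measurable (idx lam) ∧ ∀ k : Fin n, 0 < U ((idx lam) ⁻¹' {k}) ∧ U ((idx lam) ⁻¹' {k}) < 1

end R970.WM.Stm
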