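import Mathlib
import Pool.Agent.R970.WM.Stm

open MeasureTheory Set Filter Topology
open scoped ComplexConjugate

namespace R970.WM

namespace ME

variable {r : ℕ}

theorem E_add (m : Fin r → ℤ) (x y : UnitAddTorus (Fin r)) :
    UnitAddTorus.mFourier m (x + y) = UnitAddTorus.mFourier m x * UnitAddTorus.mFourier m y := by
  simp only [UnitAddTorus.mFourier, ContinuousMap.coe_mk, Pi.add_apply, fourier_apply, zsmul_add,
    AddCircle.toCircle_add, Circle.coe_mul, Finset.prod_mul_distrib]

theorem E_norm (m : Fin r → ℤ) (x : UnitAddTorus (Fin r)) :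
    ‖UnitAddTorus.mFourier m x‖ = 1 := by
  simp only [UnitAddTorus.mFourier, ContinuousMap.coe_mk, fourier_apply, norm_prod,
    Circle.norm_coe, Finset.prod_const_one]

theorem E_mul_conj (m : Fin r → ℤ) (x : UnitAddTorus (Fin r)) :
    UnitAddTorus.mFourier m x * conj (UnitAddTorus.mFourier m x) = 1 := by
  rw [Complex.mul_conj, Complex.normSq_eq_norm_sq, E_norm]
  simp

theorem exists_s (m : Fin r → ℤ) (hm : m ≠ 0) (N : ℤ) (hN : N ≠ 0) :
    ∃ s : UnitAddTorus (Fin r), UnitAddTorus.mFourier m (N • s) = -1 := by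
  obtain ⟨i, hi⟩ := Function.ne_iff.1 hm
  have hi' : (m i : ℝ) ≠ 0 := by exact_mod_cast hi
  have hN' : (N : ℝ) ≠ 0 := by exact_mod_cast hN
  refine ⟨Pi.single i (((1 / (2 * m i * N) : ℝ)) : UnitAddCircle), ?_⟩
  have h1 : UnitAddTorus.mFourier m (N • (Pi.single i (((1 / (2 * m i * N) : ℝ)) :
      UnitAddCircle) : UnitAddTorus (Fin r))) =
      fourier (m i) (N • (((1 / (2 * m i * N) : ℝ)) : UnitAddCircle)) := by
    simp only [UnitAddTorus.mFourier, ContinuousMap.coe_mk]
    rw [Finset.prod_eq_single i]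
    · congr 1
      simp
    · intro j _ hj
      have : (N • (Pi.single i (((1 / (2 * m i * N) : ℝ)) : UnitAddCircle) :
          UnitAddTorus (Fin r))) j = 0 := by
        show N • ((Pi.single i (((1 / (2 * m i * N) : ℝ)) : UnitAddCircle) :
          UnitAddTorus (Fin r)) j) = 0
        rw [Pi.single_eq_of_ne hj, smul_zero]
      rw [this, fourier_eval_zero]
    · intro h
      exact absurd (Finset.mem_univ i) h
  rw [h1]
  have h2 : N • (((1 / (2 * m i * N) : ℝ)) : UnitAddCircle) =
      ((N * (1 / (2 * m i * N)) : ℝ) : UnitAddCircle) := by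
    rw [← zsmul_eq_mul]
    rfl
  rw [h2, fourier_coe_apply]
  have h3 : (2 * Real.pi * Complex.I * (m i : ℂ) * ((N * (1 / (2 * m i * N)) : ℝ) : ℂ) /
      ((1 : ℝ) : ℂ)) = Real.pi * Complex.I := by
    have hi2 : (m i : ℂ) ≠ 0 := by exact_mod_cast hi
    have hN2 : (N : ℂ) ≠ 0 := by exact_mod_cast hN
    push_cast
    field_simp
  rw [h3, Complex.exp_pi_mul_I]

theorem q1 : IsProbabilityMeasure (volume : Measure UnitAddCircle) := ⟨UnitAddCircle.measure_univ⟩

theorem q2 (r : ℕ) : IsProbabilityMeasure (volume : Measure (UnitAddTorus (Fin r))) := by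
  have := q1
  exact Measure.pi.instIsProbabilityMeasure _

theorem q3 (n r : ℕ) : IsProbabilityMeasure (volume : Measure (Fin n → UnitAddTorus (Fin r))) := by
  have := q2 r
  exact Measure.pi.instIsProbabilityMeasure _

theorem q5 (r : ℕ) : (volume : Measure (UnitAddTorus (Fin r))).IsAddLeftInvariant := by
  have := q1
  exact Measure.pi.isAddLeftInvariant _

theorem q6 (n r : ℕ) : (volume : Measure (Fin n → UnitAddTorus (Fin r))).IsAddLeftInvariant := by
  have := q2 r
  have := q5 r
  exact Measure.pi.isAddLeftInvariant _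

variable {X : Type} [MeasurableSpace X] {n : ℕ}

theorem coc_add (T : X → X) (ix : X → Fin n) (g : Fin n → UnitAddTorus (Fin r)) (k0 : Fin n)
    (s : UnitAddTorus (Fin r)) (k : ℕ) (x : X) :
    coc T ix (g + Pi.single k0 s) k x = coc T ix g k x + (vis T (ix ⁻¹' {k0}) k x) • s := by
  unfold coc vis
  rw [Finset.sum_smul, ← Finset.sum_add_distrib]
  apply Finset.sum_congr rfl
  intro j _
  rw [Pi.add_apply]
  congr 1
  by_cases h : ix (T^[j] x) = k0
  · rw [h, Pi.single_eq_same, Set.indicator_of_mem (by simpa using h), one_smul]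
  · rw [Pi.single_eq_of_ne h, Set.indicator_of_notMem (by simpa using h), zero_smul]

theorem vis_meas (T : X → X) (hT : Measurable T) (A : Set X) (hA : MeasurableSet A) (k : ℕ) :
    Measurable (vis T A k) := by
  unfold vis
  refine Finset.measurable_sum _ fun j _ => ?_
  exact (measurable_const.indicator hA).comp (hT.iterate j)

theorem coc_meas (T : X → X) (hT : Measurable T) (ix : X → Fin n) (hix : Measurable ix) (k : ℕ) :
    Measurable (fun p : (Fin n → UnitAddTorus (Fin r)) × X => coc T ix p.1 k p.2) := by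
  unfold coc
  refine Finset.measurable_sum _ fun j _ => ?_
  have h1 : Measurable (fun q : (Fin n → UnitAddTorus (Fin r)) × Fin n => q.1 q.2) := by
    apply measurable_from_prod_countable_left
    intro i
    exact measurable_pi_apply i
  exact h1.comp (measurable_fst.prodMk (hix.comp ((hT.iterate j).comp measurable_snd)))

/-- the inner integral -/
theorem inner_zero (T : X → X) (ix : X → Fin n) (k0 : Fin n) (m : Fin r → ℤ) (hm : m ≠ 0) (k : ℕ)
    (x y : X) (hne : vis T (ix ⁻¹' {k0}) k x ≠ vis T (ix ⁻¹' {k0}) k y) :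
    ∫ g : Fin n → UnitAddTorus (Fin r), UnitAddTorus.mFourier m (coc T ix g k x) *
      conj (UnitAddTorus.mFourier m (coc T ix g k y)) = 0 := by
  obtain ⟨s, hs⟩ := exists_s m hm (vis T (ix ⁻¹' {k0}) k x - vis T (ix ⁻¹' {k0}) k y)
    (sub_ne_zero.2 hne)
  have := q6 n r
  have h1 := integral_add_left_eq_self (μ := (volume : Measure (Fin n → UnitAddTorus (Fin r))))
    (fun g => UnitAddTorus.mFourier m (coc T ix g k x) *
      conj (UnitAddTorus.mFourier m (coc T ix g k y))) (Pi.single k0 s)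
  have h2 : ∀ g : Fin n → UnitAddTorus (Fin r),
      UnitAddTorus.mFourier m (coc T ix (Pi.single k0 s + g) k x) *
        conj (UnitAddTorus.mFourier m (coc T ix (Pi.single k0 s + g) k y)) =
      -(UnitAddTorus.mFourier m (coc T ix g k x) *
        conj (UnitAddTorus.mFourier m (coc T ix g k y))) := by
    intro g
    rw [add_comm (Pi.single k0 s) g, coc_add, coc_add, E_add, E_add, map_mul]
    have h3 : UnitAddTorus.mFourier m ((vis T (ix ⁻¹' {k0}) k x) • s) =
        -UnitAddTorus.mFourier m ((vis T (ix ⁻¹' {k0}) k y) • s) := by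
      have : (vis T (ix ⁻¹' {k0}) k x) • s =
          (vis T (ix ⁻¹' {k0}) k x - vis T (ix ⁻¹' {k0}) k y) • s +
            (vis T (ix ⁻¹' {k0}) k y) • s := by
        rw [← add_smul]; congr 1; ring
      rw [this, E_add, hs]
      ring
    rw [h3]
    have h4 := E_mul_conj m ((vis T (ix ⁻¹' {k0}) k y) • s)
    linear_combination (-(UnitAddTorus.mFourier m (coc T ix g k x) *
        conj (UnitAddTorus.mFourier m (coc T ix g k y)))) * h4
  simp only [h2] at h1
  rw [integral_neg] at h1
  have h5 : (2 : ℂ) * ∫ g : Fin n → UnitAddTorus (Fin r),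
      UnitAddTorus.mFourier m (coc T ix g k x) *
      conj (UnitAddTorus.mFourier m (coc T ix g k y)) = 0 := by
    linear_combination -h1
  rcases mul_eq_zero.1 h5 with h | h
  · norm_num at h
  · exact h

/-- the abstract estimate -/
theorem abs_bound {Ω : Type} [MeasurableSpace Ω] (ν : Measure Ω) [IsProbabilityMeasure ν]
    (μ : Measure X) [IsProbabilityMeasure μ] (E : Ω → X → ℂ)
    (hEm : Measurable (fun p : Ω × X => E p.1 p.2)) (hE1 : ∀ g x, ‖E g x‖ = 1)
    (w : X → ℂ) (hwm : Measurable w) (hw1 : ∀ x, ‖w x‖ ≤ 1) (D : Set (X × X))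
    (hDm : MeasurableSet D)
    (h0 : ∀ p ∉ D, ∫ g, E g p.1 * conj (E g p.2) ∂ν = 0) :
    ∫ g, ‖∫ x, E g x * w x ∂μ‖ ^ 2 ∂ν ≤ (μ.prod μ).real D := by
  let Φ : Ω → X × X → ℂ := fun g p => (E g p.1 * w p.1) * conj (E g p.2 * w p.2)
  have hΦm : Measurable (Function.uncurry Φ) := by
    have e1 : Measurable (fun q : Ω × (X × X) => E q.1 q.2.1) :=
      hEm.comp (measurable_fst.prodMk (measurable_fst.comp measurable_snd))
    have e2 : Measurable (fun q : Ω × (X × X) => E q.1 q.2.2) :=
      hEm.comp (measurable_fst.prodMk (measurable_snd.comp measurable_snd))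
    have e3 : Measurable (fun q : Ω × (X × X) => w q.2.1) :=
      hwm.comp (measurable_fst.comp measurable_snd)
    have e4 : Measurable (fun q : Ω × (X × X) => w q.2.2) :=
      hwm.comp (measurable_snd.comp measurable_snd)
    exact (e1.mul e3).mul (Complex.continuous_conj.measurable.comp (e2.mul e4))
  have hΦ1 : ∀ g p, ‖Φ g p‖ ≤ 1 := fun g p => by
    show ‖(E g p.1 * w p.1) * conj (E g p.2 * w p.2)‖ ≤ 1
    rw [norm_mul, RCLike.norm_conj, norm_mul, norm_mul, hE1, hE1, one_mul, one_mul]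
    exact mul_le_one₀ (hw1 _) (norm_nonneg _) (hw1 _)
  have hsq : ∀ g, ((‖∫ x, E g x * w x ∂μ‖ ^ 2 : ℝ) : ℂ) = ∫ p, Φ g p ∂(μ.prod μ) := by
    intro g
    have h1 : ((‖∫ x, E g x * w x ∂μ‖ ^ 2 : ℝ) : ℂ) =
        (∫ x, E g x * w x ∂μ) * conj (∫ x, E g x * w x ∂μ) := by
      rw [Complex.mul_conj, Complex.normSq_eq_norm_sq]
    rw [h1, ← integral_conj]
    exact (integral_prod_mul (fun x => E g x * w x) (fun x => conj (E g x * w x))).symm
  have hint : Integrable (Function.uncurry Φ) (ν.prod (μ.prod μ)) :=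
    Integrable.of_bound hΦm.aestronglyMeasurable 1 (ae_of_all _ fun q => hΦ1 q.1 q.2)
  have hI : ((∫ g, ‖∫ x, E g x * w x ∂μ‖ ^ 2 ∂ν : ℝ) : ℂ) =
      ∫ p, ∫ g, Φ g p ∂ν ∂(μ.prod μ) := by
    rw [← integral_complex_ofReal]
    simp only [hsq]
    exact integral_integral_swap hint
  have hbound : ∀ p, ‖∫ g, Φ g p ∂ν‖ ≤ D.indicator (fun _ => (1:ℝ)) p := by
    intro p
    by_cases hp : p ∈ D
    · rw [Set.indicator_of_mem hp]
      refine (norm_integral_le_of_norm_le_const (ae_of_all _ fun g => hΦ1 g p)).trans ?_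
      simp
    · rw [Set.indicator_of_notMem hp]
      have h1 : ∀ g, Φ g p = (w p.1 * conj (w p.2)) * (E g p.1 * conj (E g p.2)) := by
        intro g
        show (E g p.1 * w p.1) * conj (E g p.2 * w p.2) = _
        rw [map_mul]
        ring
      simp only [h1]
      rw [integral_const_mul, h0 p hp, mul_zero, norm_zero]
  have hnn : 0 ≤ ∫ g, ‖∫ x, E g x * w x ∂μ‖ ^ 2 ∂ν := integral_nonneg fun g => by positivity
  calc ∫ g, ‖∫ x, E g x * w x ∂μ‖ ^ 2 ∂ν
      = ‖((∫ g, ‖∫ x, E g x * w x ∂μ‖ ^ 2 ∂ν : ℝ) : ℂ)‖ := by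
        rw [Complex.norm_real, Real.norm_of_nonneg hnn]
    _ ≤ ∫ p, D.indicator (fun _ => (1:ℝ)) p ∂(μ.prod μ) := by
        rw [hI]
        exact norm_integral_le_of_norm_le ((integrable_const (1:ℝ)).indicator hDm)
          (ae_of_all _ hbound)
    _ = (μ.prod μ).real D := by
        rw [integral_indicator hDm]
        simp

end ME

open ME in
theorem mean : Stm.mean := by
  intro X _ μ _ T hT n r ix hix k0 m hm u v hu hv hu1 hv1 k
  have hvm := vis_meas T hT.measurable (ix ⁻¹' {k0}) (hix (measurableSet_singleton k0)) k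
  have hDm : MeasurableSet {p : X × X | vis T (ix ⁻¹' {k0}) k p.1 = vis T (ix ⁻¹' {k0}) k p.2} :=
    measurableSet_eq_fun (hvm.comp measurable_fst) (hvm.comp measurable_snd)
  have := q3 n r
  have h := abs_bound (volume : Measure (Fin n → UnitAddTorus (Fin r))) μ
    (fun g x => UnitAddTorus.mFourier m (coc T ix g k x))
    ((UnitAddTorus.mFourier m).continuous.measurable.comp (coc_meas T hT.measurable ix hix k))
    (fun g x => E_norm m _) (fun x => u (T^[k] x) * v x)
    ((hu.comp (hT.measurable.iterate k)).mul hv)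
    (fun x => by
      rw [norm_mul]
      exact mul_le_one₀ (hu1 _) (norm_nonneg _) (hv1 x))
    {p : X × X | vis T (ix ⁻¹' {k0}) k p.1 = vis T (ix ⁻¹' {k0}) k p.2} hDm
    (fun p hp => inner_zero T ix k0 m hm k p.1 p.2 hp)
  have hcorr : ∀ g, corr μ T ix g m u v k =
      ∫ x, UnitAddTorus.mFourier m (coc T ix g k x) * (u (T^[k] x) * v x) ∂μ := by
    intro g
    unfold corr
    simp only [mul_assoc]
  simp only [hcorr]
  exact h

end R970.WM
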