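import Pool.Agent.R970.WM.Stm

/-!
# Project WM: no coboundary
-/

open MeasureTheory Set Filter Topology

namespace R970.WM

namespace NC

/-- truncation -/
noncomputable def th (M t : ℝ) : ℝ := max (-M) (min t M)

theorem th_sub (M s t : ℝ) : |th M s - th M t| ≤ |s - t| := by
  unfold th
  have h1 : |max (-M) (min s M) - max (-M) (min t M)| ≤ |min s M - min t M| := by
    rw [max_comm (-M) (min s M), max_comm (-M) (min t M)]
    exact abs_max_sub_max_le_abs _ _ _
  refine h1.trans ?_
  have h2 := abs_max_sub_max_le_abs (-s) (-t) (-M)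
  rw [max_neg_neg, max_neg_neg] at h2
  have e1 : -min s M - -min t M = -(min s M - min t M) := by ring
  have e2 : -s - -t = -(s - t) := by ring
  rw [e1, e2, abs_neg, abs_neg] at h2
  exact h2

theorem th_bd (M t : ℝ) (hM : 0 ≤ M) : |th M t| ≤ M := by
  unfold th
  rw [abs_le]
  refine ⟨le_max_left _ _, max_le (by linarith) (min_le_right _ _)⟩

theorem th_eq (M t : ℝ) (h : |t| ≤ M) : th M t = t := by
  unfold th
  rw [abs_le] at h
  rw [min_eq_left h.2, max_eq_right h.1]

theorem th_meas (M : ℝ) : Measurable (th M) := by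
  unfold th
  exact measurable_const.max (measurable_id.min measurable_const)

/-- a bounded coboundary has integral zero -/
theorem int_zero {X : Type*} [MeasurableSpace X] (μ : Measure X) [IsProbabilityMeasure μ]
    (T : X → X) (hT : MeasurePreserving T μ μ) (P : X → ℝ) (hP : Measurable P) (C : ℝ)
    (hC : ∀ᵐ x ∂μ, |P (T x) - P x| ≤ C) : ∫ x, (P (T x) - P x) ∂μ = 0 := by
  have hlim : Tendsto (fun n : ℕ => ∫ x, (th n (P (T x)) - th n (P x)) ∂μ) atTop
      (𝓝 (∫ x, (P (T x) - P x) ∂μ)) := by
    refine tendsto_integral_of_dominated_convergence (fun _ => C) ?_ (integrable_const C) ?_ ?_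
    · intro n
      exact (((th_meas n).comp (hP.comp hT.measurable)).sub ((th_meas n).comp hP)).aestronglyMeasurable
    · intro n
      filter_upwards [hC] with x hx
      rw [Real.norm_eq_abs]
      exact (th_sub _ _ _).trans hx
    · refine ae_of_all _ fun x => ?_
      obtain ⟨N, hN⟩ := exists_nat_ge (max |P (T x)| |P x|)
      refine tendsto_const_nhds.congr' ?_
      filter_upwards [eventually_ge_atTop N] with n hn
      have hn' : (N : ℝ) ≤ n := by exact_mod_cast hn
      rw [th_eq n (P (T x)) ((le_max_left _ _).trans (hN.trans hn')),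
        th_eq n (P x) ((le_max_right _ _).trans (hN.trans hn'))]
  have hz : ∀ n : ℕ, ∫ x, (th n (P (T x)) - th n (P x)) ∂μ = 0 := by
    intro n
    have hi : Integrable (fun x => th n (P x)) μ := by
      refine Integrable.of_bound ((th_meas n).comp hP).aestronglyMeasurable (n : ℝ) ?_
      refine ae_of_all _ fun x => ?_
      rw [Real.norm_eq_abs]
      exact th_bd _ _ (Nat.cast_nonneg n)
    have hi' : Integrable (fun x => th n (P (T x))) μ := hT.integrable_comp_of_integrable hi
    rw [integral_sub hi' hi]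
    have : ∫ x, th n (P (T x)) ∂μ = ∫ x, th n (P x) ∂μ := by
      have h := integral_map (μ := μ) (φ := T) hT.aemeasurable
        (f := fun x => th n (P x)) ((th_meas n).comp hP).aestronglyMeasurable
      rw [hT.map_eq] at h
      exact h.symm
    rw [this, sub_self]
  exact tendsto_nhds_unique hlim (by simp only [hz]; exact tendsto_const_nhds)

end NC

theorem noCob : Stm.noCob := by
  intro X _ μ _ T hT hTT A hA h0 h1 r hr p l hp hpl
  have hr0 : (r : ℤ) ≠ 0 := by exact_mod_cast hr.ne'
  have hf : ∀ᵐ z ∂(μ.prod μ), (r:ℤ) * A.indicator (fun _ => (1:ℤ)) z.1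
      = p (T z.1) - p z.1 + l := Measure.quasiMeasurePreserving_fst.ae hpl
  have hs : ∀ᵐ z ∂(μ.prod μ), (r:ℤ) * A.indicator (fun _ => (1:ℤ)) z.2
      = p (T z.2) - p z.2 + l := Measure.quasiMeasurePreserving_snd.ae hpl
  set D : X × X → ℤ := fun z => (p z.1 - p z.2) % (r:ℤ) with hDdef
  have hD : Measurable D :=
    (measurable_of_countable (fun k : ℤ => k % (r:ℤ))).comp
      ((hp.comp measurable_fst).sub (hp.comp measurable_snd))
  have hinv : D ∘ (Prod.map T T) =ᵐ[μ.prod μ] D := by
    filter_upwards [hf, hs] with z h1 h2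
    show (p (T z.1) - p (T z.2)) % (r:ℤ) = (p z.1 - p z.2) % (r:ℤ)
    have : p (T z.1) - p (T z.2) = p z.1 - p z.2 + r * (A.indicator (fun _ => (1:ℤ)) z.1
        - A.indicator (fun _ => (1:ℤ)) z.2) := by
      rw [mul_sub, h1, h2]; ring
    rw [this, Int.add_mul_emod_self_left]
  obtain ⟨k0, hk0⟩ := hTT.ae_eq_const_of_ae_eq_comp_ae hD.aestronglyMeasurable hinv
  have hk1 : ∀ᵐ x ∂μ, ∀ᵐ y ∂μ, D (x, y) = k0 := Measure.ae_ae_of_ae_prod hk0
  obtain ⟨c, hc⟩ := hk1.exists
  have hTc : ∀ᵐ y ∂μ, D (c, T y) = k0 := hT.quasiMeasurePreserving.ae hc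
  obtain ⟨y, hy1, hy2, hy3⟩ := (hc.and (hTc.and hpl)).exists
  have hdvd : (r : ℤ) ∣ l := by
    have e1 : (p c - p y) % (r:ℤ) = (p c - p (T y)) % (r:ℤ) := by
      have a1 : (p c - p y) % (r:ℤ) = k0 := hy1
      have a2 : (p c - p (T y)) % (r:ℤ) = k0 := hy2
      rw [a1, a2]
    have e3 : (r:ℤ) ∣ (p c - p y) - (p c - p (T y)) :=
      Int.ModEq.dvd (Int.ModEq.symm e1)
    have e4 : l = r * A.indicator (fun _ => (1:ℤ)) y - ((p c - p y) - (p c - p (T y))) := by
      rw [hy3]; ring
    rw [e4]
    exact dvd_sub (Dvd.intro _ rfl) e3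
  obtain ⟨l', hl'⟩ := hdvd
  set P : X → ℝ := fun x => (p x : ℝ) with hPdef
  have hP : Measurable P := (measurable_of_countable (fun k : ℤ => (k : ℝ))).comp hp
  have hPT : ∀ᵐ x ∂μ, P (T x) - P x = r * (A.indicator (fun _ => (1:ℝ)) x - l') := by
    filter_upwards [hpl] with x hx
    have h2 : p (T x) - p x = r * (A.indicator (fun _ => (1:ℤ)) x - l') := by
      rw [mul_sub, hx, hl']; ring
    have h3 : ((p (T x) - p x : ℤ) : ℝ) = ((r * (A.indicator (fun _ => (1:ℤ)) x - l') : ℤ) : ℝ) := by
      rw [h2]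
    push_cast at h3
    have h4 : ((A.indicator (fun _ => (1:ℤ)) x : ℤ) : ℝ) = A.indicator (fun _ => (1:ℝ)) x := by
      by_cases hxA : x ∈ A
      · rw [indicator_of_mem hxA, indicator_of_mem hxA]; norm_num
      · rw [indicator_of_notMem hxA, indicator_of_notMem hxA]; norm_num
    rw [h4] at h3
    exact h3
  have hbd : ∀ᵐ x ∂μ, |P (T x) - P x| ≤ r * (1 + |(l':ℝ)|) := by
    filter_upwards [hPT] with x hx
    rw [hx, abs_mul, Nat.abs_cast]
    refine mul_le_mul_of_nonneg_left ?_ (Nat.cast_nonneg r)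
    refine (abs_sub _ _).trans ?_
    have : |A.indicator (fun _ => (1:ℝ)) x| ≤ 1 := by
      by_cases hxA : x ∈ A
      · rw [indicator_of_mem hxA]; norm_num
      · rw [indicator_of_notMem hxA]; norm_num
    linarith
  have hint := NC.int_zero μ T hT P hP _ hbd
  rw [integral_congr_ae hPT, integral_const_mul, integral_sub, integral_indicator hA] at hint
  · have hr1 : (r:ℝ) ≠ 0 := by exact_mod_cast hr.ne'
    have h5 := (mul_eq_zero.mp hint).resolve_left hr1
    simp only [integral_const, smul_eq_mul, mul_one, probReal_univ, one_mul] at h5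
    have h6 : μ.real A = l' := by
      have : (μ.restrict A).real univ = μ.real A := by
        rw [measureReal_restrict_apply_univ]
      rw [this] at h5
      linarith
    have h7 : 0 < μ.real A := by
      rw [measureReal_def]
      exact ENNReal.toReal_pos h0.ne' (measure_ne_top μ A)
    have h8 : μ.real A < 1 := by
      rw [measureReal_def]
      have := (ENNReal.toReal_lt_toReal (measure_ne_top μ A) ENNReal.one_ne_top).mpr h1
      simpa using this
    rw [h6] at h7 h8
    have h9 : 0 < l' := by exact_mod_cast h7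
    have h10 : l' < 1 := by exact_mod_cast h8
    omega
  · exact (integrable_const (1:ℝ)).indicator hA
  · exact integrable_const _

end R970.WM
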