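import Pool.Agent.R970.WM.Stm

/-!
Splitting of the transfer function (helper209).
-/

open MeasureTheory Set Filter Topology

namespace R970.WM

theorem split (h3 : Stm.ergodic3) : Stm.split := by
  intro X _ μ _ T hT hE A hA r hr b hb hrel
  have hE3 := h3 X μ T hT hE
  generalize A.indicator (fun _ => (1:ℤ)) = ind at hrel ⊢
  let κ : X × (X × X) → ℤ := fun q => b (q.1, q.2.1) + b (q.2.1, q.2.2) - b (q.1, q.2.2)
  have hκm : Measurable κ := by
    have h1 : Measurable fun q : X × (X × X) => b (q.1, q.2.1) := hb.comp (by fun_prop)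
    have h2 : Measurable fun q : X × (X × X) => b (q.2.1, q.2.2) := hb.comp (by fun_prop)
    have h4 : Measurable fun q : X × (X × X) => b (q.1, q.2.2) := hb.comp (by fun_prop)
    exact (h1.add h2).sub h4
  have e1 : ∀ᵐ q : X × (X × X) ∂(μ.prod (μ.prod μ)),
      b (T q.1, T q.2.1) = b (q.1, q.2.1) + r * (ind q.1 - ind q.2.1) := by
    have hmp : MeasurePreserving (Prod.map id Prod.fst : X × (X × X) → X × X)
        (μ.prod (μ.prod μ)) (μ.prod μ) :=
      (MeasurePreserving.id μ).prod measurePreserving_fst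
    exact hmp.quasiMeasurePreserving.ae hrel
  have e2 : ∀ᵐ q : X × (X × X) ∂(μ.prod (μ.prod μ)),
      b (T q.2.1, T q.2.2) = b (q.2.1, q.2.2) + r * (ind q.2.1 - ind q.2.2) := by
    have hmp : MeasurePreserving (Prod.snd : X × (X × X) → X × X)
        (μ.prod (μ.prod μ)) (μ.prod μ) := measurePreserving_snd
    exact hmp.quasiMeasurePreserving.ae hrel
  have e3 : ∀ᵐ q : X × (X × X) ∂(μ.prod (μ.prod μ)),
      b (T q.1, T q.2.2) = b (q.1, q.2.2) + r * (ind q.1 - ind q.2.2) := by
    have hmp : MeasurePreserving (Prod.map id Prod.snd : X × (X × X) → X × X)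
        (μ.prod (μ.prod μ)) (μ.prod μ) :=
      (MeasurePreserving.id μ).prod measurePreserving_snd
    exact hmp.quasiMeasurePreserving.ae hrel
  have hinv : κ ∘ Prod.map T (Prod.map T T) =ᵐ[μ.prod (μ.prod μ)] κ := by
    filter_upwards [e1, e2, e3] with q h1 h2 h4
    change b (T q.1, T q.2.1) + b (T q.2.1, T q.2.2) - b (T q.1, T q.2.2) =
      b (q.1, q.2.1) + b (q.2.1, q.2.2) - b (q.1, q.2.2)
    rw [h1, h2, h4]
    ring
  obtain ⟨K, hK⟩ := hE3.quasiErgodic.ae_eq_const_of_ae_eq_comp_ae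
    hκm.aestronglyMeasurable hinv
  obtain ⟨c, hc⟩ := (Measure.ae_ae_of_ae_prod hK).exists
  have hc1 : ∀ᵐ q : X × X ∂(μ.prod μ), b q = b (c, q.2) - b (c, q.1) + K := by
    filter_upwards [hc] with q hq
    have hq' : b (c, q.1) + b (q.1, q.2) - b (c, q.2) = K := hq
    have : b q = b (q.1, q.2) := rfl
    linarith
  have hc2 := hE.quasiMeasurePreserving.ae hc1
  have hF : ∀ᵐ q : X × X ∂(μ.prod μ),
      r * ind q.1 + b (c, T q.1) - b (c, q.1) = r * ind q.2 + b (c, T q.2) - b (c, q.2) := by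
    filter_upwards [hrel, hc1, hc2] with q h1 h2 h4
    have h4' : b (T q.1, T q.2) = b (c, T q.2) - b (c, T q.1) + K := h4
    rw [h4', h2] at h1
    linarith
  obtain ⟨d, hd⟩ := (Measure.ae_ae_of_ae_prod hF).exists
  refine ⟨fun x => -b (c, x), r * ind d + b (c, T d) - b (c, d),
    (hb.comp measurable_prodMk_left).neg, ?_⟩
  filter_upwards [hd] with x hx
  have hx' : r * ind d + b (c, T d) - b (c, d) = r * ind x + b (c, T x) - b (c, x) := hx
  change r * ind x = -b (c, T x) - -b (c, x) + (r * ind d + b (c, T d) - b (c, d))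
  rw [hx']
  ring

end R970.WM
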