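import Pool.Agent.R970.WM.Stm

/-!
# WM-TR: mean ergodic theorem on `X × X × ℤ`
-/

set_option autoImplicit false
set_option linter.all false

open MeasureTheory Set Filter Topology

namespace R970.WM.TRb

open scoped ENNReal NNReal InnerProductSpace

section

variable {Y : Type} [MeasurableSpace Y] {ν : Measure Y} [IsProbabilityMeasure ν] {S : Y → Y}
  {φ : Y → ℤ}

/-- the skew product -/
def RR (S : Y → Y) (φ : Y → ℤ) (y : Y × ℤ) : Y × ℤ := (S y.1, y.2 + φ y.1)

omit [MeasurableSpace Y] in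
theorem RR_iter (k : ℕ) (y : Y × ℤ) : (RR S φ)^[k] y =
    (S^[k] y.1, y.2 + ∑ j ∈ Finset.range k, φ (S^[j] y.1)) := by
  induction k with
  | zero => simp
  | succ k ih =>
    rw [Function.iterate_succ_apply', ih, Function.iterate_succ_apply', Finset.sum_range_succ]
    unfold RR
    simp only [Prod.mk.injEq, true_and]
    ring

theorem map_count (c : ℤ) : Measure.map (fun n : ℤ => n + c) (Measure.count : Measure ℤ) =
    Measure.count := by
  ext s hs
  rw [Measure.map_apply (measurable_of_countable _) hs]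
  have : (fun n : ℤ => n + c) ⁻¹' s = (fun n : ℤ => n - c) '' s := by
    ext n
    constructor
    · intro h
      exact ⟨n + c, h, by ring⟩
    · rintro ⟨k, hk, rfl⟩
      simpa using hk
  rw [this]
  exact Measure.count_injective_image (sub_left_injective) s

theorem RR_mp (hS : MeasurePreserving S ν ν) (hφ : Measurable φ) :
    MeasurePreserving (RR S φ) (ν.prod (Measure.count : Measure ℤ))
      (ν.prod (Measure.count : Measure ℤ)) := by
  have h1 : Measurable (Function.uncurry fun (p : Y) (n : ℤ) => n + φ p) := by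
    unfold Function.uncurry
    exact measurable_snd.add (hφ.comp measurable_fst)
  exact hS.skew_product h1 (ae_of_all _ fun p => map_count (φ p))

/-- the base of the tower -/
def E0 (Y : Type) : Set (Y × ℤ) := univ ×ˢ {0}

theorem E0_meas : MeasurableSet (E0 Y) := MeasurableSet.univ.prod (measurableSet_singleton 0)

theorem E0_ne : (ν.prod (Measure.count : Measure ℤ)) (E0 Y) ≠ ∞ := by
  unfold E0
  rw [Measure.prod_prod, measure_univ, Measure.count_singleton]
  norm_num

theorem pre_E0 (k : ℕ) : ((RR S φ)^[k] ⁻¹' E0 Y) ∩ E0 Y =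
    {p | ∑ j ∈ Finset.range k, φ (S^[j] p) = 0} ×ˢ {0} := by
  ext y
  simp only [E0, mem_inter_iff, mem_preimage, RR_iter, mem_prod, mem_univ, true_and,
    mem_singleton_iff, mem_ofPred_eq]
  constructor
  · rintro ⟨h1, h2⟩
    rw [h2, zero_add] at h1
    exact ⟨h1, h2⟩
  · rintro ⟨h1, h2⟩
    rw [h2, zero_add]
    exact ⟨h1, rfl⟩

theorem exists_fixed (hS : MeasurePreserving S ν ν) (hφ : Measurable φ)
    (h : ¬ Tendsto (fun N : ℕ => (∑ k ∈ Finset.range N,
      ν.real {p | ∑ j ∈ Finset.range k, φ (S^[j] p) = 0}) / (N : ℝ)) atTop (𝓝 0)) :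
    ∃ q : Lp ℝ 2 (ν.prod (Measure.count : Measure ℤ)), q ≠ 0 ∧
      Lp.compMeasurePreserving (RR S φ) (RR_mp hS hφ) q = q := by
  set m := ν.prod (Measure.count : Measure ℤ) with hm
  have hR := RR_mp hS hφ
  let f0 : Lp ℝ 2 m := indicatorConstLp 2 (E0_meas (Y := Y)) (E0_ne (ν := ν)) (1 : ℝ)
  let U : Lp ℝ 2 m →ₗᵢ[ℝ] Lp ℝ 2 m := Lp.compMeasurePreservingₗᵢ ℝ (RR S φ) hR
  have hU : ∀ k : ℕ, (U.toContinuousLinearMap)^[k] f0 =
      indicatorConstLp 2 ((hR.iterate k).measurable (E0_meas (Y := Y)))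
        (by rw [(hR.iterate k).measure_preimage (E0_meas (Y := Y)).nullMeasurableSet]
            exact E0_ne) (1 : ℝ) := by
    intro k
    have h1 : (U.toContinuousLinearMap)^[k] f0 =
        Lp.compMeasurePreserving ((RR S φ)^[k]) (hR.iterate k) f0 := by
      rw [← Lp.compMeasurePreserving_iterate]
      rfl
    rw [h1]
    exact Lp.indicatorConstLp_compMeasurePreserving (E0_meas (Y := Y)) (E0_ne (ν := ν)) 1
      (hR.iterate k)
  have hin : ∀ k : ℕ, ⟪f0, (U.toContinuousLinearMap)^[k] f0⟫_ℝ =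
      ν.real {p | ∑ j ∈ Finset.range k, φ (S^[j] p) = 0} := by
    intro k
    rw [hU k, L2.inner_indicatorConstLp_one, setIntegral_indicatorConstLp (E0_meas (Y := Y)),
      pre_E0, smul_eq_mul, mul_one, measureReal_def, measureReal_def, hm, Measure.prod_prod,
      Measure.count_singleton, mul_one]
  have hlim := U.toContinuousLinearMap.tendsto_birkhoffAverage_orthogonalProjection
    (U.norm_toContinuousLinearMap_le) f0
  set q := (U.toContinuousLinearMap.eqLocus (1 : Lp ℝ 2 m →L[ℝ] Lp ℝ 2 m)).orthogonalProjectionOnto f0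
    with hq
  refine ⟨(q : Lp ℝ 2 m), ?_, ?_⟩
  · intro hq0
    apply h
    have h2 : Tendsto (fun N : ℕ => ⟪f0, birkhoffAverage ℝ U.toContinuousLinearMap _root_.id N f0⟫_ℝ)
        atTop (𝓝 ⟪f0, (q : Lp ℝ 2 m)⟫_ℝ) := tendsto_const_nhds.inner hlim
    rw [hq0, inner_zero_right] at h2
    refine h2.congr fun N => ?_
    rw [birkhoffAverage, birkhoffSum, real_inner_smul_right, inner_sum, div_eq_inv_mul]
    congr 1
    exact Finset.sum_congr rfl fun k _ => hin k
  · have h3 := q.2
    exact h3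

theorem general (hS : Ergodic S ν) (hφ : Measurable φ)
    (h : ¬ Tendsto (fun N : ℕ => (∑ k ∈ Finset.range N,
      ν.real {p | ∑ j ∈ Finset.range k, φ (S^[j] p) = 0}) / (N : ℝ)) atTop (𝓝 0)) :
    ∃ b : Y → ℤ, Measurable b ∧ ∀ᵐ p ∂ν, b (S p) = b p + φ p := by
  classical
  obtain ⟨q, hq0, hqf⟩ := exists_fixed hS.toMeasurePreserving hφ h
  have hR := RR_mp hS.toMeasurePreserving hφ
  have hinv : ∀ᵐ y ∂(ν.prod (Measure.count : Measure ℤ)), q (RR S φ y) = q y := by
    have h1 := Lp.coeFn_compMeasurePreserving q hR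
    rw [hqf] at h1
    filter_upwards [h1] with y hy
    exact hy.symm
  have hqm : Measurable (q : Y × ℤ → ℝ) := (Lp.stronglyMeasurable q).measurable
  -- a level set
  obtain ⟨ε, hε, hpos⟩ : ∃ ε : ℝ≥0, ε ≠ 0 ∧
      (ν.prod (Measure.count : Measure ℤ)) {y | ε ≤ ‖q y‖₊} ≠ 0 := by
    by_contra hcon
    push Not at hcon
    apply hq0
    rw [Lp.eq_zero_iff_ae_eq_zero]
    have h2 : ∀ᵐ y ∂(ν.prod (Measure.count : Measure ℤ)), ∀ n : ℕ, ¬ (1 / ((n : ℝ≥0) + 1) ≤ ‖q y‖₊) := by
      rw [ae_all_iff]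
      intro n
      have h3 := hcon (1 / ((n : ℝ≥0) + 1)) (by positivity)
      rw [ae_iff]
      simpa using h3
    filter_upwards [h2] with y hy
    by_contra hne
    have h4 : 0 < ‖q y‖₊ := nnnorm_pos.2 (by simpa using hne)
    obtain ⟨n, hn⟩ := exists_nat_one_div_lt (K := ℝ≥0) h4
    exact hy n hn.le
  set E : Set (Y × ℤ) := {y | ε ≤ ‖q y‖₊} with hE
  have hEm : MeasurableSet E := measurableSet_le measurable_const hqm.nnnorm
  have hfin : (ν.prod (Measure.count : Measure ℤ)) E < ∞ := (Lp.memLp q).meas_ge_lt_top (by norm_num) (by norm_num) hε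
  have hEinv : ∀ᵐ p ∂ν, ∀ n : ℤ, ((S p, n + φ p) ∈ E ↔ (p, n) ∈ E) := by
    have h1 := Measure.ae_ae_of_ae_prod hinv
    filter_upwards [h1] with p hp
    rw [Measure.ae_count_iff] at hp
    intro n
    have h2 := hp n
    change q (S p, n + φ p) = q (p, n) at h2
    rw [hE, mem_ofPred_eq, mem_ofPred_eq, h2]
  have hEfin : ∀ᵐ p ∂ν, {n : ℤ | (p, n) ∈ E}.Finite := by
    have h1 := Measure.ae_measure_lt_top hEm hfin.ne
    filter_upwards [h1] with p hp
    exact (Measure.count_apply_lt_top).1 hp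
  have hsec : ∀ n : ℤ, MeasurableSet {p : Y | (p, n) ∈ E} := fun n =>
    (measurable_id.prodMk measurable_const) hEm
  -- nonempty sections
  have hG : ∀ᵐ p ∂ν, ∃ n : ℤ, (p, n) ∈ E := by
    set G : Set Y := {p | ∃ n : ℤ, (p, n) ∈ E} with hGd
    have hGm : MeasurableSet G := by
      have : G = ⋃ n : ℤ, {p : Y | (p, n) ∈ E} := by
        ext p
        simp [hGd]
      rw [this]
      exact MeasurableSet.iUnion hsec
    have hGi : S ⁻¹' G =ᵐ[ν] G := by
      filter_upwards [hEinv] with p hp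
      apply propext
      change (∃ n : ℤ, (S p, n) ∈ E) ↔ ∃ n : ℤ, (p, n) ∈ E
      constructor
      · rintro ⟨n, hn⟩
        refine ⟨n - φ p, (hp _).1 ?_⟩
        rwa [sub_add_cancel]
      · rintro ⟨n, hn⟩
        exact ⟨n + φ p, (hp n).2 hn⟩
    rcases hS.quasiErgodic.ae_empty_or_univ₀ hGm.nullMeasurableSet hGi with h1 | h1
    · exfalso
      apply hpos
      rw [Measure.measure_prod_null hEm]
      filter_upwards [measure_eq_zero_iff_ae_notMem.1 (ae_eq_empty.1 h1)] with p h2
      change Measure.count (Prod.mk p ⁻¹' E) = 0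
      rw [Measure.count_eq_zero_iff]
      ext n
      simp only [mem_preimage, mem_empty_iff_false, iff_false]
      intro h3
      exact h2 ⟨n, h3⟩
    · filter_upwards [eventuallyEq_univ.1 h1] with p hp
      exact hp
  -- the minimum of the section
  let Q : Y → ℤ → Prop := fun p n => (p, n) ∈ E ∧ ∀ n' < n, (p, n') ∉ E
  have hQm : ∀ n : ℤ, MeasurableSet {p | Q p n} := by
    intro n
    have : {p | Q p n} = {p : Y | (p, n) ∈ E} ∩ ⋂ n' : ℤ, ⋂ _ : n' < n, {p : Y | (p, n') ∈ E}ᶜ := by
      ext p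
      simp [Q]
    rw [this]
    exact (hsec n).inter (MeasurableSet.iInter fun n' => MeasurableSet.iInter fun _ => (hsec n').compl)
  have hQu : ∀ p n n', Q p n → Q p n' → n = n' := by
    intro p n n' h1 h2
    rcases lt_trichotomy n n' with h3 | h3 | h3
    · exact absurd h1.1 (h2.2 n h3)
    · exact h3
    · exact absurd h2.1 (h1.2 n' h3)
  let b : Y → ℤ := fun p => if h : ∃ n, Q p n then h.choose else 0
  have hb : ∀ p n, Q p n → b p = n := by
    intro p n hn
    have h1 : ∃ n, Q p n := ⟨n, hn⟩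
    have h2 : b p = h1.choose := dif_pos h1
    rw [h2]
    exact hQu p _ _ h1.choose_spec hn
  refine ⟨b, ?_, ?_⟩
  · refine measurable_to_countable' fun n => ?_
    have hex : MeasurableSet {p | ∃ k, Q p k} := by
      have : {p | ∃ k, Q p k} = ⋃ k, {p | Q p k} := by
        ext p
        simp
      rw [this]
      exact MeasurableSet.iUnion hQm
    have : b ⁻¹' {n} = {p | Q p n} ∪ ({p | ∃ k, Q p k}ᶜ ∩ {_p : Y | (0 : ℤ) = n}) := by
      ext p
      simp only [mem_preimage, mem_singleton_iff, mem_union, mem_inter_iff, mem_compl_iff,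
        mem_ofPred_eq]
      constructor
      · intro h1
        by_cases h2 : ∃ k, Q p k
        · obtain ⟨k, hk⟩ := h2
          left
          rw [hb p k hk] at h1
          rwa [← h1]
        · right
          refine ⟨h2, ?_⟩
          rw [← h1]
          have h4 : b p = 0 := dif_neg h2
          exact h4.symm
      · rintro (h1 | ⟨h1, h2⟩)
        · exact hb p n h1
        · rw [← h2]
          have h4 : b p = 0 := dif_neg h1
          exact h4
    rw [this]
    exact (hQm n).union (hex.compl.inter (MeasurableSet.const _))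
  · filter_upwards [hEinv, hEfin, hG] with p h1 h2 h3
    obtain ⟨n, hn, hmin⟩ : ∃ n, (p, n) ∈ E ∧ ∀ n', (p, n') ∈ E → n ≤ n' := by
      obtain ⟨B, hB⟩ := h2.bddBelow
      exact Int.exists_least_of_bdd ⟨B, fun z hz => hB hz⟩ h3
    have hQ1 : Q p n := ⟨hn, fun n' hn' hc => absurd (hmin n' hc) (not_le.2 hn')⟩
    have hQ2 : Q (S p) (n + φ p) := by
      refine ⟨(h1 n).2 hn, fun n' hn' hc => ?_⟩
      have h4 : (p, n' - φ p) ∈ E := (h1 _).1 (by rwa [sub_add_cancel])
      have := hmin _ h4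
      omega
    rw [hb _ _ hQ1, hb _ _ hQ2]

end

end R970.WM.TRb

namespace R970.WM.TRb

theorem transfer : Stm.transfer := by
  intro X _ μ _ T hT hTT A hA h
  have hφ : Measurable fun p : X × X =>
      A.indicator (fun _ => (1:ℤ)) p.1 - A.indicator (fun _ => (1:ℤ)) p.2 := by
    have h1 : Measurable (A.indicator (fun _ => (1:ℤ))) := measurable_const.indicator hA
    exact (h1.comp measurable_fst).sub (h1.comp measurable_snd)
  have hset : ∀ k : ℕ, {p : X × X | vis T A k p.1 = vis T A k p.2} =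
      {p : X × X | ∑ j ∈ Finset.range k, (fun p : X × X =>
        A.indicator (fun _ => (1:ℤ)) p.1 - A.indicator (fun _ => (1:ℤ)) p.2)
        ((Prod.map T T)^[j] p) = 0} := by
    intro k
    ext p
    simp only [mem_ofPred_eq, vis, Prod.map_iterate, Prod.map_fst, Prod.map_snd,
      Finset.sum_sub_distrib, sub_eq_zero]
  simp only [hset] at h
  obtain ⟨b, hb, h1⟩ := general hTT hφ h
  refine ⟨1, one_pos, b, hb, ?_⟩
  filter_upwards [h1] with p hp
  rw [Nat.cast_one, one_mul]
  exact hp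

end R970.WM.TRb

namespace R970.WM

/-- WM-TR -/
theorem transfer : Stm.transfer := TRb.transfer

end R970.WM
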