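import Pool.Agent.R970.WM.E3b
import Pool.Agent.R970.WM.TRb
import Pool.Agent.R970.WM.SP
import Pool.Agent.R970.WM.NC
import Pool.Agent.R970.WM.AV
import Pool.Agent.R970.WM.ME
import Pool.Agent.R970.WM.AE
import Pool.Agent.R970.WM.ER
import Pool.Agent.R970.WM.IE
import Pool.Agent.R970.WM.FN

open MeasureTheory Set

namespace R970.WM

theorem avgF : Stm.avg := avg transfer (split ergodic3) noCob

theorem mainF : Stm.main := main (aeGood avgF mean) good

theorem abFinal (n : ℕ) [NeZero n] (hn : 2 ≤ n) (π : Equiv.Perm (Fin n)) (lam : Fin n → ℝ)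
    (hpos : ∀ k, 0 < lam k) (hsum : ∑ k, lam k = 1) (hwm : WeakMix (iet π lam) U) (r : ℕ) :
    ∀ᵐ g : Fin n → UnitAddTorus (Fin r),
      WeakMix (skew (iet π lam) (idx lam) g) (U.prod (volume : Measure (UnitAddTorus (Fin r)))) := by
  have h := ietFacts n hn lam hpos hsum
  exact mainF ℝ U (iet π lam) hwm n r (idx lam) h.1 0 (h.2 0).1 (h.2 0).2

end R970.WM
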