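import Pool.Agent.R970.WM.Stm2

open MeasureTheory Set Filter Topology

namespace R970.WM

theorem cnt : Stm.cnt := by
  intro n s0
  let app : List (Bool × Fin n × Fin n) → St n := fun L =>
    L.foldr (fun p s => if p.1 then cutR s p.2.1 p.2.2 else cutL s p.2.1 p.2.2) s0
  refine ⟨Set.range (fun L => (app L).a), Set.countable_range _, ?_⟩
  intro x0 hx s' hr h
  apply hx
  have key : ∃ L, app L = s' := by
    clear h
    induction hr with
    | refl => exact ⟨[], rfl⟩
    | tail _ hst ih =>
      obtain ⟨L, hL⟩ := ih
      rcases hst with ⟨α, β, _, _, _, h, _⟩ | ⟨α, β, _, _, _, h, _⟩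
      · refine ⟨(true, α, β) :: L, ?_⟩
        have : app ((true, α, β) :: L) = cutR (app L) α β := by simp [app]
        rw [this, hL, h]
      · refine ⟨(false, α, β) :: L, ?_⟩
        have : app ((false, α, β) :: L) = cutL (app L) α β := by simp [app]
        rw [this, hL, h]
  obtain ⟨L, hL⟩ := key
  exact ⟨L, by simp only [hL]; exact h⟩

end R970.WM
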