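import Pool.Agent.R970.WM.Stm2

open MeasureTheory Set Filter Topology

namespace R970.WM

namespace COproof

/-- a big letter -/
def Big {n : ℕ} (s : St n) (i : Fin n) : Prop := i ∈ s.S ∧ s.b - s.a ≤ 4 * n * s.l i

/-- data of a state used here: positive lengths, total length -/
structure Core {n : ℕ} (s : St n) : Prop where
  lt : s.a < s.b
  pos : ∀ i ∈ s.S, 0 < s.l i
  tot : ∑ i ∈ s.S, s.l i = s.b - s.a

lemma core_refl {n : ℕ} {s : St n} (h : Core s) : Core (refl s) where
  lt := by simp only [refl]; linarith [h.lt]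
  pos := h.pos
  tot := by
    have := h.tot
    simp only [refl]
    rw [this]; ring

lemma big_refl {n : ℕ} {s : St n} {p : Fin n} : Big (refl s) p ↔ Big s p := by
  unfold Big refl
  constructor
  · rintro ⟨h1, h2⟩
    refine ⟨h1, ?_⟩
    simp only at h2
    linarith
  · rintro ⟨h1, h2⟩
    refine ⟨h1, ?_⟩
    simp only
    linarith

lemma exists_big {n : ℕ} {s : St n} (h : Core s) : ∃ p, Big s p := by
  by_contra hc
  have h1 : ∀ i ∈ s.S, 4 * n * s.l i ≤ s.b - s.a := by
    intro i hi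
    by_contra h2
    exact hc ⟨i, hi, (not_le.1 h2).le⟩
  have hn : (s.S.card : ℝ) ≤ n := by
    have := Finset.card_le_univ s.S
    rw [Fintype.card_fin] at this
    exact_mod_cast this
  have hL : 0 < s.b - s.a := by linarith [h.lt]
  have hne : s.S.Nonempty := by
    rw [Finset.nonempty_iff_ne_empty]
    intro h0
    have := h.tot
    rw [h0, Finset.sum_empty] at this
    linarith
  have hn1 : (1 : ℝ) ≤ n := by
    refine le_trans ?_ hn
    exact_mod_cast hne.card_pos
  have h3 : ∑ i ∈ s.S, 4 * n * s.l i ≤ s.S.card • (s.b - s.a) := Finset.sum_le_card_nsmul _ _ _ h1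
  rw [← Finset.mul_sum, h.tot, nsmul_eq_mul] at h3
  have h4 : (s.S.card : ℝ) * (s.b - s.a) ≤ n * (s.b - s.a) := mul_le_mul_of_nonneg_right hn hL.le
  nlinarith

lemma big_three {n : ℕ} {s : St n} (h : Core s) {p : Fin n} (hp : Big s p)
    (hu : ∀ i ∈ s.S, i ≠ p → 4 * n * s.l i < s.b - s.a) :
    3 * (s.b - s.a) ≤ 4 * n * s.l p ∧ (1 : ℝ) ≤ n := by
  have hn : (s.S.card : ℝ) ≤ n := by
    have := Finset.card_le_univ s.S
    rw [Fintype.card_fin] at this
    exact_mod_cast this
  have hL : 0 < s.b - s.a := by linarith [h.lt]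
  have hn1 : (1 : ℝ) ≤ n := by
    refine le_trans ?_ hn
    exact_mod_cast (Finset.card_pos.2 ⟨p, hp.1⟩)
  refine ⟨?_, hn1⟩
  have h1 : s.l p + ∑ i ∈ s.S.erase p, s.l i = s.b - s.a := by
    rw [Finset.add_sum_erase _ _ hp.1, h.tot]
  have h2 : ∑ i ∈ s.S.erase p, 4 * n * s.l i ≤ (s.S.erase p).card • (s.b - s.a) :=
    Finset.sum_le_card_nsmul _ _ _ fun i hi =>
      (hu i (Finset.mem_of_mem_erase hi) (Finset.ne_of_mem_erase hi)).le
  rw [← Finset.mul_sum, nsmul_eq_mul] at h2
  have h3 : ((s.S.erase p).card : ℝ) = s.S.card - 1 := by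
    rw [Finset.card_erase_of_mem hp.1, Nat.cast_sub (Finset.card_pos.2 ⟨p, hp.1⟩)]
    simp
  rw [h3] at h2
  have h4 : ((s.S.card : ℝ) - 1) * (s.b - s.a) ≤ (n - 1) * (s.b - s.a) :=
    mul_le_mul_of_nonneg_right (by linarith) hL.le
  have h5 : 4 * n * s.l p = 4 * n * (s.b - s.a) - 4 * n * ∑ i ∈ s.S.erase p, s.l i := by
    rw [← h1]; ring
  rw [h5]
  nlinarith

/-- the effect of a right cut -/
lemma cutR_big {n : ℕ} {s : St n} (h : Core s) {p α β : Fin n} (hp : Big s p)
    (hu : ∀ i ∈ s.S, i ≠ p → 4 * n * s.l i < s.b - s.a) (hα : α ∈ s.S) (hβ : β ∈ s.S) (hαβ : α ≠ β) :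
    Big (cutR s α β) p ∧ (cutR s α β).d p = s.d p ∧ (cutR s α β).a = s.a ∧
      (cutR s α β).b ≤ s.b := by
  obtain ⟨h3, hn1⟩ := big_three h hp hu
  have hL : 0 < s.b - s.a := by linarith [h.lt]
  have hlα := h.pos α hα
  have hlβ := h.pos β hβ
  have hpp := hp.2
  unfold cutR
  split_ifs with h1 h2
  · -- loser β
    have hβp : p ≠ β := by
      rintro rfl
      have := hu α hα hαβ
      have h4 : 4 * (n : ℝ) * s.l p < 4 * n * s.l α := mul_lt_mul_of_pos_left h1 (by positivity)
      linarith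
    have hβu := hu β hβ hβp.symm
    refine ⟨⟨hp.1, ?_⟩, ?_, rfl, by simp only; linarith⟩
    · simp only
      by_cases hpa : p = α
      · subst hpa
        rw [Function.update_self]
        nlinarith
      · rw [Function.update_of_ne hpa]
        nlinarith
    · simp only
      rw [Function.update_of_ne hβp]
  · -- loser α
    have hαp : p ≠ α := by
      rintro rfl
      have := hu β hβ hαβ.symm
      have h4 : 4 * (n : ℝ) * s.l p < 4 * n * s.l β := mul_lt_mul_of_pos_left h2 (by positivity)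
      linarith
    have hαu := hu α hα hαp.symm
    refine ⟨⟨hp.1, ?_⟩, ?_, rfl, by simp only; linarith⟩
    · simp only
      by_cases hpa : p = β
      · subst hpa
        rw [Function.update_self]
        nlinarith
      · rw [Function.update_of_ne hpa]
        nlinarith
    · simp only
      rw [Function.update_of_ne hαp]
  · -- tie
    have he : s.l α = s.l β := le_antisymm (not_lt.1 h1) (not_lt.1 h2)
    have hβp : p ≠ β := by
      rintro rfl
      have := hu α hα hαβ
      rw [he] at this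
      linarith
    have hαp : p ≠ α := by
      rintro rfl
      have := hu β hβ hαβ.symm
      rw [← he] at this
      linarith
    refine ⟨⟨?_, ?_⟩, ?_, rfl, by simp only; linarith⟩
    · simp only
      exact Finset.mem_erase.2 ⟨hαp, hp.1⟩
    · simp only
      nlinarith
    · simp only
      rw [Function.update_of_ne hβp]

lemma cutL_big {n : ℕ} {s : St n} (h : Core s) {p α β : Fin n} (hp : Big s p)
    (hu : ∀ i ∈ s.S, i ≠ p → 4 * n * s.l i < s.b - s.a) (hα : α ∈ s.S) (hβ : β ∈ s.S) (hαβ : α ≠ β) :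
    Big (cutL s α β) p ∧ (cutL s α β).d p = s.d p ∧ s.a ≤ (cutL s α β).a ∧
      (cutL s α β).b = s.b := by
  have h1 := cutR_big (s := refl s) (core_refl h) (big_refl.2 hp) (p := p) (α := α) (β := β)
    (fun i hi hip => by
      have := hu i hi hip
      simp only [refl]
      linarith) hα hβ hαβ
  obtain ⟨h2, h3, h4, h5⟩ := h1
  refine ⟨big_refl.2 h2, ?_, ?_, ?_⟩
  · change -(cutR (refl s) α β).d p = s.d p
    rw [h3]
    simp [refl]
  · change s.a ≤ -(cutR (refl s) α β).b
    have : (refl s).b = -s.a := rfl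
    rw [this] at h5
    linarith
  · change -(cutR (refl s) α β).a = s.b
    rw [h4]
    simp [refl]

lemma core_of_tile {n : ℕ} {s : St n} (h : Tile s) : Core s := ⟨h.lt, h.pos, h.tot⟩

end COproof

open COproof in
theorem comp (hsmall : Stm.small) (haper : Stm.aper) (hR : Stm.goodR) (hL : Stm.goodL) :
    Stm.comp := by
  intro n T ix s0 x0 hE hG ha hb hne ε hε
  -- invariants along reachable states
  have hgood : ∀ (s s' : St n), Good T ix s → s.a ≤ x0 → x0 < s.b → Reach x0 s s' →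
      Good T ix s' ∧ s'.a ≤ x0 ∧ x0 < s'.b := by
    intro s s' h1 h2 h3 hr
    induction hr with
    | refl => exact ⟨h1, h2, h3⟩
    | tail _ hst ih =>
      obtain ⟨i1, i2, i3⟩ := ih
      rcases hst with ⟨α, β, hαβ, ht, hb, rfl, hx⟩ | ⟨α, β, hαβ, ht, hb, rfl, hx⟩
      · refine ⟨hR n T ix _ i1 α β hαβ ht hb, ?_, hx⟩
        have : ∀ u : St n, (cutR u α β).a = u.a := by
          intro u; unfold cutR; split_ifs <;> rfl
        rw [this]; exact i2
      · refine ⟨hL n T ix _ i1 α β hαβ ht hb, hx, ?_⟩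
        have h4 : ∀ u : St n, (cutR u α β).a = u.a := by
          intro u; unfold cutR; split_ifs <;> rfl
        have : ∀ u : St n, (cutL u α β).b = u.b := by
          intro u
          change -(cutR (refl u) α β).a = u.b
          rw [h4]; simp [refl]
        rw [this]; exact i3
  obtain ⟨s1, hr1, hg1, hs1⟩ := hsmall n T ix s0 x0 hE hG ha hb hne ε hε
  obtain ⟨-, ha1, hb1⟩ := hgood s0 s1 hG ha hb hr1
  by_contra hcon
  -- no two big letters in small reachable states
  have hno : ∀ s, Reach x0 s1 s → s.b - s.a < ε → ∀ p, Big s p →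
      ∀ i ∈ s.S, i ≠ p → 4 * n * s.l i < s.b - s.a := by
    intro s hr hse p hp i hi hip
    by_contra h5
    have hr0 : Reach x0 s0 s := Relation.ReflTransGen.trans hr1 hr
    obtain ⟨j1, j2, j3⟩ := hgood s0 s hG ha hb hr0
    exact hcon ⟨s, hr0, j1, j2, j3, hse, p, hp.1, i, hi, hip.symm, hp.2, not_lt.1 h5⟩
  obtain ⟨p, hp⟩ := exists_big (core_of_tile hg1.tile)
  have hinv : ∀ s, Reach x0 s1 s → s.b - s.a < ε ∧ Big s p ∧ s.d p = s1.d p := by
    intro s hr
    induction hr with
    | refl => exact ⟨hs1, hp, rfl⟩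
    | @tail s s' hr hst ih =>
      obtain ⟨i1, i2, i3⟩ := ih
      have hu := hno s hr i1 p i2
      obtain ⟨g1, -, -⟩ := hgood s1 s hg1 ha1 hb1 hr
      have hc := core_of_tile g1.tile
      rcases hst with ⟨α, β, hαβ, ht, hb, rfl, hx⟩ | ⟨α, β, hαβ, ht, hb, rfl, hx⟩
      · obtain ⟨k1, k2, k3, k4⟩ := cutR_big hc i2 hu ht.1 hb.1 hαβ
        exact ⟨by rw [k3]; linarith, k1, by rw [k2]; exact i3⟩
      · obtain ⟨k1, k2, k3, k4⟩ := cutL_big hc i2 hu ht.1 hb.1 hαβ
        exact ⟨by rw [k4]; linarith, k1, by rw [k2]; exact i3⟩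
  have hd : s1.d p ≠ 0 := (haper n T ix s1 hE hg1).1 p hp.1
  obtain ⟨s2, hr2, hg2, hs2⟩ := hsmall n T ix s1 x0 hE hg1 ha1 hb1
    (fun s' hr => hne s' (Relation.ReflTransGen.trans hr1 hr)) |s1.d p| (abs_pos.2 hd)
  obtain ⟨-, m2, m3⟩ := hinv s2 hr2
  have q1 := hg2.tile.sub p m2.1
  have q2 := hg2.tile.subIm p m2.1
  have q3 := hg2.tile.pos p m2.1
  have : |s2.d p| ≤ s2.b - s2.a := abs_le.2 ⟨by linarith, by linarith⟩
  rw [m3] at this
  linarith

end R970.WM
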