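import Pool.Agent.R970.WM.Stm2

open MeasureTheory Set Filter Topology

namespace R970.WM

/-- Lebesgue differentiation with a parameter -/
theorem dens : Stm.dens := by
  intro Y _ _ m _ W _ _ _ M hM hbd
  obtain ⟨C, hC⟩ := hbd
  have hsec : ∀ x : ℝ, StronglyMeasurable (fun y => M (y, x)) := fun x =>
    hM.comp_measurable (measurable_id.prodMk measurable_const)
  have hint : ∀ x : ℝ, Integrable (fun y => M (y,x)) m := fun x =>
    Integrable.of_bound (hsec x).aestronglyMeasurable C (ae_of_all _ (fun y => hC _))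
  haveI : Fact ((1:ENNReal) ≤ 1) := ⟨le_rfl⟩
  haveI : Fact ((1:ENNReal) ≠ ⊤) := ⟨ENNReal.one_ne_top⟩
  haveI : TopologicalSpace.SeparableSpace (Lp W 1 m) := inferInstance
  obtain ⟨u, hu⟩ := TopologicalSpace.exists_dense_seq (Lp W 1 m)
  have huint : ∀ k, Integrable (fun y => (u k : Y → W) y) m := fun k => L1.integrable_coeFn (u k)
  let h : ℕ → ℝ → ℝ := fun k x => ∫ y, ‖M (y,x) - (u k : Y → W) y‖ ∂m
  have hdif : ∀ k x, Integrable (fun y => ‖M (y,x) - (u k : Y → W) y‖) m := fun k x =>
    ((hint x).sub (huint k)).norm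
  have hmeas : ∀ k, StronglyMeasurable (h k) := by
    intro k
    have h1 : StronglyMeasurable (fun p : Y × ℝ => ‖M p - (u k : Y → W) p.1‖) :=
      (hM.sub ((Lp.stronglyMeasurable (u k)).comp_measurable measurable_fst)).norm
    exact h1.integral_prod_left'
  have hnn : ∀ k x, 0 ≤ h k x := fun k x => integral_nonneg (fun _ => norm_nonneg _)
  have hle : ∀ k x, h k x ≤ C + ∫ y, ‖(u k : Y → W) y‖ ∂m := by
    intro k x
    have h1 : h k x ≤ ∫ y, (C + ‖(u k : Y → W) y‖) ∂m := by
      refine integral_mono (hdif k x) ((integrable_const C).add (huint k).norm) (fun y => ?_)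
      exact (norm_sub_le _ _).trans (add_le_add (hC _) le_rfl)
    rw [integral_add (integrable_const C) (huint k).norm] at h1
    simpa using h1
  have hloc : ∀ k, LocallyIntegrable (h k) volume := by
    intro k
    refine (locallyIntegrable_const (C + ∫ y, ‖(u k : Y → W) y‖ ∂m)).mono
      (hmeas k).aestronglyMeasurable (ae_of_all _ (fun x => ?_))
    rw [Real.norm_of_nonneg (hnn k x)]
    exact (hle k x).trans (le_abs_self _)
  -- strong measurability of the inner integral at a fixed point
  have hae : ∀ᵐ x ∂(volume : Measure ℝ), ∀ k : ℕ, ∀ {ι : Type} {l : Filter ι} (w : ι → ℝ) (δ : ι → ℝ)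
      (_ : Tendsto δ l (𝓝[>] 0)) (_ : ∀ᶠ j in l, x ∈ Metric.closedBall (w j) (1 * δ j)),
      Tendsto (fun j => ⨍ y in Metric.closedBall (w j) (δ j), h k y ∂volume) l (𝓝 (h k x)) := by
    rw [ae_all_iff]
    intro k
    exact IsUnifLocDoublingMeasure.ae_tendsto_average (μ := (volume : Measure ℝ)) (hloc k) 1
  have hae' := ae_restrict_of_ae (s := Ico (0:ℝ) 1) hae
  unfold U
  filter_upwards [hae'] with x0 hx0
  intro ε hε
  by_contra hcon
  push Not at hcon
  -- approximate M(., x0)
  obtain ⟨k, hk⟩ := hu.exists_dist_lt ((hint x0).toL1 _) (ε := ε / 4) (by linarith)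
  have hk' : h k x0 ≤ ε / 4 := by
    have h1 : dist ((hint x0).toL1 _) (u k) = h k x0 := by
      rw [L1.dist_eq_integral_dist]
      refine integral_congr_ae ?_
      filter_upwards [(hint x0).coeFn_toL1] with y hy
      rw [hy, dist_eq_norm]
    rw [← h1]; exact hk.le
  have hsel : ∀ n : ℕ, ∃ a b : ℝ, 0 ≤ a ∧ b ≤ 1 ∧ a ≤ x0 ∧ x0 < b ∧ b - a < 1 / ((n:ℝ) + 1) ∧
      ε * (b - a) < ∫ x in Ico a b, (∫ y, ‖M (y, x) - M (y, x0)‖ ∂m) := by
    intro n
    exact hcon _ (by positivity)
  choose a b ha0 hb1 hax hxb hlen hbad using hsel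
  have hδ : Tendsto (fun n => (b n - a n) / 2) atTop (𝓝[>] 0) := by
    rw [tendsto_nhdsWithin_iff]
    constructor
    · refine squeeze_zero (fun n => ?_) (fun n => ?_) (tendsto_one_div_add_atTop_nhds_zero_nat (𝕜 := ℝ))
      · linarith [hax n, hxb n]
      · have := hlen n
        have h2 : 0 ≤ b n - a n := by linarith [hax n, hxb n]
        linarith
    · refine Eventually.of_forall (fun n => ?_)
      simp only [mem_Ioi]
      linarith [hax n, hxb n]
  have hball : ∀ n, Metric.closedBall ((a n + b n) / 2) ((b n - a n) / 2) = Icc (a n) (b n) := by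
    intro n
    rw [Real.closedBall_eq_Icc]
    congr 1 <;> ring
  have hT := hx0 k (fun n => (a n + b n) / 2) (fun n => (b n - a n) / 2) hδ
    (Eventually.of_forall (fun n => by
      rw [one_mul, hball n]; exact ⟨hax n, (hxb n).le⟩))
  have hev := hT.eventually (gt_mem_nhds (show h k x0 < h k x0 + ε / 4 by linarith))
  obtain ⟨n, hn⟩ := hev.exists
  rw [hball n] at hn
  have hlenpos : 0 < b n - a n := by linarith [hax n, hxb n]
  -- average to integral
  have havg : ∫ x in Icc (a n) (b n), h k x ∂volume ≤ (h k x0 + ε / 4) * (b n - a n) := by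
    rw [setAverage_eq] at hn
    have hv : volume.real (Icc (a n) (b n)) = b n - a n := by
      rw [Real.volume_real_Icc_of_le (by linarith)]
    rw [hv, smul_eq_mul] at hn
    have h3 : (b n - a n)⁻¹ * (∫ x in Icc (a n) (b n), h k x ∂volume) * (b n - a n)
        = ∫ x in Icc (a n) (b n), h k x ∂volume := by
      field_simp
    rw [← h3]
    exact mul_le_mul_of_nonneg_right hn.le hlenpos.le
  have hbad' := hbad n
  have hintk : IntegrableOn (h k) (Ico (a n) (b n)) volume :=
    ((hloc k).integrableOn_isCompact isCompact_Icc).mono_set Ico_subset_Icc_self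
  have hmono : ∫ x in Ico (a n) (b n), (∫ y, ‖M (y, x) - M (y, x0)‖ ∂m) ≤
      ∫ x in Ico (a n) (b n), (h k x + h k x0) := by
    refine integral_mono_of_nonneg (ae_of_all _ (fun x => integral_nonneg (fun _ => norm_nonneg _)))
      (hintk.add (integrableOn_const (by simp))) (ae_of_all _ (fun x => ?_))
    have h4 : ∫ y, ‖M (y, x) - M (y, x0)‖ ∂m ≤
        ∫ y, (‖M (y,x) - (u k : Y → W) y‖ + ‖M (y,x0) - (u k : Y → W) y‖) ∂m := by
      refine integral_mono ((hint x).sub (hint x0)).norm ((hdif k x).add (hdif k x0)) (fun y => ?_)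
      have : M (y, x) - M (y, x0) = (M (y,x) - (u k : Y → W) y) - (M (y,x0) - (u k : Y → W) y) := by
        abel
      simp only
      rw [this]
      exact norm_sub_le _ _
    rw [integral_add (hdif k x) (hdif k x0)] at h4
    exact h4
  have hsum : ∫ x in Ico (a n) (b n), (h k x + h k x0) =
      (∫ x in Ico (a n) (b n), h k x) + h k x0 * (b n - a n) := by
    rw [integral_add hintk (integrableOn_const (by simp))]
    congr 1
    rw [setIntegral_const, Real.volume_real_Ico_of_le (by linarith), smul_eq_mul, mul_comm]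
  rw [integral_Icc_eq_integral_Ico] at havg
  have hx0b := hnn k x0
  nlinarith [hbad', hmono, hsum, havg, hk', hlenpos, mul_le_mul_of_nonneg_right hk' hlenpos.le]

end R970.WM
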