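import Pool.Agent.R970.WM.Stm2

/-!
EN: the end letters of the two rows.
-/

open Set

namespace R970.WM

namespace ENaux

/-- separated intervals in `[a, M]` have total length at most `M - a` -/
lemma tot_le {n : ℕ} (p l : Fin n → ℝ) (a : ℝ) : ∀ (A : Finset (Fin n)) (M : ℝ), a ≤ M →
    (∀ i ∈ A, 0 < l i) → (∀ i ∈ A, a ≤ p i ∧ p i + l i ≤ M) →
    (∀ i ∈ A, ∀ j ∈ A, i ≠ j → p i + l i ≤ p j ∨ p j + l j ≤ p i) →
    ∑ i ∈ A, l i ≤ M - a := by
  classical
  intro A
  induction A using Finset.strongInduction with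
  | H A ih =>
    intro M haM hpos hsub hsep
    rcases A.eq_empty_or_nonempty with rfl | hne
    · simp only [Finset.sum_empty]
      linarith
    · obtain ⟨i, hi, hmax⟩ := A.exists_max_image (fun i => p i + l i) hne
      have h1 : ∀ j ∈ A.erase i, p j + l j ≤ p i := by
        intro j hj
        have hjA := Finset.mem_of_mem_erase hj
        rcases hsep i hi j hjA (Finset.ne_of_mem_erase hj).symm with h | h
        · have h2 := hmax j hjA
          have h3 := hpos j hjA
          linarith
        · exact h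
      have h2 := ih (A.erase i) (Finset.erase_ssubset hi) (p i) (hsub i hi).1
        (fun j hj => hpos j (Finset.mem_of_mem_erase hj))
        (fun j hj => ⟨(hsub j (Finset.mem_of_mem_erase hj)).1, h1 j hj⟩)
        (fun j hj k hk => hsep j (Finset.mem_of_mem_erase hj) k (Finset.mem_of_mem_erase hk))
      have h3 := Finset.add_sum_erase A l hi
      have h4 := (hsub i hi).2
      linarith

/-- the last and the first interval of a tiling -/
lemma ends1 {n : ℕ} {S : Finset (Fin n)} {p l : Fin n → ℝ} {a b : ℝ} (hne : S.Nonempty)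
    (hpos : ∀ i ∈ S, 0 < l i) (hsub : ∀ i ∈ S, a ≤ p i ∧ p i + l i ≤ b)
    (hsep : ∀ i ∈ S, ∀ j ∈ S, i ≠ j → p i + l i ≤ p j ∨ p j + l j ≤ p i)
    (htot : ∑ i ∈ S, l i = b - a) :
    (∃ i ∈ S, p i + l i = b) ∧ ∃ i ∈ S, p i = a := by
  constructor
  · obtain ⟨i, hi, hmax⟩ := S.exists_max_image (fun i => p i + l i) hne
    refine ⟨i, hi, le_antisymm (hsub i hi).2 ?_⟩
    have h1 := tot_le p l a S (p i + l i) (by linarith [(hsub i hi).1, hpos i hi]) hpos
      (fun j hj => ⟨(hsub j hj).1, hmax j hj⟩) hsep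
    linarith
  · obtain ⟨i, hi, hmin⟩ := S.exists_min_image p hne
    refine ⟨i, hi, le_antisymm ?_ (hsub i hi).1⟩
    have h1 := tot_le p l (p i) S b (by linarith [(hsub i hi).2, hpos i hi]) hpos
      (fun j hj => ⟨hmin j hj, (hsub j hj).2⟩) hsep
    linarith

end ENaux

open ENaux in
theorem ends : Stm.ends := by
  classical
  intro n s hT hI hc
  have hne : s.S.Nonempty := by
    rw [← Finset.card_pos]
    omega
  obtain ⟨⟨α, hα, hα'⟩, ⟨γ, hγ, hγ'⟩⟩ := ends1 hne hT.pos hT.sub hT.sep hT.tot
  obtain ⟨⟨β, hβ, hβ'⟩, ⟨δ, hδ, hδ'⟩⟩ := ends1 (p := fun i => s.t i + s.d i) hne hT.pos hT.subIm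
    hT.sepIm hT.tot
  refine ⟨⟨α, β, ?_, ⟨hα, hα'⟩, ⟨hβ, hβ'⟩⟩, ⟨γ, δ, ?_, ⟨hγ, hγ'⟩, ⟨hδ, hδ'⟩⟩, ?_⟩
  · rintro rfl
    refine hI {α} (Finset.singleton_subset_iff.2 hα) (Finset.singleton_nonempty α) ?_
      ⟨s.b - s.l α, ?_, ?_⟩
    · intro h
      rw [← h, Finset.card_singleton] at hc
      omega
    · intro i hi
      rw [Finset.mem_singleton.1 hi]
      exact ⟨by linarith, by linarith⟩
    · intro i hi
      rw [Finset.mem_sdiff, Finset.mem_singleton] at hi
      have hp := hT.pos i hi.1
      constructor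
      · rcases hT.sep i hi.1 α hα hi.2 with h | h
        · linarith
        · linarith [(hT.sub i hi.1).2]
      · rcases hT.sepIm i hi.1 α hα hi.2 with h | h
        · linarith
        · linarith [(hT.subIm i hi.1).2]
  · rintro rfl
    refine hI (s.S.erase γ) (Finset.erase_subset _ _) ?_ ?_ ⟨s.a + s.l γ, ?_, ?_⟩
    · rw [← Finset.card_pos, Finset.card_erase_of_mem hγ]
      omega
    · intro h
      have h' : γ ∈ s.S.erase γ := by rw [h]; exact hγ
      exact Finset.notMem_erase γ s.S h'
    · intro i hi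
      have hiS := Finset.mem_of_mem_erase hi
      have hi2 := Finset.ne_of_mem_erase hi
      have hp := hT.pos i hiS
      constructor
      · rcases hT.sep i hiS γ hγ hi2 with h | h
        · linarith [(hT.sub i hiS).1]
        · linarith
      · rcases hT.sepIm i hiS γ hγ hi2 with h | h
        · linarith [(hT.subIm i hiS).1]
        · linarith
    · intro i hi
      rw [Finset.mem_sdiff, Finset.mem_erase, not_and_or, not_not] at hi
      have hi3 : i = γ := by
        rcases hi.2 with h | h
        · exact h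
        · exact absurd hi.1 h
      rw [hi3]
      exact ⟨by linarith, by linarith⟩
  · intro α β α' β' h1 h2 h3 h4
    have hne' : α' ≠ α := by
      rintro rfl
      obtain ⟨j, hj, hjne⟩ := Finset.exists_mem_ne (by omega : 1 < s.S.card) α'
      have hp := hT.pos j hj
      rcases hT.sep j hj α' h1.1 hjne with h | h
      · linarith [(hT.sub j hj).1, h3.2]
      · linarith [(hT.sub j hj).2, h1.2]
    have h5 : s.a + s.l α' ≤ s.b - s.l α := by
      rcases hT.sep α' h3.1 α h1.1 hne' with h | h
      · linarith [h3.2, h1.2]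
      · linarith [(hT.sub α h1.1).1, hT.pos α h1.1, h3.2, h1.2]
    have h6 := min_le_left (s.l α') (s.l β')
    have h7 := min_le_left (s.l α) (s.l β)
    linarith

end R970.WM
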