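import Pool.Agent.R970.WM.Stm2

/-! FS: fixed sections (helper598) -/

open MeasureTheory Set Filter Topology

namespace R970.WM

namespace FSx

instance instU : IsProbabilityMeasure U := ⟨by simp [U]⟩

theorem erg1 (T : ℝ → ℝ) (h : WeakMix T U) : Ergodic T U := by
  have hm : Measurable (fun x : ℝ => (T x, T x)) :=
    h.measurable.comp (measurable_id.prodMk measurable_id)
  have hT : Measurable T := measurable_fst.comp hm
  have hrect : ∀ A : Set ℝ, (U.prod U) (A ×ˢ (univ : Set ℝ)) = U A := by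
    intro A; rw [Measure.prod_prod]; simp
  have hmp : MeasurePreserving T U U := by
    refine ⟨hT, ?_⟩
    ext A hA
    rw [Measure.map_apply hT hA, ← hrect A, ← hrect (T ⁻¹' A)]
    have := h.toMeasurePreserving.measure_preimage (s := A ×ˢ (univ : Set ℝ)) (hA.prod MeasurableSet.univ).nullMeasurableSet
    rw [← this]; congr 1
  refine ⟨hmp, ⟨fun {A} hA hinv => ?_⟩⟩
  have hq : EventuallyConst (A ×ˢ (univ : Set ℝ)) (ae (U.prod U)) :=
    h.aeconst_set (hA.prod MeasurableSet.univ) (by
      ext p; simp only [mem_preimage, Prod.map, mem_prod, mem_univ, and_true]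
      rw [← mem_preimage, hinv])
  rw [eventuallyConst_set] at hq ⊢
  rcases hq with hq | hq
  · left
    have h1 : (U.prod U) (Aᶜ ×ˢ (univ : Set ℝ)) = 0 := by
      refine measure_mono_null ?_ hq
      intro p hp hp'
      exact hp.1 hp'.1
    rw [hrect] at h1
    exact h1
  · right
    have h1 : (U.prod U) (A ×ˢ (univ : Set ℝ)) = 0 := by
      refine measure_mono_null ?_ hq
      intro p hp hp'
      exact hp' hp
    rw [hrect] at h1
    refine measure_mono_null ?_ h1
    intro x hx
    by_contra hx'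
    exact hx hx'


theorem volProb : IsProbabilityMeasure (volume : Measure (UnitAddTorus (Fin 1))) := by
  have h1 : IsProbabilityMeasure (volume : Measure UnitAddCircle) := ⟨by simp⟩
  have : IsProbabilityMeasure (Measure.pi (fun _ : Fin 1 => (volume : Measure UnitAddCircle))) := inferInstance
  exact this

/-- character -/
structure IsCh {G : Type} [Group G] [TopologicalSpace G] (χ : G → ℂ) : Prop where
  cont : Continuous χ
  mul : ∀ a b, χ (a * b) = χ a * χ b
  norm : ∀ a, ‖χ a‖ = 1

theorem surj_circle (H : AddSubgroup UnitAddCircle) (hc : IsPreconnected (H : Set UnitAddCircle))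
    (hcl : IsClosed (H : Set UnitAddCircle)) (hne : ∃ a ∈ H, a ≠ 0) : ∀ y, y ∈ H := by
  have hinf : ¬ (H : Set UnitAddCircle).Countable := by
    intro hcount
    have := hcount.isTotallyDisconnected
    have h2 := this _ subset_rfl hc
    obtain ⟨a, ha, ha0⟩ := hne
    exact ha0 (h2 ha H.zero_mem)
  let K : AddSubgroup ℝ := H.comap (QuotientAddGroup.mk' (AddSubgroup.zmultiples (1:ℝ)))
  have hK : ∀ x : ℝ, x ∈ K ↔ ((x : ℝ) : UnitAddCircle) ∈ H := fun x => Iff.rfl
  rcases AddSubgroup.dense_or_cyclic K with hd | ⟨a, ha⟩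
  · have hKc : IsClosed (K : Set ℝ) := hcl.preimage (AddCircle.continuous_mk' (1:ℝ))
    have hKu : (K : Set ℝ) = univ := by rw [← hKc.closure_eq]; exact hd.closure_eq
    intro y
    obtain ⟨x, rfl⟩ := QuotientAddGroup.mk_surjective y
    have : x ∈ (K : Set ℝ) := by rw [hKu]; trivial
    exact this
  · exfalso
    apply hinf
    have : (H : Set UnitAddCircle) ⊆ range (fun k : ℤ => ((k • a : ℝ) : UnitAddCircle)) := by
      intro y hy
      obtain ⟨x, rfl⟩ := QuotientAddGroup.mk_surjective y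
      have hx : x ∈ K := hy
      rw [ha, AddSubgroup.mem_closure_singleton] at hx
      obtain ⟨k, hk⟩ := hx
      exact ⟨k, by simp only; rw [hk]⟩
    exact (countable_range _).mono this

theorem push {G : Type} [Group G] [TopologicalSpace G] [IsTopologicalGroup G] [CompactSpace G]
    [ConnectedSpace G] [T2Space G]
    [SecondCountableTopology G] [MeasurableSpace G] [BorelSpace G] (ν : Measure G)
    [IsProbabilityMeasure ν] [ν.IsHaarMeasure] (χ : G → ℂ) (hχ : IsCh χ) (hne : ∃ a, χ a ≠ 1) :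
    ∃ φ : G → UnitAddTorus (Fin 1), MeasurePreserving φ ν volume ∧
      ∀ a, ((AddCircle.toCircle (φ a 0) : Circle) : ℂ) = χ a := by
  let e : UnitAddCircle ≃ₜ Circle := AddCircle.homeomorphCircle one_ne_zero
  have he : ∀ x, e x = AddCircle.toCircle x := AddCircle.homeomorphCircle_apply one_ne_zero
  let ψ : G → Circle := fun a => ⟨χ a, by simp [Submonoid.unitSphere, hχ.norm a]⟩
  have hψc : Continuous ψ := hχ.cont.subtype_mk _
  have hψm : ∀ a b, ψ (a * b) = ψ a * ψ b := by
    intro a b; apply Subtype.ext; exact hχ.mul a b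
  let φ0 : G → UnitAddCircle := fun a => e.symm (ψ a)
  have hφ0c : Continuous φ0 := e.symm.continuous.comp hψc
  have hφ0m : ∀ a b, φ0 (a * b) = φ0 a + φ0 b := by
    intro a b
    apply e.injective
    show e (e.symm (ψ (a*b))) = e (e.symm (ψ a) + e.symm (ψ b))
    rw [e.apply_symm_apply, he (_ + _), AddCircle.toCircle_add, ← he, ← he, e.apply_symm_apply,
      e.apply_symm_apply, hψm]
  have hφ0one : φ0 1 = 0 := by
    have := hφ0m 1 1
    rw [one_mul] at this
    simpa using this
  have hφ0inv : ∀ a, φ0 a⁻¹ = - φ0 a := by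
    intro a
    have := hφ0m a a⁻¹
    rw [mul_inv_cancel, hφ0one] at this
    exact (neg_eq_of_add_eq_zero_right this.symm).symm
  have hval : ∀ a, ((AddCircle.toCircle (φ0 a) : Circle) : ℂ) = χ a := by
    intro a
    rw [← he]
    show ((e (e.symm (ψ a)) : Circle) : ℂ) = χ a
    rw [e.apply_symm_apply]
  let H : AddSubgroup UnitAddCircle :=
    { carrier := range φ0
      add_mem' := by
        rintro _ _ ⟨a, rfl⟩ ⟨b, rfl⟩
        exact ⟨a * b, hφ0m a b⟩
      zero_mem' := ⟨1, hφ0one⟩
      neg_mem' := by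
        rintro _ ⟨a, rfl⟩
        exact ⟨a⁻¹, hφ0inv a⟩ }
  have hsurj : ∀ y, ∃ a, φ0 a = y := by
    apply surj_circle H (isPreconnected_range hφ0c) (isCompact_range hφ0c).isClosed
    obtain ⟨a, ha⟩ := hne
    refine ⟨φ0 a, ⟨a, rfl⟩, ?_⟩
    intro h0
    apply ha
    rw [← hval a, h0]
    simp
  let φ : G → UnitAddTorus (Fin 1) := fun a _ => φ0 a
  have hφc : Continuous φ := continuous_pi fun _ => hφ0c
  have hφm : Measurable φ := hφc.measurable
  refine ⟨φ, ⟨hφm, ?_⟩, hval⟩
  have : IsProbabilityMeasure (Measure.map φ ν) := Measure.isProbabilityMeasure_map hφm.aemeasurable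
  have : (Measure.map φ ν).IsAddLeftInvariant := by
    refine ⟨fun y => ?_⟩
    obtain ⟨a, ha⟩ := hsurj (y 0)
    have hy : y = φ a := by
      ext i; fin_cases i; exact ha.symm
    rw [Measure.map_map (measurable_const_add y) hφm]
    have : ((fun x => y + x) ∘ φ) = φ ∘ (fun b => a * b) := by
      funext b
      show y + φ b = φ (a * b)
      rw [hy]; funext i; exact (hφ0m a b).symm
    rw [this, ← Measure.map_map hφm (measurable_const_mul a), map_mul_left_eq_self]
  have := volProb
  have h1 := Measure.isAddInvariant_eq_smul_of_compactSpace (Measure.map φ ν)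
    (volume : Measure (UnitAddTorus (Fin 1)))
  have h2 := congrArg (fun m : Measure (UnitAddTorus (Fin 1)) => m univ) h1
  simp only [measure_univ, Measure.smul_apply] at h2
  rw [h1]
  have h3 : (Measure.addHaarScalarFactor (Measure.map φ ν) (volume : Measure (UnitAddTorus (Fin 1)))) = 1 := by
    have := h2.symm
    have h4 : ((Measure.addHaarScalarFactor (Measure.map φ ν) (volume : Measure (UnitAddTorus (Fin 1))) : NNReal) : ENNReal) * 1 = 1 := this
    rw [mul_one] at h4
    exact_mod_cast h4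
  rw [h3, one_smul]



theorem scalar (T : ℝ → ℝ) {n : ℕ} (ix : ℝ → Fin n)
    (z : Fin n → UnitAddTorus (Fin 1))
    (hW : WeakMix (skew T ix z) (U.prod (volume : Measure (UnitAddTorus (Fin 1)))))
    (c : ℂ) (hc : ‖c‖ = 1) (f : ℝ → ℂ) (hf : Measurable f)
    (hinv : ∀ᵐ x ∂U, f (T x) = c * (((AddCircle.toCircle (z (ix x) 0) : Circle) : ℂ) * f x)) :
    ∀ᵐ x ∂U, f x = 0 := by
  have hVp : IsProbabilityMeasure (volume : Measure (UnitAddTorus (Fin 1))) := volProb
  set V : Measure (UnitAddTorus (Fin 1)) := volume with hV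
  set m : Measure (ℝ × UnitAddTorus (Fin 1)) := U.prod V with hm
  let E : UnitAddTorus (Fin 1) → ℂ := fun y => ((AddCircle.toCircle (y 0) : Circle) : ℂ)
  have hEc : Continuous E :=
    continuous_subtype_val.comp (AddCircle.continuous_toCircle.comp (continuous_apply 0))
  have hEn : ∀ y, ‖E y‖ = 1 := fun y => Circle.norm_coe _
  have hEadd : ∀ y y', E (y + y') = E y * E y' := by
    intro y y'
    show ((AddCircle.toCircle (y 0 + y' 0) : Circle) : ℂ) = _
    rw [AddCircle.toCircle_add]; rfl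
  have hEE : ∀ y, E y * (starRingEnd ℂ) (E y) = 1 := by
    intro y; rw [Complex.mul_conj, Complex.normSq_eq_norm_sq, hEn]; simp
  let h : ℝ × UnitAddTorus (Fin 1) → ℂ := fun p => f p.1 * (starRingEnd ℂ) (E p.2)
  have hh : Measurable h :=
    (hf.comp measurable_fst).mul (Complex.continuous_conj.measurable.comp (hEc.measurable.comp measurable_snd))
  have hhS : ∀ᵐ p ∂m, h (skew T ix z p) = c * h p := by
    have h1 : ∀ᵐ p ∂m, f (T p.1) = c * (E (z (ix p.1)) * f p.1) :=
      (Measure.quasiMeasurePreserving_fst (μ := U) (ν := V)).ae hinv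
    filter_upwards [h1] with p hp
    show f (T p.1) * (starRingEnd ℂ) (E (z (ix p.1) + p.2)) = c * (f p.1 * (starRingEnd ℂ) (E p.2))
    rw [hp, hEadd, map_mul]
    have := hEE (z (ix p.1))
    calc _ = (E (z (ix p.1)) * (starRingEnd ℂ) (E (z (ix p.1)))) * (c * (f p.1 * (starRingEnd ℂ) (E p.2))) := by ring
      _ = _ := by rw [this, one_mul]
  let H : (ℝ × UnitAddTorus (Fin 1)) × (ℝ × UnitAddTorus (Fin 1)) → ℂ :=
    fun q => h q.1 * (starRingEnd ℂ) (h q.2)
  have hH : Measurable H :=
    (hh.comp measurable_fst).mul (Complex.continuous_conj.measurable.comp (hh.comp measurable_snd))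
  have hHS : H ∘ (Prod.map (skew T ix z) (skew T ix z)) =ᵐ[m.prod m] H := by
    have h1 : ∀ᵐ q ∂(m.prod m), h (skew T ix z q.1) = c * h q.1 :=
      (Measure.quasiMeasurePreserving_fst (μ := m) (ν := m)).ae hhS
    have h2 : ∀ᵐ q ∂(m.prod m), h (skew T ix z q.2) = c * h q.2 :=
      (Measure.quasiMeasurePreserving_snd (μ := m) (ν := m)).ae hhS
    filter_upwards [h1, h2] with q hq1 hq2
    show h (skew T ix z q.1) * (starRingEnd ℂ) (h (skew T ix z q.2)) = h q.1 * (starRingEnd ℂ) (h q.2)
    rw [hq1, hq2, map_mul]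
    have hcc : c * (starRingEnd ℂ) c = 1 := by
      rw [Complex.mul_conj, Complex.normSq_eq_norm_sq, hc]; simp
    calc _ = (c * (starRingEnd ℂ) c) * (h q.1 * (starRingEnd ℂ) (h q.2)) := by ring
      _ = _ := by rw [hcc, one_mul]
  obtain ⟨w, hw⟩ := hW.ae_eq_const_of_ae_eq_comp_ae hH.aestronglyMeasurable hHS
  -- half turn
  obtain ⟨u, hu⟩ : ∃ u : UnitAddTorus (Fin 1), E u = -1 := by
    refine ⟨fun _ => (AddCircle.homeomorphCircle (T := (1:ℝ)) one_ne_zero).symm (-1), ?_⟩
    show ((AddCircle.toCircle ((AddCircle.homeomorphCircle (T := (1:ℝ)) one_ne_zero).symm (-1)) : Circle) : ℂ) = -1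
    rw [← AddCircle.homeomorphCircle_apply one_ne_zero, Homeomorph.apply_symm_apply]
    simp
  have hτ : MeasurePreserving (fun p : ℝ × UnitAddTorus (Fin 1) => (p.1, u + p.2)) m m :=
    (MeasurePreserving.id U).prod (measurePreserving_add_left V u)
  have hτ2 : MeasurePreserving (Prod.map (fun p : ℝ × UnitAddTorus (Fin 1) => (p.1, u + p.2)) id) (m.prod m) (m.prod m) :=
    hτ.prod (MeasurePreserving.id m)
  have hw2 : ∀ᵐ q ∂(m.prod m), H (Prod.map (fun p : ℝ × UnitAddTorus (Fin 1) => (p.1, u + p.2)) id q) = w :=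
    hτ2.quasiMeasurePreserving.ae hw
  have hzero : ∀ᵐ q ∂(m.prod m), H q = 0 := by
    filter_upwards [hw, hw2] with q h1 h2
    have h3 : H (Prod.map (fun p : ℝ × UnitAddTorus (Fin 1) => (p.1, u + p.2)) id q) = - H q := by
      show (f q.1.1 * (starRingEnd ℂ) (E (u + q.1.2))) * (starRingEnd ℂ) (h q.2) =
        - ((f q.1.1 * (starRingEnd ℂ) (E q.1.2)) * (starRingEnd ℂ) (h q.2))
      rw [hEadd, map_mul, hu, map_neg, map_one]; ring
    have h1' : H q = w := h1
    rw [h3, ← h1'] at h2
    have : (2:ℂ) * H q = 0 := by linear_combination -h2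
    simpa using this
  -- f = 0
  let A : Set (ℝ × UnitAddTorus (Fin 1)) := {p | h p ≠ 0}
  have hAA : (m.prod m) (A ×ˢ A) = 0 := by
    refine measure_mono_null ?_ hzero
    intro q hq h0
    have h0' : h q.1 * (starRingEnd ℂ) (h q.2) = 0 := h0
    rcases mul_eq_zero.1 h0' with h' | h'
    · exact hq.1 h'
    · exact hq.2 (by simpa using h')
  rw [Measure.prod_prod, mul_self_eq_zero] at hAA
  have hB : m ({x : ℝ | f x ≠ 0} ×ˢ (univ : Set (UnitAddTorus (Fin 1)))) = 0 := by
    refine measure_mono_null ?_ hAA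
    intro p hp
    show h p ≠ 0
    have : E p.2 ≠ 0 := by
      intro h0; have := hEn p.2; rw [h0] at this; simp at this
    exact mul_ne_zero hp.1 (by simpa using this)
  rw [hm, Measure.prod_prod] at hB
  have hV1 : V univ = 1 := hVp.measure_univ
  rw [hV1, mul_one] at hB
  have : U {x : ℝ | f x ≠ 0} = 0 := hB
  exact this


theorem ch_conj {χ : ℂ} (h : ‖χ‖ = 1) : (starRingEnd ℂ) χ * χ = 1 := by
  rw [mul_comm, Complex.mul_conj, Complex.normSq_eq_norm_sq, h]; simp

/-- characters occurring in the representation -/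
def chs {G W : Type} [Group G] [TopologicalSpace G] [NormedAddCommGroup W] [InnerProductSpace ℂ W]
    (R : G →* (W ≃ₗᵢ[ℂ] W)) : Set (G → ℂ) := {χ | IsCh χ ∧ ∃ v : W, v ≠ 0 ∧ ∀ a, R a v = χ a • v}

theorem countable_chs {G W : Type} [Group G] [TopologicalSpace G] [NormedAddCommGroup W]
    [InnerProductSpace ℂ W] [FiniteDimensional ℂ W] (R : G →* (W ≃ₗᵢ[ℂ] W)) :
    (chs R).Countable := by
  classical
  choose v hv using fun χ : chs R => χ.2.2
  have horth : ∀ χ ψ : chs R, χ ≠ ψ → inner ℂ (v χ) (v ψ) = 0 := by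
    intro χ ψ hne
    by_contra h0
    apply hne
    apply Subtype.ext
    funext a
    have h1 : inner ℂ (R a (v χ)) (R a (v ψ)) = inner ℂ (v χ) (v ψ) := (R a).inner_map_map _ _
    rw [(hv χ).2 a, (hv ψ).2 a, inner_smul_left, inner_smul_right] at h1
    have h2 : (starRingEnd ℂ) (χ.1 a) * ψ.1 a = 1 := by
      have : ((starRingEnd ℂ) (χ.1 a) * ψ.1 a - 1) * inner ℂ (v χ) (v ψ) = 0 := by
        linear_combination h1
      rcases mul_eq_zero.1 this with h | h
      · linear_combination h
      · exact absurd h h0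
    have h3 := ch_conj (χ.2.1.norm a)
    calc χ.1 a = χ.1 a * ((starRingEnd ℂ) (χ.1 a) * ψ.1 a) := by rw [h2, mul_one]
      _ = ((starRingEnd ℂ) (χ.1 a) * χ.1 a) * ψ.1 a := by ring
      _ = ψ.1 a := by rw [h3, one_mul]
  have hli : LinearIndependent ℂ v :=
    linearIndependent_of_ne_zero_of_inner_eq_zero (fun χ => (hv χ).1) (fun χ ψ h => horth χ ψ h)
  have : Finite (chs R) := hli.finite
  exact Set.countable_coe_iff.1 (Finite.to_countable)

/-- a common eigenvector defines a character -/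
theorem exists_ch {G W : Type} [Group G] [TopologicalSpace G] [NormedAddCommGroup W]
    [InnerProductSpace ℂ W] (R : G →* (W ≃ₗᵢ[ℂ] W)) (hR : Continuous (fun p : G × W => R p.1 p.2))
    (v : W) (hv : v ≠ 0) (h : ∀ a, ∃ χ : ℂ, R a v = χ • v) : ∃ χ ∈ chs R, ∀ a, R a v = χ a • v := by
  choose χ hχ using h
  have hvv : inner ℂ v v ≠ 0 := inner_self_ne_zero.2 hv
  have hcont : Continuous χ := by
    have h1 : χ = fun a => inner ℂ v (R a v) / inner ℂ v v := by
      funext a
      rw [hχ a, inner_smul_right, mul_div_assoc, div_self hvv, mul_one]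
    rw [h1]
    have h2 : Continuous (fun a : G => R a v) := hR.comp (continuous_id.prodMk continuous_const)
    exact (continuous_const.inner h2).div_const _
  refine ⟨χ, ⟨⟨hcont, ?_, ?_⟩, v, hv, hχ⟩, hχ⟩
  · intro a b
    have h1 : R (a * b) v = R a (R b v) := by rw [map_mul]; rfl
    rw [hχ (a*b), hχ b, map_smul, hχ a, smul_smul] at h1
    have := smul_left_injective ℂ hv h1
    rw [this]; ring
  · intro a
    have h1 : ‖R a v‖ = ‖v‖ := (R a).norm_map v
    rw [hχ a, norm_smul] at h1
    have h2 : ‖v‖ ≠ 0 := norm_ne_zero_iff.2 hv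
    exact mul_right_cancel₀ h2 (by rw [h1, one_mul])


end FSx

open FSx in
theorem fixedSec (hline : Stm.line) (hmain : Stm.main) : Stm.fixedSec := by
  intro G _ _ _ _ _ _ _ _ _ ν _ _ W _ _ _ R hR n T ix hWM hix hk s0 hgood ha hb hw
  obtain ⟨k0, hk0, hk1⟩ := hk
  have hTe := erg1 T hWM
  have h1 := hline G ν W R hR n T ix hTe hix s0 hgood ha hb hw
  have h2 : ∀ᵐ g ∂(Measure.pi (fun _ : Fin n => ν)), ∀ χ ∈ chs R, (∃ a, χ a ≠ 1) → ∀ c : ℂ, ‖c‖ = 1 →
      ∀ f : ℝ → ℂ, Measurable f → (∀ᵐ x ∂U, f (T x) = c * (χ (g (ix x)) * f x)) → ∀ᵐ x ∂U, f x = 0 := by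
    refine (ae_ball_iff (countable_chs R)).2 (fun χ hχ => ?_)
    by_cases hne : ∃ a, χ a ≠ 1
    · obtain ⟨φ, hφ, hval⟩ := push ν χ hχ.1 hne
      have hm := hmain ℝ U T hWM n 1 ix hix k0 hk0 hk1
      have := volProb
      have hmp : MeasurePreserving (fun (g : Fin n → G) (i : Fin n) => φ (g i)) (Measure.pi fun _ : Fin n => ν)
          (volume : Measure (Fin n → UnitAddTorus (Fin 1))) :=
        measurePreserving_pi (fun _ : Fin n => ν) (fun _ : Fin n => (volume : Measure (UnitAddTorus (Fin 1))))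
          (fun i => hφ)
      filter_upwards [hmp.quasiMeasurePreserving.ae hm] with g hg _ c hc f hf hinv
      refine scalar T ix (fun i => φ (g i)) hg c hc f hf ?_
      filter_upwards [hinv] with x hx
      rw [hx, hval]
    · exact ae_of_all _ (fun g h => absurd h hne)
  filter_upwards [h1, h2] with g hg1 hg2 c hc F hF hFb hinv
  have hline' := hg1 c hc F hF hFb hinv
  have hc0 : c ≠ 0 := by
    intro h0; rw [h0] at hc; simp at hc
  borelize W
  have key : ∀ χ ∈ chs R, (∃ a, χ a ≠ 1) → ∀ᵐ x ∂U, (∀ a, R a (F x) = χ a • F x) → F x = 0 := by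
    intro χ hχ hne
    let Wχ : Set W := {v | ∀ a, R a v = χ a • v}
    have hcl : IsClosed Wχ := by
      have : Wχ = ⋂ a, {v | R a v = χ a • v} := by ext v; simp [Wχ]
      rw [this]
      exact isClosed_iInter fun a => isClosed_eq (R a).continuous (continuous_const_smul _)
    have hsm : ∀ (s : ℂ) (v : W), v ∈ Wχ → s • v ∈ Wχ := by
      intro s v hv a
      rw [map_smul, hv a, smul_comm]
    have hRm : ∀ (b : G) (v : W), v ∈ Wχ → R b v ∈ Wχ := by
      intro b v hv
      rw [hv b]; exact hsm _ _ hv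
    let A : Set ℝ := F ⁻¹' Wχ
    have hA : MeasurableSet A := hF.measurable hcl.measurableSet
    have hu : ∀ u : W, ∀ᵐ x ∂U, A.indicator (fun x => inner ℂ u (F x)) x = 0 := by
      intro u
      have hin : Measurable (fun x => inner ℂ u (F x)) := by
        have hcu : Continuous (fun w : W => inner ℂ u w) := continuous_const.inner continuous_id
        exact hcu.measurable.comp hF.measurable
      refine hg2 χ hχ hne c hc _ (hin.indicator hA) ?_
      filter_upwards [hinv] with x hx
      by_cases hxA : x ∈ A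
      · have hTx : T x ∈ A := by
          show F (T x) ∈ Wχ
          rw [hx]; exact hsm c _ (hRm _ _ hxA)
        rw [indicator_of_mem hTx, indicator_of_mem hxA, hx, hxA (g (ix x)), inner_smul_right, inner_smul_right]
      · have hTx : T x ∉ A := by
          intro hT
          apply hxA
          show F x ∈ Wχ
          have e1 : F x = R (g (ix x))⁻¹ (c⁻¹ • F (T x)) := by
            rw [hx, smul_smul, inv_mul_cancel₀ hc0, one_smul]
            have : R (g (ix x))⁻¹ (R (g (ix x)) (F x)) = (R ((g (ix x))⁻¹ * g (ix x))) (F x) := by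
              rw [map_mul]; rfl
            rw [this, inv_mul_cancel, map_one]; rfl
          rw [e1]
          exact hRm _ _ (hsm _ _ hT)
        rw [indicator_of_notMem hTx, indicator_of_notMem hxA]; simp
    let b := stdOrthonormalBasis ℂ W
    have hall : ∀ᵐ x ∂U, ∀ i, A.indicator (fun x => inner ℂ (b i) (F x)) x = 0 :=
      ae_all_iff.2 (fun i => hu (b i))
    filter_upwards [hall] with x hx hxA
    have h3 : ∀ i, inner ℂ (b i) (F x) = 0 := fun i => by
      have := hx i
      rwa [indicator_of_mem (show x ∈ A from hxA)] at this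
    apply b.repr.injective
    ext i
    rw [b.repr_apply_apply, h3 i]; simp
  have key2 : ∀ᵐ x ∂U, ∀ χ ∈ chs R, (∃ a, χ a ≠ 1) → (∀ a, R a (F x) = χ a • F x) → F x = 0 := by
    refine (ae_ball_iff (countable_chs R)).2 (fun χ hχ => ?_)
    by_cases hne : ∃ a, χ a ≠ 1
    · filter_upwards [key χ hχ hne] with x hx _ h
      exact hx h
    · exact ae_of_all _ (fun x h => absurd h hne)
  filter_upwards [hline', key2] with x hx1 hx2
  by_cases h0 : F x = 0
  · intro a; rw [h0, map_zero]
  · obtain ⟨χ, hχ, hv⟩ := exists_ch R hR (F x) h0 hx1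
    by_cases hne : ∃ a, χ a ≠ 1
    · exact absurd (hx2 χ hχ hne hv) h0
    · push Not at hne
      intro a; rw [hv a, hne a, one_smul]

end R970.WM
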