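import Pool.Agent.R970.WM.Stm2

set_option autoImplicit false

open MeasureTheory Set Filter Topology

namespace R970.WM

namespace GLx

variable {n : ℕ}

theorem itin_add (T : ℝ → ℝ) (ix : ℝ → Fin n) (m k : ℕ) : ∀ x : ℝ,
    itin T ix (m + k) x = itin T ix m x ++ itin T ix k (T^[m] x) := by
  induction m with
  | zero => intro x; simp [itin]
  | succ m ih =>
    intro x
    rw [show m + 1 + k = (m + k) + 1 by ring]
    simp only [itin]
    rw [ih (T x), Function.iterate_succ_apply, List.cons_append]

theorem mk_good {T : ℝ → ℝ} {ix : ℝ → Fin n} {s : St n} (hs : Good T ix s) (s' : St n)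
    (hT : Tile s') (ha : s.a ≤ s'.a) (hb : s'.b = s.b)
    (H : ∀ j ∈ s'.S, (j ∈ s.S ∧ s'.d j = s.d j ∧ s'.w j = s.w j ∧ s.t j ≤ s'.t j ∧
        s'.t j + s'.l j ≤ s.t j + s.l j) ∨
      (∃ α β, α ∈ s.S ∧ β ∈ s.S ∧ s'.d j = s.d β + s.d α ∧ s'.w j = s.w β ++ s.w α ∧
        s.t β ≤ s'.t j ∧ s'.t j + s'.l j ≤ s.t β + s.l β ∧ s.t α ≤ s'.t j + s.d β ∧
        s'.t j + s'.l j + s.d β ≤ s.t α + s.l α ∧ s'.t j + s'.l j + s.d β ≤ s'.a)) :
    Good T ix s' := by
  refine ⟨hT, hs.ha.trans ha, hb ▸ hs.hb, ?_, ?_, ?_⟩
  · intro j hj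
    rcases H j hj with ⟨h1, _, h3, _⟩ | ⟨α, β, _, h2, _, h4, _⟩
    · rw [h3]; exact hs.wne j h1
    · rw [h4]
      intro h
      exact hs.wne β h2 (List.append_eq_nil_iff.1 h).1
  · intro j hj x hx
    rcases H j hj with ⟨h1, h2, h3, h4, h5⟩ | ⟨α, β, h1, h2, h3, h4, h5, h6, h7, h8, h9⟩
    · rw [h2, h3]
      exact hs.dyn j h1 x ⟨h4.trans hx.1, hx.2.trans_le h5⟩
    · rw [h3, h4]
      obtain ⟨b1, b2⟩ := hs.dyn β h2 x ⟨h5.trans hx.1, hx.2.trans_le h6⟩
      obtain ⟨a1, a2⟩ := hs.dyn α h1 (x + s.d β) ⟨by linarith [hx.1], by linarith [hx.2]⟩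
      rw [List.length_append]
      refine ⟨?_, ?_⟩
      · rw [add_comm, Function.iterate_add_apply, b1, a1]; ring
      · rw [itin_add, b2, b1, a2]
  · intro j hj x hx k hk0 hk
    rcases H j hj with ⟨h1, h2, h3, h4, h5⟩ | ⟨α, β, h1, h2, h3, h4, h5, h6, h7, h8, h9⟩
    · rw [h3] at hk
      intro hmem
      exact hs.ret j h1 x ⟨h4.trans hx.1, hx.2.trans_le h5⟩ k hk0 hk
        ⟨ha.trans hmem.1, hb ▸ hmem.2⟩
    · rw [h4, List.length_append] at hk
      have hxβ : x ∈ Ico (s.t β) (s.t β + s.l β) := ⟨h5.trans hx.1, hx.2.trans_le h6⟩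
      have hxα : x + s.d β ∈ Ico (s.t α) (s.t α + s.l α) :=
        ⟨by linarith [hx.1], by linarith [hx.2]⟩
      obtain ⟨b1, b2⟩ := hs.dyn β h2 x hxβ
      rcases lt_trichotomy k (s.w β).length with hlt | heq | hgt
      · intro hmem
        exact hs.ret β h2 x hxβ k hk0 hlt ⟨ha.trans hmem.1, hb ▸ hmem.2⟩
      · rw [heq, b1]
        intro hmem
        have := hmem.1
        linarith [hx.2]
      · obtain ⟨m, rfl⟩ := Nat.exists_eq_add_of_lt hgt
        have e : (s.w β).length + m + 1 = (m + 1) + (s.w β).length := by ring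
        rw [e, Function.iterate_add_apply, b1]
        intro hmem
        exact hs.ret α h1 _ hxα (m + 1) (Nat.succ_pos m) (by omega)
          ⟨ha.trans hmem.1, hb ▸ hmem.2⟩

theorem cutL1 (s : St n) (α β : Fin n) (h : s.l β < s.l α) :
    cutL s α β = St.mk (s.a + s.l β) s.b s.S
      (Function.update s.t α (s.t α + s.l β))
      (Function.update s.l α (s.l α - s.l β))
      (Function.update s.d β (s.d β + s.d α))
      (Function.update s.w β (s.w β ++ s.w α)) := by
  have h' : (refl s).l β < (refl s).l α := h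
  unfold cutL cutR
  rw [if_pos h']
  simp only [refl]
  congr 1
  · ring
  · ring
  · funext i
    by_cases hi : i = α
    · subst hi; simp
    · simp [Function.update_of_ne hi]
  · funext i
    by_cases hi : i = β
    · subst hi; simp; ring
    · simp [Function.update_of_ne hi]

theorem cutL2 (s : St n) (α β : Fin n) (hne : α ≠ β) (h : s.l α < s.l β) :
    cutL s α β = St.mk (s.a + s.l α) s.b s.S
      (Function.update (Function.update s.t α (s.t β)) β (s.t β + s.l α))
      (Function.update s.l β (s.l β - s.l α))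
      (Function.update s.d α (s.d β + s.d α))
      (Function.update s.w α (s.w β ++ s.w α)) := by
  have h' : (refl s).l α < (refl s).l β := h
  unfold cutL cutR
  rw [if_neg (not_lt.2 h'.le), if_pos h']
  simp only [refl]
  congr 1
  · ring
  · ring
  · funext i
    by_cases hi : i = α
    · subst hi
      simp [Function.update_of_ne hne]
      try ring
    · by_cases hi2 : i = β
      · subst hi2
        simp [Function.update_of_ne hi]
        try ring
      · simp [Function.update_of_ne hi, Function.update_of_ne hi2]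
  · funext i
    by_cases hi : i = α
    · subst hi; simp; ring
    · simp [Function.update_of_ne hi]

theorem cutL3 (s : St n) (α β : Fin n) (h : s.l α = s.l β) :
    cutL s α β = St.mk (s.a + s.l α) s.b (s.S.erase α) s.t s.l
      (Function.update s.d β (s.d β + s.d α))
      (Function.update s.w β (s.w β ++ s.w α)) := by
  have h' : (refl s).l α = (refl s).l β := h
  unfold cutL cutR
  rw [if_neg (not_lt.2 h'.le), if_neg (not_lt.2 h'.ge)]
  simp only [refl]
  congr 1
  · ring
  · ring
  · funext i
    ring
  · funext i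
    by_cases hi : i = β
    · subst hi; simp; ring
    · simp [Function.update_of_ne hi]

end GLx

open GLx in
theorem goodL (htile : Stm.tileR) : Stm.goodL := by
  intro n T ix s hs α β hne hα hβ
  obtain ⟨hαS, hαt⟩ := hα
  obtain ⟨hβS, hβt⟩ := hβ
  have hpα := hs.tile.pos α hαS
  have hpβ := hs.tile.pos β hβS
  have hTile : Tile (cutL s α β) := by
    unfold cutL
    refine htile.2.1 n _ (htile.1 n _ (htile.2.1 n s hs.tile) α β hne ⟨hαS, ?_⟩ ⟨hβS, ?_⟩)
    · simp only [refl]; linarith
    · simp only [refl]; linarith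
  rcases lt_trichotomy (s.l β) (s.l α) with h | h | h
  · have e := cutL1 s α β h
    refine mk_good hs _ hTile ?_ ?_ ?_
    · rw [e]; simp only; linarith
    · rw [e]
    · rw [e]
      intro j hj
      simp only at hj ⊢
      by_cases hjβ : j = β
      · subst hjβ
        right
        refine ⟨α, j, hαS, hj, by simp, by simp, ?_⟩
        rw [Function.update_of_ne hne.symm, Function.update_of_ne hne.symm]
        refine ⟨le_rfl, le_rfl, ?_, ?_, ?_⟩ <;> linarith
      · left
        rw [Function.update_of_ne hjβ, Function.update_of_ne hjβ]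
        refine ⟨hj, rfl, rfl, ?_⟩
        by_cases hjα : j = α
        · subst hjα
          simp only [Function.update_self]
          constructor <;> linarith
        · rw [Function.update_of_ne hjα, Function.update_of_ne hjα]
          exact ⟨le_rfl, le_rfl⟩
  · have e := cutL3 s α β h.symm
    refine mk_good hs _ hTile ?_ ?_ ?_
    · rw [e]; simp only; linarith
    · rw [e]
    · rw [e]
      intro j hj
      simp only at hj ⊢
      have hjS := Finset.mem_of_mem_erase hj
      by_cases hjβ : j = β
      · subst hjβ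
        right
        refine ⟨α, j, hαS, hjS, by simp, by simp, le_rfl, le_rfl, ?_, ?_, ?_⟩ <;> linarith
      · left
        rw [Function.update_of_ne hjβ, Function.update_of_ne hjβ]
        exact ⟨hjS, rfl, rfl, le_rfl, le_rfl⟩
  · have e := cutL2 s α β hne h
    refine mk_good hs _ hTile ?_ ?_ ?_
    · rw [e]; simp only; linarith
    · rw [e]
    · rw [e]
      intro j hj
      simp only at hj ⊢
      by_cases hjα : j = α
      · subst hjα
        right
        refine ⟨j, β, hj, hβS, by simp, by simp, ?_⟩
        rw [Function.update_of_ne hne, Function.update_self, Function.update_of_ne hne]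
        refine ⟨le_rfl, ?_, ?_, ?_, ?_⟩ <;> linarith
      · left
        rw [Function.update_of_ne hjα, Function.update_of_ne hjα]
        refine ⟨hj, rfl, rfl, ?_⟩
        by_cases hjβ : j = β
        · subst hjβ
          simp only [Function.update_self]
          constructor <;> linarith
        · rw [Function.update_of_ne hjβ, Function.update_of_ne hjβ, Function.update_of_ne hjα]
          exact ⟨le_rfl, le_rfl⟩

end R970.WM
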