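import Pool.Agent.R970.WM.Stm2

open MeasureTheory Set Filter Topology

namespace R970.WM

namespace GRb

variable {n : ℕ}

theorem itin_add (T : ℝ → ℝ) (ix : ℝ → Fin n) (j k : ℕ) (x : ℝ) :
    itin T ix (j + k) x = itin T ix j x ++ itin T ix k (T^[j] x) := by
  induction j generalizing x with
  | zero => simp [itin]
  | succ j ih =>
    rw [show j + 1 + k = (j + k) + 1 by omega]
    show ix x :: itin T ix (j + k) (T x) = (ix x :: itin T ix j (T x)) ++ itin T ix k (T^[j] (T x))
    rw [ih]
    rfl

theorem concat {T : ℝ → ℝ} {ix : ℝ → Fin n} {s : St n} (h : Good T ix s) {α β : Fin n}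
    (hα : α ∈ s.S) (hβ : β ∈ s.S) {x b' : ℝ} (hx : x ∈ Ico (s.t β) (s.t β + s.l β))
    (hx' : x + s.d β ∈ Ico (s.t α) (s.t α + s.l α)) (hb : b' ≤ s.b) (hb' : b' ≤ x + s.d β) :
    (T^[(s.w β ++ s.w α).length] x = x + (s.d β + s.d α) ∧
      itin T ix (s.w β ++ s.w α).length x = s.w β ++ s.w α) ∧
    ∀ k, 0 < k → k < (s.w β ++ s.w α).length → T^[k] x ∉ Ico s.a b' := by
  obtain ⟨h1, h2⟩ := h.dyn β hβ x hx
  obtain ⟨h3, h4⟩ := h.dyn α hα _ hx'
  rw [List.length_append]
  refine ⟨⟨?_, ?_⟩, ?_⟩
  · rw [add_comm, Function.iterate_add_apply, h1, h3, add_assoc]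
  · rw [itin_add, h1, h2, h4]
  · intro k hk hk' hm
    rcases lt_trichotomy k (s.w β).length with h5 | h5 | h5
    · exact h.ret β hβ x hx k hk h5 ⟨hm.1, hm.2.trans_le hb⟩
    · rw [h5, h1] at hm
      exact absurd hm.2 (not_lt.2 hb')
    · obtain ⟨m, rfl⟩ := Nat.exists_eq_add_of_lt h5
      have h6 : T^[(s.w β).length + m + 1] x = T^[m + 1] (x + s.d β) := by
        rw [show (s.w β).length + m + 1 = (m + 1) + (s.w β).length by omega,
          Function.iterate_add_apply, h1]
      rw [h6] at hm
      exact h.ret α hα _ hx' (m + 1) (by omega) (by omega) ⟨hm.1, hm.2.trans_le hb⟩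

end GRb

open GRb in
theorem goodR (hTI : Stm.tileR) : Stm.goodR := by
  intro n T ix s h α β hab hα hβ
  have htile := hTI.1 n s h.tile α β hab hα hβ
  have pα := h.tile.pos α hα.1
  have pβ := h.tile.pos β hβ.1
  have eα := hα.2
  have eβ := hβ.2
  have hb1 := h.hb
  by_cases h1 : s.l β < s.l α
  · have e : cutR s α β = { s with b := s.b - s.l β, l := Function.update s.l α (s.l α - s.l β), d := Function.update s.d β (s.d β + s.d α), w := Function.update s.w β (s.w β ++ s.w α) } := by
      unfold cutR
      rw [if_pos h1]
    rw [e] at htile ⊢
    have key : ∀ i ∈ s.S, ∀ x ∈ Ico (s.t i) (s.t i + Function.update s.l α (s.l α - s.l β) i),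
        (T^[(Function.update s.w β (s.w β ++ s.w α) i).length] x =
            x + Function.update s.d β (s.d β + s.d α) i ∧
          itin T ix (Function.update s.w β (s.w β ++ s.w α) i).length x =
            Function.update s.w β (s.w β ++ s.w α) i) ∧
        ∀ k, 0 < k → k < (Function.update s.w β (s.w β ++ s.w α) i).length →
          T^[k] x ∉ Ico s.a (s.b - s.l β) := by
      intro i hi x hx
      by_cases hiβ : i = β
      · subst hiβ
        rw [Function.update_of_ne (Ne.symm hab)] at hx
        rw [Function.update_self, Function.update_self]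
        exact concat h hα.1 hi hx ⟨by linarith [hx.1], by linarith [hx.2]⟩ (by linarith)
          (by linarith [hx.1])
      · rw [Function.update_of_ne hiβ, Function.update_of_ne hiβ]
        have hx' : x ∈ Ico (s.t i) (s.t i + s.l i) := by
          refine ⟨hx.1, hx.2.trans_le ?_⟩
          by_cases hiα : i = α
          · subst hiα
            rw [Function.update_self]
            linarith
          · rw [Function.update_of_ne hiα]
        exact ⟨h.dyn i hi x hx', fun k hk hk' hm =>
          h.ret i hi x hx' k hk hk' ⟨hm.1, hm.2.trans (by linarith)⟩⟩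
    refine ⟨htile, h.ha, ?_, ?_, fun i hi x hx => (key i hi x hx).1,
      fun i hi x hx => (key i hi x hx).2⟩
    · show s.b - s.l β ≤ 1
      linarith
    · intro i hi
      show Function.update s.w β (s.w β ++ s.w α) i ≠ []
      by_cases hiβ : i = β
      · subst hiβ
        rw [Function.update_self]
        exact List.append_ne_nil_of_left_ne_nil (h.wne i hi) _
      · rw [Function.update_of_ne hiβ]
        exact h.wne i hi
  · by_cases h2 : s.l α < s.l β
    · have e : cutR s α β = { s with b := s.b - s.l α, t := Function.update s.t α (s.t β + s.l β - s.l α), l := Function.update s.l β (s.l β - s.l α), d := Function.update s.d α (s.d β + s.d α), w := Function.update s.w α (s.w β ++ s.w α) } := by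
        unfold cutR
        rw [if_neg h1, if_pos h2]
      rw [e] at htile ⊢
      have key : ∀ i ∈ s.S, ∀ x ∈ Ico (Function.update s.t α (s.t β + s.l β - s.l α) i)
          (Function.update s.t α (s.t β + s.l β - s.l α) i +
            Function.update s.l β (s.l β - s.l α) i),
          (T^[(Function.update s.w α (s.w β ++ s.w α) i).length] x =
              x + Function.update s.d α (s.d β + s.d α) i ∧
            itin T ix (Function.update s.w α (s.w β ++ s.w α) i).length x =
              Function.update s.w α (s.w β ++ s.w α) i) ∧
          ∀ k, 0 < k → k < (Function.update s.w α (s.w β ++ s.w α) i).length →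
            T^[k] x ∉ Ico s.a (s.b - s.l α) := by
        intro i hi x hx
        by_cases hiα : i = α
        · subst hiα
          rw [Function.update_self, Function.update_of_ne hab] at hx
          rw [Function.update_self, Function.update_self]
          exact concat h hi hβ.1 ⟨by linarith [hx.1], by linarith [hx.2]⟩
            ⟨by linarith [hx.1], by linarith [hx.2]⟩ (by linarith) (by linarith [hx.1])
        · rw [Function.update_of_ne hiα] at hx
          rw [Function.update_of_ne hiα, Function.update_of_ne hiα]
          have hx' : x ∈ Ico (s.t i) (s.t i + s.l i) := by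
            refine ⟨hx.1, hx.2.trans_le ?_⟩
            by_cases hiβ : i = β
            · subst hiβ
              rw [Function.update_self]
              linarith
            · rw [Function.update_of_ne hiβ]
          exact ⟨h.dyn i hi x hx', fun k hk hk' hm =>
            h.ret i hi x hx' k hk hk' ⟨hm.1, hm.2.trans (by linarith)⟩⟩
      refine ⟨htile, h.ha, ?_, ?_, fun i hi x hx => (key i hi x hx).1,
        fun i hi x hx => (key i hi x hx).2⟩
      · show s.b - s.l α ≤ 1
        linarith
      · intro i hi
        show Function.update s.w α (s.w β ++ s.w α) i ≠ []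
        by_cases hiα : i = α
        · subst hiα
          rw [Function.update_self]
          exact List.append_ne_nil_of_left_ne_nil (h.wne β hβ.1) _
        · rw [Function.update_of_ne hiα]
          exact h.wne i hi
    · have h3 : s.l α = s.l β := le_antisymm (not_lt.1 h1) (not_lt.1 h2)
      have e : cutR s α β = { s with b := s.b - s.l α, S := s.S.erase α, d := Function.update s.d β (s.d β + s.d α), w := Function.update s.w β (s.w β ++ s.w α) } := by
        unfold cutR
        rw [if_neg h1, if_neg h2]
      rw [e] at htile ⊢
      have key : ∀ i ∈ s.S.erase α, ∀ x ∈ Ico (s.t i) (s.t i + s.l i),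
          (T^[(Function.update s.w β (s.w β ++ s.w α) i).length] x =
              x + Function.update s.d β (s.d β + s.d α) i ∧
            itin T ix (Function.update s.w β (s.w β ++ s.w α) i).length x =
              Function.update s.w β (s.w β ++ s.w α) i) ∧
          ∀ k, 0 < k → k < (Function.update s.w β (s.w β ++ s.w α) i).length →
            T^[k] x ∉ Ico s.a (s.b - s.l α) := by
        intro i hi0 x hx
        have hi : i ∈ s.S := Finset.mem_of_mem_erase hi0
        by_cases hiβ : i = β
        · subst hiβ
          rw [Function.update_self, Function.update_self]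
          exact concat h hα.1 hi hx ⟨by linarith [hx.1], by linarith [hx.2]⟩ (by linarith)
            (by linarith [hx.1])
        · rw [Function.update_of_ne hiβ, Function.update_of_ne hiβ]
          exact ⟨h.dyn i hi x hx, fun k hk hk' hm =>
            h.ret i hi x hx k hk hk' ⟨hm.1, hm.2.trans (by linarith)⟩⟩
      refine ⟨htile, h.ha, ?_, ?_, fun i hi x hx => (key i hi x hx).1,
        fun i hi x hx => (key i hi x hx).2⟩
      · show s.b - s.l α ≤ 1
        linarith
      · intro i hi0
        have hi : i ∈ s.S := Finset.mem_of_mem_erase hi0
        show Function.update s.w β (s.w β ++ s.w α) i ≠ []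
        by_cases hiβ : i = β
        · subst hiβ
          rw [Function.update_self]
          exact List.append_ne_nil_of_left_ne_nil (h.wne i hi) _
        · rw [Function.update_of_ne hiβ]
          exact h.wne i hi

end R970.WM
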