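import Pool.Agent.R970.WM.Stm2

open MeasureTheory Set Filter Topology

namespace R970.WM

lemma HR_cutR_w {n : ℕ} (s : St n) (α β : Fin n) :
    (cutR s α β).w = Function.update s.w β (s.w β ++ s.w α) ∨
      (cutR s α β).w = Function.update s.w α (s.w β ++ s.w α) := by
  unfold cutR
  split_ifs
  · exact Or.inl rfl
  · exact Or.inr rfl
  · exact Or.inl rfl

theorem haarReach (hU : Stm.haarUpd) : Stm.haarReach := by
  intro G _ _ _ _ _ _ _ _ _ ν _ _ n x0 s s' hR
  have hupd := (hU G ν n).2
  have hcut : ∀ (u : St n) (α β : Fin n), α ≠ β → HaarW ν u.w → HaarW ν (cutR u α β).w := by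
    intro u α β hne hu
    obtain ⟨h1, h2⟩ := hupd u.w hu α β hne
    rcases HR_cutR_w u α β with h | h
    · rw [h]; exact h1
    · rw [h]; exact h2
  intro hs
  have hR' : Relation.ReflTransGen (Step x0) s s' := hR
  induction hR' with
  | refl => exact hs
  | tail h1 h2 ih =>
    have ih' := ih h1
    rcases h2 with ⟨α, β, hne, _, _, he, _⟩ | ⟨α, β, hne, _, _, he, _⟩
    · rw [he]; exact hcut _ α β hne ih'
    · rw [he]
      have h3 := hcut (refl _) α β hne (show HaarW ν (refl _).w from ih')
      exact h3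

end R970.WM
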