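import Pool.Agent.R970.WM.Stm2

/-! WM2-HS (helper451): integral operators with bounded kernel are compact -/

open MeasureTheory Set Filter Topology
open scoped ENNReal

namespace R970.WM

namespace HSAux

variable {Z : Type} [MeasurableSpace Z] {μ : Measure Z} [IsProbabilityMeasure μ]

/-- bounded measurable kernels -/
structure BK (K : Z × Z → ℂ) : Prop where
  meas : Measurable K
  bd : ∃ C : ℝ, ∀ p, ‖K p‖ ≤ C

/-- the image function -/
noncomputable def ap (μ : Measure Z) (K : Z × Z → ℂ) (u : Z → ℂ) (z : Z) : ℂ :=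
  ∫ z', K (z, z') * u z' ∂μ

/-- square of the Hilbert-Schmidt norm -/
noncomputable def NN (μ : Measure Z) (K : Z × Z → ℂ) : ℝ≥0∞ :=
  ∫⁻ p, ‖K p‖ₑ ^ (2 : ℝ) ∂(μ.prod μ)

lemma integ {K : Z × Z → ℂ} (hK : BK K) (u : Lp ℂ 2 μ) (z : Z) :
    Integrable (fun z' => K (z, z') * u z') μ := by
  obtain ⟨C, hC⟩ := hK.bd
  have hu : Integrable (u : Z → ℂ) μ := (Lp.memLp u).integrable (by norm_num)
  exact hu.bdd_mul (c := C) (hK.meas.comp measurable_prodMk_left).aestronglyMeasurable
    (Eventually.of_forall fun z' => hC (z, z'))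

lemma eLp_two (f : Z → ℂ) :
    eLpNorm f 2 μ = (∫⁻ z', ‖f z'‖ₑ ^ (2 : ℝ) ∂μ) ^ (1 / 2 : ℝ) := by
  rw [eLpNorm_eq_lintegral_rpow_enorm_toReal (by norm_num) (by norm_num)]
  simp

lemma ap_enorm {K : Z × Z → ℂ} (hK : BK K) (u : Lp ℂ 2 μ) (z : Z) :
    ‖ap μ K u z‖ₑ ≤ (∫⁻ z', ‖K (z, z')‖ₑ ^ (2 : ℝ) ∂μ) ^ (1 / 2 : ℝ) * eLpNorm u 2 μ := by
  refine le_trans (enorm_integral_le_lintegral_enorm _) ?_
  have h1 := ENNReal.lintegral_mul_le_Lp_mul_Lq μ Real.HolderConjugate.two_two
    (f := fun z' => ‖K (z, z')‖ₑ) (g := fun z' => ‖u z'‖ₑ)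
    ((hK.meas.comp measurable_prodMk_left).enorm.aemeasurable)
    ((Lp.stronglyMeasurable u).measurable.enorm.aemeasurable)
  rw [eLp_two]
  refine le_trans (le_of_eq ?_) h1
  apply lintegral_congr
  intro z'
  rw [enorm_mul]
  rfl

lemma meas_inner {K : Z × Z → ℂ} (hK : BK K) :
    Measurable (fun z => ∫⁻ z', ‖K (z, z')‖ₑ ^ (2 : ℝ) ∂μ) := by
  have h1 : Measurable (fun p : Z × Z => ‖K p‖ₑ ^ (2 : ℝ)) := hK.meas.enorm.pow_const _
  exact h1.lintegral_prod_right'

lemma ap_eLp {K : Z × Z → ℂ} (hK : BK K) (u : Lp ℂ 2 μ) :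
    eLpNorm (ap μ K u) 2 μ ≤ (NN μ K) ^ (1 / 2 : ℝ) * eLpNorm u 2 μ := by
  rw [eLp_two (ap μ K u)]
  set U := eLpNorm u 2 μ with hU
  have h1 : ∫⁻ z, ‖ap μ K u z‖ₑ ^ (2 : ℝ) ∂μ ≤ NN μ K * U ^ (2 : ℝ) := by
    have h2 : ∫⁻ z, ‖ap μ K u z‖ₑ ^ (2 : ℝ) ∂μ
        ≤ ∫⁻ z, (∫⁻ z', ‖K (z, z')‖ₑ ^ (2 : ℝ) ∂μ) * U ^ (2 : ℝ) ∂μ := by
      apply lintegral_mono
      intro z
      have h3 := ENNReal.rpow_le_rpow (ap_enorm hK u z) (by norm_num : (0 : ℝ) ≤ 2)
      refine le_trans h3 (le_of_eq ?_)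
      rw [ENNReal.mul_rpow_of_nonneg _ _ (by norm_num), ← ENNReal.rpow_mul]
      norm_num
      rw [← hU]
    refine le_trans h2 (le_of_eq ?_)
    rw [lintegral_mul_const _ (meas_inner hK)]
    congr 1
    unfold NN
    rw [lintegral_prod _ (hK.meas.enorm.pow_const _).aemeasurable]
  have h4 := ENNReal.rpow_le_rpow h1 (by norm_num : (0 : ℝ) ≤ 1 / 2)
  refine le_trans h4 (le_of_eq ?_)
  rw [ENNReal.mul_rpow_of_nonneg _ _ (by norm_num), ← ENNReal.rpow_mul]
  norm_num

lemma NN_ne {K : Z × Z → ℂ} (hK : BK K) : NN μ K ≠ ∞ := by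
  obtain ⟨C, hC⟩ := hK.bd
  have h1 : NN μ K ≤ ∫⁻ _p, (ENNReal.ofReal C) ^ (2 : ℝ) ∂(μ.prod μ) := by
    apply lintegral_mono
    intro p
    apply ENNReal.rpow_le_rpow _ (by norm_num)
    rw [← ofReal_norm]
    exact ENNReal.ofReal_le_ofReal (hC p)
  rw [lintegral_const, measure_univ, mul_one] at h1
  exact ne_top_of_le_ne_top (ENNReal.rpow_ne_top_of_nonneg (by norm_num) ENNReal.ofReal_ne_top) h1

lemma NNh_ne {K : Z × Z → ℂ} (hK : BK K) : (NN μ K) ^ (1 / 2 : ℝ) ≠ ∞ :=
  ENNReal.rpow_ne_top_of_nonneg (by norm_num) (NN_ne hK)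

lemma memLp_ap {K : Z × Z → ℂ} (hK : BK K) (u : Lp ℂ 2 μ) : MemLp (ap μ K u) 2 μ := by
  refine ⟨?_, ?_⟩
  · have h1 : StronglyMeasurable (fun p : Z × Z => K p * u p.2) :=
      (hK.meas.mul ((Lp.stronglyMeasurable u).measurable.comp measurable_snd)).stronglyMeasurable
    exact h1.integral_prod_right'.aestronglyMeasurable
  · refine lt_of_le_of_lt (ap_eLp hK u) ?_
    exact ENNReal.mul_lt_top (NNh_ne hK).lt_top (Lp.memLp u).2

/-- the integral operator -/
noncomputable def op (μ : Measure Z) [IsProbabilityMeasure μ] (K : Z × Z → ℂ) (hK : BK K) :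
    Lp ℂ 2 μ →L[ℂ] Lp ℂ 2 μ :=
  LinearMap.mkContinuous
    { toFun := fun u => (memLp_ap hK u).toLp _
      map_add' := fun u v => by
        apply Lp.ext
        filter_upwards [(memLp_ap hK (u + v)).coeFn_toLp, (memLp_ap hK u).coeFn_toLp,
          (memLp_ap hK v).coeFn_toLp, Lp.coeFn_add ((memLp_ap hK u).toLp _)
            ((memLp_ap hK v).toLp _)] with z h1 h2 h3 h4
        rw [h1, h4, Pi.add_apply, h2, h3]
        unfold ap
        rw [← integral_add (integ hK u z) (integ hK v z)]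
        apply integral_congr_ae
        filter_upwards [Lp.coeFn_add u v] with z' h5
        rw [h5, Pi.add_apply, mul_add]
      map_smul' := fun c u => by
        apply Lp.ext
        filter_upwards [(memLp_ap hK (c • u)).coeFn_toLp, (memLp_ap hK u).coeFn_toLp,
          Lp.coeFn_smul c ((memLp_ap hK u).toLp _)] with z h1 h2 h4
        rw [h1, RingHom.id_apply, h4, Pi.smul_apply, h2]
        unfold ap
        rw [smul_eq_mul, ← integral_const_mul]
        apply integral_congr_ae
        filter_upwards [Lp.coeFn_smul c u] with z' h5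
        rw [h5, Pi.smul_apply, smul_eq_mul]
        ring }
    ((NN μ K) ^ (1 / 2 : ℝ)).toReal (by
      intro u
      show ‖(memLp_ap hK u).toLp _‖ ≤ _
      rw [Lp.norm_toLp, Lp.norm_def, ← ENNReal.toReal_mul]
      exact ENNReal.toReal_mono (ENNReal.mul_lt_top (NNh_ne hK).lt_top (Lp.memLp u).2).ne
        (ap_eLp hK u))

lemma op_coe {K : Z × Z → ℂ} (hK : BK K) (u : Lp ℂ 2 μ) : op μ K hK u =ᵐ[μ] ap μ K u :=
  (memLp_ap hK u).coeFn_toLp

lemma op_norm {K : Z × Z → ℂ} (hK : BK K) : ‖op μ K hK‖ ≤ ((NN μ K) ^ (1 / 2 : ℝ)).toReal :=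
  LinearMap.mkContinuous_norm_le _ ENNReal.toReal_nonneg _

lemma op_add {K L M : Z × Z → ℂ} (hK : BK K) (hL : BK L) (hM : BK M)
    (h : ∀ p, K p = L p + M p) : op μ K hK = op μ L hL + op μ M hM := by
  apply ContinuousLinearMap.ext
  intro u
  apply Lp.ext
  rw [ContinuousLinearMap.add_apply]
  filter_upwards [op_coe hK u, op_coe hL u, op_coe hM u, Lp.coeFn_add (op μ L hL u) (op μ M hM u)]
    with z h1 h2 h3 h4
  rw [h1, h4, Pi.add_apply, h2, h3]
  unfold ap
  rw [← integral_add (integ hL u z) (integ hM u z)]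
  apply integral_congr_ae
  filter_upwards with z'
  rw [h]
  ring

lemma op_smul {K L : Z × Z → ℂ} (c : ℂ) (hK : BK K) (hL : BK L)
    (h : ∀ p, K p = c * L p) : op μ K hK = c • op μ L hL := by
  apply ContinuousLinearMap.ext
  intro u
  apply Lp.ext
  rw [ContinuousLinearMap.smul_apply]
  filter_upwards [op_coe hK u, op_coe hL u, Lp.coeFn_smul c (op μ L hL u)] with z h1 h2 h4
  rw [h1, h4, Pi.smul_apply, h2]
  unfold ap
  rw [smul_eq_mul, ← integral_const_mul]
  apply integral_congr_ae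
  filter_upwards with z'
  rw [h]
  ring

/-- limits -/
lemma lim {K : ℕ → Z × Z → ℂ} {L : Z × Z → ℂ} (hK : ∀ n, BK (K n)) (hL : BK L) (C : ℝ)
    (hC : ∀ n p, ‖K n p‖ ≤ C) (hC' : ∀ p, ‖L p‖ ≤ C)
    (ht : ∀ p, Tendsto (fun n => K n p) atTop (𝓝 (L p)))
    (hc : ∀ n, IsCompactOperator (op μ (K n) (hK n))) : IsCompactOperator (op μ L hL) := by
  have hD : ∀ n, BK (fun p => K n p - L p) := fun n =>
    ⟨(hK n).meas.sub hL.meas, ⟨C + C, fun p => le_trans (norm_sub_le _ _)
      (add_le_add (hC n p) (hC' p))⟩⟩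
  have hNN : Tendsto (fun n => NN μ (fun p => K n p - L p)) atTop (𝓝 0) := by
    unfold NN
    have h0 : (0 : ℝ≥0∞) = ∫⁻ _p : Z × Z, 0 ∂(μ.prod μ) := by simp
    rw [h0]
    refine tendsto_lintegral_of_dominated_convergence
      (fun _ => (ENNReal.ofReal (C + C)) ^ (2 : ℝ)) ?_ ?_ ?_ ?_
    · intro n
      exact (hD n).meas.enorm.pow_const _
    · intro n
      filter_upwards with p
      apply ENNReal.rpow_le_rpow _ (by norm_num)
      rw [← ofReal_norm]
      exact ENNReal.ofReal_le_ofReal (le_trans (norm_sub_le _ _) (add_le_add (hC n p) (hC' p)))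
    · rw [lintegral_const, measure_univ, mul_one]
      exact ENNReal.rpow_ne_top_of_nonneg (by norm_num) ENNReal.ofReal_ne_top
    · filter_upwards with p
      have h1 : Tendsto (fun n => K n p - L p) atTop (𝓝 0) := by
        have := (ht p).sub_const (L p)
        rwa [sub_self] at this
      have h2 : Tendsto (fun n => ‖K n p - L p‖ₑ) atTop (𝓝 0) := by
        have := (continuous_enorm.tendsto (0 : ℂ)).comp h1
        rwa [enorm_zero] at this
      have h3 := (ENNReal.continuous_rpow_const (y := 2)).tendsto (0 : ℝ≥0∞)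
      rw [ENNReal.zero_rpow_of_pos (by norm_num)] at h3
      exact h3.comp h2
  refine isCompactOperator_of_tendsto (l := atTop) (F := fun n => op μ (K n) (hK n)) ?_
    (Eventually.of_forall hc)
  rw [tendsto_iff_norm_sub_tendsto_zero]
  have h4 : ∀ n, ‖op μ (K n) (hK n) - op μ L hL‖
      ≤ ((NN μ (fun p => K n p - L p)) ^ (1 / 2 : ℝ)).toReal := by
    intro n
    have h5 : op μ (K n) (hK n) - op μ L hL = op μ _ (hD n) := by
      rw [op_add (hK n) (hD n) hL (fun p => by ring)]
      abel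
    rw [h5]
    exact op_norm (hD n)
  refine squeeze_zero (fun n => norm_nonneg _) h4 ?_
  have h6 := (ENNReal.continuous_rpow_const (y := 1 / 2)).tendsto (0 : ℝ≥0∞)
  rw [ENNReal.zero_rpow_of_pos (by norm_num)] at h6
  have h7 := (ENNReal.tendsto_toReal ENNReal.zero_ne_top).comp (h6.comp hNN)
  exact h7

lemma bk_ind {E : Set (Z × Z)} (hE : MeasurableSet E) : BK (E.indicator fun _ => (1 : ℂ)) := by
  refine ⟨measurable_const.indicator hE, 1, fun p => ?_⟩
  by_cases h : p ∈ E
  · rw [indicator_of_mem h]; simp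
  · rw [indicator_of_notMem h]; simp

lemma ind_le (E : Set (Z × Z)) (p : Z × Z) : ‖E.indicator (fun _ => (1 : ℂ)) p‖ ≤ 1 := by
  by_cases h : p ∈ E
  · rw [indicator_of_mem h]; simp
  · rw [indicator_of_notMem h]; simp

lemma rect {s t : Set Z} (hs : MeasurableSet s) (ht : MeasurableSet t) :
    IsCompactOperator (op μ _ (bk_ind (hs.prod ht))) := by
  have h1 : op μ _ (bk_ind (hs.prod ht)) =
      (innerSL ℂ (indicatorConstLp 2 ht (measure_ne_top μ t) (1 : ℂ))).smulRight
        (indicatorConstLp 2 hs (measure_ne_top μ s) (1 : ℂ)) := by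
    apply ContinuousLinearMap.ext
    intro u
    apply Lp.ext
    rw [ContinuousLinearMap.smulRight_apply, innerSL_apply_apply, L2.inner_indicatorConstLp_one]
    filter_upwards [op_coe (bk_ind (hs.prod ht)) u,
      Lp.coeFn_smul (∫ x in t, u x ∂μ) (indicatorConstLp 2 hs (measure_ne_top μ s) (1 : ℂ)),
      indicatorConstLp_coeFn (p := 2) (hs := hs) (hμs := measure_ne_top μ s) (c := (1 : ℂ))]
      with z h2 h3 h4
    rw [h2, h3, Pi.smul_apply, h4]
    unfold ap
    by_cases hz : z ∈ s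
    · rw [indicator_of_mem hz, smul_eq_mul, mul_one, ← integral_indicator ht]
      apply integral_congr_ae
      filter_upwards with z'
      by_cases hz' : z' ∈ t
      · rw [indicator_of_mem hz', indicator_of_mem (mk_mem_prod hz hz'), one_mul]
      · rw [indicator_of_notMem hz', indicator_of_notMem (fun h => hz' h.2), zero_mul]
    · rw [indicator_of_notMem hz, smul_zero]
      rw [← integral_zero Z ℂ (μ := μ)]
      apply integral_congr_ae
      filter_upwards with z'
      rw [indicator_of_notMem (fun h => hz h.1), zero_mul]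
  rw [h1]
  have h5 : IsCompactOperator (ContinuousLinearMap.toSpanSingleton ℂ
      (indicatorConstLp 2 hs (measure_ne_top μ s) (1 : ℂ)) : ℂ →L[ℂ] Lp ℂ 2 μ) :=
    isCompactOperator_of_locallyCompactSpace_rng _
  have h6 := h5.comp_clm (innerSL ℂ (indicatorConstLp 2 ht (measure_ne_top μ t) (1 : ℂ)))
  exact h6

lemma sets (E : Set (Z × Z)) (hE : MeasurableSet E) : IsCompactOperator (op μ _ (bk_ind hE)) := by
  refine MeasurableSpace.induction_on_inter
    (C := fun E hE => IsCompactOperator (op μ _ (bk_ind (Z := Z) (E := E) hE)))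
    generateFrom_prod.symm isPiSystem_prod ?_ ?_ ?_ ?_ E hE
  · have h1 := rect (μ := μ) (s := (∅ : Set Z)) (t := (∅ : Set Z)) .empty .empty
    have h2 : (∅ : Set Z) ×ˢ (∅ : Set Z) = ∅ := by simp
    have h3 : op μ _ (bk_ind (E := (∅ : Set (Z × Z))) .empty)
        = (1 : ℂ) • op μ _ (bk_ind ((MeasurableSet.empty (α := Z)).prod (.empty (α := Z)))) := by
      apply op_smul
      intro p
      rw [h2, one_mul]
    rw [h3]
    exact h1.smul (1 : ℂ)
  · rintro E ⟨s, hs, t, ht, rfl⟩
    exact rect hs ht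
  · intro E hE h
    have h1 := rect (μ := μ) (s := (univ : Set Z)) (t := (univ : Set Z)) .univ .univ
    have h3 : op μ _ (bk_ind ((MeasurableSet.univ (α := Z)).prod (.univ (α := Z))))
        = op μ _ (bk_ind hE.compl) + op μ _ (bk_ind hE) := by
      apply op_add
      intro p
      rw [univ_prod_univ, indicator_univ]
      by_cases hp : p ∈ E
      · rw [indicator_of_mem hp, indicator_of_notMem (show p ∉ Eᶜ from fun h => h hp), zero_add]
      · rw [indicator_of_notMem hp, indicator_of_mem (show p ∈ Eᶜ from hp), add_zero]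
    have h4 : op μ _ (bk_ind hE.compl)
        = op μ _ (bk_ind ((MeasurableSet.univ (α := Z)).prod (.univ (α := Z))))
          - op μ _ (bk_ind hE) := by
      rw [h3]; abel
    show IsCompactOperator (op μ _ (bk_ind hE.compl))
    rw [h4]
    exact h1.sub h
  · intro f hd hm h
    have hmn : ∀ n, MeasurableSet (⋃ i ∈ Finset.range n, f i) := fun n =>
      Finset.measurableSet_biUnion _ fun i _ => hm i
    have hn : ∀ n, IsCompactOperator (op μ _ (bk_ind (hmn n))) := by
      intro n
      induction n with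
      | zero =>
        have h1 := rect (μ := μ) (s := (∅ : Set Z)) (t := (∅ : Set Z)) .empty .empty
        have h3 : op μ _ (bk_ind (hmn 0))
            = (1 : ℂ) • op μ _ (bk_ind ((MeasurableSet.empty (α := Z)).prod (.empty (α := Z)))) := by
          apply op_smul
          intro p
          simp
        rw [h3]
        exact h1.smul (1 : ℂ)
      | succ n ih =>
        have h3 : op μ _ (bk_ind (hmn (n + 1))) = op μ _ (bk_ind (hmn n)) + op μ _ (bk_ind (hm n)) := by
          apply op_add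
          intro p
          have h5 : (⋃ i ∈ Finset.range (n + 1), f i) = (⋃ i ∈ Finset.range n, f i) ∪ f n := by
            rw [Finset.range_add_one, Finset.set_biUnion_insert, union_comm]
          rw [h5]
          have h6 : Disjoint (⋃ i ∈ Finset.range n, f i) (f n) := by
            rw [disjoint_iUnion₂_left]
            intro i hi
            exact hd (Finset.mem_range.mp hi).ne
          rw [indicator_union_of_disjoint h6]
        rw [h3]
        exact ih.add (h n)
    refine lim (fun n => bk_ind (hmn n)) (bk_ind (MeasurableSet.iUnion hm)) 1 (fun n p => ind_le _ _) (fun p => ind_le _ _)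
      ?_ hn
    intro p
    exact ((tendsto_indicator_biUnion_finset f (fun _ => (1 : ℂ)) p).comp
      tendsto_finset_range).mono_right (pure_le_nhds _)

lemma simple (g : SimpleFunc (Z × Z) ℂ) : ∀ h : BK (g : Z × Z → ℂ), IsCompactOperator (op μ _ h) := by
  induction g using SimpleFunc.induction with
  | const c hs =>
    intro h
    rename_i s
    have h1 := (sets (μ := μ) s hs).smul c
    have h2 : op μ _ h = c • op μ _ (bk_ind hs) := by
      apply op_smul
      intro p
      by_cases hp : p ∈ s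
      · simp [hp]
      · simp [hp]
    rw [h2]
    exact h1
  | add hd hf hg =>
    intro h
    rename_i f g
    have hBf : BK (f : Z × Z → ℂ) := ⟨f.measurable, f.exists_forall_norm_le⟩
    have hBg : BK (g : Z × Z → ℂ) := ⟨g.measurable, g.exists_forall_norm_le⟩
    have h2 : op μ _ h = op μ _ hBf + op μ _ hBg := by
      apply op_add
      intro p
      rfl
    rw [h2]
    exact (hf hBf).add (hg hBg)

end HSAux

open HSAux

theorem hsOp : Stm.hsOp := by
  intro Z _ μ _ K hK hC
  obtain ⟨C, hC⟩ := hC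
  have hB : BK K := ⟨hK, C, hC⟩
  refine ⟨op μ K hB, ?_, fun u => op_coe hB u⟩
  have hC0 : 0 ≤ C := by
    by_contra hcon
    have hZ : Nonempty Z := by
      by_contra hne
      rw [not_nonempty_iff] at hne
      have h1 : μ univ = 0 := by
        rw [univ_eq_empty_iff.mpr hne, measure_empty]
      rw [measure_univ] at h1
      exact one_ne_zero h1
    obtain ⟨z⟩ := hZ
    have := norm_nonneg (K (z, z))
    have := hC (z, z)
    linarith
  have hS : StronglyMeasurable K := hK.stronglyMeasurable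
  have hBn : ∀ n, BK (hS.approxBounded C n : Z × Z → ℂ) := fun n =>
    ⟨(hS.approxBounded C n).measurable, (hS.approxBounded C n).exists_forall_norm_le⟩
  exact lim hBn hB C (fun n p => hS.norm_approxBounded_le hC0 n p) hC
    (fun p => hS.tendsto_approxBounded_of_norm_le (hC p)) (fun n => simple _ (hBn n))

end R970.WM
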