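import Pool.Agent.R970.WM.Stm2

set_option autoImplicit false

/-!
Piece HU: elementary moves preserve Haar measure.
-/

open MeasureTheory Set Filter Topology

namespace R970.WM

namespace HUaux

variable {G : Type} [Group G]

lemma ev_append {n : ℕ} (g : Fin n → G) (u v : List (Fin n)) :
    ev g (u ++ v) = ev g v * ev g u := by
  induction u with
  | nil => simp [ev]
  | cons i u ih =>
    show ev g (u ++ v) * g i = ev g v * (ev g u * g i)
    rw [ih, mul_assoc]

variable [TopologicalSpace G] [IsTopologicalGroup G] [CompactSpace G] [T2Space G]
  [SecondCountableTopology G] [MeasurableSpace G] [BorelSpace G] (ν : Measure G)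
  [IsProbabilityMeasure ν] [ν.IsHaarMeasure]

lemma map_right (a : G) : Measure.map (fun x => x * a) ν = ν := by
  haveI : IsProbabilityMeasure (Measure.map (fun x => x * a) ν) :=
    Measure.isProbabilityMeasure_map (measurable_mul_const a).aemeasurable
  haveI : (Measure.map (fun x => x * a) ν).IsHaarMeasure := by
    infer_instance
  exact Measure.isHaarMeasure_eq_of_isProbabilityMeasure _ _

/-- updating one coordinate by a measure preserving map which depends on another coordinate -/
lemma shear (n : ℕ) (f : G → G → G) (hf : Measurable (Function.uncurry f))
    (hm : ∀ a, Measure.map (f a) ν = ν) (α β : Fin n) (hab : α ≠ β) :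
    MeasurePreserving (fun u : Fin n → G => Function.update u β (f (u α) (u β)))
      (Measure.pi (fun _ => ν)) (Measure.pi (fun _ => ν)) := by
  cases n with
  | zero => exact α.elim0
  | succ m =>
    obtain ⟨j, hj⟩ := Fin.exists_succAbove_eq hab
    have he := measurePreserving_piFinSuccAbove (fun _ : Fin (m + 1) => ν) β
    have hsw1 : MeasurePreserving (Prod.swap : G × (Fin m → G) → (Fin m → G) × G)
      (ν.prod (Measure.pi (fun _ : Fin m => ν))) ((Measure.pi (fun _ : Fin m => ν)).prod ν) :=
      Measure.measurePreserving_swap (μ := ν) (ν := Measure.pi (fun _ : Fin m => ν))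
    have hsw2 : MeasurePreserving (Prod.swap : (Fin m → G) × G → G × (Fin m → G))
      ((Measure.pi (fun _ : Fin m => ν)).prod ν) (ν.prod (Measure.pi (fun _ : Fin m => ν))) :=
      Measure.measurePreserving_swap (μ := Measure.pi (fun _ : Fin m => ν)) (ν := ν)
    have hgm : Measurable (Function.uncurry (fun (r : Fin m → G) (x : G) => f (r j) x)) := by
      show Measurable (fun p : (Fin m → G) × G => f (p.1 j) p.2)
      have h1 : Measurable (fun p : (Fin m → G) × G => (p.1 j, p.2)) :=
        ((measurable_pi_apply j).comp measurable_fst).prodMk measurable_snd
      exact hf.comp h1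
    have hae : ∀ᵐ r ∂(Measure.pi (fun _ : Fin m => ν)),
        Measure.map ((fun (r : Fin m → G) (x : G) => f (r j) x) r) ν = ν :=
      Filter.Eventually.of_forall (fun r => hm (r j))
    have hsk := MeasurePreserving.skew_product (MeasurePreserving.id (Measure.pi (fun _ : Fin m => ν)))
      hgm hae
    have hes := he.symm (MeasurableEquiv.piFinSuccAbove (fun _ : Fin (m + 1) => G) β)
    have hall := (((hes.comp hsw2).comp hsk).comp hsw1).comp he
    convert hall using 1
    funext u
    show Function.update u β (f (u α) (u β)) =
      β.insertNth (f ((β.removeNth u) j) (u β)) (β.removeNth u)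
    rw [Fin.insertNth_removeNth]
    show _ = Function.update u β (f (u (β.succAbove j)) (u β))
    rw [hj]

end HUaux

open HUaux in
theorem haarUpd : Stm.haarUpd := by
  intro G _ _ _ _ _ _ _ _ _ ν _ _ n
  refine ⟨?_, ?_⟩
  · have : (fun (g : Fin n → G) (i : Fin n) => ev g [i]) = id := by
      funext g i
      simp [ev]
    unfold HaarW
    rw [this]
    exact MeasurePreserving.id _
  · intro w hw α β hab
    refine ⟨?_, ?_⟩
    · have h1 := shear ν n (fun a x => a * x) measurable_mul (fun a => map_mul_left_eq_self ν a) α β hab
      have h2 := h1.comp hw
      unfold HaarW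
      convert h2 using 1
      funext g i
      show ev g (Function.update w β (w β ++ w α) i) =
        Function.update (fun i => ev g (w i)) β (ev g (w α) * ev g (w β)) i
      by_cases hi : i = β
      · subst hi
        rw [Function.update_self, Function.update_self, ev_append]
      · rw [Function.update_of_ne hi, Function.update_of_ne hi]
    · have h1 := shear ν n (fun a x => x * a)
        (measurable_snd.mul measurable_fst) (fun a => map_right ν a) β α hab.symm
      have h2 := h1.comp hw
      unfold HaarW
      convert h2 using 1
      funext g i
      show ev g (Function.update w α (w β ++ w α) i) =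
        Function.update (fun i => ev g (w i)) α (ev g (w α) * ev g (w β)) i
      by_cases hi : i = α
      · subst hi
        rw [Function.update_self, Function.update_self, ev_append]
      · rw [Function.update_of_ne hi, Function.update_of_ne hi]

end R970.WM
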