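import Pool.Agent.R970.WM.Stm2

open MeasureTheory Set Filter Topology

namespace R970.WM

namespace IGaux

variable {n : ℕ}

/-- sum of the lengths of the letters before `i` in the order given by `f` -/
noncomputable def LS (f : Fin n → Fin n) (lam : Fin n → ℝ) (i : Fin n) : ℝ :=
  ∑ j ∈ Finset.univ.filter (fun j => f j < f i), lam j

theorem LS_nonneg (f : Fin n → Fin n) (lam : Fin n → ℝ) (hl : ∀ k, 0 < lam k) (i : Fin n) :
    0 ≤ LS f lam i := Finset.sum_nonneg fun j _ => (hl j).le

theorem LS_add (f : Fin n → Fin n) (lam : Fin n → ℝ) (i : Fin n) :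
    LS f lam i + lam i = ∑ j ∈ insert i (Finset.univ.filter (fun j => f j < f i)), lam j := by
  rw [Finset.sum_insert (by simp), LS]
  ring

theorem LS_one (f : Fin n → Fin n) (lam : Fin n → ℝ) (hl : ∀ k, 0 < lam k)
    (h1 : ∑ k, lam k = 1) (i : Fin n) : LS f lam i + lam i ≤ 1 := by
  rw [LS_add, ← h1]
  exact Finset.sum_le_sum_of_subset_of_nonneg (Finset.subset_univ _) fun j _ _ => (hl j).le

theorem LS_lt (f : Fin n → Fin n) (lam : Fin n → ℝ) (hl : ∀ k, 0 < lam k) {i j : Fin n}
    (hij : f i < f j) : LS f lam i + lam i ≤ LS f lam j := by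
  rw [LS_add, LS]
  apply Finset.sum_le_sum_of_subset_of_nonneg
  · intro k hk
    rw [Finset.mem_insert] at hk
    rw [Finset.mem_filter]
    refine ⟨Finset.mem_univ _, ?_⟩
    rcases hk with rfl | hk
    · exact hij
    · rw [Finset.mem_filter] at hk
      exact hk.2.trans hij
  · intro k _ _
    exact (hl k).le

theorem LS_sep (f : Fin n → Fin n) (hf : Function.Injective f) (lam : Fin n → ℝ)
    (hl : ∀ k, 0 < lam k) {i j : Fin n} (hij : i ≠ j) :
    LS f lam i + lam i ≤ LS f lam j ∨ LS f lam j + lam j ≤ LS f lam i := by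
  rcases lt_or_gt_of_ne (fun h => hij (hf h) : f i ≠ f j) with h | h
  · exact Or.inl (LS_lt f lam hl h)
  · exact Or.inr (LS_lt f lam hl h)

theorem lft_eq (lam : Fin n → ℝ) (i : Fin n) : lft lam i = LS id lam i := rfl

theorem lftIm_eq (π : Equiv.Perm (Fin n)) (lam : Fin n → ℝ) (i : Fin n) :
    lftIm π lam i = LS π lam i := rfl

theorem idx_eq [NeZero n] (lam : Fin n → ℝ) (hl : ∀ k, 0 < lam k) (i : Fin n) (x : ℝ)
    (hx : x ∈ Ico (lft lam i) (lft lam i + lam i)) : idx lam x = i := by
  classical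
  have h : ∃ k, x ∈ Ico (lft lam k) (lft lam k + lam k) := ⟨i, hx⟩
  unfold idx
  rw [dif_pos h]
  by_contra hne
  have h1 := h.choose_spec
  rcases LS_sep id Function.injective_id lam hl hne with h2 | h2
  · rw [← lft_eq, ← lft_eq] at h2
    exact absurd (h1.2.trans_le (h2.trans hx.1)) (lt_irrefl _)
  · rw [← lft_eq, ← lft_eq] at h2
    exact absurd (hx.2.trans_le (h2.trans h1.1)) (lt_irrefl _)

end IGaux

open IGaux in
theorem initGood : Stm.initGood := by
  intro n _ π lam hl h1
  have hd : ∀ i : Fin n, lft lam i + (lftIm π lam i - lft lam i) = lftIm π lam i := fun i => by ring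
  refine ⟨⟨?_, ?_, ?_, ?_, ?_, ?_, ?_⟩, ?_, ?_, ?_, ?_, ?_⟩
  · change (0 : ℝ) < 1
    norm_num
  · intro i _
    exact hl i
  · intro i _
    exact ⟨LS_nonneg id lam hl i, LS_one id lam hl h1 i⟩
  · intro i _
    change (0 : ℝ) ≤ lft lam i + (lftIm π lam i - lft lam i) ∧
      lft lam i + (lftIm π lam i - lft lam i) + lam i ≤ 1
    rw [hd]
    exact ⟨LS_nonneg π lam hl i, LS_one π lam hl h1 i⟩
  · intro i _ j _ hij
    exact LS_sep id Function.injective_id lam hl hij
  · intro i _ j _ hij
    change lft lam i + (lftIm π lam i - lft lam i) + lam i ≤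
      lft lam j + (lftIm π lam j - lft lam j) ∨
      lft lam j + (lftIm π lam j - lft lam j) + lam j ≤
      lft lam i + (lftIm π lam i - lft lam i)
    rw [hd, hd]
    exact LS_sep π π.injective lam hl hij
  · change ∑ i ∈ Finset.univ, lam i = 1 - 0
    rw [h1, sub_zero]
  · exact le_refl (0 : ℝ)
  · exact le_refl (1 : ℝ)
  · intro i _
    change [i] ≠ []
    simp
  · intro i _ x hx
    have hx' : x ∈ Ico (lft lam i) (lft lam i + lam i) := hx
    have hi := idx_eq lam hl i x hx'
    have h01 : x ∈ Ico (0 : ℝ) 1 :=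
      ⟨(LS_nonneg id lam hl i).trans hx'.1, hx'.2.trans_le (LS_one id lam hl h1 i)⟩
    constructor
    · change iet π lam x = x + (lftIm π lam i - lft lam i)
      unfold iet
      rw [if_pos h01, hi]
      ring
    · change [idx lam x] = [i]
      rw [hi]
  · intro i _ x _ k hk hk'
    change k < 1 at hk'
    omega

end R970.WM
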