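import Pool.Agent.R970.WM.Stm2

/-!
# Piece IR: irreducibility from ergodicity
-/

set_option autoImplicit false

open MeasureTheory Set Filter Topology

namespace R970.WM

namespace IR

theorem U_sub {J : Set ℝ} (hJ : MeasurableSet J) (h : J ⊆ Ico (0 : ℝ) 1) : U J = volume J := by
  unfold U
  rw [Measure.restrict_apply hJ, inter_eq_left.2 h]

theorem U_univ : U univ = 1 := by
  unfold U
  simp

instance : IsProbabilityMeasure U := ⟨U_univ⟩

/-- the top intervals of the letters in `A` -/
def top {n : ℕ} (s : St n) (A : Finset (Fin n)) : Set ℝ := ⋃ i ∈ A, Ico (s.t i) (s.t i + s.l i)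

theorem mem_top {n : ℕ} {s : St n} {A : Finset (Fin n)} {x : ℝ} :
    x ∈ top s A ↔ ∃ i ∈ A, x ∈ Ico (s.t i) (s.t i + s.l i) := by
  simp only [top, mem_iUnion, exists_prop]

theorem top_meas {n : ℕ} (s : St n) (A : Finset (Fin n)) : MeasurableSet (top s A) :=
  Finset.measurableSet_biUnion _ fun _ _ => measurableSet_Ico

theorem null {n : ℕ} {s : St n} (h : Tile s) : volume (Ico s.a s.b \ top s s.S) = 0 := by
  have hsub : top s s.S ⊆ Ico s.a s.b := by
    intro x hx
    obtain ⟨i, hi, hx⟩ := mem_top.1 hx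
    have := h.sub i hi
    exact ⟨this.1.trans hx.1, lt_of_lt_of_le hx.2 this.2⟩
  have hv : volume (top s s.S) = ENNReal.ofReal (s.b - s.a) := by
    unfold top
    rw [measure_biUnion_finset _ (fun i _ => measurableSet_Ico)]
    · have : ∀ i ∈ s.S, volume (Ico (s.t i) (s.t i + s.l i)) = ENNReal.ofReal (s.l i) := by
        intro i _
        rw [Real.volume_Ico]
        congr 1
        ring
      rw [Finset.sum_congr rfl this, ← ENNReal.ofReal_sum_of_nonneg
        (fun i hi => (h.pos i hi).le), h.tot]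
    · intro i hi j hj hij
      rw [Function.onFun, Set.disjoint_left]
      intro x hxi hxj
      rcases h.sep i hi j hj hij with h1 | h1
      · have := hxi.2; have := hxj.1; linarith
      · have := hxj.2; have := hxi.1; linarith
  rw [measure_sdiff hsub (top_meas s s.S).nullMeasurableSet (by rw [hv]; exact ENNReal.ofReal_ne_top),
    hv, Real.volume_Ico, tsub_self]

theorem U_top_pos {n : ℕ} {T : ℝ → ℝ} {ix : ℝ → Fin n} {s : St n} (hG : Good T ix s)
    {A : Finset (Fin n)} (hA : A ⊆ s.S) (hne : A.Nonempty) : 0 < U (top s A) := by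
  obtain ⟨i, hi⟩ := hne
  have hsub : Ico (s.t i) (s.t i + s.l i) ⊆ top s A := fun x hx => mem_top.2 ⟨i, hi, hx⟩
  refine lt_of_lt_of_le ?_ (measure_mono hsub)
  have h1 := hG.tile.sub i (hA hi)
  have h2 := hG.ha
  have h3 := hG.hb
  rw [U_sub measurableSet_Ico (fun x hx => ⟨by linarith [hx.1], by linarith [hx.2]⟩),
    Real.volume_Ico]
  exact ENNReal.ofReal_pos.2 (by linarith [hG.tile.pos i (hA hi)])

end IR

open IR in
/-- IR -/
theorem irr : Stm.irr := by
  intro n T ix s hT hG A hAS hAne hAne' hc
  obtain ⟨c, hcA, hcB⟩ := hc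
  have hTm : Measurable T := hT.measurable
  set C := top s A with hC
  set D := top s (s.S \ A) with hD
  set K := Ico s.a s.b with hK
  set N : Set ℝ := K \ top s s.S with hN
  have hNm : MeasurableSet N := measurableSet_Ico.diff (top_meas s s.S)
  have hN0 : U N = 0 := by
    refine le_antisymm ?_ bot_le
    calc U N ≤ volume N := Measure.restrict_apply_le _ _
      _ = 0 := null hG.tile
  set E : Set ℝ := {x | ∃ k : ℕ, T^[k] x ∈ C ∧ ∀ j < k, T^[j] x ∉ K} with hE
  have hEm : MeasurableSet E := by
    have : E = ⋃ k : ℕ, ((T^[k]) ⁻¹' C ∩ ⋂ j ∈ Finset.range k, ((T^[j]) ⁻¹' K)ᶜ) := by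
      ext x
      simp only [hE, mem_ofPred_eq, mem_iUnion, mem_inter_iff, mem_preimage, mem_iInter,
        Finset.mem_range, mem_compl_iff]
    rw [this]
    refine MeasurableSet.iUnion fun k => ?_
    refine ((hTm.iterate k) (top_meas s A)).inter ?_
    exact Finset.measurableSet_biInter _ fun j _ => ((hTm.iterate j) measurableSet_Ico).compl
  -- a.e. point has an orbit avoiding `N`
  have hae : ∀ᵐ x ∂U, ∀ k : ℕ, T^[k] x ∉ N := by
    rw [ae_all_iff]
    intro k
    have h1 := (hT.toMeasurePreserving.iterate k).measure_preimage hNm.nullMeasurableSet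
    rw [hN0] at h1
    rw [ae_iff]
    have e : {a | ¬ T^[k] a ∉ N} = T^[k] ⁻¹' N := by
      ext a
      simp
    rw [e]
    exact h1
  have hsub : E ≤ᵐ[U] T ⁻¹' E := by
    filter_upwards [hae] with x hx hxE
    obtain ⟨k, hk, hj⟩ := hxE
    show T x ∈ E
    rcases Nat.eq_zero_or_pos k with rfl | hk0
    · rw [Function.iterate_zero, id] at hk
      obtain ⟨i, hi, hxi⟩ := mem_top.1 hk
      have hiS := hAS hi
      have hw : 0 < (s.w i).length := List.length_pos_iff.2 (hG.wne i hiS)
      have hdyn := (hG.dyn i hiS x hxi).1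
      refine ⟨(s.w i).length - 1, ?_, ?_⟩
      · rw [← Function.iterate_succ_apply, Nat.succ_eq_add_one, Nat.sub_add_cancel hw]
        have hnN := hx (s.w i).length
        rw [hdyn] at hnN ⊢
        have him := hG.tile.subIm i hiS
        have hyK : x + s.d i ∈ K := ⟨by linarith [hxi.1], by linarith [hxi.2]⟩
        have hyc : c ≤ x + s.d i := by linarith [hxi.1, (hcA i hi).2]
        have hyt : x + s.d i ∈ top s s.S := by
          by_contra hcon
          exact hnN ⟨hyK, hcon⟩
        obtain ⟨j, hjS, hyj⟩ := mem_top.1 hyt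
        by_cases hjA : j ∈ A
        · exact mem_top.2 ⟨j, hjA, hyj⟩
        · exfalso
          have := (hcB j (Finset.mem_sdiff.2 ⟨hjS, hjA⟩)).1
          linarith [hyj.2]
      · intro j hj'
        rw [← Function.iterate_succ_apply]
        exact hG.ret i hiS x hxi (j + 1) (Nat.succ_pos j) (by omega)
    · refine ⟨k - 1, ?_, ?_⟩
      · rw [← Function.iterate_succ_apply, Nat.succ_eq_add_one, Nat.sub_add_cancel hk0]
        exact hk
      · intro j hj'
        rw [← Function.iterate_succ_apply]
        exact hj (j + 1) (by omega)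
  have hCE : C ⊆ E := fun x hx => ⟨0, by simpa using hx, fun j hj => absurd hj (Nat.not_lt_zero j)⟩
  have hDE : Disjoint D E := by
    rw [Set.disjoint_left]
    rintro x hxD ⟨k, hk, hj⟩
    obtain ⟨i, hi, hxi⟩ := mem_top.1 hxD
    have hi' := Finset.mem_sdiff.1 hi
    rcases Nat.eq_zero_or_pos k with rfl | hk0
    · rw [Function.iterate_zero, id] at hk
      obtain ⟨j, hjA, hxj⟩ := mem_top.1 hk
      have hij : i ≠ j := by
        rintro rfl
        exact hi'.2 hjA
      rcases hG.tile.sep i hi'.1 j (hAS hjA) hij with h1 | h1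
      · linarith [hxi.2, hxj.1]
      · linarith [hxj.2, hxi.1]
    · have h1 := hj 0 hk0
      rw [Function.iterate_zero, id] at h1
      have h2 := hG.tile.sub i hi'.1
      exact h1 ⟨by linarith [hxi.1], by linarith [hxi.2]⟩
  have hBne : (s.S \ A).Nonempty := by
    rw [Finset.sdiff_nonempty]
    intro hSA
    exact hAne' (Finset.Subset.antisymm hAS hSA)
  have hCpos := U_top_pos hG hAS hAne
  have hDpos := U_top_pos hG Finset.sdiff_subset hBne
  rcases hT.ae_empty_or_univ_of_ae_le_preimage' hEm.nullMeasurableSet hsub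
    (measure_ne_top _ _) with h2 | h2
  · have h3 := measure_congr h2
    rw [measure_empty] at h3
    have h4 : U C ≤ U E := measure_mono hCE
    rw [h3] at h4
    exact absurd (lt_of_lt_of_le hCpos h4) (lt_irrefl _)
  · have h3 : U Eᶜ = 0 := by
      rw [← ae_eq_univ]
      exact h2
    have h4 : U D ≤ U Eᶜ := measure_mono (Set.disjoint_left.1 hDE)
    rw [h3] at h4
    exact absurd (lt_of_lt_of_le hDpos h4) (lt_irrefl _)

end R970.WM
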