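import Pool.Agent.R970.WM.Stm2

/-! Project WM (helper970), piece IW by helper780. -/

open MeasureTheory Set Filter Topology

namespace R970.WM

namespace IWx

lemma los_mem {n : ℕ} {s : ℕ → St n} {α β : ℕ → Fin n} {x0 : ℝ} (h : RSeq s α β x0) (j : ℕ) :
    los (s j) (α j) (β j) ∈ (s j).S := by
  unfold los
  split_ifs
  · exact (h.bot j).1
  · exact (h.top j).1

lemma los_pos {n : ℕ} {s : ℕ → St n} {α β : ℕ → Fin n} {x0 : ℝ} (h : RSeq s α β x0) (j : ℕ) :
    0 < (s j).l (los (s j) (α j) (β j)) := (h.tile j).pos _ (los_mem h j)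

lemma step_b {n : ℕ} {s : ℕ → St n} {α β : ℕ → Fin n} {x0 : ℝ} (h : RSeq s α β x0) (j : ℕ) :
    (s (j + 1)).b = (s j).b - (s j).l (los (s j) (α j) (β j)) := by
  rw [h.step j]
  unfold cutR los
  by_cases h1 : (s j).l (β j) < (s j).l (α j)
  · simp only [if_pos h1]
  · have h2 : (s j).l (α j) < (s j).l (β j) := lt_of_le_of_ne (not_lt.mp h1) (h.nt j)
    simp only [if_neg h1, if_pos h2]

lemma step_l {n : ℕ} {s : ℕ → St n} {α β : ℕ → Fin n} {x0 : ℝ} (h : RSeq s α β x0) (j : ℕ)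
    (i : Fin n) (hi : win (s j) (α j) (β j) ≠ i) : (s (j + 1)).l i = (s j).l i := by
  rw [h.step j]
  unfold win at hi
  unfold cutR
  by_cases h1 : (s j).l (β j) < (s j).l (α j)
  · simp only [if_pos h1] at hi ⊢
    exact Function.update_of_ne (fun h => hi h.symm) _ _
  · have h2 : (s j).l (α j) < (s j).l (β j) := lt_of_le_of_ne (not_lt.mp h1) (h.nt j)
    simp only [if_neg h1] at hi
    simp only [if_neg h1, if_pos h2]
    exact Function.update_of_ne (fun h => hi h.symm) _ _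

lemma b_anti {n : ℕ} {s : ℕ → St n} {α β : ℕ → Fin n} {x0 : ℝ} (h : RSeq s α β x0) :
    Antitone (fun j => (s j).b) := by
  apply antitone_nat_of_succ_le
  intro j
  rw [step_b h j]
  linarith [los_pos h j]

lemma l_const {n : ℕ} {s : ℕ → St n} {α β : ℕ → Fin n} {x0 : ℝ} (h : RSeq s α β x0) (i : Fin n)
    (m : ℕ) (hm : ∀ k, m ≤ k → win (s k) (α k) (β k) ≠ i) (k : ℕ) (hk : m ≤ k) :
    (s k).l i = (s m).l i := by
  induction k, hk using Nat.le_induction with
  | base => rfl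
  | succ k hk ih => rw [step_l h k i (hm k hk), ih]

lemma fin_loss {n : ℕ} {s : ℕ → St n} {α β : ℕ → Fin n} {x0 : ℝ} (h : RSeq s α β x0) (i : Fin n)
    (m : ℕ) (hm : ∀ k, m ≤ k → win (s k) (α k) (β k) ≠ i) :
    ∃ m', ∀ k, m' ≤ k → los (s k) (α k) (β k) ≠ i := by
  by_contra hcon
  push Not at hcon
  obtain ⟨k1, hk1, hl1⟩ := hcon m
  have hpos : 0 < (s m).l i := by
    rw [← l_const h i m hm k1 hk1, ← hl1]
    exact los_pos h k1
  have key : ∀ N : ℕ, ∃ k, m ≤ k ∧ (s k).b ≤ (s m).b - N * (s m).l i := by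
    intro N
    induction N with
    | zero => exact ⟨m, le_refl m, by simp⟩
    | succ N ih =>
      obtain ⟨k, hk, hb⟩ := ih
      obtain ⟨k', hk', hl'⟩ := hcon k
      refine ⟨k' + 1, by omega, ?_⟩
      have h1 : (s k').b ≤ (s k).b := b_anti h hk'
      rw [step_b h k', hl', l_const h i m hm k' (by omega)]
      push_cast
      linarith
  obtain ⟨N, hN⟩ := exists_nat_gt (((s m).b - x0) / (s m).l i)
  obtain ⟨k, _, hb⟩ := key N
  rw [div_lt_iff₀ hpos] at hN
  linarith [h.lb k]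

end IWx

open IWx in
theorem infWin : Stm.infWin := by
  intro n s α β x0 h
  have key : ∀ i : Fin n, ∃ m, ∀ k, m ≤ k → ¬ WinsIO s α β i →
      win (s k) (α k) (β k) ≠ i ∧ los (s k) (α k) (β k) ≠ i := by
    intro i
    by_cases hi : WinsIO s α β i
    · exact ⟨0, fun _ _ hn => absurd hi hn⟩
    · have hi' := hi
      unfold WinsIO at hi'
      push Not at hi'
      obtain ⟨m, hm⟩ := hi'
      obtain ⟨m', hm'⟩ := fin_loss h i m hm
      exact ⟨max m m', fun k hk _ => ⟨hm k ((le_max_left _ _).trans hk),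
        hm' k ((le_max_right _ _).trans hk)⟩⟩
  choose M hM using key
  refine ⟨Finset.univ.sup M, fun j hj => ?_⟩
  have hMj : ∀ i, M i ≤ j := fun i => (Finset.le_sup (Finset.mem_univ i)).trans hj
  constructor
  · by_contra hcon
    exact (hM _ j (hMj _) hcon).1 rfl
  · by_contra hcon
    exact (hM _ j (hMj _) hcon).2 rfl

end R970.WM
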