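import Pool.Agent.R970.WM.Stm2

set_option autoImplicit false

open MeasureTheory Set Filter Topology

namespace R970.WM

theorem joint (hU : Stm.haarUpd) (hR : Stm.haarReach) (hC : Stm.cnt) (hO : Stm.comp)
    (hW : Stm.wordsFix) (hP : Stm.pairFix) : Stm.joint := by
  intro G _ _ _ _ _ _ _ _ _ ν _ _ W _ _ _ R hRc n T ix hT hix s0 hs0 ha hb hw M hM hMb hinv
  haveI hUf : IsFiniteMeasure U := by unfold U; infer_instance
  obtain ⟨𝒩, h𝒩c, h𝒩⟩ := hC n s0
  have hwf := hW G ν W R hRc n T ix hT.toMeasurePreserving hix M hM hMb hinv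
  have hN : ∀ᵐ x0 ∂U, x0 ∉ 𝒩 := ae_restrict_of_ae (h𝒩c.ae_notMem volume)
  have hI : ∀ᵐ x0 ∂U, x0 ∈ Ico (0 : ℝ) 1 := ae_restrict_mem measurableSet_Ico
  have hcon : ∀ a : G, Continuous (R a) := fun a => (R a).continuous
  have hcl : IsClosed {v : W | ∀ a : G, R a v = v} := by
    have : {v : W | ∀ a : G, R a v = v} = ⋂ a : G, {v : W | R a v = v} := by
      ext v; simp
    rw [this]
    exact isClosed_iInter fun a => isClosed_eq (hcon a) continuous_id
  have hms : MeasurableSet {p : (Fin n → G) × ℝ | ∀ a : G, R a (M p) = M p} := by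
    borelize W
    exact hM.measurable hcl.measurableSet
  rw [Measure.ae_prod_iff_ae_ae hms]
  rw [Measure.ae_ae_comm (p := fun g x => ∀ a : G, R a (M (g, x)) = M (g, x)) hms]
  filter_upwards [hwf, hN, hI] with x0 h1 h2 h3
  have hm : StronglyMeasurable (fun g : Fin n → G => M (g, x0)) :=
    hM.comp_measurable (measurable_id.prodMk measurable_const)
  obtain ⟨C, hC'⟩ := hMb
  refine hP G ν W R hRc n (fun g => M (g, x0)) hm ⟨C, fun g => hC' _⟩ ?_
  intro ε hε
  obtain ⟨δ, hδ, h4⟩ := h1 ε hε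
  obtain ⟨s', hreach, hgood, ha', hb', hlt, i, hi, i', hi', hne, hb1, hb2⟩ :=
    hO n T ix s0 x0 hT hs0 (by rw [ha]; exact h3.1) (by rw [hb]; exact h3.2) (h𝒩 x0 h2) δ hδ
  refine ⟨s'.w, ?_, i, i', hne, ?_, ?_⟩
  · refine hR G ν n x0 s0 s' hreach ?_
    rw [hw]
    exact (hU G ν n).1
  · exact h4 s' hgood ha' hb' hlt i hi hb1
  · exact h4 s' hgood ha' hb' hlt i' hi' hb2

end R970.WM
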