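import Pool.Agent.R970.WM.Stm2

open MeasureTheory Set Filter Topology

namespace R970.WM

theorem keep : Stm.keep := by
  intro n s α β α' β' hT _ hne hα hβ hl hα' hβ'
  have pα := hT.pos α hα.1
  have pβ := hT.pos β hβ.1
  have sα := hT.sub α hα.1
  have sβ := hT.subIm β hβ.1
  have eα := hα.2
  have eβ := hβ.2
  have eα' := hα'.2
  have eβ' := hβ'.2
  rcases lt_or_gt_of_ne hl with h | h
  · -- `l α < l β`
    have h' : ¬ s.l β < s.l α := not_lt.2 h.le
    have e : cutR s α β = { s with b := s.b - s.l α, t := Function.update s.t α (s.t β + s.l β - s.l α), l := Function.update s.l β (s.l β - s.l α), d := Function.update s.d α (s.d β + s.d α), w := Function.update s.w α (s.w β ++ s.w α) } := by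
      unfold cutR
      rw [if_neg h', if_pos h]
    have hmin : min (s.l α) (s.l β) = s.l α := min_eq_left h.le
    rw [e, hmin]
    refine ⟨⟨hα'.1, ?_⟩, ⟨hβ'.1, ?_⟩, rfl, rfl, rfl, ?_⟩
    · show Function.update s.t α (s.t β + s.l β - s.l α) α' = s.a
      by_cases hc : α' = α
      · exfalso
        rw [hc] at eα'
        linarith [sβ.1]
      · rw [Function.update_of_ne hc]
        exact eα'
    · show Function.update s.t α (s.t β + s.l β - s.l α) β' +
        Function.update s.d α (s.d β + s.d α) β' = s.a
      by_cases hc : β' = α
      · rw [hc, Function.update_self, Function.update_self]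
        rw [hc] at eβ'
        linarith
      · rw [Function.update_of_ne hc, Function.update_of_ne hc]
        exact eβ'
    · intro i
      show Function.update s.l β (s.l β - s.l α) i ≤ s.l i ∧
        s.l i - s.l α ≤ Function.update s.l β (s.l β - s.l α) i
      by_cases hc : i = β
      · rw [hc, Function.update_self]
        exact ⟨by linarith, le_refl _⟩
      · rw [Function.update_of_ne hc]
        exact ⟨le_refl _, by linarith⟩
  · -- `l β < l α`
    have h' : s.l β < s.l α := h
    have e : cutR s α β = { s with b := s.b - s.l β, l := Function.update s.l α (s.l α - s.l β), d := Function.update s.d β (s.d β + s.d α), w := Function.update s.w β (s.w β ++ s.w α) } := by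
      unfold cutR
      rw [if_pos h']
    have hmin : min (s.l α) (s.l β) = s.l β := min_eq_right h'.le
    rw [e, hmin]
    refine ⟨⟨hα'.1, eα'⟩, ⟨hβ'.1, ?_⟩, rfl, rfl, rfl, ?_⟩
    · show s.t β' + Function.update s.d β (s.d β + s.d α) β' = s.a
      by_cases hc : β' = β
      · exfalso
        rw [hc] at eβ'
        linarith [sα.1]
      · rw [Function.update_of_ne hc]
        exact eβ'
    · intro i
      show Function.update s.l α (s.l α - s.l β) i ≤ s.l i ∧
        s.l i - s.l β ≤ Function.update s.l α (s.l α - s.l β) i
      by_cases hc : i = α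
      · rw [hc, Function.update_self]
        exact ⟨by linarith, le_refl _⟩
      · rw [Function.update_of_ne hc]
        exact ⟨le_refl _, by linarith⟩

end R970.WM
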