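import Pool.Agent.R970.WM.Stm2

open MeasureTheory Set Filter Topology

namespace R970.WM.LDaux

variable {A : Type} [NormedRing A] [NormedAlgebra ℝ A] [CompleteSpace A] [FiniteDimensional ℝ A]

theorem strict_F (P Q : A →L[ℝ] A) (hPQ : ∀ z, P z + Q z = z) :
    map (fun z => NormedSpace.exp (P z) * NormedSpace.exp (Q z)) (𝓝 (0 : A)) = 𝓝 (1 : A) := by
  have h0 : (fun z : A => NormedSpace.exp (P z) * NormedSpace.exp (Q z)) 0 = 1 := by
    simp [NormedSpace.exp_zero]
  have hP : HasStrictFDerivAt (fun z : A => NormedSpace.exp (P z)) ((1 : A →L[ℝ] A).comp P) 0 := by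
    have h : HasStrictFDerivAt (NormedSpace.exp : A → A) (1 : A →L[ℝ] A) (P 0) := by
      rw [map_zero]; exact hasStrictFDerivAt_exp_zero
    exact h.comp (0 : A) P.hasStrictFDerivAt
  have hQ : HasStrictFDerivAt (fun z : A => NormedSpace.exp (Q z)) ((1 : A →L[ℝ] A).comp Q) 0 := by
    have h : HasStrictFDerivAt (NormedSpace.exp : A → A) (1 : A →L[ℝ] A) (Q 0) := by
      rw [map_zero]; exact hasStrictFDerivAt_exp_zero
    exact h.comp (0 : A) Q.hasStrictFDerivAt
  have hF := hP.mul' hQ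
  have hF' : HasStrictFDerivAt (fun z : A => NormedSpace.exp (P z) * NormedSpace.exp (Q z))
      ((ContinuousLinearEquiv.refl ℝ A : A ≃L[ℝ] A) : A →L[ℝ] A) 0 := by
    refine hF.congr_fderiv ?_
    ext z
    have := hPQ z
    simp [NormedSpace.exp_zero]
    rw [add_comm]; exact this
  have h2 := hF'.map_nhds_eq_of_equiv
  have h3 : NormedSpace.exp (P 0) * NormedSpace.exp (Q 0) = (1 : A) := h0
  simp only [h3] at h2
  exact h2

theorem local_mem (Γ : Set A) (hcl : IsClosed Γ) (h1 : (1 : A) ∈ Γ)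
    (hmul : ∀ x ∈ Γ, ∀ y ∈ Γ, x * y ∈ Γ) (hinv : ∀ x ∈ Γ, ∃ y ∈ Γ, x * y = 1 ∧ y * x = 1)
    (g : Submodule ℝ A) (hg : ∀ ξ, ξ ∈ g ↔ ∀ t : ℝ, NormedSpace.exp (t • ξ) ∈ Γ)
    (M : Submonoid A) (hM : ∀ ξ ∈ g, NormedSpace.exp ξ ∈ M) :
    ∃ V ∈ 𝓝 (1 : A), Γ ∩ V ⊆ M := by
  letI : NormedAlgebra ℚ A := NormedAlgebra.restrictScalars ℚ ℝ A
  by_contra hcon
  push Not at hcon
  obtain ⟨m, hm⟩ := g.exists_isCompl
  set e := Submodule.prodEquivOfIsCompl g m hm with he
  set P : A →L[ℝ] A := LinearMap.toContinuousLinearMap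
    (g.subtype ∘ₗ LinearMap.fst ℝ g m ∘ₗ (e.symm : A →ₗ[ℝ] g × m)) with hP
  set Q : A →L[ℝ] A := LinearMap.toContinuousLinearMap
    (m.subtype ∘ₗ LinearMap.snd ℝ g m ∘ₗ (e.symm : A →ₗ[ℝ] g × m)) with hQ
  have hPz : ∀ z, P z = ((e.symm z).1 : A) := fun z => rfl
  have hQz : ∀ z, Q z = ((e.symm z).2 : A) := fun z => rfl
  have hPg : ∀ z, P z ∈ g := fun z => by rw [hPz]; exact (e.symm z).1.2
  have hQm : ∀ z, Q z ∈ m := fun z => by rw [hQz]; exact (e.symm z).2.2
  have hPQ : ∀ z, P z + Q z = z := by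
    intro z
    rw [hPz, hQz]
    have := e.apply_symm_apply z
    rw [he, Submodule.coe_prodEquivOfIsCompl'] at this
    exact this
  have hmap := strict_F P Q hPQ
  have hex : ∀ k : ℕ, ∃ z : A, ‖z‖ < 1 / ((k : ℝ) + 1) ∧
      NormedSpace.exp (P z) * NormedSpace.exp (Q z) ∈ Γ ∧
      NormedSpace.exp (P z) * NormedSpace.exp (Q z) ∉ M := by
    intro k
    have hV : (fun z => NormedSpace.exp (P z) * NormedSpace.exp (Q z)) ''
        Metric.ball (0 : A) (1 / ((k : ℝ) + 1)) ∈ 𝓝 (1 : A) := by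
      rw [← hmap]
      exact image_mem_map (Metric.ball_mem_nhds _ (by positivity))
    obtain ⟨x, ⟨hxΓ, z, hz, rfl⟩, hxM⟩ := Set.not_subset.1 (hcon _ hV)
    exact ⟨z, by simpa using hz, hxΓ, hxM⟩
  choose z hz1 hz2 hz3 using hex
  have hexpg : ∀ ξ ∈ g, NormedSpace.exp ξ ∈ Γ := by
    intro ξ hξ
    have := (hg ξ).1 hξ 1
    rwa [one_smul] at this
  have hyΓ : ∀ k, NormedSpace.exp (Q (z k)) ∈ Γ := by
    intro k
    have h := hmul _ (hexpg _ (g.neg_mem (hPg (z k)))) _ (hz2 k)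
    rw [← mul_assoc, ← NormedSpace.exp_add_of_commute (Commute.neg_left (Commute.refl _)),
      neg_add_cancel, NormedSpace.exp_zero, one_mul] at h
    exact h
  have hy0 : ∀ k, Q (z k) ≠ 0 := by
    intro k h
    apply hz3 k
    rw [h, NormedSpace.exp_zero, mul_one]
    exact hM _ (hPg _)
  have hzt : Tendsto z atTop (𝓝 0) := by
    rw [tendsto_zero_iff_norm_tendsto_zero]
    exact squeeze_zero (fun k => norm_nonneg _) (fun k => (hz1 k).le)
      tendsto_one_div_add_atTop_nhds_zero_nat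
  have hyt : Tendsto (fun k => Q (z k)) atTop (𝓝 0) := by
    have := (Q.continuous.tendsto 0).comp hzt
    rw [map_zero] at this
    exact this
  haveI : ProperSpace A := FiniteDimensional.proper ℝ A
  obtain ⟨y, hy, φ, hφ, hu⟩ := (isCompact_sphere (0 : A) 1).tendsto_subseq
    (x := fun k => ‖Q (z k)‖⁻¹ • Q (z k)) (by
      intro k
      rw [mem_sphere_zero_iff_norm, norm_smul, norm_inv, norm_norm,
        inv_mul_cancel₀ (norm_ne_zero_iff.2 (hy0 k))])
  have hym : y ∈ m := by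
    have hmc : IsClosed (m : Set A) := m.closed_of_finiteDimensional
    exact hmc.mem_of_tendsto hu (Eventually.of_forall fun k => m.smul_mem _ (hQm _))
  have hpow : ∀ x ∈ Γ, ∀ n : ℕ, x ^ n ∈ Γ := by
    intro x hx n
    induction n with
    | zero => rw [pow_zero]; exact h1
    | succ n ih => rw [pow_succ]; exact hmul _ ih _ hx
  have hpos : ∀ t : ℝ, 0 ≤ t → NormedSpace.exp (t • y) ∈ Γ := by
    intro t ht
    have hnt : Tendsto (fun k => ‖Q (z (φ k))‖) atTop (𝓝 0) := by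
      have := (hyt.comp hφ.tendsto_atTop).norm
      rw [norm_zero] at this
      exact this
    have hfl : Tendsto (fun k => ((⌊t / ‖Q (z (φ k))‖⌋₊ : ℕ) : ℝ) * ‖Q (z (φ k))‖) atTop
        (𝓝 t) := by
      rw [tendsto_iff_dist_tendsto_zero]
      refine squeeze_zero (fun k => dist_nonneg) (fun k => ?_) hnt
      have hp : 0 < ‖Q (z (φ k))‖ := norm_pos_iff.2 (hy0 _)
      have a1 := Nat.floor_le (div_nonneg ht hp.le)
      have a2 := Nat.lt_floor_add_one (t / ‖Q (z (φ k))‖)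
      rw [le_div_iff₀ hp] at a1
      rw [div_lt_iff₀ hp] at a2
      rw [Real.dist_eq, abs_le]
      constructor <;> nlinarith
    have hlim : Tendsto (fun k => NormedSpace.exp
        ((⌊t / ‖Q (z (φ k))‖⌋₊ : ℕ) • Q (z (φ k)))) atTop (𝓝 (NormedSpace.exp (t • y))) := by
      apply Filter.Tendsto.exp
      have h := hfl.smul hu
      refine h.congr fun k => ?_
      have hp : ‖Q (z (φ k))‖ ≠ 0 := norm_ne_zero_iff.2 (hy0 _)
      simp only [Function.comp_apply]
      rw [smul_smul, mul_assoc, mul_inv_cancel₀ hp, mul_one, Nat.cast_smul_eq_nsmul]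
    refine hcl.mem_of_tendsto hlim (Eventually.of_forall fun k => ?_)
    rw [NormedSpace.exp_nsmul]
    exact hpow _ (hyΓ _) _
  have hyg : y ∈ g := by
    rw [hg]
    intro t
    rcases le_total 0 t with ht | ht
    · exact hpos t ht
    · obtain ⟨x, hx, hx1, hx2⟩ := hinv _ (hpos (-t) (by linarith))
      have : NormedSpace.exp (t • y) = x := by
        have hc : NormedSpace.exp (t • y) * NormedSpace.exp ((-t) • y) = 1 := by
          rw [← NormedSpace.exp_add_of_commute, ← add_smul, add_neg_cancel, zero_smul,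
            NormedSpace.exp_zero]
          rw [neg_smul]
          exact Commute.neg_right (Commute.refl _)
        calc NormedSpace.exp (t • y) = NormedSpace.exp (t • y) *
            (NormedSpace.exp ((-t) • y) * x) := by rw [hx1, mul_one]
          _ = x := by rw [← mul_assoc, hc, one_mul]
      rw [this]; exact hx
  have : y = 0 := by
    have := hm.disjoint.le_bot ⟨hyg, hym⟩
    simpa using this
  rw [this] at hy
  simp at hy

theorem gen (Γ : Set A) (hcl : IsClosed Γ) (h1 : (1 : A) ∈ Γ)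
    (hmul : ∀ x ∈ Γ, ∀ y ∈ Γ, x * y ∈ Γ) (hinv : ∀ x ∈ Γ, ∃ y ∈ Γ, x * y = 1 ∧ y * x = 1)
    (hconn : IsPreconnected Γ)
    (g : Submodule ℝ A) (hg : ∀ ξ, ξ ∈ g ↔ ∀ t : ℝ, NormedSpace.exp (t • ξ) ∈ Γ)
    (M : Submonoid A) (hM : ∀ ξ ∈ g, NormedSpace.exp ξ ∈ M) :
    ∀ x ∈ Γ, x ∈ closure (M : Set A) := by
  obtain ⟨V, hV, hVM⟩ := local_mem Γ hcl h1 hmul hinv g hg M hM
  haveI : PreconnectedSpace Γ := isPreconnected_iff_preconnectedSpace.1 hconn
  have hclopen : IsClopen {x : Γ | (x : A) ∈ closure (M : Set A)} := by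
    constructor
    · exact isClosed_closure.preimage continuous_subtype_val
    · rw [isOpen_iff_mem_nhds]
      rintro ⟨x, hxΓ⟩ hx
      obtain ⟨xi, hxi, hx1, hx2⟩ := hinv x hxΓ
      have hc : Continuous (fun x' : Γ => xi * (x' : A)) := by fun_prop
      have hpre : (fun x' : Γ => xi * (x' : A)) ⁻¹' V ∈ 𝓝 (⟨x, hxΓ⟩ : Γ) := by
        apply hc.continuousAt
        change V ∈ 𝓝 (xi * x)
        rw [hx2]; exact hV
      refine mem_of_superset hpre ?_
      rintro ⟨x', hx'Γ⟩ hx'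
      have hin : xi * x' ∈ M := hVM ⟨hmul _ hxi _ hx'Γ, hx'⟩
      have hm1 : x ∈ M.topologicalClosure := hx
      have hm2 : xi * x' ∈ M.topologicalClosure := M.le_topologicalClosure hin
      have := M.topologicalClosure.mul_mem hm1 hm2
      rw [← mul_assoc, hx1, one_mul] at this
      exact this
  have huniv := hclopen.eq_univ ⟨⟨1, h1⟩, subset_closure M.one_mem⟩
  intro x hx
  have : (⟨x, hx⟩ : Γ) ∈ {x : Γ | (x : A) ∈ closure (M : Set A)} := by
    rw [huniv]; trivial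
  exact this

end R970.WM.LDaux

namespace R970.WM

open R970.WM.LDaux in
theorem lieGen (h : Stm.lieSub) : Stm.lieGen := by
  intro W _ _ _ Γ hΓ h1 hmul hinv hin hconn
  obtain ⟨l0, ladd, lsm, _, _⟩ := h W Γ hΓ h1 hmul hinv hin
  letI : NormedAlgebra ℝ (W →L[ℂ] W) := NormedAlgebra.restrictScalars ℝ ℂ (W →L[ℂ] W)
  haveI : FiniteDimensional ℂ (W →L[ℂ] W) := inferInstance
  haveI : FiniteDimensional ℝ (W →L[ℂ] W) := FiniteDimensional.complexToReal (W →L[ℂ] W)
  haveI : CompleteSpace W := FiniteDimensional.complete ℂ W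
  haveI : CompleteSpace (W →L[ℂ] W) := FiniteDimensional.complete ℂ _
  let g : Submodule ℝ (W →L[ℂ] W) :=
    { carrier := lieOf Γ
      zero_mem' := l0
      add_mem' := fun {a b} ha hb => ladd a ha b hb
      smul_mem' := by
        intro c x hx
        have := lsm x hx c
        rwa [Complex.coe_smul] at this }
  have hg : ∀ ξ, ξ ∈ g ↔ ∀ t : ℝ, NormedSpace.exp (t • ξ) ∈ Γ := by
    intro ξ
    constructor
    · intro hξ t
      have h2 : ∀ t : ℝ, NormedSpace.exp ((t:ℂ) • ξ) ∈ Γ := hξ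
      have h3 := h2 t
      rwa [Complex.coe_smul] at h3
    · intro hξ
      show ∀ t : ℝ, NormedSpace.exp ((t:ℂ) • ξ) ∈ Γ
      intro t
      have h3 := hξ t
      rwa [← Complex.coe_smul] at h3
  exact gen Γ hΓ.isClosed h1 hmul hinv hconn g hg _
    (fun ξ hξ => Submonoid.subset_closure ⟨ξ, hξ, rfl⟩)

end R970.WM
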