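import Pool.Agent.R970.WM.Stm2

/-!
WM2-LG: almost every pair generates. Proof without analyticity: a nonzero representative function on a
compact connected group vanishes only on a null set (maximal translates of spaces of functions).
-/

open MeasureTheory Set Filter Topology
namespace R970.WM
namespace LGb

/-- left translation of functions -/
def tr {H : Type} [Group H] (g : H) : (H → ℂ) →ₐ[ℂ] (H → ℂ) where
  toFun f h := f (g⁻¹ * h)
  map_one' := rfl
  map_mul' _ _ := rfl
  map_zero' := rfl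
  map_add' _ _ := rfl
  commutes' _ := rfl

/-- representative functions -/
def RF {H : Type} [Group H] [TopologicalSpace H] (f : H → ℂ) : Prop :=
  ∃ V : Submodule ℂ (H → ℂ), V.FG ∧ f ∈ V ∧ (∀ v ∈ V, Continuous v) ∧
    ∀ g, V.map (tr g).toLinearMap ≤ V

variable {H : Type} [Group H] [TopologicalSpace H]

theorem RF.add {f f' : H → ℂ} (h : RF f) (h' : RF f') : RF (fun x => f x + f' x) := by
  obtain ⟨V, h1, h2, h3, h4⟩ := h
  obtain ⟨V', h1', h2', h3', h4'⟩ := h'
  refine ⟨V ⊔ V', h1.sup h1', ?_, ?_, ?_⟩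
  · exact Submodule.add_mem_sup h2 h2'
  · intro v hv
    obtain ⟨a, ha, b, hb, rfl⟩ := Submodule.mem_sup.1 hv
    exact (h3 a ha).add (h3' b hb)
  · intro g
    rw [Submodule.map_sup]
    exact sup_le_sup (h4 g) (h4' g)

theorem RF.mul {f f' : H → ℂ} (h : RF f) (h' : RF f') : RF (fun x => f x * f' x) := by
  obtain ⟨V, h1, h2, h3, h4⟩ := h
  obtain ⟨V', h1', h2', h3', h4'⟩ := h'
  refine ⟨V * V', h1.mul h1', Submodule.mul_mem_mul h2 h2', ?_, ?_⟩
  · intro v hv
    induction hv using Submodule.mul_induction_on' with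
    | mem_mul_mem a ha b hb => exact (h3 a ha).mul (h3' b hb)
    | add x _ y _ hx hy => exact hx.add hy
  · intro g
    rw [Submodule.map_mul]
    exact Submodule.mul_le.2 (fun a ha b hb => Submodule.mul_mem_mul (h4 g ha) (h4' g hb))

theorem RF.const (c : ℂ) : RF (fun _ : H => c) := by
  refine ⟨Submodule.span ℂ {fun _ => (1 : ℂ)}, Submodule.fg_span (Set.finite_singleton _), ?_, ?_, ?_⟩
  · rw [Submodule.mem_span_singleton]
    exact ⟨c, by funext x; simp⟩
  · intro v hv
    obtain ⟨a, rfl⟩ := Submodule.mem_span_singleton.1 hv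
    exact continuous_const
  · intro g
    rw [Submodule.map_span, Set.image_singleton]
    exact le_of_eq rfl

theorem RF.sum {ι : Type} (s : Finset ι) (f : ι → H → ℂ) (h : ∀ i ∈ s, RF (f i)) :
    RF (fun x => ∑ i ∈ s, f i x) := by
  classical
  induction s using Finset.induction_on with
  | empty => simpa using RF.const (H := H) 0
  | insert a s ha ih =>
    have h1 : (fun x => ∑ i ∈ insert a s, f i x) = fun x => f a x + ∑ i ∈ s, f i x := by
      funext x; rw [Finset.sum_insert ha]
    rw [h1]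
    exact (h a (Finset.mem_insert_self a s)).add
      (ih (fun i hi => h i (Finset.mem_insert_of_mem hi)))

theorem RF.prod {ι : Type} (s : Finset ι) (f : ι → H → ℂ) (h : ∀ i ∈ s, RF (f i)) :
    RF (fun x => ∏ i ∈ s, f i x) := by
  classical
  induction s using Finset.induction_on with
  | empty => simpa using RF.const (H := H) 1
  | insert a s ha ih =>
    have h1 : (fun x => ∏ i ∈ insert a s, f i x) = fun x => f a x * ∏ i ∈ s, f i x := by
      funext x; rw [Finset.prod_insert ha]
    rw [h1]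
    exact (h a (Finset.mem_insert_self a s)).mul
      (ih (fun i hi => h i (Finset.mem_insert_of_mem hi)))

theorem RF.det {ι : Type} [Fintype ι] [DecidableEq ι] (M : H → Matrix ι ι ℂ)
    (h : ∀ i j, RF (fun x => M x i j)) : RF (fun x => (M x).det) := by
  have h1 : (fun x => (M x).det) = fun x => ∑ σ : Equiv.Perm ι,
      ((fun _ : H => ((Equiv.Perm.sign σ : ℤ) : ℂ)) x * ∏ i, M x (σ i) i) := by
    funext x
    rw [Matrix.det_apply']
  rw [h1]
  apply RF.sum
  intro σ _
  exact (RF.const _).mul (RF.prod _ _ (fun i _ => h (σ i) i))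

/-- common zeros -/
def Zr (M : Submodule ℂ (H → ℂ)) : Set H := {h | ∀ m ∈ M, m h = 0}

theorem null [IsTopologicalGroup H] [ConnectedSpace H] [MeasurableSpace H] [BorelSpace H]
    (μ : Measure H) [IsProbabilityMeasure μ] [μ.IsMulLeftInvariant] {f : H → ℂ} (hf : RF f)
    (hne : ∃ h, f h ≠ 0) : μ {h | f h = 0} = 0 := by
  classical
  by_contra hpos
  obtain ⟨V, hV1, hV2, hV3, hV4⟩ := hf
  haveI hVf : FiniteDimensional ℂ V := Module.Finite.iff_fg.2 hV1
  have hmeas : ∀ M ≤ V, MeasurableSet (Zr M) := by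
    intro M hM
    have : Zr M = ⋂ m ∈ M, {h | m h = 0} := by
      ext h; simp [Zr]
    rw [this]
    apply IsClosed.measurableSet
    exact isClosed_biInter fun m hm => isClosed_eq (hV3 m (hM hm)) continuous_const
  -- maximal dimension
  let Pr : ℕ → Prop := fun d => ∃ M : Submodule ℂ (H → ℂ), M ≤ V ∧ f ∈ M ∧ μ (Zr M) ≠ 0 ∧
    Module.finrank ℂ M = d
  have hbd : ∀ d, Pr d → d ≤ Module.finrank ℂ V := by
    rintro d ⟨M, hM, -, -, rfl⟩
    exact Submodule.finrank_mono hM
  have hex : ∃ d, Pr d := by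
    refine ⟨_, Submodule.span ℂ {f}, ?_, Submodule.mem_span_singleton_self f, ?_, rfl⟩
    · rw [Submodule.span_singleton_le_iff_mem]; exact hV2
    · have : Zr (Submodule.span ℂ {f}) = {h | f h = 0} := by
        ext h
        constructor
        · intro hh; exact hh f (Submodule.mem_span_singleton_self f)
        · intro hh m hm
          obtain ⟨a, rfl⟩ := Submodule.mem_span_singleton.1 hm
          show a * f h = 0
          rw [show f h = 0 from hh, mul_zero]
      rw [this]; exact hpos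
  obtain ⟨d, ⟨M, hMV, hfM, hMμ, hMd⟩, hmax⟩ : ∃ d, Pr d ∧ ∀ d', Pr d' → d' ≤ d := by
    obtain ⟨d0, hd0⟩ := hex
    have h1 := Nat.findGreatest_spec (P := Pr) (hbd d0 hd0) hd0
    exact ⟨_, h1, fun d' hd' => Nat.le_findGreatest (hbd d' hd') hd'⟩
  let Mg : H → Submodule ℂ (H → ℂ) := fun g => M.map (tr g).toLinearMap
  have hMgV : ∀ g, Mg g ≤ V := fun g => (Submodule.map_mono hMV).trans (hV4 g)
  have htt : ∀ (g g' : H) (N : Submodule ℂ (H → ℂ)),
      (N.map (tr g').toLinearMap).map (tr g).toLinearMap = N.map (tr (g * g')).toLinearMap := by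
    intro g g' N
    rw [← Submodule.map_comp]
    congr 1
    ext v h
    show v (g'⁻¹ * (g⁻¹ * h)) = v ((g * g')⁻¹ * h)
    rw [mul_inv_rev, mul_assoc]
  have htr1 : ∀ N : Submodule ℂ (H → ℂ), N.map (tr (1 : H)).toLinearMap = N := by
    intro N
    have : (tr (1 : H)).toLinearMap = LinearMap.id := by
      ext v h
      show v ((1 : H)⁻¹ * h) = v h
      rw [inv_one, one_mul]
    rw [this, Submodule.map_id]
  have hZg : ∀ (g : H) (N : Submodule ℂ (H → ℂ)), μ (Zr (N.map (tr g).toLinearMap)) = μ (Zr N) := by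
    intro g N
    have h1 : Zr (N.map (tr g).toLinearMap) = (fun h => g⁻¹ * h) ⁻¹' (Zr N) := by
      ext h
      constructor
      · intro hh m hm
        exact hh _ (Submodule.mem_map_of_mem hm)
      · rintro hh _ ⟨m, hm, rfl⟩
        exact hh m hm
    rw [h1, measure_preimage_mul]
  have hinj : ∀ g : H, Function.Injective (tr g).toLinearMap := by
    intro g v w hvw
    funext h
    have := congrFun hvw (g * h)
    have e : ∀ u : H → ℂ, (tr g).toLinearMap u (g * h) = u h := by
      intro u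
      show u (g⁻¹ * (g * h)) = u h
      rw [inv_mul_cancel_left]
    rwa [e, e] at this
  haveI hfin : ∀ N ≤ V, FiniteDimensional ℂ N := fun N hN => Submodule.finiteDimensional_of_le hN
  have hrk : ∀ (g : H), Module.finrank ℂ (Mg g) = d := by
    intro g
    rw [← hMd]
    exact LinearEquiv.finrank_eq (Submodule.equivMapOfInjective _ (hinj g) M).symm
  have hdisj : ∀ g g' : H, Mg g ≠ Mg g' → μ (Zr (Mg g) ∩ Zr (Mg g')) = 0 := by
    intro g g' hgg
    by_contra hc
    have h1 : Zr (Mg g) ∩ Zr (Mg g') = Zr (Mg g ⊔ Mg g') := by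
      ext h
      constructor
      · rintro ⟨ha, hb⟩ m hm
        obtain ⟨x, hx, y, hy, rfl⟩ := Submodule.mem_sup.1 hm
        show x h + y h = 0
        rw [ha x hx, hb y hy, add_zero]
      · intro hh
        exact ⟨fun m hm => hh m (Submodule.mem_sup_left hm), fun m hm => hh m (Submodule.mem_sup_right hm)⟩
    rw [h1] at hc
    let N := (Mg g ⊔ Mg g').map (tr g⁻¹).toLinearMap
    have hN1 : N ≤ V := (Submodule.map_mono (sup_le (hMgV g) (hMgV g'))).trans (hV4 _)
    have hN2 : f ∈ N := by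
      have : f = (tr g⁻¹).toLinearMap ((tr g).toLinearMap f) := by
        funext h
        show f h = f (g⁻¹ * (g⁻¹⁻¹ * h))
        rw [inv_inv, inv_mul_cancel_left]
      rw [this]
      exact Submodule.mem_map_of_mem (Submodule.mem_sup_left (Submodule.mem_map_of_mem hfM))
    have hN3 : μ (Zr N) ≠ 0 := by rw [hZg]; exact hc
    have hN4 := hmax _ ⟨N, hN1, hN2, hN3, rfl⟩
    have hN5 : Module.finrank ℂ N = Module.finrank ℂ ↥(Mg g ⊔ Mg g') :=
      LinearEquiv.finrank_eq (Submodule.equivMapOfInjective _ (hinj _) _).symm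
    rw [hN5] at hN4
    haveI := hfin _ (sup_le (hMgV g) (hMgV g'))
    have h6 : Mg g = Mg g ⊔ Mg g' := Submodule.eq_of_le_of_finrank_le le_sup_left (by rw [hrk]; exact hN4)
    have h7 : Mg g' = Mg g ⊔ Mg g' := Submodule.eq_of_le_of_finrank_le le_sup_right (by rw [hrk]; exact hN4)
    exact hgg (h6.trans h7.symm)
  -- finitely many translates
  have hfinite : (Set.range Mg).Finite := by
    have h1 := Measure.finite_const_le_meas_of_disjoint_iUnion₀ μ (ε := μ (Zr M))
      (pos_iff_ne_zero.2 hMμ) (As := fun N : Set.range Mg => Zr N.1)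
      (by
        rintro ⟨_, g, rfl⟩
        exact (hmeas _ (hMgV g)).nullMeasurableSet)
      (by
        rintro ⟨_, g, rfl⟩ ⟨_, g', rfl⟩ hne'
        apply hdisj
        intro h
        exact hne' (Subtype.ext h))
      (measure_ne_top _ _)
    have h2 : {N : Set.range Mg | μ (Zr M) ≤ μ (Zr N.1)} = Set.univ := by
      ext N
      obtain ⟨_, g, rfl⟩ := N
      simp only [Set.mem_setOf_eq, Set.mem_univ, iff_true]
      exact le_of_eq (hZg g M).symm
    rw [h2] at h1
    exact Set.finite_coe_iff.1 (Set.finite_univ_iff.1 h1)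
  -- the fibres are closed
  have hclosed : ∀ N ∈ Set.range Mg, IsClosed {g | Mg g = N} := by
    rintro _ ⟨g0, rfl⟩
    have h1 : {g | Mg g = Mg g0} = ⋂ m ∈ M, {g | (tr g).toLinearMap m ∈ Mg g0} := by
      ext g
      simp only [Set.mem_iInter]
      constructor
      · intro (h : Mg g = Mg g0) m hm
        show (tr g).toLinearMap m ∈ Mg g0
        rw [← h]
        exact Submodule.mem_map_of_mem hm
      · intro h
        have h2 : Mg g ≤ Mg g0 := by
          rintro _ ⟨m, hm, rfl⟩
          exact h m hm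
        haveI := hfin _ (hMgV g0)
        exact Submodule.eq_of_le_of_finrank_le h2 (by rw [hrk, hrk])
    rw [h1]
    apply isClosed_biInter
    intro m hm
    haveI := hfin _ (hMgV g0)
    have h3 : IsClosed ((Mg g0 : Submodule ℂ (H → ℂ)) : Set (H → ℂ)) :=
      Submodule.closed_of_finiteDimensional _
    have h4 : Continuous (fun g : H => (tr g).toLinearMap m) := by
      apply continuous_pi
      intro h
      exact (hV3 m (hMV hm)).comp (continuous_inv.mul continuous_const)
    exact h3.preimage h4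
  have hM1 : Mg 1 = M := htr1 M
  have hopen : IsOpen {g | Mg g = M} := by
    rw [← isClosed_compl_iff]
    have h1 : {g | Mg g = M}ᶜ = ⋃ N ∈ (Set.range Mg \ {M}), {g | Mg g = N} := by
      ext g
      simp only [Set.mem_compl_iff, Set.mem_iUnion]
      constructor
      · intro h
        exact ⟨Mg g, ⟨⟨g, rfl⟩, fun h' => h h'⟩, rfl⟩
      · rintro ⟨N, ⟨-, hN2⟩, hN3⟩ h'
        have e1 : Mg g = N := hN3
        have e2 : Mg g = M := h'
        exact hN2 (e1.symm.trans e2)
    rw [h1]
    exact (hfinite.subset Set.diff_subset).isClosed_biUnion (fun N hN => hclosed N hN.1)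
  have hall : {g | Mg g = M} = Set.univ :=
    IsClopen.eq_univ ⟨hclosed M ⟨1, hM1⟩, hopen⟩ ⟨1, hM1⟩
  obtain ⟨h0, hh0⟩ := nonempty_of_measure_ne_zero hMμ
  obtain ⟨h, hh⟩ := hne
  apply hh
  have h5 : Mg (h0 * h⁻¹) = M := by
    have : (h0 * h⁻¹) ∈ {g | Mg g = M} := by rw [hall]; trivial
    exact this
  have h6 : (tr (h0 * h⁻¹)).toLinearMap f ∈ M := by
    rw [← h5]
    exact Submodule.mem_map_of_mem hfM
  have h7 := hh0 _ h6
  have h8 : (tr (h0 * h⁻¹)).toLinearMap f h0 = f h := by
    show f ((h0 * h⁻¹)⁻¹ * h0) = f h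
    rw [mul_inv_rev, inv_inv, inv_mul_cancel_right]
  rw [← h8]
  exact h7

/-- the operator of a group element -/
noncomputable def op {G W : Type} [Group G] [NormedAddCommGroup W] [InnerProductSpace ℂ W]
    (R : G →* (W ≃ₗᵢ[ℂ] W)) (a : G) : W →L[ℂ] W :=
  ((R a).toContinuousLinearEquiv : W →L[ℂ] W)

theorem op_apply {G W : Type} [Group G] [NormedAddCommGroup W] [InnerProductSpace ℂ W]
    (R : G →* (W ≃ₗᵢ[ℂ] W)) (a : G) (v : W) : op R a v = R a v := rfl

theorem op_mul {G W : Type} [Group G] [NormedAddCommGroup W] [InnerProductSpace ℂ W]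
    (R : G →* (W ≃ₗᵢ[ℂ] W)) (a b : G) : op R (a * b) = op R a * op R b := by
  ext v
  show R (a * b) v = R a (R b v)
  rw [map_mul]
  rfl

theorem op_cont {W : Type} [NormedAddCommGroup W] [InnerProductSpace ℂ W] [FiniteDimensional ℂ W]
    (S : H →* (W ≃ₗᵢ[ℂ] W)) (hS : ∀ w, Continuous fun h => S h w) : Continuous (op S) :=
  continuous_clm_apply.2 hS

theorem RF.coef {W : Type} [NormedAddCommGroup W] [InnerProductSpace ℂ W] [FiniteDimensional ℂ W]
    (S : H →* (W ≃ₗᵢ[ℂ] W)) (hS : ∀ w, Continuous fun h => S h w)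
    (ℓ : (W →L[ℂ] W) →ₗ[ℂ] ℂ) : RF (fun h => ℓ (op S h)) := by
  let Λ : ((W →L[ℂ] W) →ₗ[ℂ] ℂ) →ₗ[ℂ] (H → ℂ) :=
    { toFun := fun ℓ h => ℓ (op S h)
      map_add' := fun _ _ => rfl
      map_smul' := fun _ _ => rfl }
  refine ⟨LinearMap.range Λ, Module.Finite.iff_fg.1 inferInstance, ⟨ℓ, rfl⟩, ?_, ?_⟩
  · rintro _ ⟨l, rfl⟩
    exact (LinearMap.continuous_of_finiteDimensional l).comp (op_cont S hS)
  · rintro g _ ⟨_, ⟨l, rfl⟩, rfl⟩
    refine ⟨l ∘ₗ LinearMap.mulLeft ℂ (op S g⁻¹), ?_⟩
    funext h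
    show l (op S g⁻¹ * op S h) = l (op S (g⁻¹ * h))
    rw [op_mul]

end LGb

open LGb in
theorem lg (hLP : Stm.lgPair) : Stm.lg := by
  intro G _ _ _ _ _ _ _ _ _ ν _ _ W _ _ _ R hR
  have hRw : ∀ w, Continuous fun a => R a w := fun w =>
    hR.comp (continuous_id.prodMk continuous_const)
  have hop : Continuous (op R) := op_cont R hRw
  obtain ⟨_, ⟨p0, rfl⟩, _, ⟨q0, rfl⟩, hpq⟩ := hLP W (Set.range (op R)) (isCompact_range hop)
    ⟨1, by ext v; show R 1 v = v; rw [map_one]; rfl⟩
    (by
      rintro _ ⟨a, rfl⟩ _ ⟨b, rfl⟩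
      exact ⟨a * b, op_mul R a b⟩)
    (by
      rintro _ ⟨a, rfl⟩
      refine ⟨_, ⟨a⁻¹, rfl⟩, ?_, ?_⟩
      · rw [← op_mul, mul_inv_cancel]; ext v; show R 1 v = v; rw [map_one]; rfl
      · rw [← op_mul, inv_mul_cancel]; ext v; show R 1 v = v; rw [map_one]; rfl)
    (by
      rintro _ ⟨a, rfl⟩ v w
      exact (R a).inner_map_map v w)
    (isPreconnected_range hop)
  let D : G × G → (W →ₗ[ℂ] W × W) := fun x =>
    LinearMap.prod ((op R x.1 : W →L[ℂ] W).toLinearMap - LinearMap.id)
      ((op R x.2 : W →L[ℂ] W).toLinearMap - LinearMap.id)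
  have hD : ∀ x v, D x v = (R x.1 v - v, R x.2 v - v) := fun x v => rfl
  let K : Submodule ℂ W := LinearMap.ker (D (p0, q0))
  have hK : ∀ k ∈ K, ∀ a : G, R a k = k := by
    intro k hk a
    have h1 : D (p0, q0) k = 0 := hk
    rw [hD] at h1
    have h2 := (Prod.mk.inj h1).1
    have h3 := (Prod.mk.inj h1).2
    exact hpq k (sub_eq_zero.1 h2) (sub_eq_zero.1 h3) _ ⟨a, rfl⟩
  obtain ⟨U, hU⟩ := K.exists_isCompl
  have hker : LinearMap.ker (D (p0, q0) ∘ₗ U.subtype) = ⊥ := by
    rw [LinearMap.ker_eq_bot']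
    intro u hu
    have h1 : (u : W) ∈ K := hu
    have h2 : (u : W) ∈ K ⊓ U := ⟨h1, u.2⟩
    rw [hU.inf_eq_bot] at h2
    exact Subtype.ext ((Submodule.mem_bot ℂ).1 h2)
  obtain ⟨C, hC⟩ := LinearMap.exists_leftInverse_of_injective _ hker
  let F : G × G → (U →ₗ[ℂ] U) := fun x => C ∘ₗ D x ∘ₗ U.subtype
  let f : G × G → ℂ := fun x => LinearMap.det (F x)
  have hf0 : f (p0, q0) ≠ 0 := by
    have h1 : F (p0, q0) = LinearMap.id := hC
    show LinearMap.det (F (p0, q0)) ≠ 0
    rw [h1, LinearMap.det_id]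
    exact one_ne_zero
  have hRF : RF f := by
    let b := Module.finBasis ℂ U
    have h1 : f = fun x => (LinearMap.toMatrix b b (F x)).det := by
      funext x
      exact (LinearMap.det_toMatrix b (F x)).symm
    rw [h1]
    apply RF.det
    intro i j
    let l1 : (W →L[ℂ] W) →ₗ[ℂ] ℂ :=
      { toFun := fun A => b.repr (C (A (b j : W), 0)) i
        map_add' := by
          intro A B
          have : ((A + B) (b j : W), (0 : W)) = (A (b j : W), (0 : W)) + (B (b j : W), (0 : W)) := by
            simp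
          rw [this, map_add, map_add]; rfl
        map_smul' := by
          intro c A
          have : ((c • A) (b j : W), (0 : W)) = c • (A (b j : W), (0 : W)) := by simp
          rw [this, map_smul, map_smul]; rfl }
    let l2 : (W →L[ℂ] W) →ₗ[ℂ] ℂ :=
      { toFun := fun A => b.repr (C (0, A (b j : W))) i
        map_add' := by
          intro A B
          have : ((0 : W), (A + B) (b j : W)) = ((0 : W), A (b j : W)) + ((0 : W), B (b j : W)) := by
            simp
          rw [this, map_add, map_add]; rfl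
        map_smul' := by
          intro c A
          have : ((0 : W), (c • A) (b j : W)) = c • ((0 : W), A (b j : W)) := by simp
          rw [this, map_smul, map_smul]; rfl }
    have h2 : (fun x : G × G => LinearMap.toMatrix b b (F x) i j) = fun x =>
        (l1 (op (R.comp (MonoidHom.fst G G)) x) + l2 (op (R.comp (MonoidHom.snd G G)) x)) +
          (- (b.repr (C ((b j : W), (b j : W))) i)) := by
      funext x
      rw [LinearMap.toMatrix_apply]
      have h3 : F x (b j) = C (R x.1 (b j : W), 0) + C (0, R x.2 (b j : W)) -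
          C ((b j : W), (b j : W)) := by
        rw [← map_add, ← map_sub]
        show C (D x (b j : W)) = _
        rw [hD]
        congr 1
        simp
      rw [h3, map_sub, map_add]
      show _ = (b.repr (C (R x.1 (b j : W), 0)) i + b.repr (C (0, R x.2 (b j : W))) i) + _
      simp [sub_eq_add_neg]
    rw [h2]
    refine RF.add (RF.add ?_ ?_) (RF.const _)
    · exact RF.coef (R.comp (MonoidHom.fst G G)) (fun w => (hRw w).comp continuous_fst) l1
    · exact RF.coef (R.comp (MonoidHom.snd G G)) (fun w => (hRw w).comp continuous_snd) l2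
  have hnull := null (ν.prod ν) hRF ⟨_, hf0⟩
  have hae : ∀ᵐ x ∂(ν.prod ν), f x ≠ 0 := by
    rw [ae_iff]
    simpa using hnull
  filter_upwards [hae] with x hx v hv1 hv2
  have hv : v ∈ K ⊔ U := by rw [hU.sup_eq_top]; trivial
  obtain ⟨k, hk, u, hu, rfl⟩ := Submodule.mem_sup.1 hv
  have hk' := hK k hk
  have hu1 : R x.1 u = u := by
    have := hv1
    rw [map_add, hk'] at this
    exact add_left_cancel this
  have hu2 : R x.2 u = u := by
    have := hv2
    rw [map_add, hk'] at this
    exact add_left_cancel this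
  have hFu : F x ⟨u, hu⟩ = 0 := by
    show C (D x u) = 0
    rw [hD, hu1, hu2, sub_self]
    exact map_zero C
  have hunit : IsUnit (F x) := by
    rw [LinearMap.isUnit_iff_isUnit_det]
    exact isUnit_iff_ne_zero.2 hx
  have hbij := (Module.End.isUnit_iff (F x)).1 hunit
  have hu0 : (⟨u, hu⟩ : U) = 0 := hbij.1 (by rw [hFu, map_zero])
  have hu0' : u = 0 := congrArg Subtype.val hu0
  intro a
  rw [hu0', add_zero]
  exact hk' a

end R970.WM
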