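import Pool.Agent.R970.WM.Stm2

set_option autoImplicit false

/-!
# LI: a generic pair in a Lie algebra of skew operators (helper586)
-/

open MeasureTheory Set Filter Topology

namespace R970.WM

namespace LIAux

/-- the rank grows under a perturbation that moves a vector of the kernel out of the range -/
theorem rank_lt {V W : Type*} [AddCommGroup V] [Module ℂ V]
    [NormedAddCommGroup W] [NormedSpace ℂ W] [FiniteDimensional ℂ W] (A C : V →ₗ[ℂ] W) (v : V)
    (hv : A v = 0) (hC : C v ∉ LinearMap.range A) :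
    ∃ t : ℝ, Module.finrank ℂ (LinearMap.range A) <
      Module.finrank ℂ (LinearMap.range (A + (t : ℂ) • C)) := by
  classical
  set r := Module.finrank ℂ (LinearMap.range A) with hr
  let b := Module.finBasis ℂ (LinearMap.range A)
  have hb : ∀ i, ∃ e, A e = b i := fun i => (b i).2
  choose e he using hb
  let f : ℝ → Option (Fin r) → W := fun t o =>
    o.elim (C v) (fun i => A (e i) + (t : ℂ) • C (e i))
  have hf0 : LinearIndependent ℂ (f 0) := by
    rw [linearIndependent_option]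
    have h1 : f 0 ∘ (fun i : Fin r => (i : Option (Fin r))) = fun i => ((b i : LinearMap.range A) : W) := by
      funext i
      simp [f, he]
    constructor
    · have h2 := b.linearIndependent.map' (LinearMap.range A).subtype
        (Submodule.ker_subtype _)
      rw [h1]
      exact h2
    · intro h
      apply hC
      have h2 : Submodule.span ℂ (range (f 0 ∘ (fun i : Fin r => (i : Option (Fin r))))) ≤
          LinearMap.range A := by
        rw [Submodule.span_le]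
        rintro _ ⟨i, rfl⟩
        rw [h1]
        exact (b i).2
      exact h2 h
  have hfc : Continuous f := by
    refine continuous_pi fun o => ?_
    cases o with
    | none => exact continuous_const
    | some i =>
      have : Continuous fun t : ℝ => A (e i) + (t : ℂ) • C (e i) := by fun_prop
      exact this
  have hev : ∀ᶠ t in 𝓝 (0 : ℝ), LinearIndependent ℂ (f t) :=
    hfc.continuousAt.eventually ((isOpen_setOfPred_linearIndependent).mem_nhds hf0)
  have hev2 : ∀ᶠ t in 𝓝[≠] (0 : ℝ), LinearIndependent ℂ (f t) ∧ t ≠ 0 :=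
    (hev.filter_mono nhdsWithin_le_nhds).and self_mem_nhdsWithin
  obtain ⟨t, ht, ht0⟩ := hev2.exists
  refine ⟨t, ?_⟩
  set R := LinearMap.range (A + (t : ℂ) • C) with hR
  have hmem : ∀ o, f t o ∈ R := by
    intro o
    cases o with
    | none =>
      refine ⟨(t : ℂ)⁻¹ • v, ?_⟩
      have ht' : (t : ℂ) ≠ 0 := by exact_mod_cast ht0
      change A ((t : ℂ)⁻¹ • v) + (t : ℂ) • C ((t : ℂ)⁻¹ • v) = C v
      rw [map_smul, map_smul, hv, smul_zero, zero_add, smul_smul, mul_inv_cancel₀ ht', one_smul]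
    | some i =>
      refine ⟨e i, ?_⟩
      simp [f]
  have hli : LinearIndependent ℂ (fun o => (⟨f t o, hmem o⟩ : R)) :=
    LinearIndependent.of_comp R.subtype ht
  have := hli.fintype_card_le_finrank
  rw [Fintype.card_option, Fintype.card_fin] at this
  omega

theorem exists_max {α : Type*} (S : Set α) (h : S.Nonempty) (f : α → ℕ) (N : ℕ)
    (hf : ∀ a, f a ≤ N) : ∃ a ∈ S, ∀ b ∈ S, f b ≤ f a := by
  have hb : BddAbove (f '' S) := ⟨N, by rintro _ ⟨a, _, rfl⟩; exact hf a⟩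
  obtain ⟨a, ha, hae⟩ := Nat.sSup_mem (h.image f) hb
  refine ⟨a, ha, fun b hb' => ?_⟩
  rw [hae]
  exact le_csSup hb ⟨b, hb', rfl⟩

end LIAux

open LIAux

theorem lin : Stm.lin := by
  intro W _ _ _ 𝔤 h0 hadd hsm hbr hsk
  have hne : 𝔤.Nonempty := ⟨0, h0⟩
  -- `ξ` of maximal rank
  obtain ⟨ξ, hξ, hξmax⟩ := exists_max 𝔤 hne
    (fun ζ => Module.finrank ℂ (LinearMap.range (ζ : W →ₗ[ℂ] W))) (Module.finrank ℂ W)
    (fun ζ => Submodule.finrank_le _)
  let V0 : Submodule ℂ W := LinearMap.ker (ξ : W →ₗ[ℂ] W)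
  have hV0 : ∀ v, v ∈ V0 ↔ ξ v = 0 := fun v => LinearMap.mem_ker
  -- step 1
  have h1 : ∀ ζ ∈ 𝔤, ∀ v ∈ V0, ∀ u ∈ V0, inner ℂ (ζ v) u = 0 := by
    intro ζ hζ v hv u hu
    have hr : ζ v ∈ LinearMap.range (ξ : W →ₗ[ℂ] W) := by
      by_contra hcon
      obtain ⟨t, ht⟩ := rank_lt (ξ : W →ₗ[ℂ] W) (ζ : W →ₗ[ℂ] W) v ((hV0 v).1 hv) hcon
      have h2 := hξmax (ξ + (t : ℂ) • ζ) (hadd _ hξ _ (hsm _ hζ t))
      have h3 : ((ξ + (t : ℂ) • ζ : W →L[ℂ] W) : W →ₗ[ℂ] W) =
          (ξ : W →ₗ[ℂ] W) + (t : ℂ) • (ζ : W →ₗ[ℂ] W) := rfl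
      rw [h3] at h2
      omega
    obtain ⟨w, hw⟩ := hr
    have hw' : ξ w = ζ v := hw
    rw [← hw', hsk ξ hξ, (hV0 u).1 hu, inner_zero_right, neg_zero]
  -- step 2
  obtain ⟨η, hη, hηmax⟩ := exists_max 𝔤 hne
    (fun ζ => Module.finrank ℂ (LinearMap.range ((ζ : W →ₗ[ℂ] W).comp V0.subtype)))
    (Module.finrank ℂ W) (fun ζ => Submodule.finrank_le _)
  refine ⟨ξ, hξ, η, hη, ?_⟩
  intro v hv hηv ζ hζ
  have hvV : v ∈ V0 := (hV0 v).2 hv
  have h2 : ζ v ∈ LinearMap.range ((η : W →ₗ[ℂ] W).comp V0.subtype) := by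
    by_contra hcon
    obtain ⟨t, ht⟩ := rank_lt ((η : W →ₗ[ℂ] W).comp V0.subtype)
      ((ζ : W →ₗ[ℂ] W).comp V0.subtype) ⟨v, hvV⟩ hηv hcon
    have h3 := hηmax (η + (t : ℂ) • ζ) (hadd _ hη _ (hsm _ hζ t))
    have h4 : ((η + (t : ℂ) • ζ : W →L[ℂ] W) : W →ₗ[ℂ] W).comp V0.subtype =
        (η : W →ₗ[ℂ] W).comp V0.subtype + (t : ℂ) • (ζ : W →ₗ[ℂ] W).comp V0.subtype := rfl
    rw [h4] at h3
    omega
  obtain ⟨u, hu⟩ := h2
  have hu' : η (u : W) = ζ v := hu
  -- step 3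
  have h5 : inner ℂ (ζ v) (ζ v) = 0 := by
    have h6 : inner ℂ (ζ v) (η (u : W)) = - inner ℂ (η (ζ v)) (u : W) := by
      rw [hsk η hη, neg_neg]
    have h7 := h1 (η * ζ - ζ * η) (hbr _ hη _ hζ) v hvV u u.2
    have h8 : (η * ζ - ζ * η) v = η (ζ v) := by
      have : (η * ζ - ζ * η) v = η (ζ v) - ζ (η v) := rfl
      rw [this, hηv, map_zero, sub_zero]
    rw [h8] at h7
    calc inner ℂ (ζ v) (ζ v) = inner ℂ (ζ v) (η (u : W)) := by rw [hu']
      _ = 0 := by rw [h6, h7, neg_zero]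
  exact inner_self_eq_zero.1 h5

end R970.WM
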