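import Pool.Agent.R970.WM.Stm2

open MeasureTheory Set Filter Topology
open scoped InnerProductSpace

namespace R970.WM

namespace LN

open scoped InnerProductSpace

variable {W : Type} [NormedAddCommGroup W] [InnerProductSpace ℂ W] [FiniteDimensional ℂ W]

/-- tuples of vectors, i.e. operators on `W` -/
abbrev HS (W : Type) [NormedAddCommGroup W] [InnerProductSpace ℂ W] : Type :=
  PiLp 2 (fun _ : Fin (Module.finrank ℂ W) => W)

/-- the standard basis -/
noncomputable abbrev eb (W : Type) [NormedAddCommGroup W] [InnerProductSpace ℂ W]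
    [FiniteDimensional ℂ W] : OrthonormalBasis (Fin (Module.finrank ℂ W)) ℂ W :=
  stdOrthonormalBasis ℂ W

/-- the operator of a tuple -/
noncomputable def op (v : HS W) (w : W) : W := ∑ k, (⟪eb W k, w⟫_ℂ) • v k

/-- the operator of a tuple, as a linear map -/
noncomputable def opL (v : HS W) : W →ₗ[ℂ] W where
  toFun := op v
  map_add' x y := by
    simp only [op, inner_add_right, add_smul, Finset.sum_add_distrib]
  map_smul' c x := by
    simp only [op, inner_smul_right, mul_smul, Finset.smul_sum, RingHom.id_apply]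

theorem op_basis (v : HS W) (i : Fin (Module.finrank ℂ W)) : op v (eb W i) = v i := by
  unfold op
  rw [Finset.sum_eq_single i]
  · rw [orthonormal_iff_ite.mp (eb W).orthonormal i i, if_pos rfl, one_smul]
  · intro k _ hk
    rw [orthonormal_iff_ite.mp (eb W).orthonormal k i, if_neg hk, zero_smul]
  · intro h
    exact absurd (Finset.mem_univ _) h

variable {G : Type} [Group G] (R : G →* (W ≃ₗᵢ[ℂ] W))

/-- the action on operators -/
noncomputable def act (a : G) (v : HS W) : HS W :=
  WithLp.toLp 2 (fun i => R a (op v (R a⁻¹ (eb W i))))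

theorem act_apply (a : G) (v : HS W) (i : Fin (Module.finrank ℂ W)) :
    act R a v i = R a (op v (R a⁻¹ (eb W i))) := rfl

theorem R_mul (a b : G) (w : W) : R (a * b) w = R a (R b w) := by
  rw [map_mul]; rfl

theorem R_inv (a : G) (w : W) : R a (R a⁻¹ w) = w := by
  rw [← R_mul, mul_inv_cancel, map_one]; rfl

theorem R_inv' (a : G) (w : W) : R a⁻¹ (R a w) = w := by
  rw [← R_mul, inv_mul_cancel, map_one]; rfl

theorem op_act (a : G) (v : HS W) (w : W) : op (act R a v) w = R a (op v (R a⁻¹ w)) := by
  have h : opL (act R a v) =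
      ((R a).toLinearEquiv : W →ₗ[ℂ] W) ∘ₗ opL v ∘ₗ ((R a⁻¹).toLinearEquiv : W →ₗ[ℂ] W) := by
    apply (eb W).toBasis.ext
    intro i
    rw [OrthonormalBasis.coe_toBasis]
    change op (act R a v) (eb W i) = R a (op v (R a⁻¹ (eb W i)))
    rw [op_basis, act_apply]
  exact congrArg (fun f : W →ₗ[ℂ] W => f w) h

theorem act_mul (a b : G) (v : HS W) : act R (a * b) v = act R a (act R b v) := by
  ext i
  rw [act_apply, act_apply, op_act, R_mul, mul_inv_rev, R_mul]

theorem act_one (v : HS W) : act R 1 v = v := by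
  ext i
  rw [act_apply, inv_one, map_one]
  change op v (eb W i) = v i
  exact op_basis v i

theorem op_add (v w : HS W) (x : W) : op (v + w) x = op v x + op w x := by
  simp only [op, PiLp.add_apply, smul_add, Finset.sum_add_distrib]

theorem op_smul (c : ℂ) (v : HS W) (x : W) : op (c • v) x = c • op v x := by
  simp only [op, PiLp.smul_apply, Finset.smul_sum]
  exact Finset.sum_congr rfl fun k _ => smul_comm _ _ _

theorem act_add (a : G) (v w : HS W) : act R a (v + w) = act R a v + act R a w := by
  ext i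
  rw [PiLp.add_apply, act_apply, act_apply, act_apply, op_add, map_add]

theorem act_smul (a : G) (c : ℂ) (v : HS W) : act R a (c • v) = c • act R a v := by
  ext i
  rw [PiLp.smul_apply, act_apply, act_apply, op_smul, map_smul]

theorem sum_norm (A : W →ₗ[ℂ] W) (b : OrthonormalBasis (Fin (Module.finrank ℂ W)) ℂ W) :
    ((∑ i, ‖A (b i)‖ ^ 2 : ℝ) : ℂ) = LinearMap.trace ℂ W (LinearMap.adjoint A ∘ₗ A) := by
  rw [LinearMap.trace_eq_sum_inner _ b]
  push_cast
  refine Finset.sum_congr rfl fun i _ => ?_
  rw [Function.comp_apply, LinearMap.adjoint_inner_right, inner_self_eq_norm_sq_to_K]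
  rfl

theorem norm_act (a : G) (v : HS W) : ‖act R a v‖ = ‖v‖ := by
  have h1 : ‖act R a v‖ ^ 2 = ‖v‖ ^ 2 := by
    rw [PiLp.norm_sq_eq_of_L2, PiLp.norm_sq_eq_of_L2]
    have h2 := sum_norm (opL v) ((eb W).map (R a⁻¹))
    have h3 := sum_norm (opL v) (eb W)
    have h4 : (∑ i, ‖opL v (((eb W).map (R a⁻¹)) i)‖ ^ 2 : ℝ) = ∑ i, ‖opL v (eb W i)‖ ^ 2 := by
      have := h2.trans h3.symm
      exact_mod_cast this
    have h5 : ∀ i, ‖act R a v i‖ = ‖opL v (((eb W).map (R a⁻¹)) i)‖ := by
      intro i
      rw [act_apply, LinearIsometryEquiv.norm_map, OrthonormalBasis.map_apply]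
      rfl
    have h6 : ∀ i, ‖v i‖ = ‖opL v (eb W i)‖ := by
      intro i
      change ‖v i‖ = ‖op v (eb W i)‖
      rw [op_basis]
    simp only [h5, h6]
    exact h4
  exact (sq_eq_sq₀ (norm_nonneg _) (norm_nonneg _)).mp h1

/-- the linear map of the action -/
noncomputable def actL (a : G) : HS W →ₗ[ℂ] HS W where
  toFun := act R a
  map_add' := act_add R a
  map_smul' := act_smul R a

/-- the representation on operators -/
noncomputable def rep : G →* (HS W ≃ₗᵢ[ℂ] HS W) where
  toFun a :=
    { toLinearEquiv := LinearEquiv.ofLinearMap (actL R a) (actL R a⁻¹)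
        (by
          apply LinearMap.ext
          intro v
          change act R a (act R a⁻¹ v) = v
          rw [← act_mul, mul_inv_cancel, act_one])
        (by
          apply LinearMap.ext
          intro v
          change act R a⁻¹ (act R a v) = v
          rw [← act_mul, inv_mul_cancel, act_one])
      norm_map' := fun v => norm_act R a v }
  map_one' := by
    ext1 v
    exact act_one R v
  map_mul' a b := by
    ext1 v
    exact act_mul R a b v

theorem rep_apply (a : G) (v : HS W) : rep R a v = act R a v := rfl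

/-- the rank one operator -/
noncomputable def rk (w : W) : HS W := WithLp.toLp 2 (fun i => (⟪w, eb W i⟫_ℂ) • w)

theorem op_rk (w x : W) : op (rk w) x = (⟪w, x⟫_ℂ) • w := by
  unfold op rk
  simp only [smul_smul]
  rw [← Finset.sum_smul]
  congr 1
  rw [← (eb W).sum_inner_mul_inner w x]
  exact Finset.sum_congr rfl fun i _ => mul_comm _ _

theorem rk_continuous : Continuous (rk : W → HS W) := by
  unfold rk
  refine (PiLp.continuous_toLp 2 _).comp (continuous_pi fun i => ?_)
  exact (continuous_id.inner continuous_const).smul continuous_id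

theorem rk_equiv (a : G) (c : ℂ) (hc : ‖c‖ = 1) (w : W) : rk (c • R a w) = rep R a (rk w) := by
  ext i
  rw [rep_apply, act_apply, op_rk]
  change (⟪c • R a w, eb W i⟫_ℂ) • (c • R a w) = R a ((⟪w, R a⁻¹ (eb W i)⟫_ℂ) • w)
  rw [map_smul, inner_smul_left, smul_smul]
  congr 1
  have h1 : ⟪R a w, eb W i⟫_ℂ = ⟪w, R a⁻¹ (eb W i)⟫_ℂ := by
    conv_lhs => rw [← R_inv R a (eb W i)]
    rw [LinearIsometryEquiv.inner_map_map]
  have h2 : (starRingEnd ℂ) c * c = 1 := by
    rw [mul_comm, Complex.mul_conj, Complex.normSq_eq_norm_sq, hc]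
    norm_num
  rw [h1, mul_right_comm, h2, one_mul]

end LN

open LN in
theorem line (hfib : Stm.fiber) : Stm.line := by
  intro G _ _ _ _ _ _ _ _ _ ν _ _ W _ _ _ R hR n T ix hT hix s0 hs0 ha hb hw
  have hrep : Continuous (fun p : G × HS W => rep R p.1 p.2) := by
    refine (PiLp.continuous_toLp 2 _).comp (continuous_pi fun i => ?_)
    have key : Continuous (fun p : G × HS W =>
        ∑ k, (⟪eb W k, R p.1⁻¹ (eb W i)⟫_ℂ) • p.2 k) := by
      refine continuous_finsetSum _ fun k _ => ?_
      refine Continuous.smul ?_ ?_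
      · refine Continuous.inner continuous_const ?_
        exact hR.comp (continuous_fst.inv.prodMk continuous_const)
      · exact (PiLp.continuous_apply 2 _ k).comp continuous_snd
    exact hR.comp (continuous_fst.prodMk key)
  have h := hfib G ν (HS W) (rep R) hrep n T ix hT hix s0 hs0 ha hb hw
  filter_upwards [h] with g hg c hc F hF hFb hFe
  have h1 := hg (fun x => rk (F x)) (rk_continuous.comp_stronglyMeasurable hF) ?_ ?_
  · filter_upwards [h1] with x hx a
    have h2 := hx a
    have h3 : R a (F x) = (1:ℂ) • R a (F x) := (one_smul _ _).symm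
    rw [← rk_equiv R a 1 (by simp) (F x), one_smul] at h2
    have h4 := congrArg (fun v : HS W => op v (R a (F x))) h2
    simp only [op_rk] at h4
    by_cases h0 : F x = 0
    · exact ⟨0, by rw [h0]; simp⟩
    · have h5 : ⟪R a (F x), R a (F x)⟫_ℂ ≠ 0 := by
        rw [LinearIsometryEquiv.inner_map_map]
        exact inner_self_ne_zero.mpr h0
      refine ⟨(⟪R a (F x), R a (F x)⟫_ℂ)⁻¹ * ⟪F x, R a (F x)⟫_ℂ, ?_⟩
      rw [mul_smul, ← h4, smul_smul, inv_mul_cancel₀ h5, one_smul]
  · obtain ⟨C, hC⟩ := hFb
    obtain ⟨C', hC'⟩ := (isCompact_closedBall (0:W) C).exists_bound_of_continuousOn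
      (rk_continuous (W := W)).continuousOn
    exact ⟨C', fun x => hC' (F x) (by simpa using hC x)⟩
  · filter_upwards [hFe] with x hx
    rw [hx, rk_equiv R _ c hc]

end R970.WM
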