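import Pool.Agent.R970.WM.Stm2

open MeasureTheory Set Filter Topology

namespace R970.WM

theorem lp_expFix {W : Type} [NormedAddCommGroup W] [InnerProductSpace ℂ W] [FiniteDimensional ℂ W]
    (ξ : W →L[ℂ] W) (v : W) (h : ξ v = 0) : (NormedSpace.exp ξ) v = v := by
  have hs : HasSum (fun n : ℕ => ((n.factorial : ℂ)⁻¹) • ξ ^ n) (NormedSpace.exp ξ) :=
    NormedSpace.exp_series_hasSum_exp' (𝕂 := ℂ) ξ
  have hs2 := hs.mapL (ContinuousLinearMap.apply ℂ W v)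
  have hs3 : HasSum (fun n : ℕ => (ContinuousLinearMap.apply ℂ W v) (((n.factorial : ℂ)⁻¹) • ξ ^ n)) v := by
    have h0 : (ContinuousLinearMap.apply ℂ W v) (((Nat.factorial 0 : ℂ)⁻¹) • ξ ^ 0) = v := by
      simp
    have := hasSum_single (f := fun n : ℕ => (ContinuousLinearMap.apply ℂ W v) (((n.factorial : ℂ)⁻¹) • ξ ^ n)) 0 (by
      intro n hn
      obtain ⟨m, rfl⟩ := Nat.exists_eq_succ_of_ne_zero hn
      have : (ξ ^ (m+1)) v = 0 := by
        rw [pow_succ]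
        show (ξ ^ m) (ξ v) = 0
        rw [h, map_zero]
      show (((m+1).factorial : ℂ)⁻¹) • ((ξ ^ (m+1)) v) = 0
      rw [this, smul_zero])
    simpa [h0] using this
  exact hs2.unique hs3

theorem lp_small {W : Type} [NormedAddCommGroup W] [InnerProductSpace ℂ W] [FiniteDimensional ℂ W]
    (A : W →L[ℂ] W) (hA : ‖A‖ ≤ 1/2) (v : W) (h : (NormedSpace.exp A) v = v) : A v = 0 := by
  have hs : HasSum (fun n : ℕ => ((n.factorial : ℂ)⁻¹) • A ^ n) (NormedSpace.exp A) :=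
    NormedSpace.exp_series_hasSum_exp' (𝕂 := ℂ) A
  have hs2 := hs.mapL (ContinuousLinearMap.apply ℂ W v)
  have hs3 : HasSum (fun n : ℕ => ((n.factorial : ℂ)⁻¹) • ((A ^ n) v)) v := by
    have e : (ContinuousLinearMap.apply ℂ W v) (NormedSpace.exp A) = v := h
    rw [e] at hs2
    exact hs2
  have hs4 := (hasSum_nat_add_iff' 2).mpr hs3
  have e2 : v - ∑ i ∈ Finset.range 2, ((i.factorial : ℂ)⁻¹) • ((A ^ i) v) = - (A v) := by
    rw [Finset.sum_range_succ, Finset.sum_range_one]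
    simp
  rw [e2] at hs4
  have hg : HasSum (fun n : ℕ => (‖A v‖ / 4) * (1/2 : ℝ) ^ n) ((‖A v‖ / 4) * 2) := by
    have := hasSum_geometric_two
    exact this.mul_left _
  have hb := hs4.norm_le_of_bounded hg (by
    intro n
    have e3 : (A ^ (n+2)) v = (A ^ (n+1)) (A v) := by
      rw [pow_succ]; rfl
    rw [e3, norm_smul]
    have f1 : ‖(((n+2).factorial : ℂ)⁻¹)‖ ≤ 1/2 := by
      rw [norm_inv, Complex.norm_natCast]
      have : (2:ℝ) ≤ ((n+2).factorial : ℝ) := by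
        have h2 : 2 ≤ (n+2).factorial := by
          calc 2 ≤ n + 2 := by omega
            _ ≤ (n+2).factorial := Nat.self_le_factorial _
        exact_mod_cast h2
      rw [one_div]
      exact inv_anti₀ (by norm_num) this
    have f2 : ‖(A ^ (n+1)) (A v)‖ ≤ (1/2)^(n+1) * ‖A v‖ := by
      calc ‖(A ^ (n+1)) (A v)‖ ≤ ‖A ^ (n+1)‖ * ‖A v‖ := ContinuousLinearMap.le_opNorm _ _
        _ ≤ (1/2)^(n+1) * ‖A v‖ := by
          apply mul_le_mul_of_nonneg_right _ (norm_nonneg _)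
          calc ‖A ^ (n+1)‖ ≤ ‖A‖ ^ (n+1) := norm_pow_le' _ (Nat.succ_pos n)
            _ ≤ (1/2)^(n+1) := pow_le_pow_left₀ (norm_nonneg _) hA _
    calc ‖(((n+2).factorial : ℂ)⁻¹)‖ * ‖(A ^ (n+1)) (A v)‖ ≤ (1/2) * ((1/2)^(n+1) * ‖A v‖) := by
          apply mul_le_mul f1 f2 (norm_nonneg _) (by norm_num)
      _ = (‖A v‖ / 4) * (1/2 : ℝ) ^ n := by ring)
  rw [norm_neg] at hb
  have hn := norm_nonneg (A v)
  have : ‖A v‖ = 0 := by linarith
  exact norm_eq_zero.mp this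

theorem lp_pick {W : Type} [NormedAddCommGroup W] [InnerProductSpace ℂ W] [FiniteDimensional ℂ W]
    (ξ : W →L[ℂ] W) : ∃ t : ℝ, ∀ v : W, (NormedSpace.exp ((t:ℂ) • ξ)) v = v → ξ v = 0 := by
  have hpos : 0 < 2 * (‖ξ‖ + 1) := by positivity
  refine ⟨1 / (2 * (‖ξ‖ + 1)), ?_⟩
  intro v hv
  have hn : ‖(((1 / (2 * (‖ξ‖ + 1)) : ℝ)) : ℂ) • ξ‖ ≤ 1/2 := by
    rw [norm_smul, Complex.norm_real, Real.norm_of_nonneg (by positivity)]
    rw [div_mul_eq_mul_div, one_mul, div_le_iff₀ hpos]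
    linarith [norm_nonneg ξ]
  have h := lp_small _ hn v hv
  have h2 : (((1 / (2 * (‖ξ‖ + 1)) : ℝ)) : ℂ) • (ξ v) = 0 := h
  rcases smul_eq_zero.mp h2 with h3 | h3
  · exfalso
    have : (1 / (2 * (‖ξ‖ + 1)) : ℝ) = 0 := by exact_mod_cast h3
    have h4 : (0:ℝ) < 1 / (2 * (‖ξ‖ + 1)) := by positivity
    linarith
  · exact h3

theorem lgPair (hS : Stm.lieSub) (hG : Stm.lieGen) (hL : Stm.lin) : Stm.lgPair := by
  intro W _ _ _ Γ hc h1 hm hi hiso hpre
  obtain ⟨h0, hadd, hsmul, hbr, hsk⟩ := hS W Γ hc h1 hm hi hiso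
  obtain ⟨ξ, hξ, η, hη, hker⟩ := hL W (lieOf Γ) h0 hadd hsmul hbr hsk
  obtain ⟨t, ht⟩ := lp_pick ξ
  obtain ⟨s, hs⟩ := lp_pick η
  refine ⟨NormedSpace.exp ((t:ℂ) • ξ), hξ t, NormedSpace.exp ((s:ℂ) • η), hη s, ?_⟩
  intro v hv hw x hx
  have hz := hker v (ht v hv) (hs v hw)
  have hcl := hG W Γ hc h1 hm hi hiso hpre x hx
  have hsub : closure ((Submonoid.closure {y : W →L[ℂ] W | ∃ ξ ∈ lieOf Γ, y = NormedSpace.exp ξ} : Submonoid (W →L[ℂ] W)) : Set (W →L[ℂ] W)) ⊆ {y : W →L[ℂ] W | y v = v} := by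
    apply closure_minimal
    · intro y hy
      have key : ∀ z ∈ (Submonoid.closure {y : W →L[ℂ] W | ∃ ξ ∈ lieOf Γ, y = NormedSpace.exp ξ} : Submonoid (W →L[ℂ] W)), z v = v := by
        intro z hz'
        induction hz' using Submonoid.closure_induction with
        | mem y hy =>
          obtain ⟨ζ, hζ, rfl⟩ := hy
          exact lp_expFix ζ v (hz ζ hζ)
        | one => rfl
        | mul a b _ _ ha hb =>
          show a (b v) = v
          rw [hb, ha]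
      exact key y hy
    · exact isClosed_eq (ContinuousLinearMap.apply ℂ W v).continuous continuous_const
  exact hsub hcl

end R970.WM
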