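import Pool.Agent.R970.WM.Stm2

/-! LS (helper381): the Lie algebra of a compact group of isometries. -/

open MeasureTheory Set Filter Topology

namespace R970.WM.LSx

section alg
variable {A : Type} [NormedRing A] [NormOneClass A] [NormedAlgebra ℂ A] [CompleteSpace A]

theorem norm_exp_le (x : A) : ‖NormedSpace.exp x‖ ≤ Real.exp ‖x‖ := by
  have h1 : NormedSpace.exp x = ∑' n : ℕ, ((n.factorial : ℂ)⁻¹) • x ^ n := by
    rw [NormedSpace.exp_eq_tsum ℂ]
  have h2 : Summable (fun n : ℕ => ‖((n.factorial : ℂ)⁻¹) • x ^ n‖) :=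
    NormedSpace.norm_expSeries_summable' x
  rw [h1]
  refine (norm_tsum_le_tsum_norm h2).trans ?_
  rw [Real.exp_eq_exp_ℝ, NormedSpace.exp_eq_tsum_div]
  have h3 := Real.summable_pow_div_factorial ‖x‖
  refine h2.tsum_le_tsum (fun n => ?_) h3
  rw [norm_smul, norm_inv, Complex.norm_natCast, div_eq_inv_mul]
  exact mul_le_mul_of_nonneg_left (norm_pow_le x n) (by positivity)

omit [NormedAlgebra ℂ A] [CompleteSpace A] in
theorem pow_diff (a b : A) (M : ℝ) (hM : 1 ≤ M)
    (ha : ‖a‖ ≤ M) (hb : ‖b‖ ≤ M) (k : ℕ) : ‖a ^ k - b ^ k‖ ≤ k * M ^ k * ‖a - b‖ := by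
  have hM0 : 0 ≤ M := by linarith
  induction k with
  | zero => simp
  | succ k ih =>
    have e : a ^ (k + 1) - b ^ (k + 1) = a ^ k * (a - b) + (a ^ k - b ^ k) * b := by
      rw [pow_succ, pow_succ]; noncomm_ring
    have h1 : ‖a ^ k * (a - b)‖ ≤ M ^ k * ‖a - b‖ := by
      refine (norm_mul_le _ _).trans (mul_le_mul_of_nonneg_right ?_ (norm_nonneg _))
      exact (norm_pow_le a k).trans (pow_le_pow_left₀ (norm_nonneg _) ha k)
    have h2 : ‖(a ^ k - b ^ k) * b‖ ≤ (k * M ^ k * ‖a - b‖) * M := by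
      refine (norm_mul_le _ _).trans ?_
      exact mul_le_mul ih hb (norm_nonneg _) (by positivity)
    rw [e]
    refine (norm_add_le _ _).trans ?_
    have h3 : M ^ k * ‖a - b‖ ≤ M ^ (k + 1) * ‖a - b‖ := by
      apply mul_le_mul_of_nonneg_right _ (norm_nonneg _)
      rw [pow_succ]
      nlinarith [pow_nonneg hM0 k]
    push_cast
    have h4 : (k * M ^ k * ‖a - b‖) * M = k * M ^ (k + 1) * ‖a - b‖ := by ring
    rw [h4] at h2
    linarith

end alg

section alg2
variable {A : Type} [NormedRing A] [NormedAlgebra ℂ A] [CompleteSpace A]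

/-- the sequence `1 / n` -/
lemma seq_lim : Tendsto (fun n : ℕ => (1 / (n : ℂ))) atTop (nhdsWithin 0 {0}ᶜ) := by
  rw [tendsto_nhdsWithin_iff]
  refine ⟨?_, ?_⟩
  · have := tendsto_const_div_atTop_nhds_zero_nat (1 : ℝ)
    have h3 := (Complex.continuous_ofReal.tendsto (0 : ℝ)).comp this
    simpa [Function.comp_def] using h3
  · filter_upwards [eventually_gt_atTop 0] with n hn
    have : (n : ℂ) ≠ 0 := by exact_mod_cast hn.ne'
    simp [this]

omit [CompleteSpace A] in
/-- difference quotients along `1 / n` -/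
lemma seq_deriv {g : ℂ → A} {g' : A} (h : HasDerivAt g g' 0) :
    Tendsto (fun n : ℕ => (n : ℂ) • (g (1 / (n : ℂ)) - g 0)) atTop (𝓝 g') := by
  have h1 := hasDerivAt_iff_tendsto_slope_zero.mp h
  have h3 := h1.comp seq_lim
  refine h3.congr fun n => ?_
  simp only [Function.comp_apply, zero_add]
  rw [one_div, inv_inv]

end alg2

section alg
variable {A : Type} [NormedRing A] [NormOneClass A] [NormedAlgebra ℂ A] [CompleteSpace A]

theorem trot (x y : A) : Tendsto (fun n : ℕ => (NormedSpace.exp ((1 / (n : ℂ)) • x) *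
    NormedSpace.exp ((1 / (n : ℂ)) • y)) ^ n) atTop (𝓝 (NormedSpace.exp (x + y))) := by
  set g : ℂ → A := fun t => NormedSpace.exp (t • x) * NormedSpace.exp (t • y) -
    NormedSpace.exp (t • (x + y)) with hg
  have hgd : HasDerivAt g 0 0 := by
    have h1 := hasDerivAt_exp_smul_const (𝕂 := ℂ) x (0 : ℂ)
    have h2 := hasDerivAt_exp_smul_const (𝕂 := ℂ) y (0 : ℂ)
    have h3 := hasDerivAt_exp_smul_const (𝕂 := ℂ) (x + y) (0 : ℂ)
    have h4 := (h1.mul h2).sub h3
    have e : NormedSpace.exp ((0 : ℂ) • x) * x * NormedSpace.exp ((0 : ℂ) • y) +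
        NormedSpace.exp ((0 : ℂ) • x) * (NormedSpace.exp ((0 : ℂ) • y) * y) -
        NormedSpace.exp ((0 : ℂ) • (x + y)) * (x + y) = 0 := by simp
    rw [e] at h4
    exact h4
  have hg0 : g 0 = 0 := by
    rw [hg]
    simp
  have hlim : Tendsto (fun n : ℕ => (n : ℂ) • g (1 / (n : ℂ))) atTop (𝓝 0) := by
    have h := seq_deriv hgd
    simp only [hg0, sub_zero] at h
    exact h
  set K : ℝ := Real.exp (‖x‖ + ‖y‖) with hK
  have hbound : ∀ᶠ n : ℕ in atTop, ‖(NormedSpace.exp ((1 / (n : ℂ)) • x) *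
      NormedSpace.exp ((1 / (n : ℂ)) • y)) ^ n - NormedSpace.exp (x + y)‖ ≤
      K * ‖(n : ℂ) • g (1 / (n : ℂ))‖ := by
    filter_upwards [eventually_gt_atTop 0] with n hn
    have hn0 : (n : ℂ) ≠ 0 := by exact_mod_cast hn.ne'
    have hnR : (0 : ℝ) < n := by exact_mod_cast hn
    set M : ℝ := Real.exp ((‖x‖ + ‖y‖) / n) with hM
    have hM1 : 1 ≤ M := Real.one_le_exp (by positivity)
    have hnorm : ∀ z : A, ‖(1 / (n : ℂ)) • z‖ = ‖z‖ / n := by
      intro z
      rw [norm_smul, norm_div, norm_one, Complex.norm_natCast]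
      ring
    have ha : ‖NormedSpace.exp ((1 / (n : ℂ)) • x) * NormedSpace.exp ((1 / (n : ℂ)) • y)‖ ≤ M := by
      refine (norm_mul_le _ _).trans ?_
      rw [hM, add_div, Real.exp_add, ← hnorm x, ← hnorm y]
      exact mul_le_mul (norm_exp_le _) (norm_exp_le _) (norm_nonneg _) (Real.exp_pos _).le
    have hb : ‖NormedSpace.exp ((1 / (n : ℂ)) • (x + y))‖ ≤ M := by
      refine (norm_exp_le _).trans ?_
      rw [hM, hnorm]
      apply Real.exp_le_exp.mpr
      exact div_le_div_of_nonneg_right (norm_add_le _ _) hnR.le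
    have hbn : NormedSpace.exp ((1 / (n : ℂ)) • (x + y)) ^ n = NormedSpace.exp (x + y) := by
      letI : NormedAlgebra ℚ A := NormedAlgebra.restrictScalars ℚ ℂ A
      rw [← NormedSpace.exp_nsmul]
      congr 1
      rw [← Nat.cast_smul_eq_nsmul ℂ, smul_smul, mul_one_div, div_self hn0, one_smul]
    have key := pow_diff _ _ M hM1 ha hb n
    rw [hbn] at key
    have hMn : M ^ n = K := by
      rw [hM, hK, ← Real.exp_nat_mul]
      congr 1
      field_simp
    rw [hMn] at key
    refine key.trans (le_of_eq ?_)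
    rw [norm_smul, Complex.norm_natCast]
    show (n : ℝ) * K * ‖g (1 / (n : ℂ))‖ = _
    ring
  rw [tendsto_iff_norm_sub_tendsto_zero]
  have hlim2 : Tendsto (fun n : ℕ => K * ‖(n : ℂ) • g (1 / (n : ℂ))‖) atTop (𝓝 0) := by
    have := (hlim.norm).const_mul K
    simpa using this
  exact squeeze_zero' (Eventually.of_forall fun n => norm_nonneg _) hbound hlim2

end alg

section alg2
variable {A : Type} [NormedRing A] [NormedAlgebra ℂ A] [CompleteSpace A]

lemma exp_cont : Continuous (NormedSpace.exp : A → A) := by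
  letI : NormedAlgebra ℚ A := NormedAlgebra.restrictScalars ℚ ℂ A
  exact NormedSpace.exp_continuous

lemma exp_conj (x y : A) :
    NormedSpace.exp (NormedSpace.exp x * y * NormedSpace.exp (-x)) =
      NormedSpace.exp x * NormedSpace.exp y * NormedSpace.exp (-x) := by
  letI : NormedAlgebra ℚ A := NormedAlgebra.restrictScalars ℚ ℂ A
  letI := NormedSpace.invertibleExp x
  have h1 := NormedSpace.exp_units_conj (unitOfInvertible (NormedSpace.exp x)) y
  rw [val_unitOfInvertible, val_inv_unitOfInvertible, NormedSpace.invOf_exp] at h1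
  exact h1

lemma exp_mul_neg (x : A) : NormedSpace.exp x * NormedSpace.exp (-x) = 1 := by
  letI : NormedAlgebra ℚ A := NormedAlgebra.restrictScalars ℚ ℂ A
  rw [← NormedSpace.exp_add_of_commute (Commute.neg_right (Commute.refl x)), add_neg_cancel,
    NormedSpace.exp_zero]

end alg2

end R970.WM.LSx

namespace R970.WM

open LSx in
/-- LS -/
theorem lieSub : Stm.lieSub := by
  intro W _ _ _ Γ hΓ h1 hmul _ hiso
  have hcomp : CompleteSpace W := FiniteDimensional.complete ℂ W
  have hcl : IsClosed Γ := hΓ.isClosed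
  have hpow : ∀ x ∈ Γ, ∀ n : ℕ, x ^ n ∈ Γ := by
    intro x hx n
    induction n with
    | zero => rw [pow_zero]; exact h1
    | succ n ih => rw [pow_succ]; exact hmul _ ih _ hx
  have hdiv : ∀ (ξ : W →L[ℂ] W) (t : ℝ) (n : ℕ),
      (1 / (n : ℂ)) • ((t : ℂ) • ξ) = ((t / n : ℝ) : ℂ) • ξ := by
    intro ξ t n
    rw [smul_smul]
    congr 1
    push_cast
    ring
  have hzero : (0 : W →L[ℂ] W) ∈ lieOf Γ := by
    intro t
    rw [smul_zero, NormedSpace.exp_zero]
    exact h1
  have hadd : ∀ ξ ∈ lieOf Γ, ∀ η ∈ lieOf Γ, ξ + η ∈ lieOf Γ := by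
    intro ξ hξ η hη t
    rcases subsingleton_or_nontrivial W with hs | hs
    · have : NormedSpace.exp ((t : ℂ) • (ξ + η)) = (1 : W →L[ℂ] W) :=
        ContinuousLinearMap.ext fun v => Subsingleton.elim _ _
      rw [this]
      exact h1
    · rw [smul_add]
      refine hcl.mem_of_tendsto (trot ((t : ℂ) • ξ) ((t : ℂ) • η)) (Eventually.of_forall fun n => ?_)
      rw [hdiv, hdiv]
      exact hpow _ (hmul _ (hξ _) _ (hη _)) n
  have hsmul : ∀ ξ ∈ lieOf Γ, ∀ c : ℝ, (c : ℂ) • ξ ∈ lieOf Γ := by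
    intro ξ hξ c t
    rw [smul_smul, ← Complex.ofReal_mul]
    exact hξ _
  have hclosed : IsClosed (lieOf Γ) := by
    have e : lieOf Γ = ⋂ t : ℝ, (fun ξ : W →L[ℂ] W => NormedSpace.exp ((t : ℂ) • ξ)) ⁻¹' Γ := by
      ext ξ
      simp [lieOf]
    rw [e]
    refine isClosed_iInter fun t => hcl.preimage ?_
    exact exp_cont.comp (continuous_const_smul _)
  refine ⟨hzero, hadd, hsmul, ?_, ?_⟩
  · intro ξ hξ η hη
    -- Ad
    have hAd : ∀ s : ℝ, NormedSpace.exp ((s : ℂ) • ξ) * η * NormedSpace.exp (-((s : ℂ) • ξ)) ∈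
        lieOf Γ := by
      intro s t
      have e1 : (t : ℂ) • (NormedSpace.exp ((s : ℂ) • ξ) * η * NormedSpace.exp (-((s : ℂ) • ξ))) =
          NormedSpace.exp ((s : ℂ) • ξ) * ((t : ℂ) • η) * NormedSpace.exp (-((s : ℂ) • ξ)) := by
        rw [mul_smul_comm, smul_mul_assoc]
      rw [e1, exp_conj]
      refine hmul _ (hmul _ (hξ s) _ (hη t)) _ ?_
      have e2 : -((s : ℂ) • ξ) = ((-s : ℝ) : ℂ) • ξ := by
        rw [Complex.ofReal_neg, neg_smul]
      rw [e2]
      exact hξ (-s)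
    have hd : HasDerivAt (fun s : ℂ => NormedSpace.exp (s • ξ) * η * NormedSpace.exp (s • (-ξ)))
        (ξ * η - η * ξ) 0 := by
      have a1 := hasDerivAt_exp_smul_const (𝕂 := ℂ) ξ (0 : ℂ)
      have a2 := hasDerivAt_exp_smul_const (𝕂 := ℂ) (-ξ) (0 : ℂ)
      have a3 := (a1.mul_const η).mul a2
      have e : NormedSpace.exp ((0 : ℂ) • ξ) * ξ * η * NormedSpace.exp ((0 : ℂ) • (-ξ)) +
          NormedSpace.exp ((0 : ℂ) • ξ) * η * (NormedSpace.exp ((0 : ℂ) • (-ξ)) * -ξ) =
          ξ * η - η * ξ := by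
        simp [sub_eq_add_neg]
      rw [e] at a3
      exact a3
    have hl := seq_deriv hd
    refine hclosed.mem_of_tendsto hl (Eventually.of_forall fun n => ?_)
    have e3 : (1 / (n : ℂ)) = ((1 / n : ℝ) : ℂ) := by push_cast; rfl
    have e4 : NormedSpace.exp ((0 : ℂ) • ξ) * η * NormedSpace.exp ((0 : ℂ) • (-ξ)) = η := by simp
    rw [e4]
    have e5 : (n : ℂ) = ((n : ℝ) : ℂ) := by push_cast; rfl
    have h5 : NormedSpace.exp ((1 / (n : ℂ)) • ξ) * η * NormedSpace.exp ((1 / (n : ℂ)) • (-ξ)) ∈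
        lieOf Γ := by
      rw [e3, smul_neg]
      exact hAd _
    have h6 : -η ∈ lieOf Γ := by
      have := hsmul η hη (-1)
      rw [Complex.ofReal_neg, Complex.ofReal_one, neg_smul, one_smul] at this
      exact this
    rw [sub_eq_add_neg, e5]
    refine hsmul _ (hadd _ ?_ _ h6) _
    rw [← e5]
    exact h5
  · intro ξ hξ v w
    have hd : HasDerivAt (fun s : ℂ => NormedSpace.exp (s • ξ)) ξ 0 := by
      have a1 := hasDerivAt_exp_smul_const (𝕂 := ℂ) ξ (0 : ℂ)
      simpa using a1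
    have hl := seq_deriv hd
    have e0 : NormedSpace.exp ((0 : ℂ) • ξ) = 1 := by simp
    rw [e0] at hl
    -- the exponentials tend to one
    have hg : Tendsto (fun n : ℕ => NormedSpace.exp ((1 / (n : ℂ)) • ξ)) atTop (𝓝 1) := by
      have hc : ContinuousAt (fun s : ℂ => NormedSpace.exp (s • ξ)) 0 := hd.continuousAt
      have h7 : Tendsto (fun n : ℕ => (1 / (n : ℂ))) atTop (𝓝 0) :=
        tendsto_nhds_of_tendsto_nhdsWithin seq_lim
      have h8 := hc.tendsto.comp h7
      rw [e0] at h8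
      exact h8
    have hev : ∀ u : W, Continuous fun T : W →L[ℂ] W => T u := fun u =>
      (ContinuousLinearMap.apply ℂ W u).continuous
    have hA : Tendsto (fun n : ℕ => inner ℂ
        (((n : ℂ) • (NormedSpace.exp ((1 / (n : ℂ)) • ξ) - 1)) v)
        (NormedSpace.exp ((1 / (n : ℂ)) • ξ) w)) atTop (𝓝 (inner ℂ (ξ v) w)) := by
      have h9 := ((hev v).tendsto ξ).comp hl
      have h10 := ((hev w).tendsto (1 : W →L[ℂ] W)).comp hg
      exact h9.inner h10
    have hB : Tendsto (fun n : ℕ => inner ℂ v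
        (((n : ℂ) • (NormedSpace.exp ((1 / (n : ℂ)) • ξ) - 1)) w)) atTop
        (𝓝 (inner ℂ v (ξ w))) := by
      have h9 := ((hev w).tendsto ξ).comp hl
      exact tendsto_const_nhds.inner h9
    have hC := hA.add hB
    have hzero2 : ∀ n : ℕ, inner ℂ
        (((n : ℂ) • (NormedSpace.exp ((1 / (n : ℂ)) • ξ) - 1)) v)
        (NormedSpace.exp ((1 / (n : ℂ)) • ξ) w) + inner ℂ v
        (((n : ℂ) • (NormedSpace.exp ((1 / (n : ℂ)) • ξ) - 1)) w) = 0 := by
      intro n
      have hm : NormedSpace.exp ((1 / (n : ℂ)) • ξ) ∈ Γ := by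
        have e3 : (1 / (n : ℂ)) = ((1 / n : ℝ) : ℂ) := by push_cast; rfl
        rw [e3]
        exact hξ _
      have h11 := hiso _ hm v w
      rw [ContinuousLinearMap.smul_apply, ContinuousLinearMap.smul_apply,
        ContinuousLinearMap.sub_apply, ContinuousLinearMap.sub_apply, inner_smul_left,
        inner_smul_right, inner_sub_left, inner_sub_right, h11]
      simp only [Complex.conj_natCast, ContinuousLinearMap.one_apply]
      ring
    simp only [hzero2] at hC
    have h12 := tendsto_nhds_unique tendsto_const_nhds hC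
    exact eq_neg_of_add_eq_zero_left h12.symm

end R970.WM
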