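import Pool.Agent.R970.WM.Stm2

/-! Piece NE of project WM2 (MP_8d8e6a_an). -/

open MeasureTheory Set Filter Topology

namespace R970.WM

namespace NE

theorem finU : IsFiniteMeasure U := by
  unfold U
  infer_instance

/-- eigenfunctions of a weakly mixing map are constant -/
theorem wmConst (T : ℝ → ℝ) (hT : WeakMix T U) (c : ℂ) (hc : ‖c‖ = 1) (f : ℝ → ℂ)
    (hf : StronglyMeasurable f) (h : ∀ᵐ x ∂U, f (T x) = c * f x) :
    ∃ z : ℂ, ∀ᵐ x ∂U, f x = z := by
  have := finU
  set H : ℝ × ℝ → ℂ := fun p => f p.1 * (starRingEnd ℂ) (f p.2) with hH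
  have hHm : AEStronglyMeasurable H (U.prod U) := by
    refine StronglyMeasurable.aestronglyMeasurable ?_
    refine (hf.comp_measurable measurable_fst).mul ?_
    exact (RCLike.continuous_conj (K := ℂ)).comp_stronglyMeasurable
      (hf.comp_measurable measurable_snd)
  have hcc : c * (starRingEnd ℂ) c = 1 := by
    rw [Complex.mul_conj, Complex.normSq_eq_norm_sq, hc]
    norm_num
  have hinv : H ∘ (Prod.map T T) =ᵐ[U.prod U] H := by
    have h1 : ∀ᵐ p ∂(U.prod U), f (T p.1) = c * f p.1 :=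
      Measure.quasiMeasurePreserving_fst.ae h
    have h2 : ∀ᵐ p ∂(U.prod U), f (T p.2) = c * f p.2 :=
      Measure.quasiMeasurePreserving_snd.ae h
    filter_upwards [h1, h2] with p hp1 hp2
    change f (T p.1) * (starRingEnd ℂ) (f (T p.2)) = f p.1 * (starRingEnd ℂ) (f p.2)
    rw [hp1, hp2, map_mul]
    calc c * f p.1 * ((starRingEnd ℂ) c * (starRingEnd ℂ) (f p.2))
        = (c * (starRingEnd ℂ) c) * (f p.1 * (starRingEnd ℂ) (f p.2)) := by ring
      _ = _ := by rw [hcc, one_mul]
  obtain ⟨K, hK⟩ := Ergodic.ae_eq_const_of_ae_eq_comp_ae hT hHm hinv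
  have hK2 : ∀ᵐ x ∂U, ∀ᵐ y ∂U, H (x, y) = K := Measure.ae_ae_of_ae_prod hK
  by_cases h0 : ∀ᵐ x ∂U, f x = 0
  · exact ⟨0, h0⟩
  · have h1 : ∃ᵐ x ∂U, f x ≠ 0 := by
      rw [Filter.Frequently]
      simpa using h0
    obtain ⟨x, hx1, hx2⟩ := (h1.and_eventually hK2).exists
    refine ⟨(starRingEnd ℂ) (K / f x), ?_⟩
    filter_upwards [hx2] with y hy
    have h2 : f x * (starRingEnd ℂ) (f y) = K := hy
    have h3 : (starRingEnd ℂ) (f y) = K / f x := by
      rw [← h2]
      field_simp
    rw [← h3, Complex.conj_conj]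

section Grp

variable (G : Type) [Group G] [TopologicalSpace G] [IsTopologicalGroup G] [CompactSpace G]
  [T2Space G] [SecondCountableTopology G] [MeasurableSpace G] [BorelSpace G]
  (ν : Measure G) [IsProbabilityMeasure ν]

theorem conjInt {Y : Type} [MeasurableSpace Y] {m : Measure Y} {u : Y → ℂ}
    (hu : Integrable u m) : Integrable (fun y => (starRingEnd ℂ) (u y)) m :=
  Complex.conjCLE.toContinuousLinearMap.integrable_comp hu

/-- a bounded function orthogonal to all continuous functions vanishes -/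
theorem orthCont (g : G → ℂ) (hg : Measurable g) (C : ℝ) (hC : ∀ y, ‖g y‖ ≤ C)
    (h : ∀ φ : G → ℂ, Continuous φ → ∫ y, g y * (starRingEnd ℂ) (φ y) ∂ν = 0) :
    ∀ᵐ y ∂ν, g y = 0 := by
  have hgi : Integrable g ν := Integrable.of_bound hg.aestronglyMeasurable C
    (Filter.Eventually.of_forall hC)
  have hC0 : 0 ≤ C := (norm_nonneg _).trans (hC 1)
  have hsq : Integrable (fun y => ‖g y‖ ^ 2) ν := by
    refine Integrable.of_bound (hg.norm.pow_const 2).aestronglyMeasurable (C ^ 2)
      (Filter.Eventually.of_forall fun y => ?_)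
    rw [Real.norm_of_nonneg (by positivity)]
    exact pow_le_pow_left₀ (norm_nonneg _) (hC y) 2
  have hle : ∀ ε : ℝ, 0 < ε → ∫ y, ‖g y‖ ^ 2 ∂ν ≤ C * ε := by
    intro ε hε
    obtain ⟨φ, hφ, hφi⟩ := hgi.exists_boundedContinuous_integral_sub_le hε
    have h1 : Integrable (fun y => g y * (starRingEnd ℂ) (g y - φ y)) ν := by
      refine Integrable.bdd_mul (c := C) (conjInt (hgi.sub hφi)) hg.aestronglyMeasurable
        (Filter.Eventually.of_forall hC)
    have h2 : Integrable (fun y => g y * (starRingEnd ℂ) (φ y)) ν := by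
      refine Integrable.bdd_mul (c := C) (conjInt hφi) hg.aestronglyMeasurable
        (Filter.Eventually.of_forall hC)
    have h3 : ∫ y, ((‖g y‖ ^ 2 : ℝ) : ℂ) ∂ν = ∫ y, g y * (starRingEnd ℂ) (g y - φ y) ∂ν := by
      have h4 : ∀ y, ((‖g y‖ ^ 2 : ℝ) : ℂ) = g y * (starRingEnd ℂ) (g y - φ y) +
          g y * (starRingEnd ℂ) (φ y) := by
        intro y
        rw [map_sub, ← mul_add, sub_add_cancel, Complex.mul_conj, Complex.normSq_eq_norm_sq]
      simp_rw [h4]
      rw [integral_add h1 h2, h φ φ.continuous, add_zero]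
    have h5 : ‖∫ y, ((‖g y‖ ^ 2 : ℝ) : ℂ) ∂ν‖ = ∫ y, ‖g y‖ ^ 2 ∂ν := by
      rw [integral_complex_ofReal, Complex.norm_real, Real.norm_of_nonneg
        (integral_nonneg fun y => by positivity)]
    rw [← h5, h3]
    calc ‖∫ y, g y * (starRingEnd ℂ) (g y - φ y) ∂ν‖
        ≤ ∫ y, ‖g y * (starRingEnd ℂ) (g y - φ y)‖ ∂ν := norm_integral_le_integral_norm _
      _ ≤ ∫ y, C * ‖g y - φ y‖ ∂ν := by
          refine integral_mono h1.norm ((hgi.sub hφi).norm.const_mul C) fun y => ?_
          simp only [norm_mul, RCLike.norm_conj]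
          exact mul_le_mul_of_nonneg_right (hC y) (norm_nonneg _)
      _ = C * ∫ y, ‖g y - φ y‖ ∂ν := integral_const_mul _ _
      _ ≤ C * ε := mul_le_mul_of_nonneg_left hφ hC0
  have hz : ∫ y, ‖g y‖ ^ 2 ∂ν = 0 := by
    refine le_antisymm ?_ (integral_nonneg fun y => by positivity)
    refine le_of_forall_pos_le_add fun δ hδ => ?_
    have h1 := hle (δ / (C + 1)) (by positivity)
    refine h1.trans ?_
    rw [zero_add, mul_div_assoc', div_le_iff₀ (by positivity)]
    nlinarith
  have h6 := (integral_eq_zero_iff_of_nonneg (fun y => by positivity) hsq).1 hz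
  filter_upwards [h6] with y hy
  have h7 : ‖g y‖ ^ 2 = 0 := hy
  simpa using h7

/-- the finite dimensional vector of Fourier coefficients -/
noncomputable def four {N : ℕ} (e : Fin N → G → ℂ) (u : G → ℂ) : EuclideanSpace ℂ (Fin N) :=
  ∑ j, (∫ y, u y * (starRingEnd ℂ) (e j y) ∂ν) • EuclideanSpace.single j (1 : ℂ)

theorem four_apply {N : ℕ} (e : Fin N → G → ℂ) (u : G → ℂ) (l : Fin N) :
    (four G ν e u) l = ∫ y, u y * (starRingEnd ℂ) (e l y) ∂ν := by
  unfold four
  simp [Pi.single_apply]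

theorem four_R {N : ℕ} (e : Fin N → G → ℂ) (u : G → ℂ)
    (R : EuclideanSpace ℂ (Fin N) ≃ₗᵢ[ℂ] EuclideanSpace ℂ (Fin N)) (l : Fin N) :
    (R (four G ν e u)) l = ∑ j, (four G ν e u) j * (R (EuclideanSpace.single j 1)) l := by
  have h : four G ν e u = ∑ j, (four G ν e u) j • EuclideanSpace.single j (1 : ℂ) := by
    simp_rw [four_apply]
    rfl
  conv_lhs => rw [h]
  rw [map_sum]
  simp

/-- translation of the coefficients -/
theorem four_trans [ν.IsMulLeftInvariant] {N : ℕ} (e : Fin N → G → ℂ)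
    (R : G →* (EuclideanSpace ℂ (Fin N) ≃ₗᵢ[ℂ] EuclideanSpace ℂ (Fin N)))
    (hec : ∀ j, Continuous (e j))
    (he : ∀ (a : G) j (y : G), e j (a⁻¹ * y) =
      ∑ l, (R a (EuclideanSpace.single j 1)) l * e l y)
    (c : ℂ) (φ : G) (u v : G → ℂ) (hu : Measurable u) (C : ℝ) (hC : ∀ y, ‖u y‖ ≤ C)
    (h : ∀ᵐ y ∂ν, v (φ * y) = c * u y) :
    four G ν e v = c • R φ (four G ν e u) := by
  have hint : ∀ l, Integrable (fun y => u y * (starRingEnd ℂ) (e l y)) ν := by
    intro l
    refine Integrable.bdd_mul (c := C) (conjInt ?_) hu.aestronglyMeasurable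
      (Filter.Eventually.of_forall hC)
    exact (hec l).integrable_of_hasCompactSupport (HasCompactSupport.of_compactSpace _)
  refine PiLp.ext fun j => ?_
  rw [four_apply]
  have h1 : ∫ y, v y * (starRingEnd ℂ) (e j y) ∂ν =
      ∫ y, v (φ * y) * (starRingEnd ℂ) (e j (φ * y)) ∂ν :=
    (integral_mul_left_eq_self (fun y => v y * (starRingEnd ℂ) (e j y)) φ).symm
  rw [h1]
  have h2 : ∀ᵐ y ∂ν, v (φ * y) * (starRingEnd ℂ) (e j (φ * y)) =
      ∑ l, (c * (starRingEnd ℂ) ((R φ⁻¹ (EuclideanSpace.single j 1)) l)) *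
        (u y * (starRingEnd ℂ) (e l y)) := by
    filter_upwards [h] with y hy
    have h3 := he φ⁻¹ j y
    rw [inv_inv] at h3
    rw [hy, h3, map_sum, Finset.mul_sum]
    refine Finset.sum_congr rfl fun l _ => ?_
    rw [map_mul]
    ring
  rw [integral_congr_ae h2, integral_finsetSum _ fun l _ => (hint l).const_mul _]
  simp_rw [integral_const_mul]
  have h4 : (c • R φ (four G ν e u)) j =
      c * inner ℂ (EuclideanSpace.single j (1 : ℂ)) (R φ (four G ν e u)) := by
    rw [EuclideanSpace.inner_single_left]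
    simp
  have h5 : inner ℂ (EuclideanSpace.single j (1 : ℂ)) (R φ (four G ν e u)) =
      inner ℂ (R φ⁻¹ (EuclideanSpace.single j (1 : ℂ))) (four G ν e u) := by
    have h6 : R φ (R φ⁻¹ (EuclideanSpace.single j (1 : ℂ))) = EuclideanSpace.single j (1 : ℂ) := by
      have h7 : R φ * R φ⁻¹ = 1 := by rw [← map_mul, mul_inv_cancel, map_one]
      have h8 := congrArg (fun f => f (EuclideanSpace.single j (1 : ℂ))) h7
      exact h8
    conv_lhs => rw [← h6]
    rw [LinearIsometryEquiv.inner_map_map]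
  rw [h4, h5, PiLp.inner_apply, Finset.mul_sum]
  refine Finset.sum_congr rfl fun l _ => ?_
  rw [RCLike.inner_apply, four_apply]
  ring

/-- a function all of whose coefficient vectors are invariant is constant -/
theorem constOf (N : ℕ → ℕ) (e : ∀ k, Fin (N k) → G → ℂ)
    (R : ∀ k, G →* (EuclideanSpace ℂ (Fin (N k)) ≃ₗᵢ[ℂ] EuclideanSpace ℂ (Fin (N k))))
    (hec : ∀ k j, Continuous (e k j))
    (hon : ∀ k i j, ∫ y, (starRingEnd ℂ) (e k i y) * e k j y ∂ν = if i = j then 1 else 0)
    (he : ∀ k (a : G) j (y : G), e k j (a⁻¹ * y) =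
      ∑ l, (R k a (EuclideanSpace.single j 1)) l * e k l y)
    (hd : ∀ f : G → ℂ, Continuous f → ∀ ε : ℝ, 0 < ε →
      ∃ k, ∃ c : Fin (N k) → ℂ, ∀ y, ‖f y - ∑ j, c j * e k j y‖ < ε)
    (u : G → ℂ) (hu : Measurable u) (C : ℝ) (hC : ∀ y, ‖u y‖ ≤ C)
    (hfix : ∀ k a, R k a (four G ν (e k) u) = four G ν (e k) u) :
    ∀ᵐ y ∂ν, u y = ∫ y, u y ∂ν := by
  have hC0 : 0 ≤ C := (norm_nonneg _).trans (hC 1)
  have hui : Integrable u ν := Integrable.of_bound hu.aestronglyMeasurable C
    (Filter.Eventually.of_forall hC)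
  have hci : ∀ φ : G → ℂ, Continuous φ → Integrable φ ν := fun φ hφ =>
    hφ.integrable_of_hasCompactSupport (HasCompactSupport.of_compactSpace _)
  have hint : ∀ φ : G → ℂ, Continuous φ → Integrable (fun y => u y * (starRingEnd ℂ) (φ y)) ν :=
    fun φ hφ => Integrable.bdd_mul (c := C) (conjInt (hci φ hφ)) hu.aestronglyMeasurable
      (Filter.Eventually.of_forall hC)
  set m : ℂ := ∫ y, u y ∂ν with hm
  have hmC : ‖m‖ ≤ C := by
    have := norm_integral_le_of_norm_le_const (μ := ν) (f := u) (C := C)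
      (Filter.Eventually.of_forall hC)
    simpa using this
  -- the key: coefficients against `E_k`
  have key : ∀ k, ∃ κ : ℂ, ‖κ‖ ≤ C ∧ ∀ c : Fin (N k) → ℂ,
      ∫ y, u y * (starRingEnd ℂ) (∑ j, c j * e k j y) ∂ν =
        κ * ∫ y, (starRingEnd ℂ) (∑ j, c j * e k j y) ∂ν := by
    intro k
    set F := four G ν (e k) u with hF
    set κ : ℂ := ∑ j, F j * e k j 1 with hκ
    have hP : ∀ y, ∑ j, F j * e k j y = κ := by
      intro y
      rw [hκ]
      have h1 : ∀ j, e k j 1 = ∑ l, (R k y (EuclideanSpace.single j 1)) l * e k l y := by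
        intro j
        rw [← he k y j y, inv_mul_cancel]
      simp_rw [h1, Finset.mul_sum]
      rw [Finset.sum_comm]
      refine Finset.sum_congr rfl fun l _ => ?_
      have h2 : F l = ∑ j, F j * (R k y (EuclideanSpace.single j 1)) l := by
        rw [← four_R, hfix k y]
      conv_lhs => rw [h2]
      rw [Finset.sum_mul]
      refine Finset.sum_congr rfl fun j _ => ?_
      ring
    have hcomb : ∀ c : Fin (N k) → ℂ,
        ∫ y, u y * (starRingEnd ℂ) (∑ j, c j * e k j y) ∂ν = ∑ j, (starRingEnd ℂ) (c j) * F j := by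
      intro c
      have h1 : ∀ y, u y * (starRingEnd ℂ) (∑ j, c j * e k j y) =
          ∑ j, (starRingEnd ℂ) (c j) * (u y * (starRingEnd ℂ) (e k j y)) := by
        intro y
        rw [map_sum, Finset.mul_sum]
        refine Finset.sum_congr rfl fun j _ => ?_
        rw [map_mul]
        ring
      simp_rw [h1]
      rw [integral_finsetSum _ fun j _ => (hint _ (hec k j)).const_mul _]
      simp_rw [integral_const_mul]
      refine Finset.sum_congr rfl fun j _ => ?_
      rw [hF, four_apply]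
    have hcomb2 : ∀ c : Fin (N k) → ℂ,
        κ * ∫ y, (starRingEnd ℂ) (∑ j, c j * e k j y) ∂ν = ∑ j, (starRingEnd ℂ) (c j) * F j := by
      intro c
      rw [← integral_const_mul]
      have h1 : ∀ y, κ * (starRingEnd ℂ) (∑ j, c j * e k j y) =
          ∑ j, ∑ i, ((starRingEnd ℂ) (c j) * F i) * ((starRingEnd ℂ) (e k j y) * e k i y) := by
        intro y
        rw [← hP y, map_sum, Finset.mul_sum]
        refine Finset.sum_congr rfl fun j _ => ?_
        rw [map_mul, Finset.sum_mul]
        refine Finset.sum_congr rfl fun i _ => ?_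
        ring
      simp_rw [h1]
      have hii : ∀ i j, Integrable (fun y => (starRingEnd ℂ) (e k j y) * e k i y) ν := by
        intro i j
        refine hci _ ?_
        exact ((RCLike.continuous_conj (K := ℂ)).comp (hec k j)).mul (hec k i)
      rw [integral_finsetSum _ fun j _ => integrable_finsetSum _ fun i _ =>
        (hii i j).const_mul _]
      refine Finset.sum_congr rfl fun j _ => ?_
      rw [integral_finsetSum _ fun i _ => (hii i j).const_mul _]
      simp_rw [integral_const_mul, hon]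
      simp
    refine ⟨κ, ?_, fun c => by rw [hcomb, hcomb2]⟩
    have h3 := hcomb F
    have h4 := hcomb2 F
    simp_rw [hP] at h3 h4
    rw [← h4] at h3
    rw [integral_mul_const, integral_const] at h3
    simp only [probReal_univ, one_smul] at h3
    by_cases hκ0 : κ = 0
    · rw [hκ0, norm_zero]
      exact hC0
    · have h5 : (starRingEnd ℂ) κ ≠ 0 := by
        rwa [Ne, map_eq_zero]
      have h6 : m = κ := mul_right_cancel₀ h5 h3
      rw [← h6]
      exact hmC
  have hortho : ∀ φ : G → ℂ, Continuous φ →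
      ∫ y, (u y - m) * (starRingEnd ℂ) (φ y) ∂ν = 0 := by
    intro φ hφ
    set ψ : G → ℂ := fun y => φ y - ∫ y, φ y ∂ν with hψ
    have hψc : Continuous ψ := hφ.sub continuous_const
    have hψ0 : ∫ y, ψ y ∂ν = 0 := by
      rw [hψ, integral_sub (hci φ hφ) (integrable_const _), integral_const]
      simp
    have h1 : ∫ y, (u y - m) * (starRingEnd ℂ) (φ y) ∂ν =
        ∫ y, u y * (starRingEnd ℂ) (ψ y) ∂ν := by
      have h2 : ∀ y, (u y - m) * (starRingEnd ℂ) (φ y) =
          u y * (starRingEnd ℂ) (φ y) - m * (starRingEnd ℂ) (φ y) := fun y => by ring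
      have h3 : ∀ y, u y * (starRingEnd ℂ) (ψ y) =
          u y * (starRingEnd ℂ) (φ y) - u y * (starRingEnd ℂ) (∫ y, φ y ∂ν) := by
        intro y
        rw [hψ]
        simp only [map_sub]
        ring
      simp_rw [h2, h3]
      rw [integral_sub (hint φ hφ) ((conjInt (hci φ hφ)).const_mul _),
        integral_sub (hint φ hφ) (hui.mul_const _), integral_const_mul, integral_mul_const]
      congr 2
      exact integral_conj
    rw [h1]
    have hle : ∀ ε : ℝ, 0 < ε → ‖∫ y, u y * (starRingEnd ℂ) (ψ y) ∂ν‖ ≤ 2 * C * ε := by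
      intro ε hε
      obtain ⟨k, c, hc⟩ := hd ψ hψc ε hε
      obtain ⟨κ, hκ, hκ'⟩ := key k
      set hh : G → ℂ := fun y => ∑ j, c j * e k j y with hhh
      have hhc : Continuous hh := by
        rw [hhh]
        exact continuous_finsetSum _ fun j _ => continuous_const.mul (hec k j)
      have h2 : ∫ y, u y * (starRingEnd ℂ) (ψ y) ∂ν =
          ∫ y, u y * (starRingEnd ℂ) (ψ y - hh y) ∂ν +
            κ * ∫ y, (starRingEnd ℂ) (hh y - ψ y) ∂ν := by
        have h3 : ∀ y, u y * (starRingEnd ℂ) (ψ y) =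
            u y * (starRingEnd ℂ) (ψ y - hh y) + u y * (starRingEnd ℂ) (hh y) := by
          intro y
          rw [(starRingEnd ℂ).map_sub (ψ y) (hh y)]
          ring
        have h4 : ∫ y, (starRingEnd ℂ) (ψ y) ∂ν = 0 := by
          rw [integral_conj, hψ0, map_zero]
        have h5 : ∫ y, (starRingEnd ℂ) (hh y - ψ y) ∂ν = ∫ y, (starRingEnd ℂ) (hh y) ∂ν := by
          simp_rw [map_sub]
          rw [integral_sub (conjInt (hci _ hhc)) (conjInt (hci _ hψc)), h4, sub_zero]
        simp_rw [h3]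
        rw [integral_add (hint (fun y => ψ y - hh y) (hψc.sub hhc)) (hint _ hhc), h5]
        congr 1
        exact hκ' c
      rw [h2]
      have h6 : ‖∫ y, u y * (starRingEnd ℂ) (ψ y - hh y) ∂ν‖ ≤ C * ε := by
        have := norm_integral_le_of_norm_le_const (μ := ν)
          (f := fun y => u y * (starRingEnd ℂ) (ψ y - hh y)) (C := C * ε)
          (Filter.Eventually.of_forall fun y => by
            simp only [norm_mul, RCLike.norm_conj]
            exact mul_le_mul (hC y) (hc y).le (norm_nonneg _) hC0)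
        simpa using this
      have h7 : ‖∫ y, (starRingEnd ℂ) (hh y - ψ y) ∂ν‖ ≤ ε := by
        have := norm_integral_le_of_norm_le_const (μ := ν)
          (f := fun y => (starRingEnd ℂ) (hh y - ψ y)) (C := ε)
          (Filter.Eventually.of_forall fun y => by
            simp only [RCLike.norm_conj]
            rw [norm_sub_rev]
            exact (hc y).le)
        simpa using this
      calc _ ≤ ‖∫ y, u y * (starRingEnd ℂ) (ψ y - hh y) ∂ν‖ +
            ‖κ * ∫ y, (starRingEnd ℂ) (hh y - ψ y) ∂ν‖ := norm_add_le _ _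
        _ ≤ C * ε + C * ε := by
            rw [norm_mul]
            exact add_le_add h6 (mul_le_mul hκ h7 (norm_nonneg _) hC0)
        _ = 2 * C * ε := by ring
    rw [← norm_le_zero_iff]
    refine le_of_forall_pos_le_add fun δ hδ => ?_
    refine (hle (δ / (2 * C + 1)) (by positivity)).trans ?_
    rw [zero_add, mul_div_assoc', div_le_iff₀ (by positivity)]
    nlinarith
  have hfin := orthCont G ν (fun y => u y - m) (hu.sub_const m) (C + C)
    (fun y => (norm_sub_le _ _).trans (add_le_add (hC y) hmC)) hortho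
  filter_upwards [hfin] with y hy
  exact sub_eq_zero.1 hy

end Grp

end NE

open _root_.R970.WM.NE in
theorem noEig (hpw : Stm.pw) (hfs : Stm.fixedSec) : Stm.noEig := by
  intro G _ _ _ _ _ _ _ _ _ ν _ _ W0 _ _ _ ρ hρ hρi n T ix hT hix hk0 s0 hs0 ha hb hw
  have hfin := finU
  obtain ⟨N, e, R, hec, hon, hRc, he, hd⟩ := hpw G ν W0 ρ hρ hρi
  have hall : ∀ᵐ g ∂(Measure.pi (fun _ : Fin n => ν)), ∀ k : ℕ, ∀ c : ℂ, ‖c‖ = 1 →
      ∀ F : ℝ → EuclideanSpace ℂ (Fin (N k)), StronglyMeasurable F → (∃ C : ℝ, ∀ x, ‖F x‖ ≤ C) →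
      (∀ᵐ x ∂U, F (T x) = c • R k (g (ix x)) (F x)) → ∀ᵐ x ∂U, ∀ a : G, R k a (F x) = F x := by
    rw [ae_all_iff]
    intro k
    exact hfs G ν (EuclideanSpace ℂ (Fin (N k))) (R k) (hRc k) n T ix hT hix hk0 s0 hs0 ha hb hw
  filter_upwards [hall] with g hg c hc f hf hfb hfe
  obtain ⟨C, hC⟩ := hfb
  have hC0 : 0 ≤ C := (norm_nonneg _).trans (hC (0, 1))
  have hsec : ∀ x, Measurable (fun y : G => f (x, y)) := fun x => hf.comp measurable_prodMk_left
  have hfe2 : ∀ᵐ x ∂U, ∀ᵐ y ∂ν, f (T x, g (ix x) * y) = c * f (x, y) :=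
    Measure.ae_ae_of_ae_prod hfe
  -- the coefficient vectors are fixed
  have hfix : ∀ k, ∀ᵐ x ∂U, ∀ a : G,
      R k a (four G ν (e k) (fun y => f (x, y))) = four G ν (e k) (fun y => f (x, y)) := by
    intro k
    have hbd : ∀ j, ∃ B : ℝ, ∀ y, ‖e k j y‖ ≤ B := by
      intro j
      obtain ⟨B, hB⟩ := (isCompact_univ (X := G)).exists_bound_of_continuousOn
        (hec k j).continuousOn
      exact ⟨B, fun y => hB y (mem_univ y)⟩
    choose B hB using hbd
    have hint : ∀ x j, ‖∫ y, f (x, y) * (starRingEnd ℂ) (e k j y) ∂ν‖ ≤ C * B j := by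
      intro x j
      have := norm_integral_le_of_norm_le_const (μ := ν)
        (f := fun y => f (x, y) * (starRingEnd ℂ) (e k j y)) (C := C * B j)
        (Filter.Eventually.of_forall fun y => by
          simp only [norm_mul, RCLike.norm_conj]
          exact mul_le_mul (hC _) (hB j y) (norm_nonneg _) hC0)
      simpa using this
    refine hg k c hc (fun x => four G ν (e k) (fun y => f (x, y))) ?_ ?_ ?_
    · unfold four
      refine Finset.stronglyMeasurable_fun_sum _ fun j _ => ?_
      refine StronglyMeasurable.smul_const ?_ _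
      have h1 : StronglyMeasurable (fun p : ℝ × G => f p * (starRingEnd ℂ) (e k j p.2)) := by
        refine hf.stronglyMeasurable.mul ?_
        refine Measurable.stronglyMeasurable ?_
        exact (RCLike.continuous_conj (K := ℂ)).measurable.comp
          ((hec k j).measurable.comp measurable_snd)
      exact h1.integral_prod_right'
    · refine ⟨∑ j, C * B j, fun x => ?_⟩
      unfold four
      refine (norm_sum_le _ _).trans (Finset.sum_le_sum fun j _ => ?_)
      rw [norm_smul]
      simpa using hint x j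
    · filter_upwards [hfe2] with x hx
      exact four_trans G ν (e k) (R k) (hec k) (he k) c (g (ix x)) (fun y => f (x, y))
        (fun y => f (T x, y)) (hsec x) C (fun y => hC _) hx
  have hfix2 : ∀ᵐ x ∂U, ∀ k, ∀ a : G,
      R k a (four G ν (e k) (fun y => f (x, y))) = four G ν (e k) (fun y => f (x, y)) := by
    rw [ae_all_iff]
    exact hfix
  have hconst : ∀ᵐ x ∂U, ∀ᵐ y ∂ν, f (x, y) = ∫ y, f (x, y) ∂ν := by
    filter_upwards [hfix2] with x hx
    exact constOf G ν N e R hec hon he hd (fun y => f (x, y)) (hsec x) C (fun y => hC _) hx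
  obtain ⟨z, hz⟩ := wmConst T hT c hc (fun x => ∫ y, f (x, y) ∂ν)
    (hf.stronglyMeasurable.integral_prod_right') (by
      filter_upwards [hfe2] with x hx
      rw [← integral_mul_left_eq_self (fun y => f (T x, y)) (g (ix x)), integral_congr_ae hx,
        integral_const_mul])
  refine ⟨z, ?_⟩
  refine (Measure.ae_prod_iff_ae_ae (measurableSet_eq_fun hf measurable_const)).2 ?_
  filter_upwards [hconst, hz] with x hx1 hx2
  filter_upwards [hx1] with y hy
  rw [hy, hx2]

end R970.WM
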