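import Pool.Agent.R970.WM.Stm2

/-! Piece OR of project WM2: the order argument. -/

open MeasureTheory Set Filter Topology

namespace R970.WM.ORP

/-- one row of the interval exchanges: a letter `p` that never plays is eventually to the left of
all letters which win infinitely often -/
theorem row {n : ℕ} (S : Finset (Fin n)) (r l : ℕ → Fin n → ℝ) (b : ℕ → ℝ)
    (last oth : ℕ → Fin n) (p : Fin n) (j0 : ℕ) (hp : p ∈ S)
    (hl : ∀ j, j0 ≤ j → last j ∈ S ∧ oth j ∈ S ∧ last j ≠ oth j ∧ last j ≠ p ∧ oth j ≠ p)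
    (hpos : ∀ j, ∀ i ∈ S, 0 < l j i)
    (hsep : ∀ j, ∀ i ∈ S, ∀ k ∈ S, i ≠ k → r j i + l j i ≤ r j k ∨ r j k + l j k ≤ r j i)
    (hsub : ∀ j, ∀ i ∈ S, r j i + l j i ≤ b j)
    (hlast : ∀ j, r j (last j) + l j (last j) = b j)
    (hch1 : ∀ j, l j (last j) < l j (oth j) → r (j + 1) (last j) =
      r j (oth j) + l j (oth j) - l j (last j))
    (hch2 : ∀ j, ∀ i, (i ≠ last j ∨ ¬ l j (last j) < l j (oth j)) → r (j + 1) i = r j i) :
    ∃ j1, ∀ j, j1 ≤ j → ∀ q, q ∈ S → q ≠ p →
      (∀ m, ∃ k, m ≤ k ∧ ((l k (last k) < l k (oth k) ∧ oth k = q) ∨ last k = q)) →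
      r j p < r j q := by
  classical
  -- the last letter is to the right of `p`
  have hright : ∀ j, j0 ≤ j → r j p < r j (last j) := by
    intro j hj
    obtain ⟨h1, -, -, h4, -⟩ := hl j hj
    have hp0 := hpos j p hp
    have h5 := hlast j
    have h6 := hsub j p hp
    rcases hsep j (last j) h1 p hp h4 with h | h
    · linarith
    · linarith
  have hpc : ∀ j, j0 ≤ j → r (j + 1) p = r j p := fun j hj =>
    hch2 j p (Or.inl (hl j hj).2.2.2.1.symm)
  set N : ℕ → ℕ := fun j => (S.filter (fun i => r j p < r j i)).card with hN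
  have hle : ∀ j, j0 ≤ j → N (j + 1) ≤ N j := by
    intro j hj
    refine Finset.card_le_card fun i hi => ?_
    rw [Finset.mem_filter] at hi ⊢
    refine ⟨hi.1, ?_⟩
    by_cases hil : i = last j
    · rw [hil]
      exact hright j hj
    · rw [← hpc j hj, ← hch2 j i (Or.inl hil)]
      exact hi.2
  have hlt : ∀ j, j0 ≤ j → l j (last j) < l j (oth j) → r j (oth j) < r j p →
      N (j + 1) < N j := by
    intro j hj h1 h2
    obtain ⟨a1, a2, a3, a4, a5⟩ := hl j hj
    refine Finset.card_lt_card ⟨?_, ?_⟩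
    · intro i hi
      rw [Finset.mem_filter] at hi ⊢
      refine ⟨hi.1, ?_⟩
      by_cases hil : i = last j
      · rw [hil]
        exact hright j hj
      · rw [← hpc j hj, ← hch2 j i (Or.inl hil)]
        exact hi.2
    · intro hsub'
      have hm : last j ∈ S.filter (fun i => r j p < r j i) :=
        Finset.mem_filter.mpr ⟨a1, hright j hj⟩
      have hm' := (Finset.mem_filter.mp (hsub' hm)).2
      rw [hpc j hj, hch1 j h1] at hm'
      have h3 := hpos j (last j) a1
      have h4 := hpos j p hp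
      rcases hsep j (oth j) a2 p hp a5 with h | h
      · linarith
      · linarith
  obtain ⟨j1, hj1, hmin⟩ : ∃ j1, j0 ≤ j1 ∧ ∀ j, j0 ≤ j → N j1 ≤ N j := by
    have hex : ∃ m, ∃ j, j0 ≤ j ∧ N j = m := ⟨N j0, j0, le_rfl, rfl⟩
    obtain ⟨j1, h1, h2⟩ := Nat.find_spec hex
    exact ⟨j1, h1, fun j hj => h2 ▸ Nat.find_min' hex ⟨j, hj, rfl⟩⟩
  have hmono : ∀ j, j1 ≤ j → N j ≤ N j1 := by
    intro j hj
    induction j, hj using Nat.le_induction with
    | base => exact le_rfl
    | succ j hj ih => exact (hle j (hj1.trans hj)).trans ih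
  refine ⟨j1, fun j hj q hq hqp hw => ?_⟩
  by_contra hcon
  rw [not_lt] at hcon
  have hjq : r j q < r j p := by
    have h3 := hpos j q hq
    have h4 := hpos j p hp
    rcases hsep j q hq p hp hqp with h | h
    · linarith
    · linarith
  have hall : ∀ k, j ≤ k → r k q < r k p := by
    intro k hk
    induction k, hk using Nat.le_induction with
    | base => exact hjq
    | succ k hk ih =>
      have hk0 : j0 ≤ k := hj1.trans (hj.trans hk)
      have hne : q ≠ last k := by
        intro he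
        have := hright k hk0
        rw [← he] at this
        linarith
      rw [hpc k hk0, hch2 k q (Or.inl hne)]
      exact ih
  obtain ⟨k, hk, h⟩ := hw j
  have hk0 : j0 ≤ k := hj1.trans (hj.trans hk)
  have hkq := hall k hk
  rcases h with ⟨h1, h2⟩ | h2
  · rw [← h2] at hkq
    have h3 := hlt k hk0 h1 hkq
    have h4 := hmono k (hj.trans hk)
    have h5 := hmin (k + 1) (hk0.trans (Nat.le_succ k))
    omega
  · have := hright k hk0
    rw [h2] at this
    linarith

variable {n : ℕ} {s : ℕ → St n} {α β : ℕ → Fin n} {x0 : ℝ}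

theorem S_succ (h : RSeq s α β x0) (j : ℕ) : (s (j + 1)).S = (s j).S := by
  rw [h.step j, cutR]
  rcases lt_or_gt_of_ne (h.nt j) with h1 | h1
  · rw [if_neg (not_lt.mpr h1.le), if_pos h1]
  · rw [if_pos h1]

theorem S_const (h : RSeq s α β x0) (j : ℕ) : (s j).S = (s 0).S := by
  induction j with
  | zero => rfl
  | succ j ih => rw [S_succ h j, ih]

theorem win_cases (h : RSeq s α β x0) (k : ℕ) (q : Fin n)
    (hw : win (s k) (α k) (β k) = q) :
    ((s k).l (β k) < (s k).l (α k) ∧ α k = q) ∨ ((s k).l (α k) < (s k).l (β k) ∧ β k = q) := by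
  rw [win] at hw
  rcases lt_or_gt_of_ne (h.nt k) with h1 | h1
  · rw [if_neg (not_lt.mpr h1.le)] at hw
    exact Or.inr ⟨h1, hw⟩
  · rw [if_pos h1] at hw
    exact Or.inl ⟨h1, hw⟩

end R970.WM.ORP

namespace R970.WM

open ORP

theorem order (hI : Stm.infWin) : Stm.order := by
  intro n s α β x0 h p hp hpw
  obtain ⟨j0, hj0⟩ := hI n s α β x0 h
  have hαβ : ∀ j, j0 ≤ j → WinsIO s α β (α j) ∧ WinsIO s α β (β j) := by
    intro j hj
    obtain ⟨h1, h2⟩ := hj0 j hj
    rw [win] at h1
    rw [los] at h2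
    by_cases hc : (s j).l (β j) < (s j).l (α j)
    · rw [if_pos hc] at h1 h2
      exact ⟨h1, h2⟩
    · rw [if_neg hc] at h1 h2
      exact ⟨h2, h1⟩
  have hαp : ∀ j, j0 ≤ j → α j ≠ p := fun j hj he => hpw (he ▸ (hαβ j hj).1)
  have hβp : ∀ j, j0 ≤ j → β j ≠ p := fun j hj he => hpw (he ▸ (hαβ j hj).2)
  have hαS : ∀ j, α j ∈ (s 0).S := fun j => S_const h j ▸ (h.top j).1
  have hβS : ∀ j, β j ∈ (s 0).S := fun j => S_const h j ▸ (h.bot j).1
  have hwS : ∀ q, WinsIO s α β q → q ∈ (s 0).S := by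
    intro q hq
    obtain ⟨k, -, hk⟩ := hq 0
    rcases win_cases h k q hk with ⟨-, h2⟩ | ⟨-, h2⟩
    · exact h2 ▸ hαS k
    · exact h2 ▸ hβS k
  -- top row
  obtain ⟨j1, hj1⟩ := row (s 0).S (fun j => (s j).t) (fun j => (s j).l) (fun j => (s j).b)
    α β p j0 hp (fun j hj => ⟨hαS j, hβS j, h.ne j, hαp j hj, hβp j hj⟩)
    (fun j i hi => (h.tile j).pos i ((S_const h j).symm ▸ hi))
    (fun j i hi k hk hik => (h.tile j).sep i ((S_const h j).symm ▸ hi) k
      ((S_const h j).symm ▸ hk) hik)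
    (fun j i hi => ((h.tile j).sub i ((S_const h j).symm ▸ hi)).2)
    (fun j => (h.top j).2)
    (by
      intro j h1
      show (s (j + 1)).t (α j) = _
      rw [h.step j, cutR, if_neg (not_lt.mpr (le_of_lt h1)), if_pos h1]
      simp)
    (by
      intro j i h1
      show (s (j + 1)).t i = (s j).t i
      rw [h.step j, cutR]
      rcases lt_or_gt_of_ne (h.nt j) with h2 | h2
      · rw [if_neg (not_lt.mpr h2.le), if_pos h2]
        rcases h1 with h1 | h1
        · simp [Function.update_of_ne h1]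
        · exact absurd h2 h1
      · rw [if_pos h2])
  -- bottom row
  obtain ⟨j2, hj2⟩ := row (s 0).S (fun j i => (s j).t i + (s j).d i) (fun j => (s j).l)
    (fun j => (s j).b) β α p j0 hp
    (fun j hj => ⟨hβS j, hαS j, (h.ne j).symm, hβp j hj, hαp j hj⟩)
    (fun j i hi => (h.tile j).pos i ((S_const h j).symm ▸ hi))
    (fun j i hi k hk hik => (h.tile j).sepIm i ((S_const h j).symm ▸ hi) k
      ((S_const h j).symm ▸ hk) hik)
    (fun j i hi => ((h.tile j).subIm i ((S_const h j).symm ▸ hi)).2)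
    (fun j => (h.bot j).2)
    (by
      intro j h1
      show (s (j + 1)).t (β j) + (s (j + 1)).d (β j) = _
      have e1 := (h.top j).2
      have e2 := (h.bot j).2
      rw [h.step j, cutR, if_pos h1]
      simp only [Function.update_self]
      linarith)
    (by
      intro j i h1
      show (s (j + 1)).t i + (s (j + 1)).d i = (s j).t i + (s j).d i
      have e1 := (h.top j).2
      have e2 := (h.bot j).2
      rw [h.step j, cutR]
      rcases lt_or_gt_of_ne (h.nt j) with h2 | h2
      · rw [if_neg (not_lt.mpr h2.le), if_pos h2]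
        by_cases hi : i = α j
        · subst hi
          simp only [Function.update_self]
          linarith
        · simp [Function.update_of_ne hi]
      · rw [if_pos h2]
        rcases h1 with h1 | h1
        · simp [Function.update_of_ne h1]
        · exact absurd h2 h1)
  refine ⟨max j1 j2, fun j hj q hq => ?_⟩
  have hqS := hwS q hq
  have hqp : q ≠ p := fun he => hpw (he ▸ hq)
  refine ⟨hj1 j ((le_max_left _ _).trans hj) q hqS hqp fun m => ?_,
    hj2 j ((le_max_right _ _).trans hj) q hqS hqp fun m => ?_⟩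
  · obtain ⟨k, hk, hkq⟩ := hq m
    refine ⟨k, hk, ?_⟩
    rcases win_cases h k q hkq with ⟨-, h2⟩ | ⟨h1, h2⟩
    · exact Or.inr h2
    · exact Or.inl ⟨h1, h2⟩
  · obtain ⟨k, hk, hkq⟩ := hq m
    refine ⟨k, hk, ?_⟩
    rcases win_cases h k q hkq with ⟨h1, h2⟩ | ⟨-, h2⟩
    · exact Or.inl ⟨h1, h2⟩
    · exact Or.inr h2

end R970.WM
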