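import Pool.Agent.R970.WM.Stm2

set_option autoImplicit false

open MeasureTheory Set Filter Topology

namespace R970.WM

namespace PFp

section
variable {G : Type} [Group G] [TopologicalSpace G] [IsTopologicalGroup G] [CompactSpace G]
  [T2Space G] [SecondCountableTopology G] [MeasurableSpace G] [BorelSpace G]
variable {W : Type} [NormedAddCommGroup W] [InnerProductSpace ℂ W] [FiniteDimensional ℂ W]

/-- the fixed vectors -/
def Fx (R : G →* (W ≃ₗᵢ[ℂ] W)) : Submodule ℂ W where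
  carrier := {v | ∀ a, R a v = v}
  add_mem' := by
    intro v w hv hw a
    rw [map_add, hv a, hw a]
  zero_mem' := fun a => map_zero _
  smul_mem' := by
    intro c v hv a
    rw [map_smul, hv a]

/-- unit vectors orthogonal to the fixed ones -/
def KK (R : G →* (W ≃ₗᵢ[ℂ] W)) : Set W := {v | v ∈ (Fx R)ᗮ ∧ ‖v‖ = 1}

theorem KK_compact (R : G →* (W ≃ₗᵢ[ℂ] W)) : IsCompact (KK R) := by
  have : ProperSpace W := FiniteDimensional.proper ℂ W
  have h1 : KK R = ((Fx R)ᗮ : Set W) ∩ Metric.sphere 0 1 := by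
    ext v
    simp [KK]
  rw [h1]
  exact (isCompact_sphere (0 : W) 1).inter_left (Submodule.isClosed_orthogonal (Fx R))

/-- pairs that almost fix a unit vector orthogonal to the fixed ones -/
def Om (R : G →* (W ≃ₗᵢ[ℂ] W)) (δ : ℝ) : Set (G × G) :=
  {p | ∃ v ∈ KK R, ‖R p.1 v - v‖ ≤ δ ∧ ‖R p.2 v - v‖ ≤ δ}

theorem Om_closed (R : G →* (W ≃ₗᵢ[ℂ] W)) (hR : Continuous (fun p : G × W => R p.1 p.2))
    (δ : ℝ) : IsClosed (Om R δ) := by
  have h1 : IsClosed {x : (G × G) × W | ‖R x.1.1 x.2 - x.2‖ ≤ δ ∧ ‖R x.1.2 x.2 - x.2‖ ≤ δ} := by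
    have c1 : Continuous (fun x : (G × G) × W => R x.1.1 x.2) :=
      hR.comp ((continuous_fst.comp continuous_fst).prodMk continuous_snd)
    have c2 : Continuous (fun x : (G × G) × W => R x.1.2 x.2) :=
      hR.comp ((continuous_snd.comp continuous_fst).prodMk continuous_snd)
    exact (isClosed_le (c1.sub continuous_snd).norm continuous_const).inter
      (isClosed_le (c2.sub continuous_snd).norm continuous_const)
  have h2 : IsCompact ((univ ×ˢ KK R) ∩
      {x : (G × G) × W | ‖R x.1.1 x.2 - x.2‖ ≤ δ ∧ ‖R x.1.2 x.2 - x.2‖ ≤ δ}) :=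
    (isCompact_univ.prod (KK_compact R)).inter_right h1
  have h3 : Om R δ = Prod.fst '' ((univ ×ˢ KK R) ∩
      {x : (G × G) × W | ‖R x.1.1 x.2 - x.2‖ ≤ δ ∧ ‖R x.1.2 x.2 - x.2‖ ≤ δ}) := by
    ext p
    constructor
    · rintro ⟨v, hv, h4, h5⟩
      exact ⟨(p, v), ⟨⟨mem_univ _, hv⟩, h4, h5⟩, rfl⟩
    · rintro ⟨⟨p', v⟩, ⟨⟨_, hv⟩, h4, h5⟩, rfl⟩
      exact ⟨v, hv, h4, h5⟩
  rw [h3]
  exact (h2.image continuous_fst).isClosed

theorem Om_inter (R : G →* (W ≃ₗᵢ[ℂ] W)) (p : G × G)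
    (hp : p ∈ ⋂ k : ℕ, Om R (1 / ((k : ℝ) + 1))) : ∃ v ∈ KK R, R p.1 v = v ∧ R p.2 v = v := by
  rw [mem_iInter] at hp
  choose v hv h1 h2 using hp
  obtain ⟨w, hw, φ, hφ, hlim⟩ := (KK_compact R).tendsto_subseq hv
  have hz : Tendsto (fun k : ℕ => 1 / ((k : ℝ) + 1)) atTop (𝓝 0) :=
    tendsto_one_div_add_atTop_nhds_zero_nat
  have gen : ∀ a : G, (∀ k, ‖R a (v k) - v k‖ ≤ 1 / ((k : ℝ) + 1)) → R a w = w := by
    intro a ha
    have c1 : Tendsto (fun k => ‖R a (v (φ k)) - v (φ k)‖) atTop (𝓝 ‖R a w - w‖) :=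
      (((R a).continuous.tendsto w).comp hlim |>.sub hlim).norm
    have c2 : Tendsto (fun k => ‖R a (v (φ k)) - v (φ k)‖) atTop (𝓝 0) :=
      squeeze_zero (fun _ => norm_nonneg _) (fun k => ha (φ k)) (hz.comp hφ.tendsto_atTop)
    have h3 := tendsto_nhds_unique c1 c2
    exact sub_eq_zero.1 (norm_eq_zero.1 h3)
  exact ⟨w, hw, gen _ h1, gen _ h2⟩

theorem Om_mem (R : G →* (W ≃ₗᵢ[ℂ] W)) {y z : W} (hy : y ∈ Fx R) (hz : z ∈ (Fx R)ᗮ) {δ τ : ℝ}
    (hδ : 0 ≤ δ) (hτ : 0 < τ) (hzτ : τ ≤ ‖z‖) (p : G × G)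
    (h1 : ‖R p.1 (y + z) - (y + z)‖ ≤ δ * τ) (h2 : ‖R p.2 (y + z) - (y + z)‖ ≤ δ * τ) :
    p ∈ Om R δ := by
  have hz0 : 0 < ‖z‖ := hτ.trans_le hzτ
  have hzc : (‖z‖ : ℂ) ≠ 0 := by exact_mod_cast hz0.ne'
  have gen : ∀ a : G, ‖R a (y + z) - (y + z)‖ ≤ δ * τ →
      ‖R a (((‖z‖ : ℂ)⁻¹) • z) - ((‖z‖ : ℂ)⁻¹) • z‖ ≤ δ := by
    intro a ha
    have e1 : R a (y + z) - (y + z) = R a z - z := by
      rw [map_add, hy a]; abel
    rw [e1] at ha
    rw [map_smul, ← smul_sub, norm_smul, norm_inv, Complex.norm_real, norm_norm,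
      inv_mul_le_iff₀ hz0]
    calc ‖R a z - z‖ ≤ δ * τ := ha
      _ ≤ δ * ‖z‖ := mul_le_mul_of_nonneg_left hzτ hδ
      _ = ‖z‖ * δ := mul_comm _ _
  refine ⟨((‖z‖ : ℂ)⁻¹) • z, ⟨Submodule.smul_mem _ _ hz, ?_⟩, gen _ h1, gen _ h2⟩
  rw [norm_smul, norm_inv, Complex.norm_real, norm_norm, inv_mul_cancel₀ hz0.ne']

theorem ev_cont {n : ℕ} (w : List (Fin n)) : Continuous (fun g : Fin n → G => ev g w) := by
  induction w with
  | nil => exact continuous_const
  | cons i w ih => exact ih.mul (continuous_apply i)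

/-- two different coordinates -/
theorem two_coord (ν : Measure G) [IsProbabilityMeasure ν] {n : ℕ} {i i' : Fin n} (h : i ≠ i') :
    MeasurePreserving (fun g : Fin n → G => (g i, g i')) (Measure.pi (fun _ => ν))
      (ν.prod ν) := by
  refine ⟨(measurable_pi_apply i).prodMk (measurable_pi_apply i'), ?_⟩
  symm
  apply Measure.prod_eq
  intro s t hs ht
  rw [Measure.map_apply ((measurable_pi_apply i).prodMk (measurable_pi_apply i')) (hs.prod ht)]
  classical
  have e1 : (fun g : Fin n → G => (g i, g i')) ⁻¹' (s ×ˢ t) =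
      Set.pi univ (fun j => if j = i then s else if j = i' then t else univ) := by
    ext g
    rw [mem_preimage, mem_prod, Set.mem_pi]
    constructor
    · rintro ⟨h1, h2⟩ j _
      show g j ∈ (if j = i then s else if j = i' then t else univ)
      by_cases hj : j = i
      · rw [if_pos hj, hj]; exact h1
      · rw [if_neg hj]
        by_cases hj' : j = i'
        · rw [if_pos hj', hj']; exact h2
        · rw [if_neg hj']; trivial
    · intro h1
      refine ⟨by simpa using h1 i (mem_univ _), ?_⟩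
      have h2 : g i' ∈ (if i' = i then s else if i' = i' then t else univ) := h1 i' (mem_univ _)
      rw [if_neg h.symm, if_pos rfl] at h2
      exact h2
  rw [e1, Measure.pi_pi, Finset.prod_eq_mul i i' h]
  · rw [if_pos rfl, if_neg h.symm, if_pos rfl]
  · rintro c _ ⟨h1, h2⟩
    rw [if_neg h1, if_neg h2, measure_univ]
  · intro h1; exact absurd (Finset.mem_univ _) h1
  · intro h1; exact absurd (Finset.mem_univ _) h1

theorem integ (ν : Measure G) [IsProbabilityMeasure ν] (R : G →* (W ≃ₗᵢ[ℂ] W))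
    (hR : Continuous (fun p : G × W => R p.1 p.2)) {n : ℕ} {m : (Fin n → G) → W}
    (hm : StronglyMeasurable m) {C : ℝ} (hC : ∀ g, ‖m g‖ ≤ C) (w : List (Fin n)) :
    Integrable (fun g => ‖R (ev g w) (m g) - m g‖) (Measure.pi (fun _ : Fin n => ν)) := by
  borelize W
  have hmm : Measurable m := hm.measurable
  have h1 : Measurable (fun g : Fin n → G => (ev g w, m g)) :=
    (ev_cont w).measurable.prodMk hmm
  have : ProperSpace W := FiniteDimensional.proper ℂ W
  have h2 : Measurable (fun g : Fin n → G => R (ev g w) (m g)) := hR.measurable.comp h1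
  have h3 : Measurable (fun g : Fin n → G => ‖R (ev g w) (m g) - m g‖) := (h2.sub hmm).norm
  refine Integrable.of_bound h3.aestronglyMeasurable (2 * C) (Eventually.of_forall fun g => ?_)
  rw [norm_norm]
  calc ‖R (ev g w) (m g) - m g‖ ≤ ‖R (ev g w) (m g)‖ + ‖m g‖ := norm_sub_le _ _
    _ = ‖m g‖ + ‖m g‖ := by rw [(R (ev g w)).norm_map]
    _ ≤ 2 * C := by linarith [hC g]

end

end PFp

open PFp

theorem pairFix (hlg : Stm.lg) : Stm.pairFix := by
  intro G _ _ _ _ _ _ _ _ _ ν _ _ W _ _ _ R hR n m hm ⟨C, hC⟩ hw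
  have hlg' := hlg G ν W R hR
  set μ : Measure (Fin n → G) := Measure.pi (fun _ : Fin n => ν) with hμ
  -- the measures of the sets `Om` tend to zero
  have hOm : Tendsto (fun k : ℕ => (ν.prod ν).real (Om R (1 / ((k : ℝ) + 1)))) atTop (𝓝 0) := by
    have h0 : (ν.prod ν) (⋂ k : ℕ, Om R (1 / ((k : ℝ) + 1))) = 0 := by
      have h1 : ∀ᵐ p ∂(ν.prod ν), p ∉ ⋂ k : ℕ, Om R (1 / ((k : ℝ) + 1)) := by
        filter_upwards [hlg'] with p hp hmem
        obtain ⟨v, hv, h2, h3⟩ := Om_inter R p hmem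
        have h4 : v ∈ Fx R := hp v h2 h3
        have h5 : v = 0 := by
          have := Submodule.inner_right_of_mem_orthogonal h4 hv.1
          exact inner_self_eq_zero.1 this
        rw [h5, KK] at hv
        simp at hv
      exact measure_eq_zero_iff_ae_notMem.2 h1
    have hanti : Antitone (fun k : ℕ => Om R (1 / ((k : ℝ) + 1))) := by
      intro k l hkl p hp
      obtain ⟨v, hv, h1, h2⟩ := hp
      have h3 : 1 / ((l : ℝ) + 1) ≤ 1 / ((k : ℝ) + 1) := by
        apply one_div_le_one_div_of_le (by positivity)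
        have : (k : ℝ) ≤ l := by exact_mod_cast hkl
        linarith
      exact ⟨v, hv, h1.trans h3, h2.trans h3⟩
    have h1 := tendsto_measure_iInter_atTop (μ := ν.prod ν)
      (fun k : ℕ => (Om_closed R hR (1 / ((k : ℝ) + 1))).measurableSet.nullMeasurableSet) hanti
      ⟨0, measure_ne_top _ _⟩
    rw [h0] at h1
    have h2 := (ENNReal.tendsto_toReal ENNReal.zero_ne_top).comp h1
    rw [ENNReal.toReal_zero] at h2
    exact h2
  -- the set where the orthogonal part is at least `τ` is null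
  have key : ∀ τ : ℝ, 0 < τ →
      μ {g | ∃ y ∈ Fx R, ∃ z ∈ (Fx R)ᗮ, m g = y + z ∧ τ ≤ ‖z‖} = 0 := by
    intro τ hτ
    set A := {g | ∃ y ∈ Fx R, ∃ z ∈ (Fx R)ᗮ, m g = y + z ∧ τ ≤ ‖z‖} with hA
    have hb : ∀ k : ℕ, μ.real A ≤ (ν.prod ν).real (Om R (1 / ((k : ℝ) + 1))) := by
      intro k
      set δ : ℝ := 1 / ((k : ℝ) + 1) with hδ
      have hδ0 : 0 < δ := by rw [hδ]; positivity
      have hδτ : 0 < δ * τ := mul_pos hδ0 hτ
      apply le_of_forall_pos_le_add
      intro ε hε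
      obtain ⟨w, hH, i, i', hii, h1, h2⟩ := hw (ε * (δ * τ) / 2) (by positivity)
      have hI := integ ν R hR hm hC (w i)
      have hI' := integ ν R hR hm hC (w i')
      have M1 := mul_meas_ge_le_integral_of_nonneg (Eventually.of_forall fun g =>
        norm_nonneg (R (ev g (w i)) (m g) - m g)) hI (δ * τ)
      have M2 := mul_meas_ge_le_integral_of_nonneg (Eventually.of_forall fun g =>
        norm_nonneg (R (ev g (w i')) (m g) - m g)) hI' (δ * τ)
      have hpres := (two_coord ν hii).comp hH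
      have hB3 : μ.real {g | (ev g (w i), ev g (w i')) ∈ Om R δ} = (ν.prod ν).real (Om R δ) := by
        unfold Measure.real
        congr 1
        exact hpres.measure_preimage (Om_closed R hR δ).measurableSet.nullMeasurableSet
      have hsub : A ⊆ ({g | δ * τ ≤ ‖R (ev g (w i)) (m g) - m g‖} ∪
          {g | δ * τ ≤ ‖R (ev g (w i')) (m g) - m g‖}) ∪
          {g | (ev g (w i), ev g (w i')) ∈ Om R δ} := by
        rintro g ⟨y, hy, z, hz, hg, hzτ⟩
        by_cases c1 : δ * τ ≤ ‖R (ev g (w i)) (m g) - m g‖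
        · exact Or.inl (Or.inl c1)
        · by_cases c2 : δ * τ ≤ ‖R (ev g (w i')) (m g) - m g‖
          · exact Or.inl (Or.inr c2)
          · right
            rw [not_le, hg] at c1 c2
            exact Om_mem R hy hz hδ0.le hτ hzτ (ev g (w i), ev g (w i')) c1.le c2.le
      have M1' : μ.real {g | δ * τ ≤ ‖R (ev g (w i)) (m g) - m g‖} ≤ ε / 2 := by
        have := M1.trans h1
        nlinarith
      have M2' : μ.real {g | δ * τ ≤ ‖R (ev g (w i')) (m g) - m g‖} ≤ ε / 2 := by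
        have := M2.trans h2
        nlinarith
      calc μ.real A ≤ μ.real (({g | δ * τ ≤ ‖R (ev g (w i)) (m g) - m g‖} ∪
          {g | δ * τ ≤ ‖R (ev g (w i')) (m g) - m g‖}) ∪
          {g | (ev g (w i), ev g (w i')) ∈ Om R δ}) := measureReal_mono hsub
        _ ≤ μ.real ({g | δ * τ ≤ ‖R (ev g (w i)) (m g) - m g‖} ∪
          {g | δ * τ ≤ ‖R (ev g (w i')) (m g) - m g‖}) +
          μ.real {g | (ev g (w i), ev g (w i')) ∈ Om R δ} := measureReal_union_le _ _
        _ ≤ (μ.real {g | δ * τ ≤ ‖R (ev g (w i)) (m g) - m g‖} +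
          μ.real {g | δ * τ ≤ ‖R (ev g (w i')) (m g) - m g‖}) +
          μ.real {g | (ev g (w i), ev g (w i')) ∈ Om R δ} := by
            gcongr
            exact measureReal_union_le _ _
        _ ≤ (ν.prod ν).real (Om R δ) + ε := by
            rw [hB3]; linarith
    have h0 : μ.real A ≤ 0 := ge_of_tendsto' hOm hb
    have h1 : μ.real A = 0 := le_antisymm h0 measureReal_nonneg
    rwa [measureReal_eq_zero_iff] at h1
  have hall : ∀ᵐ g ∂μ, ∀ j : ℕ,
      g ∉ {g | ∃ y ∈ Fx R, ∃ z ∈ (Fx R)ᗮ, m g = y + z ∧ 1 / ((j : ℝ) + 1) ≤ ‖z‖} := by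
    rw [ae_all_iff]
    intro j
    rw [ae_iff]
    simpa using key (1 / ((j : ℝ) + 1)) (by positivity)
  filter_upwards [hall] with g hg
  obtain ⟨y, hy, z, hz, hyz⟩ := (Fx R).exists_add_mem_mem_orthogonal (m g)
  have hz0 : z = 0 := by
    by_contra hne
    obtain ⟨j, hj⟩ := exists_nat_one_div_lt (norm_pos_iff.2 hne)
    exact hg j ⟨y, hy, z, hz, hyz, hj.le⟩
  rw [hz0, add_zero] at hyz
  intro a
  rw [hyz]
  exact hy a

end R970.WM
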