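import Pool.Agent.R970.WM.Stm2

open MeasureTheory Set Filter Topology

namespace R970.WM

namespace PWbAux

open scoped InnerProductSpace

section A

variable {G : Type} [Group G] [TopologicalSpace G] [IsTopologicalGroup G] [CompactSpace G]

/-- left translation -/
noncomputable def L (a : G) : C(G, ℂ) →ₐ[ℂ] C(G, ℂ) :=
  ContinuousMap.compRightAlgHom ℂ ℂ ⟨fun y => a⁻¹ * y, by fun_prop⟩

omit [CompactSpace G] in
lemma L_apply (a : G) (f : C(G, ℂ)) (y : G) : L a f y = f (a⁻¹ * y) := rfl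

lemma L_one (f : C(G, ℂ)) : L 1 f = f := by
  ext y
  rw [L_apply, inv_one, one_mul]

lemma L_mul (a b : G) (f : C(G, ℂ)) : L (a * b) f = L a (L b f) := by
  ext y
  rw [L_apply, L_apply, L_apply, mul_inv_rev, mul_assoc]

variable [T2Space G] [SecondCountableTopology G] [MeasurableSpace G] [BorelSpace G]
  (ν : Measure G) [IsProbabilityMeasure ν] [ν.IsHaarMeasure]

theorem oneSpace (E : Submodule ℂ C(G, ℂ)) [FiniteDimensional ℂ E]
    (hE : ∀ a : G, ∀ f ∈ E, L a f ∈ E) :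
    ∃ (N : ℕ) (e : Fin N → G → ℂ)
      (R : G →* (EuclideanSpace ℂ (Fin N) ≃ₗᵢ[ℂ] EuclideanSpace ℂ (Fin N))),
      (∀ j, Continuous (e j)) ∧
      (∀ i j, ∫ y, (starRingEnd ℂ) (e i y) * e j y ∂ν = if i = j then 1 else 0) ∧
      (Continuous (fun p : G × EuclideanSpace ℂ (Fin N) => R p.1 p.2)) ∧
      (∀ (a : G) j (y : G), e j (a⁻¹ * y) =
        ∑ l, (R a (EuclideanSpace.single j 1)) l * e l y) ∧
      (∀ f ∈ E, ∃ c : Fin N → ℂ, ∀ y, f y = ∑ j, c j * e j y) := by
  classical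
  let ι : C(G, ℂ) →ₗ[ℂ] Lp ℂ 2 ν := (ContinuousMap.toLp 2 ν ℂ : C(G, ℂ) →L[ℂ] Lp ℂ 2 ν)
  have hinj : Function.Injective ι := ContinuousMap.toLp_injective ν
  have : FiniteDimensional ℂ (E.map ι) := inferInstance
  let b := stdOrthonormalBasis ℂ (E.map ι)
  let N := Module.finrank ℂ (E.map ι)
  let T : E ≃ₗ[ℂ] EuclideanSpace ℂ (Fin N) :=
    (Submodule.equivMapOfInjective ι hinj E).trans b.repr.toLinearEquiv
  have hT : ∀ f g : E, ⟪T f, T g⟫_ℂ = ∫ y, (starRingEnd ℂ) ((f : C(G, ℂ)) y) *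
      (g : C(G, ℂ)) y ∂ν := by
    intro f g
    have h1 : ⟪T f, T g⟫_ℂ = ⟪Submodule.equivMapOfInjective ι hinj E f,
        Submodule.equivMapOfInjective ι hinj E g⟫_ℂ := b.repr.inner_map_map _ _
    rw [h1, Submodule.coe_inner, Submodule.coe_equivMapOfInjective_apply,
      Submodule.coe_equivMapOfInjective_apply]
    have h2 : ⟪ι f, ι g⟫_ℂ = ∫ x, (g : C(G, ℂ)) x * (starRingEnd ℂ) ((f : C(G, ℂ)) x) ∂ν :=
      ContinuousMap.inner_toLp ν (f : C(G, ℂ)) (g : C(G, ℂ))
    rw [h2]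
    simp_rw [mul_comm]
  let La : G → E →ₗ[ℂ] E := fun a => (L a).toLinearMap.restrict (hE a)
  have La_apply : ∀ a (f : E) y, ((La a f : E) : C(G, ℂ)) y = (f : C(G, ℂ)) (a⁻¹ * y) :=
    fun a f y => rfl
  have La_one : ∀ f : E, La 1 f = f := fun f => Subtype.ext (L_one _)
  have La_mul : ∀ a b (f : E), La (a * b) f = La a (La b f) := fun a b f => Subtype.ext (L_mul _ _ _)
  have La_inner : ∀ a (f g : E), ⟪T (La a f), T (La a g)⟫_ℂ = ⟪T f, T g⟫_ℂ := by
    intro a f g
    rw [hT, hT]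
    simp_rw [La_apply]
    exact integral_mul_left_eq_self (μ := ν)
      (fun y => (starRingEnd ℂ) ((f : C(G, ℂ)) y) * (g : C(G, ℂ)) y) a⁻¹
  let Rl : G → (EuclideanSpace ℂ (Fin N) ≃ₗ[ℂ] EuclideanSpace ℂ (Fin N)) := fun a =>
    LinearEquiv.ofLinearMap (T.toLinearMap ∘ₗ La a ∘ₗ T.symm.toLinearMap)
      (T.toLinearMap ∘ₗ La a⁻¹ ∘ₗ T.symm.toLinearMap)
      (by
        apply LinearMap.ext
        intro v
        simp only [LinearMap.comp_apply, LinearEquiv.coe_coe, LinearEquiv.symm_apply_apply,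
          LinearMap.id_apply]
        rw [← La_mul, mul_inv_cancel, La_one, LinearEquiv.apply_symm_apply])
      (by
        apply LinearMap.ext
        intro v
        simp only [LinearMap.comp_apply, LinearEquiv.coe_coe, LinearEquiv.symm_apply_apply,
          LinearMap.id_apply]
        rw [← La_mul, inv_mul_cancel, La_one, LinearEquiv.apply_symm_apply])
  have Rl_apply : ∀ a v, Rl a v = T (La a (T.symm v)) := fun a v => rfl
  let Ri : G → (EuclideanSpace ℂ (Fin N) ≃ₗᵢ[ℂ] EuclideanSpace ℂ (Fin N)) := fun a =>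
    (Rl a).isometryOfInner (by
      intro v w
      rw [Rl_apply, Rl_apply, La_inner, LinearEquiv.apply_symm_apply, LinearEquiv.apply_symm_apply])
  have Ri_apply : ∀ a v, Ri a v = T (La a (T.symm v)) := fun a v => rfl
  let R : G →* (EuclideanSpace ℂ (Fin N) ≃ₗᵢ[ℂ] EuclideanSpace ℂ (Fin N)) :=
    MonoidHom.mk' Ri (by
      intro a b
      apply LinearIsometryEquiv.ext
      intro v
      rw [LinearIsometryEquiv.coe_mul, Function.comp_apply, Ri_apply, Ri_apply, Ri_apply,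
        LinearEquiv.symm_apply_apply, La_mul])
  have R_apply : ∀ a v, R a v = T (La a (T.symm v)) := fun a v => rfl
  let e : Fin N → G → ℂ := fun j y =>
    ((T.symm (EuclideanSpace.single j (1 : ℂ)) : E) : C(G, ℂ)) y
  have hexp : ∀ v : EuclideanSpace ℂ (Fin N), v = ∑ l, v l • EuclideanSpace.single l (1 : ℂ) := by
    intro v
    ext i
    simp [Finset.sum_apply, Pi.single_apply]
  have hTs : ∀ (v : EuclideanSpace ℂ (Fin N)) y, ((T.symm v : E) : C(G, ℂ)) y =
      ∑ l, v l * e l y := by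
    intro v y
    conv_lhs => rw [hexp v]
    rw [map_sum]
    simp only [map_smul]
    rw [Submodule.coe_sum, ContinuousMap.sum_apply]
    rfl
  have hcont : ∀ j, Continuous (e j) := fun j => ContinuousMap.continuous _
  refine ⟨N, e, R, hcont, ?_, ?_, ?_, ?_⟩
  · intro i j
    have h := hT (T.symm (EuclideanSpace.single i (1 : ℂ))) (T.symm (EuclideanSpace.single j 1))
    rw [LinearEquiv.apply_symm_apply, LinearEquiv.apply_symm_apply,
      EuclideanSpace.inner_single_left] at h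
    rw [← h]
    simp [Pi.single_apply]
  · have hcoef : ∀ a j l, (R a (EuclideanSpace.single j (1 : ℂ))) l =
        ∫ y, (starRingEnd ℂ) (e l y) * e j (a⁻¹ * y) ∂ν := by
      intro a j l
      have h := hT (T.symm (EuclideanSpace.single l (1 : ℂ)))
        (La a (T.symm (EuclideanSpace.single j 1)))
      rw [LinearEquiv.apply_symm_apply, EuclideanSpace.inner_single_left, map_one, one_mul] at h
      rw [R_apply, h]
      rfl
    have hcoefc : ∀ j l, Continuous (fun a : G => (R a (EuclideanSpace.single j (1 : ℂ))) l) := by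
      intro j l
      simp_rw [hcoef]
      have h := continuous_parametric_integral_of_continuous (μ := ν)
        (f := fun (a : G) (y : G) => (starRingEnd ℂ) (e l y) * e j (a⁻¹ * y))
        (by
          apply Continuous.mul
          · exact Complex.continuous_conj.comp ((hcont l).comp continuous_snd)
          · exact (hcont j).comp (continuous_fst.inv.mul continuous_snd)) isCompact_univ
      simpa using h
    have hR : ∀ a v, R a v = ∑ j, v j • R a (EuclideanSpace.single j (1 : ℂ)) := by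
      intro a v
      conv_lhs => rw [hexp v]
      rw [map_sum]
      simp only [map_smul]
    rw [show (fun p : G × EuclideanSpace ℂ (Fin N) => R p.1 p.2) = fun p =>
      ∑ j, p.2 j • R p.1 (EuclideanSpace.single j (1 : ℂ)) from funext fun p => hR p.1 p.2]
    apply continuous_finsetSum
    intro j _
    have c1 : Continuous (fun a : G × EuclideanSpace ℂ (Fin N) => a.2 j) :=
      (EuclideanSpace.proj j : EuclideanSpace ℂ (Fin N) →L[ℂ] ℂ).continuous.comp continuous_snd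
    have c2 : Continuous (fun a : G × EuclideanSpace ℂ (Fin N) =>
        R a.1 (EuclideanSpace.single j (1 : ℂ))) := by
      rw [← (PiLp.homeomorph 2 (fun _ : Fin N => ℂ)).comp_continuous_iff]
      apply continuous_pi
      intro l
      exact (hcoefc j l).comp continuous_fst
    exact c1.smul c2
  · intro a j y
    have h1 : e j (a⁻¹ * y) = ((T.symm (R a (EuclideanSpace.single j (1 : ℂ))) : E) : C(G, ℂ)) y := by
      rw [R_apply, LinearEquiv.symm_apply_apply]
      rfl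
    rw [h1, hTs]
  · intro f hf
    refine ⟨fun j => T ⟨f, hf⟩ j, fun y => ?_⟩
    rw [← hTs, LinearEquiv.symm_apply_apply]

end A

section B

variable {G : Type} [Group G] [TopologicalSpace G] [IsTopologicalGroup G] [CompactSpace G]
variable {W : Type} [NormedAddCommGroup W] [InnerProductSpace ℂ W] [FiniteDimensional ℂ W]
  (ρ : G →* (W ≃ₗᵢ[ℂ] W)) (hρ : Continuous (fun p : G × W => ρ p.1 p.2))

/-- matrix coefficient -/
noncomputable def mc (v w : W) : C(G, ℂ) :=
  ⟨fun y => ⟪v, ρ y w⟫_ℂ, continuous_const.inner (hρ.comp (continuous_id.prodMk continuous_const))⟩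

lemma mc_apply (v w : W) (y : G) : mc ρ hρ v w y = ⟪v, ρ y w⟫_ℂ := rfl

/-- the finite set of matrix coefficients in an orthonormal basis -/
noncomputable def S0 : Set C(G, ℂ) :=
  range (fun p : Fin (Module.finrank ℂ W) × Fin (Module.finrank ℂ W) =>
    mc ρ hρ (stdOrthonormalBasis ℂ W p.1) (stdOrthonormalBasis ℂ W p.2))

lemma S0_finite : (S0 ρ hρ).Finite := finite_range _

lemma mc_mem (v w : W) : mc ρ hρ v w ∈ Submodule.span ℂ (S0 ρ hρ) := by
  classical
  set b := stdOrthonormalBasis ℂ W with hb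
  have h : mc ρ hρ v w = ∑ i, ∑ j, ((starRingEnd ℂ) ⟪b i, v⟫_ℂ * ⟪b j, w⟫_ℂ) •
      mc ρ hρ (b i) (b j) := by
    ext y
    rw [ContinuousMap.sum_apply]
    simp_rw [ContinuousMap.sum_apply, ContinuousMap.smul_apply, mc_apply]
    conv_lhs => rw [← b.sum_repr' v, ← b.sum_repr' w]
    rw [sum_inner]
    apply Finset.sum_congr rfl
    intro i _
    rw [map_sum, inner_sum]
    apply Finset.sum_congr rfl
    intro j _
    rw [map_smul, inner_smul_left, inner_smul_right, smul_eq_mul, mul_assoc]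
  rw [h]
  apply Submodule.sum_mem
  intro i _
  apply Submodule.sum_mem
  intro j _
  apply Submodule.smul_mem
  exact Submodule.subset_span ⟨(i, j), rfl⟩

/-- generating space -/
noncomputable def F0 : Submodule ℂ C(G, ℂ) := Submodule.span ℂ ({1} ∪ (S0 ρ hρ ∪ star (S0 ρ hρ)))

lemma F0_fg : (F0 ρ hρ).FG := by
  apply Submodule.fg_span
  apply (finite_singleton _).union
  apply (S0_finite ρ hρ).union
  have := (S0_finite ρ hρ).image star
  rwa [image_star] at this

lemma one_mem_F0 : (1 : C(G, ℂ)) ∈ F0 ρ hρ := Submodule.subset_span (Or.inl rfl)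

lemma star_mem {x : C(G, ℂ)} (hx : x ∈ Submodule.span ℂ (S0 ρ hρ)) :
    star x ∈ F0 ρ hρ := by
  induction hx using Submodule.span_induction with
  | mem x hx => exact Submodule.subset_span (Or.inr (Or.inr (by
      rw [Set.mem_star, star_star]; exact hx)))
  | zero => rw [star_zero]; exact Submodule.zero_mem _
  | add x y _ _ h1 h2 => rw [star_add]; exact Submodule.add_mem _ h1 h2
  | smul c x _ h => rw [star_smul]; exact Submodule.smul_mem _ _ h

lemma span_le_F0 : Submodule.span ℂ (S0 ρ hρ) ≤ F0 ρ hρ :=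
  Submodule.span_mono (fun _ h => Or.inr (Or.inl h))

lemma L_mc (a : G) (v w : W) : L a (mc ρ hρ v w) = mc ρ hρ (ρ a v) w := by
  ext y
  rw [L_apply, mc_apply, mc_apply, map_mul, map_inv, LinearIsometryEquiv.coe_mul,
    Function.comp_apply, ← (ρ a).inner_map_map, LinearIsometryEquiv.coe_inv,
    LinearIsometryEquiv.apply_symm_apply]

lemma L_star (a : G) (f : C(G, ℂ)) : L a (star f) = star (L a f) := rfl

lemma L_F0 (a : G) : (F0 ρ hρ).map (L a).toLinearMap ≤ F0 ρ hρ := by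
  rw [F0, Submodule.map_span, Submodule.span_le]
  rintro _ ⟨x, hx, rfl⟩
  change L a x ∈ F0 ρ hρ
  rcases hx with hx | hx | hx
  · rw [mem_singleton_iff] at hx
    rw [hx, map_one]
    exact one_mem_F0 ρ hρ
  · obtain ⟨p, rfl⟩ := hx
    simp only
    rw [L_mc]
    exact span_le_F0 ρ hρ (mc_mem ρ hρ _ _)
  · obtain ⟨p, hp⟩ := hx
    have : x = star (mc ρ hρ (stdOrthonormalBasis ℂ W p.1) (stdOrthonormalBasis ℂ W p.2)) := by
      simp only at hp
      rw [hp, star_star]
    rw [this, L_star, L_mc]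
    exact star_mem ρ hρ (mc_mem ρ hρ _ _)

lemma pow_mono' {A : Type} [CommRing A] [Algebra ℂ A] {P Q : Submodule ℂ A} (h : P ≤ Q) (k : ℕ) :
    P ^ k ≤ Q ^ k := by
  induction k with
  | zero => exact le_rfl
  | succ k ih =>
    rw [Submodule.pow_succ, Submodule.pow_succ]
    exact Submodule.mul_le.mpr fun x hx y hy => Submodule.mul_mem_mul (ih hx) (h hy)

lemma L_pow (a : G) (k : ℕ) : ∀ f ∈ (F0 ρ hρ) ^ k, L a f ∈ (F0 ρ hρ) ^ k := by
  intro f hf
  have h1 : L a f ∈ ((F0 ρ hρ) ^ k).map (L a).toLinearMap := ⟨f, hf, rfl⟩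
  rw [Submodule.map_pow] at h1
  exact pow_mono' (L_F0 ρ hρ a) k h1

lemma pow_le (k m : ℕ) : (F0 ρ hρ) ^ k ≤ (F0 ρ hρ) ^ (k + m) := by
  induction m with
  | zero => exact le_rfl
  | succ m ih =>
    refine ih.trans ?_
    rw [← add_assoc, Submodule.pow_succ]
    calc (F0 ρ hρ) ^ (k + m) = (F0 ρ hρ) ^ (k + m) * 1 := (Submodule.mul_one _).symm
      _ ≤ (F0 ρ hρ) ^ (k + m) * F0 ρ hρ :=
        Submodule.mul_le.mpr fun x hx y hy => Submodule.mul_mem_mul hx
          (Submodule.one_le.mpr (one_mem_F0 ρ hρ) hy)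

lemma exists_pow {x : C(G, ℂ)} (hx : x ∈ Algebra.adjoin ℂ (S0 ρ hρ ∪ star (S0 ρ hρ))) :
    ∃ k : ℕ, x ∈ (F0 ρ hρ) ^ k := by
  induction hx using Algebra.adjoin_induction with
  | mem x hx => exact ⟨1, by rw [Submodule.pow_one]; exact Submodule.subset_span (Or.inr hx)⟩
  | algebraMap r => exact ⟨0, by rw [Submodule.pow_zero]; exact Submodule.algebraMap_mem r⟩
  | add x y _ _ h1 h2 =>
    obtain ⟨k, hk⟩ := h1
    obtain ⟨m, hm⟩ := h2
    refine ⟨k + m, Submodule.add_mem _ (pow_le ρ hρ k m hk) ?_⟩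
    rw [add_comm]
    exact pow_le ρ hρ m k hm
  | mul x y _ _ h1 h2 =>
    obtain ⟨k, hk⟩ := h1
    obtain ⟨m, hm⟩ := h2
    refine ⟨k + m, ?_⟩
    by_cases h0 : m = 0
    · subst h0
      rw [Submodule.pow_zero, Submodule.mem_one] at hm
      obtain ⟨r, rfl⟩ := hm
      rw [mul_comm, ← Algebra.smul_def]
      exact Submodule.smul_mem _ _ hk
    · rw [Submodule.pow_add _ h0]
      exact Submodule.mul_mem_mul hk hm

lemma sep (hinj : Function.Injective ρ) :
    (StarAlgebra.adjoin ℂ (S0 ρ hρ)).SeparatesPoints := by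
  intro y z hyz
  by_contra hcon
  apply hyz
  apply hinj
  set b := stdOrthonormalBasis ℂ W with hb
  have h1 : ∀ i j, ⟪b i, ρ y (b j)⟫_ℂ = ⟪b i, ρ z (b j)⟫_ℂ := by
    intro i j
    by_contra h2
    apply hcon
    refine ⟨mc ρ hρ (b i) (b j), ⟨mc ρ hρ (b i) (b j), ?_, rfl⟩, h2⟩
    exact StarAlgebra.subset_adjoin ℂ _ ⟨(i, j), rfl⟩
  apply LinearIsometryEquiv.ext
  intro w
  have h2 : (ρ y).toLinearEquiv.toLinearMap = (ρ z).toLinearEquiv.toLinearMap := by
    apply b.toBasis.ext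
    intro j
    rw [OrthonormalBasis.coe_toBasis]
    change ρ y (b j) = ρ z (b j)
    rw [← b.sum_repr' (ρ y (b j)), ← b.sum_repr' (ρ z (b j))]
    simp_rw [h1]
  exact congrArg (fun T => T w) h2

theorem dense (hinj : Function.Injective ρ) (f : C(G, ℂ)) (ε : ℝ) (hε : 0 < ε) :
    ∃ k : ℕ, ∃ g ∈ (F0 ρ hρ) ^ k, ‖f - g‖ < ε := by
  have h1 := ContinuousMap.starSubalgebra_topologicalClosure_eq_top_of_separatesPoints
    (StarAlgebra.adjoin ℂ (S0 ρ hρ)) (sep ρ hρ hinj)
  have h2 : f ∈ (StarAlgebra.adjoin ℂ (S0 ρ hρ)).topologicalClosure := by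
    rw [h1]; trivial
  have h3 : f ∈ closure ((StarAlgebra.adjoin ℂ (S0 ρ hρ) : StarSubalgebra ℂ C(G, ℂ)) :
    Set C(G, ℂ)) := h2
  rw [Metric.mem_closure_iff] at h3
  obtain ⟨g, hg, hfg⟩ := h3 ε hε
  obtain ⟨k, hk⟩ := exists_pow ρ hρ (x := g) hg
  exact ⟨k, g, hk, by rwa [← dist_eq_norm]⟩

end B

end PWbAux

open PWbAux in
theorem pw : Stm.pw := by
  intro G _ _ _ _ _ _ _ _ _ ν _ _ W0 _ _ _ ρ hρ hinj
  have hfd : ∀ k : ℕ, FiniteDimensional ℂ ((F0 ρ hρ) ^ k : Submodule ℂ C(G, ℂ)) := fun k =>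
    Module.Finite.iff_fg.mpr ((F0_fg ρ hρ).pow k)
  have h := fun k : ℕ => oneSpace ν ((F0 ρ hρ) ^ k) (fun a f hf => L_pow ρ hρ a k f hf)
  choose N e R h1 h2 h3 h4 h5 using h
  refine ⟨N, e, R, h1, h2, h3, h4, ?_⟩
  intro f hf ε hε
  obtain ⟨k, g, hg, hfg⟩ := PWbAux.dense ρ hρ hinj ⟨f, hf⟩ ε hε
  obtain ⟨c, hc⟩ := h5 k g hg
  refine ⟨k, c, fun y => ?_⟩
  rw [← hc y]
  exact lt_of_le_of_lt (ContinuousMap.norm_coe_le_norm ((⟨f, hf⟩ : C(G, ℂ)) - g) y) hfg

end R970.WM
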