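import Pool.Agent.R970.WM.Stm2

set_option autoImplicit false

open MeasureTheory Set Filter Topology

namespace R970.WM

namespace SMw

variable {n : ℕ}

lemma cutR_a (s : St n) (α β : Fin n) : (cutR s α β).a = s.a := by
  unfold cutR; split_ifs <;> rfl

lemma cutR_b (s : St n) (α β : Fin n) : (cutR s α β).b = s.b - min (s.l α) (s.l β) := by
  unfold cutR
  split_ifs with h1 h2
  · rw [min_eq_right h1.le]
  · rw [min_eq_left h2.le]
  · rw [min_eq_left (not_lt.mp h1)]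

lemma cutR_S (s : St n) (α β : Fin n) : (cutR s α β).S ⊆ s.S := by
  unfold cutR
  split_ifs
  · exact subset_rfl
  · exact subset_rfl
  · exact Finset.erase_subset _ _

lemma cutR_tie (s : St n) (α β : Fin n) (h : s.l α = s.l β) : (cutR s α β).S = s.S.erase α := by
  unfold cutR
  rw [if_neg (by rw [h]; exact lt_irrefl _), if_neg (by rw [h]; exact lt_irrefl _)]

lemma cutL_b (s : St n) (α β : Fin n) : (cutL s α β).b = s.b := by
  show -(cutR (refl s) α β).a = s.b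
  rw [cutR_a]
  show - -s.b = s.b
  ring

lemma cutL_a (s : St n) (α β : Fin n) : (cutL s α β).a = s.a + min (s.l α) (s.l β) := by
  show -(cutR (refl s) α β).b = _
  rw [cutR_b]
  show -(-s.a - min (s.l α) (s.l β)) = _
  ring

lemma cutL_S (s : St n) (α β : Fin n) : (cutL s α β).S ⊆ s.S := cutR_S (refl s) α β

lemma cutL_tie (s : St n) (α β : Fin n) (h : s.l α = s.l β) : (cutL s α β).S = s.S.erase α :=
  cutR_tie (refl s) α β h

lemma topLast_refl {s : St n} {α : Fin n} : TopLast (refl s) α ↔ TopFirst s α := by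
  show (α ∈ s.S ∧ (-s.t α - s.l α) + s.l α = -s.a) ↔ (α ∈ s.S ∧ s.t α = s.a)
  constructor
  · rintro ⟨h1, h2⟩; exact ⟨h1, by linarith⟩
  · rintro ⟨h1, h2⟩; exact ⟨h1, by linarith⟩

lemma botLast_refl {s : St n} {α : Fin n} : BotLast (refl s) α ↔ BotFirst s α := by
  show (α ∈ s.S ∧ (-s.t α - s.l α) + -s.d α + s.l α = -s.a) ↔ (α ∈ s.S ∧ s.t α + s.d α = s.a)
  constructor
  · rintro ⟨h1, h2⟩; exact ⟨h1, by linarith⟩
  · rintro ⟨h1, h2⟩; exact ⟨h1, by linarith⟩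

lemma topFirst_refl {s : St n} {α : Fin n} : TopFirst (refl s) α ↔ TopLast s α := by
  show (α ∈ s.S ∧ (-s.t α - s.l α) = -s.b) ↔ (α ∈ s.S ∧ s.t α + s.l α = s.b)
  constructor
  · rintro ⟨h1, h2⟩; exact ⟨h1, by linarith⟩
  · rintro ⟨h1, h2⟩; exact ⟨h1, by linarith⟩

lemma botFirst_refl {s : St n} {α : Fin n} : BotFirst (refl s) α ↔ BotLast s α := by
  show (α ∈ s.S ∧ (-s.t α - s.l α) + -s.d α = -s.b) ↔ (α ∈ s.S ∧ s.t α + s.d α + s.l α = s.b)
  constructor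
  · rintro ⟨h1, h2⟩; exact ⟨h1, by linarith⟩
  · rintro ⟨h1, h2⟩; exact ⟨h1, by linarith⟩

/-- left cuts keep the last letters -/
lemma keepL (hk : Stm.keep) (hti : Stm.tileR) (s : St n) (α β α' β' : Fin n) (ht : Tile s)
    (hc : 2 ≤ s.S.card) (hne : α' ≠ β') (h1 : TopFirst s α') (h2 : BotFirst s β')
    (hl : s.l α' ≠ s.l β') (h3 : TopLast s α) (h4 : BotLast s β) :
    TopLast (cutL s α' β') α ∧ BotLast (cutL s α' β') β ∧
      ∀ i, s.l i - min (s.l α') (s.l β') ≤ (cutL s α' β').l i := by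
  obtain ⟨k1, k2, _, _, _, k6⟩ := hk n (refl s) α' β' α β (hti.2.1 n s ht) hc hne
    (topLast_refl.mpr h1) (botLast_refl.mpr h2) hl (topFirst_refl.mpr h3) (botFirst_refl.mpr h4)
  exact ⟨topLast_refl.mpr k1, botLast_refl.mpr k2, fun i => (k6 i).2⟩

lemma exists_terminal {X : Type} (r : X → X → Prop) (x : X)
    (h : ∀ f : ℕ → X, f 0 = x → (∀ j, r (f j) (f (j + 1))) → False) :
    ∃ y, Relation.ReflTransGen r x y ∧ ∀ z, ¬ r y z := by
  by_contra hcon
  push Not at hcon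
  choose F hF using fun y : {y // Relation.ReflTransGen r x y} => hcon y.1 y.2
  let G : {y // Relation.ReflTransGen r x y} → {y // Relation.ReflTransGen r x y} :=
    fun y => ⟨F y, y.2.tail (hF y)⟩
  refine h (fun j => (G^[j] ⟨x, Relation.ReflTransGen.refl⟩).1) rfl ?_
  intro j
  have : G^[j + 1] ⟨x, Relation.ReflTransGen.refl⟩ = G (G^[j] ⟨x, Relation.ReflTransGen.refl⟩) :=
    Function.iterate_succ_apply' G j _
  show r _ (G^[j + 1] ⟨x, Relation.ReflTransGen.refl⟩).1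
  rw [this]
  exact hF _

/-- a class of states closed under cuts without ties -/
structure Cls (x0 L η : ℝ) (C : Set (St n)) : Prop where
  tile : ∀ s ∈ C, Tile s
  irr : ∀ s ∈ C, Irred s
  card : ∀ s ∈ C, 2 ≤ s.S.card
  ax : ∀ s ∈ C, s.a < x0
  xb : ∀ s ∈ C, x0 < s.b
  cR : ∀ s ∈ C, ∀ s', StepR x0 s s' → s' ∈ C
  cL : ∀ s ∈ C, ∀ s', StepL x0 s s' → s' ∈ C
  nR : ∀ s ∈ C, ∀ α β, α ≠ β → TopLast s α → BotLast s β → x0 < (cutR s α β).b → s.l α ≠ s.l β
  nL : ∀ s ∈ C, ∀ α β, α ≠ β → TopFirst s α → BotFirst s β → (cutL s α β).a ≤ x0 → s.l α ≠ s.l β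
  lo : ∀ s ∈ C, L ≤ s.b - s.a
  up : ∀ s ∈ C, s.b - s.a < L + η

variable {x0 L η : ℝ} {C : Set (St n)}

lemma reachR (hC : Cls x0 L η C) {s s' : St n} (hs : s ∈ C)
    (h : Relation.ReflTransGen (StepR x0) s s') : s' ∈ C ∧ s'.a = s.a := by
  induction h with
  | refl => exact ⟨hs, rfl⟩
  | tail _ h2 ih =>
    refine ⟨hC.cR _ ih.1 _ h2, ?_⟩
    obtain ⟨α, β, _, _, _, rfl, _⟩ := h2
    rw [cutR_a]; exact ih.2

lemma reachL (hC : Cls x0 L η C) {s s' : St n} (hs : s ∈ C)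
    (h : Relation.ReflTransGen (StepL x0) s s') : s' ∈ C ∧ s'.b = s.b := by
  induction h with
  | refl => exact ⟨hs, rfl⟩
  | tail _ h2 ih =>
    refine ⟨hC.cL _ ih.1 _ h2, ?_⟩
    obtain ⟨α, β, _, _, _, rfl, _⟩ := h2
    rw [cutL_b]; exact ih.2

lemma endR (htR : Stm.termR) (hC : Cls x0 L η C) {s : St n} (hs : s ∈ C) :
    ∃ s', Relation.ReflTransGen (StepR x0) s s' ∧ ∀ z, ¬ StepR x0 s' z := by
  refine exists_terminal (StepR x0) s ?_
  intro f h0 hf
  have hfC : ∀ j, f j ∈ C := by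
    intro j
    induction j with
    | zero => rw [h0]; exact hs
    | succ j ih => exact hC.cR _ ih _ (hf j)
  exact htR n x0 f (fun j => ⟨hC.tile _ (hfC j), hC.irr _ (hfC j)⟩) hf (hC.xb _ (hfC 0))
    (hC.ax _ (hfC 0))

lemma endL (htL : Stm.termL) (hC : Cls x0 L η C) {s : St n} (hs : s ∈ C) :
    ∃ s', Relation.ReflTransGen (StepL x0) s s' ∧ ∀ z, ¬ StepL x0 s' z := by
  refine exists_terminal (StepL x0) s ?_
  intro f h0 hf
  have hfC : ∀ j, f j ∈ C := by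
    intro j
    induction j with
    | zero => rw [h0]; exact hs
    | succ j ih => exact hC.cL _ ih _ (hf j)
  exact htL n x0 f (fun j => ⟨hC.tile _ (hfC j), hC.irr _ (hfC j)⟩) hf
    (fun j => hC.ax _ (hfC j)) (hC.xb _ (hfC 0))

lemma keepsR (hk : Stm.keep) (hC : Cls x0 L η C) {s s' : St n} {α' β' : Fin n} (hs : s ∈ C)
    (h1 : TopFirst s α') (h2 : BotFirst s β') (h : Relation.ReflTransGen (StepR x0) s s') :
    s' ∈ C ∧ TopFirst s' α' ∧ BotFirst s' β' ∧ ∀ i, s.l i - (s.b - s'.b) ≤ s'.l i := by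
  induction h with
  | refl => exact ⟨hs, h1, h2, fun i => by linarith⟩
  | @tail y z _ hyz ih =>
    obtain ⟨i1, i2, i3, i4⟩ := ih
    have hz := hC.cR _ i1 _ hyz
    obtain ⟨α, β, hne, ha, hb, rfl, hx⟩ := hyz
    obtain ⟨k1, k2, _, _, k5, k6⟩ := hk n y α β α' β' (hC.tile _ i1) (hC.card _ i1) hne ha hb
      (hC.nR _ i1 α β hne ha hb hx) i2 i3
    refine ⟨hz, k1, k2, fun i => ?_⟩
    have e1 := i4 i
    have e2 := (k6 i).2
    rw [k5]
    linarith

lemma keepsL (hk : Stm.keep) (hti : Stm.tileR) (hC : Cls x0 L η C) {s s' : St n} {α β : Fin n}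
    (hs : s ∈ C) (h1 : TopLast s α) (h2 : BotLast s β)
    (h : Relation.ReflTransGen (StepL x0) s s') :
    s' ∈ C ∧ TopLast s' α ∧ BotLast s' β ∧ ∀ i, s.l i - (s'.a - s.a) ≤ s'.l i := by
  induction h with
  | refl => exact ⟨hs, h1, h2, fun i => by linarith⟩
  | @tail y z _ hyz ih =>
    obtain ⟨i1, i2, i3, i4⟩ := ih
    have hz := hC.cL _ i1 _ hyz
    obtain ⟨α', β', hne, ha, hb, rfl, hx⟩ := hyz
    obtain ⟨k1, k2, k6⟩ := keepL hk hti y α β α' β' (hC.tile _ i1) (hC.card _ i1) hne ha hb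
      (hC.nL _ i1 α' β' hne ha hb hx) i2 i3
    refine ⟨hz, k1, k2, fun i => ?_⟩
    have e1 := i4 i
    have e2 := k6 i
    rw [cutL_a]
    linarith

lemma core (he : Stm.ends) (hk : Stm.keep) (hti : Stm.tileR) (htR : Stm.termR)
    (htL : Stm.termL) (hη : 0 < η) (hL : 6 * η < L) (hC : Cls x0 L η C) {s3 : St n}
    (hs3 : s3 ∈ C) : False := by
  have hlo3 := hC.lo _ hs3
  have hup3 := hC.up _ hs3
  by_cases hcase : L / 2 ≤ x0 - s3.a
  · -- left cuts, then right cuts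
    obtain ⟨s4, h34, hno4⟩ := endL htL hC hs3
    obtain ⟨hs4, hb4⟩ := reachL hC hs3 h34
    have hlo4 := hC.lo _ hs4
    have hup4 := hC.up _ hs4
    obtain ⟨_, ⟨α', β', hne', hα', hβ'⟩, _⟩ := he n s4 (hC.tile _ hs4) (hC.irr _ hs4)
      (hC.card _ hs4)
    have hm4 : x0 < s4.a + min (s4.l α') (s4.l β') := by
      by_contra hcon
      rw [not_lt] at hcon
      exact hno4 _ ⟨α', β', hne', hα', hβ', rfl, by rw [cutL_a]; exact hcon⟩
    obtain ⟨s5, h45, hno5⟩ := endR htR hC hs4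
    obtain ⟨hs5, hα5, hβ5, hl5⟩ := keepsR hk hC hs4 hα' hβ' h45
    have ha5 := (reachR hC hs4 h45).2
    have hlo5 := hC.lo _ hs5
    have hup5 := hC.up _ hs5
    obtain ⟨⟨α, β, hne, hα, hβ⟩, _, hend⟩ := he n s5 (hC.tile _ hs5) (hC.irr _ hs5)
      (hC.card _ hs5)
    have hm5 : s5.b - min (s5.l α) (s5.l β) ≤ x0 := by
      by_contra hcon
      rw [not_le] at hcon
      exact hno5 _ ⟨α, β, hne, hα, hβ, rfl, by rw [cutR_b]; exact hcon⟩
    have h6 := hend α β α' β' hα hβ hα5 hβ5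
    have hs6 : cutL s5 α' β' ∈ C :=
      hC.cL _ hs5 _ ⟨α', β', hne', hα5, hβ5, rfl, by rw [cutL_a]; linarith⟩
    have hlo6 := hC.lo _ hs6
    rw [cutL_a, cutL_b] at hlo6
    have e1 := hl5 α'
    have e2 := hl5 β'
    have e3 : s4.l α' ≥ min (s4.l α') (s4.l β') := min_le_left _ _
    have e4 : s4.l β' ≥ min (s4.l α') (s4.l β') := min_le_right _ _
    have e5 : min (s4.l α') (s4.l β') - (s4.b - s5.b) ≤ min (s5.l α') (s5.l β') :=
      le_min (by linarith) (by linarith)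
    linarith
  · rw [not_le] at hcase
    obtain ⟨s4, h34, hno4⟩ := endR htR hC hs3
    obtain ⟨hs4, ha4⟩ := reachR hC hs3 h34
    have hlo4 := hC.lo _ hs4
    have hup4 := hC.up _ hs4
    obtain ⟨⟨α, β, hne, hα, hβ⟩, _, _⟩ := he n s4 (hC.tile _ hs4) (hC.irr _ hs4)
      (hC.card _ hs4)
    have hm4 : s4.b - min (s4.l α) (s4.l β) ≤ x0 := by
      by_contra hcon
      rw [not_le] at hcon
      exact hno4 _ ⟨α, β, hne, hα, hβ, rfl, by rw [cutR_b]; exact hcon⟩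
    obtain ⟨s5, h45, hno5⟩ := endL htL hC hs4
    obtain ⟨hs5, hα5, hβ5, hl5⟩ := keepsL hk hti hC hs4 hα hβ h45
    have hb5 := (reachL hC hs4 h45).2
    have hlo5 := hC.lo _ hs5
    have hup5 := hC.up _ hs5
    obtain ⟨_, ⟨α', β', hne', hα', hβ'⟩, hend⟩ := he n s5 (hC.tile _ hs5) (hC.irr _ hs5)
      (hC.card _ hs5)
    have hm5 : x0 < s5.a + min (s5.l α') (s5.l β') := by
      by_contra hcon
      rw [not_lt] at hcon
      exact hno5 _ ⟨α', β', hne', hα', hβ', rfl, by rw [cutL_a]; exact hcon⟩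
    have h6 := hend α β α' β' hα5 hβ5 hα' hβ'
    have hs6 : cutR s5 α β ∈ C :=
      hC.cR _ hs5 _ ⟨α, β, hne, hα5, hβ5, rfl, by rw [cutR_b]; linarith⟩
    have hlo6 := hC.lo _ hs6
    rw [cutR_a, cutR_b] at hlo6
    have e1 := hl5 α
    have e2 := hl5 β
    have e3 : s4.l α ≥ min (s4.l α) (s4.l β) := min_le_left _ _
    have e4 : s4.l β ≥ min (s4.l α) (s4.l β) := min_le_right _ _
    have e5 : min (s4.l α) (s4.l β) - (s5.a - s4.a) ≤ min (s5.l α) (s5.l β) :=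
      le_min (by linarith) (by linarith)
    linarith

end SMw

open SMw in
/-- SM: small intervals are reachable -/
theorem small (hgR : Stm.goodR) (hgL : Stm.goodL) (hap : Stm.aper) (hir : Stm.irr)
    (he : Stm.ends) (hk : Stm.keep) (hti : Stm.tileR) (htR : Stm.termR) (htL : Stm.termL) :
    Stm.small := by
  intro n T ix s0 x0 hE hG0 ha0 hb0 hne ε hε
  by_contra hcon
  push Not at hcon
  -- all reachable states
  have hall : ∀ s, Reach x0 s0 s → Good T ix s ∧ s.a < x0 ∧ x0 < s.b := by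
    intro s hs
    have key : Good T ix s ∧ x0 < s.b ∧ s.a ≤ x0 := by
      induction hs with
      | refl => exact ⟨hG0, hb0, ha0⟩
      | tail _ h2 ih =>
        obtain ⟨i1, i2, i3⟩ := ih
        rcases h2 with ⟨α, β, h1, h2, h3, rfl, h5⟩ | ⟨α, β, h1, h2, h3, rfl, h5⟩
        · exact ⟨hgR n T ix _ i1 α β h1 h2 h3, h5, by rw [cutR_a]; exact i3⟩
        · exact ⟨hgL n T ix _ i1 α β h1 h2 h3, by rw [cutL_b]; exact i2, h5⟩
    exact ⟨key.1, lt_of_le_of_ne key.2.2 (hne s hs), key.2.1⟩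
  -- minimal cardinality
  classical
  have hex : ∃ k, ∃ s, Reach x0 s0 s ∧ s.S.card = k := ⟨_, s0, Relation.ReflTransGen.refl, rfl⟩
  obtain ⟨s1, hs1, hc1⟩ := Nat.find_spec hex
  set k := Nat.find hex with hkdef
  have hmin : ∀ s, Reach x0 s0 s → k ≤ s.S.card := fun s hs =>
    Nat.find_min' hex ⟨s, hs, rfl⟩
  let R' : Set (St n) := {s | Reach x0 s0 s ∧ s.S.card = k}
  have hR'step : ∀ s ∈ R', ∀ s', Step x0 s s' → s' ∈ R' := by
    rintro s ⟨h1, h2⟩ s' hss'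
    have h3 : Reach x0 s0 s' := Relation.ReflTransGen.tail h1 hss'
    refine ⟨h3, le_antisymm ?_ (hmin s' h3)⟩
    rw [← h2]
    rcases hss' with ⟨α, β, _, _, _, rfl, _⟩ | ⟨α, β, _, _, _, rfl, _⟩
    · exact Finset.card_le_card (cutR_S s α β)
    · exact Finset.card_le_card (cutL_S s α β)
  -- the infimum of the lengths
  let Len : Set ℝ := (fun s : St n => s.b - s.a) '' R'
  have hbdd : BddBelow Len := ⟨ε, by
    rintro _ ⟨s, hs, rfl⟩
    exact hcon s hs.1 (hall s hs.1).1⟩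
  have hnon : Len.Nonempty := ⟨_, s1, ⟨hs1, hc1⟩, rfl⟩
  have hLε : ε ≤ sInf Len := le_csInf hnon (by
    rintro _ ⟨s, hs, rfl⟩
    exact hcon s hs.1 (hall s hs.1).1)
  have hη : 0 < ε / 100 := by positivity
  obtain ⟨_, ⟨s3, hs3, rfl⟩, hlt⟩ := exists_lt_of_csInf_lt hnon
    (show sInf Len < sInf Len + ε / 100 by linarith)
  let C : Set (St n) := {s | s ∈ R' ∧ s.b - s.a < sInf Len + ε / 100}
  have htile : ∀ s ∈ C, Tile s := fun s hs => (hall s hs.1.1).1.tile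
  have hC : Cls x0 (sInf Len) (ε / 100) C := by
    refine ⟨htile, fun s hs => hir n T ix s hE (hall s hs.1.1).1,
      fun s hs => (hap n T ix s hE (hall s hs.1.1).1).2, fun s hs => (hall s hs.1.1).2.1,
      fun s hs => (hall s hs.1.1).2.2, ?_, ?_, ?_, ?_,
      fun s hs => csInf_le hbdd ⟨s, hs.1, rfl⟩, fun s hs => hs.2⟩
    · intro s hs s' h
      refine ⟨hR'step s hs.1 s' (Or.inl h), ?_⟩
      obtain ⟨α, β, _, h2, h3, rfl, _⟩ := h
      have hp : 0 < min (s.l α) (s.l β) :=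
        lt_min ((htile s hs).pos α h2.1) ((htile s hs).pos β h3.1)
      have := hs.2
      rw [cutR_a, cutR_b]
      linarith
    · intro s hs s' h
      refine ⟨hR'step s hs.1 s' (Or.inr h), ?_⟩
      obtain ⟨α, β, _, h2, h3, rfl, _⟩ := h
      have hp : 0 < min (s.l α) (s.l β) :=
        lt_min ((htile s hs).pos α h2.1) ((htile s hs).pos β h3.1)
      have := hs.2
      rw [cutL_a, cutL_b]
      linarith
    · intro s hs α β h1 h2 h3 h4 h5
      have h6 := (hR'step s hs.1 _ (Or.inl ⟨α, β, h1, h2, h3, rfl, h4⟩)).2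
      rw [cutR_tie s α β h5, Finset.card_erase_of_mem h2.1] at h6
      have h7 := hs.1.2
      have h8 : 0 < s.S.card := Finset.card_pos.mpr ⟨α, h2.1⟩
      omega
    · intro s hs α β h1 h2 h3 h4 h5
      have h6 := (hR'step s hs.1 _ (Or.inr ⟨α, β, h1, h2, h3, rfl, h4⟩)).2
      rw [cutL_tie s α β h5, Finset.card_erase_of_mem h2.1] at h6
      have h7 := hs.1.2
      have h8 : 0 < s.S.card := Finset.card_pos.mpr ⟨α, h2.1⟩
      omega
  exact core he hk hti htR htL hη (by linarith) hC ⟨hs3, hlt⟩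

end R970.WM
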