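import Pool.Agent.R970.WM.Stm2

/-! T2: an infinite sequence of right cuts is impossible -/

open MeasureTheory Set Filter Topology

namespace R970.WM

namespace T2

variable {n : ℕ}

theorem cutR_a (s : St n) (α β : Fin n) : (cutR s α β).a = s.a := by
  unfold cutR
  split_ifs <;> rfl

theorem cutR_card_le (s : St n) (α β : Fin n) : (cutR s α β).S.card ≤ s.S.card := by
  unfold cutR
  split_ifs
  · exact le_rfl
  · exact le_rfl
  · exact Finset.card_le_card (Finset.erase_subset _ _)

theorem cutR_card_lt (s : St n) (α β : Fin n) (hα : α ∈ s.S) (h : s.l α = s.l β) :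
    (cutR s α β).S.card < s.S.card := by
  unfold cutR
  have h1 : ¬ s.l β < s.l α := by rw [h]; exact lt_irrefl _
  have h2 : ¬ s.l α < s.l β := by rw [h]; exact lt_irrefl _
  rw [if_neg h1, if_neg h2]
  exact Finset.card_erase_lt_of_mem hα

end T2

theorem termR (h1 : Stm.allWin) (h2 : Stm.winContra) : Stm.termR := by
  intro n x0 s hTI hstep hb ha
  choose α β hab htop hbot heq hlb using hstep
  have hcard : ∀ j, (s (j + 1)).S.card ≤ (s j).S.card := by
    intro j
    rw [heq j]
    exact T2.cutR_card_le _ _ _
  have hanti : Antitone (fun j => (s j).S.card) := antitone_nat_of_succ_le hcard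
  obtain ⟨m, hm⟩ : ∃ m, ∀ j, (s m).S.card ≤ (s j).S.card := by
    have hne : (Set.range (fun j => (s j).S.card)).Nonempty := ⟨_, 0, rfl⟩
    obtain ⟨m, hm⟩ := Nat.sInf_mem hne
    refine ⟨m, fun j => ?_⟩
    have h3 : sInf (Set.range (fun j => (s j).S.card)) ≤ (s j).S.card := Nat.sInf_le ⟨j, rfl⟩
    have h4 : (s m).S.card = sInf (Set.range (fun j => (s j).S.card)) := hm
    omega
  have hnt : ∀ j, m ≤ j → (s j).l (α j) ≠ (s j).l (β j) := by
    intro j hj h
    have h3 := T2.cutR_card_lt (s j) (α j) (β j) (htop j).1 h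
    rw [← heq j] at h3
    have h4 := hm (j + 1)
    have h5 : (s j).S.card ≤ (s m).S.card := hanti hj
    omega
  have hA : ∀ j, (s j).a = (s 0).a := by
    intro j
    induction j with
    | zero => rfl
    | succ j ih => rw [heq j, T2.cutR_a, ih]
  have hB : ∀ j, x0 < (s j).b := by
    intro j
    rcases j with _ | j
    · exact hb
    · exact hlb j
  have hR : RSeq (fun j => s (m + j)) (fun j => α (m + j)) (fun j => β (m + j)) x0 :=
    { tile := fun j => (hTI _).1
      irr := fun j => (hTI _).2
      top := fun j => htop _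
      bot := fun j => hbot _
      ne := fun j => hab _
      nt := fun j => hnt _ (Nat.le_add_right _ _)
      step := fun j => heq (m + j)
      lb := fun j => hB _
      a0 := by
        show (s (m + 0)).a < x0
        rw [hA]
        exact ha }
  exact h2 n _ _ _ x0 hR (h1 n _ _ _ x0 hR)

end R970.WM
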