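import Pool.Agent.R970.WM.Stm2

/-! WM2-T3 (helper656): termination of left cuts, by reflection. -/

open MeasureTheory Set Filter Topology

namespace R970.WM

theorem refl_refl {n : ℕ} (s : St n) : refl (refl s) = s := by
  obtain ⟨a, b, S, t, l, d, w⟩ := s
  simp only [refl, neg_neg, St.mk.injEq, true_and, and_true]
  funext i
  ring

theorem termL (hR : Stm.termR) (hT : Stm.tileR) : Stm.termL := by
  intro n x0 s hs hstep ha hb
  refine hR n (-x0) (fun j => refl (s j)) (fun j => ?_) (fun j => ?_) ?_ ?_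
  · exact ⟨hT.2.1 n (s j) (hs j).1, hT.2.2 n (s j) (hs j).1 (hs j).2⟩
  · obtain ⟨α, β, hne, hα, hβ, he, -⟩ := hstep j
    refine ⟨α, β, hne, ⟨hα.1, ?_⟩, ⟨hβ.1, ?_⟩, ?_, ?_⟩
    · have := hα.2
      show -(s j).t α - (s j).l α + (s j).l α = -(s j).a
      linarith
    · have := hβ.2
      show -(s j).t β - (s j).l β + -(s j).d β + (s j).l β = -(s j).a
      linarith
    · show refl (s (j + 1)) = cutR (refl (s j)) α β
      rw [he]
      unfold cutL
      rw [refl_refl]
    · show -x0 < -(s (j + 1)).a
      have := ha (j + 1)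
      linarith
  · show -x0 < -(s 0).a
    have := ha 0
    linarith
  · show -(s 0).b < -x0
    linarith

end R970.WM
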