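import Pool.Agent.R970.WM.Stm2

/-!
# WM2-TI: cutting preserves Tile; reflection preserves Tile and Irred
-/

set_option autoImplicit false
set_option linter.all false

open MeasureTheory Set Filter Topology

namespace R970.WM

theorem tile_last_top {n : ℕ} {s : St n} (h : Tile s) {α : Fin n} (hα : TopLast s α) :
    ∀ i ∈ s.S, i ≠ α → s.t i + s.l i ≤ s.t α := by
  intro i hi hne
  obtain ⟨hαS, hb⟩ := hα
  rcases h.sep i hi α hαS hne with h1 | h1
  · exact h1
  · have h2 := h.pos i hi
    have h3 := (h.sub i hi).2
    linarith

theorem tile_last_bot {n : ℕ} {s : St n} (h : Tile s) {β : Fin n} (hβ : BotLast s β) :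
    ∀ i ∈ s.S, i ≠ β → s.t i + s.d i + s.l i ≤ s.t β + s.d β := by
  intro i hi hne
  obtain ⟨hβS, hb⟩ := hβ
  rcases h.sepIm i hi β hβS hne with h1 | h1
  · exact h1
  · have h2 := h.pos i hi
    have h3 := (h.subIm i hi).2
    linarith

theorem sum_upd {n : ℕ} (S : Finset (Fin n)) (l : Fin n → ℝ) (α : Fin n) (hα : α ∈ S) (v : ℝ) :
    ∑ i ∈ S, Function.update l α v i = ∑ i ∈ S, l i - l α + v := by
  classical
  rw [Finset.sum_update_of_mem hα]
  have h := Finset.add_sum_erase S l hα
  rw [← Finset.erase_eq] at *
  linarith

theorem tile_cutR {n : ℕ} (s : St n) (h : Tile s) (α β : Fin n) (hne : α ≠ β)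
    (hα : TopLast s α) (hβ : BotLast s β) : Tile (cutR s α β) := by
  classical
  have hT := tile_last_top h hα
  have hB := tile_last_bot h hβ
  obtain ⟨hαS, hαb⟩ := hα
  obtain ⟨hβS, hβb⟩ := hβ
  have pα := h.pos α hαS
  have pβ := h.pos β hβS
  have sα := h.sub α hαS
  have sβ := h.sub β hβS
  have iα := h.subIm α hαS
  have iβ := h.subIm β hβS
  have hBα := hB α hαS hne
  have hTβ := hT β hβS (Ne.symm hne)
  unfold cutR
  split_ifs with h1 h2
  · -- case l β < l α
    refine ⟨?_, ?_, ?_, ?_, ?_, ?_, ?_⟩
    · show s.a < s.b - s.l β
      linarith [sα.1]
    · intro i hi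
      show 0 < Function.update s.l α (s.l α - s.l β) i
      have pi := h.pos i hi
      by_cases hiα : i = α
      · subst hiα
        rw [Function.update_self]; linarith
      · rw [Function.update_of_ne hiα]; exact pi
    · intro i hi
      show s.a ≤ s.t i ∧ s.t i + Function.update s.l α (s.l α - s.l β) i ≤ s.b - s.l β
      by_cases hiα : i = α
      · subst hiα
        rw [Function.update_self]
        exact ⟨sα.1, by linarith⟩
      · rw [Function.update_of_ne hiα]
        have := hT i hi hiα
        exact ⟨(h.sub i hi).1, by linarith⟩
    · intro i hi
      show s.a ≤ s.t i + Function.update s.d β (s.d β + s.d α) i ∧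
        s.t i + Function.update s.d β (s.d β + s.d α) i +
          Function.update s.l α (s.l α - s.l β) i ≤ s.b - s.l β
      by_cases hiβ : i = β
      · subst hiβ
        rw [Function.update_self, Function.update_of_ne (Ne.symm hne)]
        constructor <;> linarith [iα.1, iα.2]
      · rw [Function.update_of_ne hiβ]
        have := hB i hi hiβ
        by_cases hiα : i = α
        · subst hiα
          rw [Function.update_self]
          exact ⟨iα.1, by linarith⟩
        · rw [Function.update_of_ne hiα]
          exact ⟨(h.subIm i hi).1, by linarith⟩
    · intro i hi j hj hij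
      show s.t i + Function.update s.l α (s.l α - s.l β) i ≤ s.t j ∨
        s.t j + Function.update s.l α (s.l α - s.l β) j ≤ s.t i
      have hle : ∀ k, Function.update s.l α (s.l α - s.l β) k ≤ s.l k := by
        intro k
        by_cases hk : k = α
        · subst hk; rw [Function.update_self]; linarith
        · rw [Function.update_of_ne hk]
      rcases h.sep i hi j hj hij with h3 | h3
      · left; linarith [hle i]
      · right; linarith [hle j]
    · -- sepIm
      have key : ∀ j ∈ s.S, j ≠ β →
          s.t β + (s.d β + s.d α) + s.l β ≤ s.t j + s.d j ∨
          s.t j + s.d j + Function.update s.l α (s.l α - s.l β) j ≤ s.t β + (s.d β + s.d α) := by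
        intro j hj hjβ
        by_cases hjα : j = α
        · subst hjα
          rw [Function.update_self]
          right; linarith
        · rw [Function.update_of_ne hjα]
          rcases h.sepIm α hαS j hj (Ne.symm hjα) with h3 | h3
          · left; linarith
          · right; linarith
      intro i hi j hj hij
      show s.t i + Function.update s.d β (s.d β + s.d α) i +
          Function.update s.l α (s.l α - s.l β) i ≤ s.t j + Function.update s.d β (s.d β + s.d α) j ∨
        s.t j + Function.update s.d β (s.d β + s.d α) j +
          Function.update s.l α (s.l α - s.l β) j ≤ s.t i + Function.update s.d β (s.d β + s.d α) i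
      have hle : ∀ k, Function.update s.l α (s.l α - s.l β) k ≤ s.l k := by
        intro k
        by_cases hk : k = α
        · subst hk; rw [Function.update_self]; linarith
        · rw [Function.update_of_ne hk]
      by_cases hiβ : i = β
      · subst hiβ
        rw [Function.update_self, Function.update_of_ne (Ne.symm hne),
          Function.update_of_ne (Ne.symm hij)]
        exact key j hj (Ne.symm hij)
      · by_cases hjβ : j = β
        · subst hjβ
          rw [Function.update_self, Function.update_of_ne hij, Function.update_of_ne (Ne.symm hne)]
          rcases key i hi hij with h3 | h3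
          · right; exact h3
          · left; exact h3
        · rw [Function.update_of_ne hiβ, Function.update_of_ne hjβ]
          rcases h.sepIm i hi j hj hij with h3 | h3
          · left; linarith [hle i]
          · right; linarith [hle j]
    · show ∑ i ∈ s.S, Function.update s.l α (s.l α - s.l β) i = s.b - s.l β - s.a
      rw [sum_upd _ _ _ hαS, h.tot]; ring
  · -- case l α < l β
    refine ⟨?_, ?_, ?_, ?_, ?_, ?_, ?_⟩
    · show s.a < s.b - s.l α
      linarith [iβ.1]
    · intro i hi
      show 0 < Function.update s.l β (s.l β - s.l α) i
      have pi := h.pos i hi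
      by_cases hiβ : i = β
      · subst hiβ
        rw [Function.update_self]; linarith
      · rw [Function.update_of_ne hiβ]; exact pi
    · intro i hi
      show s.a ≤ Function.update s.t α (s.t β + s.l β - s.l α) i ∧
        Function.update s.t α (s.t β + s.l β - s.l α) i +
          Function.update s.l β (s.l β - s.l α) i ≤ s.b - s.l α
      by_cases hiα : i = α
      · subst hiα
        rw [Function.update_self, Function.update_of_ne hne]
        constructor <;> linarith [sβ.1]
      · rw [Function.update_of_ne hiα]
        have := hT i hi hiα
        by_cases hiβ : i = β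
        · subst hiβ
          rw [Function.update_self]
          exact ⟨sβ.1, by linarith⟩
        · rw [Function.update_of_ne hiβ]
          exact ⟨(h.sub i hi).1, by linarith⟩
    · intro i hi
      show s.a ≤ Function.update s.t α (s.t β + s.l β - s.l α) i +
          Function.update s.d α (s.d β + s.d α) i ∧
        Function.update s.t α (s.t β + s.l β - s.l α) i +
          Function.update s.d α (s.d β + s.d α) i +
          Function.update s.l β (s.l β - s.l α) i ≤ s.b - s.l α
      by_cases hiα : i = α
      · subst hiα
        rw [Function.update_self, Function.update_self, Function.update_of_ne hne]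
        constructor <;> linarith [iα.1]
      · rw [Function.update_of_ne hiα, Function.update_of_ne hiα]
        by_cases hiβ : i = β
        · subst hiβ
          rw [Function.update_self]
          exact ⟨iβ.1, by linarith⟩
        · rw [Function.update_of_ne hiβ]
          have := hB i hi hiβ
          exact ⟨(h.subIm i hi).1, by linarith⟩
    · -- sep
      have key : ∀ j ∈ s.S, j ≠ α →
          (s.t β + s.l β - s.l α) + s.l α ≤ s.t j ∨
          s.t j + Function.update s.l β (s.l β - s.l α) j ≤ s.t β + s.l β - s.l α := by
        intro j hj hjα
        by_cases hjβ : j = β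
        · subst hjβ
          rw [Function.update_self]
          right; linarith
        · rw [Function.update_of_ne hjβ]
          rcases h.sep β hβS j hj (Ne.symm hjβ) with h3 | h3
          · left; linarith
          · right; linarith
      intro i hi j hj hij
      show Function.update s.t α (s.t β + s.l β - s.l α) i +
          Function.update s.l β (s.l β - s.l α) i ≤ Function.update s.t α (s.t β + s.l β - s.l α) j ∨
        Function.update s.t α (s.t β + s.l β - s.l α) j +
          Function.update s.l β (s.l β - s.l α) j ≤ Function.update s.t α (s.t β + s.l β - s.l α) i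
      have hle : ∀ k, Function.update s.l β (s.l β - s.l α) k ≤ s.l k := by
        intro k
        by_cases hk : k = β
        · subst hk; rw [Function.update_self]; linarith
        · rw [Function.update_of_ne hk]
      by_cases hiα : i = α
      · subst hiα
        rw [Function.update_self, Function.update_of_ne hne, Function.update_of_ne (Ne.symm hij)]
        exact key j hj (Ne.symm hij)
      · by_cases hjα : j = α
        · subst hjα
          rw [Function.update_self, Function.update_of_ne hij, Function.update_of_ne hne]
          rcases key i hi hij with h3 | h3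
          · right; exact h3
          · left; exact h3
        · rw [Function.update_of_ne hiα, Function.update_of_ne hjα]
          rcases h.sep i hi j hj hij with h3 | h3
          · left; linarith [hle i]
          · right; linarith [hle j]
    · -- sepIm
      intro i hi j hj hij
      show Function.update s.t α (s.t β + s.l β - s.l α) i +
          Function.update s.d α (s.d β + s.d α) i + Function.update s.l β (s.l β - s.l α) i ≤
          Function.update s.t α (s.t β + s.l β - s.l α) j + Function.update s.d α (s.d β + s.d α) j ∨
        Function.update s.t α (s.t β + s.l β - s.l α) j +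
          Function.update s.d α (s.d β + s.d α) j + Function.update s.l β (s.l β - s.l α) j ≤
          Function.update s.t α (s.t β + s.l β - s.l α) i + Function.update s.d α (s.d β + s.d α) i
      have hle : ∀ k, Function.update s.l β (s.l β - s.l α) k ≤ s.l k := by
        intro k
        by_cases hk : k = β
        · subst hk; rw [Function.update_self]; linarith
        · rw [Function.update_of_ne hk]
      have him : ∀ k, Function.update s.t α (s.t β + s.l β - s.l α) k +
          Function.update s.d α (s.d β + s.d α) k = s.t k + s.d k := by
        intro k
        by_cases hk : k = α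
        · subst hk; rw [Function.update_self, Function.update_self]; linarith
        · rw [Function.update_of_ne hk, Function.update_of_ne hk]
      rw [him i, him j]
      rcases h.sepIm i hi j hj hij with h3 | h3
      · left; linarith [hle i]
      · right; linarith [hle j]
    · show ∑ i ∈ s.S, Function.update s.l β (s.l β - s.l α) i = s.b - s.l α - s.a
      rw [sum_upd _ _ _ hβS, h.tot]; ring
  · -- tie
    have heq : s.l α = s.l β := le_antisymm (not_lt.mp h1) (not_lt.mp h2)
    refine ⟨?_, ?_, ?_, ?_, ?_, ?_, ?_⟩
    · show s.a < s.b - s.l α
      linarith [sβ.1]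
    · intro i hi
      exact h.pos i (Finset.mem_of_mem_erase hi)
    · intro i hi
      show s.a ≤ s.t i ∧ s.t i + s.l i ≤ s.b - s.l α
      have hi' := Finset.mem_of_mem_erase hi
      have := hT i hi' (Finset.ne_of_mem_erase hi)
      exact ⟨(h.sub i hi').1, by linarith⟩
    · intro i hi
      show s.a ≤ s.t i + Function.update s.d β (s.d β + s.d α) i ∧
        s.t i + Function.update s.d β (s.d β + s.d α) i + s.l i ≤ s.b - s.l α
      have hi' := Finset.mem_of_mem_erase hi
      by_cases hiβ : i = β
      · subst hiβ
        rw [Function.update_self]
        constructor <;> linarith [iα.1]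
      · rw [Function.update_of_ne hiβ]
        have := hB i hi' hiβ
        exact ⟨(h.subIm i hi').1, by linarith⟩
    · intro i hi j hj hij
      exact h.sep i (Finset.mem_of_mem_erase hi) j (Finset.mem_of_mem_erase hj) hij
    · -- sepIm
      have key : ∀ j ∈ s.S, j ≠ β → j ≠ α →
          s.t β + (s.d β + s.d α) + s.l β ≤ s.t j + s.d j ∨
          s.t j + s.d j + s.l j ≤ s.t β + (s.d β + s.d α) := by
        intro j hj hjβ hjα
        rcases h.sepIm α hαS j hj (Ne.symm hjα) with h3 | h3
        · left; linarith
        · right; linarith
      intro i hi j hj hij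
      show s.t i + Function.update s.d β (s.d β + s.d α) i + s.l i ≤
          s.t j + Function.update s.d β (s.d β + s.d α) j ∨
        s.t j + Function.update s.d β (s.d β + s.d α) j + s.l j ≤
          s.t i + Function.update s.d β (s.d β + s.d α) i
      have hi' := Finset.mem_of_mem_erase hi
      have hj' := Finset.mem_of_mem_erase hj
      by_cases hiβ : i = β
      · subst hiβ
        rw [Function.update_self, Function.update_of_ne (Ne.symm hij)]
        exact key j hj' (Ne.symm hij) (Finset.ne_of_mem_erase hj)
      · by_cases hjβ : j = β
        · subst hjβ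
          rw [Function.update_self, Function.update_of_ne hij]
          rcases key i hi' hij (Finset.ne_of_mem_erase hi) with h3 | h3
          · right; exact h3
          · left; exact h3
        · rw [Function.update_of_ne hiβ, Function.update_of_ne hjβ]
          exact h.sepIm i hi' j hj' hij
    · show ∑ i ∈ s.S.erase α, s.l i = s.b - s.l α - s.a
      have h3 := Finset.add_sum_erase s.S s.l hαS
      have h4 := h.tot
      linarith

theorem tile_refl {n : ℕ} (s : St n) (h : Tile s) : Tile (refl s) := by
  refine ⟨?_, ?_, ?_, ?_, ?_, ?_, ?_⟩
  · show -s.b < -s.a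
    linarith [h.lt]
  · intro i hi
    exact h.pos i hi
  · intro i hi
    show -s.b ≤ -s.t i - s.l i ∧ -s.t i - s.l i + s.l i ≤ -s.a
    have := h.sub i hi
    constructor <;> linarith [this.1, this.2]
  · intro i hi
    show -s.b ≤ -s.t i - s.l i + -s.d i ∧ -s.t i - s.l i + -s.d i + s.l i ≤ -s.a
    have := h.subIm i hi
    constructor <;> linarith [this.1, this.2]
  · intro i hi j hj hij
    show -s.t i - s.l i + s.l i ≤ -s.t j - s.l j ∨ -s.t j - s.l j + s.l j ≤ -s.t i - s.l i
    rcases h.sep i hi j hj hij with h3 | h3
    · right; linarith
    · left; linarith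
  · intro i hi j hj hij
    show -s.t i - s.l i + -s.d i + s.l i ≤ -s.t j - s.l j + -s.d j ∨
      -s.t j - s.l j + -s.d j + s.l j ≤ -s.t i - s.l i + -s.d i
    rcases h.sepIm i hi j hj hij with h3 | h3
    · right; linarith
    · left; linarith
  · show ∑ i ∈ s.S, s.l i = -s.a - -s.b
    rw [h.tot]; ring

theorem irred_refl {n : ℕ} (s : St n) (h : Irred s) : Irred (refl s) := by
  classical
  intro A hA hne hneS
  rintro ⟨c, h1, h2⟩
  have hA' : A ⊆ s.S := hA
  have hneS' : A ≠ s.S := hneS
  have h1' : ∀ i ∈ A, c ≤ -s.t i - s.l i ∧ c ≤ -s.t i - s.l i + -s.d i := h1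
  have h2' : ∀ i ∈ s.S \ A, -s.t i - s.l i + s.l i ≤ c ∧ -s.t i - s.l i + -s.d i + s.l i ≤ c := h2
  apply h (s.S \ A) Finset.sdiff_subset
  · rw [Finset.sdiff_nonempty]
    intro hsub
    exact hneS' (Finset.Subset.antisymm hA' hsub)
  · intro heq
    obtain ⟨i, hi⟩ := hne
    have : i ∈ s.S \ A := by rw [heq]; exact hA' hi
    exact (Finset.mem_sdiff.mp this).2 hi
  · refine ⟨-c, ?_, ?_⟩
    · intro i hi
      have := h2' i hi
      constructor <;> linarith [this.1, this.2]
    · intro i hi
      have hiA : i ∈ A := by
        have h3 := (Finset.mem_sdiff.mp hi)
        by_contra h4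
        exact h3.2 (Finset.mem_sdiff.mpr ⟨h3.1, h4⟩)
      have := h1' i hiA
      constructor <;> linarith [this.1, this.2]

theorem tileR : Stm.tileR :=
  ⟨fun _ s h α β hne hα hβ => tile_cutR s h α β hne hα hβ, fun _ s h => tile_refl s h,
    fun _ s _ h => irred_refl s h⟩

end R970.WM
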