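import Pool.Agent.R970.WM.Stm2

set_option autoImplicit false

open MeasureTheory Set Filter Topology

namespace R970.WM

theorem wc_case {n : ℕ} {s : ℕ → St n} {α β : ℕ → Fin n} {x0 : ℝ} (h : RSeq s α β x0) (j : ℕ) :
    ((s j).l (β j) < (s j).l (α j) ∧ win (s j) (α j) (β j) = α j ∧ los (s j) (α j) (β j) = β j ∧
      (s (j+1)).a = (s j).a ∧ (s (j+1)).S = (s j).S ∧ (s (j+1)).b = (s j).b - (s j).l (β j) ∧
      (s (j+1)).t = (s j).t ∧
      (s (j+1)).l = Function.update (s j).l (α j) ((s j).l (α j) - (s j).l (β j))) ∨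
    ((s j).l (α j) < (s j).l (β j) ∧ win (s j) (α j) (β j) = β j ∧ los (s j) (α j) (β j) = α j ∧
      (s (j+1)).a = (s j).a ∧ (s (j+1)).S = (s j).S ∧ (s (j+1)).b = (s j).b - (s j).l (α j) ∧
      (∃ c, (s (j+1)).t = Function.update (s j).t (α j) c) ∧
      (∃ c, (s (j+1)).d = Function.update (s j).d (α j) c) ∧
      (s (j+1)).l = Function.update (s j).l (β j) ((s j).l (β j) - (s j).l (α j))) := by
  have hs := h.step j
  rcases lt_or_gt_of_ne (h.nt j) with h1 | h1
  · right
    have h2 : ¬ (s j).l (β j) < (s j).l (α j) := not_lt.2 h1.le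
    refine ⟨h1, ?_, ?_, ?_⟩
    · unfold win; rw [if_neg h2]
    · unfold los; rw [if_neg h2]
    · rw [hs]
      unfold cutR
      rw [if_neg h2, if_pos h1]
      exact ⟨rfl, rfl, rfl, ⟨_, rfl⟩, ⟨_, rfl⟩, rfl⟩
  · left
    refine ⟨h1, ?_, ?_, ?_⟩
    · unfold win; rw [if_pos h1]
    · unfold los; rw [if_pos h1]
    · rw [hs]
      unfold cutR
      rw [if_pos h1]
      exact ⟨rfl, rfl, rfl, rfl, rfl⟩

theorem wc_los {n : ℕ} {s : ℕ → St n} {α β : ℕ → Fin n} {x0 : ℝ} (h : RSeq s α β x0) (j : ℕ) :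
    (s (j+1)).a = (s j).a ∧ (s (j+1)).S = (s j).S ∧
    (s (j+1)).b = (s j).b - (s j).l (los (s j) (α j) (β j)) ∧
    los (s j) (α j) (β j) ∈ (s j).S ∧ win (s j) (α j) (β j) ≠ los (s j) (α j) (β j) ∧
    ∀ i ∈ (s j).S, (s (j+1)).l i ≤ (s j).l i := by
  have hα := (h.top j).1
  have hβ := (h.bot j).1
  have p1 := (h.tile j).pos _ hα
  have p2 := (h.tile j).pos _ hβ
  rcases wc_case h j with ⟨h1, h2, h3, h4, h5, h6, h7, h8⟩ | ⟨h1, h2, h3, h4, h5, h6, h7, h8, h9⟩
  · rw [h2, h3]
    refine ⟨h4, h5, h6, hβ, h.ne j, fun i hi => ?_⟩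
    rw [h8]
    rcases eq_or_ne i (α j) with rfl | hne
    · rw [Function.update_self]; linarith
    · rw [Function.update_of_ne hne]
  · rw [h2, h3]
    refine ⟨h4, h5, h6, hα, (h.ne j).symm, fun i hi => ?_⟩
    rw [h9]
    rcases eq_or_ne i (β j) with rfl | hne
    · rw [Function.update_self]; linarith
    · rw [Function.update_of_ne hne]

theorem wc_uniq_top {n : ℕ} {s : St n} (ht : Tile s) {p q : Fin n} (hp : TopLast s p)
    (hq : TopLast s q) : p = q := by
  by_contra hne
  have h1 := ht.pos p hp.1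
  have h2 := ht.pos q hq.1
  have h3 := hp.2
  have h4 := hq.2
  rcases ht.sep p hp.1 q hq.1 hne with h | h <;> linarith

theorem wc_uniq_bot {n : ℕ} {s : St n} (ht : Tile s) {p q : Fin n} (hp : BotLast s p)
    (hq : BotLast s q) : p = q := by
  by_contra hne
  have h1 := ht.pos p hp.1
  have h2 := ht.pos q hq.1
  have h3 := hp.2
  have h4 := hq.2
  rcases ht.sepIm p hp.1 q hq.1 hne with h | h <;> linarith

/-- if the winner does not lose at the next step, it wins again -/
theorem wc_next {n : ℕ} {s : ℕ → St n} {α β : ℕ → Fin n} {x0 : ℝ} (h : RSeq s α β x0) (j : ℕ)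
    {i : Fin n} (hw : win (s j) (α j) (β j) = i)
    (hl : los (s (j+1)) (α (j+1)) (β (j+1)) ≠ i) : win (s (j+1)) (α (j+1)) (β (j+1)) = i := by
  have key : α (j+1) = i ∨ β (j+1) = i := by
    rcases wc_case h j with ⟨h1, h2, h3, h4, h5, h6, h7, h8⟩ |
      ⟨h1, h2, h3, h4, h5, h6, ⟨c, h7⟩, ⟨c', h8⟩, h9⟩
    · left
      rw [h2] at hw
      subst hw
      refine wc_uniq_top (h.tile (j+1)) (h.top (j+1)) ⟨?_, ?_⟩
      · rw [h5]; exact (h.top j).1
      · rw [h6, h7, h8, Function.update_self]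
        have := (h.top j).2
        linarith
    · right
      rw [h2] at hw
      subst hw
      refine wc_uniq_bot (h.tile (j+1)) (h.bot (j+1)) ⟨?_, ?_⟩
      · rw [h5]; exact (h.bot j).1
      · rw [h6, h7, h8, h9, Function.update_self, Function.update_of_ne (h.ne j).symm,
          Function.update_of_ne (h.ne j).symm]
        have := (h.bot j).2
        linarith
  rcases wc_case h (j+1) with ⟨h1, h2, h3, _⟩ | ⟨h1, h2, h3, _⟩
  · rw [h3] at hl
    rw [h2]
    rcases key with hk | hk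
    · exact hk
    · exact absurd hk hl
  · rw [h3] at hl
    rw [h2]
    rcases key with hk | hk
    · exact absurd hk hl
    · exact hk

theorem winContra : Stm.winContra := by
  intro n s α β x0 h hW
  have hS : ∀ j, (s j).S = (s 0).S := by
    intro j
    induction j with
    | zero => rfl
    | succ j ih => rw [(wc_los h j).2.1, ih]
  have ha : ∀ j, (s j).a = (s 0).a := by
    intro j
    induction j with
    | zero => rfl
    | succ j ih => rw [(wc_los h j).1, ih]
  have hanti : ∀ i ∈ (s 0).S, Antitone (fun j => (s j).l i) := by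
    intro i hi
    refine antitone_nat_of_succ_le fun j => ?_
    exact (wc_los h j).2.2.2.2.2 i (by rw [hS j]; exact hi)
  set δ : ℝ := x0 - (s 0).a with hδ
  have hδ0 : 0 < δ := by have := h.a0; linarith
  have hcard : 0 < (s 0).S.card := Finset.card_pos.2 ⟨_, (h.top 0).1⟩
  have hcR : (0 : ℝ) < (s 0).S.card := by exact_mod_cast hcard
  set ℓ : ℝ := δ / (s 0).S.card with hℓ
  have hℓ0 : 0 < ℓ := div_pos hδ0 hcR
  -- a letter which stays long
  obtain ⟨i, hi, hlong⟩ : ∃ i ∈ (s 0).S, ∀ j, ℓ ≤ (s j).l i := by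
    by_contra hcon
    push Not at hcon
    have hcon' : ∀ i : Fin n, ∃ j, i ∈ (s 0).S → (s j).l i < ℓ := by
      intro i
      by_cases hi : i ∈ (s 0).S
      · obtain ⟨j, hj⟩ := hcon i hi
        exact ⟨j, fun _ => hj⟩
      · exact ⟨0, fun h' => absurd h' hi⟩
    choose J hJ using hcon'
    let M := Finset.univ.sup J
    have hM : ∀ i ∈ (s 0).S, (s M).l i < ℓ := by
      intro i hi
      exact lt_of_le_of_lt (hanti i hi (Finset.le_sup (f := J) (Finset.mem_univ i))) (hJ i hi)
    have h1 := (h.tile M).tot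
    rw [hS M, ha M] at h1
    have h2 : ∑ i ∈ (s 0).S, (s M).l i < ∑ i ∈ (s 0).S, ℓ :=
      Finset.sum_lt_sum_of_nonempty (Finset.card_pos.1 hcard) hM
    rw [Finset.sum_const, nsmul_eq_mul, hℓ, mul_div_cancel₀ _ hcR.ne'] at h2
    have h3 := h.lb M
    linarith
  -- the losing lengths tend to zero
  have hb : Antitone (fun j => (s j).b) := by
    refine antitone_nat_of_succ_le fun j => ?_
    have h1 := (wc_los h j).2.2.1
    have h2 := (h.tile j).pos _ (wc_los h j).2.2.2.1
    linarith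
  have hbb : BddBelow (Set.range (fun j => (s j).b)) := by
    refine ⟨x0, ?_⟩
    rintro _ ⟨j, rfl⟩
    exact (h.lb j).le
  have hlim := tendsto_atTop_ciInf hb hbb
  have hlim2 : Tendsto (fun j => (s j).b - (s (j+1)).b) atTop (𝓝 0) := by
    have h1 := hlim.comp (tendsto_add_atTop_nat 1)
    have h2 := hlim.sub h1
    rw [sub_self] at h2
    exact h2
  obtain ⟨J, hJ⟩ : ∃ J, ∀ j, J ≤ j → (s j).b - (s (j+1)).b < ℓ := by
    have := (hlim2.eventually (gt_mem_nhds hℓ0))
    exact eventually_atTop.1 this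
  have hnl : ∀ j, J ≤ j → los (s j) (α j) (β j) ≠ i := by
    intro j hj hcon
    have h1 := hJ j hj
    have h2 := (wc_los h j).2.2.1
    rw [hcon] at h2
    have h3 := hlong j
    linarith
  obtain ⟨j1, hj1, hw1⟩ := hW i hi J
  have hall : ∀ j, j1 ≤ j → win (s j) (α j) (β j) = i := by
    intro j hj
    induction j, hj using Nat.le_induction with
    | base => exact hw1
    | succ j hj ih => exact wc_next h j ih (hnl (j+1) (by omega))
  have h5 := (wc_los h j1).2.2.2.1
  rw [hS j1] at h5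
  obtain ⟨k, hk, hwk⟩ := hW _ h5 j1
  rw [hall k hk] at hwk
  have h6 := (wc_los h j1).2.2.2.2.1
  rw [hw1] at h6
  exact h6 hwk

end R970.WM
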