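import Pool.Agent.R970.WM.Stm2

open MeasureTheory Set Filter Topology

namespace R970.WM

private instance instFinU195 : IsFiniteMeasure U := by
  unfold U; infer_instance

/-- iterated cocycle identity -/
theorem wf195_iter {G : Type} [Group G] [MeasurableSpace G] {W : Type} [NormedAddCommGroup W]
    [InnerProductSpace ℂ W] (R : G →* (W ≃ₗᵢ[ℂ] W)) {n : ℕ} (P : Measure (Fin n → G)) [IsProbabilityMeasure P]
    (T : ℝ → ℝ) (ix : ℝ → Fin n)
    (hT : MeasurePreserving T U U) (M : (Fin n → G) × ℝ → W)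
    (hinv : ∀ᵐ p ∂(P.prod U), M (p.1, T p.2) = R (p.1 (ix p.2)) (M p)) (k : ℕ) :
    ∀ᵐ p ∂(P.prod U), M (p.1, T^[k] p.2) = R (ev p.1 (itin T ix k p.2)) (M p) := by
  induction k with
  | zero =>
    refine Filter.Eventually.of_forall (fun p => ?_)
    simp [itin, ev]
  | succ k ih =>
    have hmp : MeasurePreserving (Prod.map (id : (Fin n → G) → (Fin n → G)) T) (P.prod U) (P.prod U) :=
      (MeasurePreserving.id P).prod hT
    have h2 := hmp.quasiMeasurePreserving.ae ih
    filter_upwards [h2, hinv] with p hp hq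
    have hp' : M (p.1, T^[k] (T p.2)) = R (ev p.1 (itin T ix k (T p.2))) (M (p.1, T p.2)) := hp
    have e1 : T^[k+1] p.2 = T^[k] (T p.2) := Function.iterate_succ_apply T k p.2
    rw [e1, hp', hq]
    simp [itin, ev, map_mul]

theorem wordsFix (hde : Stm.dens) : Stm.wordsFix := by
  intro G _ _ _ _ _ _ _ _ _ ν _ _ W _ _ _ R hR n T ix hT hix M hM hMb hinv
  obtain ⟨C, hC⟩ := hMb
  have hd := hde (Fin n → G) (Measure.pi (fun _ : Fin n => ν)) W M hM ⟨C, hC⟩
  have hall : ∀ᵐ p ∂((Measure.pi (fun _ : Fin n => ν)).prod U), ∀ k : ℕ,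
      M (p.1, T^[k] p.2) = R (ev p.1 (itin T ix k p.2)) (M p) :=
    ae_all_iff.2 (fun k => wf195_iter R (Measure.pi (fun _ : Fin n => ν)) T ix hT M hinv k)
  generalize hP : Measure.pi (fun _ : Fin n => ν) = P at hd hall ⊢
  haveI : IsProbabilityMeasure P := by rw [← hP]; infer_instance
  have hsw : ∀ᵐ q ∂(U.prod P), ∀ k : ℕ,
      M (q.2, T^[k] q.1) = R (ev q.2 (itin T ix k q.1)) (M (q.2, q.1)) := by
    have := (Measure.measurePreserving_swap (μ := U) (ν := P)).quasiMeasurePreserving.ae hall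
    filter_upwards [this] with q hq k
    exact hq k
  have hx := Measure.ae_ae_of_ae_prod hsw
  filter_upwards [hd] with x0 h0 ε hε
  have hn0 : (0:ℝ) < 8 * n + 1 := by positivity
  obtain ⟨δ, hδ, hδ2⟩ := h0 (ε / (8 * n + 1)) (div_pos hε hn0)
  refine ⟨δ, hδ, ?_⟩
  intro s hs ha hb hlen i hi hil
  -- notation
  have hC0 : 0 ≤ C := le_trans (norm_nonneg _) (hC (fun _ => 1, 0))
  have hsm : StronglyMeasurable (fun p : ℝ × (Fin n → G) => ‖M (p.2, p.1) - M (p.2, x0)‖) := by
    refine StronglyMeasurable.norm ?_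
    refine StronglyMeasurable.sub ?_ ?_
    · exact hM.comp_measurable measurable_swap
    · exact hM.comp_measurable (measurable_snd.prodMk measurable_const)
  set D : ℝ → ℝ := fun x => ∫ g, ‖M (g, x) - M (g, x0)‖ ∂P with hD
  have hDm : StronglyMeasurable D := hsm.integral_prod_right
  have hint : ∀ x, Integrable (fun g => ‖M (g, x) - M (g, x0)‖) P := by
    intro x
    refine Integrable.of_bound (C := 2 * C) ?_ ?_
    · exact (hsm.comp_measurable (measurable_const.prodMk measurable_id : Measurable (fun g : Fin n → G => ((x, g) : ℝ × (Fin n → G))))).aestronglyMeasurable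
    · refine Filter.Eventually.of_forall (fun g => ?_)
      rw [norm_norm]
      have h1 := norm_sub_le (M (g, x)) (M (g, x0))
      have h2 := hC (g, x)
      have h3 := hC (g, x0)
      linarith
  have hD0 : ∀ x, 0 ≤ D x := fun x => integral_nonneg (fun g => norm_nonneg _)
  have hDb : ∀ x, D x ≤ 2 * C := by
    intro x
    have h1 : D x ≤ ∫ g, (2 * C) ∂P := by
      refine integral_mono (hint x) (integrable_const _) (fun g => ?_)
      have h1 := norm_sub_le (M (g, x)) (M (g, x0))
      have h2 := hC (g, x)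
      have h3 := hC (g, x0)
      show ‖M (g, x) - M (g, x0)‖ ≤ 2 * C
      linarith
    simpa using h1
  have hDi : ∀ (f : ℝ → ℝ), Measurable f → ∀ a b : ℝ, IntegrableOn (fun x => D (f x)) (Ico a b) volume := by
    intro f hf a b
    haveI : IsFiniteMeasure (volume.restrict (Ico a b)) := inferInstance
    refine Integrable.of_bound (C := 2 * C) ?_ ?_
    · exact (hDm.comp_measurable hf).aestronglyMeasurable
    · refine Filter.Eventually.of_forall (fun x => ?_)
      rw [Real.norm_eq_abs, abs_of_nonneg (hD0 _)]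
      exact hDb _
  set t := s.t i with ht
  set l := s.l i with hl
  set d := s.d i with hdd
  set w := s.w i with hw
  have hlpos : 0 < l := hs.tile.pos i hi
  have hsub := hs.tile.sub i hi
  have hsubI := hs.tile.subIm i hi
  set L : ℝ := ∫ g, ‖R (ev g w) (M (g, x0)) - M (g, x0)‖ ∂P with hL
  have hKsub : Ico t (t + l) ⊆ Ico (0:ℝ) 1 := by
    intro x hx
    exact ⟨le_trans hs.ha (le_trans hsub.1 hx.1), lt_of_lt_of_le hx.2 (le_trans hsub.2 hs.hb)⟩
  have hxK : ∀ᵐ x ∂(volume.restrict (Ico t (t + l))), ∀ᵐ g ∂P, ∀ k : ℕ,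
      M (g, T^[k] x) = R (ev g (itin T ix k x)) (M (g, x)) :=
    ae_restrict_of_ae_restrict_of_subset hKsub hx
  have hpt : ∀ᵐ x ∂(volume.restrict (Ico t (t + l))), L ≤ D x + D (x + d) := by
    filter_upwards [hxK, ae_restrict_mem measurableSet_Ico] with x hx hxm
    have hdyn := hs.dyn i hi x hxm
    have h1 : L ≤ ∫ g, (‖M (g, x) - M (g, x0)‖ + ‖M (g, x + d) - M (g, x0)‖) ∂P := by
      refine integral_mono_of_nonneg (Filter.Eventually.of_forall (fun g => norm_nonneg _))
        ((hint x).add (hint (x + d))) ?_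
      filter_upwards [hx] with g hg
      have hk := hg w.length
      rw [hdyn.1, hdyn.2] at hk
      have e1 : R (ev g w) (M (g, x0)) - M (g, x0)
          = R (ev g w) (M (g, x0) - M (g, x)) + (M (g, x + d) - M (g, x0)) := by
        rw [hk, map_sub]; abel
      show ‖R (ev g w) (M (g, x0)) - M (g, x0)‖ ≤ ‖M (g, x) - M (g, x0)‖ + ‖M (g, x + d) - M (g, x0)‖
      rw [e1]
      refine (norm_add_le _ _).trans ?_
      rw [LinearIsometryEquiv.norm_map, norm_sub_rev (M (g, x0)) (M (g, x))]
    rw [integral_add (hint x) (hint (x + d))] at h1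
    exact h1
  have hI1 : IntegrableOn (fun x => D x) (Ico t (t + l)) volume := hDi (fun x => x) measurable_id _ _
  have hI2 : IntegrableOn (fun x => D (x + d)) (Ico t (t + l)) volume :=
    hDi (fun x => x + d) (measurable_id.add_const d) _ _
  have hint1 : ∫ x in Ico t (t + l), L ≤ ∫ x in Ico t (t + l), (D x + D (x + d)) := by
    refine integral_mono_ae (integrable_const _) (hI1.add hI2) hpt
  have hcst : ∫ x in Ico t (t + l), L = l * L := by
    rw [setIntegral_const, smul_eq_mul, Real.volume_real_Ico_of_le (by linarith)]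
    ring
  have hsum : ∫ x in Ico t (t + l), (D x + D (x + d))
      = (∫ x in Ico t (t + l), D x) + ∫ x in Ico t (t + l), D (x + d) :=
    integral_add hI1 hI2
  have hshift : ∫ x in Ico t (t + l), D (x + d) = ∫ x in Ico (t + d) (t + d + l), D x := by
    rw [integral_Ico_eq_integral_Ioo, ← integral_Ioc_eq_integral_Ioo,
      ← intervalIntegral.integral_of_le (by linarith), intervalIntegral.integral_comp_add_right,
      intervalIntegral.integral_of_le (by linarith), integral_Ioc_eq_integral_Ioo,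
      ← integral_Ico_eq_integral_Ioo]
    congr 2
    ring_nf
  have hIab : IntegrableOn (fun x => D x) (Ico s.a s.b) volume := hDi (fun x => x) measurable_id _ _
  have hm1 : ∫ x in Ico t (t + l), D x ≤ ∫ x in Ico s.a s.b, D x := by
    refine setIntegral_mono_set hIab (Filter.Eventually.of_forall hD0) (Filter.Eventually.of_forall ?_)
    intro x hx
    exact ⟨le_trans hsub.1 hx.1, lt_of_lt_of_le hx.2 hsub.2⟩
  have hm2 : ∫ x in Ico (t + d) (t + d + l), D x ≤ ∫ x in Ico s.a s.b, D x := by
    refine setIntegral_mono_set hIab (Filter.Eventually.of_forall hD0) (Filter.Eventually.of_forall ?_)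
    intro x hx
    exact ⟨le_trans hsubI.1 hx.1, lt_of_lt_of_le hx.2 hsubI.2⟩
  have hmain := hδ2 s.a s.b hs.ha hs.hb ha hb hlen
  have hmain' : ∫ x in Ico s.a s.b, D x ≤ ε / (8 * n + 1) * (s.b - s.a) := hmain
  have hfin : l * L ≤ 2 * (ε / (8 * n + 1) * (s.b - s.a)) := by
    rw [← hcst]
    refine hint1.trans ?_
    rw [hsum, hshift]
    linarith
  have hε' : 0 ≤ ε / (8 * n + 1) := (div_pos hε hn0).le
  have hfin2 : l * L ≤ l * (8 * n * (ε / (8 * n + 1))) := by
    refine hfin.trans ?_
    have : ε / (8 * n + 1) * (s.b - s.a) ≤ ε / (8 * n + 1) * (4 * n * l) :=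
      mul_le_mul_of_nonneg_left hil hε'
    nlinarith
  have hfin3 : L ≤ 8 * n * (ε / (8 * n + 1)) := le_of_mul_le_mul_left hfin2 hlpos
  refine hfin3.trans ?_
  rw [← mul_div_assoc, div_le_iff₀ hn0]
  nlinarith

end R970.WM
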