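import Pool.Agent.R970.WM.AbFinal
import Pool.Agent.R970.WM.LS
import Pool.Agent.R970.WM.LD
import Pool.Agent.R970.WM.LI
import Pool.Agent.R970.WM.LP
import Pool.Agent.R970.WM.LGb
import Pool.Agent.R970.WM.HU
import Pool.Agent.R970.WM.HR
import Pool.Agent.R970.WM.TI
import Pool.Agent.R970.WM.GRb
import Pool.Agent.R970.WM.GL
import Pool.Agent.R970.WM.AP
import Pool.Agent.R970.WM.IR
import Pool.Agent.R970.WM.EN
import Pool.Agent.R970.WM.KE
import Pool.Agent.R970.WM.IW
import Pool.Agent.R970.WM.OR
import Pool.Agent.R970.WM.AW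
import Pool.Agent.R970.WM.WC
import Pool.Agent.R970.WM.T2
import Pool.Agent.R970.WM.T3
import Pool.Agent.R970.WM.SM
import Pool.Agent.R970.WM.CN
import Pool.Agent.R970.WM.CO
import Pool.Agent.R970.WM.IG
import Pool.Agent.R970.WM.DE
import Pool.Agent.R970.WM.WF
import Pool.Agent.R970.WM.PF
import Pool.Agent.R970.WM.JO
import Pool.Agent.R891.WM.FIb
import Pool.Agent.R970.WM.LN
import Pool.Agent.R970.WM.FS
import Pool.Agent.R970.WM.PWb
import Pool.Agent.R970.WM.NE
import Pool.Agent.R970.WM.HS
import Pool.Agent.R970.WM.GT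

open MeasureTheory Set

namespace R970.WM

theorem F_lieSub : Stm.lieSub := R970.WM.lieSub 
theorem F_lieGen : Stm.lieGen := R970.WM.lieGen F_lieSub
theorem F_lin : Stm.lin := R970.WM.lin 
theorem F_lgPair : Stm.lgPair := R970.WM.lgPair F_lieSub F_lieGen F_lin
theorem F_lg : Stm.lg := R970.WM.lg F_lgPair
theorem F_haarUpd : Stm.haarUpd := R970.WM.haarUpd 
theorem F_haarReach : Stm.haarReach := R970.WM.haarReach F_haarUpd
theorem F_tileR : Stm.tileR := R970.WM.tileR 
theorem F_goodR : Stm.goodR := R970.WM.goodR F_tileR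
theorem F_goodL : Stm.goodL := R970.WM.goodL F_tileR
theorem F_aper : Stm.aper := R970.WM.aper 
theorem F_irr : Stm.irr := R970.WM.irr 
theorem F_ends : Stm.ends := R970.WM.ends 
theorem F_keep : Stm.keep := R970.WM.keep 
theorem F_infWin : Stm.infWin := R970.WM.infWin 
theorem F_order : Stm.order := R970.WM.order F_infWin
theorem F_allWin : Stm.allWin := R970.WM.allWin F_infWin F_order
theorem F_winContra : Stm.winContra := R970.WM.winContra 
theorem F_termR : Stm.termR := R970.WM.termR F_allWin F_winContra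
theorem F_termL : Stm.termL := R970.WM.termL F_termR F_tileR
theorem F_small : Stm.small := R970.WM.small F_goodR F_goodL F_aper F_irr F_ends F_keep F_tileR F_termR F_termL
theorem F_cnt : Stm.cnt := R970.WM.cnt 
theorem F_comp : Stm.comp := R970.WM.comp F_small F_aper F_goodR F_goodL
theorem F_initGood : Stm.initGood := R970.WM.initGood 
theorem F_dens : Stm.dens := R970.WM.dens 
theorem F_wordsFix : Stm.wordsFix := R970.WM.wordsFix F_dens
theorem F_pairFix : Stm.pairFix := R970.WM.pairFix F_lg
theorem F_joint : Stm.joint := R970.WM.joint F_haarUpd F_haarReach F_cnt F_comp F_wordsFix F_pairFix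
theorem F_fiber : Stm.fiber := R891.FIb.fiber F_joint
theorem F_line : Stm.line := R970.WM.line F_fiber
theorem F_fixedSec : Stm.fixedSec := R970.WM.fixedSec F_line mainF
theorem F_pw : Stm.pw := R970.WM.pw 
theorem F_noEig : Stm.noEig := R970.WM.noEig F_pw F_fixedSec
theorem F_hsOp : Stm.hsOp := R970.WM.hsOp 
theorem F_gt : Stm.gt := R970.WM.gt F_hsOp

theorem final : Stm.final := final_of F_noEig F_gt F_initGood ietFacts

end R970.WM
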