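import Pool.Agent.R970.WM.Stm2

/-!
Lebesgue differentiation with parameter (helper209).
-/

open MeasureTheory Set Filter Topology

namespace R970.WM

theorem dens : Stm.dens := by
  intro Y _ _ m _ W _ _ _ M hM ⟨C, hC⟩
  have : ProperSpace W := FiniteDimensional.proper ℂ W
  have : Fact ((1 : ENNReal) ≠ ⊤) := ⟨ENNReal.one_ne_top⟩
  let D : ℕ → Lp W 1 m := TopologicalSpace.denseSeq (Lp W 1 m)
  have hMint : ∀ x : ℝ, Integrable (fun y => M (y, x)) m := fun x =>
    Integrable.of_bound (hM.comp_measurable measurable_prodMk_right).aestronglyMeasurable C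
      (Eventually.of_forall fun y => hC _)
  have hDint : ∀ k, Integrable (D k) m := fun k => L1.integrable_coeFn _
  let h : ℕ → ℝ → ℝ := fun k x => ∫ y, ‖M (y, x) - D k y‖ ∂m
  have hsm : ∀ k, StronglyMeasurable (h k) := by
    intro k
    have h1 : StronglyMeasurable fun q : Y × ℝ => ‖M q - D k q.1‖ :=
      (hM.sub ((Lp.stronglyMeasurable (D k)).comp_measurable measurable_fst)).norm
    exact h1.integral_prod_left'
  have hdint : ∀ k x, Integrable (fun y => ‖M (y, x) - D k y‖) m := fun k x =>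
    ((hMint x).sub (hDint k)).norm
  have h0 : ∀ k x, 0 ≤ h k x := fun k x => integral_nonneg fun y => norm_nonneg _
  have hbd : ∀ k x, ‖h k x‖ ≤ C + ∫ y, ‖D k y‖ ∂m := by
    intro k x
    rw [Real.norm_of_nonneg (h0 k x)]
    calc h k x ≤ ∫ y, (C + ‖D k y‖) ∂m := by
          refine integral_mono (hdint k x) ((integrable_const C).add (hDint k).norm) fun y => ?_
          have h1 := norm_sub_le (M (y, x)) (D k y)
          have h2 := hC (y, x)
          change ‖M (y, x) - D k y‖ ≤ C + ‖D k y‖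
          linarith
      _ = C + ∫ y, ‖D k y‖ ∂m := by
          rw [integral_add (integrable_const C) (hDint k).norm]
          simp
  have hloc : ∀ k, LocallyIntegrable (h k) (volume : Measure ℝ) := by
    intro k
    refine (locallyIntegrable_const (C + ∫ y, ‖D k y‖ ∂m)).mono (hsm k).aestronglyMeasurable ?_
    exact Eventually.of_forall fun x => (hbd k x).trans (le_abs_self _)
  have hae : ∀ᵐ x0 ∂U, ∀ k, ∀ {ι : Type} {l : Filter ι} (w : ι → ℝ) (δ : ι → ℝ)
      (_ : Tendsto δ l (𝓝[>] 0)) (_ : ∀ᶠ j in l, x0 ∈ Metric.closedBall (w j) (1 * δ j)),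
      Tendsto (fun j => ⨍ y in Metric.closedBall (w j) (δ j), ‖h k y - h k x0‖) l (𝓝 0) := by
    rw [ae_all_iff]
    intro k
    exact ae_restrict_of_ae (IsUnifLocDoublingMeasure.ae_tendsto_average_norm_sub volume
      (hloc k) 1)
  filter_upwards [hae] with x0 hx0 ε hε
  obtain ⟨k, hk⟩ := (TopologicalSpace.denseRange_denseSeq (Lp W 1 m)).exists_dist_lt
    ((hMint x0).toL1 _) (show 0 < ε / 4 by positivity)
  have hk' : h k x0 < ε / 4 := by
    rw [L1.dist_eq_integral_dist] at hk
    refine lt_of_eq_of_lt (integral_congr_ae ?_) hk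
    filter_upwards [(hMint x0).coeFn_toL1] with y hy
    rw [hy, dist_eq_norm]
  have hlim := hx0 k (ι := ℝ × ℝ)
    (l := comap (fun q : ℝ × ℝ => (q.2 - q.1) / 2) (𝓝[>] 0) ⊓ 𝓟 {q | q.1 ≤ x0 ∧ x0 ≤ q.2})
    (fun q => (q.1 + q.2) / 2) (fun q => (q.2 - q.1) / 2) (tendsto_comap.mono_left inf_le_left)
    (by
      rw [eventually_inf_principal]
      refine Eventually.of_forall fun q hq => ?_
      rw [Real.closedBall_eq_Icc]
      constructor <;> linarith [hq.1, hq.2])
  have hev := hlim.eventually (gt_mem_nhds (show 0 < ε / 4 by positivity))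
  rw [eventually_inf_principal, eventually_comap] at hev
  obtain ⟨u, hu, hsub⟩ := mem_nhdsGT_iff_exists_Ioo_subset.1 hev
  refine ⟨u, hu, fun a b ha hb hax hxb hab => ?_⟩
  have hab' : a ≤ b := by linarith
  have havg := hsub (show (b - a) / 2 ∈ Ioo 0 u from ⟨by linarith, by linarith⟩) (a, b) rfl
    ⟨hax, hxb.le⟩
  have e1 : (a + b) / 2 - (b - a) / 2 = a := by ring
  have e2 : (a + b) / 2 + (b - a) / 2 = b := by ring
  have havg' : ⨍ y in Metric.closedBall ((a + b) / 2) ((b - a) / 2), ‖h k y - h k x0‖ < ε / 4 :=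
    havg
  rw [setAverage_eq, Real.closedBall_eq_Icc, e1, e2, integral_Icc_eq_integral_Ico,
    Real.volume_real_Icc_of_le hab', smul_eq_mul, inv_mul_lt_iff₀ (by linarith)] at havg'
  have hint1 : IntegrableOn (fun x => ‖h k x - h k x0‖) (Ico a b) volume := by
    refine Integrable.norm (Integrable.sub ?_ (integrable_const _))
    exact Integrable.of_bound (hsm k).aestronglyMeasurable _ (Eventually.of_forall (hbd k))
  calc ∫ x in Ico a b, (∫ y, ‖M (y, x) - M (y, x0)‖ ∂m)
      ≤ ∫ x in Ico a b, (‖h k x - h k x0‖ + 2 * h k x0) := by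
        refine integral_mono_of_nonneg
          (Eventually.of_forall fun x => integral_nonneg fun y => norm_nonneg _)
          (hint1.add (integrable_const _)) (Eventually.of_forall fun x => ?_)
        have h1 : ∫ y, ‖M (y, x) - M (y, x0)‖ ∂m ≤ h k x + h k x0 := by
          change _ ≤ (∫ y, ‖M (y, x) - D k y‖ ∂m) + ∫ y, ‖M (y, x0) - D k y‖ ∂m
          rw [← integral_add (hdint k x) (hdint k x0)]
          refine integral_mono ((hMint x).sub (hMint x0)).norm
            ((hdint k x).add (hdint k x0)) fun y => ?_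
          change ‖M (y, x) - M (y, x0)‖ ≤ ‖M (y, x) - D k y‖ + ‖M (y, x0) - D k y‖
          rw [← sub_sub_sub_cancel_right (M (y, x)) (M (y, x0)) (D k y)]
          exact norm_sub_le _ _
        have h2 : h k x - h k x0 ≤ ‖h k x - h k x0‖ := le_abs_self _
        change ∫ y, ‖M (y, x) - M (y, x0)‖ ∂m ≤ ‖h k x - h k x0‖ + 2 * h k x0
        linarith
    _ = (∫ x in Ico a b, ‖h k x - h k x0‖) + (b - a) * (2 * h k x0) := by
        rw [integral_add hint1 (integrable_const _), setIntegral_const,
          Real.volume_real_Ico_of_le hab', smul_eq_mul]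
    _ ≤ ε * (b - a) := by
        have h3 : 0 ≤ b - a := by linarith
        nlinarith [mul_nonneg h3 (h0 k x0), mul_nonneg h3 (sub_nonneg.2 hk'.le), mul_nonneg h3 hε.le]

end R970.WM
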