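import Mathlib

open MeasureTheory Set Filter Topology

namespace R970.WM

/-- weak mixing: the Cartesian square is ergodic -/
def WeakMix {Z : Type*} [MeasurableSpace Z] (S : Z → Z) (μ : Measure Z) : Prop :=
  Ergodic (Prod.map S S) (μ.prod μ)

/-- left endpoint of the `k`-th exchanged interval -/
noncomputable def lft {n : ℕ} (lam : Fin n → ℝ) (k : Fin n) : ℝ :=
  ∑ i ∈ Finset.univ.filter (fun i => i < k), lam i

/-- left endpoint of the image of the `k`-th exchanged interval -/
noncomputable def lftIm {n : ℕ} (π : Equiv.Perm (Fin n)) (lam : Fin n → ℝ) (k : Fin n) : ℝ :=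
  ∑ i ∈ Finset.univ.filter (fun i => π i < π k), lam i

open Classical in
/-- the index of the exchanged interval containing `x` (junk value `0` outside `[0,1)`) -/
noncomputable def idx {n : ℕ} [NeZero n] (lam : Fin n → ℝ) (x : ℝ) : Fin n :=
  if h : ∃ k, x ∈ Ico (lft lam k) (lft lam k + lam k) then h.choose else 0

open Classical in
/-- the interval exchange transformation, the identity outside `[0,1)` -/
noncomputable def iet {n : ℕ} [NeZero n] (π : Equiv.Perm (Fin n)) (lam : Fin n → ℝ) (x : ℝ) : ℝ :=
  if x ∈ Ico (0:ℝ) 1 then x - lft lam (idx lam x) + lftIm π lam (idx lam x) else x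

/-- Lebesgue measure on `[0,1)` -/
noncomputable def U : Measure ℝ := volume.restrict (Ico (0:ℝ) 1)

/-- number of visits to `A` at times `0, …, k-1` -/
noncomputable def vis {X : Type*} (T : X → X) (A : Set X) (k : ℕ) (x : X) : ℤ :=
  ∑ j ∈ Finset.range k, A.indicator (fun _ => (1:ℤ)) (T^[j] x)

/-- the cocycle generated by the simple function `x ↦ g (ix x)` -/
noncomputable def coc {X : Type*} {n r : ℕ} (T : X → X) (ix : X → Fin n)
    (g : Fin n → UnitAddTorus (Fin r)) (k : ℕ) (x : X) : UnitAddTorus (Fin r) :=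
  ∑ j ∈ Finset.range k, g (ix (T^[j] x))

/-- twisted correlation -/
noncomputable def corr {X : Type*} [MeasurableSpace X] (μ : Measure X) {n r : ℕ} (T : X → X)
    (ix : X → Fin n) (g : Fin n → UnitAddTorus (Fin r)) (m : Fin r → ℤ) (u v : X → ℂ) (k : ℕ) : ℂ :=
  ∫ x, UnitAddTorus.mFourier m (coc T ix g k x) * u (T^[k] x) * v x ∂μ

/-- the skew product -/
noncomputable def skew {X : Type*} {n r : ℕ} (T : X → X) (ix : X → Fin n)
    (g : Fin n → UnitAddTorus (Fin r)) (p : X × UnitAddTorus (Fin r)) : X × UnitAddTorus (Fin r) :=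
  (T p.1, g (ix p.1) + p.2)

/-- indicator function, complex valued -/
noncomputable def chi {X : Type*} (A : Set X) : X → ℂ := A.indicator (fun _ => (1:ℂ))

end R970.WM
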