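import Pool.Agent.R970.WM.Defs

open MeasureTheory Set Filter Topology

namespace R970.WM

/-- evaluation of a word (time order: the first letter acts first, i.e. is the rightmost factor) -/
def ev {G : Type} [Group G] {n : ℕ} (g : Fin n → G) : List (Fin n) → G
  | [] => 1
  | i :: w => ev g w * g i

/-- the words `w` push Haar measure of `Gⁿ` to Haar measure of `Gⁿ` -/
def HaarW {G : Type} [Group G] [MeasurableSpace G] (ν : Measure G) {n : ℕ}
    (w : Fin n → List (Fin n)) : Prop :=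
  MeasurePreserving (fun (g : Fin n → G) (i : Fin n) => ev g (w i))
    (Measure.pi (fun _ => ν)) (Measure.pi (fun _ => ν))

/-- itinerary -/
def itin {n : ℕ} (T : ℝ → ℝ) (ix : ℝ → Fin n) : ℕ → ℝ → List (Fin n)
  | 0, _ => []
  | k+1, x => ix x :: itin T ix k (T x)

/-- a state: interval `[a,b)`, letters `S`, top positions `t`, lengths `l`, translations `d`, words `w` -/
structure St (n : ℕ) where
  a : ℝ
  b : ℝ
  S : Finset (Fin n)
  t : Fin n → ℝ
  l : Fin n → ℝ
  d : Fin n → ℝ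
  w : Fin n → List (Fin n)

/-- the intervals `[t i, t i + l i)`, and the intervals `[t i + d i, t i + d i + l i)`, `i ∈ S`, tile `[a,b)` -/
structure Tile {n : ℕ} (s : St n) : Prop where
  lt : s.a < s.b
  pos : ∀ i ∈ s.S, 0 < s.l i
  sub : ∀ i ∈ s.S, s.a ≤ s.t i ∧ s.t i + s.l i ≤ s.b
  subIm : ∀ i ∈ s.S, s.a ≤ s.t i + s.d i ∧ s.t i + s.d i + s.l i ≤ s.b
  sep : ∀ i ∈ s.S, ∀ j ∈ s.S, i ≠ j → s.t i + s.l i ≤ s.t j ∨ s.t j + s.l j ≤ s.t i
  sepIm : ∀ i ∈ s.S, ∀ j ∈ s.S, i ≠ j →
    s.t i + s.d i + s.l i ≤ s.t j + s.d j ∨ s.t j + s.d j + s.l j ≤ s.t i + s.d i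
  tot : ∑ i ∈ s.S, s.l i = s.b - s.a

/-- the state describes the first return map of `T` to `[a,b)` and the words are the itineraries -/
structure Good {n : ℕ} (T : ℝ → ℝ) (ix : ℝ → Fin n) (s : St n) : Prop where
  tile : Tile s
  ha : 0 ≤ s.a
  hb : s.b ≤ 1
  wne : ∀ i ∈ s.S, s.w i ≠ []
  dyn : ∀ i ∈ s.S, ∀ x ∈ Ico (s.t i) (s.t i + s.l i),
    T^[(s.w i).length] x = x + s.d i ∧ itin T ix (s.w i).length x = s.w i
  ret : ∀ i ∈ s.S, ∀ x ∈ Ico (s.t i) (s.t i + s.l i), ∀ k, 0 < k → k < (s.w i).length →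
    T^[k] x ∉ Ico s.a s.b

/-- no proper nonempty set of letters occupies the right part of the interval both in the top and
in the bottom row -/
def Irred {n : ℕ} (s : St n) : Prop :=
  ∀ A : Finset (Fin n), A ⊆ s.S → A.Nonempty → A ≠ s.S →
    ¬ ∃ c : ℝ, (∀ i ∈ A, c ≤ s.t i ∧ c ≤ s.t i + s.d i) ∧
      (∀ i ∈ s.S \ A, s.t i + s.l i ≤ c ∧ s.t i + s.d i + s.l i ≤ c)

def TopLast {n : ℕ} (s : St n) (α : Fin n) : Prop := α ∈ s.S ∧ s.t α + s.l α = s.b
def BotLast {n : ℕ} (s : St n) (β : Fin n) : Prop := β ∈ s.S ∧ s.t β + s.d β + s.l β = s.b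
def TopFirst {n : ℕ} (s : St n) (α : Fin n) : Prop := α ∈ s.S ∧ s.t α = s.a
def BotFirst {n : ℕ} (s : St n) (β : Fin n) : Prop := β ∈ s.S ∧ s.t β + s.d β = s.a

/-- reflection of a state -/
def refl {n : ℕ} (s : St n) : St n where
  a := -s.b
  b := -s.a
  S := s.S
  t := fun i => -s.t i - s.l i
  l := s.l
  d := fun i => -s.d i
  w := s.w

open Classical in
/-- cutting at the right end, `α` the last letter of the top row, `β` the last letter of the bottom row -/
noncomputable def cutR {n : ℕ} (s : St n) (α β : Fin n) : St n :=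
  if s.l β < s.l α then
    { s with b := s.b - s.l β, l := Function.update s.l α (s.l α - s.l β),
             d := Function.update s.d β (s.d β + s.d α), w := Function.update s.w β (s.w β ++ s.w α) }
  else if s.l α < s.l β then
    { s with b := s.b - s.l α, t := Function.update s.t α (s.t β + s.l β - s.l α),
             l := Function.update s.l β (s.l β - s.l α),
             d := Function.update s.d α (s.d β + s.d α), w := Function.update s.w α (s.w β ++ s.w α) }
  else
    { s with b := s.b - s.l α, S := s.S.erase α,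
             d := Function.update s.d β (s.d β + s.d α), w := Function.update s.w β (s.w β ++ s.w α) }

/-- cutting at the left end -/
noncomputable def cutL {n : ℕ} (s : St n) (α β : Fin n) : St n := refl (cutR (refl s) α β)

def StepR {n : ℕ} (x0 : ℝ) (s s' : St n) : Prop :=
  ∃ α β, α ≠ β ∧ TopLast s α ∧ BotLast s β ∧ s' = cutR s α β ∧ x0 < s'.b
def StepL {n : ℕ} (x0 : ℝ) (s s' : St n) : Prop :=
  ∃ α β, α ≠ β ∧ TopFirst s α ∧ BotFirst s β ∧ s' = cutL s α β ∧ s'.a ≤ x0
def Step {n : ℕ} (x0 : ℝ) (s s' : St n) : Prop := StepR x0 s s' ∨ StepL x0 s s'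
def Reach {n : ℕ} (x0 : ℝ) : St n → St n → Prop := Relation.ReflTransGen (Step x0)

open Classical in
noncomputable def win {n : ℕ} (s : St n) (α β : Fin n) : Fin n := if s.l β < s.l α then α else β
open Classical in
noncomputable def los {n : ℕ} (s : St n) (α β : Fin n) : Fin n := if s.l β < s.l α then β else α

/-- an infinite sequence of right cuts without ties -/
structure RSeq {n : ℕ} (s : ℕ → St n) (α β : ℕ → Fin n) (x0 : ℝ) : Prop where
  tile : ∀ j, Tile (s j)
  irr : ∀ j, Irred (s j)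
  top : ∀ j, TopLast (s j) (α j)
  bot : ∀ j, BotLast (s j) (β j)
  ne : ∀ j, α j ≠ β j
  nt : ∀ j, (s j).l (α j) ≠ (s j).l (β j)
  step : ∀ j, s (j+1) = cutR (s j) (α j) (β j)
  lb : ∀ j, x0 < (s j).b
  a0 : (s 0).a < x0

/-- `i` wins infinitely often -/
def WinsIO {n : ℕ} (s : ℕ → St n) (α β : ℕ → Fin n) (i : Fin n) : Prop :=
  ∀ m : ℕ, ∃ k, m ≤ k ∧ win (s k) (α k) (β k) = i

/-- initial state of an interval exchange -/
noncomputable def init {n : ℕ} (π : Equiv.Perm (Fin n)) (lam : Fin n → ℝ) : St n where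
  a := 0
  b := 1
  S := Finset.univ
  t := lft lam
  l := lam
  d := fun i => lftIm π lam i - lft lam i
  w := fun i => [i]

/-- one-parameter directions of a set of operators -/
def lieOf {W : Type} [NormedAddCommGroup W] [InnerProductSpace ℂ W] (Γ : Set (W →L[ℂ] W)) :
    Set (W →L[ℂ] W) := {ξ | ∀ t : ℝ, NormedSpace.exp ((t:ℂ) • ξ) ∈ Γ}

/-- operators of the representation -/
def opSet {G W : Type} [Group G] [NormedAddCommGroup W] [InnerProductSpace ℂ W]
    (R : G →* (W ≃ₗᵢ[ℂ] W)) : Set (W →L[ℂ] W) :=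
  range (fun a : G => ((R a).toContinuousLinearEquiv : W →L[ℂ] W))

/-- the skew product with a group -/
def skewG {X G : Type} [Group G] {n : ℕ} (T : X → X) (ix : X → Fin n) (g : Fin n → G) (p : X × G) : X × G :=
  (T p.1, g (ix p.1) * p.2)

end R970.WM
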