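import Pool.Agent.R970.WM.Stm

/-!
# Piece E3: weak mixing implies the ergodicity of the threefold product
-/

set_option autoImplicit false

open MeasureTheory Set Filter Topology

namespace R970.WM.E3

section met
variable {Y : Type} [MeasurableSpace Y] {ν : Measure Y} [IsProbabilityMeasure ν] {S : Y → Y}

/-- the averages of `ν (W ∩ S⁻ᵏ R)` -/
noncomputable def av (ν : Measure Y) (S : Y → Y) (W R : Set Y) (N : ℕ) : ℝ :=
  (∑ k ∈ Finset.range N, ν.real (W ∩ S^[k] ⁻¹' R)) / (N:ℝ)

lemma iter_ind (hS : MeasurePreserving S ν ν) {R : Set Y} (hR : MeasurableSet R) (k : ℕ) :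
    (⇑(Lp.compMeasurePreservingₗᵢ ℝ S hS : Lp ℝ 2 ν →ₗᵢ[ℝ] Lp ℝ 2 ν))^[k]
      (indicatorConstLp 2 hR (measure_ne_top ν R) (1:ℝ)) =
      indicatorConstLp 2 ((hS.measurable.iterate k) hR) (measure_ne_top ν _) (1:ℝ) := by
  induction k with
  | zero => rfl
  | succ k ih =>
    rw [Function.iterate_succ_apply', ih]
    exact Lp.indicatorConstLp_compMeasurePreserving (p := 2) (E := ℝ)
      ((hS.measurable.iterate k) hR) (measure_ne_top ν _) (1:ℝ) hS

lemma met (hS : Ergodic S ν) {R W : Set Y} (hR : MeasurableSet R) (hW : MeasurableSet W) :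
    Tendsto (av ν S W R) atTop (𝓝 (ν.real W * ν.real R)) := by
  have hmp := hS.toMeasurePreserving
  let V : Lp ℝ 2 ν →ₗᵢ[ℝ] Lp ℝ 2 ν := Lp.compMeasurePreservingₗᵢ ℝ S hmp
  let x : Lp ℝ 2 ν := indicatorConstLp 2 hR (measure_ne_top ν R) (1:ℝ)
  have hlim := ContinuousLinearMap.tendsto_birkhoffAverage_orthogonalProjection
    V.toContinuousLinearMap V.norm_toContinuousLinearMap_le x
  obtain ⟨g, hgmem, hlim2⟩ : ∃ g : Lp ℝ 2 ν, V g = g ∧
      Tendsto (birkhoffAverage ℝ V.toContinuousLinearMap _root_.id · x) atTop (𝓝 g) :=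
    ⟨_, LinearMap.mem_eqLocus.1 (Submodule.coe_mem _), hlim⟩
  obtain ⟨c, hc⟩ := hS.ae_eq_const_of_ae_eq_comp_ae (g := (g : Y → ℝ))
    (Lp.aestronglyMeasurable g) (by
      have h1 := Lp.coeFn_compMeasurePreserving g hmp
      have h2 : Lp.compMeasurePreserving S hmp g = g := hgmem
      rw [h2] at h1
      exact h1.symm)
  have key : ∀ (W : Set Y) (hW : MeasurableSet W),
      Tendsto (av ν S W R) atTop (𝓝 (c * ν.real W)) := by
    intro W hW
    have h1 : Tendsto (fun N => inner ℝ (indicatorConstLp 2 hW (measure_ne_top ν W) (1:ℝ))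
        (birkhoffAverage ℝ V.toContinuousLinearMap _root_.id N x)) atTop
        (𝓝 (inner ℝ (indicatorConstLp 2 hW (measure_ne_top ν W) (1:ℝ)) g)) :=
      tendsto_const_nhds.inner hlim2
    have h2 : inner ℝ (indicatorConstLp 2 hW (measure_ne_top ν W) (1:ℝ)) g = c * ν.real W := by
      rw [L2.inner_indicatorConstLp_one, integral_congr_ae (ae_restrict_of_ae hc)]
      simp [mul_comm]
    rw [h2] at h1
    refine h1.congr fun N => ?_
    rw [birkhoffAverage, birkhoffSum, inner_smul_right, inner_sum, av, div_eq_inv_mul]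
    congr 1
    apply Finset.sum_congr rfl
    intro k _
    have h3 : (⇑V.toContinuousLinearMap)^[k] x =
        indicatorConstLp 2 ((hmp.measurable.iterate k) hR) (measure_ne_top ν _) (1:ℝ) :=
      iter_ind hmp hR k
    rw [_root_.id, h3, L2.real_inner_indicatorConstLp_one_indicatorConstLp_one]
  have h1 := key univ .univ
  have h2 : c = ν.real R := by
    have h3 : Tendsto (av ν S univ R) atTop (𝓝 (ν.real R)) := by
      apply tendsto_const_nhds.congr'
      filter_upwards [eventually_ge_atTop 1] with N hN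
      have hN' : (N : ℝ) ≠ 0 := by positivity
      have : ∀ k, ν.real (univ ∩ S^[k] ⁻¹' R) = ν.real R := fun k => by
        rw [univ_inter, (hmp.iterate k).measureReal_preimage hR.nullMeasurableSet]
      simp only [av, this, Finset.sum_const, Finset.card_range, nsmul_eq_mul]
      field_simp
    have := tendsto_nhds_unique h1 h3
    simpa using this
  rw [mul_comm, ← h2]
  exact key W hW

end met

/-- products of averages -/
lemma avg_mul (a b : ℕ → ℝ) (α β : ℝ) (hb : ∀ k, |b k| ≤ 1)
    (h1 : Tendsto (fun N : ℕ => (∑ k ∈ Finset.range N, a k) / (N:ℝ)) atTop (𝓝 α))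
    (h2 : Tendsto (fun N : ℕ => (∑ k ∈ Finset.range N, a k ^ 2) / (N:ℝ)) atTop (𝓝 (α ^ 2)))
    (h3 : Tendsto (fun N : ℕ => (∑ k ∈ Finset.range N, b k) / (N:ℝ)) atTop (𝓝 β)) :
    Tendsto (fun N : ℕ => (∑ k ∈ Finset.range N, a k * b k) / (N:ℝ)) atTop (𝓝 (α * β)) := by
  have hD : Tendsto (fun N : ℕ => (∑ k ∈ Finset.range N, (a k - α) ^ 2) / (N:ℝ)) atTop (𝓝 0) := by
    have h4 : Tendsto (fun N : ℕ => (∑ k ∈ Finset.range N, a k ^ 2) / (N:ℝ) -
        2 * α * ((∑ k ∈ Finset.range N, a k) / (N:ℝ)) + α ^ 2) atTop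
        (𝓝 (α ^ 2 - 2 * α * α + α ^ 2)) := (h2.sub (h1.const_mul (2 * α))).add_const _
    rw [show α ^ 2 - 2 * α * α + α ^ 2 = 0 by ring] at h4
    refine h4.congr' ?_
    filter_upwards [eventually_ge_atTop 1] with N hN
    have hN' : (N : ℝ) ≠ 0 := by positivity
    have : ∑ k ∈ Finset.range N, (a k - α) ^ 2 = ∑ k ∈ Finset.range N, a k ^ 2 -
        2 * α * (∑ k ∈ Finset.range N, a k) + N * α ^ 2 := by
      rw [Finset.mul_sum, ← Finset.sum_sub_distrib]
      have : (N:ℝ) * α ^ 2 = ∑ _k ∈ Finset.range N, α ^ 2 := by simp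
      rw [this, ← Finset.sum_add_distrib]
      apply Finset.sum_congr rfl
      intro k _
      ring
    rw [this]
    field_simp
  have hE : Tendsto (fun N : ℕ => (∑ k ∈ Finset.range N, (a k - α) * b k) / (N:ℝ)) atTop
      (𝓝 0) := by
    have hs : Tendsto (fun N : ℕ => √((∑ k ∈ Finset.range N, (a k - α) ^ 2) / (N:ℝ))) atTop
        (𝓝 0) := by
      have := (Real.continuous_sqrt.tendsto 0).comp hD
      rw [Real.sqrt_zero] at this
      exact this
    refine squeeze_zero_norm' ?_ hs
    filter_upwards [eventually_ge_atTop 1] with N hN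
    have hN' : (0 : ℝ) < N := by positivity
    rw [Real.norm_eq_abs]
    apply Real.abs_le_sqrt
    have hcs := Finset.sum_mul_sq_le_sq_mul_sq (Finset.range N) (fun k => a k - α) b
    have hb2 : ∑ k ∈ Finset.range N, b k ^ 2 ≤ N := by
      calc ∑ k ∈ Finset.range N, b k ^ 2 ≤ ∑ _k ∈ Finset.range N, (1:ℝ) := by
            apply Finset.sum_le_sum
            intro k _
            rw [← sq_abs]
            have := hb k
            nlinarith [abs_nonneg (b k)]
        _ = N := by simp
    have hnn : 0 ≤ ∑ k ∈ Finset.range N, (a k - α) ^ 2 :=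
      Finset.sum_nonneg fun _ _ => sq_nonneg _
    rw [div_pow, div_le_div_iff₀ (by positivity) hN']
    calc (∑ k ∈ Finset.range N, (a k - α) * b k) ^ 2 * N
        ≤ ((∑ k ∈ Finset.range N, (a k - α) ^ 2) * ∑ k ∈ Finset.range N, b k ^ 2) * N :=
          mul_le_mul_of_nonneg_right hcs hN'.le
      _ ≤ ((∑ k ∈ Finset.range N, (a k - α) ^ 2) * N) * N :=
          mul_le_mul_of_nonneg_right (mul_le_mul_of_nonneg_left hb2 hnn) hN'.le
      _ = _ := by ring
  have h5 := hE.add (h3.const_mul α)
  rw [zero_add] at h5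
  refine h5.congr fun N => ?_
  rw [← mul_div_assoc, ← add_div, Finset.mul_sum, ← Finset.sum_add_distrib]
  congr 1
  apply Finset.sum_congr rfl
  intro k _
  ring

section main
variable {X : Type} [MeasurableSpace X] {μ : Measure X} [IsProbabilityMeasure μ] {T : X → X}

lemma prod_iter {A B : Type} (f : A → A) (g : B → B) (k : ℕ) (P : Set A) (Q : Set B)
    (P' : Set A) (Q' : Set B) :
    (P ×ˢ Q) ∩ (Prod.map f g)^[k] ⁻¹' (P' ×ˢ Q') =
      (P ∩ f^[k] ⁻¹' P') ×ˢ (Q ∩ g^[k] ⁻¹' Q') := by
  rw [Prod.map_iterate]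
  ext ⟨x, y⟩
  simp only [mem_inter_iff, mem_prod, mem_preimage, Prod.map_apply]
  tauto

lemma rect (hT : Ergodic (Prod.map T T) (μ.prod μ)) {A B : Set X} {C D : Set (X × X)}
    (hA : MeasurableSet A) (hB : MeasurableSet B) (hC : MeasurableSet C) (hD : MeasurableSet D) :
    Tendsto (av (μ.prod (μ.prod μ)) (Prod.map T (Prod.map T T)) (B ×ˢ D) (A ×ˢ C)) atTop
      (𝓝 ((μ.prod (μ.prod μ)).real (B ×ˢ D) * (μ.prod (μ.prod μ)).real (A ×ˢ C))) := by
  have h1 := met hT (hA.prod MeasurableSet.univ) (hB.prod (MeasurableSet.univ (α := X)))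
  have h2 := met hT (hA.prod hA) (hB.prod hB)
  have h3 := met hT hC hD
  have e1 : ∀ N, av (μ.prod μ) (Prod.map T T) (B ×ˢ univ) (A ×ˢ univ) N =
      (∑ k ∈ Finset.range N, μ.real (B ∩ T^[k] ⁻¹' A)) / (N:ℝ) := by
    intro N
    rw [av]
    congr 1
    apply Finset.sum_congr rfl
    intro k _
    rw [prod_iter, measureReal_prod_prod]
    simp
  have e2 : ∀ N, av (μ.prod μ) (Prod.map T T) (B ×ˢ B) (A ×ˢ A) N =
      (∑ k ∈ Finset.range N, μ.real (B ∩ T^[k] ⁻¹' A) ^ 2) / (N:ℝ) := by
    intro N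
    rw [av]
    congr 1
    apply Finset.sum_congr rfl
    intro k _
    rw [prod_iter, measureReal_prod_prod, sq]
  have h1' := h1.congr e1
  have h2' := h2.congr e2
  rw [measureReal_prod_prod, measureReal_prod_prod] at h1' h2'
  simp only [probReal_univ, mul_one] at h1'
  rw [show μ.real B * μ.real B * (μ.real A * μ.real A) = (μ.real B * μ.real A) ^ 2 by ring] at h2'
  have h4 := avg_mul _ (fun k => (μ.prod μ).real (D ∩ (Prod.map T T)^[k] ⁻¹' C)) _ _
    (fun k => by
      rw [abs_of_nonneg measureReal_nonneg]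
      exact measureReal_le_one) h1' h2' h3
  rw [measureReal_prod_prod, measureReal_prod_prod,
    show μ.real B * (μ.prod μ).real D * (μ.real A * (μ.prod μ).real C) =
      μ.real B * μ.real A * ((μ.prod μ).real D * (μ.prod μ).real C) by ring]
  refine h4.congr fun N => ?_
  rw [av]
  congr 1
  apply Finset.sum_congr rfl
  intro k _
  rw [prod_iter, measureReal_prod_prod]

end main

section pl
variable {Y : Type} [MeasurableSpace Y] {ν : Measure Y} [IsProbabilityMeasure ν] {S : Y → Y}

lemma hasSum_real {f : ℕ → Set Y} (hd : Pairwise (Function.onFun Disjoint f))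
    (hm : ∀ i, MeasurableSet (f i)) {U : Set Y} (hU : MeasurableSet U) :
    HasSum (fun i => ν.real (f i ∩ U)) (ν.real ((⋃ i, f i) ∩ U)) := by
  have h1 : ν ((⋃ i, f i) ∩ U) = ∑' i, ν (f i ∩ U) := by
    rw [iUnion_inter]
    exact measure_iUnion (fun i j hij => (hd hij).mono inter_subset_left inter_subset_left)
      fun i => (hm i).inter hU
  have h2 : ∑' i, ν (f i ∩ U) ≠ ⊤ := by
    rw [← h1]
    exact measure_ne_top _ _
  have h3 := ENNReal.hasSum_toReal h2
  rw [← ENNReal.tsum_toReal_eq (fun i => measure_ne_top _ _), ← h1] at h3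
  exact h3

lemma all_left (hS : MeasurePreserving S ν ν) {R : Set Y} (hR : MeasurableSet R)
    (G : Set (Set Y)) (hG : ‹MeasurableSpace Y› = MeasurableSpace.generateFrom G)
    (hpi : IsPiSystem G)
    (h : ∀ W ∈ G, Tendsto (av ν S W R) atTop (𝓝 (ν.real W * ν.real R))) :
    ∀ W : Set Y, MeasurableSet W → Tendsto (av ν S W R) atTop (𝓝 (ν.real W * ν.real R)) := by
  have hU : ∀ k, MeasurableSet (S^[k] ⁻¹' R) := fun k => (hS.measurable.iterate k) hR
  have hRk : ∀ k, ν.real (S^[k] ⁻¹' R) = ν.real R := fun k =>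
    (hS.iterate k).measureReal_preimage hR.nullMeasurableSet
  refine MeasurableSpace.induction_on_inter
    (C := fun W _ => Tendsto (av ν S W R) atTop (𝓝 (ν.real W * ν.real R))) hG hpi ?_ ?_ ?_ ?_
  · have : av ν S ∅ R = fun _ => 0 := by
      funext N
      simp [av]
    rw [this]
    simp
  · exact h
  · intro W hW ih
    have h1 : Tendsto (fun N => ν.real R - av ν S W R N) atTop
        (𝓝 (ν.real R - ν.real W * ν.real R)) := ih.const_sub _
    have e : ν.real Wᶜ * ν.real R = ν.real R - ν.real W * ν.real R := by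
      rw [probReal_compl_eq_one_sub hW]; ring
    rw [e]
    refine h1.congr' ?_
    filter_upwards [eventually_ge_atTop 1] with N hN
    have hN' : (N : ℝ) ≠ 0 := by positivity
    have h2 : ∀ k, ν.real (Wᶜ ∩ S^[k] ⁻¹' R) = ν.real R - ν.real (W ∩ S^[k] ⁻¹' R) := by
      intro k
      rw [← hRk k, inter_comm, inter_comm W, ← diff_eq]
      have := measureReal_inter_add_diff (μ := ν) (s := S^[k] ⁻¹' R) hW
      linarith
    simp only [av, h2, Finset.sum_sub_distrib, Finset.sum_const, Finset.card_range, nsmul_eq_mul]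
    field_simp
  · intro f hd hm ih
    have hs := hasSum_real (ν := ν) hd hm MeasurableSet.univ
    simp only [inter_univ] at hs
    have key := tendsto_tsum_of_dominated_convergence (𝓕 := atTop)
      (f := fun (N : ℕ) (i : ℕ) => av ν S (f i) R N)
      (g := fun i => ν.real (f i) * ν.real R) (bound := fun i => ν.real (f i)) hs.summable ih
      (Eventually.of_forall fun N i => by
        rw [Real.norm_eq_abs, av, abs_of_nonneg (div_nonneg
          (Finset.sum_nonneg fun _ _ => measureReal_nonneg) (Nat.cast_nonneg _))]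
        rcases Nat.eq_zero_or_pos N with rfl | hN
        · simp
        · have hN' : (0 : ℝ) < N := by exact_mod_cast hN
          rw [div_le_iff₀ hN']
          calc ∑ k ∈ Finset.range N, ν.real (f i ∩ S^[k] ⁻¹' R)
              ≤ ∑ _k ∈ Finset.range N, ν.real (f i) :=
                Finset.sum_le_sum fun k _ => measureReal_mono inter_subset_left
            _ = ν.real (f i) * N := by simp [mul_comm])
    rw [tsum_mul_right, hs.tsum_eq] at key
    refine key.congr fun N => ?_
    have h4 : HasSum (fun i => av ν S (f i) R N) (av ν S (⋃ i, f i) R N) := by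
      have h5 := (hasSum_sum (s := Finset.range N)
        (fun k (_ : k ∈ Finset.range N) => hasSum_real (ν := ν) hd hm (hU k))).div_const (N : ℝ)
      exact h5
    exact h4.tsum_eq

/-- the conclusion -/
lemma concl (hS : MeasurePreserving S ν ν)
    (G : Set (Set Y)) (hG : ‹MeasurableSpace Y› = MeasurableSpace.generateFrom G)
    (hpi : IsPiSystem G) (hGm : ∀ W ∈ G, MeasurableSet W)
    (h : ∀ W ∈ G, ∀ R ∈ G, Tendsto (av ν S W R) atTop (𝓝 (ν.real W * ν.real R))) :
    Ergodic S ν := by
  refine ⟨hS, ⟨?_⟩⟩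
  intro E hE hinv
  have hinvk : ∀ k, S^[k] ⁻¹' E = E := by
    intro k
    induction k with
    | zero => rfl
    | succ k ih => rw [Function.iterate_succ, preimage_comp, ih, hinv]
  -- independence of all sets of `G`
  have h1 : ∀ R ∈ G, ν.real (E ∩ R) = ν.real E * ν.real R := by
    intro R hR
    have h2 := all_left hS (hGm R hR) G hG hpi (fun W hW => h W hW R hR) E hE
    have h3 : Tendsto (av ν S E R) atTop (𝓝 (ν.real (E ∩ R))) := by
      apply tendsto_const_nhds.congr'
      filter_upwards [eventually_ge_atTop 1] with N hN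
      have hN' : (N : ℝ) ≠ 0 := by positivity
      have : ∀ k, ν.real (E ∩ S^[k] ⁻¹' R) = ν.real (E ∩ R) := by
        intro k
        conv_lhs => rw [← hinvk k, ← preimage_inter]
        exact (hS.iterate k).measureReal_preimage (hE.inter (hGm R hR)).nullMeasurableSet
      simp only [av, this, Finset.sum_const, Finset.card_range, nsmul_eq_mul]
      field_simp
    exact tendsto_nhds_unique h3 h2
  have h2 : ∀ R : Set Y, MeasurableSet R → ν.real (R ∩ E) = ν.real R * ν.real E := by
    refine MeasurableSpace.induction_on_inter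
      (C := fun R _ => ν.real (R ∩ E) = ν.real R * ν.real E) hG hpi ?_ ?_ ?_ ?_
    · simp
    · intro R hR
      rw [inter_comm, h1 R hR, mul_comm]
    · intro R hR ih
      rw [probReal_compl_eq_one_sub hR, sub_mul, one_mul, ← ih, inter_comm, inter_comm R, ← diff_eq]
      have := measureReal_inter_add_diff (μ := ν) (s := E) hR
      linarith
    · intro f hd hm ih
      have hs := hasSum_real (ν := ν) hd hm MeasurableSet.univ
      simp only [inter_univ] at hs
      have hs2 := hasSum_real (ν := ν) hd hm hE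
      simp only [ih] at hs2
      exact hs2.unique (hs.mul_right _)
  have h3 := h2 E hE
  rw [inter_self] at h3
  rw [eventuallyConst_set']
  have h4 : ν.real E = 0 ∨ ν.real E = 1 := by
    have : ν.real E * (ν.real E - 1) = 0 := by linarith
    rcases mul_eq_zero.1 this with h | h
    · exact Or.inl h
    · exact Or.inr (by linarith)
  rcases h4 with h5 | h5
  · left
    rw [measureReal_eq_zero_iff] at h5
    exact ae_eq_empty.2 h5
  · right
    rw [ae_eq_univ]
    have h6 : ν.real Eᶜ = 0 := by rw [probReal_compl_eq_one_sub hE, h5, sub_self]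
    rwa [measureReal_eq_zero_iff] at h6

end pl

end R970.WM.E3

namespace R970.WM

theorem ergodic3 : Stm.ergodic3 := by
  intro X _ μ _ T hT hTT
  have hmp : MeasurePreserving (Prod.map T (Prod.map T T)) (μ.prod (μ.prod μ))
      (μ.prod (μ.prod μ)) := hT.prod (hT.prod hT)
  refine E3.concl hmp (image2 (· ×ˢ ·) {s : Set X | MeasurableSet s}
    {t : Set (X × X) | MeasurableSet t}) generateFrom_prod.symm isPiSystem_prod ?_ ?_
  · rintro _ ⟨A, hA, C, hC, rfl⟩
    exact MeasurableSet.prod hA hC
  · rintro _ ⟨B, hB, D, hD, rfl⟩ _ ⟨A, hA, C, hC, rfl⟩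
    exact E3.rect hTT hA hB hC hD

end R970.WM
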