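import Pool.Agent.R970.WM.Stm

open MeasureTheory Set Filter Topology

namespace R970.WM

namespace E3b

section mean
variable {Y : Type*} [MeasurableSpace Y] {ν : Measure Y} [IsProbabilityMeasure ν] {S : Y → Y}

theorem iter_ind (hS : MeasurePreserving S ν ν) (B : Set Y) (hB : MeasurableSet B) (k : ℕ) :
    (Lp.compMeasurePreservingₗᵢ ℝ S hS : Lp ℝ 2 ν →ₗᵢ[ℝ] Lp ℝ 2 ν)^[k]
      (indicatorConstLp 2 hB (measure_ne_top ν B) (1:ℝ)) =
    indicatorConstLp 2 ((hS.measurable.iterate k) hB) (measure_ne_top ν _) (1:ℝ) := by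
  induction k with
  | zero => rfl
  | succ k ih =>
    rw [Function.iterate_succ_apply', ih]
    rfl

/-- mean ergodic theorem for sets -/
theorem mean_sets (hS : Ergodic S ν) (B D : Set Y) (hB : MeasurableSet B) (hD : MeasurableSet D) :
    Tendsto (fun N : ℕ => (∑ k ∈ Finset.range N, ν.real (D ∩ (S^[k])⁻¹' B)) / (N:ℝ)) atTop
      (𝓝 (ν.real B * ν.real D)) := by
  let U : Lp ℝ 2 ν →ₗᵢ[ℝ] Lp ℝ 2 ν := Lp.compMeasurePreservingₗᵢ ℝ S hS.toMeasurePreserving
  let x : Lp ℝ 2 ν := indicatorConstLp 2 hB (measure_ne_top ν B) (1:ℝ)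
  let L : Lp ℝ 2 ν →L[ℝ] Lp ℝ 2 ν := U.toContinuousLinearMap
  have hL : ‖L‖ ≤ 1 := U.norm_toContinuousLinearMap_le
  have hlim := L.tendsto_birkhoffAverage_orthogonalProjection hL x
  obtain ⟨q, hinv, hlim⟩ : ∃ q : Lp ℝ 2 ν, L q = q ∧
      Tendsto (birkhoffAverage ℝ L _root_.id · x) atTop (𝓝 q) := by
    refine ⟨_, ?_, hlim⟩
    have h := ((L.eqLocus (1 : Lp ℝ 2 ν →L[ℝ] Lp ℝ 2 ν)).orthogonalProjectionOnto x).2
    rw [LinearMap.mem_eqLocus] at h
    exact h
  obtain ⟨c, hc⟩ : ∃ c : ℝ, q =ᵐ[ν] Function.const Y c := by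
    apply hS.ae_eq_const_of_ae_eq_comp_ae (Lp.aestronglyMeasurable q)
    have h1 : L q =ᵐ[ν] q ∘ S := Lp.coeFn_compMeasurePreserving q hS.toMeasurePreserving
    rw [hinv] at h1
    exact h1.symm
  have key : ∀ D (hD : MeasurableSet D),
      Tendsto (fun N : ℕ => (∑ k ∈ Finset.range N, ν.real (D ∩ (S^[k])⁻¹' B)) / (N:ℝ)) atTop
      (𝓝 (c * ν.real D)) := by
    intro D hD
    have h1 : Tendsto (fun N : ℕ => inner ℝ (indicatorConstLp 2 hD (measure_ne_top ν D) (1:ℝ))
        (birkhoffAverage ℝ L _root_.id N x)) atTop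
        (𝓝 (inner ℝ (indicatorConstLp 2 hD (measure_ne_top ν D) (1:ℝ)) q)) :=
      tendsto_const_nhds.inner hlim
    have h2 : inner ℝ (indicatorConstLp 2 hD (measure_ne_top ν D) (1:ℝ)) q = c * ν.real D := by
      rw [L2.inner_indicatorConstLp_one]
      have h3 : ∫ y in D, q y ∂ν = ∫ _y in D, c ∂ν := by
        apply setIntegral_congr_ae hD
        filter_upwards [hc] with y hy _
        rw [hy]; rfl
      rw [h3, setIntegral_const, smul_eq_mul, mul_comm]
    have h3 : ∀ N : ℕ, inner ℝ (indicatorConstLp 2 hD (measure_ne_top ν D) (1:ℝ))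
        (birkhoffAverage ℝ L _root_.id N x) =
        (∑ k ∈ Finset.range N, ν.real (D ∩ (S^[k])⁻¹' B)) / (N:ℝ) := by
      intro N
      unfold birkhoffAverage birkhoffSum
      rw [inner_smul_right, inner_sum, div_eq_inv_mul]
      congr 1
      apply Finset.sum_congr rfl
      intro k _
      have h4 : L^[k] x = indicatorConstLp 2 ((hS.measurable.iterate k) hB) (measure_ne_top ν _) (1:ℝ) :=
        iter_ind hS.toMeasurePreserving B hB k
      rw [id, h4]
      exact L2.real_inner_indicatorConstLp_one_indicatorConstLp_one hD _ _ _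
    rw [h2] at h1
    exact h1.congr h3
  have hcv : c = ν.real B := by
    have h1 := key univ MeasurableSet.univ
    have h2 : Tendsto (fun N : ℕ => (∑ k ∈ Finset.range N, ν.real (univ ∩ (S^[k])⁻¹' B)) / (N:ℝ)) atTop
        (𝓝 (ν.real B)) := by
      apply tendsto_const_nhds.congr'
      filter_upwards [eventually_gt_atTop 0] with N hN
      have h3 : ∀ k ∈ Finset.range N, ν.real (univ ∩ (S^[k])⁻¹' B) = ν.real B := by
        intro k _
        rw [univ_inter, (hS.toMeasurePreserving.iterate k).measureReal_preimage hB.nullMeasurableSet]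
      rw [Finset.sum_congr rfl h3, Finset.sum_const, Finset.card_range, nsmul_eq_mul]
      have : (N:ℝ) ≠ 0 := by positivity
      field_simp
    have h3 := tendsto_nhds_unique h1 h2
    simpa using h3
  rw [← hcv]
  exact key D hD

end mean

theorem lam_pi {Z : Type*} [mZ : MeasurableSpace Z] (m : Measure Z) [IsProbabilityMeasure m]
    (ρ : ℕ → Measure Z) (hρ : ∀ k, ∀ P, MeasurableSet P → (ρ k) P ≤ m P) (c : ℝ)
    (C : Set (Set Z)) (hC : mZ = MeasurableSpace.generateFrom C) (hpi : IsPiSystem C)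
    (huniv : Tendsto (fun N : ℕ => (∑ k ∈ Finset.range N, (ρ k).real univ) / (N:ℝ)) atTop
      (𝓝 (c * m.real univ)))
    (hbase : ∀ P ∈ C, Tendsto (fun N : ℕ => (∑ k ∈ Finset.range N, (ρ k).real P) / (N:ℝ)) atTop
      (𝓝 (c * m.real P))) :
    ∀ P, MeasurableSet P → Tendsto (fun N : ℕ => (∑ k ∈ Finset.range N, (ρ k).real P) / (N:ℝ)) atTop
      (𝓝 (c * m.real P)) := by
  have hfin : ∀ k, IsFiniteMeasure (ρ k) := fun k =>
    ⟨lt_of_le_of_lt (hρ k univ MeasurableSet.univ) (measure_lt_top m univ)⟩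
  have hle : ∀ k P, MeasurableSet P → (ρ k).real P ≤ m.real P := fun k P hP =>
    ENNReal.toReal_mono (measure_ne_top m P) (hρ k P hP)
  have hsum : ∀ (ρ' : Measure Z) [IsFiniteMeasure ρ'] (f : ℕ → Set Z), Pairwise (Function.onFun Disjoint f) →
      (∀ i, MeasurableSet (f i)) → HasSum (fun i => ρ'.real (f i)) (ρ'.real (⋃ i, f i)) := by
    intro ρ' _ f hf hm
    have h1 : ρ' (⋃ i, f i) = ∑' i, ρ' (f i) := measure_iUnion hf hm
    have h2 : ∑' i, ρ' (f i) ≠ ⊤ := by rw [← h1]; exact measure_ne_top _ _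
    have h3 := ENNReal.hasSum_toReal h2
    have h4 : ρ'.real (⋃ i, f i) = ∑' i, (ρ' (f i)).toReal := by
      rw [Measure.real, h1, ENNReal.tsum_toReal_eq (fun i => measure_ne_top _ _)]
    rw [h4]
    exact h3
  refine MeasurableSpace.induction_on_inter
    (C := fun P _ => Tendsto (fun N : ℕ => (∑ k ∈ Finset.range N, (ρ k).real P) / (N:ℝ)) atTop
      (𝓝 (c * m.real P))) hC hpi ?_ ?_ ?_ ?_
  · simp
  · exact hbase
  · intro P hP ih
    have h1 := huniv.sub ih
    have h2 : c * m.real univ - c * m.real P = c * m.real Pᶜ := by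
      rw [measureReal_compl hP]; ring
    rw [h2] at h1
    apply h1.congr
    intro N
    rw [← sub_div, ← Finset.sum_sub_distrib]
    congr 1
    apply Finset.sum_congr rfl
    intro k _
    rw [measureReal_compl hP]
  · intro f hf hm ih
    have h1 : Tendsto (fun N : ℕ => ∑' i, (∑ k ∈ Finset.range N, (ρ k).real (f i)) / (N:ℝ)) atTop
        (𝓝 (∑' i, c * m.real (f i))) := by
      apply tendsto_tsum_of_dominated_convergence (bound := fun i => m.real (f i))
      · exact (hsum m f hf hm).summable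
      · exact ih
      · refine Eventually.of_forall fun N i => ?_
        rw [Real.norm_of_nonneg (by positivity)]
        rcases Nat.eq_zero_or_pos N with rfl | hN
        · simp
        · rw [div_le_iff₀ (by positivity)]
          calc ∑ k ∈ Finset.range N, (ρ k).real (f i) ≤ ∑ _k ∈ Finset.range N, m.real (f i) :=
                Finset.sum_le_sum fun k _ => hle k _ (hm i)
            _ = m.real (f i) * N := by
                rw [Finset.sum_const, Finset.card_range, nsmul_eq_mul, mul_comm]
    rw [tsum_mul_left, (hsum m f hf hm).tsum_eq] at h1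
    apply h1.congr
    intro N
    rw [tsum_div_const, Summable.tsum_finsetSum (fun k _ => (hsum (ρ k) f hf hm).summable)]
    congr 1
    apply Finset.sum_congr rfl
    intro k _
    exact (hsum (ρ k) f hf hm).tsum_eq

theorem avg_mul (α β : ℕ → ℝ) (a b : ℝ) (hβ : ∀ k, |β k| ≤ 1)
    (h1 : Tendsto (fun N : ℕ => (∑ k ∈ Finset.range N, α k) / (N:ℝ)) atTop (𝓝 a))
    (h2 : Tendsto (fun N : ℕ => (∑ k ∈ Finset.range N, α k * α k) / (N:ℝ)) atTop (𝓝 (a * a)))
    (h3 : Tendsto (fun N : ℕ => (∑ k ∈ Finset.range N, β k) / (N:ℝ)) atTop (𝓝 b)) :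
    Tendsto (fun N : ℕ => (∑ k ∈ Finset.range N, α k * β k) / (N:ℝ)) atTop (𝓝 (a * b)) := by
  have hv : Tendsto (fun N : ℕ => (∑ k ∈ Finset.range N, α k * α k) / (N:ℝ) -
      2 * a * ((∑ k ∈ Finset.range N, α k) / (N:ℝ)) + a * a) atTop (𝓝 0) := by
    have := (h2.sub (h1.const_mul (2 * a))).add_const (a * a)
    have e : a * a - 2 * a * a + a * a = 0 := by ring
    rwa [e] at this
  have hu : Tendsto (fun N : ℕ => (∑ k ∈ Finset.range N, (α k - a) * β k) / (N:ℝ)) atTop (𝓝 0) := by
    have hs : Tendsto (fun N : ℕ => √((∑ k ∈ Finset.range N, α k * α k) / (N:ℝ) -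
      2 * a * ((∑ k ∈ Finset.range N, α k) / (N:ℝ)) + a * a)) atTop (𝓝 0) := by
      have := (Real.continuous_sqrt.tendsto 0).comp hv
      rwa [Real.sqrt_zero] at this
    apply squeeze_zero_norm' _ hs
    filter_upwards [eventually_gt_atTop 0] with N hN
    rw [Real.norm_eq_abs]
    apply Real.abs_le_sqrt
    have hN' : (0:ℝ) < N := by exact_mod_cast hN
    have e1 : (∑ k ∈ Finset.range N, α k * α k) / (N:ℝ) -
      2 * a * ((∑ k ∈ Finset.range N, α k) / (N:ℝ)) + a * a =
      (∑ k ∈ Finset.range N, (α k - a) ^ 2) / N := by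
      have e2 : ∑ k ∈ Finset.range N, (α k - a) ^ 2 = ∑ k ∈ Finset.range N, α k * α k -
          2 * a * ∑ k ∈ Finset.range N, α k + N * (a * a) := by
        rw [Finset.mul_sum, ← Finset.sum_sub_distrib]
        have : (N:ℝ) * (a * a) = ∑ _k ∈ Finset.range N, a * a := by
          rw [Finset.sum_const, Finset.card_range, nsmul_eq_mul]
        rw [this, ← Finset.sum_add_distrib]
        apply Finset.sum_congr rfl
        intro k _; ring
      rw [e2]
      field_simp
    rw [e1, div_pow, div_le_div_iff₀ (by positivity) hN']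
    have hcs := Finset.sum_mul_sq_le_sq_mul_sq (Finset.range N) (fun k => α k - a) β
    have hb : ∑ k ∈ Finset.range N, β k ^ 2 ≤ N := by
      calc ∑ k ∈ Finset.range N, β k ^ 2 ≤ ∑ _k ∈ Finset.range N, (1:ℝ) :=
            Finset.sum_le_sum fun k _ => by
              rw [← sq_abs]; nlinarith [hβ k, abs_nonneg (β k)]
        _ = N := by simp
    have h5 : 0 ≤ ∑ k ∈ Finset.range N, (α k - a) ^ 2 := Finset.sum_nonneg fun k _ => sq_nonneg _
    have h6 : (∑ k ∈ Finset.range N, (α k - a) * β k) ^ 2 ≤ (∑ k ∈ Finset.range N, (α k - a) ^ 2) * N :=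
      hcs.trans (mul_le_mul_of_nonneg_left hb h5)
    nlinarith
  have h7 := hu.add (h3.const_mul a)
  rw [zero_add] at h7
  apply h7.congr
  intro N
  rw [← mul_div_assoc, ← add_div, Finset.mul_sum, ← Finset.sum_add_distrib]
  congr 1
  apply Finset.sum_congr rfl
  intro k _; ring

theorem prod_iter {X Y : Type*} (T : X → X) (S : Y → Y) (k : ℕ) (A C : Set X) (B D : Set Y) :
    (C ×ˢ D) ∩ (Prod.map T S)^[k] ⁻¹' (A ×ˢ B) = (C ∩ T^[k] ⁻¹' A) ×ˢ (D ∩ S^[k] ⁻¹' B) := by
  rw [Prod.map_iterate]
  ext ⟨x, y⟩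
  simp only [mem_inter_iff, mem_prod, mem_preimage, Prod.map_apply]
  tauto

end E3b

open E3b in
theorem ergodic3 : Stm.ergodic3 := by
  intro X _ μ _ T hT hTT
  set S : X × X → X × X := Prod.map T T with hSdef
  set ν : Measure (X × X) := μ.prod μ with hν
  set R : X × (X × X) → X × (X × X) := Prod.map T S with hR
  set m : Measure (X × (X × X)) := μ.prod ν with hm
  have hRm : MeasurePreserving R m m := hT.prod hTT.toMeasurePreserving
  -- rectangles
  have hrect : ∀ (A C : Set X) (B D : Set (X × X)), MeasurableSet A → MeasurableSet C →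
      MeasurableSet B → MeasurableSet D →
      Tendsto (fun N : ℕ => (∑ k ∈ Finset.range N, m.real ((C ×ˢ D) ∩ R^[k] ⁻¹' (A ×ˢ B))) / (N:ℝ)) atTop
        (𝓝 (m.real (A ×ˢ B) * m.real (C ×ˢ D))) := by
    intro A C B D hA hC hB hD
    have h1 := mean_sets hTT (A ×ˢ univ) (C ×ˢ univ) (hA.prod MeasurableSet.univ)
      (hC.prod MeasurableSet.univ)
    have h2 := mean_sets hTT (A ×ˢ A) (C ×ˢ C) (hA.prod hA) (hC.prod hC)
    have h3 := mean_sets hTT B D hB hD
    simp only [hSdef, hν, prod_iter, measureReal_prod_prod, preimage_univ, inter_univ,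
      probReal_univ, mul_one] at h1 h2
    have h4 := avg_mul (fun k => μ.real (C ∩ T^[k] ⁻¹' A)) (fun k => ν.real (D ∩ S^[k] ⁻¹' B))
      (μ.real A * μ.real C) (ν.real B * ν.real D)
      (fun k => by rw [abs_of_nonneg measureReal_nonneg]; exact measureReal_le_one) h1
      (by
        have e : μ.real A * μ.real C * (μ.real A * μ.real C) =
          μ.real A * μ.real A * (μ.real C * μ.real C) := by ring
        rw [e]; exact h2) h3
    simp only [hR, hm, prod_iter, measureReal_prod_prod]
    have e : μ.real A * ν.real B * (μ.real C * ν.real D) =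
      μ.real A * μ.real C * (ν.real B * ν.real D) := by ring
    rw [e]
    exact h4
  -- the rectangles generate
  have hgen : (inferInstance : MeasurableSpace (X × (X × X))) = MeasurableSpace.generateFrom
      (image2 (· ×ˢ ·) {s : Set X | MeasurableSet s} {t : Set (X × X) | MeasurableSet t}) :=
    generateFrom_prod.symm
  have hpi : IsPiSystem (image2 (· ×ˢ ·) {s : Set X | MeasurableSet s}
      {t : Set (X × X) | MeasurableSet t}) := isPiSystem_prod
  -- step A
  have hA : ∀ (A : Set X) (B : Set (X × X)), MeasurableSet A → MeasurableSet B →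
      ∀ Q, MeasurableSet Q →
      Tendsto (fun N : ℕ => (∑ k ∈ Finset.range N, m.real (Q ∩ R^[k] ⁻¹' (A ×ˢ B))) / (N:ℝ)) atTop
        (𝓝 (m.real (A ×ˢ B) * m.real Q)) := by
    intro A B hA hB
    have h := lam_pi m (fun k => m.restrict (R^[k] ⁻¹' (A ×ˢ B)))
      (fun k P _ => Measure.restrict_apply_le _ _) (m.real (A ×ˢ B)) _ hgen hpi ?_ ?_
    · intro Q hQ
      apply (h Q hQ).congr
      intro N
      congr 1
      apply Finset.sum_congr rfl
      intro k _
      rw [measureReal_restrict_apply hQ]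
    · have h1 := hrect A univ B univ hA MeasurableSet.univ hB MeasurableSet.univ
      rw [univ_prod_univ] at h1
      apply h1.congr
      intro N
      congr 1
      apply Finset.sum_congr rfl
      intro k _
      rw [measureReal_restrict_apply MeasurableSet.univ]
    · rintro _ ⟨C, hC, D, hD, rfl⟩
      rw [mem_setOf_eq] at hC hD
      apply (hrect A C B D hA hC hB hD).congr
      intro N
      congr 1
      apply Finset.sum_congr rfl
      intro k _
      rw [measureReal_restrict_apply (hC.prod hD)]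
  -- step B
  have hB : ∀ Q, MeasurableSet Q → ∀ P, MeasurableSet P →
      Tendsto (fun N : ℕ => (∑ k ∈ Finset.range N, m.real (Q ∩ R^[k] ⁻¹' P)) / (N:ℝ)) atTop
        (𝓝 (m.real Q * m.real P)) := by
    intro Q hQ
    have happ : ∀ k P, MeasurableSet P →
        ((m.restrict Q).map (R^[k])).real P = m.real (Q ∩ R^[k] ⁻¹' P) := by
      intro k P hP
      rw [map_measureReal_apply (hRm.measurable.iterate k) hP,
        measureReal_restrict_apply ((hRm.measurable.iterate k) hP), inter_comm]
    have h := lam_pi m (fun k => (m.restrict Q).map (R^[k])) ?_ (m.real Q) _ hgen hpi ?_ ?_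
    · intro P hP
      apply (h P hP).congr
      intro N
      congr 1
      apply Finset.sum_congr rfl
      intro k _
      rw [happ k P hP]
    · intro k P hP
      rw [Measure.map_apply (hRm.measurable.iterate k) hP]
      refine (Measure.restrict_apply_le _ _).trans ?_
      rw [(hRm.iterate k).measure_preimage hP.nullMeasurableSet]
    · have h1 := hA univ univ MeasurableSet.univ MeasurableSet.univ Q hQ
      rw [univ_prod_univ, mul_comm] at h1
      apply h1.congr
      intro N
      congr 1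
      apply Finset.sum_congr rfl
      intro k _
      rw [happ k univ MeasurableSet.univ]
    · rintro _ ⟨C, hC, D, hD, rfl⟩
      rw [mem_setOf_eq] at hC hD
      have h1 := hA C D hC hD Q hQ
      rw [mul_comm] at h1
      apply h1.congr
      intro N
      congr 1
      apply Finset.sum_congr rfl
      intro k _
      rw [happ k _ (hC.prod hD)]
  refine ⟨hRm, ⟨fun E hE hinv => ?_⟩⟩
  have hit : ∀ k, R^[k] ⁻¹' E = E := by
    intro k
    induction k with
    | zero => rfl
    | succ k ih =>
      rw [Function.iterate_succ, preimage_comp, ih]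
      exact hinv
  have h1 := hB E hE E hE
  have h2 : Tendsto (fun N : ℕ => (∑ k ∈ Finset.range N, m.real (E ∩ R^[k] ⁻¹' E)) / (N:ℝ)) atTop
      (𝓝 (m.real E)) := by
    apply tendsto_const_nhds.congr'
    filter_upwards [eventually_gt_atTop 0] with N hN
    simp only [hit, inter_self]
    rw [Finset.sum_const, Finset.card_range, nsmul_eq_mul]
    have : (N:ℝ) ≠ 0 := by positivity
    field_simp
  have h3 := tendsto_nhds_unique h1 h2
  have h4 : m.real E = 0 ∨ m.real E = 1 := by
    have : m.real E * (m.real E - 1) = 0 := by linarith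
    rcases mul_eq_zero.1 this with h | h
    · left; exact h
    · right; linarith
  rw [eventuallyConst_set']
  rcases h4 with h | h
  · left
    rw [measureReal_eq_zero_iff] at h
    exact ae_eq_empty.2 h
  · right
    rw [ae_eq_univ, ← measureReal_eq_zero_iff, measureReal_compl hE, h]
    simp

end R970.WM
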