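import Pool.Agent.R970.WM.Stm2

/-! Project WM2, piece GT (helper208). -/

set_option autoImplicit false

open MeasureTheory Set Filter Topology

namespace R970.WM

namespace GTx

open Module.End

theorem hilb {H : Type} [NormedAddCommGroup H] [InnerProductSpace ℂ H] [CompleteSpace H]
    (A : H →L[ℂ] H) (hA : IsCompactOperator A) (hA0 : A ≠ 0) (V : H →ₗᵢ[ℂ] H)
    (hV : ∀ u, A (V u) = V (A u)) (e : H) (he : A e = 0) :
    ∃ f : H, f ≠ 0 ∧ (∃ c : ℂ, ‖c‖ = 1 ∧ V f = c • f) ∧ inner ℂ e f = 0 := by
  set P : H →L[ℂ] H := (ContinuousLinearMap.adjoint A) * A with hP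
  have hPc : IsCompactOperator P := hA.clm_comp (ContinuousLinearMap.adjoint A)
  have hPsa : IsSelfAdjoint P := IsSelfAdjoint.star_mul_self A
  have hPin : ∀ x y : H, inner ℂ x (P y) = inner ℂ (A x) (A y) := by
    intro x y
    rw [hP, mul_apply_eq_comp, ContinuousLinearMap.adjoint_inner_right]
  have hP0 : P ≠ 0 := by
    intro h0
    apply hA0
    ext x
    have h1 := hPin x x
    rw [h0] at h1
    simp only [zero_apply, inner_zero_right] at h1
    have h2 : A x = 0 := inner_self_eq_zero.mp h1.symm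
    rw [h2]; rfl
  have hnt : Nontrivial H := by
    by_contra hn
    rw [not_nontrivial_iff_subsingleton] at hn
    exact hP0 (ContinuousLinearMap.ext fun x => Subsingleton.elim _ _)
  obtain ⟨lam, hlam, hrad⟩ :=
    spectrum.exists_nnnorm_eq_spectralRadius_of_nonempty (𝕜 := ℂ) (spectrum.nonempty P)
  rw [ContinuousLinearMap.spectralRadius_eq_nnnorm P hPsa] at hrad
  have hn : ‖lam‖ = ‖P‖ := by
    have : ‖lam‖₊ = ‖P‖₊ := by exact_mod_cast hrad
    exact congrArg NNReal.toReal this
  have hPn : 0 < ‖P‖ := norm_pos_iff.mpr hP0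
  have hl0 : lam ≠ 0 := by
    rw [← norm_pos_iff, hn]; exact hPn
  have hev := (hPc.hasEigenvalue_iff_mem_spectrum hl0).mpr hlam
  have hmem : ∀ f : H, f ∈ eigenspace (P : Module.End ℂ H) lam ↔ P f = lam • f := by
    intro f
    rw [mem_eigenspace_iff]; rfl
  have hlr : lam = ((‖P‖ : ℝ) : ℂ) := by
    obtain ⟨v, hv1, hv2⟩ := hev.exists_hasEigenvector
    have h1 := (hmem v).mp (by simpa using hv1)
    have h2 := hPin v v
    rw [h1, inner_smul_right, inner_self_eq_norm_sq_to_K, inner_self_eq_norm_sq_to_K] at h2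
    have hv : (0 : ℝ) < ‖v‖ ^ 2 := by
      have : 0 < ‖v‖ := norm_pos_iff.mpr hv2
      positivity
    have h3 : lam = ((‖A v‖ ^ 2 / ‖v‖ ^ 2 : ℝ) : ℂ) := by
      have hvc : ((‖v‖ ^ 2 : ℝ) : ℂ) ≠ 0 := by exact_mod_cast hv.ne'
      push_cast at hvc ⊢
      rw [eq_div_iff hvc]
      exact_mod_cast h2
    have h4 : ‖lam‖ = ‖A v‖ ^ 2 / ‖v‖ ^ 2 := by
      rw [h3, Complex.norm_real, Real.norm_of_nonneg (by positivity)]
    rw [← hn, h4]
    exact h3
  have hinv : ∀ f : H, P f = lam • f → P (V f) = lam • V f := by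
    intro f hf
    have h1 : ‖A f‖ ^ 2 = ‖P‖ * ‖f‖ ^ 2 := by
      have h2 := hPin f f
      rw [hf, inner_smul_right, inner_self_eq_norm_sq_to_K, inner_self_eq_norm_sq_to_K, hlr] at h2
      have h2' : ((‖A f‖ ^ 2 : ℝ) : ℂ) = ((‖P‖ * ‖f‖ ^ 2 : ℝ) : ℂ) := by
        push_cast
        exact h2.symm
      exact Complex.ofReal_injective h2'
    have h3 : ‖P (V f) - lam • V f‖ ^ 2 ≤ 0 := by
      rw [@norm_sub_sq ℂ]
      have h4 : RCLike.re (inner ℂ (P (V f)) (lam • V f)) = ‖P‖ * ‖A f‖ ^ 2 := by
        rw [inner_smul_right, ← inner_conj_symm, hPin, inner_self_eq_norm_sq_to_K, hV,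
          V.norm_map, hlr]
        simp
        norm_cast
        exact Or.inl rfl
      rw [h4, norm_smul, hn, V.norm_map]
      have h5 : ‖P (V f)‖ ≤ ‖P‖ * ‖f‖ := by
        have := P.le_opNorm (V f)
        rwa [V.norm_map] at this
      have h6 : ‖P (V f)‖ ^ 2 ≤ (‖P‖ * ‖f‖) ^ 2 := by
        exact pow_le_pow_left₀ (norm_nonneg _) h5 2
      rw [h1]
      nlinarith
    have h7 : ‖P (V f) - lam • V f‖ = 0 := by
      have := sq_nonneg ‖P (V f) - lam • V f‖
      have h8 : ‖P (V f) - lam • V f‖ ^ 2 = 0 := le_antisymm h3 this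
      exact pow_eq_zero_iff (two_ne_zero) |>.mp h8
    exact sub_eq_zero.mp (norm_eq_zero.mp h7)
  have hfd : FiniteDimensional ℂ (eigenspace (P : Module.End ℂ H) lam) :=
    ContinuousLinearMap.finite_dimensional_eigenspace hPc lam hl0
  have hne : Nontrivial (eigenspace (P : Module.End ℂ H) lam) := by
    rw [Submodule.nontrivial_iff_ne_bot]
    exact hev
  have hVm : ∀ f ∈ eigenspace (P : Module.End ℂ H) lam,
      V.toLinearMap f ∈ eigenspace (P : Module.End ℂ H) lam := by
    intro f hf
    rw [hmem] at hf ⊢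
    exact hinv f hf
  obtain ⟨c, hc⟩ := Module.End.exists_eigenvalue (V.toLinearMap.restrict hVm)
  obtain ⟨f, hf1, hf2⟩ := hc.exists_hasEigenvector
  have hf3 : V (f : H) = c • (f : H) := by
    have h1 : (V.toLinearMap.restrict hVm) f = c • f := by
      simpa using hf1
    exact congrArg Subtype.val h1
  have hf0 : (f : H) ≠ 0 := by
    intro h; exact hf2 (Subtype.ext h)
  refine ⟨f, hf0, ⟨c, ?_, hf3⟩, ?_⟩
  · have h1 : ‖(f : H)‖ = ‖c‖ * ‖(f : H)‖ := by
      rw [← norm_smul, ← hf3, V.norm_map]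
    have h2 : 0 < ‖(f : H)‖ := norm_pos_iff.mpr hf0
    nlinarith
  · have h1 := hPin e (f : H)
    rw [(hmem _).mp f.2, he, inner_zero_left, inner_smul_right] at h1
    exact (mul_eq_zero.mp h1).resolve_left hl0

end GTx

open GTx in
theorem gt (h : Stm.hsOp) : Stm.gt := by
  intro Z _ _ μ _ S hS hspec
  have hSS : MeasurePreserving (Prod.map S S) (μ.prod μ) (μ.prod μ) := hS.prod hS
  refine { hSS with aeconst_set := ?_ }
  intro E hE hEinv
  set m : ℝ := (μ.prod μ).real E with hm
  set K : Z × Z → ℂ := fun p => ((E.indicator (fun _ => (1 : ℝ)) p - m : ℝ) : ℂ) with hK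
  have hEind : Measurable (E.indicator (fun _ => (1 : ℝ))) := measurable_const.indicator hE
  have hKm : Measurable K := Complex.measurable_ofReal.comp (hEind.sub_const m)
  have hm0 : 0 ≤ m := measureReal_nonneg
  have hm1 : m ≤ 1 := measureReal_le_one
  have hind : ∀ p, 0 ≤ E.indicator (fun _ => (1 : ℝ)) p ∧ E.indicator (fun _ => (1 : ℝ)) p ≤ 1 := by
    intro p
    by_cases hp : p ∈ E
    · rw [indicator_of_mem hp]; exact ⟨zero_le_one, le_rfl⟩
    · rw [indicator_of_notMem hp]; exact ⟨le_rfl, zero_le_one⟩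
  have hKb : ∀ p, ‖K p‖ ≤ 2 := by
    intro p
    simp only [hK, Complex.norm_real, Real.norm_eq_abs]
    rw [abs_le]
    obtain ⟨a, b⟩ := hind p
    constructor <;> linarith
  have hKinv : ∀ z z', K (S z, S z') = K (z, z') := by
    intro z z'
    have h1 : ((S z, S z') ∈ E) ↔ ((z, z') ∈ E) := by
      conv_rhs => rw [← hEinv]
      rfl
    simp only [hK]
    by_cases hp : (z, z') ∈ E
    · rw [indicator_of_mem hp, indicator_of_mem (h1.mpr hp)]
    · rw [indicator_of_notMem hp, indicator_of_notMem (fun hh => hp (h1.mp hh))]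
  have hKsec : ∀ z, Measurable fun z' => K (z, z') := fun z => hKm.comp measurable_prodMk_left
  have hKsi : ∀ z, Integrable (fun z' => K (z, z')) μ := fun z =>
    Integrable.of_bound (hKsec z).aestronglyMeasurable 2 (ae_of_all _ fun z' => hKb _)
  have hKint : Integrable K (μ.prod μ) :=
    Integrable.of_bound hKm.aestronglyMeasurable 2 (ae_of_all _ fun z' => hKb _)
  have hcomp : ∀ φ : Z → ℂ, AEStronglyMeasurable φ μ → ∫ z', φ (S z') ∂μ = ∫ z', φ z' ∂μ := by
    intro φ hφ
    have h1 := integral_map (μ := μ) (φ := S) hS.measurable.aemeasurable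
      (f := φ) (by rw [hS.map_eq]; exact hφ)
    rw [hS.map_eq] at h1
    exact h1.symm
  -- marginal
  have hk : ∀ᵐ z ∂μ, ∫ z', K (z, z') ∂μ = 0 := by
    have hkm : Measurable fun z => ∫ z', K (z, z') ∂μ :=
      (hKm.stronglyMeasurable.integral_prod_right').measurable
    obtain ⟨w, hw⟩ := hspec 1 norm_one (fun z => ∫ z', K (z, z') ∂μ) hkm ⟨2, fun z => by
        refine (norm_integral_le_of_norm_le_const (C := 2) (ae_of_all _ fun z' => hKb _)).trans ?_
        simp⟩ (ae_of_all _ fun z => by
        rw [one_mul]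
        rw [← hcomp (fun z' => K (S z, z')) (hKsec _).aestronglyMeasurable]
        simp only [hKinv])
    have h1 : ∫ z, ∫ z', K (z, z') ∂μ ∂μ = w := by
      rw [integral_congr_ae hw]; simp
    have h2 : ∫ z, ∫ z', K (z, z') ∂μ ∂μ = 0 := by
      rw [← integral_prod K hKint]
      simp only [hK]
      rw [integral_complex_ofReal, integral_sub
        ((integrable_const (1 : ℝ)).indicator hE) (integrable_const m),
        integral_indicator_const (1 : ℝ) hE]
      simp [hm]
    have hw0 : w = 0 := by rw [← h1, h2]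
    filter_upwards [hw] with z hz
    rw [hz, hw0]
  set V : Lp ℂ 2 μ →ₗᵢ[ℂ] Lp ℂ 2 μ := Lp.compMeasurePreservingₗᵢ ℂ S hS with hVdef
  have hVe : ∀ u : Lp ℂ 2 μ, (V u : Z → ℂ) =ᵐ[μ] fun z => u (S z) :=
    fun u => Lp.coeFn_compMeasurePreserving u hS
  obtain ⟨A, hAc, hA⟩ := h Z μ K hKm ⟨2, hKb⟩
  by_cases hA0 : A = 0
  · have hrect : ∀ B : Set Z, MeasurableSet B →
        ∀ᵐ z ∂μ, μ ((Prod.mk z ⁻¹' E) ∩ B) = (μ.prod μ) E * μ B := by
      intro B hB
      have h1 := hA (indicatorConstLp 2 hB (measure_ne_top μ B) (1 : ℂ))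
      rw [hA0] at h1
      have h0 : ((0 : Lp ℂ 2 μ →L[ℂ] Lp ℂ 2 μ) (indicatorConstLp 2 hB (measure_ne_top μ B) (1 : ℂ)) :
          Z → ℂ) =ᵐ[μ] 0 := by
        rw [zero_apply]
        exact Lp.coeFn_zero _ _ _
      filter_upwards [h1, h0] with z hz hz0
      rw [hz0] at hz
      have h2 : ∫ z', K (z, z') * (indicatorConstLp 2 hB (measure_ne_top μ B) (1 : ℂ) : Lp ℂ 2 μ) z' ∂μ =
          ((μ.real ((Prod.mk z ⁻¹' E) ∩ B) - m * μ.real B : ℝ) : ℂ) := by
        have h3 : ∀ᵐ z' ∂μ, K (z, z') *
            (indicatorConstLp 2 hB (measure_ne_top μ B) (1 : ℂ) : Lp ℂ 2 μ) z' =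
            ((((Prod.mk z ⁻¹' E) ∩ B).indicator (fun _ => (1 : ℝ)) z' -
              B.indicator (fun _ => m) z' : ℝ) : ℂ) := by
          filter_upwards [indicatorConstLp_coeFn (p := 2) (hs := hB) (hμs := measure_ne_top μ B)
            (c := (1 : ℂ))] with z' hz'
          rw [hz']
          simp only [hK]
          by_cases hb : z' ∈ B
          · by_cases he : (z, z') ∈ E
            · have he' : z' ∈ (Prod.mk z ⁻¹' E) ∩ B := ⟨he, hb⟩
              rw [indicator_of_mem he, indicator_of_mem hb, indicator_of_mem he',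
                indicator_of_mem hb, mul_one]
            · have he' : z' ∉ (Prod.mk z ⁻¹' E) ∩ B := fun hh => he hh.1
              rw [indicator_of_notMem he, indicator_of_mem hb, indicator_of_notMem he',
                indicator_of_mem hb, mul_one]
          · have he' : z' ∉ (Prod.mk z ⁻¹' E) ∩ B := fun hh => hb hh.2
            rw [indicator_of_notMem hb, indicator_of_notMem he', indicator_of_notMem hb, mul_zero,
              sub_zero, Complex.ofReal_zero]
        have hEz : MeasurableSet ((Prod.mk z ⁻¹' E) ∩ B) := (measurable_prodMk_left hE).inter hB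
        rw [integral_congr_ae h3, integral_complex_ofReal, integral_sub
          ((integrable_const (1 : ℝ)).indicator hEz) ((integrable_const m).indicator hB),
          integral_indicator_const _ hEz, integral_indicator_const _ hB]
        simp [mul_comm]
      rw [h2] at hz
      have h4 : μ.real ((Prod.mk z ⁻¹' E) ∩ B) = m * μ.real B := by
        have h5 : ((μ.real ((Prod.mk z ⁻¹' E) ∩ B) - m * μ.real B : ℝ) : ℂ) = 0 := hz.symm
        have h6 := Complex.ofReal_eq_zero.mp h5
        linarith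
      have h7 : (μ ((Prod.mk z ⁻¹' E) ∩ B)).toReal = ((μ.prod μ) E * μ B).toReal := by
        rw [ENNReal.toReal_mul]; exact h4
      exact (ENNReal.toReal_eq_toReal_iff' (measure_ne_top _ _)
        (ENNReal.mul_ne_top (measure_ne_top _ _) (measure_ne_top _ _))).mp h7
    have hfm1 : IsFiniteMeasure (((μ.prod μ) E) • μ) := Measure.smul_finite μ (measure_ne_top _ _)
    have hprod : (((μ.prod μ) E) • μ).prod μ = (μ.prod μ).restrict E := by
      refine Measure.prod_eq fun s t hs ht => ?_
      rw [Measure.restrict_apply (hs.prod ht), inter_comm,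
        Measure.prod_apply (hE.inter (hs.prod ht))]
      have h1 : ∀ᵐ z ∂μ, μ (Prod.mk z ⁻¹' (E ∩ s ×ˢ t)) =
          s.indicator (fun _ => (μ.prod μ) E * μ t) z := by
        filter_upwards [hrect t ht] with z hz
        by_cases hzs : z ∈ s
        · rw [indicator_of_mem hzs, ← hz]
          congr 1
          ext z'
          simp [hzs]
        · rw [indicator_of_notMem hzs]
          have : Prod.mk z ⁻¹' (E ∩ s ×ˢ t) = ∅ := by
            ext z'
            simp [hzs]
          rw [this, measure_empty]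
      rw [lintegral_congr_ae h1, lintegral_indicator_const hs]
      simp only [Measure.smul_apply, smul_eq_mul]
      ring
    have hfin : ((((μ.prod μ) E) • μ).prod μ) Eᶜ = ((μ.prod μ).restrict E) Eᶜ := by rw [hprod]
    rw [Measure.restrict_apply hE.compl, compl_inter_self, measure_empty,
      Measure.prod_smul_left, Measure.smul_apply, smul_eq_mul, mul_eq_zero] at hfin
    rw [eventuallyConst_set']
    rcases hfin with h1 | h1
    · exact Or.inl (ae_eq_empty.mpr h1)
    · exact Or.inr (ae_eq_univ.mpr h1)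
  · exfalso
    set one : Lp ℂ 2 μ := MemLp.toLp (fun _ => (1 : ℂ)) (memLp_const 1) with hone
    have honee : (one : Z → ℂ) =ᵐ[μ] fun _ => 1 := MemLp.coeFn_toLp _
    have hA1 : A one = 0 := by
      rw [Lp.eq_zero_iff_ae_eq_zero]
      filter_upwards [hA one, hk] with z hz hkz
      rw [hz, Pi.zero_apply, ← hkz]
      refine integral_congr_ae ?_
      filter_upwards [honee] with z' hz'
      rw [hz', mul_one]
    have hAV : ∀ u, A (V u) = V (A u) := by
      intro u
      refine Lp.ext ?_
      filter_upwards [hA (V u), hVe (A u), hS.quasiMeasurePreserving.ae (hA u)] with z h1 h2 h3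
      rw [h1, h2, h3, ← hcomp (fun z' => K (S z, z') * u z')
        ((hKsec _).aestronglyMeasurable.mul (Lp.aestronglyMeasurable u))]
      refine integral_congr_ae ?_
      filter_upwards [hVe u] with z' hz'
      rw [hz', hKinv]
    obtain ⟨f, hf0, ⟨c, hc, hVf⟩, hort⟩ := hilb A hAc hA0 V hAV one hA1
    have hfm : Measurable (f : Z → ℂ) := (Lp.stronglyMeasurable f).measurable
    have hfS : ∀ᵐ z ∂μ, f (S z) = c * f z := by
      have h1 := hVe f
      rw [hVf] at h1
      filter_upwards [h1, Lp.coeFn_smul c f] with z h2 h3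
      rw [← h2, h3]; rfl
    obtain ⟨w, hw⟩ := hspec 1 norm_one (fun z => ((‖f z‖ / (1 + ‖f z‖) : ℝ) : ℂ))
      (Complex.measurable_ofReal.comp (hfm.norm.div (hfm.norm.const_add 1)))
      ⟨1, fun z => by
        rw [Complex.norm_real, Real.norm_of_nonneg (by positivity)]
        rw [div_le_one (by positivity)]
        linarith [norm_nonneg (f z)]⟩ (by
        filter_upwards [hfS] with z hz
        rw [hz, norm_mul, hc, one_mul, one_mul])
    set C : ℝ := w.re / (1 - w.re) with hC
    have hfC : ∀ᵐ z ∂μ, ‖f z‖ = C := by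
      filter_upwards [hw] with z hz
      have h1 : ‖f z‖ / (1 + ‖f z‖) = w.re := by
        rw [← hz, Complex.ofReal_re]
      have h2 : (0 : ℝ) < 1 + ‖f z‖ := by positivity
      rw [hC, ← h1]
      field_simp
      ring
    obtain ⟨w', hw'⟩ := hspec c hc (fun z => if ‖f z‖ ≤ C then f z else 0)
      (Measurable.ite (measurableSet_le hfm.norm measurable_const) hfm measurable_const)
      ⟨|C|, fun z => by
        split_ifs with h1
        · exact h1.trans (le_abs_self C)
        · rw [norm_zero]; exact abs_nonneg C⟩ (by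
        filter_upwards [hfS, hfC, hS.quasiMeasurePreserving.ae hfC] with z h1 h2 h3
        rw [if_pos h3.le, if_pos h2.le, h1])
    have hfw : (f : Z → ℂ) =ᵐ[μ] fun _ => w' := by
      filter_upwards [hw', hfC] with z h1 h2
      rw [if_pos h2.le] at h1
      exact h1
    have hw0 : w' = 0 := by
      rw [L2.inner_def] at hort
      have h1 : ∫ z, inner ℂ (one z) (f z) ∂μ = w' := by
        have h2 : (fun z => inner ℂ (one z) (f z)) =ᵐ[μ] fun _ => w' := by
          filter_upwards [honee, hfw] with z h3 h4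
          rw [h3, h4]
          simp
        rw [integral_congr_ae h2]
        simp
      rw [← h1, hort]
    apply hf0
    rw [Lp.eq_zero_iff_ae_eq_zero]
    filter_upwards [hfw] with z hz
    rw [hz, hw0]; rfl

end R970.WM
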