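import Pool.Agent.R970.WM.Stm2

open MeasureTheory Set Filter Topology
open scoped ENNReal ComplexConjugate

namespace R970.WM

namespace GTb

variable {Z : Type} [MeasurableSpace Z] {μ : Measure Z} [IsProbabilityMeasure μ]

theorem com {S : Z → Z} (hS : MeasurePreserving S μ μ) {K : Z × Z → ℂ} (hK : Measurable K)
    (hinv : ∀ z z', K (S z, S z') = K (z, z')) {A : Lp ℂ 2 μ →L[ℂ] Lp ℂ 2 μ}
    (hA : ∀ u : Lp ℂ 2 μ, ∀ᵐ z ∂μ, (A u : Z → ℂ) z = ∫ z', K (z, z') * u z' ∂μ)
    (u : Lp ℂ 2 μ) :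
    A (Lp.compMeasurePreservingₗᵢ ℂ S hS u) = Lp.compMeasurePreservingₗᵢ ℂ S hS (A u) := by
  apply Lp.ext
  have h1 := hA (Lp.compMeasurePreservingₗᵢ ℂ S hS u)
  have h2 : (Lp.compMeasurePreservingₗᵢ ℂ S hS u : Z → ℂ) =ᵐ[μ] u ∘ S :=
    Lp.coeFn_compMeasurePreserving u hS
  have h3 : (Lp.compMeasurePreservingₗᵢ ℂ S hS (A u) : Z → ℂ) =ᵐ[μ] (A u) ∘ S :=
    Lp.coeFn_compMeasurePreserving (A u) hS
  have h4 := hS.quasiMeasurePreserving.ae (hA u)
  filter_upwards [h1, h3, h4] with z e1 e3 e4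
  rw [e1, e3, Function.comp_apply, e4]
  have h5 : ∫ z', K (z, z') * (Lp.compMeasurePreservingₗᵢ ℂ S hS u) z' ∂μ =
      ∫ z', K (S z, S z') * u (S z') ∂μ := by
    apply integral_congr_ae
    filter_upwards [h2] with z' e2
    rw [e2, Function.comp_apply, hinv]
  rw [h5]
  have h6 : AEStronglyMeasurable (fun z' => K (S z, z') * u z') (Measure.map S μ) := by
    rw [hS.map_eq]
    exact (hK.comp measurable_prodMk_left).aestronglyMeasurable.mul (Lp.aestronglyMeasurable u)
  have h7 := integral_map hS.measurable.aemeasurable h6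
  rw [hS.map_eq] at h7
  exact h7.symm

theorem adj {K : Z × Z → ℂ} (hK : Measurable K) {C : ℝ} (hC : ∀ p, ‖K p‖ ≤ C)
    (hreal : ∀ p, conj (K p) = K p) {A A' : Lp ℂ 2 μ →L[ℂ] Lp ℂ 2 μ}
    (hA : ∀ u : Lp ℂ 2 μ, ∀ᵐ z ∂μ, (A u : Z → ℂ) z = ∫ z', K (z, z') * u z' ∂μ)
    (hA' : ∀ u : Lp ℂ 2 μ, ∀ᵐ z ∂μ, (A' u : Z → ℂ) z = ∫ z', K (z', z) * u z' ∂μ)
    (u v : Lp ℂ 2 μ) : inner ℂ (A' u) v = inner ℂ u (A v) := by
  rw [L2.inner_def, L2.inner_def]
  simp only [RCLike.inner_apply]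
  have hu0 : Integrable u μ := (Lp.memLp u).integrable one_le_two
  have hu : Integrable (fun z => conj (u z)) μ := by
    refine hu0.mono (Complex.continuous_conj.comp_aestronglyMeasurable hu0.1) ?_
    exact ae_of_all _ fun z => by simp
  have hv : Integrable v μ := (Lp.memLp v).integrable one_le_two
  have e1 : ∫ z, v z * conj ((A' u) z) ∂μ =
      ∫ z, ∫ z', v z * K (z', z) * conj (u z') ∂μ ∂μ := by
    apply integral_congr_ae
    filter_upwards [hA' u] with z e
    rw [e, ← integral_conj, ← integral_const_mul]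
    congr 1
    ext z'
    rw [map_mul, hreal]
    ring
  have e2 : ∫ z', (A v) z' * conj (u z') ∂μ =
      ∫ z', ∫ z, v z * K (z', z) * conj (u z') ∂μ ∂μ := by
    apply integral_congr_ae
    filter_upwards [hA v] with z' e
    rw [e, ← integral_mul_const]
    congr 1
    ext z
    ring
  rw [e1, e2]
  apply integral_integral_swap
  have h := hv.mul_prod hu
  refine (h.norm.const_mul C).mono' ?_ ?_
  · have h1 : AEStronglyMeasurable (fun p : Z × Z => v p.1) (μ.prod μ) := hv.1.comp_fst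
    have h2 : AEStronglyMeasurable (fun p : Z × Z => conj (u p.2)) (μ.prod μ) := hu.1.comp_snd
    have h3 : AEStronglyMeasurable (fun p : Z × Z => K (p.2, p.1)) (μ.prod μ) :=
      (hK.comp measurable_swap).aestronglyMeasurable
    exact (h1.mul h3).mul h2
  · refine ae_of_all _ fun p => ?_
    simp only [Function.uncurry]
    rw [norm_mul, norm_mul, norm_mul]
    have := hC (p.2, p.1)
    have h1 := norm_nonneg (v p.1)
    have h2 := norm_nonneg (conj (u p.2))
    calc ‖v p.1‖ * ‖K (p.2, p.1)‖ * ‖conj (u p.2)‖ ≤ ‖v p.1‖ * C * ‖conj (u p.2)‖ := by gcongr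
      _ = C * (‖v p.1‖ * ‖conj (u p.2)‖) := by ring

theorem inj {a b : ℂ} (h : a / ((1 + ‖a‖ : ℝ) : ℂ) = b / ((1 + ‖b‖ : ℝ) : ℂ)) : a = b := by
  have ha : 0 < 1 + ‖a‖ := by positivity
  have hb : 0 < 1 + ‖b‖ := by positivity
  have h1 := congrArg norm h
  rw [norm_div, norm_div, Complex.norm_real, Complex.norm_real, Real.norm_of_nonneg ha.le,
    Real.norm_of_nonneg hb.le, div_eq_div_iff ha.ne' hb.ne'] at h1
  have h2 : ‖a‖ = ‖b‖ := by nlinarith
  rw [h2] at h
  have h3 : ((1 + ‖b‖ : ℝ) : ℂ) ≠ 0 := by exact_mod_cast hb.ne'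
  field_simp at h
  exact h

theorem eig {S : Z → Z} (hS : MeasurePreserving S μ μ)
    (hyp : ∀ c : ℂ, ‖c‖ = 1 → ∀ f : Z → ℂ, Measurable f → (∃ C : ℝ, ∀ z, ‖f z‖ ≤ C) →
      (∀ᵐ z ∂μ, f (S z) = c * f z) → ∃ w : ℂ, ∀ᵐ z ∂μ, f z = w)
    {K : Z × Z → ℂ} (hK : Measurable K)
    (hinv : ∀ z z', K (S z, S z') = K (z, z')) {C : ℝ} (hC : ∀ p, ‖K p‖ ≤ C)
    (hreal : ∀ p, conj (K p) = K p) (hrow : ∀ᵐ z ∂μ, ∫ z', K (z, z') ∂μ = 0)
    {A A' : Lp ℂ 2 μ →L[ℂ] Lp ℂ 2 μ} (hAc : IsCompactOperator A)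
    (hA : ∀ u : Lp ℂ 2 μ, ∀ᵐ z ∂μ, (A u : Z → ℂ) z = ∫ z', K (z, z') * u z' ∂μ)
    (hA' : ∀ u : Lp ℂ 2 μ, ∀ᵐ z ∂μ, (A' u : Z → ℂ) z = ∫ z', K (z', z) * u z' ∂μ)
    (u : Lp ℂ 2 μ) : A u = 0 := by
  set P : Lp ℂ 2 μ →L[ℂ] Lp ℂ 2 μ := A'.comp A with hP
  have hPc : IsCompactOperator P := hAc.clm_comp A'
  have hPx : ∀ x, P x = A' (A x) := fun x => rfl
  have hPs : P.IsSymmetric := by
    intro x y
    show inner ℂ (A' (A x)) y = inner ℂ x (A' (A y))
    rw [adj hK hC hreal hA hA' (A x) y, ← inner_conj_symm x (A' (A y)),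
      adj hK hC hreal hA hA' (A y) x, inner_conj_symm]
  have hP0 : P = 0 := by
    refine (ContinuousLinearMap.eq_zero_of_forall_hasEigenvalue_eq_zero hPc hPs).1 ?_
    intro l hl
    by_contra hne
    have hfd := ContinuousLinearMap.finite_dimensional_eigenspace hPc l hne
    set Wl : Submodule ℂ (Lp ℂ 2 μ) := Module.End.eigenspace P.toLinearMap l with hWl
    obtain ⟨v0, hv0⟩ := hl.exists_hasEigenvector
    have hnt : Nontrivial Wl := by
      refine ⟨⟨v0, ?_⟩, 0, ?_⟩
      · exact hv0.1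
      · intro h
        exact hv0.2 (congrArg Subtype.val h)
    let V : Lp ℂ 2 μ →ₗ[ℂ] Lp ℂ 2 μ := (Lp.compMeasurePreservingₗᵢ ℂ S hS).toLinearMap
    have hVW : ∀ x ∈ Wl, V x ∈ Wl := by
      intro x hx
      rw [hWl, Module.End.mem_eigenspace_iff] at hx ⊢
      have hx' : A' (A x) = l • x := hx
      show A' (A (Lp.compMeasurePreservingₗᵢ ℂ S hS x)) = l • Lp.compMeasurePreservingₗᵢ ℂ S hS x
      rw [com hS hK hinv hA, com (K := fun p => K (p.2, p.1)) hS (hK.comp measurable_swap)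
        (fun z z' => hinv z' z) hA', hx']
      exact map_smul _ _ _
    obtain ⟨c, hc⟩ := Module.End.exists_eigenvalue (V.restrict hVW)
    obtain ⟨f, hf⟩ := hc.exists_hasEigenvector
    have hf1 : Lp.compMeasurePreservingₗᵢ ℂ S hS (f : Lp ℂ 2 μ) = c • (f : Lp ℂ 2 μ) :=
      congrArg Subtype.val hf.apply_eq_smul
    have hf0 : (f : Lp ℂ 2 μ) ≠ 0 := fun h => hf.2 (Subtype.ext h)
    have hc1 : ‖c‖ = 1 := by
      have h1 := congrArg norm hf1
      rw [LinearIsometry.norm_map, norm_smul] at h1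
      have h2 : ‖(f : Lp ℂ 2 μ)‖ ≠ 0 := norm_ne_zero_iff.2 hf0
      have h3 : (‖c‖ - 1) * ‖(f : Lp ℂ 2 μ)‖ = 0 := by linarith
      rcases mul_eq_zero.1 h3 with h | h
      · linarith
      · exact absurd h h2
    set F : Z → ℂ := ((f : Lp ℂ 2 μ) : Z → ℂ) with hF
    have hFm : Measurable F := (Lp.stronglyMeasurable (f : Lp ℂ 2 μ)).measurable
    have hFS : ∀ᵐ z ∂μ, F (S z) = c * F z := by
      have h1 : (Lp.compMeasurePreservingₗᵢ ℂ S hS (f : Lp ℂ 2 μ) : Z → ℂ) =ᵐ[μ] F ∘ S :=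
        Lp.coeFn_compMeasurePreserving (f : Lp ℂ 2 μ) hS
      rw [hf1] at h1
      filter_upwards [h1, Lp.coeFn_smul c (f : Lp ℂ 2 μ)] with z e1 e2
      rw [e2] at e1
      simpa using e1.symm
    obtain ⟨w', hw'⟩ := hyp c hc1 (fun z => F z / ((1 + ‖F z‖ : ℝ) : ℂ))
      (by fun_prop) ⟨1, fun z => by
        have h1 : 0 < 1 + ‖F z‖ := by positivity
        rw [norm_div, Complex.norm_real, Real.norm_of_nonneg h1.le, div_le_one h1]
        linarith⟩ (by
        filter_upwards [hFS] with z e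
        rw [e, norm_mul, hc1, one_mul, mul_div_assoc])
    obtain ⟨z0, hz0⟩ := hw'.exists
    have hFc : ∀ᵐ z ∂μ, F z = F z0 := by
      filter_upwards [hw'] with z e
      exact inj (e.trans hz0.symm)
    have hAf : A (f : Lp ℂ 2 μ) = 0 := by
      rw [Lp.eq_zero_iff_ae_eq_zero]
      filter_upwards [hA (f : Lp ℂ 2 μ), hrow] with z e1 e2
      rw [e1]
      have h1 : ∫ z', K (z, z') * F z' ∂μ = ∫ z', K (z, z') * F z0 ∂μ := by
        apply integral_congr_ae
        filter_upwards [hFc] with z' e3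
        rw [e3]
      show ∫ z', K (z, z') * F z' ∂μ = 0
      rw [h1, integral_mul_const, e2, zero_mul]
    have hPf : A' (A (f : Lp ℂ 2 μ)) = l • (f : Lp ℂ 2 μ) := by
      have h1 : (f : Lp ℂ 2 μ) ∈ Module.End.eigenspace P.toLinearMap l := f.2
      exact Module.End.mem_eigenspace_iff.1 h1
    rw [hAf, map_zero] at hPf
    rcases smul_eq_zero.1 hPf.symm with h | h
    · exact hne h
    · exact hf0 h
  have h1 : inner ℂ (A u) (A u) = (0 : ℂ) := by
    rw [← adj hK hC hreal hA hA' (A u) u, ← hPx, hP0]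
    simp
  exact inner_self_eq_zero.1 h1

end GTb

open GTb

theorem gt (hs : Stm.hsOp) : Stm.gt := by
  intro Z _ _ μ _ S hS hyp
  refine ⟨hS.prod hS, ⟨fun E hE hEi => ?_⟩⟩
  have hinv : ∀ z z', (S z, S z') ∈ E ↔ (z, z') ∈ E := fun z z' => by
    have h1 : (z, z') ∈ Prod.map S S ⁻¹' E ↔ (z, z') ∈ E := by rw [hEi]
    exact h1
  have hsec : ∀ z, MeasurableSet (Prod.mk z ⁻¹' E) := fun z => measurable_prodMk_left hE
  -- row function
  let r : Z → ℂ := fun z => ((μ.real (Prod.mk z ⁻¹' E) : ℝ) : ℂ)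
  have hrm : Measurable r := by
    have h1 : Measurable fun z => μ (Prod.mk z ⁻¹' E) := measurable_measure_prodMk_left hE
    exact Complex.measurable_ofReal.comp h1.ennreal_toReal
  have hrS : ∀ z, r (S z) = r z := by
    intro z
    simp only [r, Measure.real]
    congr 2
    rw [← hS.measure_preimage (hsec (S z)).nullMeasurableSet]
    congr 1
    ext z'
    exact hinv z z'
  obtain ⟨w, hw⟩ := hyp 1 (by simp) r hrm ⟨1, fun z => by
    simp only [r]
    rw [Complex.norm_real, Real.norm_of_nonneg measureReal_nonneg]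
    exact measureReal_le_one⟩ (ae_of_all _ fun z => by rw [hrS z, one_mul])
  obtain ⟨z0, hz0⟩ := hw.exists
  set e : ℝ := μ.real (Prod.mk z0 ⁻¹' E) with he
  have he0 : 0 ≤ e := measureReal_nonneg
  have hwe : w = (e : ℂ) := hz0.symm
  let K : Z × Z → ℂ := fun p => E.indicator (fun _ => (1 : ℂ)) p - (e : ℂ)
  have hKm : Measurable K := (measurable_const.indicator hE).sub measurable_const
  have hKi : ∀ z z', K (S z, S z') = K (z, z') := by
    intro z z'
    simp only [K]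
    congr 1
    by_cases h : (z, z') ∈ E
    · rw [indicator_of_mem h, indicator_of_mem ((hinv z z').2 h)]
    · rw [indicator_of_notMem h, indicator_of_notMem (fun h' => h ((hinv z z').1 h'))]
  have hKC : ∀ p, ‖K p‖ ≤ 1 + e := by
    intro p
    refine (norm_sub_le _ _).trans ?_
    rw [Complex.norm_real, Real.norm_of_nonneg he0]
    have : ‖E.indicator (fun _ => (1 : ℂ)) p‖ ≤ 1 := by
      by_cases h : p ∈ E
      · rw [indicator_of_mem h]; simp
      · rw [indicator_of_notMem h]; simp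
    linarith
  have hKr : ∀ p, conj (K p) = K p := by
    intro p
    simp only [K, map_sub, Complex.conj_ofReal]
    congr 1
    by_cases h : p ∈ E
    · rw [indicator_of_mem h]; simp
    · rw [indicator_of_notMem h]; simp
  -- integrals of the kernel
  have hint : ∀ (C : Set Z), MeasurableSet C → ∀ z,
      ∫ z', K (z, z') * C.indicator (fun _ => (1 : ℂ)) z' ∂μ =
        ((μ.real (Prod.mk z ⁻¹' E ∩ C) - e * μ.real C : ℝ) : ℂ) := by
    intro C hC z
    have h1 : (fun z' => K (z, z') * C.indicator (fun _ => (1 : ℂ)) z') =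
        fun z' => (Prod.mk z ⁻¹' E ∩ C).indicator (fun _ => (1 : ℂ)) z' -
          (e : ℂ) * C.indicator (fun _ => (1 : ℂ)) z' := by
      ext z'
      simp only [K]
      by_cases h1 : z' ∈ C <;> by_cases h2 : (z, z') ∈ E
      · rw [indicator_of_mem h1, indicator_of_mem h2,
          indicator_of_mem (show z' ∈ Prod.mk z ⁻¹' E ∩ C from ⟨h2, h1⟩)]
        ring
      · rw [indicator_of_mem h1, indicator_of_notMem h2,
          indicator_of_notMem (show z' ∉ Prod.mk z ⁻¹' E ∩ C from fun h => h2 h.1)]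
        ring
      · rw [indicator_of_notMem h1,
          indicator_of_notMem (show z' ∉ Prod.mk z ⁻¹' E ∩ C from fun h => h1 h.2)]
        ring
      · rw [indicator_of_notMem h1,
          indicator_of_notMem (show z' ∉ Prod.mk z ⁻¹' E ∩ C from fun h => h1 h.2)]
        ring
    have hi : ∀ D : Set Z, MeasurableSet D → Integrable (D.indicator (fun _ => (1 : ℂ))) μ :=
      fun D hD => (integrable_const (1 : ℂ)).indicator hD
    rw [h1, integral_sub (hi _ ((hsec z).inter hC)) ((hi C hC).const_mul _), integral_const_mul,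
      integral_indicator_const _ ((hsec z).inter hC), integral_indicator_const _ hC]
    push_cast
    simp
  have hrow : ∀ᵐ z ∂μ, ∫ z', K (z, z') ∂μ = 0 := by
    filter_upwards [hw] with z hz
    have h1 := hint univ MeasurableSet.univ z
    simp only [indicator_univ, mul_one, inter_univ, probReal_univ] at h1
    rw [h1]
    have h2 : ((μ.real (Prod.mk z ⁻¹' E) : ℝ) : ℂ) = (e : ℂ) := by rw [← hwe]; exact hz
    push_cast
    rw [h2, sub_self]
  obtain ⟨A, hAc, hA⟩ := hs Z μ K hKm ⟨_, hKC⟩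
  obtain ⟨A', hAc', hA'⟩ := hs Z μ (fun p => K (p.2, p.1)) (hKm.comp measurable_swap)
    ⟨_, fun p => hKC _⟩
  have hA0 : ∀ u, A u = 0 := eig hS hyp hKm hKi hKC hKr hrow hAc hA hA'
  have hsecC : ∀ C : Set Z, MeasurableSet C →
      ∀ᵐ z ∂μ, μ (Prod.mk z ⁻¹' E ∩ C) = ENNReal.ofReal e * μ C := by
    intro C hC
    have h1 := hA (indicatorConstLp 2 hC (measure_ne_top μ C) (1 : ℂ))
    rw [hA0] at h1
    filter_upwards [h1, Lp.coeFn_zero ℂ 2 μ] with z e1 e2
    rw [e2] at e1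
    have h2 : ∫ z', K (z, z') * (indicatorConstLp 2 hC (measure_ne_top μ C) (1 : ℂ)) z' ∂μ =
        ∫ z', K (z, z') * C.indicator (fun _ => (1 : ℂ)) z' ∂μ := by
      apply integral_congr_ae
      filter_upwards [indicatorConstLp_coeFn (p := 2) (hs := hC) (hμs := measure_ne_top μ C)
        (c := (1 : ℂ))] with z' e3
      rw [e3]
    rw [h2, hint C hC z] at e1
    have h3 : μ.real (Prod.mk z ⁻¹' E ∩ C) - e * μ.real C = 0 := by
      have : (((μ.real (Prod.mk z ⁻¹' E ∩ C) - e * μ.real C : ℝ)) : ℂ) = ((0 : ℝ) : ℂ) := by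
        rw [← e1]; simp
      exact_mod_cast this
    have h4 : μ.real (Prod.mk z ⁻¹' E ∩ C) = e * μ.real C := by linarith
    rw [← ofReal_measureReal (measure_ne_top μ _), h4, ENNReal.ofReal_mul he0,
      ofReal_measureReal (measure_ne_top μ C)]
  have hrect : ∀ B C : Set Z, MeasurableSet B → MeasurableSet C →
      (μ.prod μ) (B ×ˢ C ∩ E) = ENNReal.ofReal e * (μ B * μ C) := by
    intro B C hB hC
    rw [Measure.prod_apply ((hB.prod hC).inter hE)]
    have h1 : ∀ᵐ z ∂μ, μ (Prod.mk z ⁻¹' (B ×ˢ C ∩ E)) =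
        B.indicator (fun _ => ENNReal.ofReal e * μ C) z := by
      filter_upwards [hsecC C hC] with z hz
      by_cases hzB : z ∈ B
      · rw [indicator_of_mem hzB, ← hz]
        congr 1
        ext z'
        simp only [mem_preimage, mem_inter_iff, mem_prod]
        tauto
      · rw [indicator_of_notMem hzB]
        have : Prod.mk z ⁻¹' (B ×ˢ C ∩ E) = ∅ := by
          ext z'
          simp [hzB]
        rw [this, measure_empty]
    rw [lintegral_congr_ae h1, lintegral_indicator_const hB]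
    ring
  rw [eventuallyConst_set']
  by_cases hez : ENNReal.ofReal e = 0
  · left
    have h1 := hrect univ univ MeasurableSet.univ MeasurableSet.univ
    rw [hez, zero_mul, univ_prod_univ, univ_inter] at h1
    exact ae_eq_empty.2 h1
  · right
    have h1 : μ.prod μ = (ENNReal.ofReal e)⁻¹ • (μ.prod μ).restrict E := by
      refine Measure.prod_eq fun B C hB hC => ?_
      rw [Measure.smul_apply, Measure.restrict_apply (hB.prod hC), hrect B C hB hC, smul_eq_mul,
        ← mul_assoc, ENNReal.inv_mul_cancel hez ENNReal.ofReal_ne_top, one_mul]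
    have h2 : (μ.prod μ) Eᶜ = 0 := by
      rw [h1, Measure.smul_apply, Measure.restrict_apply hE.compl]
      simp
    exact ae_eq_univ.2 h2

end R970.WM
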