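import Pool.Agent.R970.WM.Stm2

open MeasureTheory Set Filter Topology ENNReal

namespace R970.WM

namespace HSb

noncomputable section

variable {Z : Type} [MeasurableSpace Z] {μ : Measure Z} [IsProbabilityMeasure μ]

def BM (K : Z × Z → ℂ) : Prop := Measurable K ∧ ∃ C : ℝ, ∀ p, ‖K p‖ ≤ C

def TK (μ : Measure Z) (K : Z × Z → ℂ) (u : Z → ℂ) (z : Z) : ℂ := ∫ z', K (z, z') * u z' ∂μ

lemma meas_TK {K : Z × Z → ℂ} (hK : Measurable K) (u : Lp ℂ 2 μ) :
    AEStronglyMeasurable (TK μ K u) μ := by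
  have : StronglyMeasurable (fun p : Z × Z => K p * u p.2) :=
    hK.stronglyMeasurable.mul ((Lp.stronglyMeasurable u).comp_measurable measurable_snd)
  exact this.integral_prod_right'.aestronglyMeasurable

lemma int_u (u : Lp ℂ 2 μ) : Integrable (u : Z → ℂ) μ :=
  (Lp.memLp u).integrable (by norm_num)

lemma int_Ku {K : Z × Z → ℂ} (hK : BM K) {u : Z → ℂ} (hu : Integrable u μ) (z : Z) :
    Integrable (fun z' => K (z, z') * u z') μ := by
  obtain ⟨hm, C, hC⟩ := hK
  refine hu.bdd_mul (c := C) ?_ ?_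
  · exact (hm.comp measurable_prodMk_left).aestronglyMeasurable
  · exact Eventually.of_forall (fun z' => hC (z, z'))

lemma sq_bound {K : Z × Z → ℂ} (hK : Measurable K) (u : Lp ℂ 2 μ) :
    ∫⁻ z, ‖TK μ K u z‖ₑ ^ (2:ℝ) ∂μ ≤
      (∫⁻ p, ‖K p‖ₑ ^ (2:ℝ) ∂(μ.prod μ)) * (∫⁻ z, ‖u z‖ₑ ^ (2:ℝ) ∂μ) := by
  have hu : Measurable (fun z' => ‖u z'‖ₑ) := (Lp.stronglyMeasurable u).measurable.enorm
  have hpt : ∀ z, ‖TK μ K u z‖ₑ ^ (2:ℝ) ≤
      (∫⁻ z', ‖K (z, z')‖ₑ ^ (2:ℝ) ∂μ) * (∫⁻ z, ‖u z‖ₑ ^ (2:ℝ) ∂μ) := by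
    intro z
    have hk : Measurable (fun z' => ‖K (z, z')‖ₑ) := (hK.comp measurable_prodMk_left).enorm
    have h1 : ‖TK μ K u z‖ₑ ≤ ∫⁻ z', ‖K (z, z')‖ₑ * ‖u z'‖ₑ ∂μ := by
      refine (enorm_integral_le_lintegral_enorm _).trans (le_of_eq ?_)
      refine lintegral_congr (fun z' => ?_)
      rw [enorm_mul]
    have h2 := ENNReal.lintegral_mul_le_Lp_mul_Lq μ Real.HolderConjugate.two_two
      hk.aemeasurable hu.aemeasurable
    have h3 : ‖TK μ K u z‖ₑ ≤ (∫⁻ z', ‖K (z, z')‖ₑ ^ (2:ℝ) ∂μ) ^ (1/(2:ℝ)) *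
        (∫⁻ z, ‖u z‖ₑ ^ (2:ℝ) ∂μ) ^ (1/(2:ℝ)) := h1.trans h2
    calc ‖TK μ K u z‖ₑ ^ (2:ℝ) ≤ ((∫⁻ z', ‖K (z, z')‖ₑ ^ (2:ℝ) ∂μ) ^ (1/(2:ℝ)) *
        (∫⁻ z, ‖u z‖ₑ ^ (2:ℝ) ∂μ) ^ (1/(2:ℝ))) ^ (2:ℝ) := ENNReal.rpow_le_rpow h3 (by norm_num)
      _ = _ := by
        rw [ENNReal.mul_rpow_of_nonneg _ _ (by norm_num), ← ENNReal.rpow_mul, ← ENNReal.rpow_mul]
        norm_num
  calc ∫⁻ z, ‖TK μ K u z‖ₑ ^ (2:ℝ) ∂μ
      ≤ ∫⁻ z, (∫⁻ z', ‖K (z, z')‖ₑ ^ (2:ℝ) ∂μ) * (∫⁻ z, ‖u z‖ₑ ^ (2:ℝ) ∂μ) ∂μ :=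
        lintegral_mono hpt
    _ = (∫⁻ z, ∫⁻ z', ‖K (z, z')‖ₑ ^ (2:ℝ) ∂μ ∂μ) * (∫⁻ z, ‖u z‖ₑ ^ (2:ℝ) ∂μ) := by
        rw [lintegral_mul_const]
        exact (hK.enorm.pow_const _).lintegral_prod_right'
    _ = _ := by
        rw [lintegral_prod _ (hK.enorm.pow_const _).aemeasurable]

lemma norm_bound {K : Z × Z → ℂ} (hK : Measurable K) (u : Lp ℂ 2 μ) :
    eLpNorm (TK μ K u) 2 μ ≤ eLpNorm K 2 (μ.prod μ) * eLpNorm u 2 μ := by
  rw [eLpNorm_eq_lintegral_rpow_enorm_toReal (by norm_num) (by norm_num),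
    eLpNorm_eq_lintegral_rpow_enorm_toReal (by norm_num) (by norm_num),
    eLpNorm_eq_lintegral_rpow_enorm_toReal (by norm_num) (by norm_num)]
  rw [← ENNReal.mul_rpow_of_nonneg _ _ (by norm_num)]
  refine ENNReal.rpow_le_rpow ?_ (by norm_num)
  have := sq_bound hK u
  simpa using this

lemma memLp_K {K : Z × Z → ℂ} (hK : BM K) : MemLp K 2 (μ.prod μ) := by
  obtain ⟨hm, C, hC⟩ := hK
  exact MemLp.of_bound hm.aestronglyMeasurable C (Eventually.of_forall hC)

lemma memLp_TK {K : Z × Z → ℂ} (hK : BM K) (u : Lp ℂ 2 μ) : MemLp (TK μ K u) 2 μ :=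
  ⟨meas_TK hK.1 u, (norm_bound hK.1 u).trans_lt
    (ENNReal.mul_lt_top (memLp_K hK).2 (Lp.memLp u).2)⟩

def op {K : Z × Z → ℂ} (hK : BM K) : Lp ℂ 2 μ →L[ℂ] Lp ℂ 2 μ :=
  LinearMap.mkContinuous
    { toFun := fun u => (memLp_TK hK u).toLp
      map_add' := by
        intro u v
        apply Lp.ext
        filter_upwards [(memLp_TK hK (u + v)).coeFn_toLp, (memLp_TK hK u).coeFn_toLp,
          (memLp_TK hK v).coeFn_toLp, Lp.coeFn_add (memLp_TK hK u).toLp (memLp_TK hK v).toLp]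
          with z h1 h2 h3 h4
        rw [h1, h4, Pi.add_apply, h2, h3]
        simp only [TK]
        rw [← integral_add (int_Ku hK (int_u u) z) (int_Ku hK (int_u v) z)]
        refine integral_congr_ae ?_
        filter_upwards [Lp.coeFn_add u v] with z' h
        rw [h, Pi.add_apply, mul_add]
      map_smul' := by
        intro c u
        apply Lp.ext
        filter_upwards [(memLp_TK hK (c • u)).coeFn_toLp, (memLp_TK hK u).coeFn_toLp,
          Lp.coeFn_smul c (memLp_TK hK u).toLp]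
          with z h1 h2 h4
        rw [h1, RingHom.id_apply, h4, Pi.smul_apply, h2]
        simp only [TK]
        rw [smul_eq_mul, ← integral_const_mul]
        refine integral_congr_ae ?_
        filter_upwards [Lp.coeFn_smul c u] with z' h
        rw [h, Pi.smul_apply, smul_eq_mul]
        ring }
    (eLpNorm K 2 (μ.prod μ)).toReal
    (by
      intro u
      show ‖(memLp_TK hK u).toLp‖ ≤ _
      rw [Lp.norm_toLp, Lp.norm_def, ← ENNReal.toReal_mul]
      exact ENNReal.toReal_mono (ENNReal.mul_ne_top (memLp_K hK).2.ne (Lp.memLp u).2.ne)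
        (norm_bound hK.1 u))

lemma op_ae {K : Z × Z → ℂ} (hK : BM K) (u : Lp ℂ 2 μ) : (op hK u : Z → ℂ) =ᵐ[μ] TK μ K u :=
  (memLp_TK hK u).coeFn_toLp

lemma op_norm {K : Z × Z → ℂ} (hK : BM K) :
    ‖(op hK : Lp ℂ 2 μ →L[ℂ] Lp ℂ 2 μ)‖ ≤ (eLpNorm K 2 (μ.prod μ)).toReal :=
  LinearMap.mkContinuous_norm_le _ ENNReal.toReal_nonneg _

def Good (μ : Measure Z) [IsProbabilityMeasure μ] (K : Z × Z → ℂ) : Prop :=
  BM K ∧ ∃ A : Lp ℂ 2 μ →L[ℂ] Lp ℂ 2 μ, IsCompactOperator A ∧
    ∀ u : Lp ℂ 2 μ, (A u : Z → ℂ) =ᵐ[μ] TK μ K u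

lemma BM.add {K K' : Z × Z → ℂ} (h : BM K) (h' : BM K') : BM (K + K') := by
  obtain ⟨m, C, hC⟩ := h
  obtain ⟨m', C', hC'⟩ := h'
  exact ⟨m.add m', C + C', fun p => (norm_add_le _ _).trans (add_le_add (hC p) (hC' p))⟩

lemma BM.smul {K : Z × Z → ℂ} (c : ℂ) (h : BM K) : BM (c • K) := by
  obtain ⟨m, C, hC⟩ := h
  refine ⟨m.const_smul c, ‖c‖ * C, fun p => ?_⟩
  rw [Pi.smul_apply, norm_smul]
  exact mul_le_mul_of_nonneg_left (hC p) (norm_nonneg c)

lemma TK_add {K K' : Z × Z → ℂ} (h : BM K) (h' : BM K') (u : Lp ℂ 2 μ) :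
    TK μ (K + K') u = TK μ K u + TK μ K' u := by
  funext z
  simp only [TK, Pi.add_apply]
  rw [← integral_add (int_Ku h (int_u u) z) (int_Ku h' (int_u u) z)]
  refine integral_congr_ae (Eventually.of_forall fun z' => ?_)
  simp only [add_mul]

lemma TK_smul {K : Z × Z → ℂ} (c : ℂ) (u : Lp ℂ 2 μ) :
    TK μ (c • K) u = c • TK μ K u := by
  funext z
  simp only [TK, Pi.smul_apply, smul_eq_mul]
  rw [← integral_const_mul]
  refine integral_congr_ae (Eventually.of_forall fun z' => ?_)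
  simp only [mul_assoc]

lemma Good.add {K K' : Z × Z → ℂ} (h : Good μ K) (h' : Good μ K') : Good μ (K + K') := by
  obtain ⟨b, A, hA, hu⟩ := h
  obtain ⟨b', A', hA', hu'⟩ := h'
  refine ⟨b.add b', A + A', hA.add hA', fun u => ?_⟩
  rw [TK_add b b']
  filter_upwards [hu u, hu' u, Lp.coeFn_add (A u) (A' u)] with z h1 h2 h3
  rw [ContinuousLinearMap.add_apply, h3, Pi.add_apply, Pi.add_apply, h1, h2]

lemma Good.smul {K : Z × Z → ℂ} (c : ℂ) (h : Good μ K) : Good μ (c • K) := by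
  obtain ⟨b, A, hA, hu⟩ := h
  refine ⟨b.smul c, c • A, hA.smul c, fun u => ?_⟩
  rw [TK_smul]
  filter_upwards [hu u, Lp.coeFn_smul c (A u)] with z h1 h3
  rw [ContinuousLinearMap.smul_apply, h3, Pi.smul_apply, Pi.smul_apply, h1]

lemma Good.sub {K K' : Z × Z → ℂ} (h : Good μ K) (h' : Good μ K') : Good μ (K - K') := by
  have : K - K' = K + (-1 : ℂ) • K' := by
    funext p
    simp [sub_eq_add_neg]
  rw [this]
  exact h.add (h'.smul _)

lemma Good.lim {K : Z × Z → ℂ} (hK : BM K)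
    (h : ∀ ε : ℝ≥0∞, ε ≠ 0 → ∃ K', Good μ K' ∧ eLpNorm (K - K') 2 (μ.prod μ) < ε) : Good μ K := by
  refine ⟨hK, op hK, ?_, op_ae hK⟩
  have hcl := isClosed_setOfPred_isCompactOperator (𝕜₁ := ℂ) (𝕜₂ := ℂ) (σ₁₂ := RingHom.id ℂ)
    (M₁ := Lp ℂ 2 μ) (M₂ := Lp ℂ 2 μ)
  have hmem : (op hK : Lp ℂ 2 μ →L[ℂ] Lp ℂ 2 μ) ∈
      closure {f : Lp ℂ 2 μ →L[ℂ] Lp ℂ 2 μ | IsCompactOperator f} := by
    rw [Metric.mem_closure_iff]
    intro ε hε
    obtain ⟨K', ⟨b', A', hA', hu'⟩, hlt⟩ := h (ENNReal.ofReal ε) (by simpa using hε)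
    refine ⟨A', hA', ?_⟩
    have hb : BM (K - K') := by
      have : K - K' = K + (-1 : ℂ) • K' := by
        funext p
        simp [sub_eq_add_neg]
      rw [this]
      exact hK.add (b'.smul _)
    have heq : (op hK : Lp ℂ 2 μ →L[ℂ] Lp ℂ 2 μ) - A' = op hb := by
      ext1 u
      apply Lp.ext
      have hadd := TK_add (μ := μ) hb b' u
      rw [sub_add_cancel] at hadd
      filter_upwards [op_ae hK u, hu' u, op_ae hb u, Lp.coeFn_sub (op hK u) (A' u)]
        with z h1 h2 h3 h4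
      rw [ContinuousLinearMap.sub_apply, h4, Pi.sub_apply, h1, h2, h3, hadd, Pi.add_apply]
      ring
    rw [dist_eq_norm, heq]
    refine (op_norm hb).trans_lt ?_
    rw [← ENNReal.toReal_ofReal hε.le]
    exact ENNReal.toReal_strict_mono ENNReal.ofReal_ne_top hlt
  exact (hcl.closure_subset) hmem

lemma good_rect {A B : Set Z} (hA : MeasurableSet A) (hB : MeasurableSet B) :
    Good μ ((A ×ˢ B).indicator (fun _ => (1 : ℂ))) := by
  classical
  refine ⟨⟨measurable_const.indicator (hA.prod hB), 1, fun p => ?_⟩, ?_⟩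
  · by_cases h : p ∈ A ×ˢ B
    · rw [indicator_of_mem h]; simp
    · rw [indicator_of_notMem h]; simp
  · let χA : Lp ℂ 2 μ := indicatorConstLp 2 hA (measure_ne_top μ A) (1 : ℂ)
    let χB : Lp ℂ 2 μ := indicatorConstLp 2 hB (measure_ne_top μ B) (1 : ℂ)
    let L : Lp ℂ 2 μ →L[ℂ] ℂ := innerSL ℂ χB
    let g : ℂ →L[ℂ] Lp ℂ 2 μ := ContinuousLinearMap.toSpanSingleton ℂ χA
    have hg : IsCompactOperator g := isCompactOperator_of_locallyCompactSpace_rng g
    refine ⟨g.comp L, hg.comp_clm L, fun u => ?_⟩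
    have h1 : L u = ∫ x in B, u x ∂μ := by
      show inner ℂ χB u = _
      exact MeasureTheory.L2.inner_indicatorConstLp_one hB (measure_ne_top μ B) u
    have h2 : (g.comp L) u = (L u) • χA := by
      simp [g, ContinuousLinearMap.toSpanSingleton_apply]
    rw [h2]
    filter_upwards [Lp.coeFn_smul (L u) χA,
      (indicatorConstLp_coeFn (p := 2) (hs := hA) (hμs := measure_ne_top μ A) (c := (1:ℂ)))]
      with z h3 h4
    rw [h3, Pi.smul_apply, h4, h1, smul_eq_mul]
    simp only [TK]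
    by_cases hz : z ∈ A
    · rw [indicator_of_mem hz, mul_one, ← integral_indicator hB]
      refine integral_congr_ae (Eventually.of_forall fun z' => ?_)
      by_cases hz' : z' ∈ B
      · have : (z, z') ∈ A ×ˢ B := ⟨hz, hz'⟩
        simp only [indicator_of_mem this, indicator_of_mem hz', one_mul]
      · have : (z, z') ∉ A ×ˢ B := fun h => hz' h.2
        simp only [indicator_of_notMem this, indicator_of_notMem hz', zero_mul]
    · rw [indicator_of_notMem hz, mul_zero]
      symm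
      have : ∀ z', (A ×ˢ B).indicator (fun _ => (1 : ℂ)) (z, z') * u z' = 0 := by
        intro z'
        have : (z, z') ∉ A ×ˢ B := fun h => hz h.1
        rw [indicator_of_notMem this, zero_mul]
      simp only [this, integral_zero]

lemma bm_ind {E : Set (Z × Z)} (hE : MeasurableSet E) : BM (E.indicator (fun _ => (1 : ℂ))) := by
  refine ⟨measurable_const.indicator hE, 1, fun p => ?_⟩
  by_cases h : p ∈ E
  · rw [indicator_of_mem h]; simp
  · rw [indicator_of_notMem h]; simp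

lemma good_ind {E : Set (Z × Z)} (hE : MeasurableSet E) :
    Good μ (E.indicator (fun _ => (1 : ℂ))) := by
  have huniv : Good μ ((univ : Set (Z × Z)).indicator (fun _ => (1 : ℂ))) := by
    have := good_rect (μ := μ) (MeasurableSet.univ (α := Z)) (MeasurableSet.univ (α := Z))
    rwa [univ_prod_univ] at this
  refine MeasurableSpace.induction_on_inter
    (C := fun E _ => Good μ (E.indicator (fun _ => (1 : ℂ))))
    generateFrom_prod.symm isPiSystem_prod ?_ ?_ ?_ ?_ E hE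
  · have := huniv.sub huniv
    convert this using 1
    funext p
    simp
  · rintro t ⟨A, hA, B, hB, rfl⟩
    exact good_rect hA hB
  · intro t ht h
    have := huniv.sub h
    convert this using 1
    funext p
    by_cases hp : p ∈ t
    · simp [hp]
    · simp [hp]
  · intro f hd hf hg
    have hpart : ∀ N : ℕ, Good μ ((⋃ i ∈ Finset.range N, f i).indicator (fun _ => (1 : ℂ))) := by
      intro N
      induction N with
      | zero =>
        have := huniv.sub huniv
        convert this using 1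
        funext p
        simp
      | succ N ih =>
        have := ih.add (hg N)
        convert this using 1
        funext p
        by_cases h1 : p ∈ f N
        · have h2 : p ∉ ⋃ i ∈ Finset.range N, f i := by
            simp only [mem_iUnion, Finset.mem_range, not_exists]
            intro i hi hpi
            exact (disjoint_left.mp (hd (Nat.ne_of_lt hi))) hpi h1
          have h3 : p ∈ ⋃ i ∈ Finset.range (N + 1), f i := by
            simp only [mem_iUnion, Finset.mem_range]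
            exact ⟨N, Nat.lt_succ_self N, h1⟩
          rw [Pi.add_apply, indicator_of_mem h1, indicator_of_notMem h2, indicator_of_mem h3]
          simp
        · by_cases h2 : p ∈ ⋃ i ∈ Finset.range N, f i
          · have h3 : p ∈ ⋃ i ∈ Finset.range (N + 1), f i := by
              simp only [mem_iUnion, Finset.mem_range] at h2 ⊢
              obtain ⟨i, hi, hpi⟩ := h2
              exact ⟨i, Nat.lt_succ_of_lt hi, hpi⟩
            rw [Pi.add_apply, indicator_of_notMem h1, indicator_of_mem h2, indicator_of_mem h3]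
            simp
          · have h3 : p ∉ ⋃ i ∈ Finset.range (N + 1), f i := by
              simp only [mem_iUnion, Finset.mem_range, not_exists] at h2 ⊢
              intro i hi hpi
              rcases Nat.lt_succ_iff_lt_or_eq.mp hi with h | h
              · exact h2 i h hpi
              · exact h1 (h ▸ hpi)
            rw [Pi.add_apply, indicator_of_notMem h1, indicator_of_notMem h2,
              indicator_of_notMem h3]
            simp
    refine Good.lim (bm_ind (MeasurableSet.iUnion hf)) ?_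
    intro ε hε
    -- the tails
    let D : ℕ → Set (Z × Z) := fun N => (⋃ i, f i) \ (⋃ i ∈ Finset.range N, f i)
    have hDm : ∀ N, MeasurableSet (D N) := fun N =>
      (MeasurableSet.iUnion hf).diff (Finset.measurableSet_biUnion _ (fun i _ => hf i))
    have hDanti : Antitone D := by
      intro N M hNM p hp
      refine ⟨hp.1, fun h => hp.2 ?_⟩
      simp only [mem_iUnion, Finset.mem_range] at h ⊢
      obtain ⟨i, hi, hpi⟩ := h
      exact ⟨i, lt_of_lt_of_le hi hNM, hpi⟩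
    have hDempty : ⋂ N, D N = ∅ := by
      rw [eq_empty_iff_forall_notMem]
      intro p hp
      rw [mem_iInter] at hp
      obtain ⟨i, hi⟩ := mem_iUnion.mp (hp 0).1
      apply (hp (i + 1)).2
      simp only [mem_iUnion, Finset.mem_range]
      exact ⟨i, Nat.lt_succ_self i, hi⟩
    have htend : Tendsto (fun N => (μ.prod μ) (D N)) atTop (𝓝 0) := by
      have := tendsto_measure_iInter_atTop (μ := μ.prod μ) (s := D)
        (fun N => (hDm N).nullMeasurableSet) hDanti ⟨0, measure_ne_top _ _⟩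
      rwa [hDempty, measure_empty] at this
    have htend2 : Tendsto (fun N => ((μ.prod μ) (D N)) ^ (1 / (2:ℝ))) atTop (𝓝 0) := by
      have h := ((ENNReal.continuous_rpow_const (y := 1 / (2:ℝ))).tendsto 0).comp htend
      have h0 : (0:ℝ≥0∞) ^ (1 / (2:ℝ)) = 0 := ENNReal.zero_rpow_of_pos (by norm_num)
      rw [h0] at h
      exact h
    obtain ⟨N, hN⟩ := ((tendsto_order.mp htend2).2 ε (pos_iff_ne_zero.mpr hε)).exists
    refine ⟨_, hpart N, ?_⟩
    have heq : (⋃ i, f i).indicator (fun _ => (1 : ℂ)) -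
        (⋃ i ∈ Finset.range N, f i).indicator (fun _ => (1 : ℂ)) =
        (D N).indicator (fun _ => (1 : ℂ)) := by
      funext p
      by_cases h2 : p ∈ ⋃ i ∈ Finset.range N, f i
      · have h1 : p ∈ ⋃ i, f i := by
          simp only [mem_iUnion, Finset.mem_range] at h2 ⊢
          obtain ⟨i, hi, hpi⟩ := h2
          exact ⟨i, hpi⟩
        have h3 : p ∉ D N := fun h => h.2 h2
        rw [Pi.sub_apply, indicator_of_mem h1, indicator_of_mem h2, indicator_of_notMem h3]
        simp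
      · by_cases h1 : p ∈ ⋃ i, f i
        · have h3 : p ∈ D N := ⟨h1, h2⟩
          rw [Pi.sub_apply, indicator_of_mem h1, indicator_of_notMem h2, indicator_of_mem h3]
          simp
        · have h3 : p ∉ D N := fun h => h1 h.1
          rw [Pi.sub_apply, indicator_of_notMem h1, indicator_of_notMem h2,
            indicator_of_notMem h3]
          simp
    rw [heq, eLpNorm_indicator_const (hDm N) (by norm_num) (by norm_num)]
    simpa using hN

lemma good_simple (g : SimpleFunc (Z × Z) ℂ) : Good μ g := by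
  induction g using SimpleFunc.induction with
  | const c hs =>
    rename_i s
    have := (good_ind (μ := μ) hs).smul c
    convert this using 1
    funext p
    by_cases hp : p ∈ s
    · simp [hp]
    · simp [hp]
  | add hd hf hg =>
    exact hf.add hg

end

end HSb

theorem hsOp : Stm.hsOp := by
  intro Z _ μ _ K hK hC
  have hB : HSb.BM K := ⟨hK, hC⟩
  have hG : HSb.Good μ K := by
    refine HSb.Good.lim hB ?_
    intro ε hε
    obtain ⟨g, hg, -⟩ := (HSb.memLp_K (μ := μ) hB).exists_simpleFunc_eLpNorm_sub_lt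
      (by norm_num) hε
    exact ⟨g, HSb.good_simple g, hg⟩
  obtain ⟨-, A, hA, hu⟩ := hG
  exact ⟨A, hA, fun u => hu u⟩

end R970.WM
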