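import Pool.Agent.R970.WM.Stm2

open MeasureTheory Set Filter Topology

namespace R970.WM

namespace LDb

variable {A : Type} [NormedRing A] [NormedAlgebra ℂ A] [FiniteDimensional ℂ A]

/-- no small element of the complement exponentiates into the group -/
theorem small (Γ : Set A) (hc : IsCompact Γ) (h1 : (1:A) ∈ Γ)
    (hmul : ∀ x ∈ Γ, ∀ y ∈ Γ, x * y ∈ Γ) (hinv : ∀ x ∈ Γ, ∃ y ∈ Γ, x * y = 1 ∧ y * x = 1)
    (g m : Submodule ℝ A) (hg : ∀ ξ : A, (∀ t : ℝ, NormedSpace.exp (t • ξ) ∈ Γ) → ξ ∈ g)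
    (hgm : Disjoint g m) :
    ∃ ε : ℝ, 0 < ε ∧ ∀ y ∈ m, ‖y‖ < ε → NormedSpace.exp y ∈ Γ → y = 0 := by
  letI : NormedAlgebra ℚ A := NormedAlgebra.restrictScalars ℚ ℝ A
  haveI : FiniteDimensional ℝ A := FiniteDimensional.complexToReal A
  haveI : CompleteSpace A := FiniteDimensional.complete ℝ A
  haveI : ProperSpace A := FiniteDimensional.proper ℝ A
  by_contra hcon
  push Not at hcon
  have h2 : ∀ k : ℕ, ∃ y ∈ m, ‖y‖ < 1 / ((k:ℝ) + 1) ∧ NormedSpace.exp y ∈ Γ ∧ y ≠ 0 :=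
    fun k => hcon _ (by positivity)
  choose y hym hyn hyΓ hy0 using h2
  have hpos : ∀ k, 0 < ‖y k‖ := fun k => norm_pos_iff.mpr (hy0 k)
  let u : ℕ → A := fun k => (‖y k‖)⁻¹ • y k
  have hun : ∀ k, u k ∈ Metric.sphere (0:A) 1 := by
    intro k
    rw [mem_sphere_zero_iff_norm, norm_smul, norm_inv, norm_norm, inv_mul_cancel₀ (hpos k).ne']
  obtain ⟨u0, hu0, φ, hφ, hlim⟩ := (isCompact_sphere (0:A) 1).tendsto_subseq hun
  have hu0m : u0 ∈ m := by
    have hcl : IsClosed (m : Set A) := m.closed_of_finiteDimensional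
    exact hcl.mem_of_tendsto hlim (Eventually.of_forall (fun k => m.smul_mem _ (hym _)))
  have hy0' : Tendsto (fun k => ‖y (φ k)‖) atTop (𝓝 0) := by
    have h3 : Tendsto (fun k => ‖y k‖) atTop (𝓝 0) :=
      squeeze_zero (fun k => norm_nonneg _) (fun k => (hyn k).le)
        tendsto_one_div_add_atTop_nhds_zero_nat
    exact h3.comp hφ.tendsto_atTop
  have hpow : ∀ x ∈ Γ, ∀ n : ℕ, x ^ n ∈ Γ := by
    intro x hx n
    induction n with
    | zero => simpa using h1
    | succ n ih => rw [pow_succ]; exact hmul _ ih _ hx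
  have hnn : ∀ t : ℝ, 0 ≤ t → NormedSpace.exp (t • u0) ∈ Γ := by
    intro t ht
    have h4 : Tendsto (fun k => ((⌊t / ‖y (φ k)‖⌋₊ : ℕ) : ℝ) * ‖y (φ k)‖) atTop (𝓝 t) := by
      have h5 : Tendsto (fun k => t - ‖y (φ k)‖) atTop (𝓝 t) := by
        simpa using (tendsto_const_nhds (x := t)).sub hy0'
      refine tendsto_of_tendsto_of_tendsto_of_le_of_le h5 tendsto_const_nhds ?_ ?_
      · intro k
        have hp := hpos (φ k)
        have h6 := Nat.lt_floor_add_one (t / ‖y (φ k)‖)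
        rw [div_lt_iff₀ hp] at h6
        simp only
        nlinarith
      · intro k
        have hp := hpos (φ k)
        have h6 := Nat.floor_le (div_nonneg ht hp.le)
        rw [le_div_iff₀ hp] at h6
        exact h6
    have h7 : Tendsto (fun k => NormedSpace.exp
        ((((⌊t / ‖y (φ k)‖⌋₊ : ℕ) : ℝ) * ‖y (φ k)‖) • u (φ k))) atTop
        (𝓝 (NormedSpace.exp (t • u0))) :=
      (NormedSpace.exp_continuous.tendsto _).comp (h4.smul hlim)
    refine hc.isClosed.mem_of_tendsto h7 (Eventually.of_forall (fun k => ?_))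
    have h8 : ((((⌊t / ‖y (φ k)‖⌋₊ : ℕ) : ℝ) * ‖y (φ k)‖) • u (φ k)) =
        ⌊t / ‖y (φ k)‖⌋₊ • y (φ k) := by
      simp only [u]
      rw [smul_smul, mul_assoc, mul_inv_cancel₀ (hpos _).ne', mul_one, Nat.cast_smul_eq_nsmul]
    rw [h8, NormedSpace.exp_nsmul]
    exact hpow _ (hyΓ _) _
  have hall : ∀ t : ℝ, NormedSpace.exp (t • u0) ∈ Γ := by
    intro t
    rcases le_total 0 t with ht | ht
    · exact hnn t ht
    · obtain ⟨z, hz, hz1, hz2⟩ := hinv _ (hnn (-t) (by linarith))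
      have h9 : NormedSpace.exp (t • u0) * NormedSpace.exp ((-t) • u0) = 1 := by
        rw [← NormedSpace.exp_add_of_commute (((Commute.refl u0).smul_left t).smul_right (-t)),
          ← add_smul, add_neg_cancel, zero_smul, NormedSpace.exp_zero]
      have h10 : NormedSpace.exp (t • u0) = z := by
        calc NormedSpace.exp (t • u0) = NormedSpace.exp (t • u0) *
            (NormedSpace.exp ((-t) • u0) * z) := by rw [hz1, mul_one]
          _ = z := by rw [← mul_assoc, h9, one_mul]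
      rw [h10]; exact hz
  have h11 : u0 ∈ g := hg u0 hall
  have h12 : u0 = 0 := (Submodule.disjoint_def.mp hgm) u0 h11 hu0m
  rw [h12] at hu0
  simp at hu0

/-- a neighbourhood of `1` in the group consists of exponentials -/
theorem nbhd (Γ : Set A) (hc : IsCompact Γ) (h1 : (1:A) ∈ Γ)
    (hmul : ∀ x ∈ Γ, ∀ y ∈ Γ, x * y ∈ Γ) (hinv : ∀ x ∈ Γ, ∃ y ∈ Γ, x * y = 1 ∧ y * x = 1)
    (g : Submodule ℝ A) (hg : ∀ ξ : A, (∀ t : ℝ, NormedSpace.exp (t • ξ) ∈ Γ) ↔ ξ ∈ g) :
    ∀ᶠ z in 𝓝 (1:A), z ∈ Γ → ∃ ξ ∈ g, z = NormedSpace.exp ξ := by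
  letI : NormedAlgebra ℚ A := NormedAlgebra.restrictScalars ℚ ℝ A
  haveI : FiniteDimensional ℝ A := FiniteDimensional.complexToReal A
  haveI : CompleteSpace A := FiniteDimensional.complete ℝ A
  obtain ⟨m, hgm⟩ := g.exists_isCompl
  obtain ⟨ε, hε, hsm⟩ := small Γ hc h1 hmul hinv g m (fun ξ h => (hg ξ).1 h) hgm.disjoint
  haveI : CompleteSpace g := FiniteDimensional.complete ℝ g
  haveI : CompleteSpace m := FiniteDimensional.complete ℝ m
  let L1 : (g × m) →L[ℝ] A := g.subtypeL.comp (ContinuousLinearMap.fst ℝ g m)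
  let L2 : (g × m) →L[ℝ] A := m.subtypeL.comp (ContinuousLinearMap.snd ℝ g m)
  have he : HasStrictFDerivAt (NormedSpace.exp : A → A) (1 : A →L[ℝ] A) 0 :=
    hasStrictFDerivAt_exp_zero
  have e1 : HasStrictFDerivAt (fun p : g × m => NormedSpace.exp (L1 p)) ((1 : A →L[ℝ] A).comp L1) 0 := by
    apply HasStrictFDerivAt.comp (g := NormedSpace.exp) (f := fun p : g × m => L1 p)
    · simpa using he
    · exact L1.hasStrictFDerivAt
  have e2 : HasStrictFDerivAt (fun p : g × m => NormedSpace.exp (L2 p)) ((1 : A →L[ℝ] A).comp L2) 0 := by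
    apply HasStrictFDerivAt.comp (g := NormedSpace.exp) (f := fun p : g × m => L2 p)
    · simpa using he
    · exact L2.hasStrictFDerivAt
  have e3 := e1.mul' e2
  have e4 := e3.map_nhds_eq_of_surj (by
    rw [eq_top_iff]
    intro z _
    have hz : z ∈ g ⊔ m := by rw [hgm.sup_eq_top]; trivial
    obtain ⟨x, hx, y, hy, rfl⟩ := Submodule.mem_sup.mp hz
    refine ⟨(⟨x, hx⟩, ⟨y, hy⟩), ?_⟩
    simp [L1, L2, NormedSpace.exp_zero, add_comm])
  have e5 : {p : g × m | ‖(p.2 : A)‖ < ε} ∈ 𝓝 (0 : g × m) := by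
    have hcont : Continuous (fun p : g × m => ‖(p.2 : A)‖) := by fun_prop
    exact (isOpen_lt hcont continuous_const).mem_nhds (by simpa using hε)
  have e6 := image_mem_map (m := fun p : g × m => NormedSpace.exp (L1 p) * NormedSpace.exp (L2 p)) e5
  have e6' : (fun p : g × m => NormedSpace.exp (L1 p) * NormedSpace.exp (L2 p)) ''
      {p : g × m | ‖(p.2 : A)‖ < ε} ∈ 𝓝 (1:A) := by
    have := e4 ▸ e6
    simpa [NormedSpace.exp_zero] using this
  filter_upwards [e6'] with z hz hzΓ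
  obtain ⟨p, hp, rfl⟩ := hz
  refine ⟨p.1, p.1.2, ?_⟩
  have hx := (hg (p.1 : A)).2 p.1.2
  have hxneg : NormedSpace.exp (-(p.1 : A)) ∈ Γ := by simpa using hx (-1)
  have h9 : NormedSpace.exp (-(p.1 : A)) * NormedSpace.exp (p.1 : A) = 1 := by
    rw [← NormedSpace.exp_add_of_commute ((Commute.refl (p.1 : A)).neg_left),
      neg_add_cancel, NormedSpace.exp_zero]
  have h10 : NormedSpace.exp (p.2 : A) ∈ Γ := by
    have h11 := hmul _ hxneg _ hzΓ
    have h12 : NormedSpace.exp (-(p.1 : A)) * (NormedSpace.exp (L1 p) * NormedSpace.exp (L2 p)) =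
        NormedSpace.exp (p.2 : A) := by
      rw [← mul_assoc]
      change NormedSpace.exp (-(p.1 : A)) * NormedSpace.exp (p.1 : A) * NormedSpace.exp (p.2 : A) = _
      rw [h9, one_mul]
    rwa [h12] at h11
  have h13 := hsm (p.2 : A) p.2.2 hp h10
  change NormedSpace.exp (p.1 : A) * NormedSpace.exp (p.2 : A) = _
  rw [h13, NormedSpace.exp_zero, mul_one]

end LDb

theorem lieGen (hsub : Stm.lieSub) : Stm.lieGen := by
  intro W _ _ _ Γ hc h1 hmul hinv hiso hconn x hx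
  letI : NormedAlgebra ℚ (W →L[ℂ] W) := NormedAlgebra.restrictScalars ℚ ℝ (W →L[ℂ] W)
  haveI : CompleteSpace (W →L[ℂ] W) := FiniteDimensional.complete ℂ _
  obtain ⟨s0, sadd, ssmul, -, -⟩ := hsub W Γ hc h1 hmul hinv hiso
  let g : Submodule ℝ (W →L[ℂ] W) :=
    { carrier := lieOf Γ
      zero_mem' := s0
      add_mem' := fun {a b} ha hb => sadd a ha b hb
      smul_mem' := fun c ξ h => by
        have := ssmul ξ h c
        have h' : c • ξ = (c : ℂ) • ξ := by ext v; simp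
        rw [h']; exact this }
  have hg : ∀ ξ : W →L[ℂ] W, (∀ t : ℝ, NormedSpace.exp (t • ξ) ∈ Γ) ↔ ξ ∈ g := by
    intro ξ
    have h' : ∀ t : ℝ, t • ξ = (t : ℂ) • ξ := by intro t; ext v; simp
    constructor
    · intro h t; rw [← h']; exact h t
    · intro h t; rw [h']; exact h t
  have hnb := LDb.nbhd Γ hc h1 hmul hinv g hg
  set S : Submonoid (W →L[ℂ] W) :=
    Submonoid.closure {y : W →L[ℂ] W | ∃ ξ ∈ lieOf Γ, y = NormedSpace.exp ξ} with hS
  have hSinv : ∀ a ∈ S, ∃ b ∈ S, a * b = 1 ∧ b * a = 1 := by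
    intro a ha
    induction ha using Submonoid.closure_induction with
    | mem a ha =>
      obtain ⟨ξ, hξ, rfl⟩ := ha
      refine ⟨NormedSpace.exp (-ξ), Submonoid.subset_closure ⟨-ξ, ?_, rfl⟩, ?_, ?_⟩
      · exact g.neg_mem hξ
      · rw [← NormedSpace.exp_add_of_commute ((Commute.refl ξ).neg_right), add_neg_cancel,
          NormedSpace.exp_zero]
      · rw [← NormedSpace.exp_add_of_commute ((Commute.refl ξ).neg_left), neg_add_cancel,
          NormedSpace.exp_zero]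
    | one => exact ⟨1, S.one_mem, one_mul 1, one_mul 1⟩
    | mul a a' _ _ iha iha' =>
      obtain ⟨b, hb, hb1, hb2⟩ := iha
      obtain ⟨b', hb', hb1', hb2'⟩ := iha'
      refine ⟨b' * b, S.mul_mem hb' hb, ?_, ?_⟩
      · calc a * a' * (b' * b) = a * (a' * b') * b := by simp only [mul_assoc]
          _ = 1 := by rw [hb1', mul_one, hb1]
      · calc b' * b * (a * a') = b' * (b * a) * a' := by simp only [mul_assoc]
          _ = 1 := by rw [hb2, mul_one, hb2']
  have hP : ∃ h ∈ S, x = 1 * h := by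
    refine hconn.induction₂ (fun a b => ∃ h ∈ S, b = a * h) ?_ ?_ ?_ h1 hx
    · intro a ha
      obtain ⟨a', ha', haa', ha'a⟩ := hinv a ha
      have hcont : Tendsto (fun z : W →L[ℂ] W => a' * z) (𝓝 a) (𝓝 (1 : W →L[ℂ] W)) := by
        have : Continuous (fun z : W →L[ℂ] W => a' * z) := continuous_const.mul continuous_id
        simpa [ha'a] using this.tendsto a
      have h3 := hcont.eventually hnb
      filter_upwards [mem_nhdsWithin_of_mem_nhds h3, self_mem_nhdsWithin] with z hz hzΓ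
      obtain ⟨ξ, hξ, hξ'⟩ := hz (hmul _ ha' _ hzΓ)
      refine ⟨NormedSpace.exp ξ, Submonoid.subset_closure ⟨ξ, hξ, rfl⟩, ?_⟩
      rw [← hξ', ← mul_assoc, haa', one_mul]
    · rintro a b c - - - ⟨h, hh, rfl⟩ ⟨h', hh', rfl⟩
      exact ⟨h * h', S.mul_mem hh hh', by rw [mul_assoc]⟩
    · rintro a b - - ⟨h, hh, rfl⟩
      obtain ⟨k, hk, hk1, -⟩ := hSinv h hh
      exact ⟨k, hk, by rw [mul_assoc, hk1, mul_one]⟩
  obtain ⟨h, hh, rfl⟩ := hP
  rw [one_mul]
  exact subset_closure hh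

end R970.WM
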