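import Pool.Agent.R970.WM.LGa

/-! # LG: almost every pair is good -/

open MeasureTheory Set Filter Topology

namespace R970.WM

namespace LG

variable {W : Type} [NormedAddCommGroup W] [InnerProductSpace ℂ W] [FiniteDimensional ℂ W]
  [CompleteSpace W]

theorem exp_add_mul (ξ : W →L[ℂ] W) (s t : ℝ) :
    NormedSpace.exp ((s : ℂ) • ξ) * NormedSpace.exp ((t : ℂ) • ξ) =
      NormedSpace.exp (((s + t : ℝ) : ℂ) • ξ) := by
  have hc : Commute ((s : ℂ) • ξ) ((t : ℂ) • ξ) :=
    ((Commute.refl ξ).smul_left _).smul_right _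
  letI : NormedAlgebra ℚ (W →L[ℂ] W) := NormedAlgebra.restrictScalars ℚ ℂ (W →L[ℂ] W)
  rw [← NormedSpace.exp_add_of_commute hc, ← add_smul]
  push_cast
  rfl

theorem ds_cont {X : Type*} [TopologicalSpace X] (Q0 : W →L[ℂ] W) {p q : X → (W →L[ℂ] W)}
    (hp : Continuous p) (hq : Continuous q) : Continuous fun x => dtm (SS Q0 (p x) (q x)) := by
  have h : Continuous fun x => SS Q0 (p x) (q x) := by
    unfold SS
    have h1 : Continuous fun x => ContinuousLinearMap.adjoint (p x) := adj_cont.comp hp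
    have h2 : Continuous fun x => ContinuousLinearMap.adjoint (q x) := adj_cont.comp hq
    exact ((((continuous_const.sub hp).sub h1).sub hq).sub h2).add continuous_const
  exact Continuous.comp (g := dtm) dtm_cont h

attribute [local irreducible] dtm SS

theorem exp_adj {G : Type} [Group G] (op : G → (W →L[ℂ] W)) (hm : ∀ a b, op (a * b) = op a * op b)
    (h1 : op 1 = 1) (hadj : ∀ a, ContinuousLinearMap.adjoint (op a) = op a⁻¹)
    (ξ : W →L[ℂ] W) (hξ : ξ ∈ lieOf (range op)) (t : ℝ) :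
    ContinuousLinearMap.adjoint (NormedSpace.exp ((t : ℂ) • ξ)) =
      NormedSpace.exp ((-(t : ℂ)) • ξ) := by
  obtain ⟨g, hg⟩ := hξ t
  have e1 : NormedSpace.exp ((-(t : ℂ)) • ξ) * NormedSpace.exp ((t : ℂ) • ξ) = 1 := by
    have := exp_add_mul ξ (-t) t
    rw [neg_add_cancel] at this
    simpa using this
  have e2 : op g * op g⁻¹ = 1 := by rw [← hm, mul_inv_cancel, h1]
  rw [← hg, hadj]
  rw [← hg] at e1
  calc op g⁻¹ = (NormedSpace.exp ((-(t : ℂ)) • ξ) * op g) * op g⁻¹ := by rw [e1, one_mul]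
    _ = NormedSpace.exp ((-(t : ℂ)) • ξ) := by rw [mul_assoc, e2, mul_one]

variable {G : Type} [Group G] [TopologicalSpace G] [IsTopologicalGroup G] [CompactSpace G]
  [T2Space G] [SecondCountableTopology G] [MeasurableSpace G] [BorelSpace G]
  (ν : Measure G) [IsProbabilityMeasure ν] [ν.IsHaarMeasure]
  (op : G → (W →L[ℂ] W)) (hc : Continuous op) (hm : ∀ a b, op (a * b) = op a * op b)
  (h1 : op 1 = 1) (hadj : ∀ a, ContinuousLinearMap.adjoint (op a) = op a⁻¹) (Q0 : W →L[ℂ] W)

theorem mp (h : G) : MeasurePreserving (fun x : G × G => (h * x.1, x.2)) (ν.prod ν) (ν.prod ν) :=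
  (measurePreserving_mul_left ν h).prod (MeasurePreserving.id ν)

include hc hm h1 hadj in
theorem step_exp (ξ : W →L[ℂ] W) (hξ : ξ ∈ lieOf (range op)) :
    ∀ᵐ x ∂(ν.prod ν), dtm (SS Q0 (op x.1) (op x.2)) = 0 →
      dtm (SS Q0 (NormedSpace.exp ξ * op x.1) (op x.2)) = 0 := by
  obtain ⟨f, hf⟩ : ∃ f : (G × G) → ℝ → ℂ, f = fun (x : G × G) (t : ℝ) =>
    dtm (SS Q0 (NormedSpace.exp ((t : ℂ) • ξ) * op x.1) (op x.2)) := ⟨_, rfl⟩
  have hexp : Continuous fun t : ℝ => NormedSpace.exp ((t : ℂ) • ξ) := by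
    have h2 : Continuous fun z : ℂ => NormedSpace.exp (z • ξ) :=
      continuous_iff_continuousAt.mpr fun z => (hasDerivAt_exp_smul_const ξ z).continuousAt
    exact h2.comp Complex.continuous_ofReal
  have hfc : Continuous fun p : (G × G) × ℝ => f p.1 p.2 := by
    rw [hf]
    exact ds_cont Q0 ((hexp.comp continuous_snd).mul (hc.comp (continuous_fst.comp continuous_fst)))
      (hc.comp (continuous_snd.comp continuous_fst))
  have hAcl : IsClosed {x : G × G | ∀ t, f x t = 0} := by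
    have : {x : G × G | ∀ t, f x t = 0} = ⋂ t : ℝ, {x | f x t = 0} := by ext x; simp
    rw [this]
    exact isClosed_iInter fun t =>
      isClosed_eq (hfc.comp (continuous_id.prodMk continuous_const)) continuous_const
  have hms : MeasurableSet {p : (G × G) × ℝ | ¬ (¬ (∀ t, f p.1 t = 0) ∧ f p.1 p.2 = 0)} := by
    refine MeasurableSet.compl (MeasurableSet.inter (MeasurableSet.compl ?_) ?_)
    · exact measurable_fst hAcl.measurableSet
    · exact (isClosed_eq hfc continuous_const).measurableSet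
  have hae : ∀ᵐ x ∂(ν.prod ν), ∀ᵐ t : ℝ, ¬ (¬ (∀ t, f x t = 0) ∧ f x t = 0) := by
    refine Filter.Eventually.of_forall fun x => ?_
    rcases null_or Q0 (op x.1) (op x.2) ξ (exp_adj op hm h1 hadj ξ hξ) with h | h
    · refine Filter.Eventually.of_forall fun t ht => ht.1 ?_
      rw [hf]
      exact h
    · rw [ae_iff]
      refine measure_mono_null ?_ h
      intro t ht
      simp only [mem_setOf_eq, not_not] at ht
      rw [hf] at ht
      exact ht.2
  rw [Measure.ae_ae_comm (p := fun x t => ¬ (¬ (∀ t, f x t = 0) ∧ f x t = 0)) hms] at hae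
  obtain ⟨t, ht⟩ := hae.exists
  obtain ⟨g, hg⟩ := hξ t
  have hfg : ∀ (x : G × G) (s : ℝ), f (g * x.1, x.2) s = f x (s + t) := by
    intro x s
    rw [hf]
    simp only
    rw [hm, hg, ← mul_assoc, exp_add_mul]
  have hgi := (mp ν g⁻¹).quasiMeasurePreserving.ae ht
  filter_upwards [hgi] with x hx h0
  by_contra hne
  refine hx ⟨fun hall => hne ?_, ?_⟩
  · have h4 := hfg (g⁻¹ * x.1, x.2) 1
    simp only [mul_inv_cancel_left] at h4
    rw [hall, hf] at h4
    simpa using h4
  · have h4 := hfg (g⁻¹ * x.1, x.2) 0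
    simp only [mul_inv_cancel_left, zero_add] at h4
    rw [← h4, hf]
    simpa using h0

include hc hm h1 hadj in
theorem key1 (hGen : ∀ x ∈ range op, x ∈ closure
    ((Submonoid.closure {y : W →L[ℂ] W | ∃ ξ ∈ lieOf (range op), y = NormedSpace.exp ξ} :
      Submonoid (W →L[ℂ] W)) : Set (W →L[ℂ] W))) (h : G) :
    ∀ᵐ x ∂(ν.prod ν), dtm (SS Q0 (op x.1) (op x.2)) = 0 →
      dtm (SS Q0 (op (h * x.1)) (op x.2)) = 0 := by
  have hmon : ∀ y ∈ Submonoid.closure {y : W →L[ℂ] W | ∃ ξ ∈ lieOf (range op),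
      y = NormedSpace.exp ξ}, y ∈ range op ∧ ∀ᵐ x ∂(ν.prod ν),
      dtm (SS Q0 (op x.1) (op x.2)) = 0 → dtm (SS Q0 (y * op x.1) (op x.2)) = 0 := by
    intro y hy
    induction hy using Submonoid.closure_induction with
    | mem y hy =>
      obtain ⟨ξ, hξ, rfl⟩ := hy
      refine ⟨?_, step_exp ν op hc hm h1 hadj Q0 ξ hξ⟩
      have := hξ 1
      simpa using this
    | one =>
      refine ⟨⟨1, h1⟩, Filter.Eventually.of_forall fun x hx => ?_⟩
      rw [one_mul]
      exact hx
    | mul y1 y2 _ _ i1 i2 =>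
      obtain ⟨⟨g1, hg1⟩, e1⟩ := i1
      obtain ⟨⟨g2, hg2⟩, e2⟩ := i2
      refine ⟨⟨g1 * g2, by rw [hm, hg1, hg2]⟩, ?_⟩
      have e3 := (mp ν g2).quasiMeasurePreserving.ae e1
      filter_upwards [e2, e3] with x hx2 hx3 h0
      have h4 := hx2 h0
      rw [← hg2, ← hm] at h4
      have h5 : dtm (SS Q0 (y1 * op (g2 * x.1)) (op x.2)) = 0 := hx3 h4
      rw [hm, hg2, ← mul_assoc] at h5
      exact h5
  obtain ⟨y, hy, hlim⟩ := mem_closure_iff_seq_limit.mp (hGen (op h) ⟨h, rfl⟩)
  have hall : ∀ᵐ x ∂(ν.prod ν), ∀ n, dtm (SS Q0 (op x.1) (op x.2)) = 0 →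
      dtm (SS Q0 (y n * op x.1) (op x.2)) = 0 := ae_all_iff.mpr fun n => (hmon _ (hy n)).2
  filter_upwards [hall] with x hx h0
  have hcont : Continuous fun z : W →L[ℂ] W => dtm (SS Q0 (z * op x.1) (op x.2)) :=
    ds_cont Q0 (continuous_id.mul continuous_const) continuous_const
  have ht := (hcont.tendsto (op h)).comp hlim
  have he : ((fun z : W →L[ℂ] W => dtm (SS Q0 (z * op x.1) (op x.2))) ∘ y) = fun _ => (0 : ℂ) := by
    funext n
    exact hx n h0
  rw [he] at ht
  have := tendsto_nhds_unique tendsto_const_nhds ht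
  rw [hm]
  exact this.symm

include hc hm h1 hadj in
theorem key (hGen : ∀ x ∈ range op, x ∈ closure
    ((Submonoid.closure {y : W →L[ℂ] W | ∃ ξ ∈ lieOf (range op), y = NormedSpace.exp ξ} :
      Submonoid (W →L[ℂ] W)) : Set (W →L[ℂ] W)))
    (hne : ∃ a b : G, dtm (SS Q0 (op a) (op b)) ≠ 0) :
    ∀ᵐ x ∂(ν.prod ν), dtm (SS Q0 (op x.1) (op x.2)) ≠ 0 := by
  have k1 := key1 ν op hc hm h1 hadj Q0 hGen
  have k2 : ∀ k : G, ∀ᵐ x ∂(ν.prod ν), dtm (SS Q0 (op x.1) (op x.2)) = 0 →
      dtm (SS Q0 (op x.1) (op (k * x.2))) = 0 := by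
    intro k
    have h2 := (Measure.measurePreserving_swap (μ := ν) (ν := ν)).quasiMeasurePreserving.ae (k1 k)
    filter_upwards [h2] with x hx h0
    rw [SS_symm]
    apply hx
    rw [SS_symm]
    exact h0
  have k3 : ∀ a : G × G, ∀ᵐ x ∂(ν.prod ν), dtm (SS Q0 (op x.1) (op x.2)) = 0 →
      dtm (SS Q0 (op (a.1 * x.1)) (op (a.2 * x.2))) = 0 := by
    intro a
    have h3 := (mp ν a.1).quasiMeasurePreserving.ae (k2 a.2)
    filter_upwards [k1 a.1, h3] with x hx1 hx2 h0
    exact hx2 (hx1 h0)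
  have hfc : Continuous fun x : G × G => dtm (SS Q0 (op x.1) (op x.2)) :=
    ds_cont Q0 (hc.comp continuous_fst) (hc.comp continuous_snd)
  have hms : MeasurableSet {p : (G × G) × (G × G) | dtm (SS Q0 (op p.2.1) (op p.2.2)) = 0 →
      dtm (SS Q0 (op (p.1.1 * p.2.1)) (op (p.1.2 * p.2.2))) = 0} := by
    have e : {p : (G × G) × (G × G) | dtm (SS Q0 (op p.2.1) (op p.2.2)) = 0 →
      dtm (SS Q0 (op (p.1.1 * p.2.1)) (op (p.1.2 * p.2.2))) = 0} =
      {p : (G × G) × (G × G) | dtm (SS Q0 (op p.2.1) (op p.2.2)) = 0}ᶜ ∪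
      {p : (G × G) × (G × G) | dtm (SS Q0 (op (p.1.1 * p.2.1)) (op (p.1.2 * p.2.2))) = 0} := by
      ext p
      simp only [mem_setOf_eq, mem_union, mem_compl_iff]
      tauto
    rw [e]
    refine MeasurableSet.union (MeasurableSet.compl ?_) ?_
    · exact (isClosed_eq (hfc.comp continuous_snd) continuous_const).measurableSet
    · have hc2 : Continuous fun p : (G × G) × (G × G) => ((p.1.1 * p.2.1, p.1.2 * p.2.2) : G × G) := by
        fun_prop
      exact (isClosed_eq (hfc.comp hc2) continuous_const).measurableSet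
  have k4 : ∀ᵐ a ∂(ν.prod ν), ∀ᵐ x ∂(ν.prod ν), (dtm (SS Q0 (op x.1) (op x.2)) = 0 →
      dtm (SS Q0 (op (a.1 * x.1)) (op (a.2 * x.2))) = 0) := Filter.Eventually.of_forall k3
  rw [Measure.ae_ae_comm (p := fun (a x : G × G) => (dtm (SS Q0 (op x.1) (op x.2)) = 0 →
      dtm (SS Q0 (op (a.1 * x.1)) (op (a.2 * x.2))) = 0)) hms] at k4
  filter_upwards [k4] with x hx h0
  obtain ⟨a, b, hab⟩ := hne
  apply hab
  have h5 : ∀ᵐ c ∂(ν.prod ν), dtm (SS Q0 (op (c.1 * x.1)) (op (c.2 * x.2))) = 0 := by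
    filter_upwards [hx] with c hc'
    exact hc' h0
  have hc3 : Continuous fun c : G × G => dtm (SS Q0 (op (c.1 * x.1)) (op (c.2 * x.2))) := by
    have hc2 : Continuous fun c : G × G => ((c.1 * x.1, c.2 * x.2) : G × G) := by
      fun_prop
    exact hfc.comp hc2
  have h6 : (fun c : G × G => dtm (SS Q0 (op (c.1 * x.1)) (op (c.2 * x.2)))) = fun _ => 0 :=
    (Continuous.ae_eq_iff_eq (ν.prod ν) hc3 continuous_const).mp h5
  have h7 := congrFun h6 (a * x.1⁻¹, b * x.2⁻¹)
  simpa using h7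

end LG

theorem lg (hGen : Stm.lieGen) (hPair : Stm.lgPair) : Stm.lg := by
  intro G _ _ _ _ _ _ _ _ _ ν _ _ W _ _ _ R hR
  haveI : CompleteSpace W := FiniteDimensional.complete ℂ W
  obtain ⟨op, hop⟩ : ∃ op : G → (W →L[ℂ] W), op = fun a : G =>
    ((R a).toContinuousLinearEquiv : W →L[ℂ] W) := ⟨_, rfl⟩
  have happ : ∀ a v, op a v = R a v := by intro a v; rw [hop]; rfl
  have hm : ∀ a b, op (a * b) = op a * op b := by
    intro a b
    ext v
    rw [happ, map_mul]
    change R a (R b v) = op a (op b v)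
    rw [happ, happ]
  have h1 : op 1 = 1 := by
    ext v
    rw [happ, map_one]
    rfl
  have hc : Continuous op := by
    rw [continuous_clm_apply]
    intro v
    simp only [happ]
    exact hR.comp (continuous_id.prodMk continuous_const)
  have hin : ∀ a (v w : W), inner ℂ (op a v) (op a w) = inner ℂ v w := by
    intro a v w
    rw [happ, happ]
    exact (R a).inner_map_map v w
  have hno : ∀ a (v : W), ‖op a v‖ = ‖v‖ := by
    intro a v
    rw [happ]
    exact (R a).norm_map v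
  have hinv : ∀ a v, op a (op a⁻¹ v) = v := by
    intro a v
    have : (op a * op a⁻¹) v = v := by rw [← hm, mul_inv_cancel, h1]; rfl
    exact this
  have hinv' : ∀ a v, op a⁻¹ (op a v) = v := by
    intro a v
    have : (op a⁻¹ * op a) v = v := by rw [← hm, inv_mul_cancel, h1]; rfl
    exact this
  have hadj : ∀ a, ContinuousLinearMap.adjoint (op a) = op a⁻¹ := by
    intro a
    symm
    rw [ContinuousLinearMap.eq_adjoint_iff]
    intro x y
    rw [← hin a, hinv]
  have hcomp : IsCompact (range op) := isCompact_range hc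
  have hpre : IsPreconnected (range op) := isPreconnected_range hc
  have hone : (1 : W →L[ℂ] W) ∈ range op := ⟨1, h1⟩
  have hmul : ∀ x ∈ range op, ∀ y ∈ range op, x * y ∈ range op := by
    rintro _ ⟨a, rfl⟩ _ ⟨b, rfl⟩
    exact ⟨a * b, hm a b⟩
  have hiv : ∀ x ∈ range op, ∃ y ∈ range op, x * y = 1 ∧ y * x = 1 := by
    rintro _ ⟨a, rfl⟩
    exact ⟨op a⁻¹, ⟨_, rfl⟩, by rw [← hm, mul_inv_cancel, h1], by rw [← hm, inv_mul_cancel, h1]⟩
  have hinn : ∀ x ∈ range op, ∀ v w : W, inner ℂ (x v) (x w) = inner ℂ v w := by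
    rintro _ ⟨a, rfl⟩ v w
    exact hin a v w
  have hG := hGen W (range op) hcomp hone hmul hiv hinn hpre
  obtain ⟨_, ⟨a0, rfl⟩, _, ⟨b0, rfl⟩, hab⟩ := hPair W (range op) hcomp hone hmul hiv hinn hpre
  obtain ⟨K, hK⟩ : ∃ K : Submodule ℂ W, ∀ v, v ∈ K ↔ ∀ a, op a v = v :=
    ⟨{ carrier := {v | ∀ a, op a v = v}
       add_mem' := by
        intro x y hx hy a
        rw [map_add, hx a, hy a]
       zero_mem' := by
        intro a
        exact map_zero _
       smul_mem' := by
        intro c x hx a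
        rw [map_smul, hx a] }, fun v => Iff.rfl⟩
  have hne : ∃ a b : G, LG.dtm (LG.SS K.starProjection (op a) (op b)) ≠ 0 := by
    refine ⟨a0, b0, fun h0 => ?_⟩
    obtain ⟨v, hv0, hv⟩ := LG.dtm_zero h0
    obtain ⟨e1, e2, e3⟩ := LG.ker_SS K (op a0) (op b0) (hno a0) (hno b0) v hv
    have hvK : v ∈ K := (hK v).mpr fun a => hab v e1 e2 (op a) ⟨a, rfl⟩
    rw [Submodule.starProjection_eq_self_iff.mpr hvK] at e3
    exact hv0 e3
  have hk := LG.key ν op hc hm h1 hadj K.starProjection hG hne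
  filter_upwards [hk] with p hp v h1v h2v a
  rw [← happ] at h1v h2v ⊢
  have hKp : K.starProjection v ∈ K := K.starProjection_apply_mem v
  have hPi := (hK _).mp hKp
  have hz : v - K.starProjection v = 0 := by
    by_contra hne0
    apply hp
    refine LG.dtm_zero' hne0 ?_
    have f1 : op p.1 (v - K.starProjection v) = v - K.starProjection v := by
      rw [map_sub, h1v, hPi]
    have f2 : op p.2 (v - K.starProjection v) = v - K.starProjection v := by
      rw [map_sub, h2v, hPi]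
    have f3 : op p.1⁻¹ (v - K.starProjection v) = v - K.starProjection v := by
      conv_lhs => rw [← f1]
      exact hinv' _ _
    have f4 : op p.2⁻¹ (v - K.starProjection v) = v - K.starProjection v := by
      conv_lhs => rw [← f2]
      exact hinv' _ _
    have f5 : K.starProjection (v - K.starProjection v) = 0 := by
      rw [map_sub, Submodule.starProjection_eq_self_iff.mpr hKp, sub_self]
    have e : LG.SS K.starProjection (op p.1) (op p.2) (v - K.starProjection v) =
      (4 : ℂ) • (v - K.starProjection v) - op p.1 (v - K.starProjection v)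
      - ContinuousLinearMap.adjoint (op p.1) (v - K.starProjection v)
      - op p.2 (v - K.starProjection v) -
      ContinuousLinearMap.adjoint (op p.2) (v - K.starProjection v)
      + K.starProjection (v - K.starProjection v) := rfl
    rw [e, hadj, hadj, f1, f2, f3, f4, f5]
    module
  have hv : v ∈ K := by
    rw [sub_eq_zero] at hz
    rw [hz]
    exact hKp
  exact (hK v).mp hv a

end R970.WM
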