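import Pool.Agent.R970.WM.Stm2

/-! # LG: almost every pair is good -/

open MeasureTheory Set Filter Topology

namespace R970.WM

namespace LG

variable {W : Type} [NormedAddCommGroup W] [InnerProductSpace ℂ W] [FiniteDimensional ℂ W]

noncomputable def dtm (F : W →L[ℂ] W) : ℂ := LinearMap.det (F : W →ₗ[ℂ] W)

theorem dtm_diff (F : ℂ → (W →L[ℂ] W)) (hF : Differentiable ℂ F) :
    Differentiable ℂ fun z => dtm (F z) := by
  have e : (fun z => dtm (F z)) =
      fun z => ∑ σ : Equiv.Perm (Fin (Module.finrank ℂ W)), ((Equiv.Perm.sign σ : ℤ) : ℂ) *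
        ∏ i, (Module.finBasis ℂ W).repr (F z ((Module.finBasis ℂ W) i)) (σ i) := by
    funext z
    unfold dtm
    rw [← LinearMap.det_toMatrix (Module.finBasis ℂ W), Matrix.det_apply']
    simp [LinearMap.toMatrix_apply]
  rw [e]
  have h1 : ∀ i j, Differentiable ℂ fun z =>
      (Module.finBasis ℂ W).repr (F z ((Module.finBasis ℂ W) i)) j := by
    intro i j
    have h2 : Differentiable ℂ fun z => F z ((Module.finBasis ℂ W) i) :=
      hF.clm_apply (differentiable_const _)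
    exact (((Module.finBasis ℂ W).coord j).toContinuousLinearMap.differentiable).comp h2
  fun_prop

theorem dtm_cont : Continuous (dtm : (W →L[ℂ] W) → ℂ) := ContinuousLinearMap.continuous_det

theorem dtm_zero {F : W →L[ℂ] W} (h : dtm F = 0) : ∃ v : W, v ≠ 0 ∧ F v = 0 := by
  unfold dtm at h
  obtain ⟨v, hv, hv0⟩ := (Submodule.ne_bot_iff _).mp (LinearMap.det_eq_zero_iff_ker_ne_bot.mp h)
  exact ⟨v, hv0, hv⟩

theorem dtm_zero' {F : W →L[ℂ] W} {v : W} (hv : v ≠ 0) (h : F v = 0) : dtm F = 0 := by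
  unfold dtm
  exact LinearMap.det_eq_zero_iff_ker_ne_bot.mpr ((Submodule.ne_bot_iff _).mpr ⟨v, h, hv⟩)

variable [CompleteSpace W]

noncomputable def SS (Q0 P Q : W →L[ℂ] W) : W →L[ℂ] W :=
  (4 : ℂ) • (1 : W →L[ℂ] W) - P - ContinuousLinearMap.adjoint P - Q -
    ContinuousLinearMap.adjoint Q + Q0

theorem adj_cont : Continuous (fun P : W →L[ℂ] W => ContinuousLinearMap.adjoint P) :=
  (ContinuousLinearMap.adjoint : (W →L[ℂ] W) ≃ₗᵢ⋆[ℂ] (W →L[ℂ] W)).continuous

theorem SS_cont (Q0 : W →L[ℂ] W) :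
    Continuous fun p : (W →L[ℂ] W) × (W →L[ℂ] W) => SS Q0 p.1 p.2 := by
  unfold SS
  have h1 : Continuous fun p : (W →L[ℂ] W) × (W →L[ℂ] W) => ContinuousLinearMap.adjoint p.1 :=
    adj_cont.comp continuous_fst
  have h2 : Continuous fun p : (W →L[ℂ] W) × (W →L[ℂ] W) => ContinuousLinearMap.adjoint p.2 :=
    adj_cont.comp continuous_snd
  exact ((((continuous_const.sub continuous_fst).sub h1).sub continuous_snd).sub h2).add
    continuous_const

theorem SS_symm (Q0 P Q : W →L[ℂ] W) : SS Q0 P Q = SS Q0 Q P := by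
  unfold SS
  abel

theorem ker_SS (K : Submodule ℂ W) (P Q : W →L[ℂ] W) (hP : ∀ v, ‖P v‖ = ‖v‖)
    (hQ : ∀ v, ‖Q v‖ = ‖v‖) (v : W) (h : SS K.starProjection P Q v = 0) :
    P v = v ∧ Q v = v ∧ K.starProjection v = 0 := by
  have h1 : RCLike.re (inner ℂ (SS K.starProjection P Q v) v) = 0 := by rw [h]; simp
  have e : SS K.starProjection P Q v = (4 : ℂ) • v - P v - ContinuousLinearMap.adjoint P v - Q v -
    ContinuousLinearMap.adjoint Q v + K.starProjection v := rfl
  rw [e, inner_add_left, inner_sub_left, inner_sub_left, inner_sub_left, inner_sub_left,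
    inner_smul_left, ContinuousLinearMap.adjoint_inner_left,
    ContinuousLinearMap.adjoint_inner_left] at h1
  have h2 : inner ℂ (K.starProjection v) v = inner ℂ (K.starProjection v) (K.starProjection v) := by
    conv_lhs => rw [← Submodule.starProjection_eq_self_iff.mpr (K.starProjection_apply_mem v)]
    rw [Submodule.inner_starProjection_left_eq_right]
  rw [h2] at h1
  have h3 : RCLike.re (inner ℂ v (P v)) = RCLike.re (inner ℂ (P v) v) := inner_re_symm (𝕜 := ℂ) _ _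
  have h4 : RCLike.re (inner ℂ v (Q v)) = RCLike.re (inner ℂ (Q v) v) := inner_re_symm (𝕜 := ℂ) _ _
  have h5 := norm_sub_sq (𝕜 := ℂ) (P v) v
  have h6 := norm_sub_sq (𝕜 := ℂ) (Q v) v
  rw [hP] at h5
  rw [hQ] at h6
  have h7 : RCLike.re (inner ℂ (K.starProjection v) (K.starProjection v)) =
      ‖K.starProjection v‖ ^ 2 := by
    rw [inner_self_eq_norm_sq_to_K (𝕜 := ℂ)]
    norm_cast
  have h8 : RCLike.re ((starRingEnd ℂ) (4 : ℂ) * inner ℂ v v) = 4 * ‖v‖ ^ 2 := by
    rw [inner_self_eq_norm_sq_to_K (𝕜 := ℂ)]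
    have : (starRingEnd ℂ) (4 : ℂ) = ((4 : ℝ) : ℂ) := by
      have h9 : (4 : ℂ) = ((4 : ℝ) : ℂ) := by norm_num
      rw [h9, Complex.conj_ofReal]
    rw [this]
    have h10 : ((4 : ℝ) : ℂ) * ((‖v‖ : ℝ) : ℂ) ^ 2 = ((4 * ‖v‖ ^ 2 : ℝ) : ℂ) := by push_cast; ring
    exact (congrArg _ h10).trans (Complex.ofReal_re _)
  simp only [map_add, map_sub] at h1
  rw [h7, h8, h3, h4] at h1
  have p1 : 0 ≤ ‖P v - v‖ ^ 2 := by positivity
  have p2 : 0 ≤ ‖Q v - v‖ ^ 2 := by positivity
  have p3 : 0 ≤ ‖K.starProjection v‖ ^ 2 := by positivity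
  have q1 : ‖P v - v‖ ^ 2 = 0 := by linarith
  have q2 : ‖Q v - v‖ ^ 2 = 0 := by linarith
  have q3 : ‖K.starProjection v‖ ^ 2 = 0 := by linarith
  refine ⟨sub_eq_zero.mp (norm_eq_zero.mp (pow_eq_zero_iff (two_ne_zero) |>.mp q1)),
    sub_eq_zero.mp (norm_eq_zero.mp (pow_eq_zero_iff (two_ne_zero) |>.mp q2)),
    norm_eq_zero.mp (pow_eq_zero_iff (two_ne_zero) |>.mp q3)⟩

/-- zero sets along one-parameter groups -/
theorem null_or (Q0 P Q ξ : W →L[ℂ] W)
    (hadj : ∀ t : ℝ, ContinuousLinearMap.adjoint (NormedSpace.exp ((t : ℂ) • ξ)) =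
      NormedSpace.exp ((-(t : ℂ)) • ξ)) :
    (∀ t : ℝ, dtm (SS Q0 (NormedSpace.exp ((t : ℂ) • ξ) * P) Q) = 0) ∨
      volume {t : ℝ | dtm (SS Q0 (NormedSpace.exp ((t : ℂ) • ξ) * P) Q) = 0} = 0 := by
  obtain ⟨H, hH⟩ : ∃ H : ℂ → ℂ, H = fun z => dtm ((4 : ℂ) • (1 : W →L[ℂ] W) -
    NormedSpace.exp (z • ξ) * P - ContinuousLinearMap.adjoint P * NormedSpace.exp ((-z) • ξ) - Q -
    ContinuousLinearMap.adjoint Q + Q0) := ⟨_, rfl⟩
  have hd : Differentiable ℂ H := by
    rw [hH]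
    have h1 : Differentiable ℂ fun z : ℂ => NormedSpace.exp (z • ξ) := fun z =>
      (hasDerivAt_exp_smul_const ξ z).differentiableAt
    have h2 : Differentiable ℂ fun z : ℂ => NormedSpace.exp ((-z) • ξ) :=
      h1.comp differentiable_neg
    exact dtm_diff _ ((((((differentiable_const _).sub (h1.mul (differentiable_const P))).sub
      ((differentiable_const _).mul h2)).sub (differentiable_const Q)).sub
      (differentiable_const _)).add (differentiable_const Q0))
  have heq : ∀ t : ℝ, dtm (SS Q0 (NormedSpace.exp ((t : ℂ) • ξ) * P) Q) = H (t : ℂ) := by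
    intro t
    rw [hH]
    unfold SS
    have : ContinuousLinearMap.adjoint (NormedSpace.exp ((t : ℂ) • ξ) * P) =
        ContinuousLinearMap.adjoint P * NormedSpace.exp ((-(t : ℂ)) • ξ) := by
      rw [← hadj t]
      exact ContinuousLinearMap.adjoint_comp _ _
    rw [this]
  simp only [heq]
  have han : AnalyticOnNhd ℝ (fun t : ℝ => H (t : ℂ)) univ := by
    intro t _
    have h1 : AnalyticAt ℂ H (t : ℂ) := hd.analyticAt _
    have h2 : AnalyticAt ℝ H (t : ℂ) := h1.restrictScalars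
    exact h2.comp (Complex.ofRealCLM.analyticAt t)
  rcases han.eqOn_zero_or_eventually_ne_zero_of_preconnected isPreconnected_univ with h | h
  · left
    intro t
    exact h (mem_univ t)
  · right
    have h1 := ae_restrict_le_codiscreteWithin (μ := (volume : Measure ℝ)) MeasurableSet.univ h
    rw [Measure.restrict_univ] at h1
    have h2 : ∀ᵐ t : ℝ, H (t : ℂ) ≠ 0 := h1
    rw [ae_iff] at h2
    simpa using h2

end LG

end R970.WM
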