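import Pool.Agent.R970.WM.Stm2

open MeasureTheory Set Filter Topology

namespace R970.WM

namespace LIb

/-- if the rank of `A + t Z` never exceeds the rank of `A`, then `Z` maps the kernel of `A` into the
range of `A` -/
theorem mem_range {E F : Type*} [AddCommGroup E] [Module ℂ E] [NormedAddCommGroup F]
    [NormedSpace ℂ F] [FiniteDimensional ℂ F] (A Z : E →ₗ[ℂ] F)
    (h : ∀ t : ℝ, Module.finrank ℂ (LinearMap.range (A + (t : ℂ) • Z)) ≤
      Module.finrank ℂ (LinearMap.range A)) (v : E) (hv : A v = 0) : Z v ∈ LinearMap.range A := by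
  by_contra hc
  let b := Module.finBasis ℂ (LinearMap.range A)
  have he : ∀ i, ∃ e : E, A e = b i := fun i => (b i).2
  choose e he using he
  let f : ℝ → Option (Fin (Module.finrank ℂ (LinearMap.range A))) → F := fun t o =>
    Option.casesOn' o (Z v) (fun i => A (e i) + (t : ℂ) • Z (e i))
  have hf0 : LinearIndependent ℂ (f 0) := by
    have h1 : LinearIndependent ℂ (fun i => A (e i)) := by
      have h2 := b.linearIndependent.map' (LinearMap.range A).subtype (Submodule.ker_subtype _)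
      have h2' : (fun i => A (e i)) = (LinearMap.range A).subtype ∘ b := funext fun i => he i
      rw [h2']
      exact h2
    have h3 : Z v ∉ Submodule.span ℂ (Set.range (fun i => A (e i))) := by
      intro h4
      apply hc
      refine (Submodule.span_le.2 ?_) h4
      rintro _ ⟨i, rfl⟩
      exact ⟨e i, rfl⟩
    have h5 := linearIndependent_option'.2 ⟨h1, h3⟩
    have h6 : f 0 = fun o => Option.casesOn' o (Z v) (fun i => A (e i)) := by
      funext o
      cases o with
      | none => rfl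
      | some i => simp [f]
    rw [h6]
    exact h5
  have hcont : Continuous f := by
    refine continuous_pi fun o => ?_
    cases o with
    | none => exact continuous_const
    | some i =>
      simp only [f, Option.casesOn'_some]
      exact continuous_const.add ((Complex.continuous_ofReal).smul continuous_const)
  have hev : ∀ᶠ t in 𝓝 (0 : ℝ), LinearIndependent ℂ (f t) :=
    hcont.continuousAt.eventually (isOpen_setOf_linearIndependent.mem_nhds hf0)
  have hev' : ∀ᶠ t in 𝓝[≠] (0 : ℝ), LinearIndependent ℂ (f t) ∧ t ≠ 0 :=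
    (hev.filter_mono nhdsWithin_le_nhds).and self_mem_nhdsWithin
  obtain ⟨t, ht, ht0⟩ := hev'.exists
  have ht0' : (t : ℂ) ≠ 0 := by exact_mod_cast ht0
  have hmem : ∀ o, f t o ∈ LinearMap.range (A + (t : ℂ) • Z) := by
    intro o
    cases o with
    | none =>
      refine ⟨(t : ℂ)⁻¹ • v, ?_⟩
      simp only [LinearMap.add_apply, LinearMap.smul_apply, map_smul, hv, smul_zero, zero_add, f,
        Option.casesOn'_none]
      rw [smul_smul]
      first
        | rw [mul_inv_cancel₀ ht0', one_smul]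
        | rw [inv_mul_cancel₀ ht0', one_smul]
    | some i => exact ⟨e i, by simp [f]⟩
  have hli : LinearIndependent ℂ (fun o => (⟨f t o, hmem o⟩ : LinearMap.range (A + (t : ℂ) • Z))) :=
    LinearIndependent.of_comp (LinearMap.range (A + (t : ℂ) • Z)).subtype ht
  have hcard := hli.fintype_card_le_finrank
  rw [Fintype.card_option, Fintype.card_fin] at hcard
  have := h t
  omega

/-- an element of a set maximising a bounded function -/
theorem exists_max {X : Type*} (s : Set X) (hs : s.Nonempty) (f : X → ℕ) (B : ℕ)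
    (hB : ∀ x ∈ s, f x ≤ B) : ∃ x ∈ s, ∀ y ∈ s, f y ≤ f x := by
  obtain ⟨m, ⟨x, hx, rfl⟩, hmin⟩ := (wellFounded_lt (α := ℕ)).has_min
    ((fun x => B - f x) '' s) (hs.image _)
  refine ⟨x, hx, fun y hy => ?_⟩
  have h1 := hmin _ ⟨y, hy, rfl⟩
  have := hB x hx
  have := hB y hy
  simp only at h1
  omega

end LIb

open LIb in
theorem lin : Stm.lin := by
  intro W _ _ _ 𝔤 h0 hadd hsmul hbr hskew
  -- the first element
  obtain ⟨ξ, hξ, hξm⟩ := exists_max 𝔤 ⟨0, h0⟩
    (fun ξ : W →L[ℂ] W => Module.finrank ℂ (LinearMap.range (ξ : W →ₗ[ℂ] W))) (Module.finrank ℂ W)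
    (fun x _ => Submodule.finrank_le _)
  let V0 : Submodule ℂ W := LinearMap.ker (ξ : W →ₗ[ℂ] W)
  have h1 : ∀ ζ ∈ 𝔤, ∀ v u : W, ξ v = 0 → ξ u = 0 → inner ℂ (ζ v) u = 0 := by
    intro ζ hζ v u hv hu
    have h2 : (ζ : W →ₗ[ℂ] W) v ∈ LinearMap.range (ξ : W →ₗ[ℂ] W) := by
      refine mem_range (ξ : W →ₗ[ℂ] W) (ζ : W →ₗ[ℂ] W) ?_ v hv
      intro t
      exact hξm (ξ + (t : ℂ) • ζ) (hadd _ hξ _ (hsmul _ hζ t))
    obtain ⟨w, hw⟩ := h2
    have hw' : ξ w = ζ v := hw
    rw [← hw', hskew ξ hξ, hu, inner_zero_right, neg_zero]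
  -- the second element
  obtain ⟨η, hη, hηm⟩ := exists_max 𝔤 ⟨0, h0⟩
    (fun η : W →L[ℂ] W => Module.finrank ℂ (LinearMap.range ((η : W →ₗ[ℂ] W).comp V0.subtype)))
    (Module.finrank ℂ W) (fun x _ => Submodule.finrank_le _)
  refine ⟨ξ, hξ, η, hη, fun v hv1 hv2 ζ hζ => ?_⟩
  have h3 : ((ζ : W →ₗ[ℂ] W).comp V0.subtype) ⟨v, hv1⟩ ∈
      LinearMap.range ((η : W →ₗ[ℂ] W).comp V0.subtype) := by
    refine mem_range ((η : W →ₗ[ℂ] W).comp V0.subtype) ((ζ : W →ₗ[ℂ] W).comp V0.subtype) ?_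
      ⟨v, hv1⟩ hv2
    intro t
    exact hηm (η + (t : ℂ) • ζ) (hadd _ hη _ (hsmul _ hζ t))
  obtain ⟨⟨u, hu⟩, hw⟩ := h3
  have hw' : η u = ζ v := hw
  have hu' : ξ u = 0 := hu
  have h4 : inner ℂ ((η * ζ - ζ * η) v) u = 0 := h1 _ (hbr _ hη _ hζ) v u hv1 hu'
  have h5 : (η * ζ - ζ * η) v = η (ζ v) := by
    simp [hv2]
  rw [h5, hskew η hη, hw', neg_eq_zero, inner_self_eq_zero] at h4
  exact h4

end R970.WM
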