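import Pool.Agent.R970.WM.Stm2

open MeasureTheory Set Filter Topology

namespace R970.WM.LSb

variable {W : Type} [NormedAddCommGroup W] [InnerProductSpace ℂ W] [FiniteDimensional ℂ W]

/-- one-parameter group -/
noncomputable def e (X : W →L[ℂ] W) (s : ℝ) : W →L[ℂ] W := NormedSpace.exp ((s : ℂ) • X)

instance complA : CompleteSpace (W →L[ℂ] W) := FiniteDimensional.complete ℂ _

lemma e_zero (X : W →L[ℂ] W) : e X 0 = 1 := by
  unfold e
  rw [Complex.ofReal_zero, zero_smul, NormedSpace.exp_zero]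

lemma e_add (X : W →L[ℂ] W) (s t : ℝ) : e X (s + t) = e X s * e X t := by
  let +nondep : NormedAlgebra ℚ (W →L[ℂ] W) := .restrictScalars ℚ ℂ _
  unfold e
  rw [Complex.ofReal_add, add_smul]
  exact NormedSpace.exp_add_of_commute (((Commute.refl X).smul_left _).smul_right _)

lemma e_nat (X : W →L[ℂ] W) (s : ℝ) (k : ℕ) : e X (k * s) = (e X s) ^ k := by
  induction k with
  | zero => simp [e_zero]
  | succ k ih =>
    rw [pow_succ, ← ih, ← e_add]
    congr 1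
    push_cast
    ring

lemma e_deriv (X : W →L[ℂ] W) (s : ℝ) : HasDerivAt (e X) (e X s * X) s := by
  have h1 : HasDerivAt (fun u : ℂ => NormedSpace.exp (u • X)) (NormedSpace.exp ((s : ℂ) • X) * X)
      (s : ℂ) := hasDerivAt_exp_smul_const X (s : ℂ)
  have h2 : HasDerivAt (fun r : ℝ => (r : ℂ)) 1 s := Complex.ofRealCLM.hasDerivAt
  have h3 := HasDerivAt.scomp s h1 h2
  rw [one_smul] at h3
  exact h3

lemma e_cont (X : W →L[ℂ] W) : Continuous (e X) :=
  continuous_iff_continuousAt.mpr fun s => (e_deriv X s).continuousAt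

lemma e_smul (X : W →L[ℂ] W) (c s : ℝ) : e ((c : ℂ) • X) s = e X (s * c) := by
  unfold e
  rw [smul_smul, Complex.ofReal_mul]

/-- telescoping -/
lemma tele (A B : W →L[ℂ] W) (M : ℝ) (hA : ‖A‖ ≤ 1) (n : ℕ) (hB : ∀ j ≤ n, ‖B ^ j‖ ≤ M) :
    ∀ k ≤ n, ‖A ^ k - B ^ k‖ ≤ k * (‖A - B‖ * M) := by
  intro k
  induction k with
  | zero => intro _; simp
  | succ k ih =>
    intro hk
    have h1 := ih (by omega)
    have h2 := hB k (by omega)
    have e1 : A ^ (k + 1) - B ^ (k + 1) = A * (A ^ k - B ^ k) + (A - B) * B ^ k := by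
      rw [pow_succ', pow_succ']
      noncomm_ring
    rw [e1]
    have hM : 0 ≤ ‖A ^ k - B ^ k‖ := norm_nonneg _
    calc ‖A * (A ^ k - B ^ k) + (A - B) * B ^ k‖
        ≤ ‖A * (A ^ k - B ^ k)‖ + ‖(A - B) * B ^ k‖ := norm_add_le _ _
      _ ≤ ‖A‖ * ‖A ^ k - B ^ k‖ + ‖A - B‖ * ‖B ^ k‖ :=
          add_le_add (norm_mul_le _ _) (norm_mul_le _ _)
      _ ≤ 1 * (k * (‖A - B‖ * M)) + ‖A - B‖ * M := by
          refine add_le_add ?_ (mul_le_mul_of_nonneg_left h2 (norm_nonneg _))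
          exact mul_le_mul hA h1 hM zero_le_one
      _ = ((k + 1 : ℕ) : ℝ) * (‖A - B‖ * M) := by
          push_cast
          ring

lemma norm_le_one (A : W →L[ℂ] W) (h : ∀ v w : W, inner ℂ (A v) (A w) = inner ℂ v w) :
    ‖A‖ ≤ 1 := by
  refine ContinuousLinearMap.opNorm_le_bound _ zero_le_one (fun v => ?_)
  have h1 := h v v
  rw [inner_self_eq_norm_sq_to_K, inner_self_eq_norm_sq_to_K] at h1
  have h2 : ‖A v‖ ^ 2 = ‖v‖ ^ 2 := by exact_mod_cast h1
  have h3 : ‖A v‖ = ‖v‖ := (pow_left_inj₀ (norm_nonneg _) (norm_nonneg _) two_ne_zero).mp h2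
  rw [h3, one_mul]

lemma pow_mem' (Γ : Set (W →L[ℂ] W)) (h1 : 1 ∈ Γ) (hm : ∀ x ∈ Γ, ∀ y ∈ Γ, x * y ∈ Γ)
    (A : W →L[ℂ] W) (hA : A ∈ Γ) (k : ℕ) : A ^ k ∈ Γ := by
  induction k with
  | zero => simpa using h1
  | succ k ih => rw [pow_succ]; exact hm _ ih _ hA

/-- product formula, membership form -/
lemma sum_mem (Γ : Set (W →L[ℂ] W)) (hc : IsClosed Γ) (h1 : 1 ∈ Γ)
    (hm : ∀ x ∈ Γ, ∀ y ∈ Γ, x * y ∈ Γ)
    (hiso : ∀ x ∈ Γ, ∀ v w : W, inner ℂ (x v) (x w) = inner ℂ v w) (X Y : W →L[ℂ] W)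
    (hX : ∀ t, e X t ∈ Γ) (hY : ∀ t, e Y t ∈ Γ) (t : ℝ) : e (X + Y) t ∈ Γ := by
  rcases eq_or_ne t 0 with rfl | ht
  · rw [e_zero]; exact h1
  obtain ⟨M, hM⟩ := (isCompact_Icc (a := -|t|) (b := |t|)).exists_bound_of_continuousOn
    (e_cont (X + Y)).continuousOn
  have hf : HasDerivAt (fun s => e X s * e Y s - e (X + Y) s) 0 0 := by
    have := ((e_deriv X 0).mul (e_deriv Y 0)).sub (e_deriv (X + Y) 0)
    simp only [e_zero, one_mul, mul_one] at this
    rwa [sub_self] at this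
  have hs := hasDerivAt_iff_tendsto_slope_zero.mp hf
  have hk : Tendsto (fun k : ℕ => t / ((k : ℝ) + 1)) atTop (𝓝[≠] 0) := by
    rw [tendsto_nhdsWithin_iff]
    refine ⟨?_, Eventually.of_forall fun k => ?_⟩
    · have := (tendsto_one_div_add_atTop_nhds_zero_nat (𝕜 := ℝ)).const_mul t
      rw [mul_zero] at this
      refine this.congr (fun k => ?_)
      ring
    · have : ((k : ℝ) + 1) ≠ 0 := by positivity
      exact div_ne_zero ht this
  have hs2 := (hs.comp hk).norm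
  have hbound : ∀ k : ℕ, ‖(e X (t / ((k : ℝ) + 1)) * e Y (t / ((k : ℝ) + 1))) ^ (k + 1) -
      e (X + Y) t‖ ≤ |t| * M * ‖(t / ((k : ℝ) + 1))⁻¹ •
        ((e X (0 + t / ((k : ℝ) + 1)) * e Y (0 + t / ((k : ℝ) + 1)) -
          e (X + Y) (0 + t / ((k : ℝ) + 1))) - (e X 0 * e Y 0 - e (X + Y) 0))‖ := by
    intro k
    have hk1 : (0 : ℝ) < (k : ℝ) + 1 := by positivity
    set s := t / ((k : ℝ) + 1) with hsdef
    have hst : ((k + 1 : ℕ) : ℝ) * s = t := by
      rw [hsdef]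
      push_cast
      field_simp
    have hB : ∀ j ≤ k + 1, ‖(e (X + Y) s) ^ j‖ ≤ M := by
      intro j hj
      rw [← e_nat]
      apply hM
      rw [Set.mem_Icc, ← abs_le, abs_mul, Nat.abs_cast, hsdef, abs_div, abs_of_pos hk1]
      have hj' : (j : ℝ) ≤ (k : ℝ) + 1 := by exact_mod_cast hj
      rw [mul_div_assoc']
      rw [div_le_iff₀ hk1, mul_comm]
      exact mul_le_mul_of_nonneg_left hj' (abs_nonneg t)
    have hA := norm_le_one _ (hiso _ (hm _ (hX s) _ (hY s)))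
    have h2 := tele (e X s * e Y s) (e (X + Y) s) M hA (k + 1) hB (k + 1) le_rfl
    rw [← e_nat (X + Y) s (k + 1), hst] at h2
    refine h2.trans (le_of_eq ?_)
    rw [zero_add, e_zero, e_zero, e_zero, mul_one, sub_self, sub_zero, norm_smul, norm_inv,
      Real.norm_eq_abs]
    have h3 : ((k + 1 : ℕ) : ℝ) * |s| = |t| := by
      rw [← hst, abs_mul, Nat.abs_cast]
    rw [← h3]
    have hs0 : |s| ≠ 0 := by
      rw [abs_ne_zero, hsdef]
      exact div_ne_zero ht hk1.ne'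
    field_simp
  have hlim : Tendsto (fun k : ℕ => (e X (t / ((k : ℝ) + 1)) * e Y (t / ((k : ℝ) + 1))) ^ (k + 1))
      atTop (𝓝 (e (X + Y) t)) := by
    rw [tendsto_iff_norm_sub_tendsto_zero]
    refine squeeze_zero (fun k => norm_nonneg _) hbound ?_
    have h4 := hs2.const_mul (|t| * M)
    rw [norm_zero, mul_zero] at h4
    exact h4
  exact hc.mem_of_tendsto hlim (Eventually.of_forall fun k =>
    pow_mem' Γ h1 hm _ (hm _ (hX _) _ (hY _)) _)

lemma conj_e (X Y : W →L[ℂ] W) (s t : ℝ) :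
    e (e X s * Y * e X (-s)) t = e X s * e Y t * e X (-s) := by
  have h1 : e X s * e X (-s) = 1 := by rw [← e_add, add_neg_cancel, e_zero]
  have h2 : e X (-s) * e X s = 1 := by rw [← e_add, neg_add_cancel, e_zero]
  let +nondep : NormedAlgebra ℚ (W →L[ℂ] W) := .restrictScalars ℚ ℂ _
  let u : (W →L[ℂ] W)ˣ := ⟨e X s, e X (-s), h1, h2⟩
  have h3 := NormedSpace.exp_units_conj u ((t : ℂ) • Y)
  have hu : (u : W →L[ℂ] W) = e X s := rfl
  have hu' : ((u⁻¹ : (W →L[ℂ] W)ˣ) : W →L[ℂ] W) = e X (-s) := rfl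
  rw [hu, hu', mul_smul_comm, smul_mul_assoc] at h3
  exact h3

end R970.WM.LSb

namespace R970.WM

open R970.WM.LSb

theorem lieSub : Stm.lieSub := by
  intro W _ _ _ Γ hΓ h1 hm hinv hiso
  have hc : IsClosed Γ := hΓ.isClosed
  have hmem : ∀ ξ : W →L[ℂ] W, ξ ∈ lieOf Γ ↔ ∀ t, e ξ t ∈ Γ := fun ξ => Iff.rfl
  have hadd : ∀ ξ ∈ lieOf Γ, ∀ η ∈ lieOf Γ, ξ + η ∈ lieOf Γ := fun ξ hξ η hη =>
    sum_mem Γ hc h1 hm hiso ξ η hξ hη
  have hsm : ∀ ξ ∈ lieOf Γ, ∀ c : ℝ, (c : ℂ) • ξ ∈ lieOf Γ := by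
    intro ξ hξ c
    rw [hmem] at hξ ⊢
    intro t
    rw [e_smul]
    exact hξ _
  have hcl : IsClosed (lieOf Γ) := by
    have : lieOf Γ = ⋂ t : ℝ, (fun ξ : W →L[ℂ] W => NormedSpace.exp ((t : ℂ) • ξ)) ⁻¹' Γ := by
      ext ξ
      simp [lieOf]
    rw [this]
    let +nondep : NormedAlgebra ℚ (W →L[ℂ] W) := .restrictScalars ℚ ℂ _
    refine isClosed_iInter (fun t => hc.preimage ?_)
    exact NormedSpace.exp_continuous.comp (continuous_const_smul _)
  refine ⟨?_, hadd, hsm, ?_, ?_⟩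
  · intro t
    rw [smul_zero, NormedSpace.exp_zero]
    exact h1
  · intro ξ hξ η hη
    have hconj : ∀ s : ℝ, e ξ s * η * e ξ (-s) ∈ lieOf Γ := by
      intro s
      rw [hmem]
      intro t
      rw [conj_e]
      exact hm _ (hm _ (hξ s) _ (hη t)) _ (hξ (-s))
    have hder : HasDerivAt (fun s : ℝ => e ξ s * η * e ξ (-s)) (ξ * η - η * ξ) 0 := by
      have hneg : HasDerivAt (fun s : ℝ => e ξ (-s)) (-(e ξ (-0) * ξ)) 0 := by
        have := HasDerivAt.scomp (0 : ℝ) (e_deriv ξ (-0)) (hasDerivAt_neg (0 : ℝ))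
        rw [neg_smul, one_smul] at this
        exact this
      have := ((e_deriv ξ 0).mul_const η).mul hneg
      simp only [e_zero, neg_zero, one_mul, mul_one] at this
      have h' : ξ * η - η * ξ = ξ * η + η * -ξ := by rw [mul_neg, sub_eq_add_neg]
      rw [h']
      exact this
    have hs := hasDerivAt_iff_tendsto_slope_zero.mp hder
    refine hcl.mem_of_tendsto hs (Eventually.of_forall fun s => ?_)
    have hsub : (e ξ (0 + s) * η * e ξ (-(0 + s)) - e ξ 0 * η * e ξ (-0)) ∈ lieOf Γ := by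
      have h2 := hsm _ (hconj 0) (-1)
      have h3 := hadd _ (hconj (0 + s)) _ h2
      convert h3 using 1
      rw [sub_eq_add_neg]
      congr 1
      simp
    have h4 := hsm _ hsub s⁻¹
    rw [Complex.coe_smul] at h4
    exact h4
  · intro ξ hξ v w
    have hev : ∀ u : W, HasDerivAt (fun s : ℝ => e ξ s u) (ξ u) 0 := by
      intro u
      have h2 := e_deriv ξ 0
      rw [e_zero, one_mul] at h2
      exact (((ContinuousLinearMap.apply ℂ W u).restrictScalars ℝ).hasFDerivAt).comp_hasDerivAt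
        (0 : ℝ) h2
    have h3 := HasDerivAt.inner ℂ (hev v) (hev w)
    have h4 : (fun s : ℝ => inner ℂ (e ξ s v) (e ξ s w)) = fun _ => inner ℂ v w :=
      funext fun s => hiso _ (hξ s) v w
    rw [h4] at h3
    have h5 := h3.unique (hasDerivAt_const (0 : ℝ) (inner ℂ v w))
    rw [e_zero] at h5
    simp only [one_apply_eq_self] at h5
    rw [add_comm] at h5
    exact eq_neg_of_add_eq_zero_left h5

end R970.WM
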