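import Pool.Agent.R970.WM.Stm2

set_option autoImplicit false

open MeasureTheory Set Filter Topology
open scoped ComplexConjugate

namespace R970.WM

lemma nEb_int {Z : Type*} [MeasurableSpace Z] (μ : Measure Z) [IsFiniteMeasure μ] {φ : Z → ℂ}
    (hφ : Measurable φ) {C : ℝ} (hC : ∀ z, ‖φ z‖ ≤ C) : Integrable φ μ :=
  Integrable.of_bound hφ.aestronglyMeasurable C (Eventually.of_forall hC)

section NE

variable {G : Type} [Group G] [TopologicalSpace G] [IsTopologicalGroup G] [CompactSpace G]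
  [ConnectedSpace G] [T2Space G] [SecondCountableTopology G] [MeasurableSpace G] [BorelSpace G]
  (ν : Measure G) [IsProbabilityMeasure ν] [ν.IsHaarMeasure]

omit [IsTopologicalGroup G] [ConnectedSpace G] [T2Space G] [SecondCountableTopology G]
  [MeasurableSpace G] [BorelSpace G] in
lemma nEb_bd {u : G → ℂ} (hu : Continuous u) : ∃ B : ℝ, 0 ≤ B ∧ ∀ y, ‖u y‖ ≤ B := by
  obtain ⟨B, hB⟩ := isCompact_univ.exists_bound_of_continuousOn (f := u) hu.continuousOn
  exact ⟨B, (norm_nonneg _).trans (hB 1 trivial), fun y => hB y trivial⟩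

lemma nEb_zero {ψ : G → ℂ} (hψ : Measurable ψ) {C : ℝ} (hC : ∀ z, ‖ψ z‖ ≤ C)
    (h : ∀ u : G → ℂ, Continuous u → ∫ y, ψ y * conj (u y) ∂ν = 0) : ∀ᵐ y ∂ν, ψ y = 0 := by
  have hC0 : 0 ≤ C := (norm_nonneg _).trans (hC 1)
  have hI : Integrable ψ ν := nEb_int ν hψ hC
  have hcm : Measurable fun y => conj (ψ y) := Complex.continuous_conj.measurable.comp hψ
  have key : ∫ y, ‖ψ y‖ ^ 2 ∂ν = 0 := by
    refine le_antisymm (le_of_forall_pos_le_add fun ε hε => ?_)
      (integral_nonneg fun _ => sq_nonneg _)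
    obtain ⟨u, hu, hui⟩ := hI.exists_boundedContinuous_integral_sub_le
      (ε := ε / (C + 1)) (by positivity)
    have hum : Measurable (fun y => u y) := u.continuous.measurable
    have hcu : Measurable fun y => conj (u y) := Complex.continuous_conj.measurable.comp hum
    obtain ⟨B, hB0, hB⟩ := nEb_bd (u := fun y => u y) u.continuous
    have i1 : Integrable (fun y => ψ y * conj (ψ y - u y)) ν := by
      refine nEb_int ν (C := C * (C + B)) ?_ ?_
      · exact hψ.mul (Complex.continuous_conj.measurable.comp (hψ.sub hum))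
      · intro y
        rw [norm_mul, RCLike.norm_conj]
        exact mul_le_mul (hC y) ((norm_sub_le _ _).trans (add_le_add (hC y) (hB y)))
          (norm_nonneg _) hC0
    have i2 : Integrable (fun y => ψ y * conj (u y)) ν := by
      refine nEb_int ν (C := C * B) (hψ.mul hcu) ?_
      intro y
      rw [norm_mul, RCLike.norm_conj]
      exact mul_le_mul (hC y) (hB y) (norm_nonneg _) hC0
    have e : ((∫ y, ‖ψ y‖ ^ 2 ∂ν : ℝ) : ℂ) = ∫ y, ψ y * conj (ψ y - u y) ∂ν := by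
      have h1 := h u u.continuous
      have h2 : ∀ y, ((‖ψ y‖ ^ 2 : ℝ) : ℂ) = ψ y * conj (ψ y - u y) + ψ y * conj (u y) := by
        intro y
        rw [map_sub, mul_sub, sub_add_cancel, Complex.mul_conj, Complex.normSq_eq_norm_sq]
      rw [← integral_complex_ofReal]
      simp_rw [h2]
      rw [integral_add i1 i2, h1, add_zero]
    have h3 : ‖∫ y, ψ y * conj (ψ y - u y) ∂ν‖ ≤ C * (ε / (C + 1)) := by
      calc ‖∫ y, ψ y * conj (ψ y - u y) ∂ν‖ ≤ ∫ y, ‖ψ y * conj (ψ y - u y)‖ ∂ν :=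
            norm_integral_le_integral_norm _
        _ ≤ ∫ y, C * ‖ψ y - u y‖ ∂ν := by
            refine integral_mono i1.norm ((hI.sub hui).norm.const_mul C) fun y => ?_
            show ‖ψ y * conj (ψ y - u y)‖ ≤ C * ‖ψ y - u y‖
            rw [norm_mul, RCLike.norm_conj]
            exact mul_le_mul_of_nonneg_right (hC y) (norm_nonneg _)
        _ = C * ∫ y, ‖ψ y - u y‖ ∂ν := integral_const_mul _ _
        _ ≤ _ := mul_le_mul_of_nonneg_left hu hC0
    have h4 : ∫ y, ‖ψ y‖ ^ 2 ∂ν ≤ C * (ε / (C + 1)) := by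
      have h5 : ‖((∫ y, ‖ψ y‖ ^ 2 ∂ν : ℝ) : ℂ)‖ = ∫ y, ‖ψ y‖ ^ 2 ∂ν := by
        rw [Complex.norm_real, Real.norm_eq_abs,
          abs_of_nonneg (integral_nonneg fun _ => sq_nonneg _)]
      rw [← h5, e]
      exact h3
    have h6 : C * (ε / (C + 1)) ≤ ε := by
      rw [mul_div_assoc', div_le_iff₀ (by positivity)]
      nlinarith
    linarith
  have hsq : Integrable (fun y => ‖ψ y‖ ^ 2) ν := by
    refine Integrable.of_bound (hψ.norm.pow_const 2).aestronglyMeasurable (C ^ 2)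
      (Eventually.of_forall fun y => ?_)
    rw [Real.norm_eq_abs, abs_of_nonneg (sq_nonneg _)]
    exact pow_le_pow_left₀ (norm_nonneg _) (hC y) 2
  have := (integral_eq_zero_iff_of_nonneg (fun y => sq_nonneg ‖ψ y‖) hsq).1 key
  filter_upwards [this] with y hy
  have h7 : ‖ψ y‖ ^ 2 = 0 := hy
  exact norm_eq_zero.1 (pow_eq_zero_iff (two_ne_zero) |>.1 h7)

lemma nEb_gen {χ : G → ℂ} (hχ : Measurable χ) {D : ℝ} (hD : ∀ z, ‖χ z‖ ≤ D)
    (hh : ∀ u : G → ℂ, Continuous u → ∀ a : G,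
      ∫ y, χ y * conj (u (a⁻¹ * y)) ∂ν = ∫ y, χ y * conj (u y) ∂ν)
    {u : G → ℂ} (hu : Continuous u) :
    ∫ y, χ y * conj (u y) ∂ν = (∫ y, χ y ∂ν) * ∫ a, conj (u a⁻¹) ∂ν := by
  obtain ⟨B, hB0, hB⟩ := nEb_bd hu
  have hD0 : 0 ≤ D := (norm_nonneg _).trans (hD 1)
  have hI : Integrable (Function.uncurry fun (a : G) (y : G) => χ y * conj (u (a⁻¹ * y)))
      (ν.prod ν) := by
    refine nEb_int _ (C := D * B) ?_ ?_
    · refine (hχ.comp measurable_snd).mul (Complex.continuous_conj.measurable.comp ?_)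
      exact hu.measurable.comp ((continuous_fst.inv.mul continuous_snd).measurable)
    · rintro ⟨a, y⟩
      show ‖χ y * conj (u (a⁻¹ * y))‖ ≤ D * B
      rw [norm_mul, RCLike.norm_conj]
      exact mul_le_mul (hD y) (hB _) (norm_nonneg _) hD0
  calc ∫ y, χ y * conj (u y) ∂ν = ∫ _a : G, (∫ y, χ y * conj (u y) ∂ν) ∂ν := by simp
    _ = ∫ a, ∫ y, χ y * conj (u (a⁻¹ * y)) ∂ν ∂ν := by simp_rw [hh u hu]
    _ = ∫ y, ∫ a, χ y * conj (u (a⁻¹ * y)) ∂ν ∂ν := integral_integral_swap hI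
    _ = ∫ y, χ y * ∫ a, conj (u a⁻¹) ∂ν ∂ν := by
        refine integral_congr_ae (Eventually.of_forall fun y => ?_)
        show ∫ a, χ y * conj (u (a⁻¹ * y)) ∂ν = χ y * ∫ a, conj (u a⁻¹) ∂ν
        rw [integral_const_mul]
        congr 1
        rw [← integral_mul_left_eq_self (fun a => conj (u (a⁻¹ * y))) y]
        refine integral_congr_ae (Eventually.of_forall fun a => ?_)
        show conj (u ((y * a)⁻¹ * y)) = conj (u a⁻¹)
        congr 2
        group
    _ = _ := integral_mul_const _ _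

lemma nEb_const {φ : G → ℂ} (hφ : Measurable φ) {C : ℝ} (hC : ∀ z, ‖φ z‖ ≤ C)
    (h : ∀ u : G → ℂ, Continuous u → ∀ a : G,
      ∫ y, φ y * conj (u (a⁻¹ * y)) ∂ν = ∫ y, φ y * conj (u y) ∂ν) :
    ∀ᵐ y ∂ν, φ y = ∫ z, φ z ∂ν := by
  have hI : Integrable φ ν := nEb_int ν hφ hC
  have h0 : ∀ᵐ y ∂ν, φ y - ∫ z, φ z ∂ν = 0 := by
    refine nEb_zero ν (C := C + ‖∫ z, φ z ∂ν‖) (hφ.sub measurable_const)
      (fun z => (norm_sub_le _ _).trans (by gcongr; exact hC z)) fun u hu => ?_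
    obtain ⟨B, hB0, hB⟩ := nEb_bd hu
    have hcu : Measurable fun y => conj (u y) :=
      Complex.continuous_conj.measurable.comp hu.measurable
    have hC0 : 0 ≤ C := (norm_nonneg _).trans (hC 1)
    have i1 : Integrable (fun y => φ y * conj (u y)) ν := by
      refine nEb_int ν (C := C * B) (hφ.mul hcu) fun y => ?_
      rw [norm_mul, RCLike.norm_conj]
      exact mul_le_mul (hC y) (hB y) (norm_nonneg _) hC0
    have i2 : Integrable (fun y => conj (u y)) ν :=
      nEb_int ν (C := B) hcu fun y => by rw [RCLike.norm_conj]; exact hB y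
    have e1 := nEb_gen ν hφ hC h hu
    have e2 : ∫ y, conj (u y) ∂ν = ∫ a, conj (u a⁻¹) ∂ν := by
      have := nEb_gen ν (χ := fun _ => 1) measurable_const (D := 1) (fun _ => by simp)
        (fun u _ a => by
          simp only [one_mul]
          exact integral_mul_left_eq_self (fun y => conj (u y)) a⁻¹) hu
      simpa using this
    simp_rw [sub_mul]
    rw [integral_sub i1 (i2.const_mul _), integral_const_mul, e1, e2, sub_self]
  filter_upwards [h0] with y hy
  exact sub_eq_zero.1 hy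

/-- Fourier coefficients. -/
noncomputable def nEbA {N : ℕ} (e : Fin N → G → ℂ) (φ : G → ℂ) : EuclideanSpace ℂ (Fin N) :=
  WithLp.toLp 2 (fun j => ∫ y, φ y * conj (e j y) ∂ν)

lemma nEbA_shift {N : ℕ} {e : Fin N → G → ℂ} (he : ∀ j, Continuous (e j))
    {R : G →* (EuclideanSpace ℂ (Fin N) ≃ₗᵢ[ℂ] EuclideanSpace ℂ (Fin N))}
    (hR : ∀ (a : G) j (y : G), e j (a⁻¹ * y) =
      ∑ l, (R a (EuclideanSpace.single j 1)) l * e l y)
    {φ : G → ℂ} (hφ : Measurable φ) {C : ℝ} (hC : ∀ z, ‖φ z‖ ≤ C) (a : G) (j : Fin N) :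
    ∫ y, φ y * conj (e j (a⁻¹ * y)) ∂ν = (R a⁻¹ (nEbA ν e φ)) j := by
  have hC0 : 0 ≤ C := (norm_nonneg _).trans (hC 1)
  set v := nEbA ν e φ with hv
  have h1 : (R a⁻¹ v) j = inner ℂ (EuclideanSpace.single j (1 : ℂ)) (R a⁻¹ v) := by
    simp [EuclideanSpace.inner_single_left]
  have h2 : R a (R a⁻¹ v) = v := by
    have : R a * R a⁻¹ = 1 := by rw [← map_mul, mul_inv_cancel, map_one]
    calc R a (R a⁻¹ v) = (R a * R a⁻¹) v := rfl
      _ = v := by rw [this]; rfl
  rw [h1, ← (R a).inner_map_map, h2, PiLp.inner_apply]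
  simp_rw [hR, map_sum, map_mul, Finset.mul_sum]
  rw [integral_finsetSum]
  · refine Finset.sum_congr rfl fun l _ => ?_
    have h3 : v l = ∫ y, φ y * conj (e l y) ∂ν := rfl
    rw [RCLike.inner_apply, h3]
    rw [← integral_mul_const]
    refine integral_congr_ae (Eventually.of_forall fun y => ?_)
    show φ y * (conj ((R a (EuclideanSpace.single j 1)) l) * conj (e l y)) =
      φ y * conj (e l y) * conj ((R a (EuclideanSpace.single j 1)) l)
    ring
  · intro l _
    obtain ⟨B, hB0, hB⟩ := nEb_bd (he l)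
    refine nEb_int ν (C := C * (‖(R a (EuclideanSpace.single j 1)) l‖ * B)) ?_ fun y => ?_
    · exact hφ.mul (measurable_const.mul (Complex.continuous_conj.measurable.comp
        (he l).measurable))
    · rw [norm_mul, norm_mul, RCLike.norm_conj, RCLike.norm_conj]
      exact mul_le_mul (hC y) (mul_le_mul_of_nonneg_left (hB y) (norm_nonneg _))
        (by positivity) hC0

lemma nEb_i2 {φ : G → ℂ} (hφ : Measurable φ) {C : ℝ} (hC : ∀ z, ‖φ z‖ ≤ C) {u : G → ℂ}
    (hu : Continuous u) : Integrable (fun y => φ y * conj (u y)) ν := by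
  have hC0 : 0 ≤ C := (norm_nonneg _).trans (hC 1)
  obtain ⟨B, hB0, hB⟩ := nEb_bd hu
  refine nEb_int ν (C := C * B)
    (hφ.mul (Complex.continuous_conj.measurable.comp hu.measurable)) fun y => ?_
  rw [norm_mul, RCLike.norm_conj]
  exact mul_le_mul (hC y) (hB y) (norm_nonneg _) hC0

lemma nEb_fix {Nn : ℕ → ℕ} {e : ∀ k, Fin (Nn k) → G → ℂ}
    {R : ∀ k, G →* (EuclideanSpace ℂ (Fin (Nn k)) ≃ₗᵢ[ℂ] EuclideanSpace ℂ (Fin (Nn k)))}
    (he : ∀ k j, Continuous (e k j))
    (hR : ∀ k (a : G) j (y : G), e k j (a⁻¹ * y) =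
      ∑ l, (R k a (EuclideanSpace.single j 1)) l * e k l y)
    (hd : ∀ f : G → ℂ, Continuous f → ∀ ε : ℝ, 0 < ε →
      ∃ k, ∃ c : Fin (Nn k) → ℂ, ∀ y, ‖f y - ∑ j, c j * e k j y‖ < ε)
    {φ : G → ℂ} (hφ : Measurable φ) {C : ℝ} (hC : ∀ z, ‖φ z‖ ≤ C)
    (hfix : ∀ k a, R k a (nEbA ν (e k) φ) = nEbA ν (e k) φ)
    (u : G → ℂ) (hu : Continuous u) (a : G) :
    ∫ y, φ y * conj (u (a⁻¹ * y)) ∂ν = ∫ y, φ y * conj (u y) ∂ν := by
  have hC0 : 0 ≤ C := (norm_nonneg _).trans (hC 1)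
  refine eq_of_forall_dist_le fun ε hε => ?_
  obtain ⟨k, c, hc⟩ := hd u hu (ε / (2 * (C + 1))) (by positivity)
  set P : G → ℂ := fun y => ∑ j, c j * e k j y with hP
  have hPc : Continuous P := continuous_finsetSum _ fun j _ => continuous_const.mul (he k j)
  have ht : ∀ (b : G), Continuous fun y : G => b⁻¹ * y := fun b => continuous_const.mul continuous_id
  have ePa : ∀ b : G, ∫ y, φ y * conj (P (b⁻¹ * y)) ∂ν = ∑ j, conj (c j) * (nEbA ν (e k) φ) j := by
    intro b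
    simp_rw [hP, map_sum, map_mul, Finset.mul_sum]
    rw [integral_finsetSum]
    · refine Finset.sum_congr rfl fun j _ => ?_
      have h1 := nEbA_shift ν (he k) (hR k) hφ hC b j
      rw [hfix] at h1
      rw [← h1, ← integral_const_mul]
      refine integral_congr_ae (Eventually.of_forall fun y => ?_)
      show φ y * (conj (c j) * conj (e k j (b⁻¹ * y))) =
        conj (c j) * (φ y * conj (e k j (b⁻¹ * y)))
      ring
    · intro j _
      have h2 := (nEb_i2 ν hφ hC ((he k j).comp (ht b))).const_mul (conj (c j))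
      refine h2.congr (Eventually.of_forall fun y => ?_)
      show conj (c j) * (φ y * conj (e k j (b⁻¹ * y))) =
        φ y * (conj (c j) * conj (e k j (b⁻¹ * y)))
      ring
  have eP : ∫ y, φ y * conj (P (a⁻¹ * y)) ∂ν = ∫ y, φ y * conj (P ((1 : G)⁻¹ * y)) ∂ν := by
    rw [ePa a, ePa 1]
  have est : ∀ b : G, ‖(∫ y, φ y * conj (u (b⁻¹ * y)) ∂ν) - ∫ y, φ y * conj (P (b⁻¹ * y)) ∂ν‖
      ≤ C * (ε / (2 * (C + 1))) := by
    intro b
    have j1 : Integrable (fun y => φ y * conj (u (b⁻¹ * y))) ν :=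
      nEb_i2 ν hφ hC (hu.comp (ht b))
    have j2 : Integrable (fun y => φ y * conj (P (b⁻¹ * y))) ν :=
      nEb_i2 ν hφ hC (hPc.comp (ht b))
    rw [← integral_sub j1 j2]
    refine (norm_integral_le_of_norm_le_const (C := C * (ε / (2 * (C + 1))))
      (Eventually.of_forall fun y => ?_)).trans (by simp)
    have h3 : φ y * conj (u (b⁻¹ * y)) - φ y * conj (P (b⁻¹ * y)) =
        φ y * conj (u (b⁻¹ * y) - P (b⁻¹ * y)) := by
      rw [map_sub]; ring
    show ‖φ y * conj (u (b⁻¹ * y)) - φ y * conj (P (b⁻¹ * y))‖ ≤ _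
    rw [h3, norm_mul, RCLike.norm_conj]
    exact mul_le_mul (hC y) (hc _).le (norm_nonneg _) hC0
  have e1 := est a
  have e2 := est 1
  rw [eP] at e1
  have h4 : C * (ε / (2 * (C + 1))) ≤ ε / 2 := by
    rw [mul_div_assoc', div_le_div_iff₀ (by positivity) (by norm_num)]
    nlinarith
  have h5 : ∫ y, φ y * conj (u ((1 : G)⁻¹ * y)) ∂ν = ∫ y, φ y * conj (u y) ∂ν := by
    simp
  rw [h5] at e2
  rw [dist_eq_norm]
  have h6 := norm_sub_le ((∫ y, φ y * conj (u (a⁻¹ * y)) ∂ν) -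
    ∫ y, φ y * conj (P ((1 : G)⁻¹ * y)) ∂ν) ((∫ y, φ y * conj (u y) ∂ν) -
    ∫ y, φ y * conj (P ((1 : G)⁻¹ * y)) ∂ν)
  rw [sub_sub_sub_cancel_right] at h6
  linarith

end NE

theorem noEig (hpw : Stm.pw) (hfs : Stm.fixedSec) : Stm.noEig := by
  intro G _ _ _ _ _ _ _ _ _ ν _ _ W0 _ _ _ ρ hρ hinj n T ix hT hix hk0 s0 hs0 ha hb hw
  obtain ⟨N, e, R, he, -, hRc, hR, hd⟩ := hpw G ν W0 ρ hρ hinj
  have hall : ∀ᵐ g ∂(Measure.pi (fun _ : Fin n => ν)), ∀ k, ∀ c : ℂ, ‖c‖ = 1 →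
      ∀ F : ℝ → EuclideanSpace ℂ (Fin (N k)), StronglyMeasurable F →
      (∃ C : ℝ, ∀ x, ‖F x‖ ≤ C) →
      (∀ᵐ x ∂U, F (T x) = c • R k (g (ix x)) (F x)) → ∀ᵐ x ∂U, ∀ a : G, R k a (F x) = F x :=
    ae_all_iff.2 fun k => hfs G ν (EuclideanSpace ℂ (Fin (N k))) (R k) (hRc k) n T ix hT hix
      hk0 s0 hs0 ha hb hw
  filter_upwards [hall] with g hg c hc f hf hfb hinv
  obtain ⟨C, hC⟩ := hfb
  have hU : IsProbabilityMeasure U := ⟨by simp [U]⟩
  have hC0 : 0 ≤ C := (norm_nonneg _).trans (hC (0, 1))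
  have hm : ∀ x, Measurable fun y => f (x, y) := fun x => hf.comp measurable_prodMk_left
  have h1 : ∀ᵐ x ∂U, ∀ᵐ y ∂ν, f (T x, g (ix x) * y) = c * f (x, y) :=
    Measure.ae_ae_of_ae_prod hinv
  have h2 : ∀ k, ∀ᵐ x ∂U, ∀ a, R k a (nEbA ν (e k) (fun y => f (x, y))) =
      nEbA ν (e k) (fun y => f (x, y)) := by
    intro k
    refine hg k c hc (fun x => nEbA ν (e k) (fun y => f (x, y))) ?_ ?_ ?_
    · refine Measurable.stronglyMeasurable ?_
      refine (WithLp.measurable_toLp 2 _).comp (measurable_pi_lambda _ fun j => ?_)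
      refine (StronglyMeasurable.integral_prod_right'
        (f := fun p : ℝ × G => f p * conj (e k j p.2)) ?_).measurable
      exact (hf.mul (Complex.continuous_conj.measurable.comp
        ((he k j).measurable.comp measurable_snd))).stronglyMeasurable
    · choose B hB0 hB using fun j => nEb_bd (he k j)
      refine ⟨Real.sqrt (∑ j, (C * B j) ^ 2), fun x => ?_⟩
      rw [EuclideanSpace.norm_eq]
      refine Real.sqrt_le_sqrt (Finset.sum_le_sum fun j _ => ?_)
      refine pow_le_pow_left₀ (norm_nonneg _) ?_ 2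
      show ‖∫ y, f (x, y) * conj (e k j y) ∂ν‖ ≤ C * B j
      refine (norm_integral_le_of_norm_le_const (C := C * B j)
        (Eventually.of_forall fun y => ?_)).trans (by simp)
      rw [norm_mul, RCLike.norm_conj]
      exact mul_le_mul (hC _) (hB j y) (norm_nonneg _) hC0
    · filter_upwards [h1] with x hx
      ext j
      show ∫ y, f (T x, y) * conj (e k j y) ∂ν =
        c * (R k (g (ix x)) (nEbA ν (e k) (fun y => f (x, y)))) j
      have h3 := nEbA_shift ν (he k) (hR k) (hm x) (fun y => hC (x, y)) (g (ix x))⁻¹ j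
      rw [inv_inv] at h3
      rw [← h3, ← integral_const_mul,
        ← integral_mul_left_eq_self (fun y => f (T x, y) * conj (e k j y)) (g (ix x))]
      refine integral_congr_ae ?_
      filter_upwards [hx] with y hy
      show f (T x, g (ix x) * y) * conj (e k j (g (ix x) * y)) =
        c * (f (x, y) * conj (e k j (g (ix x) * y)))
      rw [hy, mul_assoc]
  have h3 : ∀ᵐ x ∂U, ∀ᵐ y ∂ν, f (x, y) = ∫ z, f (x, z) ∂ν := by
    filter_upwards [ae_all_iff.2 h2] with x hx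
    exact nEb_const ν (hm x) (fun y => hC (x, y))
      (nEb_fix ν he hR hd (hm x) (fun y => hC (x, y)) hx)
  set f0 : ℝ → ℂ := fun x => ∫ z, f (x, z) ∂ν with hf0
  have hf0m : Measurable f0 := (hf.stronglyMeasurable.integral_prod_right' (ν := ν)).measurable
  have h4 : ∀ᵐ x ∂U, f0 (T x) = c * f0 x := by
    filter_upwards [h1] with x hx
    calc f0 (T x) = ∫ y, f (T x, g (ix x) * y) ∂ν :=
          (integral_mul_left_eq_self (fun y => f (T x, y)) _).symm
      _ = ∫ y, c * f (x, y) ∂ν := integral_congr_ae hx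
      _ = _ := integral_const_mul _ _
  have h5 : ∃ κ : ℂ, (fun p : ℝ × ℝ => f0 p.1 * conj (f0 p.2)) =ᵐ[U.prod U]
      Function.const _ κ := by
    refine Ergodic.ae_eq_const_of_ae_eq_comp_ae hT ?_ ?_
    · exact ((hf0m.comp measurable_fst).mul (Complex.continuous_conj.measurable.comp
        (hf0m.comp measurable_snd))).aestronglyMeasurable
    · have a1 : ∀ᵐ p ∂(U.prod U), f0 (T p.1) = c * f0 p.1 :=
        Measure.quasiMeasurePreserving_fst.ae h4
      have a2 : ∀ᵐ p ∂(U.prod U), f0 (T p.2) = c * f0 p.2 :=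
        Measure.quasiMeasurePreserving_snd.ae h4
      filter_upwards [a1, a2] with p h h'
      show f0 (T p.1) * conj (f0 (T p.2)) = f0 p.1 * conj (f0 p.2)
      rw [h, h', map_mul]
      have h8 : c * conj c = 1 := by
        rw [Complex.mul_conj, Complex.normSq_eq_norm_sq, hc]
        norm_num
      linear_combination (f0 p.1 * conj (f0 p.2)) * h8
  obtain ⟨κ, hκ⟩ := h5
  have h6 : ∃ z : ℂ, ∀ᵐ x ∂U, f0 x = z := by
    by_cases hz : ∀ᵐ x ∂U, f0 x = 0
    · exact ⟨0, hz⟩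
    · have h7 : ∀ᵐ x ∂U, ∀ᵐ x' ∂U, f0 x * conj (f0 x') = κ :=
        Measure.ae_ae_of_ae_prod hκ
      obtain ⟨x, hx0, hx⟩ := ((not_eventually.1 hz).and_eventually h7).exists
      refine ⟨conj (κ / f0 x), ?_⟩
      filter_upwards [hx] with x' hx'
      rw [← hx', mul_div_cancel_left₀ _ hx0, Complex.conj_conj]
  obtain ⟨z, hz⟩ := h6
  refine ⟨z, ?_⟩
  refine (Measure.ae_prod_iff_ae_ae (hf (measurableSet_singleton z))).2 ?_
  filter_upwards [h3, hz] with x hx hzx
  filter_upwards [hx] with y hy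
  rw [← hzx]
  exact hy

end R970.WM
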