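import Pool.Agent.R970.WM.Stm2

open MeasureTheory Set Filter Topology

namespace R970.WM

/-- one row of an infinite sequence of cuts -/
structure ORow {n : ℕ} (S : Finset (Fin n)) (u l : ℕ → Fin n → ℝ) (b : ℕ → ℝ)
    (A B W : ℕ → Fin n) : Prop where
  AS : ∀ j, A j ∈ S
  BS : ∀ j, B j ∈ S
  pos : ∀ j, ∀ i ∈ S, 0 < l j i
  ub : ∀ j, ∀ i ∈ S, u j i + l j i ≤ b j
  sep : ∀ j, ∀ i ∈ S, ∀ k ∈ S, i ≠ k → u j i + l j i ≤ u j k ∨ u j k + l j k ≤ u j i
  last : ∀ j, u j (A j) + l j (A j) = b j
  c1 : ∀ j, l j (B j) < l j (A j) → u (j + 1) = u j ∧ W j = A j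
  c2 : ∀ j, ¬ l j (B j) < l j (A j) → l j (A j) < l j (B j) ∧ W j = B j ∧
    u (j + 1) = Function.update (u j) (A j) (u j (B j) + l j (B j) - l j (A j))

theorem orow_main {n : ℕ} {S : Finset (Fin n)} {u l : ℕ → Fin n → ℝ} {b : ℕ → ℝ}
    {A B W : ℕ → Fin n} (h : ORow S u l b A B W) {p : Fin n} (hp : p ∈ S) (j0 : ℕ)
    (h0 : ∀ j, j0 ≤ j → A j ≠ p ∧ B j ≠ p) {q : Fin n} (hq : ∀ m, ∃ k, m ≤ k ∧ W k = q)
    (hpq : q ≠ p) (j : ℕ) (hj : j0 ≤ j) : u j p < u j q := by
  classical
  let R : ℕ → Finset (Fin n) := fun j => S.filter fun i => u j p < u j i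
  have hAR : ∀ j, j0 ≤ j → A j ∈ R j := by
    intro j hj
    simp only [R, Finset.mem_filter]
    refine ⟨h.AS j, ?_⟩
    rcases h.sep j p hp (A j) (h.AS j) (Ne.symm (h0 j hj).1) with h1 | h1
    · have := h.pos j p hp; linarith
    · have h2 := h.last j
      have h3 := h.ub j p hp
      have h4 := h.pos j p hp
      linarith
  have hup : ∀ j, j0 ≤ j → u (j + 1) p = u j p := by
    intro j hj
    by_cases hc : l j (B j) < l j (A j)
    · rw [(h.c1 j hc).1]
    · rw [(h.c2 j hc).2.2, Function.update_of_ne (Ne.symm (h0 j hj).1)]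
  have hmono : ∀ j, j0 ≤ j → R (j + 1) ⊆ R j := by
    intro j hj i hi
    by_cases hiA : i = A j
    · rw [hiA]; exact hAR j hj
    simp only [R, Finset.mem_filter] at hi ⊢
    refine ⟨hi.1, ?_⟩
    have h1 := hi.2
    rw [hup j hj] at h1
    by_cases hc : l j (B j) < l j (A j)
    · rw [(h.c1 j hc).1] at h1; exact h1
    · rw [(h.c2 j hc).2.2, Function.update_of_ne hiA] at h1; exact h1
  have hmono' : ∀ j k, j0 ≤ j → j ≤ k → R k ⊆ R j := by
    intro j k hj hjk
    induction k, hjk using Nat.le_induction with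
    | base => exact subset_rfl
    | succ k hjk ih => exact (hmono k (hj.trans hjk)).trans ih
  obtain ⟨kq, -, hkq⟩ := hq 0
  have hqS : q ∈ S := by
    rw [← hkq]
    by_cases hc : l kq (B kq) < l kq (A kq)
    · rw [(h.c1 kq hc).2]; exact h.AS kq
    · rw [(h.c2 kq hc).2.1]; exact h.BS kq
  by_contra hcon
  push Not at hcon
  have hqR : q ∉ R j := by
    simp only [R, Finset.mem_filter, not_and, not_lt]
    intro _; exact hcon
  -- the sequence of sets stabilises
  obtain ⟨j1, hj1, hst⟩ : ∃ j1, j ≤ j1 ∧ ∀ k, j1 ≤ k → R k = R j1 := by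
    obtain ⟨j1, ⟨hj1, hmin⟩⟩ : ∃ j1, j ≤ j1 ∧ ∀ k, j ≤ k → (R j1).card ≤ (R k).card := by
      have hne : ({c | ∃ k, j ≤ k ∧ (R k).card = c} : Set ℕ).Nonempty := ⟨_, j, le_rfl, rfl⟩
      obtain ⟨j1, hj1, hc⟩ := Nat.sInf_mem hne
      refine ⟨j1, hj1, fun k hk => ?_⟩
      rw [hc]
      exact Nat.sInf_le ⟨k, hk, rfl⟩
    refine ⟨j1, hj1, fun k hk => ?_⟩
    exact Finset.eq_of_subset_of_card_le (hmono' j1 k (hj.trans hj1) hk) (hmin k (hj1.trans hk))
  obtain ⟨k, hk, hWk⟩ := hq j1
  have hk0 : j0 ≤ k := (hj.trans hj1).trans hk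
  have hqk : q ∉ R k := fun hh => hqR (hmono' j k hj (hj1.trans hk) hh)
  have hqA : q ≠ A k := by
    rintro rfl
    exact hqk (hAR k hk0)
  by_cases hc : l k (B k) < l k (A k)
  · exact hqA (by rw [← hWk, (h.c1 k hc).2])
  · obtain ⟨e1, e2, e3⟩ := h.c2 k hc
    have hqB : q = B k := by rw [← hWk, e2]
    have hle : u k q ≤ u k p := by
      by_contra hlt
      push Not at hlt
      exact hqk (Finset.mem_filter.2 ⟨hqS, hlt⟩)
    have hBle : u k (B k) + l k (B k) ≤ u k p := by
      rcases h.sep k q hqS p hp hpq with h1 | h1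
      · rw [← hqB]; exact h1
      · have := h.pos k p hp; linarith
    have hnot : A k ∉ R (k + 1) := by
      simp only [R, Finset.mem_filter, not_and, not_lt]
      intro _
      rw [hup k hk0, e3, Function.update_self]
      have := h.pos k (A k) (h.AS k)
      linarith
    apply hnot
    rw [hst (k + 1) (by omega), ← hst k hk]
    exact hAR k hk0

theorem order (hI : Stm.infWin) : Stm.order := by
  classical
  intro n s α β x0 hR p hp hW
  obtain ⟨j0, hj0⟩ := hI n s α β x0 hR
  have hS : ∀ j, (s j).S = (s 0).S := by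
    intro j
    induction j with
    | zero => rfl
    | succ j ih =>
      rw [hR.step j, ← ih]
      unfold cutR
      rcases lt_or_gt_of_ne (hR.nt j) with h | h
      · rw [if_neg (not_lt.2 h.le), if_pos h]
      · rw [if_pos h]
  have hne : ∀ j, j0 ≤ j → α j ≠ p ∧ β j ≠ p := by
    intro j hj
    obtain ⟨h1, h2⟩ := hj0 j hj
    have ha : WinsIO s α β (α j) ∧ WinsIO s α β (β j) := by
      by_cases hc : (s j).l (β j) < (s j).l (α j)
      · simp only [win, los, if_pos hc] at h1 h2
        exact ⟨h1, h2⟩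
      · simp only [win, los, if_neg hc] at h1 h2
        exact ⟨h2, h1⟩
    exact ⟨fun h => hW (h ▸ ha.1), fun h => hW (h ▸ ha.2)⟩
  have hp' : ∀ j, p ∈ (s j).S := fun j => by rw [hS j]; exact hp
  have T1 : ORow (s 0).S (fun j => (s j).t) (fun j => (s j).l) (fun j => (s j).b) α β
      (fun j => win (s j) (α j) (β j)) := by
    refine ⟨fun j => ?_, fun j => ?_, fun j i hi => ?_, fun j i hi => ?_,
      fun j i hi k hk hik => ?_, fun j => ?_, fun j hc => ?_, fun j hc => ?_⟩
    · rw [← hS j]; exact (hR.top j).1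
    · rw [← hS j]; exact (hR.bot j).1
    · exact (hR.tile j).pos i (by rw [hS j]; exact hi)
    · exact ((hR.tile j).sub i (by rw [hS j]; exact hi)).2
    · exact (hR.tile j).sep i (by rw [hS j]; exact hi) k (by rw [hS j]; exact hk) hik
    · exact (hR.top j).2
    · try dsimp only at hc ⊢
      refine ⟨?_, ?_⟩
      · rw [hR.step j]; unfold cutR; rw [if_pos hc]
      · unfold win; rw [if_pos hc]
    · try dsimp only at hc ⊢
      have hlt : (s j).l (α j) < (s j).l (β j) := lt_of_le_of_ne (not_lt.1 hc) (hR.nt j)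
      refine ⟨hlt, ?_, ?_⟩
      · unfold win; rw [if_neg hc]
      · rw [hR.step j]; unfold cutR; rw [if_neg hc, if_pos hlt]
  have T2 : ORow (s 0).S (fun j i => (s j).t i + (s j).d i) (fun j => (s j).l)
      (fun j => (s j).b) β α (fun j => win (s j) (α j) (β j)) := by
    refine ⟨fun j => ?_, fun j => ?_, fun j i hi => ?_, fun j i hi => ?_,
      fun j i hi k hk hik => ?_, fun j => ?_, fun j hc => ?_, fun j hc => ?_⟩
    · rw [← hS j]; exact (hR.bot j).1
    · rw [← hS j]; exact (hR.top j).1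
    · exact (hR.tile j).pos i (by rw [hS j]; exact hi)
    · exact ((hR.tile j).subIm i (by rw [hS j]; exact hi)).2
    · exact (hR.tile j).sepIm i (by rw [hS j]; exact hi) k (by rw [hS j]; exact hk) hik
    · exact (hR.bot j).2
    · try dsimp only at hc ⊢
      refine ⟨?_, ?_⟩
      · rw [hR.step j]; unfold cutR; rw [if_neg (not_lt.2 hc.le), if_pos hc]
        funext i
        dsimp only
        by_cases hi : i = α j
        · subst hi
          rw [Function.update_self, Function.update_self]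
          have h1 := (hR.top j).2
          have h2 := (hR.bot j).2
          linarith
        · rw [Function.update_of_ne hi, Function.update_of_ne hi]
      · unfold win; rw [if_neg (not_lt.2 hc.le)]
    · try dsimp only at hc ⊢
      have hlt : (s j).l (β j) < (s j).l (α j) :=
        lt_of_le_of_ne (not_lt.1 hc) (Ne.symm (hR.nt j))
      refine ⟨hlt, ?_, ?_⟩
      · unfold win; rw [if_pos hlt]
      · rw [hR.step j]; unfold cutR; rw [if_pos hlt]
        funext i
        dsimp only
        by_cases hi : i = β j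
        · subst hi
          rw [Function.update_self, Function.update_self]
          have h1 := (hR.top j).2
          have h2 := (hR.bot j).2
          linarith
        · rw [Function.update_of_ne hi, Function.update_of_ne hi]
  refine ⟨j0, fun j hj q hq => ?_⟩
  have hpq : q ≠ p := fun h => hW (h ▸ hq)
  exact ⟨orow_main T1 hp j0 hne hq hpq j hj,
    orow_main T2 hp j0 (fun j hj => ⟨(hne j hj).2, (hne j hj).1⟩) hq hpq j hj⟩

end R970.WM
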