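import Pool.Agent.R970.WM.Stm2

open MeasureTheory Set Filter Topology

namespace R970.WM

namespace SMb

theorem stuck {X : Type} (P : X → Prop) (S : X → X → Prop) (x : X) (hx : P x)
    (hc : ∀ s s', P s → S s s' → P s')
    (ht : ∀ f : ℕ → X, (∀ j, P (f j)) → (∀ j, S (f j) (f (j + 1))) → False) :
    ∃ s, P s ∧ ∀ s', ¬ S s s' := by
  by_contra h
  have h' : ∀ s, P s → ∃ s', S s s' := by
    intro s hs
    by_contra hn
    exact h ⟨s, hs, fun s' hs' => hn ⟨s', hs'⟩⟩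
  choose g hg using h'
  let F : {s // P s} → {s // P s} := fun s => ⟨g s.1 s.2, hc _ _ s.2 (hg _ s.2)⟩
  refine ht (fun j => (F^[j] ⟨x, hx⟩).1) (fun j => (F^[j] ⟨x, hx⟩).2) (fun j => ?_)
  show S (F^[j] ⟨x, hx⟩).1 (F^[j + 1] ⟨x, hx⟩).1
  rw [Function.iterate_succ_apply']
  exact hg _ _

theorem game {X Λ : Type} (P : X → Prop) (SA SB : X → X → Prop) (len : X → ℝ) (mn : X → Λ → ℝ)
    (F : X → Λ → Prop) (κ η : ℝ) (hκ : 2 * η ≤ κ) (x3 : X) (h3 : P x3)
    (cA : ∀ s s', P s → SA s s' → P s') (cB : ∀ s s', P s → SB s s' → P s')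
    (tA : ∀ f : ℕ → X, (∀ j, P (f j)) → (∀ j, SA (f j) (f (j + 1))) → False)
    (tB : ∀ f : ℕ → X, (∀ j, P (f j)) → (∀ j, SB (f j) (f (j + 1))) → False)
    (eF : ∀ s, P s → ∃ p, F s p)
    (h4 : ∀ s p, P s → F s p → (∀ s', ¬ SB s s') → ∃ s', SA s s' ∧ len s - len s' = mn s p)
    (h5 : ∀ s p, P s → F s p → (∀ s', ¬ SA s s') → κ ≤ mn s p)
    (h6 : ∀ s s' p, P s → SB s s' → F s p → F s' p ∧ mn s p - (len s - len s') ≤ mn s' p)
    (h7 : ∀ s s', P s → P s' → len s - len s' < η) : False := by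
  obtain ⟨s4, hs4, hn4⟩ := stuck P SA x3 h3 cA tA
  obtain ⟨p, hp⟩ := eF s4 hs4
  obtain ⟨s5, ⟨hs5, hF5, hm5⟩, hn5⟩ := stuck
    (fun s => P s ∧ F s p ∧ mn s4 p - (len s4 - len s) ≤ mn s p) SB s4
    ⟨hs4, hp, by simp⟩ (fun s s' hs hss => by
      obtain ⟨h8, h9⟩ := h6 s s' p hs.1 hss hs.2.1
      exact ⟨cB s s' hs.1 hss, h8, by linarith [hs.2.2]⟩)
    (fun f hf hs => tB f (fun j => (hf j).1) hs)
  obtain ⟨s', hs', hl⟩ := h4 s5 p hs5 hF5 hn5
  have h10 := h5 s4 p hs4 hp hn4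
  have h11 := h7 s5 s' hs5 (cA s5 s' hs5 hs')
  have h12 := h7 s4 s5 hs4 hs5
  linarith

variable {n : ℕ}

theorem cutR_a (s : St n) (α β : Fin n) : (cutR s α β).a = s.a := by
  unfold cutR
  split_ifs <;> rfl

theorem cutR_b (s : St n) (α β : Fin n) : (cutR s α β).b = s.b - min (s.l α) (s.l β) := by
  unfold cutR
  split_ifs with h h'
  · show s.b - s.l β = _
    rw [min_eq_right h.le]
  · show s.b - s.l α = _
    rw [min_eq_left h'.le]
  · show s.b - s.l α = _
    rw [min_eq_left (not_lt.1 h)]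

theorem cutR_S (s : St n) (α β : Fin n) : (cutR s α β).S ⊆ s.S := by
  unfold cutR
  split_ifs
  · exact fun _ h => h
  · exact fun _ h => h
  · exact Finset.erase_subset _ _

theorem cutR_tie (s : St n) (α β : Fin n) (h : s.l α = s.l β) (hα : α ∈ s.S) :
    (cutR s α β).S.card < s.S.card := by
  unfold cutR
  rw [if_neg (by rw [h]; exact lt_irrefl _), if_neg (by rw [h]; exact lt_irrefl _)]
  exact Finset.card_erase_lt_of_mem hα

theorem cutL_a (s : St n) (α β : Fin n) : (cutL s α β).a = s.a + min (s.l α) (s.l β) := by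
  show -(cutR (refl s) α β).b = _
  rw [cutR_b]
  show -(-s.a - min (s.l α) (s.l β)) = _
  ring

theorem cutL_b (s : St n) (α β : Fin n) : (cutL s α β).b = s.b := by
  show -(cutR (refl s) α β).a = _
  rw [cutR_a]
  show - -s.b = _
  ring

theorem cutL_S (s : St n) (α β : Fin n) : (cutL s α β).S ⊆ s.S := cutR_S (refl s) α β

theorem cutL_tie (s : St n) (α β : Fin n) (h : s.l α = s.l β) (hα : α ∈ s.S) :
    (cutL s α β).S.card < s.S.card := cutR_tie (refl s) α β h hα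

theorem topLast_refl {s : St n} {α : Fin n} (h : TopFirst s α) : TopLast (refl s) α :=
  ⟨h.1, by
    show -s.t α - s.l α + s.l α = -s.a
    rw [← h.2]; ring⟩

theorem botLast_refl {s : St n} {α : Fin n} (h : BotFirst s α) : BotLast (refl s) α :=
  ⟨h.1, by
    show -s.t α - s.l α + -s.d α + s.l α = -s.a
    rw [← h.2]; ring⟩

theorem topFirst_refl {s : St n} {α : Fin n} (h : TopLast s α) : TopFirst (refl s) α :=
  ⟨h.1, by
    show -s.t α - s.l α = -s.b
    rw [← h.2]; ring⟩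

theorem botFirst_refl {s : St n} {α : Fin n} (h : BotLast s α) : BotFirst (refl s) α :=
  ⟨h.1, by
    show -s.t α - s.l α + -s.d α = -s.b
    rw [← h.2]; ring⟩

theorem step_mono {x0 : ℝ} {s s' : St n} (ht : Tile s) (h : Step x0 s s') :
    s.a ≤ s'.a ∧ s'.b ≤ s.b ∧ s'.S.card ≤ s.S.card := by
  rcases h with ⟨α, β, -, hα, hβ, rfl, -⟩ | ⟨α, β, -, hα, hβ, rfl, -⟩
  · have h1 := lt_min (ht.pos α hα.1) (ht.pos β hβ.1)
    exact ⟨(cutR_a s α β).ge, by rw [cutR_b]; linarith, Finset.card_le_card (cutR_S s α β)⟩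
  · have h1 := lt_min (ht.pos α hα.1) (ht.pos β hβ.1)
    exact ⟨by rw [cutL_a]; linarith, (cutL_b s α β).le, Finset.card_le_card (cutL_S s α β)⟩

/-- the letters at the left end -/
def FL (s : St n) (p : Fin n × Fin n) : Prop := p.1 ≠ p.2 ∧ TopFirst s p.1 ∧ BotFirst s p.2
/-- the letters at the right end -/
def FR (s : St n) (p : Fin n × Fin n) : Prop := p.1 ≠ p.2 ∧ TopLast s p.1 ∧ BotLast s p.2
/-- the length of the cut -/
noncomputable def mn (s : St n) (p : Fin n × Fin n) : ℝ := min (s.l p.1) (s.l p.2)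

end SMb

open SMb in
theorem small (hGR : Stm.goodR) (hGL : Stm.goodL) (hAP : Stm.aper) (hIR : Stm.irr)
    (hEN : Stm.ends) (hKE : Stm.keep) (hTI : Stm.tileR) (hT2 : Stm.termR) (hT3 : Stm.termL) :
    Stm.small := by
  intro n T ix s0 x0 hT h0 ha0 hb0 hne ε hε
  have inv : ∀ s, Reach x0 s0 s → Good T ix s ∧ s.a < x0 ∧ x0 < s.b := by
    intro s hs
    suffices h : Good T ix s ∧ s.a ≤ x0 ∧ x0 < s.b from
      ⟨h.1, lt_of_le_of_ne h.2.1 (hne s hs), h.2.2⟩
    induction hs with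
    | refl => exact ⟨h0, ha0, hb0⟩
    | tail _ hst ih =>
      rcases hst with ⟨α, β, hab, hα, hβ, rfl, hb⟩ | ⟨α, β, hab, hα, hβ, rfl, ha⟩
      · exact ⟨hGR n T ix _ ih.1 α β hab hα hβ, by rw [cutR_a]; exact ih.2.1, hb⟩
      · exact ⟨hGL n T ix _ ih.1 α β hab hα hβ, ha, by rw [cutL_b]; exact ih.2.2⟩
  by_contra hcon
  have hlen : ∀ s, Reach x0 s0 s → ε ≤ s.b - s.a := by
    intro s hs
    by_contra hlt
    exact hcon ⟨s, hs, (inv s hs).1, not_le.1 hlt⟩
  obtain ⟨s1, hs1, hmin⟩ : ∃ s1, Reach x0 s0 s1 ∧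
      ∀ s', Reach x0 s0 s' → s1.S.card ≤ s'.S.card := by
    obtain ⟨s1, h1, h2⟩ := (measure (fun s : St n => s.S.card)).wf.has_min
      {s | Reach x0 s0 s} ⟨s0, Relation.ReflTransGen.refl⟩
    exact ⟨s1, h1, fun s' hs' => not_lt.1 (h2 s' hs')⟩
  have mono : ∀ s, Reach x0 s0 s → ∀ s', Reach x0 s s' →
      s.a ≤ s'.a ∧ s'.b ≤ s.b ∧ s'.S.card ≤ s.S.card := by
    intro s hs s' hss
    induction hss with
    | refl => exact ⟨le_rfl, le_rfl, le_rfl⟩
    | @tail u v huv hst ih =>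
      obtain ⟨h1, h2, h3⟩ := step_mono (inv u (Relation.ReflTransGen.trans hs huv)).1.tile hst
      exact ⟨ih.1.trans h1, h2.trans ih.2.1, h3.trans ih.2.2⟩
  set η : ℝ := ε / 8 with hη
  have hη0 : 0 < η := by positivity
  obtain ⟨s3, hs3, hs3L⟩ : ∃ s3, Reach x0 s1 s3 ∧
      ∀ s', Reach x0 s1 s' → s3.b - s3.a < s'.b - s'.a + η := by
    set B : Set ℝ := (fun s : St n => s.b - s.a) '' {s | Reach x0 s1 s} with hB
    have hBne : B.Nonempty := ⟨_, s1, Relation.ReflTransGen.refl, rfl⟩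
    have hBb : BddBelow B := by
      refine ⟨ε, ?_⟩
      rintro _ ⟨s, hs, rfl⟩
      exact hlen s (Relation.ReflTransGen.trans hs1 hs)
    obtain ⟨_, ⟨s3, hs3, rfl⟩, h3⟩ := exists_lt_of_csInf_lt hBne (lt_add_of_pos_right (sInf B) hη0)
    refine ⟨s3, hs3, fun s' hs' => ?_⟩
    have h4 : sInf B ≤ s'.b - s'.a := csInf_le hBb ⟨s', hs', rfl⟩
    have h5 : s3.b - s3.a < sInf B + η := h3
    linarith
  have r3 : ∀ s, Reach x0 s3 s → Reach x0 s0 s := fun s hs =>
    Relation.ReflTransGen.trans (Relation.ReflTransGen.trans hs1 hs3) hs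
  have h7 : ∀ s s', Reach x0 s3 s → Reach x0 s3 s' →
      (s.b - s.a) - (s'.b - s'.a) < η := by
    intro s s' hs hs'
    have h1 := hs3L s' (Relation.ReflTransGen.trans hs3 hs')
    have h2 := mono s3 (r3 s3 Relation.ReflTransGen.refl) s hs
    linarith [h2.1, h2.2.1]
  have cL : ∀ s s', Reach x0 s3 s → StepL x0 s s' → Reach x0 s3 s' := fun s s' hs h =>
    Relation.ReflTransGen.tail hs (Or.inr h)
  have cR : ∀ s s', Reach x0 s3 s → StepR x0 s s' → Reach x0 s3 s' := fun s s' hs h =>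
    Relation.ReflTransGen.tail hs (Or.inl h)
  have hgood : ∀ s, Reach x0 s3 s → Good T ix s := fun s hs => (inv s (r3 s hs)).1
  have hirr : ∀ s, Reach x0 s3 s → Irred s := fun s hs => hIR n T ix s hT (hgood s hs)
  have hcard : ∀ s, Reach x0 s3 s → 2 ≤ s.S.card := fun s hs => (hAP n T ix s hT (hgood s hs)).2
  have hends := fun s (hs : Reach x0 s3 s) => hEN n s (hgood s hs).tile (hirr s hs) (hcard s hs)
  have eL : ∀ s, Reach x0 s3 s → ∃ p, FL s p := by
    intro s hs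
    obtain ⟨-, ⟨α, β, h1, h2, h3⟩, -⟩ := hends s hs
    exact ⟨(α, β), h1, h2, h3⟩
  have eR : ∀ s, Reach x0 s3 s → ∃ p, FR s p := by
    intro s hs
    obtain ⟨⟨α, β, h1, h2, h3⟩, -, -⟩ := hends s hs
    exact ⟨(α, β), h1, h2, h3⟩
  have hLR : ∀ s, Reach x0 s3 s → ∀ p q, FL s p → FR s q → s.a + mn s p ≤ s.b - mn s q := by
    intro s hs p q hp hq
    exact (hends s hs).2.2 q.1 q.2 p.1 p.2 hq.2.1 hq.2.2 hp.2.1 hp.2.2
  have stL : ∀ (s : St n) (p : Fin n × Fin n), FL s p → s.a + mn s p ≤ x0 → StepL x0 s (cutL s p.1 p.2) := by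
    intro s p hp h
    exact ⟨p.1, p.2, hp.1, hp.2.1, hp.2.2, rfl, by rw [cutL_a]; exact h⟩
  have stR : ∀ (s : St n) (p : Fin n × Fin n), FR s p → x0 < s.b - mn s p → StepR x0 s (cutR s p.1 p.2) := by
    intro s p hp h
    exact ⟨p.1, p.2, hp.1, hp.2.1, hp.2.2, rfl, by rw [cutR_b]; exact h⟩
  -- no ties
  have cardeq : ∀ s, Reach x0 s3 s → ∀ s', Reach x0 s3 s' → s.S.card ≤ s'.S.card := by
    intro s hs s' hs'
    exact (mono s1 hs1 s (Relation.ReflTransGen.trans hs3 hs)).2.2.trans (hmin s' (r3 s' hs'))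
  have tL : ∀ f : ℕ → St n, (∀ j, Reach x0 s3 (f j)) → (∀ j, StepL x0 (f j) (f (j + 1))) →
      False := by
    intro f hf hs
    exact hT3 n x0 f (fun j => ⟨(hgood _ (hf j)).tile, hirr _ (hf j)⟩) hs
      (fun j => (inv _ (r3 _ (hf j))).2.1) (inv _ (r3 _ (hf 0))).2.2
  have tR : ∀ f : ℕ → St n, (∀ j, Reach x0 s3 (f j)) → (∀ j, StepR x0 (f j) (f (j + 1))) →
      False := by
    intro f hf hs
    exact hT2 n x0 f (fun j => ⟨(hgood _ (hf j)).tile, hirr _ (hf j)⟩) hs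
      (inv _ (r3 _ (hf 0))).2.2 (inv _ (r3 _ (hf 0))).2.1
  have hκ : 2 * η ≤ ε / 2 - η := by rw [hη]; linarith
  have h3l := hlen s3 (r3 s3 Relation.ReflTransGen.refl)
  rcases le_total (ε / 2) (x0 - s3.a) with hcase | hcase
  · -- left cuts, then right cuts
    refine game (fun s => Reach x0 s3 s) (StepL x0) (StepR x0) (fun s => s.b - s.a) mn FL
      (ε / 2 - η) η hκ s3 Relation.ReflTransGen.refl cL cR tL tR eL ?_ ?_ ?_ h7
    · intro s p hs hp hno
      obtain ⟨q, hq⟩ := eR s hs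
      have h1 : s.b - mn s q ≤ x0 := by
        by_contra h
        exact hno _ (stR s q hq (not_le.1 h))
      refine ⟨_, stL s p hp ((hLR s hs p q hp hq).trans h1), ?_⟩
      show (s.b - s.a) - ((cutL s p.1 p.2).b - (cutL s p.1 p.2).a) = mn s p
      rw [cutL_a, cutL_b]
      unfold mn
      ring
    · intro s p hs hp hno
      have h1 : x0 < s.a + mn s p := by
        by_contra h
        exact hno _ (stL s p hp (not_lt.1 h))
      have h2 := h7 s3 s Relation.ReflTransGen.refl hs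
      have h3 := mono s3 (r3 s3 Relation.ReflTransGen.refl) s hs
      linarith [h3.1, h3.2.1]
    · intro s s' p hs hss hp
      have hss' := hss
      obtain ⟨α, β, hab, hα, hβ, rfl, hb⟩ := hss
      have hnt : s.l α ≠ s.l β := by
        intro h
        exact absurd (cutR_tie s α β h hα.1) (not_lt.2 (cardeq s hs _ (cR s _ hs hss')))
      obtain ⟨k1, k2, k3, k4, k5, k6⟩ := hKE n s α β p.1 p.2 (hgood s hs).tile (hcard s hs) hab hα hβ
        hnt hp.2.1 hp.2.2
      refine ⟨⟨hp.1, k1, k2⟩, ?_⟩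
      show mn s p - ((s.b - s.a) - ((cutR s α β).b - (cutR s α β).a)) ≤ mn (cutR s α β) p
      rw [k3, k5]
      unfold mn
      have k7 := (k6 p.1).2
      have k8 := (k6 p.2).2
      have k9 := min_le_left (s.l p.1) (s.l p.2)
      have k10 := min_le_right (s.l p.1) (s.l p.2)
      refine le_min ?_ ?_ <;> linarith
  · -- right cuts, then left cuts
    have hcase' : ε / 2 ≤ s3.b - x0 := by linarith
    refine game (fun s => Reach x0 s3 s) (StepR x0) (StepL x0) (fun s => s.b - s.a) mn FR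
      (ε / 2 - η) η hκ s3 Relation.ReflTransGen.refl cR cL tR tL eR ?_ ?_ ?_ h7
    · intro s p hs hp hno
      obtain ⟨q, hq⟩ := eL s hs
      have h1 : x0 < s.a + mn s q := by
        by_contra h
        exact hno _ (stL s q hq (not_lt.1 h))
      refine ⟨_, stR s p hp (h1.trans_le (hLR s hs q p hq hp)), ?_⟩
      show (s.b - s.a) - ((cutR s p.1 p.2).b - (cutR s p.1 p.2).a) = mn s p
      rw [cutR_a, cutR_b]
      unfold mn
      ring
    · intro s p hs hp hno
      have h1 : s.b - mn s p ≤ x0 := by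
        by_contra h
        exact hno _ (stR s p hp (not_le.1 h))
      have h2 := h7 s3 s Relation.ReflTransGen.refl hs
      have h3 := mono s3 (r3 s3 Relation.ReflTransGen.refl) s hs
      linarith [h3.1, h3.2.1]
    · intro s s' p hs hss hp
      have hss' := hss
      obtain ⟨α, β, hab, hα, hβ, rfl, hb⟩ := hss
      have hnt : s.l α ≠ s.l β := by
        intro h
        exact absurd (cutL_tie s α β h hα.1) (not_lt.2 (cardeq s hs _ (cL s _ hs hss')))
      obtain ⟨k1, k2, k3, k4, k5, k6⟩ := hKE n (refl s) α β p.1 p.2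
        (hTI.2.1 n s (hgood s hs).tile) (hcard s hs) hab (topLast_refl hα) (botLast_refl hβ)
        hnt (topFirst_refl hp.2.1) (botFirst_refl hp.2.2)
      refine ⟨⟨hp.1, topLast_refl k1, botLast_refl k2⟩, ?_⟩
      show mn s p - ((s.b - s.a) - ((cutL s α β).b - (cutL s α β).a)) ≤ mn (cutL s α β) p
      rw [cutL_a, cutL_b]
      have k7 : s.l p.1 - min (s.l α) (s.l β) ≤ (cutL s α β).l p.1 := (k6 p.1).2
      have k8 : s.l p.2 - min (s.l α) (s.l β) ≤ (cutL s α β).l p.2 := (k6 p.2).2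
      unfold mn
      have k9 := min_le_left (s.l p.1) (s.l p.2)
      have k10 := min_le_right (s.l p.1) (s.l p.2)
      refine le_min ?_ ?_ <;> linarith


end R970.WM
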