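import Pool.Agent.R970.WM.Defs2
import Pool.Agent.R970.WM.Stm

open MeasureTheory Set Filter Topology

namespace R970.WM.Stm

/-- LS: the Lie algebra of a compact group of isometries -/
def lieSub : Prop := ∀ (W : Type) [NormedAddCommGroup W] [InnerProductSpace ℂ W] [FiniteDimensional ℂ W], ∀ Γ : Set (W →L[ℂ] W), IsCompact Γ → (1 ∈ Γ) →
  (∀ x ∈ Γ, ∀ y ∈ Γ, x * y ∈ Γ) → (∀ x ∈ Γ, ∃ y ∈ Γ, x * y = 1 ∧ y * x = 1) →
  (∀ x ∈ Γ, ∀ v w : W, inner ℂ (x v) (x w) = inner ℂ v w) →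
  (0 : W →L[ℂ] W) ∈ lieOf Γ ∧ (∀ ξ ∈ lieOf Γ, ∀ η ∈ lieOf Γ, ξ + η ∈ lieOf Γ) ∧
  (∀ ξ ∈ lieOf Γ, ∀ c : ℝ, (c:ℂ) • ξ ∈ lieOf Γ) ∧ (∀ ξ ∈ lieOf Γ, ∀ η ∈ lieOf Γ, ξ * η - η * ξ ∈ lieOf Γ) ∧
  (∀ ξ ∈ lieOf Γ, ∀ v w : W, inner ℂ (ξ v) w = - inner ℂ v (ξ w))

/-- LD: a connected compact group is topologically generated by its one parameter subgroups (uses lieSub) -/
def lieGen : Prop := ∀ (W : Type) [NormedAddCommGroup W] [InnerProductSpace ℂ W] [FiniteDimensional ℂ W], ∀ Γ : Set (W →L[ℂ] W), IsCompact Γ → (1 ∈ Γ) →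
  (∀ x ∈ Γ, ∀ y ∈ Γ, x * y ∈ Γ) → (∀ x ∈ Γ, ∃ y ∈ Γ, x * y = 1 ∧ y * x = 1) →
  (∀ x ∈ Γ, ∀ v w : W, inner ℂ (x v) (x w) = inner ℂ v w) →
  IsPreconnected Γ → ∀ x ∈ Γ, x ∈ closure
    ((Submonoid.closure {y : W →L[ℂ] W | ∃ ξ ∈ lieOf Γ, y = NormedSpace.exp ξ} : Submonoid (W →L[ℂ] W)) : Set (W →L[ℂ] W))

/-- LI: linear algebra, generic pair -/
def lin : Prop := ∀ (W : Type) [NormedAddCommGroup W] [InnerProductSpace ℂ W] [FiniteDimensional ℂ W], ∀ 𝔤 : Set (W →L[ℂ] W), (0 ∈ 𝔤) →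
  (∀ ξ ∈ 𝔤, ∀ η ∈ 𝔤, ξ + η ∈ 𝔤) → (∀ ξ ∈ 𝔤, ∀ c : ℝ, (c:ℂ) • ξ ∈ 𝔤) → (∀ ξ ∈ 𝔤, ∀ η ∈ 𝔤, ξ * η - η * ξ ∈ 𝔤) →
  (∀ ξ ∈ 𝔤, ∀ v w : W, inner ℂ (ξ v) w = - inner ℂ v (ξ w)) →
  ∃ ξ ∈ 𝔤, ∃ η ∈ 𝔤, ∀ v : W, ξ v = 0 → η v = 0 → ∀ ζ ∈ 𝔤, ζ v = 0

/-- LP: one good pair (uses lieSub, lieGen, lin) -/
def lgPair : Prop := ∀ (W : Type) [NormedAddCommGroup W] [InnerProductSpace ℂ W] [FiniteDimensional ℂ W], ∀ Γ : Set (W →L[ℂ] W), IsCompact Γ → (1 ∈ Γ) →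
  (∀ x ∈ Γ, ∀ y ∈ Γ, x * y ∈ Γ) → (∀ x ∈ Γ, ∃ y ∈ Γ, x * y = 1 ∧ y * x = 1) →
  (∀ x ∈ Γ, ∀ v w : W, inner ℂ (x v) (x w) = inner ℂ v w) →
  IsPreconnected Γ → ∃ p ∈ Γ, ∃ q ∈ Γ, ∀ v : W, p v = v → q v = v → ∀ x ∈ Γ, x v = v

/-- LG: almost every pair is good (uses lieGen, lgPair) -/
def lg : Prop := ∀ (G : Type) [Group G] [TopologicalSpace G] [IsTopologicalGroup G] [CompactSpace G] [ConnectedSpace G] [T2Space G]
  [SecondCountableTopology G] [MeasurableSpace G] [BorelSpace G] (ν : Measure G) [IsProbabilityMeasure ν] [ν.IsHaarMeasure],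
  ∀ (W : Type) [NormedAddCommGroup W] [InnerProductSpace ℂ W] [FiniteDimensional ℂ W]
  (R : G →* (W ≃ₗᵢ[ℂ] W)), Continuous (fun p : G × W => R p.1 p.2) →
  ∀ᵐ p ∂(ν.prod ν), ∀ v : W, R p.1 v = v → R p.2 v = v → ∀ a : G, R a v = v

/-- HU: elementary moves preserve Haar measure -/
def haarUpd : Prop := ∀ (G : Type) [Group G] [TopologicalSpace G] [IsTopologicalGroup G] [CompactSpace G] [ConnectedSpace G] [T2Space G]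
  [SecondCountableTopology G] [MeasurableSpace G] [BorelSpace G] (ν : Measure G) [IsProbabilityMeasure ν] [ν.IsHaarMeasure] (n : ℕ),
  HaarW ν (fun i : Fin n => [i]) ∧ ∀ w : Fin n → List (Fin n), HaarW ν w → ∀ α β : Fin n, α ≠ β →
    HaarW ν (Function.update w β (w β ++ w α)) ∧ HaarW ν (Function.update w α (w β ++ w α))

/-- HR (uses haarUpd) -/
def haarReach : Prop := ∀ (G : Type) [Group G] [TopologicalSpace G] [IsTopologicalGroup G] [CompactSpace G] [ConnectedSpace G] [T2Space G]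
  [SecondCountableTopology G] [MeasurableSpace G] [BorelSpace G] (ν : Measure G) [IsProbabilityMeasure ν] [ν.IsHaarMeasure] (n : ℕ) (x0 : ℝ) (s s' : St n),
  Reach x0 s s' → HaarW ν s.w → HaarW ν s'.w

/-- TI: cutting preserves Tile; reflection preserves Tile and Irred -/
def tileR : Prop := (∀ (n : ℕ) (s : St n), Tile s → ∀ α β, α ≠ β → TopLast s α → BotLast s β →
  Tile (cutR s α β)) ∧ (∀ (n : ℕ) (s : St n), Tile s → Tile (refl s)) ∧ (∀ (n : ℕ) (s : St n), Tile s → Irred s → Irred (refl s))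

/-- GR (uses tileR) -/
def goodR : Prop := ∀ (n : ℕ) (T : ℝ → ℝ) (ix : ℝ → Fin n) (s : St n), Good T ix s → ∀ α β, α ≠ β → TopLast s α → BotLast s β →
  Good T ix (cutR s α β)

/-- GL (uses tileR) -/
def goodL : Prop := ∀ (n : ℕ) (T : ℝ → ℝ) (ix : ℝ → Fin n) (s : St n), Good T ix s → ∀ α β, α ≠ β → TopFirst s α → BotFirst s β →
  Good T ix (cutL s α β)

/-- AP -/
def aper : Prop := ∀ (n : ℕ) (T : ℝ → ℝ) (ix : ℝ → Fin n) (s : St n), Ergodic T U → Good T ix s →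
  (∀ i ∈ s.S, s.d i ≠ 0) ∧ 2 ≤ s.S.card

/-- IR -/
def irr : Prop := ∀ (n : ℕ) (T : ℝ → ℝ) (ix : ℝ → Fin n) (s : St n), Ergodic T U → Good T ix s → Irred s

/-- EN -/
def ends : Prop := ∀ (n : ℕ) (s : St n), Tile s → Irred s → 2 ≤ s.S.card →
  (∃ α β, α ≠ β ∧ TopLast s α ∧ BotLast s β) ∧ (∃ α β, α ≠ β ∧ TopFirst s α ∧ BotFirst s β) ∧
  ∀ α β α' β', TopLast s α → BotLast s β → TopFirst s α' → BotFirst s β' →
    s.a + min (s.l α') (s.l β') ≤ s.b - min (s.l α) (s.l β)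

/-- KE: a right cut does not affect the left end -/
def keep : Prop := ∀ (n : ℕ) (s : St n) (α β α' β' : Fin n), Tile s → 2 ≤ s.S.card → α ≠ β → TopLast s α → BotLast s β →
  s.l α ≠ s.l β → TopFirst s α' → BotFirst s β' →
  TopFirst (cutR s α β) α' ∧ BotFirst (cutR s α β) β' ∧ (cutR s α β).a = s.a ∧ (cutR s α β).S = s.S ∧
  (cutR s α β).b = s.b - min (s.l α) (s.l β) ∧
  ∀ i, (cutR s α β).l i ≤ s.l i ∧ s.l i - min (s.l α) (s.l β) ≤ (cutR s α β).l i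

/-- IW -/
def infWin : Prop := ∀ (n : ℕ) (s : ℕ → St n) (α β : ℕ → Fin n) (x0 : ℝ), RSeq s α β x0 →
  ∃ j0, ∀ j, j0 ≤ j → WinsIO s α β (win (s j) (α j) (β j)) ∧ WinsIO s α β (los (s j) (α j) (β j))

/-- OR (uses infWin) -/
def order : Prop := ∀ (n : ℕ) (s : ℕ → St n) (α β : ℕ → Fin n) (x0 : ℝ), RSeq s α β x0 →
  ∀ p ∈ (s 0).S, ¬ WinsIO s α β p → ∃ j0, ∀ j, j0 ≤ j → ∀ q, WinsIO s α β q →
    (s j).t p < (s j).t q ∧ (s j).t p + (s j).d p < (s j).t q + (s j).d q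

/-- AW (uses infWin, order) -/
def allWin : Prop := ∀ (n : ℕ) (s : ℕ → St n) (α β : ℕ → Fin n) (x0 : ℝ), RSeq s α β x0 → ∀ i ∈ (s 0).S, WinsIO s α β i

/-- WC -/
def winContra : Prop := ∀ (n : ℕ) (s : ℕ → St n) (α β : ℕ → Fin n) (x0 : ℝ), RSeq s α β x0 → (∀ i ∈ (s 0).S, WinsIO s α β i) → False

/-- TR2 (uses allWin, winContra) -/
def termR : Prop := ∀ (n : ℕ) (x0 : ℝ) (s : ℕ → St n), (∀ j, Tile (s j) ∧ Irred (s j)) →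
  (∀ j, StepR x0 (s j) (s (j+1))) → x0 < (s 0).b → (s 0).a < x0 → False

/-- TL2 (uses termR, tileR) -/
def termL : Prop := ∀ (n : ℕ) (x0 : ℝ) (s : ℕ → St n), (∀ j, Tile (s j) ∧ Irred (s j)) →
  (∀ j, StepL x0 (s j) (s (j+1))) → (∀ j, (s j).a < x0) → x0 < (s 0).b → False

/-- SM (uses goodR, goodL, aper, irr, ends, keep, tileR, termR, termL) -/
def small : Prop := ∀ (n : ℕ) (T : ℝ → ℝ) (ix : ℝ → Fin n) (s0 : St n) (x0 : ℝ), Ergodic T U → Good T ix s0 →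
  s0.a ≤ x0 → x0 < s0.b → (∀ s', Reach x0 s0 s' → s'.a ≠ x0) → ∀ ε : ℝ, 0 < ε →
  ∃ s', Reach x0 s0 s' ∧ Good T ix s' ∧ s'.b - s'.a < ε

/-- CN -/
def cnt : Prop := ∀ (n : ℕ) (s0 : St n), ∃ 𝒩 : Set ℝ, 𝒩.Countable ∧ ∀ x0, x0 ∉ 𝒩 →
  ∀ s', Reach x0 s0 s' → s'.a ≠ x0

/-- CO (uses small, aper, goodR, goodL) -/
def comp : Prop := ∀ (n : ℕ) (T : ℝ → ℝ) (ix : ℝ → Fin n) (s0 : St n) (x0 : ℝ), Ergodic T U → Good T ix s0 →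
  s0.a ≤ x0 → x0 < s0.b → (∀ s', Reach x0 s0 s' → s'.a ≠ x0) → ∀ ε : ℝ, 0 < ε →
  ∃ s', Reach x0 s0 s' ∧ Good T ix s' ∧ s'.a ≤ x0 ∧ x0 < s'.b ∧ s'.b - s'.a < ε ∧
    ∃ i ∈ s'.S, ∃ i' ∈ s'.S, i ≠ i' ∧ s'.b - s'.a ≤ 4 * n * s'.l i ∧ s'.b - s'.a ≤ 4 * n * s'.l i'

/-- IG -/
def initGood : Prop := ∀ (n : ℕ) [NeZero n] (π : Equiv.Perm (Fin n)) (lam : Fin n → ℝ), (∀ k, 0 < lam k) →
  ∑ k, lam k = 1 → Good (iet π lam) (idx lam) (init π lam)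

/-- DE: Lebesgue differentiation with parameter -/
def dens : Prop := ∀ (Y : Type) [MeasurableSpace Y] [MeasurableSpace.CountablyGenerated Y] (m : Measure Y) [IsProbabilityMeasure m],
  ∀ (W : Type) [NormedAddCommGroup W] [InnerProductSpace ℂ W] [FiniteDimensional ℂ W] (M : Y × ℝ → W), StronglyMeasurable M → (∃ C : ℝ, ∀ p, ‖M p‖ ≤ C) →
  ∀ᵐ x0 ∂U, ∀ ε : ℝ, 0 < ε → ∃ δ : ℝ, 0 < δ ∧ ∀ a b : ℝ, 0 ≤ a → b ≤ 1 → a ≤ x0 → x0 < b → b - a < δ →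
    ∫ x in Ico a b, (∫ y, ‖M (y, x) - M (y, x0)‖ ∂m) ≤ ε * (b - a)

/-- WF (uses dens) -/
def wordsFix : Prop := ∀ (G : Type) [Group G] [TopologicalSpace G] [IsTopologicalGroup G] [CompactSpace G] [ConnectedSpace G] [T2Space G]
  [SecondCountableTopology G] [MeasurableSpace G] [BorelSpace G] (ν : Measure G) [IsProbabilityMeasure ν] [ν.IsHaarMeasure],
  ∀ (W : Type) [NormedAddCommGroup W] [InnerProductSpace ℂ W] [FiniteDimensional ℂ W]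
  (R : G →* (W ≃ₗᵢ[ℂ] W)), Continuous (fun p : G × W => R p.1 p.2) →
  ∀ (n : ℕ) (T : ℝ → ℝ) (ix : ℝ → Fin n), MeasurePreserving T U U → Measurable ix →
  ∀ M : (Fin n → G) × ℝ → W, StronglyMeasurable M → (∃ C : ℝ, ∀ p, ‖M p‖ ≤ C) →
  (∀ᵐ p ∂((Measure.pi (fun _ : Fin n => ν)).prod U), M (p.1, T p.2) = R (p.1 (ix p.2)) (M p)) →
  ∀ᵐ x0 ∂U, ∀ ε : ℝ, 0 < ε → ∃ δ : ℝ, 0 < δ ∧ ∀ s : St n, Good T ix s → s.a ≤ x0 → x0 < s.b → s.b - s.a < δ →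
    ∀ i ∈ s.S, s.b - s.a ≤ 4 * n * s.l i →
      ∫ g, ‖R (ev g (s.w i)) (M (g, x0)) - M (g, x0)‖ ∂(Measure.pi (fun _ : Fin n => ν)) ≤ ε

/-- PF (uses lg) -/
def pairFix : Prop := ∀ (G : Type) [Group G] [TopologicalSpace G] [IsTopologicalGroup G] [CompactSpace G] [ConnectedSpace G] [T2Space G]
  [SecondCountableTopology G] [MeasurableSpace G] [BorelSpace G] (ν : Measure G) [IsProbabilityMeasure ν] [ν.IsHaarMeasure],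
  ∀ (W : Type) [NormedAddCommGroup W] [InnerProductSpace ℂ W] [FiniteDimensional ℂ W]
  (R : G →* (W ≃ₗᵢ[ℂ] W)), Continuous (fun p : G × W => R p.1 p.2) →
  ∀ (n : ℕ) (m : (Fin n → G) → W), StronglyMeasurable m → (∃ C : ℝ, ∀ g, ‖m g‖ ≤ C) →
  (∀ ε : ℝ, 0 < ε → ∃ w : Fin n → List (Fin n), HaarW ν w ∧ ∃ i i' : Fin n, i ≠ i' ∧
    ∫ g, ‖R (ev g (w i)) (m g) - m g‖ ∂(Measure.pi (fun _ : Fin n => ν)) ≤ ε ∧ ∫ g, ‖R (ev g (w i')) (m g) - m g‖ ∂(Measure.pi (fun _ : Fin n => ν)) ≤ ε) →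
  ∀ᵐ g ∂(Measure.pi (fun _ : Fin n => ν)), ∀ a : G, R a (m g) = m g

/-- JO (uses haarUpd, haarReach, cnt, comp, wordsFix, pairFix) -/
def joint : Prop := ∀ (G : Type) [Group G] [TopologicalSpace G] [IsTopologicalGroup G] [CompactSpace G] [ConnectedSpace G] [T2Space G]
  [SecondCountableTopology G] [MeasurableSpace G] [BorelSpace G] (ν : Measure G) [IsProbabilityMeasure ν] [ν.IsHaarMeasure],
  ∀ (W : Type) [NormedAddCommGroup W] [InnerProductSpace ℂ W] [FiniteDimensional ℂ W]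
  (R : G →* (W ≃ₗᵢ[ℂ] W)), Continuous (fun p : G × W => R p.1 p.2) →
  ∀ (n : ℕ) (T : ℝ → ℝ) (ix : ℝ → Fin n), Ergodic T U → Measurable ix →
  ∀ s0 : St n, Good T ix s0 → s0.a = 0 → s0.b = 1 → s0.w = (fun i => [i]) →
  ∀ M : (Fin n → G) × ℝ → W, StronglyMeasurable M → (∃ C : ℝ, ∀ p, ‖M p‖ ≤ C) →
  (∀ᵐ p ∂((Measure.pi (fun _ : Fin n => ν)).prod U), M (p.1, T p.2) = R (p.1 (ix p.2)) (M p)) →
  ∀ᵐ p ∂((Measure.pi (fun _ : Fin n => ν)).prod U), ∀ a : G, R a (M p) = M p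

/-- FI (uses joint) -/
def fiber : Prop := ∀ (G : Type) [Group G] [TopologicalSpace G] [IsTopologicalGroup G] [CompactSpace G] [ConnectedSpace G] [T2Space G]
  [SecondCountableTopology G] [MeasurableSpace G] [BorelSpace G] (ν : Measure G) [IsProbabilityMeasure ν] [ν.IsHaarMeasure],
  ∀ (W : Type) [NormedAddCommGroup W] [InnerProductSpace ℂ W] [FiniteDimensional ℂ W]
  (R : G →* (W ≃ₗᵢ[ℂ] W)), Continuous (fun p : G × W => R p.1 p.2) →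
  ∀ (n : ℕ) (T : ℝ → ℝ) (ix : ℝ → Fin n), Ergodic T U → Measurable ix →
  ∀ s0 : St n, Good T ix s0 → s0.a = 0 → s0.b = 1 → s0.w = (fun i => [i]) →
  ∀ᵐ g ∂(Measure.pi (fun _ : Fin n => ν)), ∀ M : ℝ → W, StronglyMeasurable M → (∃ C : ℝ, ∀ x, ‖M x‖ ≤ C) →
    (∀ᵐ x ∂U, M (T x) = R (g (ix x)) (M x)) → ∀ᵐ x ∂U, ∀ a : G, R a (M x) = M x

/-- LN (uses fiber) -/
def line : Prop := ∀ (G : Type) [Group G] [TopologicalSpace G] [IsTopologicalGroup G] [CompactSpace G] [ConnectedSpace G] [T2Space G]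
  [SecondCountableTopology G] [MeasurableSpace G] [BorelSpace G] (ν : Measure G) [IsProbabilityMeasure ν] [ν.IsHaarMeasure],
  ∀ (W : Type) [NormedAddCommGroup W] [InnerProductSpace ℂ W] [FiniteDimensional ℂ W]
  (R : G →* (W ≃ₗᵢ[ℂ] W)), Continuous (fun p : G × W => R p.1 p.2) →
  ∀ (n : ℕ) (T : ℝ → ℝ) (ix : ℝ → Fin n), Ergodic T U → Measurable ix →
  ∀ s0 : St n, Good T ix s0 → s0.a = 0 → s0.b = 1 → s0.w = (fun i => [i]) →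
  ∀ᵐ g ∂(Measure.pi (fun _ : Fin n => ν)), ∀ c : ℂ, ‖c‖ = 1 → ∀ F : ℝ → W, StronglyMeasurable F → (∃ C : ℝ, ∀ x, ‖F x‖ ≤ C) →
    (∀ᵐ x ∂U, F (T x) = c • R (g (ix x)) (F x)) → ∀ᵐ x ∂U, ∀ a : G, ∃ χ : ℂ, R a (F x) = χ • F x

/-- FS (uses line, main) -/
def fixedSec : Prop := ∀ (G : Type) [Group G] [TopologicalSpace G] [IsTopologicalGroup G] [CompactSpace G] [ConnectedSpace G] [T2Space G]
  [SecondCountableTopology G] [MeasurableSpace G] [BorelSpace G] (ν : Measure G) [IsProbabilityMeasure ν] [ν.IsHaarMeasure],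
  ∀ (W : Type) [NormedAddCommGroup W] [InnerProductSpace ℂ W] [FiniteDimensional ℂ W]
  (R : G →* (W ≃ₗᵢ[ℂ] W)), Continuous (fun p : G × W => R p.1 p.2) →
  ∀ (n : ℕ) (T : ℝ → ℝ) (ix : ℝ → Fin n), WeakMix T U → Measurable ix →
  (∃ k0 : Fin n, 0 < U (ix ⁻¹' {k0}) ∧ U (ix ⁻¹' {k0}) < 1) →
  ∀ s0 : St n, Good T ix s0 → s0.a = 0 → s0.b = 1 → s0.w = (fun i => [i]) →
  ∀ᵐ g ∂(Measure.pi (fun _ : Fin n => ν)), ∀ c : ℂ, ‖c‖ = 1 → ∀ F : ℝ → W, StronglyMeasurable F → (∃ C : ℝ, ∀ x, ‖F x‖ ≤ C) →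
    (∀ᵐ x ∂U, F (T x) = c • R (g (ix x)) (F x)) → ∀ᵐ x ∂U, ∀ a : G, R a (F x) = F x

/-- PW: Peter-Weyl for linear groups -/
def pw : Prop := ∀ (G : Type) [Group G] [TopologicalSpace G] [IsTopologicalGroup G] [CompactSpace G] [ConnectedSpace G] [T2Space G]
  [SecondCountableTopology G] [MeasurableSpace G] [BorelSpace G] (ν : Measure G) [IsProbabilityMeasure ν] [ν.IsHaarMeasure],
  ∀ (W0 : Type) [NormedAddCommGroup W0] [InnerProductSpace ℂ W0] [FiniteDimensional ℂ W0]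
  (ρ : G →* (W0 ≃ₗᵢ[ℂ] W0)), Continuous (fun p : G × W0 => ρ p.1 p.2) → Function.Injective ρ →
  ∃ (N : ℕ → ℕ) (e : ∀ k, Fin (N k) → G → ℂ)
    (R : ∀ k, G →* (EuclideanSpace ℂ (Fin (N k)) ≃ₗᵢ[ℂ] EuclideanSpace ℂ (Fin (N k)))),
    (∀ k j, Continuous (e k j)) ∧ (∀ k i j, ∫ y, (starRingEnd ℂ) (e k i y) * e k j y ∂ν = if i = j then 1 else 0) ∧
    (∀ k, Continuous (fun p : G × EuclideanSpace ℂ (Fin (N k)) => R k p.1 p.2)) ∧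
    (∀ k (a : G) j (y : G), e k j (a⁻¹ * y) = ∑ l, (R k a (EuclideanSpace.single j 1)) l * e k l y) ∧
    (∀ f : G → ℂ, Continuous f → ∀ ε : ℝ, 0 < ε → ∃ k, ∃ c : Fin (N k) → ℂ, ∀ y, ‖f y - ∑ j, c j * e k j y‖ < ε)

/-- NE (uses pw, fixedSec) -/
def noEig : Prop := ∀ (G : Type) [Group G] [TopologicalSpace G] [IsTopologicalGroup G] [CompactSpace G] [ConnectedSpace G] [T2Space G]
  [SecondCountableTopology G] [MeasurableSpace G] [BorelSpace G] (ν : Measure G) [IsProbabilityMeasure ν] [ν.IsHaarMeasure],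
  ∀ (W0 : Type) [NormedAddCommGroup W0] [InnerProductSpace ℂ W0] [FiniteDimensional ℂ W0]
  (ρ : G →* (W0 ≃ₗᵢ[ℂ] W0)), Continuous (fun p : G × W0 => ρ p.1 p.2) → Function.Injective ρ →
  ∀ (n : ℕ) (T : ℝ → ℝ) (ix : ℝ → Fin n), WeakMix T U → Measurable ix →
  (∃ k0 : Fin n, 0 < U (ix ⁻¹' {k0}) ∧ U (ix ⁻¹' {k0}) < 1) →
  ∀ s0 : St n, Good T ix s0 → s0.a = 0 → s0.b = 1 → s0.w = (fun i => [i]) →
  ∀ᵐ g ∂(Measure.pi (fun _ : Fin n => ν)), ∀ c : ℂ, ‖c‖ = 1 → ∀ f : ℝ × G → ℂ, Measurable f → (∃ C : ℝ, ∀ p, ‖f p‖ ≤ C) →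
    (∀ᵐ p ∂(U.prod ν), f (skewG T ix g p) = c * f p) → ∃ z : ℂ, ∀ᵐ p ∂(U.prod ν), f p = z

/-- HS: integral operators with bounded kernel are compact -/
def hsOp : Prop := ∀ (Z : Type) [MeasurableSpace Z] (μ : Measure Z) [IsProbabilityMeasure μ] (K : Z × Z → ℂ),
  Measurable K → (∃ C : ℝ, ∀ p, ‖K p‖ ≤ C) → ∃ A : Lp ℂ 2 μ →L[ℂ] Lp ℂ 2 μ, IsCompactOperator A ∧
    ∀ u : Lp ℂ 2 μ, ∀ᵐ z ∂μ, (A u : Z → ℂ) z = ∫ z', K (z, z') * u z' ∂μ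

/-- GT: no eigenfunctions implies weak mixing (uses hsOp) -/
def gt : Prop := ∀ (Z : Type) [MeasurableSpace Z] [MeasurableSpace.CountablyGenerated Z] (μ : Measure Z) [IsProbabilityMeasure μ]
  (S : Z → Z), MeasurePreserving S μ μ →
  (∀ c : ℂ, ‖c‖ = 1 → ∀ f : Z → ℂ, Measurable f → (∃ C : ℝ, ∀ z, ‖f z‖ ≤ C) → (∀ᵐ z ∂μ, f (S z) = c * f z) →
    ∃ w : ℂ, ∀ᵐ z ∂μ, f z = w) → WeakMix S μ

/-- FN: the full theorem -/
def final : Prop := ∀ (G : Type) [Group G] [TopologicalSpace G] [IsTopologicalGroup G] [CompactSpace G] [ConnectedSpace G] [T2Space G]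
  [SecondCountableTopology G] [MeasurableSpace G] [BorelSpace G] (ν : Measure G) [IsProbabilityMeasure ν] [ν.IsHaarMeasure],
  ∀ (W0 : Type) [NormedAddCommGroup W0] [InnerProductSpace ℂ W0] [FiniteDimensional ℂ W0]
  (ρ : G →* (W0 ≃ₗᵢ[ℂ] W0)), Continuous (fun p : G × W0 => ρ p.1 p.2) → Function.Injective ρ →
  ∀ (n : ℕ) [NeZero n], 2 ≤ n → ∀ (π : Equiv.Perm (Fin n)) (lam : Fin n → ℝ), (∀ k, 0 < lam k) →
  ∑ k, lam k = 1 → WeakMix (iet π lam) U →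
  ∀ᵐ g ∂(Measure.pi (fun _ : Fin n => ν)), WeakMix (skewG (iet π lam) (idx lam) g) (U.prod ν)

end R970.WM.Stm
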