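import Pool.Agent.R970.WM.Stm

/-!
# WM-TR: mean ergodic theorem on `X × X × ℤ`
-/

set_option autoImplicit false
set_option maxHeartbeats 1000000

open MeasureTheory Set Filter Topology
open scoped ENNReal

namespace R970.WM.TR

theorem inv_set {Y : Type} [MeasurableSpace Y] (ν : Measure Y) (R : Y → Y)
    (hR : MeasurePreserving R ν ν) (s : Set Y) (hs : MeasurableSet s) (hsf : ν s ≠ ∞)
    (hlim : ¬ Tendsto (fun N : ℕ => (∑ k ∈ Finset.range N, ν.real (s ∩ R^[k] ⁻¹' s)) / (N:ℝ))
      atTop (𝓝 0)) :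
    ∃ E : Set Y, MeasurableSet E ∧ ν E ≠ ∞ ∧ ν E ≠ 0 ∧ ∀ᵐ y ∂ν, (R y ∈ E ↔ y ∈ E) := by
  let U : Lp ℝ 2 ν →L[ℝ] Lp ℝ 2 ν :=
    (Lp.compMeasurePreservingₗᵢ ℝ R hR : Lp ℝ 2 ν →ₗᵢ[ℝ] Lp ℝ 2 ν).toContinuousLinearMap
  let f0 : Lp ℝ 2 ν := indicatorConstLp 2 hs hsf (1:ℝ)
  have h1 := U.tendsto_birkhoffAverage_orthogonalProjection
    (LinearIsometry.norm_toContinuousLinearMap_le _) f0
  set qq := (U.eqLocus (1 : Lp ℝ 2 ν →L[ℝ] Lp ℝ 2 ν)).orthogonalProjectionOnto f0 with hqq
  obtain ⟨q, hqm⟩ := qq
  have hUq : U q = q := hqm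
  have h2 : Tendsto (fun N => inner ℝ f0 (birkhoffAverage ℝ U _root_.id N f0)) atTop
      (𝓝 (inner ℝ f0 q)) := tendsto_const_nhds.inner h1
  have hit : ∀ k, (⇑U)^[k] f0 = Lp.compMeasurePreserving R^[k] (hR.iterate k) f0 := by
    intro k
    have e := congrFun (Lp.compMeasurePreserving_iterate (E := ℝ) (p := 2) hR k) f0
    exact e
  have h3 : ∀ N : ℕ, inner ℝ f0 (birkhoffAverage ℝ U _root_.id N f0) =
      (∑ k ∈ Finset.range N, ν.real (s ∩ R^[k] ⁻¹' s)) / (N:ℝ) := by
    intro N
    unfold birkhoffAverage birkhoffSum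
    rw [inner_smul_right, inner_sum, div_eq_inv_mul]
    congr 1
    refine Finset.sum_congr rfl fun k _ => ?_
    change inner ℝ f0 ((⇑U)^[k] f0) = _
    rw [hit k]
    change inner ℝ (indicatorConstLp 2 hs hsf (1:ℝ)) (Lp.compMeasurePreserving R^[k]
      (hR.iterate k) (indicatorConstLp 2 hs hsf (1:ℝ))) = _
    have hk : ν (R^[k] ⁻¹' s) ≠ ∞ := by
      rw [(hR.iterate k).measure_preimage hs.nullMeasurableSet]
      exact hsf
    rw [Lp.indicatorConstLp_compMeasurePreserving]
    exact L2.real_inner_indicatorConstLp_one_indicatorConstLp_one hs _ hsf hk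
  have hne : q ≠ 0 := by
    intro h0
    apply hlim
    rw [h0, inner_zero_right] at h2
    exact h2.congr h3
  have hinv : ∀ᵐ y ∂ν, (q : Y → ℝ) (R y) = (q : Y → ℝ) y := by
    have e1 := Lp.coeFn_compMeasurePreserving q hR
    have e2 : Lp.compMeasurePreserving R hR q = q := hUq
    rw [e2] at e1
    filter_upwards [e1] with y hy
    exact hy.symm
  have hqmeas : Measurable (fun y => (q : Y → ℝ) y ^ 2) :=
    (Lp.stronglyMeasurable q).measurable.pow_const 2
  have hint : Integrable (fun y => (q : Y → ℝ) y ^ 2) ν := (Lp.memLp q).integrable_sq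
  have hex : ∃ n : ℕ, ν {y | 1 / ((n:ℝ) + 1) < (q : Y → ℝ) y ^ 2} ≠ 0 := by
    by_contra hcon
    push Not at hcon
    apply hne
    rw [Lp.eq_zero_iff_ae_eq_zero]
    have h4 : ∀ᵐ y ∂ν, ∀ n : ℕ, ¬ (1 / ((n:ℝ) + 1) < (q : Y → ℝ) y ^ 2) := by
      rw [ae_all_iff]
      intro n
      rw [ae_iff]
      simpa using hcon n
    filter_upwards [h4] with y hy
    by_contra h5
    have h6 : 0 < (q : Y → ℝ) y ^ 2 := by
      have : (q : Y → ℝ) y ≠ 0 := h5
      positivity
    obtain ⟨n, hn⟩ := exists_nat_one_div_lt h6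
    exact hy n hn
  obtain ⟨n, hn⟩ := hex
  refine ⟨{y | 1 / ((n:ℝ) + 1) < (q : Y → ℝ) y ^ 2}, measurableSet_lt measurable_const hqmeas,
    (hint.measure_gt_lt_top (by positivity)).ne, hn, ?_⟩
  filter_upwards [hinv] with y hy
  rw [hy]

/-- The increment. -/
noncomputable def dl {X : Type} (A : Set X) (p : X × X) : ℤ :=
  A.indicator (fun _ => (1:ℤ)) p.1 - A.indicator (fun _ => (1:ℤ)) p.2

/-- The skew product over `T × T` with values in `ℤ`. -/
noncomputable def RR {X : Type} (T : X → X) (A : Set X) (y : (X × X) × ℤ) : (X × X) × ℤ :=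
  (Prod.map T T y.1, y.2 + dl A y.1)

theorem dl_meas {X : Type} [MeasurableSpace X] {A : Set X} (hA : MeasurableSet A) :
    Measurable (dl A) := by
  unfold dl
  exact ((measurable_const.indicator hA).comp measurable_fst).sub
    ((measurable_const.indicator hA).comp measurable_snd)

theorem map_add_count (a : ℤ) : Measure.map (fun m => m + a) (Measure.count : Measure ℤ) =
    Measure.count := by
  ext s hs
  have hm : Measurable (fun m : ℤ => m + a) := measurable_id.add_const a
  have hbij : Function.Bijective (fun m : ℤ => m + a) := (Equiv.addRight a).bijective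
  rw [Measure.map_apply hm hs, ← Measure.count_injective_image hbij.1,
    Set.image_preimage_eq _ hbij.2]

theorem RR_mp {X : Type} [MeasurableSpace X] (μ : Measure X) [IsProbabilityMeasure μ]
    (T : X → X) (hT : MeasurePreserving T μ μ) {A : Set X} (hA : MeasurableSet A) :
    MeasurePreserving (RR T A) ((μ.prod μ).prod (Measure.count : Measure ℤ))
      ((μ.prod μ).prod (Measure.count : Measure ℤ)) := by
  have h := (hT.prod hT).skew_product (g := fun p (m : ℤ) => m + dl A p)
    (μc := (Measure.count : Measure ℤ)) (μd := (Measure.count : Measure ℤ))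
    (measurable_snd.add ((dl_meas hA).comp measurable_fst))
    (Eventually.of_forall fun p => map_add_count _)
  exact h

theorem RR_iter {X : Type} (T : X → X) (A : Set X) (k : ℕ) (y : (X × X) × ℤ) :
    (RR T A)^[k] y = ((T^[k] y.1.1, T^[k] y.1.2), y.2 + vis T A k y.1.1 - vis T A k y.1.2) := by
  induction k with
  | zero => simp [vis]
  | succ k ih =>
    rw [Function.iterate_succ_apply', ih]
    unfold RR dl vis
    rw [Finset.sum_range_succ, Finset.sum_range_succ, Function.iterate_succ_apply',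
      Function.iterate_succ_apply']
    refine Prod.ext rfl ?_
    simp only
    ring

theorem vis_meas {X : Type} [MeasurableSpace X] {T : X → X} (hT : Measurable T) {A : Set X}
    (hA : MeasurableSet A) (k : ℕ) : Measurable (vis T A k) := by
  unfold vis
  exact Finset.measurable_sum _ fun j _ => (measurable_const.indicator hA).comp (hT.iterate j)

/-- The fibre. -/
def Sf {X : Type} (E : Set ((X × X) × ℤ)) (p : X × X) : Set ℤ := {m | (p, m) ∈ E}

open Classical in
/-- The sum of the elements of the fibre. -/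
noncomputable def bb {X : Type} (E : Set ((X × X) × ℤ)) (p : X × X) : ℤ :=
  if h : (Sf E p).Finite then ∑ m ∈ h.toFinset, m else 0

open Classical in
theorem bb_meas {X : Type} [MeasurableSpace X] {E : Set ((X × X) × ℤ)} (hE : MeasurableSet E) :
    Measurable (bb E) := by
  have hc : Measurable (fun p : X × X => (Measure.count : Measure ℤ) (Sf E p)) :=
    measurable_measure_prodMk_left hE
  let f : ℕ → X × X → ℤ := fun N p => if (Measure.count : Measure ℤ) (Sf E p) < ∞ then
    ∑ m ∈ Finset.Icc (-(N:ℤ)) N, (if (p, m) ∈ E then m else 0) else 0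
  have hf : ∀ N, Measurable (f N) := by
    intro N
    refine Measurable.ite (measurableSet_lt hc measurable_const) ?_ measurable_const
    refine Finset.measurable_sum _ fun m _ => ?_
    exact Measurable.ite (measurable_prodMk_right hE) measurable_const measurable_const
  refine measurable_of_tendsto_metrizable hf (tendsto_pi_nhds.2 fun p => ?_)
  by_cases h : (Sf E p).Finite
  · have h1 : (Measure.count : Measure ℤ) (Sf E p) < ∞ := Measure.count_apply_lt_top.2 h
    obtain ⟨M, hM⟩ := (h.image Int.natAbs).bddAbove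
    refine tendsto_const_nhds.congr' ?_
    filter_upwards [eventually_ge_atTop M] with N hN
    have e1 : bb E p = ∑ m ∈ h.toFinset, m := dif_pos h
    have e2 : f N p = ∑ m ∈ Finset.Icc (-(N:ℤ)) N, (if (p, m) ∈ E then m else 0) := if_pos h1
    rw [e1, e2, ← Finset.sum_filter]
    refine Finset.sum_congr ?_ fun _ _ => rfl
    ext m
    rw [Finset.mem_filter, Finset.mem_Icc, Set.Finite.mem_toFinset]
    constructor
    · intro hm
      have h2 : m.natAbs ≤ M := hM ⟨m, hm, rfl⟩
      exact ⟨⟨by omega, by omega⟩, hm⟩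
    · exact fun hm => hm.2
  · have h1 : ¬ (Measure.count : Measure ℤ) (Sf E p) < ∞ := fun h2 =>
      h (Measure.count_apply_lt_top.1 h2)
    have e1 : bb E p = 0 := dif_neg h
    rw [e1]
    refine tendsto_const_nhds.congr fun N => ?_
    exact (if_neg h1).symm

end R970.WM.TR

namespace R970.WM

open TR in
theorem transfer : Stm.transfer := by
  intro X _ μ _ T hT hE2 A hA hlim
  set ν : Measure ((X × X) × ℤ) := (μ.prod μ).prod (Measure.count : Measure ℤ) with hν
  set s : Set ((X × X) × ℤ) := Set.univ ×ˢ ({0} : Set ℤ) with hsdef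
  have hs : MeasurableSet s := MeasurableSet.univ.prod (measurableSet_singleton 0)
  have hsf : ν s ≠ ∞ := by
    rw [hν, hsdef, Measure.prod_prod, Measure.count_singleton, measure_univ, mul_one]
    exact ENNReal.one_ne_top
  have hk : ∀ k, ν.real (s ∩ (RR T A)^[k] ⁻¹' s) =
      (μ.prod μ).real {p : X × X | vis T A k p.1 = vis T A k p.2} := by
    intro k
    have e : s ∩ (RR T A)^[k] ⁻¹' s =
        {p : X × X | vis T A k p.1 = vis T A k p.2} ×ˢ ({0} : Set ℤ) := by
      ext y
      rw [Set.mem_inter_iff, Set.mem_preimage, hsdef, Set.mem_prod, Set.mem_prod, Set.mem_prod,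
        RR_iter, Set.mem_singleton_iff, Set.mem_singleton_iff, Set.mem_ofPred_eq]
      constructor
      · rintro ⟨⟨-, h1⟩, -, h2⟩
        exact ⟨by omega, h1⟩
      · rintro ⟨h1, h2⟩
        exact ⟨⟨trivial, h2⟩, trivial, by omega⟩
    rw [e, measureReal_def, measureReal_def, hν, Measure.prod_prod, Measure.count_singleton,
      mul_one]
  obtain ⟨E, hEm, hEf, hE0, hEinv⟩ := inv_set ν (RR T A) (RR_mp μ T hT hA) s hs hsf
    (by simpa only [hk] using hlim)
  have hae : ∀ᵐ p ∂(μ.prod μ), ∀ m : ℤ, (RR T A (p, m) ∈ E ↔ (p, m) ∈ E) := by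
    filter_upwards [Measure.ae_ae_of_ae_prod hEinv] with p hp
    exact Measure.ae_count_iff.1 hp
  have hfib : ∀ᵐ p ∂(μ.prod μ), Sf E (Prod.map T T p) = (fun m => m + dl A p) '' Sf E p := by
    filter_upwards [hae] with p hp
    ext m
    constructor
    · intro hm
      refine ⟨m - dl A p, (hp _).1 ?_, by simp⟩
      have e : RR T A (p, m - dl A p) = (Prod.map T T p, m) := by
        unfold RR
        simp
      rw [e]
      exact hm
    · rintro ⟨m', hm', rfl⟩
      exact (hp m').2 hm'
  have hcm : Measurable (fun p : X × X => (Measure.count : Measure ℤ) (Sf E p)) :=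
    measurable_measure_prodMk_left hEm
  have hcinv : (fun p : X × X => (Measure.count : Measure ℤ) (Sf E p)) ∘ Prod.map T T
      =ᵐ[μ.prod μ] (fun p : X × X => (Measure.count : Measure ℤ) (Sf E p)) := by
    filter_upwards [hfib] with p hp
    change (Measure.count : Measure ℤ) (Sf E (Prod.map T T p)) = _
    rw [hp, Measure.count_injective_image (add_left_injective _)]
  obtain ⟨c0, hc0⟩ := hE2.ae_eq_const_of_ae_eq_comp_ae hcm.aestronglyMeasurable hcinv
  have hνE : ν E = c0 := by
    rw [hν, Measure.prod_apply hEm]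
    calc ∫⁻ p, (Measure.count : Measure ℤ) (Prod.mk p ⁻¹' E) ∂(μ.prod μ)
        = ∫⁻ _, c0 ∂(μ.prod μ) := lintegral_congr_ae hc0
      _ = c0 := by rw [lintegral_const, measure_univ, mul_one]
  have hcf : c0 < ∞ := by
    rw [← hνE]
    exact hEf.lt_top
  have hcz : c0 ≠ 0 := by
    rw [← hνE]
    exact hE0
  have hfin : ∀ p, (Measure.count : Measure ℤ) (Sf E p) = c0 → (Sf E p).Finite := by
    intro p hp
    exact Measure.count_apply_lt_top.1 (by rw [hp]; exact hcf)
  obtain ⟨p0, hp0⟩ := hc0.exists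
  have hp0' : (Measure.count : Measure ℤ) (Sf E p0) = c0 := hp0
  have hn : ∀ p, (Measure.count : Measure ℤ) (Sf E p) = c0 →
      (Sf E p).ncard = (Sf E p0).ncard := by
    intro p hp
    rw [← hp0', Measure.count_apply (MeasurableSet.of_discrete),
      Measure.count_apply (MeasurableSet.of_discrete)] at hp
    have h1 := ENat.toENNReal_inj.1 hp
    rw [Set.ncard_def, Set.ncard_def, h1]
  have hne : (Sf E p0).Nonempty := by
    rw [← Measure.count_ne_zero_iff, hp0']
    exact hcz
  refine ⟨(Sf E p0).ncard, (Set.ncard_pos (hfin p0 hp0')).2 hne, bb E, bb_meas hEm, ?_⟩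
  filter_upwards [hfib, hc0] with p hp hcp
  have hf := hfin p hcp
  have hf' : (Sf E (Prod.map T T p)).Finite := by
    rw [hp]
    exact hf.image _
  change bb E (Prod.map T T p) = bb E p + ((Sf E p0).ncard : ℤ) * dl A p
  have e1 : bb E p = ∑ m ∈ hf.toFinset, m := dif_pos hf
  have e2 : bb E (Prod.map T T p) = ∑ m ∈ hf'.toFinset, m := dif_pos hf'
  have e3 : hf'.toFinset = hf.toFinset.image (fun m => m + dl A p) := by
    ext m
    rw [Set.Finite.mem_toFinset, hp, Finset.mem_image, Set.mem_image]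
    simp only [Set.Finite.mem_toFinset]
  rw [e1, e2, e3, Finset.sum_image (fun a _ b _ h => add_left_injective _ h),
    Finset.sum_add_distrib, Finset.sum_const, nsmul_eq_mul, ← Set.ncard_eq_toFinset_card _ hf,
    hn p hcp]

end R970.WM
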